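import Mathlib

set_option autoImplicit false

namespace Pool.Agent.Helper15.Hall

open Finset

/-- The classical divisor bound: the number of divisors of `n` is at most `C_ε n^ε`. -/
theorem card_divisors_le_rpow (ε : ℝ) (hε : 0 < ε) :
    ∃ C : ℝ, 1 ≤ C ∧ ∀ n : ℕ, n ≠ 0 → (n.divisors.card : ℝ) ≤ C * (n : ℝ) ^ ε := by
  set D : ℝ := max 1 (1 / (ε * Real.log 2)) with hD
  have hlog2 : 0 < Real.log 2 := Real.log_pos (by norm_num)
  have hD1 : 1 ≤ D := le_max_left _ _
  have hD2 : 1 ≤ D * (ε * Real.log 2) := by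
    have h1 : 1 / (ε * Real.log 2) ≤ D := le_max_right _ _
    have h2 : 0 < ε * Real.log 2 := by positivity
    rw [div_le_iff₀ h2] at h1
    exact h1
  set P : ℕ := ⌈(2 : ℝ) ^ (1 / ε)⌉₊ with hP
  refine ⟨D ^ P, one_le_pow₀ hD1, ?_⟩
  intro n hn
  have hcard : (n.divisors.card : ℝ) = ∏ p ∈ n.primeFactors, ((n.factorization p : ℝ) + 1) := by
    rw [Nat.card_divisors hn]
    push_cast
    rfl
  have hpow : (n : ℝ) ^ ε = ∏ p ∈ n.primeFactors, ((p : ℝ) ^ (n.factorization p)) ^ ε := by
    rw [Real.finsetProd_rpow]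
    · congr 1
      conv_lhs => rw [← Nat.prod_factorization_pow_eq_self hn]
      rw [Finsupp.prod, Nat.support_factorization]
      push_cast
      rfl
    · intro i _
      positivity
  -- each factor
  have hfac : ∀ p ∈ n.primeFactors, ((n.factorization p : ℝ) + 1) ≤
      (if p < P then D else 1) * ((p : ℝ) ^ (n.factorization p)) ^ ε := by
    intro p hp
    have hpp : p.Prime := Nat.prime_of_mem_primeFactors hp
    have hp2 : (2 : ℝ) ≤ p := by exact_mod_cast hpp.two_le
    set v := n.factorization p with hv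
    have hpow2 : ((p : ℝ) ^ v) ^ ε = (p : ℝ) ^ (ε * v) := by
      rw [← Real.rpow_natCast, ← Real.rpow_mul (by positivity)]
      congr 1
      ring
    rw [hpow2]
    split_ifs with h
    · -- small prime
      have h1 : (2 : ℝ) ^ (ε * v) ≤ (p : ℝ) ^ (ε * v) :=
        Real.rpow_le_rpow (by norm_num) hp2 (by positivity)
      have h2 : ε * v * Real.log 2 + 1 ≤ (2 : ℝ) ^ (ε * v) := by
        rw [Real.rpow_def_of_pos (by norm_num)]
        have := Real.add_one_le_exp (Real.log 2 * (ε * v))
        linarith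
      have h3 : (v : ℝ) + 1 ≤ D * (ε * v * Real.log 2 + 1) := by
        have hv0 : (0 : ℝ) ≤ v := Nat.cast_nonneg _
        have h4 : (v : ℝ) * 1 ≤ v * (D * (ε * Real.log 2)) :=
          mul_le_mul_of_nonneg_left hD2 hv0
        nlinarith
      calc (v : ℝ) + 1 ≤ D * (ε * v * Real.log 2 + 1) := h3
        _ ≤ D * (p : ℝ) ^ (ε * v) := by
          apply mul_le_mul_of_nonneg_left (le_trans h2 h1) (by linarith)
    · -- large prime
      rw [one_mul]
      have h1 : (2 : ℝ) ^ (1 / ε) ≤ p := by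
        push Not at h
        calc (2 : ℝ) ^ (1 / ε) ≤ (P : ℝ) := Nat.le_ceil _
          _ ≤ p := by exact_mod_cast h
      have h2 : (2 : ℝ) ≤ (p : ℝ) ^ ε := by
        calc (2 : ℝ) = ((2 : ℝ) ^ (1 / ε)) ^ ε := by
              rw [← Real.rpow_mul (by norm_num)]
              rw [one_div_mul_cancel hε.ne']
              simp
          _ ≤ (p : ℝ) ^ ε := Real.rpow_le_rpow (by positivity) h1 hε.le
      have h3 : (p : ℝ) ^ (ε * v) = ((p : ℝ) ^ ε) ^ v := by
        rw [Real.rpow_mul (by positivity), Real.rpow_natCast]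
      rw [h3]
      calc (v : ℝ) + 1 ≤ (2 : ℝ) ^ v := by
            have : v + 1 ≤ 2 ^ v := Nat.lt_two_pow_self
            exact_mod_cast this
        _ ≤ ((p : ℝ) ^ ε) ^ v := pow_le_pow_left₀ (by norm_num) h2 v
  calc (n.divisors.card : ℝ) = ∏ p ∈ n.primeFactors, ((n.factorization p : ℝ) + 1) := hcard
    _ ≤ ∏ p ∈ n.primeFactors, ((if p < P then D else 1) * ((p : ℝ) ^ (n.factorization p)) ^ ε) :=
        prod_le_prod (fun i _ => by positivity) hfac
    _ = (∏ p ∈ n.primeFactors, (if p < P then D else 1)) * (n : ℝ) ^ ε := by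
        rw [prod_mul_distrib, ← hpow]
    _ ≤ D ^ P * (n : ℝ) ^ ε := by
        apply mul_le_mul_of_nonneg_right _ (by positivity)
        rw [prod_ite]
        simp only [prod_const, one_pow, mul_one]
        apply pow_le_pow_right₀ hD1
        calc (n.primeFactors.filter (fun p => p < P)).card ≤ (range P).card := by
              apply card_le_card
              intro p hp
              rw [mem_filter] at hp
              exact mem_range.2 hp.2
          _ = P := card_range P

/-- A uniform version: all `k ≤ N`. -/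
theorem card_divisors_le_uniform (ε : ℝ) (hε : 0 < ε) :
    ∃ C : ℝ, 1 ≤ C ∧ ∀ N n : ℕ, n ≠ 0 → n ≤ N → (n.divisors.card : ℝ) ≤ C * (N : ℝ) ^ ε := by
  obtain ⟨C, hC, h⟩ := card_divisors_le_rpow ε hε
  refine ⟨C, hC, fun N n hn hnN => le_trans (h n hn) ?_⟩
  apply mul_le_mul_of_nonneg_left _ (by linarith)
  exact Real.rpow_le_rpow (by positivity) (by exact_mod_cast hnN) hε.le

end Pool.Agent.Helper15.Hall
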