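import Mathlib

set_option autoImplicit false

namespace Pool.Agent.Helper15.Hall2

lemma sq_aux (z u v : ℝ) (h : z ≤ (84 * u + 50 * v) ^ 2) :
    z ≤ 14112 * u ^ 2 + 5000 * v ^ 2 := by
  have e : (84 * u + 50 * v) ^ 2 = 14112 * u ^ 2 + 5000 * v ^ 2 - (84 * u - 50 * v) ^ 2 := by ring
  have e2 := sq_nonneg (84 * u - 50 * v)
  linarith

lemma sq_aux2 (z b b' : ℝ) (h : b ^ 2 ≤ 11 * z) (h' : b' ^ 2 ≤ 11 * z) :
    (b + b') ^ 2 ≤ 44 * z := by
  have e : (b + b') ^ 2 = 2 * (b ^ 2 + b' ^ 2) - (b - b') ^ 2 := by ring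
  have e2 := sq_nonneg (b - b')
  linarith

/-- The second factor in the difference identity is large. -/
theorem bracket_bound {R Q D W L a k N B B' U U' G : ℝ}
    (hR : 100000 ≤ R) (hQ : 1 ≤ Q) (hD : 0 < D) (hW : 0 < W) (hL : 1 ≤ L)
    (ha1 : 1 ≤ a) (haq : a ≤ Q) (hk : L * a ^ 2 ≤ k)
    (p3 : 5000 * W ≤ R)
    (p4 : 1300000 * W ^ 2 ≤ R * Q * L ^ 3)
    (p7 : 450000 * (Q ^ 3 * D ^ 2) ≤ R ^ 3 * L ^ 3)
    (hN : N = a * R * k)
    (hB1 : 1.3 * N ≤ B ^ 2) (hB2 : B ^ 2 ≤ 11 * N)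
    (hB'1 : 1.3 * N ≤ B' ^ 2) (hB'2 : B' ^ 2 ≤ 11 * N)
    (hU : |U| ≤ 42 * (a * W / Q) + 25 * (a ^ 5 * D / R))
    (hU' : |U'| ≤ 42 * (a * W / Q) + 25 * (a ^ 5 * D / R))
    (hG : |G| ≤ 50 * (a * W)) :
    k * N ≤ |2 * k * (B * B') + (U + U') * (B + B') + 6 * k * G| := by
  have hR0 : 0 < R := by linarith
  have hQ0 : 0 < Q := by linarith
  have ha0 : 0 < a := by linarith
  have hL0 : 0 < L := by linarith
  have hk0 : 0 < k := lt_of_lt_of_le (by positivity) hk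
  have hN0 : 0 < N := by rw [hN]; positivity
  -- |B B'| ≥ 1.3 N
  have h1 : 1.3 * N ≤ |B * B'| := by
    have e1 : (1.3 * N) ^ 2 ≤ (B * B') ^ 2 := by
      have : (1.3 * N) * (1.3 * N) ≤ B ^ 2 * B' ^ 2 :=
        mul_le_mul hB1 hB'1 (by positivity) (by positivity)
      calc (1.3 * N) ^ 2 = (1.3 * N) * (1.3 * N) := by ring
        _ ≤ B ^ 2 * B' ^ 2 := this
        _ = (B * B') ^ 2 := by ring
    have e2 := sq_le_sq.1 e1
    rwa [abs_of_pos (by positivity : (0 : ℝ) < 1.3 * N)] at e2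
  -- lower bound for k² N
  have h2 : R * L ^ 3 * a ^ 7 ≤ k ^ 2 * N := by
    have e1 : (L * a ^ 2) ^ 3 ≤ k ^ 3 := pow_le_pow_left₀ (by positivity) hk 3
    calc R * L ^ 3 * a ^ 7 = a * R * (L * a ^ 2) ^ 3 := by ring
      _ ≤ a * R * k ^ 3 := by gcongr
      _ = k ^ 2 * N := by rw [hN]; ring
  have h2a : 1241856 * (a * W / Q) ^ 2 ≤ k ^ 2 * N := by
    refine le_trans ?_ h2
    have e1 : (a * W / Q) ^ 2 = a ^ 2 * W ^ 2 / Q ^ 2 := by ring
    rw [e1, ← mul_div_assoc, div_le_iff₀ (by positivity)]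
    have e2 : 1 ≤ a ^ 5 := one_le_pow₀ ha1
    calc 1241856 * (a ^ 2 * W ^ 2) ≤ a ^ 2 * (1300000 * W ^ 2) := by
          have : 0 ≤ a ^ 2 * W ^ 2 := by positivity
          nlinarith
      _ ≤ a ^ 2 * (R * Q * L ^ 3) := by gcongr
      _ = R * L ^ 3 * a ^ 2 * 1 * (Q * 1) := by ring
      _ ≤ R * L ^ 3 * a ^ 2 * a ^ 5 * (Q * Q) := by gcongr
      _ = R * L ^ 3 * a ^ 7 * Q ^ 2 := by ring
  have h2b : 440000 * (a ^ 5 * D / R) ^ 2 ≤ k ^ 2 * N := by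
    refine le_trans ?_ h2
    have e1 : (a ^ 5 * D / R) ^ 2 = a ^ 10 * D ^ 2 / R ^ 2 := by ring
    rw [e1, ← mul_div_assoc, div_le_iff₀ (by positivity)]
    have e2 : a ^ 3 ≤ Q ^ 3 := pow_le_pow_left₀ ha0.le haq 3
    calc 440000 * (a ^ 10 * D ^ 2) ≤ a ^ 7 * (450000 * (a ^ 3 * D ^ 2)) := by
          have : 0 ≤ a ^ 10 * D ^ 2 := by positivity
          nlinarith
      _ ≤ a ^ 7 * (450000 * (Q ^ 3 * D ^ 2)) := by gcongr
      _ ≤ a ^ 7 * (R ^ 3 * L ^ 3) := by gcongr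
      _ = R * L ^ 3 * a ^ 7 * R ^ 2 := by ring
  have h3 : |(U + U') * (B + B')| ≤ k * N := by
    set u1 := a * W / Q with hu1
    set u2 := a ^ 5 * D / R with hu2
    have hu1p : 0 < u1 := by rw [hu1]; positivity
    have hu2p : 0 < u2 := by rw [hu2]; positivity
    have e1 : |U + U'| ≤ 84 * u1 + 50 * u2 := by
      have := abs_add_le U U'
      linarith
    have e2 : (U + U') ^ 2 ≤ 14112 * u1 ^ 2 + 5000 * u2 ^ 2 := by
      apply sq_aux
      rw [← sq_abs]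
      exact pow_le_pow_left₀ (abs_nonneg _) e1 2
    have e3 : (B + B') ^ 2 ≤ 44 * N := sq_aux2 N B B' hB2 hB'2
    have e4 : ((U + U') * (B + B')) ^ 2 ≤ (k * N) ^ 2 := by
      calc ((U + U') * (B + B')) ^ 2 = (U + U') ^ 2 * (B + B') ^ 2 := by ring
        _ ≤ (14112 * u1 ^ 2 + 5000 * u2 ^ 2) * (44 * N) :=
            mul_le_mul e2 e3 (by positivity) (by positivity)
        _ = (620928 * u1 ^ 2 + 220000 * u2 ^ 2) * N := by ring
        _ ≤ k ^ 2 * N * N := by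
            apply mul_le_mul_of_nonneg_right _ hN0.le
            linarith
        _ = (k * N) ^ 2 := by ring
    exact abs_le_of_sq_le_sq e4 (by positivity)
  have h4 : |6 * k * G| ≤ 0.06 * (k * N) := by
    rw [abs_mul, abs_mul, abs_of_pos hk0, abs_of_pos (by norm_num : (0 : ℝ) < 6)]
    have hk1 : 1 ≤ k := by
      refine le_trans ?_ hk
      have e3 : 1 ≤ a ^ 2 := one_le_pow₀ ha1
      nlinarith
    calc 6 * k * |G| ≤ 6 * k * (50 * (a * W)) := mul_le_mul_of_nonneg_left hG (by positivity)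
      _ = 0.06 * k * (a * (5000 * W)) := by ring
      _ ≤ 0.06 * k * (a * R) := by gcongr
      _ = 0.06 * k * (a * R * 1) := by ring
      _ ≤ 0.06 * k * (a * R * k) := by gcongr
      _ = 0.06 * (k * N) := by rw [hN]; ring
  have h5 : |2 * k * (B * B')| = 2 * k * |B * B'| := by
    rw [abs_mul, abs_of_pos (by positivity : (0 : ℝ) < 2 * k)]
  have h6 : 2 * k * (1.3 * N) ≤ |2 * k * (B * B')| := by
    rw [h5]
    exact mul_le_mul_of_nonneg_left h1 (by positivity)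
  have h7 : |2 * k * (B * B')| ≤ |2 * k * (B * B') + (U + U') * (B + B') + 6 * k * G| +
      |(U + U') * (B + B')| + |6 * k * G| := by
    have e1 := abs_sub (2 * k * (B * B') + (U + U') * (B + B') + 6 * k * G)
      ((U + U') * (B + B') + 6 * k * G)
    have e2 : 2 * k * (B * B') + (U + U') * (B + B') + 6 * k * G -
      ((U + U') * (B + B') + 6 * k * G) = 2 * k * (B * B') := by ring
    rw [e2] at e1
    have e3 := abs_add_le ((U + U') * (B + B')) (6 * k * G)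
    linarith
  have h8 : 0 < k * N := by positivity
  have h9 : 2 * k * (1.3 * N) = 2.6 * (k * N) := by ring
  rw [h9] at h6
  clear h5
  generalize |2 * k * (B * B') + (U + U') * (B + B') + 6 * k * G| = Z1 at *
  generalize |2 * k * (B * B')| = Z2 at *
  generalize |(U + U') * (B + B')| = Z3 at *
  generalize |6 * k * G| = Z4 at *
  generalize k * N = Z5 at *
  norm_num at h6 h4
  linarith

/-- Repulsion within one family. -/
theorem diff_bound {R Q D W L a k B B' A A' U U' G d d' : ℝ}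
    (hR : 100000 ≤ R) (hQ : 1 ≤ Q) (hD : 0 < D) (hW : 0 < W) (hL : 1 ≤ L)
    (ha1 : 1 ≤ a) (haq : a ≤ Q) (hk : L * a ^ 2 ≤ k)
    (p3 : 5000 * W ≤ R)
    (p4 : 1300000 * W ^ 2 ≤ R * Q * L ^ 3)
    (p7 : 450000 * (Q ^ 3 * D ^ 2) ≤ R ^ 3 * L ^ 3)
    (hB1 : 1.3 * (a * R * k) ≤ B ^ 2) (hB2 : B ^ 2 ≤ 11 * (a * R * k))
    (hB'1 : 1.3 * (a * R * k) ≤ B' ^ 2) (hB'2 : B' ^ 2 ≤ 11 * (a * R * k))
    (hU : |U| ≤ 42 * (a * W / Q) + 25 * (a ^ 5 * D / R))
    (hU' : |U'| ≤ 42 * (a * W / Q) + 25 * (a ^ 5 * D / R))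
    (hG : |G| ≤ 50 * (a * W))
    (hUe : U = 3 * G * A - 2 * k * B) (hUe' : U' = 3 * G * A' - 2 * k * B')
    (hGe : G = 3 * B ^ 2 - 4 * A * k) (hGe' : G = 3 * B' ^ 2 - 4 * A' * k)
    (hde : 8 * a ^ 6 * d = 2 * A ^ 2 * G - B ^ 3 + 3 * B * G - 2 * k ^ 2)
    (hde' : 8 * a ^ 6 * d' = 2 * A' ^ 2 * G - B' ^ 3 + 3 * B' * G - 2 * k ^ 2)
    (hd : |d| ≤ D) (hd' : |d'| ≤ D) :
    |B - B'| * k * R ≤ 32 * (a ^ 5 * D) := by
  have hR0 : 0 < R := by linarith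
  have ha0 : 0 < a := by linarith
  have hk0 : 0 < k := lt_of_lt_of_le (by positivity) hk
  have h1 := bracket_bound hR hQ hD hW hL ha1 haq hk p3 p4 p7 rfl hB1 hB2 hB'1 hB'2 hU hU' hG
  have h2 : 16 * a ^ 6 * k * (d - d') =
      (B - B') * (2 * k * (B * B') + (U + U') * (B + B') + 6 * k * G) := by
    rw [hUe, hUe']
    linear_combination (2 * k) * hde - (2 * k) * hde' + (G * (A + A')) * hGe -
      (G * (A + A')) * hGe'
  have h3 : |B - B'| * (k * (a * R * k)) ≤ 16 * a ^ 6 * k * |d - d'| := by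
    have e1 : 16 * a ^ 6 * k * |d - d'| =
        |B - B'| * |2 * k * (B * B') + (U + U') * (B + B') + 6 * k * G| := by
      rw [← abs_mul, ← h2, abs_mul, abs_of_pos (by positivity : (0 : ℝ) < 16 * a ^ 6 * k)]
    rw [e1]
    exact mul_le_mul_of_nonneg_left h1 (abs_nonneg _)
  have h4 : |d - d'| ≤ 2 * D := by
    have := abs_sub d d'
    linarith
  have h5 : 16 * a ^ 6 * k * |d - d'| ≤ 16 * a ^ 6 * k * (2 * D) :=
    mul_le_mul_of_nonneg_left h4 (by positivity)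
  have h6 : (a * k) * (|B - B'| * k * R) ≤ (a * k) * (32 * (a ^ 5 * D)) := by
    calc (a * k) * (|B - B'| * k * R) = |B - B'| * (k * (a * R * k)) := by ring
      _ ≤ 16 * a ^ 6 * k * |d - d'| := h3
      _ ≤ 16 * a ^ 6 * k * (2 * D) := h5
      _ = (a * k) * (32 * (a ^ 5 * D)) := by ring
  exact le_of_mul_le_mul_left h6 (by positivity)

end Pool.Agent.Helper15.Hall2
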