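import Mathlib

set_option autoImplicit false

namespace Pool.Agent.Helper15.Hall

open Finset

/-- Well-spaced integers in a short interval. -/
theorem card_le_of_sep (k M : ℕ) (hk : 0 < k) (F : Finset ℤ)
    (hsep : ∀ e ∈ F, ∀ e' ∈ F, e ≠ e' → (k : ℤ) ≤ 3 * (e - e') ^ 2)
    (hb : ∀ e ∈ F, e ^ 2 ≤ (M : ℤ) ^ 2 * k) : F.card ≤ 4 * M + 1 := by
  set s : ℝ := √((k : ℝ) / 3) with hs
  have hk' : (0 : ℝ) < (k : ℝ) / 3 := by positivity
  have hs0 : 0 < s := Real.sqrt_pos.2 hk'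
  have hs2 : s ^ 2 = (k : ℝ) / 3 := Real.sq_sqrt hk'.le
  set f : ℤ → ℤ := fun e => ⌊(e : ℝ) / s⌋ with hf
  have hmaps : ∀ e ∈ F, f e ∈ Icc (-(2 * (M : ℤ))) (2 * M) := by
    intro e he
    have h1 := hb e he
    have h2 : ((e : ℝ)) ^ 2 ≤ (M : ℝ) ^ 2 * k := by exact_mod_cast h1
    have h3 : ((e : ℝ)) ^ 2 ≤ (2 * M * s) ^ 2 := by
      have : (2 * M * s) ^ 2 = (4 / 3) * ((M : ℝ) ^ 2 * k) := by
        rw [mul_pow, hs2]; ring
      rw [this]
      have : 0 ≤ (M : ℝ) ^ 2 * k := by positivity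
      linarith
    have h4 := abs_le_of_sq_le_sq h3 (by positivity)
    rw [abs_le] at h4
    simp only [hf, mem_Icc]
    constructor
    · rw [Int.le_floor]
      push_cast
      rw [le_div_iff₀ hs0]
      linarith [h4.1]
    · have : (⌊(e : ℝ) / s⌋ : ℝ) ≤ 2 * M := by
        refine le_trans (Int.floor_le _) ?_
        rw [div_le_iff₀ hs0]
        linarith [h4.2]
      exact_mod_cast this
  have hinj : Set.InjOn f F := by
    intro e he e' he' hee
    by_contra hne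
    have h1 := hsep e he e' he' hne
    have h2 : |(e : ℝ) / s - (e' : ℝ) / s| < 1 := Int.abs_sub_lt_one_of_floor_eq_floor hee
    rw [← sub_div, abs_div, abs_of_pos hs0, div_lt_one hs0] at h2
    have h3 : ((e : ℝ) - e') ^ 2 < s ^ 2 := by
      rw [← sq_abs]
      exact pow_lt_pow_left₀ h2 (abs_nonneg _) (by norm_num)
    rw [hs2] at h3
    have h4 : (k : ℝ) ≤ 3 * ((e : ℝ) - e') ^ 2 := by exact_mod_cast h1
    linarith
  calc F.card ≤ (Icc (-(2 * (M : ℤ))) (2 * M)).card := card_le_card_of_injOn f hmaps hinj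
    _ = 4 * M + 1 := by
      rw [Int.card_Icc]
      omega

/-- Solutions `e` of `k ∣ 3 e (a² e + 2 B₀)` with `|e| ≤ M √k`. -/
theorem card_e_le (k M : ℕ) (hk : 0 < k) (a B₀ : ℤ) (hco : IsCoprime (k : ℤ) a) (F : Finset ℤ)
    (hdvd : ∀ e ∈ F, (k : ℤ) ∣ 3 * e * (a ^ 2 * e + 2 * B₀))
    (hb : ∀ e ∈ F, e ^ 2 ≤ (M : ℤ) ^ 2 * k) : F.card ≤ (4 * M + 1) * k.divisors.card := by
  have hmaps : ∀ e ∈ F, Int.gcd (k : ℤ) (3 * e) ∈ k.divisors := by
    intro e _
    rw [Nat.mem_divisors]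
    refine ⟨?_, hk.ne'⟩
    have := Int.gcd_dvd_left (k : ℤ) (3 * e)
    exact_mod_cast this
  refine card_le_mul_card_image_of_maps_to hmaps (4 * M + 1) ?_
  intro k₁ _
  apply card_le_of_sep k M hk
  · intro e he e' he' hne
    rw [mem_filter] at he he'
    have hk1 : ((k₁ : ℕ) : ℤ) ∣ k := by
      rw [← he.2]; exact Int.gcd_dvd_left _ _
    obtain ⟨k₂, hk2⟩ := hk1
    have hkpos : (0 : ℤ) < k := by exact_mod_cast hk
    have hk1pos : (0 : ℤ) < (k₁ : ℤ) := by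
      have : 0 < k₁ := by
        rw [← he.2]
        apply Int.gcd_pos_of_ne_zero_left
        exact hkpos.ne'
      exact_mod_cast this
    have hk2pos : 0 < k₂ := by
      by_contra h
      push Not at h
      have : (k₁ : ℤ) * k₂ ≤ 0 := mul_nonpos_of_nonneg_of_nonpos hk1pos.le h
      omega
    -- k₂ divides a² e + 2 B₀ for every e in the fibre
    have key : ∀ u : ℤ, Int.gcd (k : ℤ) (3 * u) = k₁ → (k : ℤ) ∣ 3 * u * (a ^ 2 * u + 2 * B₀) →
        k₂ ∣ a ^ 2 * u + 2 * B₀ := by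
      intro u hu hd
      have h1 : (k₁ : ℤ) ∣ 3 * u := by rw [← hu]; exact Int.gcd_dvd_right _ _
      obtain ⟨v, hv⟩ := h1
      have hcop : IsCoprime k₂ v := by
        rw [Int.isCoprime_iff_gcd_eq_one]
        have h2 : Int.gcd ((k₁ : ℤ) * k₂) ((k₁ : ℤ) * v) = k₁ * Int.gcd k₂ v := by
          rw [Int.gcd_mul_left]
          simp
        rw [← hk2, ← hv, hu] at h2
        have h3 : 0 < k₁ := by exact_mod_cast hk1pos
        have h4 : k₁ * 1 = k₁ * Int.gcd k₂ v := by omega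
        exact (Nat.eq_of_mul_eq_mul_left h3 h4).symm
      rw [hv, hk2, mul_assoc] at hd
      have h5 := (mul_dvd_mul_iff_left hk1pos.ne').1 hd
      exact hcop.dvd_of_dvd_mul_left h5
    have h1 := key e he.2 (hdvd e he.1)
    have h2 := key e' he'.2 (hdvd e' he'.1)
    have h3 : k₂ ∣ a ^ 2 * (e - e') := by
      have := dvd_sub h1 h2
      have h4 : a ^ 2 * e + 2 * B₀ - (a ^ 2 * e' + 2 * B₀) = a ^ 2 * (e - e') := by ring
      rwa [h4] at this
    have hco2 : IsCoprime k₂ (a ^ 2) := by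
      apply IsCoprime.pow_right
      rw [hk2] at hco
      exact hco.of_mul_left_right
    have h4 : k₂ ∣ (e - e') := hco2.dvd_of_dvd_mul_left h3
    have h5 : (k₁ : ℤ) ∣ 3 * (e - e') := by
      have h6 : (k₁ : ℤ) ∣ 3 * e := by rw [← he.2]; exact Int.gcd_dvd_right _ _
      have h7 : (k₁ : ℤ) ∣ 3 * e' := by rw [← he'.2]; exact Int.gcd_dvd_right _ _
      have := dvd_sub h6 h7
      rwa [← mul_sub] at this
    have h6 : (k : ℤ) ∣ 3 * (e - e') ^ 2 := by
      rw [hk2]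
      have : 3 * (e - e') ^ 2 = (3 * (e - e')) * (e - e') := by ring
      rw [this]
      exact mul_dvd_mul h5 h4
    apply Int.le_of_dvd _ h6
    have : e - e' ≠ 0 := sub_ne_zero.2 hne
    positivity
  · intro e he
    rw [mem_filter] at he
    exact hb e he.1

/-- A set of integers in `[lo, hi]`, all congruent modulo `m` after multiplication by `c`. -/
theorem card_le_of_modEq (m : ℕ) (hm : 0 < m) (c : ℤ) (hc : 0 < c) (H : ℕ) (F : Finset ℤ)
    (h0 : ∀ z ∈ F, 0 ≤ z) (h1 : ∀ z ∈ F, c * z ≤ H)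
    (hcong : ∀ z ∈ F, ∀ w ∈ F, (m : ℤ) ∣ c * (z - w)) : F.card ≤ H / m + 1 := by
  have hm' : (0 : ℤ) < m := by exact_mod_cast hm
  have hmaps : ∀ z ∈ F, (c * z) / (m : ℤ) ∈ Icc (0 : ℤ) ((H : ℤ) / m) := by
    intro z hz
    rw [mem_Icc]
    exact ⟨Int.ediv_nonneg (mul_nonneg hc.le (h0 z hz)) hm'.le,
      Int.ediv_le_ediv hm' (h1 z hz)⟩
  have hinj : Set.InjOn (fun z : ℤ => (c * z) / (m : ℤ)) F := by
    intro z hz w hw hzw
    simp only at hzw
    obtain ⟨q, hq⟩ := hcong z hz w hw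
    have e1 := Int.mul_ediv_add_emod (c * z) m
    have e2 := Int.mul_ediv_add_emod (c * w) m
    have e3 : (c * z) % m = (c * w) % m := by
      apply Int.emod_emod_of_dvd _ (dvd_refl _) |>.symm.trans
      rw [Int.emod_emod_of_dvd _ (dvd_refl _)]
      apply Int.emod_emod_of_dvd _ (dvd_refl _) |>.symm.trans
      rw [Int.emod_emod_of_dvd _ (dvd_refl _)]
      apply Int.ModEq.symm
      rw [Int.modEq_iff_dvd]
      rw [← mul_sub]
      exact hcong z hz w hw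
    have e4 : c * z = c * w := by
      rw [← e1, ← e2, hzw, e3]
    exact mul_left_cancel₀ hc.ne' e4
  calc F.card ≤ (Icc (0 : ℤ) ((H : ℤ) / m)).card := card_le_card_of_injOn _ hmaps hinj
    _ = H / m + 1 := by
      rw [Int.card_Icc]
      have : (0 : ℤ) ≤ (H : ℤ) / m := by positivity
      omega

/-- Integer version of `card_le_of_modEq`. -/
theorem card_le_of_modEq' (m : ℤ) (hm : 0 < m) (c : ℤ) (hc : 0 < c) (H : ℤ) (hH : 0 ≤ H)
    (F : Finset ℤ) (h0 : ∀ z ∈ F, 0 ≤ z) (h1 : ∀ z ∈ F, c * z ≤ H)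
    (hcong : ∀ z ∈ F, ∀ w ∈ F, m ∣ c * (z - w)) : (F.card : ℤ) ≤ H / m + 1 := by
  lift m to ℕ using hm.le
  lift H to ℕ using hH
  have := card_le_of_modEq m (by exact_mod_cast hm) c hc H F h0 h1 hcong
  exact_mod_cast this

end Pool.Agent.Helper15.Hall
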