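import Mathlib

set_option autoImplicit false

namespace Pool.Agent.Helper15.Hall

/-- Real data attached to an almost-solution: `A = a t - α`, `c = a³ (t³ - y)`. -/
structure RD (q K t a A α c : ℝ) : Prop where
  hq : 1000 ≤ q
  hK : 1 ≤ K
  hKq : K ≤ q ^ 2
  ht1 : q ^ 3 ≤ t
  ht2 : t ≤ 8 * q ^ 3
  ha1 : 1 ≤ a
  haq : a ≤ q
  hA : A = a * t - α
  hα : |α| * q ≤ 1
  hc : |c| * t ^ 2 ≤ a ^ 3 * K

namespace RD

variable {q K t a A α c : ℝ}

lemma q_pos (h : RD q K t a A α c) : 0 < q := by linarith [h.hq]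

lemma a_pos (h : RD q K t a A α c) : 0 < a := by linarith [h.ha1]

lemma q3 (h : RD q K t a A α c) : 1000000000 ≤ q ^ 3 := by
  have := pow_le_pow_left₀ (by norm_num) h.hq 3
  norm_num at this
  linarith

lemma t_pos (h : RD q K t a A α c) : 0 < t := by linarith [h.ht1, h.q3]

lemma alpha_le (h : RD q K t a A α c) : |α| ≤ 1 / 1000 := by
  have h1 := h.hα
  have h2 : |α| * 1000 ≤ |α| * q := mul_le_mul_of_nonneg_left h.hq (abs_nonneg _)
  linarith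

lemma A_lower (h : RD q K t a A α c) : 0.99 * (a * t) ≤ A := by
  have h1 := h.alpha_le
  rw [abs_le] at h1
  have h2 : 1 * t ≤ a * t := mul_le_mul_of_nonneg_right h.ha1 h.t_pos.le
  have h3 := h.ht1
  have h4 := h.q3
  rw [h.hA]
  norm_num
  linarith

lemma A_upper (h : RD q K t a A α c) : A ≤ 1.01 * (a * t) := by
  have h1 := h.alpha_le
  rw [abs_le] at h1
  have h2 : 1 * t ≤ a * t := mul_le_mul_of_nonneg_right h.ha1 h.t_pos.le
  have h3 := h.ht1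
  have h4 := h.q3
  rw [h.hA]
  norm_num
  linarith

lemma A_pos (h : RD q K t a A α c) : 0 < A := by
  have := h.A_lower
  have h2 : 0 < a * t := mul_pos h.a_pos h.t_pos
  linarith

lemma A_upper' (h : RD q K t a A α c) : A ≤ 8.08 * (a * q ^ 3) := by
  have h1 := h.A_upper
  have h2 : a * t ≤ a * (8 * q ^ 3) := mul_le_mul_of_nonneg_left h.ht2 h.a_pos.le
  linarith

lemma A_lower' (h : RD q K t a A α c) : 0.99 * (a * q ^ 3) ≤ A := by
  have h1 := h.A_lower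
  have h2 : a * q ^ 3 ≤ a * t := mul_le_mul_of_nonneg_left h.ht1 h.a_pos.le
  linarith

lemma aq2 (h : RD q K t a A α c) : (|α| * q) ^ 2 ≤ 1 := by
  have h1 := h.hα
  have h2 : 0 ≤ |α| * q := mul_nonneg (abs_nonneg _) h.q_pos.le
  exact pow_le_one₀ h2 h1

lemma aq3 (h : RD q K t a A α c) : (|α| * q) ^ 3 ≤ 1 := by
  have h1 := h.hα
  have h2 : 0 ≤ |α| * q := mul_nonneg (abs_nonneg _) h.q_pos.le
  exact pow_le_one₀ h2 h1

lemma Aa2 (h : RD q K t a A α c) : A * |α| ^ 2 ≤ 8.08 * (a * q) := by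
  have h1 := h.A_upper'
  have h2 := h.aq2
  have h3 : A * |α| ^ 2 ≤ 8.08 * (a * q ^ 3) * |α| ^ 2 :=
    mul_le_mul_of_nonneg_right h1 (by positivity)
  have h4 : 8.08 * (a * q ^ 3) * |α| ^ 2 = 8.08 * (a * q) * (|α| * q) ^ 2 := by ring
  have h5 : 8.08 * (a * q) * (|α| * q) ^ 2 ≤ 8.08 * (a * q) * 1 :=
    mul_le_mul_of_nonneg_left h2 (by have := h.a_pos; have := h.q_pos; positivity)
  linarith

lemma Aa3 (h : RD q K t a A α c) : A * |α| ^ 3 ≤ 8.08 * a := by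
  have h1 := h.A_upper'
  have h2 := h.aq3
  have h3 : A * |α| ^ 3 ≤ 8.08 * (a * q ^ 3) * |α| ^ 3 :=
    mul_le_mul_of_nonneg_right h1 (by positivity)
  have h4 : 8.08 * (a * q ^ 3) * |α| ^ 3 = 8.08 * a * (|α| * q) ^ 3 := by ring
  have h5 : 8.08 * a * (|α| * q) ^ 3 ≤ 8.08 * a * 1 :=
    mul_le_mul_of_nonneg_left h2 (by have := h.a_pos; positivity)
  linarith

lemma Aa4 (h : RD q K t a A α c) : A * |α| ^ 4 ≤ 0.00808 * a := by
  have h1 := h.Aa3
  have h2 := h.alpha_le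
  have h3 : A * |α| ^ 4 = (A * |α| ^ 3) * |α| := by ring
  rw [h3]
  have h4 : (A * |α| ^ 3) * |α| ≤ (8.08 * a) * (1 / 1000) := by
    apply mul_le_mul h1 h2 (abs_nonneg _)
    have := h.a_pos
    positivity
  linarith

lemma tc (h : RD q K t a A α c) : t * |c| ≤ K := by
  have h1 := h.hc
  have ht := h.t_pos
  have h2 : a ^ 3 ≤ t := le_trans (pow_le_pow_left₀ h.a_pos.le h.haq 3) h.ht1
  have hK : 0 ≤ K := by linarith [h.hK]
  have h3 : a ^ 3 * K ≤ t * K := mul_le_mul_of_nonneg_right h2 hK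
  have h4 : t * (t * |c|) ≤ t * K := by nlinarith
  exact le_of_mul_le_mul_left h4 ht

lemma c_small (h : RD q K t a A α c) : |c| ≤ 1 / 1000 := by
  have h1 := h.tc
  have hq := h.q_pos
  have h2 : q ^ 3 * |c| ≤ t * |c| := mul_le_mul_of_nonneg_right h.ht1 (abs_nonneg _)
  have h3 : q ^ 2 * (q * |c|) ≤ q ^ 2 * 1 := by nlinarith [h.hKq]
  have h4 : q * |c| ≤ 1 := le_of_mul_le_mul_left h3 (by positivity)
  have h5 : 1000 * |c| ≤ q * |c| := mul_le_mul_of_nonneg_right h.hq (abs_nonneg _)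
  linarith

lemma Ac (h : RD q K t a A α c) : A * |c| ≤ 1.01 * (a * K) := by
  have h1 := h.tc
  have h2 := h.A_upper
  have h3 : A * |c| ≤ 1.01 * (a * t) * |c| := mul_le_mul_of_nonneg_right h2 (abs_nonneg _)
  have h4 : a * (t * |c|) ≤ a * K := mul_le_mul_of_nonneg_left h1 h.a_pos.le
  nlinarith

lemma A2c (h : RD q K t a A α c) : A ^ 2 * |c| ≤ 1.0201 * (a ^ 5 * K) := by
  have h1 := h.hc
  have h2 : A ^ 2 ≤ (1.01 * (a * t)) ^ 2 := pow_le_pow_left₀ h.A_pos.le h.A_upper 2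
  have h3 : A ^ 2 * |c| ≤ (1.01 * (a * t)) ^ 2 * |c| :=
    mul_le_mul_of_nonneg_right h2 (abs_nonneg _)
  have h4 : (1.01 * (a * t)) ^ 2 * |c| = 1.0201 * (a ^ 2 * (|c| * t ^ 2)) := by ring
  have h5 : a ^ 2 * (|c| * t ^ 2) ≤ a ^ 2 * (a ^ 3 * K) :=
    mul_le_mul_of_nonneg_left h1 (by positivity)
  have h6 : a ^ 2 * (a ^ 3 * K) = a ^ 5 * K := by ring
  rw [h6] at h5
  linarith

lemma aK (h : RD q K t a A α c) : a ≤ a * K := by
  have := mul_le_mul_of_nonneg_left h.hK h.a_pos.le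
  linarith

lemma aK5 (h : RD q K t a A α c) : a ≤ a ^ 5 * K := by
  have h1 : 1 ≤ a ^ 4 := one_le_pow₀ h.ha1
  have h2 : a * 1 ≤ a * (a ^ 4 * K) := by
    apply mul_le_mul_of_nonneg_left _ h.a_pos.le
    nlinarith [h.hK]
  have h3 : a * (a ^ 4 * K) = a ^ 5 * K := by ring
  linarith

/-- bound for `G = 4Aα³+3α⁴+8Ac` -/
lemma G_bound (h : RD q K t a A α c) :
    |4 * A * α ^ 3 + 3 * α ^ 4 + 8 * A * c| ≤ 50 * (a * K) := by
  have hA := h.A_pos
  have h1 : |4 * A * α ^ 3| ≤ 4 * (8.08 * a) := by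
    rw [abs_mul, abs_mul, abs_pow, abs_of_pos hA]
    have := h.Aa3
    rw [abs_of_pos (by norm_num : (0 : ℝ) < 4)]
    linarith
  have h2 : |3 * α ^ 4| ≤ 3 * a := by
    rw [abs_mul, abs_pow, abs_of_pos (by norm_num : (0 : ℝ) < 3)]
    have h3 : |α| ^ 4 ≤ 1 := pow_le_one₀ (abs_nonneg _) (by linarith [h.alpha_le])
    linarith [h.ha1]
  have h3 : |8 * A * c| ≤ 8 * (1.01 * (a * K)) := by
    rw [abs_mul, abs_mul, abs_of_pos hA, abs_of_pos (by norm_num : (0 : ℝ) < 8)]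
    have := h.Ac
    linarith
  have h4 := h.aK
  have h5 := abs_add_le (4 * A * α ^ 3 + 3 * α ^ 4) (8 * A * c)
  have h6 := abs_add_le (4 * A * α ^ 3) (3 * α ^ 4)
  have h7 := h.a_pos
  norm_num at *
  linarith

/-- upper bound for `k = 3Aα²+2α³-2c` -/
lemma k_upper (h : RD q K t a A α c) :
    3 * A * α ^ 2 + 2 * α ^ 3 - 2 * c ≤ 30 * (a * q) := by
  have h1 := h.Aa2
  rw [sq_abs] at h1
  have h2 : |α ^ 3| ≤ 1 := by
    rw [abs_pow]
    exact pow_le_one₀ (abs_nonneg _) (by linarith [h.alpha_le])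
  have h3 := h.c_small
  rw [abs_le] at h2 h3
  have h4 : 1 * 1000 ≤ a * q := mul_le_mul h.ha1 h.hq (by norm_num) h.a_pos.le
  norm_num at *
  linarith [h2.2, h3.1]

lemma k_lower (h : RD q K t a A α c) :
    -1 < 3 * A * α ^ 2 + 2 * α ^ 3 - 2 * c := by
  have h1 : |α ^ 3| ≤ (1 / 1000) ^ 3 := by
    rw [abs_pow]
    exact pow_le_pow_left₀ (abs_nonneg _) h.alpha_le 3
  have h3 := h.c_small
  rw [abs_le] at h1 h3
  have h4 : 0 ≤ 3 * A * α ^ 2 := by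
    have := h.A_pos
    positivity
  norm_num at *
  linarith [h1.1, h3.2]

/-- bound for `U = 3GA - 2kB` -/
lemma U_bound (h : RD q K t a A α c) :
    |-5 * A * α ^ 4 - 4 * α ^ 5 + c * (24 * A ^ 2 + 8 * A * α + 4 * α ^ 2)| ≤
      26 * (a ^ 5 * K) := by
  have hA := h.A_pos
  have hα := h.alpha_le
  have hA1 : 1 ≤ A := by
    have h1 := h.A_lower'
    have h2 : 1 * 1000000000 ≤ a * q ^ 3 := mul_le_mul h.ha1 h.q3 (by norm_num) h.a_pos.le
    norm_num at *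
    linarith
  have h1 : |5 * A * α ^ 4| ≤ 5 * (0.00808 * a) := by
    rw [abs_mul, abs_mul, abs_pow, abs_of_pos hA]
    have := h.Aa4
    rw [abs_of_pos (by norm_num : (0 : ℝ) < 5)]
    linarith
  have h2 : |4 * α ^ 5| ≤ 0.001 * a := by
    rw [abs_mul, abs_pow, abs_of_pos (by norm_num : (0 : ℝ) < 4)]
    have h3 : |α| ^ 5 ≤ (1 / 1000) ^ 5 := pow_le_pow_left₀ (abs_nonneg _) hα 5
    have := h.ha1
    norm_num at *
    linarith
  have h3 : |24 * A ^ 2 + 8 * A * α + 4 * α ^ 2| ≤ 24.1 * A ^ 2 := by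
    have e1 : A ≤ A ^ 2 := by nlinarith
    have e2 : |A * α| ≤ A ^ 2 * (1 / 1000) := by
      rw [abs_mul, abs_of_pos hA]
      exact mul_le_mul e1 hα (abs_nonneg _) (by positivity)
    have e3 : α ^ 2 ≤ (1 / 1000) ^ 2 := by
      rw [← sq_abs]
      exact pow_le_pow_left₀ (abs_nonneg _) hα 2
    have e4 : 0 ≤ α ^ 2 := sq_nonneg _
    rw [abs_le] at e2 ⊢
    norm_num at *
    constructor
    · nlinarith [e2.1]
    · nlinarith [e2.2]
  have h4 : |c * (24 * A ^ 2 + 8 * A * α + 4 * α ^ 2)| ≤ 24.1 * (1.0201 * (a ^ 5 * K)) := by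
    rw [abs_mul]
    have e1 : |c| * |24 * A ^ 2 + 8 * A * α + 4 * α ^ 2| ≤ |c| * (24.1 * A ^ 2) :=
      mul_le_mul_of_nonneg_left h3 (abs_nonneg _)
    have e2 := h.A2c
    have e3 : |c| * (24.1 * A ^ 2) = 24.1 * (A ^ 2 * |c|) := by ring
    rw [e3] at e1
    linarith
  have h5 := h.aK5
  have h6 := abs_add_le (-5 * A * α ^ 4 - 4 * α ^ 5) (c * (24 * A ^ 2 + 8 * A * α + 4 * α ^ 2))
  have h7 : |-5 * A * α ^ 4 - 4 * α ^ 5| ≤ |5 * A * α ^ 4| + |4 * α ^ 5| := by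
    have : -5 * A * α ^ 4 - 4 * α ^ 5 = -(5 * A * α ^ 4 + 4 * α ^ 5) := by ring
    rw [this, abs_neg]
    exact abs_add_le _ _
  have h8 := h.a_pos
  norm_num at *
  linarith

end RD

end Pool.Agent.Helper15.Hall
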