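import Mathlib
import Pool.Agent.Helper15.HallReal
import Pool.Agent.Helper15.HallFam
import Pool.Agent.Helper15.HallCount

set_option autoImplicit false

namespace Pool.Agent.Helper15.Hall

/-- An almost-solution of `y² = x³` together with a Dirichlet approximation `A / a` of `√x`. -/
structure Datum (Q K x y a A : ℤ) : Prop where
  hQ : 1000 ≤ Q
  hK : 1 ≤ K
  hKQ : K ≤ Q ^ 2
  hx1 : Q ^ 6 ≤ x
  hx2 : x ≤ 64 * Q ^ 6
  hy : 1 ≤ y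
  hd0 : x ^ 3 - y ^ 2 ≠ 0
  hd : (x ^ 3 - y ^ 2) ^ 2 ≤ K ^ 2 * x
  ha1 : 1 ≤ a
  haQ : a ≤ Q
  hco : IsCoprime A a
  hα : |(a : ℝ) * √(x : ℝ) - A| * Q ≤ 1

/-- `B = a² x - A²`. -/
def Bz (x a A : ℤ) : ℤ := a ^ 2 * x - A ^ 2

/-- `k = 2a³y - 2A³ - 3AB`. -/
def kz (x y a A : ℤ) : ℤ := 2 * a ^ 3 * y - 2 * A ^ 3 - 3 * A * Bz x a A

/-- `G = 3B² - 4Ak`. -/
def Gz (x y a A : ℤ) : ℤ := 3 * Bz x a A ^ 2 - 4 * A * kz x y a A

lemma d_identity (x y a A : ℤ) :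
    8 * a ^ 6 * (x ^ 3 - y ^ 2) = 2 * A ^ 2 * Gz x y a A - Bz x a A ^ 3 +
      3 * Bz x a A * Gz x y a A - 2 * kz x y a A ^ 2 := by
  unfold Gz kz Bz
  ring

lemma k_cong (x y a A : ℤ) : kz x y a A = A ^ 3 + a ^ 2 * (2 * a * y - 3 * A * x) := by
  unfold kz Bz
  ring

lemma G_cong (x y a A : ℤ) : Gz x y a A = - A ^ 4 + a ^ 2 *
    (3 * a ^ 2 * x ^ 2 - 6 * A ^ 2 * x - 4 * A * (2 * a * y - 3 * A * x)) := by
  unfold Gz
  rw [k_cong]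
  unfold Bz
  ring

namespace Datum

variable {Q K x y a A : ℤ}

lemma x_pos (h : Datum Q K x y a A) : 0 < x := by
  have h1 := h.hx1
  have h2 : 0 < Q ^ 6 := by
    have := h.hQ
    positivity
  omega

lemma t_sq (h : Datum Q K x y a A) : (√(x : ℝ)) ^ 2 = x :=
  Real.sq_sqrt (by exact_mod_cast h.x_pos.le)

lemma t_ge (h : Datum Q K x y a A) : (Q : ℝ) ^ 3 ≤ √(x : ℝ) := by
  apply Real.le_sqrt_of_sq_le
  have h1 := h.hx1
  have h2 : ((Q : ℝ)) ^ 6 ≤ x := by exact_mod_cast h1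
  calc ((Q : ℝ) ^ 3) ^ 2 = (Q : ℝ) ^ 6 := by ring
    _ ≤ (x : ℝ) := h2

lemma t_le (h : Datum Q K x y a A) : √(x : ℝ) ≤ 8 * (Q : ℝ) ^ 3 := by
  have hQ : (0 : ℝ) ≤ Q := by
    have := h.hQ
    have : (0 : ℤ) ≤ Q := by omega
    exact_mod_cast this
  rw [Real.sqrt_le_left (by positivity)]
  have h2 : (x : ℝ) ≤ 64 * (Q : ℝ) ^ 6 := by exact_mod_cast h.hx2
  calc (x : ℝ) ≤ 64 * (Q : ℝ) ^ 6 := h2
    _ = (8 * (Q : ℝ) ^ 3) ^ 2 := by ring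

lemma d_le_t (h : Datum Q K x y a A) : |((x : ℝ) ^ 3 - (y : ℝ) ^ 2)| ≤ K * √(x : ℝ) := by
  apply abs_le_of_sq_le_sq
  · rw [mul_pow, h.t_sq]
    exact_mod_cast h.hd
  · have h1 : (0 : ℝ) ≤ K := by
      have := h.hK
      have : (0 : ℤ) ≤ K := by omega
      exact_mod_cast this
    exact mul_nonneg h1 (Real.sqrt_nonneg _)

lemma d_le (h : Datum Q K x y a A) : |((x : ℝ) ^ 3 - (y : ℝ) ^ 2)| ≤ 8 * (K * (Q : ℝ) ^ 3) := by
  have h1 := h.d_le_t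
  have h2 := h.t_le
  have h3 : (0 : ℝ) ≤ K := by
    have := h.hK
    have : (0 : ℤ) ≤ K := by omega
    exact_mod_cast this
  have h4 : (K : ℝ) * √(x : ℝ) ≤ K * (8 * (Q : ℝ) ^ 3) := mul_le_mul_of_nonneg_left h2 h3
  linarith

/-- The real data of a datum. -/
lemma toRD (h : Datum Q K x y a A) :
    RD (Q : ℝ) K (√(x : ℝ)) a A ((a : ℝ) * √(x : ℝ) - A)
      ((a : ℝ) ^ 3 * ((√(x : ℝ)) ^ 3 - y)) := by
  have hQ : (1000 : ℝ) ≤ Q := by exact_mod_cast h.hQ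
  have ha : (1 : ℝ) ≤ a := by exact_mod_cast h.ha1
  have ht := h.t_ge
  have ht0 : 0 < √(x : ℝ) := lt_of_lt_of_le (by positivity) ht
  refine ⟨hQ, by exact_mod_cast h.hK, by exact_mod_cast h.hKQ, ht, h.t_le, ha,
    by exact_mod_cast h.haQ, by ring, h.hα, ?_⟩
  have hy : (1 : ℝ) ≤ y := by exact_mod_cast h.hy
  have h1 := h.d_le_t
  have hsq := h.t_sq
  set t := √(x : ℝ) with ht_def
  have h2 : (x : ℝ) ^ 3 - (y : ℝ) ^ 2 = (t ^ 3 - y) * (t ^ 3 + y) := by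
    rw [← hsq]; ring
  rw [h2, abs_mul] at h1
  have h3 : |t ^ 3 + (y : ℝ)| = t ^ 3 + y := abs_of_pos (by positivity)
  rw [h3] at h1
  have h4 : |t ^ 3 - (y : ℝ)| * t ^ 3 ≤ |t ^ 3 - (y : ℝ)| * (t ^ 3 + y) :=
    mul_le_mul_of_nonneg_left (by linarith) (abs_nonneg _)
  have h5 : t * (|t ^ 3 - (y : ℝ)| * t ^ 2) ≤ t * K := by
    calc t * (|t ^ 3 - (y : ℝ)| * t ^ 2) = |t ^ 3 - (y : ℝ)| * t ^ 3 := by ring
      _ ≤ |t ^ 3 - (y : ℝ)| * (t ^ 3 + y) := h4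
      _ ≤ K * t := h1
      _ = t * K := by ring
  have h6 : |t ^ 3 - (y : ℝ)| * t ^ 2 ≤ K := le_of_mul_le_mul_left h5 ht0
  rw [abs_mul, abs_of_pos (by positivity : (0 : ℝ) < (a : ℝ) ^ 3)]
  calc (a : ℝ) ^ 3 * |t ^ 3 - (y : ℝ)| * t ^ 2 = (a : ℝ) ^ 3 * (|t ^ 3 - (y : ℝ)| * t ^ 2) := by
        ring
    _ ≤ (a : ℝ) ^ 3 * K := mul_le_mul_of_nonneg_left h6 (by positivity)

lemma B_real (h : Datum Q K x y a A) :
    (Bz x a A : ℝ) = 2 * A * ((a : ℝ) * √(x : ℝ) - A) + ((a : ℝ) * √(x : ℝ) - A) ^ 2 := by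
  have hsq := h.t_sq
  unfold Bz
  push_cast
  linear_combination (-(a : ℝ) ^ 2) * hsq

lemma k_real (h : Datum Q K x y a A) :
    (kz x y a A : ℝ) = 3 * A * ((a : ℝ) * √(x : ℝ) - A) ^ 2 + 2 * ((a : ℝ) * √(x : ℝ) - A) ^ 3
      - 2 * ((a : ℝ) ^ 3 * ((√(x : ℝ)) ^ 3 - y)) := by
  have hB := h.B_real
  unfold kz
  push_cast
  rw [hB]
  ring

lemma G_real (h : Datum Q K x y a A) :
    (Gz x y a A : ℝ) = 4 * A * ((a : ℝ) * √(x : ℝ) - A) ^ 3 + 3 * ((a : ℝ) * √(x : ℝ) - A) ^ 4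
      + 8 * A * ((a : ℝ) ^ 3 * ((√(x : ℝ)) ^ 3 - y)) := by
  have hB := h.B_real
  have hk := h.k_real
  unfold Gz
  push_cast
  rw [hB, hk]
  ring

lemma U_real (h : Datum Q K x y a A) :
    (3 * (Gz x y a A : ℝ) * A - 2 * (kz x y a A : ℝ) * (Bz x a A : ℝ)) =
      -5 * A * ((a : ℝ) * √(x : ℝ) - A) ^ 4 - 4 * ((a : ℝ) * √(x : ℝ) - A) ^ 5 +
      ((a : ℝ) ^ 3 * ((√(x : ℝ)) ^ 3 - y)) * (24 * (A : ℝ) ^ 2 +
        8 * A * ((a : ℝ) * √(x : ℝ) - A) + 4 * ((a : ℝ) * √(x : ℝ) - A) ^ 2) := by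
  rw [h.B_real, h.k_real, h.G_real]
  ring

lemma G_le (h : Datum Q K x y a A) : |Gz x y a A| ≤ 50 * (a * K) := by
  have h1 := h.toRD.G_bound
  rw [← h.G_real] at h1
  exact_mod_cast h1

lemma U_le (h : Datum Q K x y a A) :
    |3 * (Gz x y a A : ℝ) * A - 2 * (kz x y a A : ℝ) * (Bz x a A : ℝ)| ≤
      26 * ((a : ℝ) ^ 5 * K) := by
  rw [h.U_real]
  exact h.toRD.U_bound

lemma k_le (h : Datum Q K x y a A) : kz x y a A ≤ 30 * (a * Q) := by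
  have h1 := h.toRD.k_upper
  rw [← h.k_real] at h1
  exact_mod_cast h1

lemma k_nonneg (h : Datum Q K x y a A) : 0 ≤ kz x y a A := by
  have h1 := h.toRD.k_lower
  rw [← h.k_real] at h1
  have h2 : (-1 : ℤ) < kz x y a A := by exact_mod_cast h1
  omega

lemma A_pos (h : Datum Q K x y a A) : 0 < A := by
  have := h.toRD.A_pos
  exact_mod_cast this

lemma k_ne_zero (h : Datum Q K x y a A) : kz x y a A ≠ 0 := by
  intro hk
  -- `a = 1`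
  have h1 : a ^ 2 ∣ A ^ 3 := by
    have := k_cong x y a A
    rw [hk] at this
    exact ⟨-(2 * a * y - 3 * A * x), by linarith⟩
  have h2 : IsCoprime (a ^ 2) (A ^ 3) := h.hco.symm.pow
  have h3 : IsUnit (a ^ 2) := h2.isUnit_of_dvd' (dvd_refl _) h1
  have h4 : IsUnit a := (isUnit_pow_iff (by norm_num)).1 h3
  have ha : a = 1 := by
    rcases Int.isUnit_iff.1 h4 with h5 | h5
    · exact h5
    · have := h.ha1
      omega
  -- the identity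
  have hid := d_identity x y a A
  have hG : Gz x y a A = 3 * Bz x a A ^ 2 := by
    unfold Gz
    rw [hk]; ring
  rw [hG, hk, ha] at hid
  have hB0 : Bz x 1 A ≠ 0 := by
    intro h0
    rw [h0] at hid
    apply h.hd0
    linarith
  have hid2 : 4 * (x ^ 3 - y ^ 2) = Bz x 1 A ^ 2 * (3 * A ^ 2 + 4 * Bz x 1 A) := by
    linarith
  -- real bounds
  have hR := h.toRD
  have hBr := h.B_real
  rw [ha] at hBr
  have hα := hR.alpha_le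
  rw [ha] at hα
  have hA1 := hR.A_lower'
  rw [ha] at hA1
  push_cast at hBr hα hA1
  have hq3 := hR.q3
  have hAbig : (1000 : ℝ) ≤ A := by
    norm_num at hA1 ⊢
    linarith
  have hBle : |(Bz x 1 A : ℝ)| ≤ (A : ℝ) := by
    rw [hBr]
    have e0 := abs_le.1 hα
    have e1 : |2 * (A : ℝ) * (1 * √(x : ℝ) - A)| ≤ 2 * A * (1 / 1000) := by
      rw [abs_mul, abs_of_pos (by linarith : (0 : ℝ) < 2 * A)]
      exact mul_le_mul_of_nonneg_left hα (by linarith)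
    have e2 : |(1 * √(x : ℝ) - (A : ℝ)) ^ 2| ≤ 1 := by
      rw [abs_pow]
      exact pow_le_one₀ (abs_nonneg _) (by linarith)
    have e3 := abs_add_le (2 * (A : ℝ) * (1 * √(x : ℝ) - A)) ((1 * √(x : ℝ) - (A : ℝ)) ^ 2)
    linarith
  have hBz : |Bz x 1 A| ≤ A := by exact_mod_cast hBle
  have hAz : 1000 ≤ A := by exact_mod_cast hAbig
  have h5 : A ^ 2 ≤ 3 * A ^ 2 + 4 * Bz x 1 A := by
    have := abs_le.1 hBz
    nlinarith [this.1]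
  have h6 : 1 ≤ Bz x 1 A ^ 2 := by
    have : 0 < Bz x 1 A ^ 2 := by positivity
    omega
  have h7 : A ^ 2 ≤ 4 * (x ^ 3 - y ^ 2) := by
    rw [hid2]
    nlinarith [sq_nonneg A]
  have h8 : (A : ℝ) ^ 2 ≤ 4 * ((x : ℝ) ^ 3 - (y : ℝ) ^ 2) := by exact_mod_cast h7
  have h9 := h.d_le
  have h10 := le_abs_self ((x : ℝ) ^ 3 - (y : ℝ) ^ 2)
  have hKq := hR.hKq
  have hq := hR.hq
  have h11 : (0.99 * (Q : ℝ) ^ 3) ^ 2 ≤ (A : ℝ) ^ 2 := by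
    apply pow_le_pow_left₀ (by positivity)
    linarith
  have h12 : (K : ℝ) * (Q : ℝ) ^ 3 ≤ (Q : ℝ) ^ 5 := by
    calc (K : ℝ) * (Q : ℝ) ^ 3 ≤ (Q : ℝ) ^ 2 * (Q : ℝ) ^ 3 :=
          mul_le_mul_of_nonneg_right hKq (by positivity)
      _ = (Q : ℝ) ^ 5 := by ring
  have h13 : 1000 * (Q : ℝ) ^ 5 ≤ (Q : ℝ) ^ 6 := by
    calc 1000 * (Q : ℝ) ^ 5 ≤ Q * (Q : ℝ) ^ 5 := mul_le_mul_of_nonneg_right hq (by positivity)
      _ = (Q : ℝ) ^ 6 := by ring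
  have h14 : 0 < (Q : ℝ) ^ 5 := by positivity
  have h15 : (0.99 * (Q : ℝ) ^ 3) ^ 2 = 0.9801 * (Q : ℝ) ^ 6 := by ring
  rw [h15] at h11
  norm_num at h11
  linarith

lemma k_pos (h : Datum Q K x y a A) : 1 ≤ kz x y a A := by
  have h1 := h.k_nonneg
  have h2 := h.k_ne_zero
  omega

lemma B_sq_le (h : Datum Q K x y a A) :
    (Bz x a A : ℝ) ^ 2 ≤ 11 * (a * (Q : ℝ) ^ 3 * (kz x y a A : ℝ)) := by
  have hR := h.toRD
  have h1 : (1 : ℝ) ≤ kz x y a A := by exact_mod_cast h.k_pos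
  have h2 : |(Gz x y a A : ℝ)| ≤ 50 * (a * K) := by exact_mod_cast h.G_le
  have h3 : (Gz x y a A : ℝ) = 3 * (Bz x a A : ℝ) ^ 2 - 4 * A * kz x y a A := by
    unfold Gz
    push_cast
    ring
  have h4 := hR.A_upper'
  have h5 := abs_le.1 h2
  have h6 : (A : ℝ) * kz x y a A ≤ 8.08 * (a * (Q : ℝ) ^ 3) * kz x y a A :=
    mul_le_mul_of_nonneg_right h4 (by linarith)
  have ha := hR.a_pos
  have hq := hR.hq
  have h7 : (a : ℝ) * K ≤ 0.001 * (a * (Q : ℝ) ^ 3 * kz x y a A) := by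
    have e1 : (a : ℝ) * K ≤ a * (Q : ℝ) ^ 2 := mul_le_mul_of_nonneg_left hR.hKq ha.le
    have e2 : 1000 * (a * (Q : ℝ) ^ 2) ≤ a * (Q : ℝ) ^ 3 := by
      have : 1000 * (a * (Q : ℝ) ^ 2) ≤ Q * (a * (Q : ℝ) ^ 2) :=
        mul_le_mul_of_nonneg_right hq (by positivity)
      calc 1000 * (a * (Q : ℝ) ^ 2) ≤ Q * (a * (Q : ℝ) ^ 2) := this
        _ = a * (Q : ℝ) ^ 3 := by ring
    have e3 : a * (Q : ℝ) ^ 3 * 1 ≤ a * (Q : ℝ) ^ 3 * kz x y a A :=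
      mul_le_mul_of_nonneg_left h1 (by positivity)
    norm_num
    linarith
  have h8 : 8.08 * (a * (Q : ℝ) ^ 3) * kz x y a A = 8.08 * (a * (Q : ℝ) ^ 3 * kz x y a A) := by
    ring
  rw [h8] at h6
  have h9 : 0 ≤ a * (Q : ℝ) ^ 3 * kz x y a A := by positivity
  norm_num at h6 h7
  linarith [h5.2]

lemma B_sq_ge (h : Datum Q K x y a A) :
    1.3 * (a * (Q : ℝ) ^ 3 * (kz x y a A : ℝ)) ≤ (Bz x a A : ℝ) ^ 2 := by
  have hR := h.toRD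
  have h1 : (1 : ℝ) ≤ kz x y a A := by exact_mod_cast h.k_pos
  have h2 : |(Gz x y a A : ℝ)| ≤ 50 * (a * K) := by exact_mod_cast h.G_le
  have h3 : (Gz x y a A : ℝ) = 3 * (Bz x a A : ℝ) ^ 2 - 4 * A * kz x y a A := by
    unfold Gz
    push_cast
    ring
  have h4 := hR.A_lower'
  have h5 := abs_le.1 h2
  have h6 : 0.99 * (a * (Q : ℝ) ^ 3) * kz x y a A ≤ (A : ℝ) * kz x y a A :=
    mul_le_mul_of_nonneg_right h4 (by linarith)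
  have ha := hR.a_pos
  have hq := hR.hq
  have h7 : (a : ℝ) * K ≤ 0.001 * (a * (Q : ℝ) ^ 3 * kz x y a A) := by
    have e1 : (a : ℝ) * K ≤ a * (Q : ℝ) ^ 2 := mul_le_mul_of_nonneg_left hR.hKq ha.le
    have e2 : 1000 * (a * (Q : ℝ) ^ 2) ≤ a * (Q : ℝ) ^ 3 := by
      have : 1000 * (a * (Q : ℝ) ^ 2) ≤ Q * (a * (Q : ℝ) ^ 2) :=
        mul_le_mul_of_nonneg_right hq (by positivity)
      calc 1000 * (a * (Q : ℝ) ^ 2) ≤ Q * (a * (Q : ℝ) ^ 2) := this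
        _ = a * (Q : ℝ) ^ 3 := by ring
    have e3 : a * (Q : ℝ) ^ 3 * 1 ≤ a * (Q : ℝ) ^ 3 * kz x y a A :=
      mul_le_mul_of_nonneg_left h1 (by positivity)
    norm_num
    linarith
  have h8 : 0.99 * (a * (Q : ℝ) ^ 3) * kz x y a A = 0.99 * (a * (Q : ℝ) ^ 3 * kz x y a A) := by
    ring
  rw [h8] at h6
  have h9 : 0 ≤ a * (Q : ℝ) ^ 3 * kz x y a A := by positivity
  norm_num at h6 h7 ⊢
  linarith [h5.1]

lemma k_coprime (h : Datum Q K x y a A) : IsCoprime (kz x y a A) a := by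
  rw [k_cong]
  have h1 : IsCoprime (A ^ 3) a := h.hco.pow_left
  have h2 : A ^ 3 + a ^ 2 * (2 * a * y - 3 * A * x) = A ^ 3 + a * (a * (2 * a * y - 3 * A * x)) := by
    ring
  rw [h2]
  exact h1.add_mul_left_left _

end Datum

end Pool.Agent.Helper15.Hall
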