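import Mathlib
import Pool.Agent.Helper15.HallDatum

set_option autoImplicit false

namespace Pool.Agent.Helper15.Hall

open Finset

section pairs

variable {Q K x y x' y' a A A' : ℤ}

lemma pow4_dvd (hG : Gz x y a A = Gz x' y' a A') : a ^ 2 ∣ A' ^ 4 - A ^ 4 := by
  have e1 := G_cong x y a A
  have e2 := G_cong x' y' a A'
  rw [hG] at e1
  refine ⟨(3 * a ^ 2 * x' ^ 2 - 6 * A' ^ 2 * x' - 4 * A' * (2 * a * y' - 3 * A' * x')) -
    (3 * a ^ 2 * x ^ 2 - 6 * A ^ 2 * x - 4 * A * (2 * a * y - 3 * A * x)), ?_⟩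
  linear_combination e2 - e1

lemma pow3_dvd (hk : kz x y a A = kz x' y' a A') : a ^ 2 ∣ A' ^ 3 - A ^ 3 := by
  have e1 := k_cong x y a A
  have e2 := k_cong x' y' a A'
  rw [hk] at e1
  refine ⟨(2 * a * y - 3 * A * x) - (2 * a * y' - 3 * A' * x'), ?_⟩
  linear_combination e1 - e2

/-- In a family the residue of `A` modulo `a²` is fixed. -/
lemma fam_dvd (hco : IsCoprime A a) (hk : kz x y a A = kz x' y' a A')
    (hG : Gz x y a A = Gz x' y' a A') : a ^ 2 ∣ A' - A := by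
  have h3 := pow3_dvd hk
  have h4 := pow4_dvd hG
  have h5 : a ^ 2 ∣ A ^ 3 * (A' - A) := by
    have h6 := dvd_sub h4 (h3.mul_left A')
    have h7 : A' ^ 4 - A ^ 4 - A' * (A' ^ 3 - A ^ 3) = A ^ 3 * (A' - A) := by ring
    rwa [h7] at h6
  have h8 : IsCoprime (a ^ 2) (A ^ 3) := hco.symm.pow
  exact h8.dvd_of_dvd_mul_left h5

lemma fam_dvd_B (hco : IsCoprime A a) (hk : kz x y a A = kz x' y' a A')
    (hG : Gz x y a A = Gz x' y' a A') : a ^ 2 ∣ Bz x' a A' - Bz x a A := by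
  have h1 := fam_dvd hco hk hG
  have h2 : Bz x' a A' - Bz x a A = a ^ 2 * (x' - x) - (A' - A) * (A' + A) := by
    unfold Bz; ring
  rw [h2]
  exact dvd_sub (dvd_mul_right _ _) (h1.mul_right _)

/-- For fixed `a`, `A mod a` and `G`, the value `4k` is fixed modulo `a²`. -/
lemma k_dvd (hco : IsCoprime A a) (hA : a ∣ A' - A) (hG : Gz x y a A = Gz x' y' a A') :
    a ^ 2 ∣ 4 * (kz x' y' a A' - kz x y a A) := by
  obtain ⟨r, hr⟩ := hA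
  have hA' : A' = A + a * r := by linarith
  have h4 := pow4_dvd hG
  have h5 : a ^ 2 ∣ a * (4 * A ^ 3 * r) := by
    have h6 : A' ^ 4 - A ^ 4 = a * (4 * A ^ 3 * r) +
        a ^ 2 * (6 * A ^ 2 * r ^ 2 + 4 * A * a * r ^ 3 + a ^ 2 * r ^ 4) := by
      rw [hA']; ring
    rw [h6] at h4
    exact (dvd_add_left (dvd_mul_right _ _)).1 h4
  by_cases ha0 : a = 0
  · subst ha0
    rw [k_cong, k_cong, hA']
    simp
  have h7 : a ∣ 4 * A ^ 3 * r := by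
    rw [sq] at h5
    exact (mul_dvd_mul_iff_left ha0).1 h5
  have h8 : a ∣ 4 * r := by
    have h9 : IsCoprime a (A ^ 3) := hco.symm.pow_right
    have h10 : 4 * A ^ 3 * r = A ^ 3 * (4 * r) := by ring
    rw [h10] at h7
    exact h9.dvd_of_dvd_mul_left h7
  obtain ⟨s, hs⟩ := h8
  rw [k_cong, k_cong, hA']
  refine ⟨3 * A ^ 2 * s + a * (3 * A * r * s) + 4 * a * r ^ 3 + 4 * ((2 * a * y' -
    3 * (A + a * r) * x') - (2 * a * y - 3 * A * x)) - 3 * A * a * r * s + 12 * A * r ^ 2, ?_⟩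
  linear_combination (3 * A ^ 2 * a) * hs

/-- `x` is determined by `B` in a family. -/
lemma x_unique (ha : a ≠ 0) (hk0 : kz x y a A ≠ 0) (hk : kz x y a A = kz x' y' a A')
    (hG : Gz x y a A = Gz x' y' a A') (hB : Bz x a A = Bz x' a A') : x = x' := by
  have e1 : Gz x y a A = 3 * Bz x a A ^ 2 - 4 * A * kz x y a A := rfl
  have e2 : Gz x' y' a A' = 3 * Bz x' a A' ^ 2 - 4 * A' * kz x' y' a A' := rfl
  rw [← hk, ← hG, ← hB] at e2
  have e3 : kz x y a A * (A' - A) = 0 := by linarith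
  have e4 : A' = A := by
    rcases mul_eq_zero.1 e3 with h | h
    · exact absurd h hk0
    · linarith
  rw [e4] at hB
  unfold Bz at hB
  have e5 : a ^ 2 * (x - x') = 0 := by linarith
  rcases mul_eq_zero.1 e5 with h | h
  · exact absurd (pow_eq_zero_iff (two_ne_zero) |>.1 h) ha
  · linarith

/-- `k ∣ 3 e (a² e + 2 B)`. -/
lemma k_dvd_e (ha : a ≠ 0) (hco : IsCoprime A a) (hk : kz x y a A = kz x' y' a A')
    (hG : Gz x y a A = Gz x' y' a A') (e : ℤ) (he : Bz x' a A' - Bz x a A = a ^ 2 * e) :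
    kz x y a A ∣ 3 * e * (a ^ 2 * e + 2 * Bz x a A) := by
  obtain ⟨g, hg⟩ := fam_dvd hco hk hG
  refine ⟨4 * g, ?_⟩
  have e1 : Gz x y a A = 3 * Bz x a A ^ 2 - 4 * A * kz x y a A := rfl
  have e2 : Gz x' y' a A' = 3 * Bz x' a A' ^ 2 - 4 * A' * kz x' y' a A' := rfl
  rw [← hk, ← hG] at e2
  have hB' : Bz x' a A' = Bz x a A + a ^ 2 * e := by linarith
  have hA' : A' = A + a ^ 2 * g := by linarith
  rw [hB', hA', e1] at e2
  have ha2 : a ^ 2 ≠ 0 := pow_ne_zero 2 ha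
  apply mul_left_cancel₀ ha2
  linarith

/-- General size bound for `e`. -/
lemma e_general (h : Datum Q K x y a A) (h' : Datum Q K x' y' a A')
    (hk : kz x y a A = kz x' y' a A') (q : ℤ) (hq1 : 1 ≤ q) (hq : Q ≤ 2 * a * q)
    (e : ℤ) (he : Bz x' a A' - Bz x a A = a ^ 2 * e) :
    e ^ 2 ≤ (21 * q ^ 2) ^ 2 * kz x y a A := by
  have h1 := h.B_sq_le
  have h2 := h'.B_sq_le
  rw [← hk] at h2
  have hk1 : (1 : ℝ) ≤ kz x y a A := by exact_mod_cast h.k_pos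
  have ha := h.toRD.a_pos
  have hQ := h.toRD.q_pos
  set k : ℝ := (kz x y a A : ℝ) with hkdef
  have hq' : (1 : ℝ) ≤ q := by exact_mod_cast hq1
  have hQq : (Q : ℝ) ≤ 2 * a * q := by exact_mod_cast hq
  have he' : (Bz x' a A' : ℝ) - Bz x a A = (a : ℝ) ^ 2 * e := by exact_mod_cast he
  have h3 : ((a : ℝ) ^ 2 * e) ^ 2 ≤ 44 * (a * (Q : ℝ) ^ 3 * k) := by
    rw [← he']
    nlinarith [sq_nonneg ((Bz x' a A' : ℝ) + Bz x a A)]
  have h4 : (Q : ℝ) ^ 3 ≤ (2 * a * q) ^ 3 := pow_le_pow_left₀ hQ.le hQq 3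
  have h5 : 44 * (a * (Q : ℝ) ^ 3 * k) ≤ 44 * (a * (2 * a * q) ^ 3 * k) := by gcongr
  have h6 : (a : ℝ) ^ 4 * (e : ℝ) ^ 2 ≤ (a : ℝ) ^ 4 * ((21 * (q : ℝ) ^ 2) ^ 2 * k) := by
    calc (a : ℝ) ^ 4 * (e : ℝ) ^ 2 = ((a : ℝ) ^ 2 * e) ^ 2 := by ring
      _ ≤ 44 * (a * (2 * a * q) ^ 3 * k) := le_trans h3 h5
      _ = (a : ℝ) ^ 4 * (352 * (q : ℝ) ^ 3 * k) := by ring
      _ ≤ (a : ℝ) ^ 4 * ((21 * (q : ℝ) ^ 2) ^ 2 * k) := by
        have e1 : 352 * (q : ℝ) ^ 3 ≤ (21 * (q : ℝ) ^ 2) ^ 2 := by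
          have e2 : (q : ℝ) ^ 3 * 1 ≤ (q : ℝ) ^ 3 * q :=
            mul_le_mul_of_nonneg_left hq' (by positivity)
          nlinarith [pow_pos (by linarith : (0 : ℝ) < q) 3]
        gcongr
  have h7 : (e : ℝ) ^ 2 ≤ (21 * (q : ℝ) ^ 2) ^ 2 * k :=
    le_of_mul_le_mul_left h6 (by positivity)
  rw [hkdef] at h7
  exact_mod_cast h7

/-- Size bound for `e` when `k` is large. -/
lemma e_large (h : Datum Q K x y a A) (h' : Datum Q K x' y' a A')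
    (hk : kz x y a A = kz x' y' a A') (hG : Gz x y a A = Gz x' y' a A')
    (hbig : 64 * K * a ^ 2 ≤ kz x y a A)
    (e : ℤ) (he : Bz x' a A' - Bz x a A = a ^ 2 * e) :
    e ^ 2 ≤ 1 ^ 2 * kz x y a A := by
  have hR := h.toRD
  have hR' := h'.toRD
  have hb : 64 * (K : ℝ) * (a : ℝ) ^ 2 ≤ (kz x y a A : ℝ) := by exact_mod_cast hbig
  have hid := d_identity x y a A
  have hid' := d_identity x' y' a A'
  have hidr : 8 * (a : ℝ) ^ 6 * ((x : ℝ) ^ 3 - (y : ℝ) ^ 2) =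
      2 * (A : ℝ) ^ 2 * (Gz x y a A : ℝ) - (Bz x a A : ℝ) ^ 3 +
      3 * (Bz x a A : ℝ) * (Gz x y a A : ℝ) - 2 * (kz x y a A : ℝ) ^ 2 := by
    exact_mod_cast hid
  have hidr' : 8 * (a : ℝ) ^ 6 * ((x' : ℝ) ^ 3 - (y' : ℝ) ^ 2) =
      2 * (A' : ℝ) ^ 2 * (Gz x y a A : ℝ) - (Bz x' a A' : ℝ) ^ 3 +
      3 * (Bz x' a A' : ℝ) * (Gz x y a A : ℝ) - 2 * (kz x y a A : ℝ) ^ 2 := by
    rw [hk, hG]
    exact_mod_cast hid'
  have hG1 : (Gz x y a A : ℝ) = 3 * (Bz x a A : ℝ) ^ 2 - 4 * A * kz x y a A := by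
    unfold Gz
    push_cast
    ring
  have hG2 : (Gz x y a A : ℝ) = 3 * (Bz x' a A' : ℝ) ^ 2 - 4 * A' * kz x y a A := by
    rw [hk, hG]
    unfold Gz
    push_cast
    ring
  have hU' := h'.U_le
  rw [← hk, ← hG] at hU'
  have hB1' := h'.B_sq_ge
  have hB2' := h'.B_sq_le
  rw [← hk] at hB1' hB2'
  have hmain := diff_bound hR.hq hR.hK hR.ha1 hR.haq hb h.B_sq_ge h.B_sq_le hB1' hB2'
    h.U_le hU' (by exact_mod_cast h.G_le) rfl rfl hG1 hG2 hidr hidr' h.d_le h'.d_le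
  have he' : (Bz x a A : ℝ) - Bz x' a A' = -((a : ℝ) ^ 2 * e) := by
    have : (Bz x' a A' : ℝ) - Bz x a A = (a : ℝ) ^ 2 * e := by exact_mod_cast he
    linarith
  have ha := hR.a_pos
  have hK := hR.hK
  rw [he', abs_neg, abs_mul, abs_of_pos (by positivity : (0 : ℝ) < (a : ℝ) ^ 2)] at hmain
  set k : ℝ := (kz x y a A : ℝ) with hkdef
  have hk0 : 0 < k := lt_of_lt_of_le (by positivity) hb
  have h1 : |(e : ℝ)| * k ≤ 256 * ((a : ℝ) ^ 3 * K) := by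
    have h2 : (a : ℝ) ^ 2 * (|(e : ℝ)| * k) ≤ (a : ℝ) ^ 2 * (256 * ((a : ℝ) ^ 3 * K)) := by
      calc (a : ℝ) ^ 2 * (|(e : ℝ)| * k) = (a : ℝ) ^ 2 * |(e : ℝ)| * k := by ring
        _ ≤ 256 * ((a : ℝ) ^ 5 * K) := hmain
        _ = (a : ℝ) ^ 2 * (256 * ((a : ℝ) ^ 3 * K)) := by ring
    exact le_of_mul_le_mul_left h2 (by positivity)
  have h3 : (|(e : ℝ)| * k) ^ 2 ≤ (256 * ((a : ℝ) ^ 3 * K)) ^ 2 :=
    pow_le_pow_left₀ (by positivity) h1 2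
  have h4 : (64 * (K : ℝ) * (a : ℝ) ^ 2) ^ 3 ≤ k ^ 3 := pow_le_pow_left₀ (by positivity) hb 3
  have h5 : (256 * ((a : ℝ) ^ 3 * K)) ^ 2 ≤ (64 * (K : ℝ) * (a : ℝ) ^ 2) ^ 3 := by
    have e1 : (256 * ((a : ℝ) ^ 3 * K)) ^ 2 = 65536 * ((a : ℝ) ^ 6 * (K : ℝ) ^ 2) := by ring
    have e2 : (64 * (K : ℝ) * (a : ℝ) ^ 2) ^ 3 = 262144 * ((a : ℝ) ^ 6 * (K : ℝ) ^ 2) * K := by
      ring
    rw [e1, e2]
    have e3 : 0 ≤ (a : ℝ) ^ 6 * (K : ℝ) ^ 2 := by positivity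
    nlinarith
  have h6 : k ^ 2 * (e : ℝ) ^ 2 ≤ k ^ 2 * k := by
    calc k ^ 2 * (e : ℝ) ^ 2 = (|(e : ℝ)| * k) ^ 2 := by
          rw [mul_pow, sq_abs]; ring
      _ ≤ k ^ 3 := by linarith
      _ = k ^ 2 * k := by ring
  have h7 : (e : ℝ) ^ 2 ≤ k := le_of_mul_le_mul_left h6 (by positivity)
  rw [hkdef] at h7
  have h8 : e ^ 2 ≤ kz x y a A := by exact_mod_cast h7
  linarith

end pairs

/-- The number of members of a family. -/
theorem fam_card (Q K a G k : ℤ) (M : ℕ) (F : Finset ℤ) (Y Af : ℤ → ℤ)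
    (hD : ∀ x ∈ F, Datum Q K x (Y x) a (Af x))
    (hk : ∀ x ∈ F, kz x (Y x) a (Af x) = k)
    (hG : ∀ x ∈ F, Gz x (Y x) a (Af x) = G)
    (hM : ∀ x ∈ F, ∀ x' ∈ F, ∀ e : ℤ, Bz x' a (Af x') - Bz x a (Af x) = a ^ 2 * e →
      e ^ 2 ≤ (M : ℤ) ^ 2 * k) :
    F.card ≤ (4 * M + 1) * k.toNat.divisors.card := by
  rcases F.eq_empty_or_nonempty with rfl | ⟨x₀, hx₀⟩
  · simp
  have hD0 := hD x₀ hx₀
  have hk0 := hk x₀ hx₀
  have hG0 := hG x₀ hx₀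
  have hkpos : 1 ≤ k := by
    rw [← hk0]; exact hD0.k_pos
  have ha : a ≠ 0 := by
    have := hD0.ha1
    omega
  have hknat : ((k.toNat : ℕ) : ℤ) = k := Int.toNat_of_nonneg (by omega)
  -- choose e
  have hex : ∀ x ∈ F, ∃ e : ℤ, Bz x a (Af x) - Bz x₀ a (Af x₀) = a ^ 2 * e := by
    intro x hx
    have hkk : kz x₀ (Y x₀) a (Af x₀) = kz x (Y x) a (Af x) := by rw [hk0, hk x hx]
    have hGG : Gz x₀ (Y x₀) a (Af x₀) = Gz x (Y x) a (Af x) := by rw [hG0, hG x hx]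
    exact fam_dvd_B hD0.hco hkk hGG
  choose! ef hef using hex
  have hinj : Set.InjOn ef F := by
    intro x hx x' hx' hxx
    have hkk : kz x (Y x) a (Af x) = kz x' (Y x') a (Af x') := by rw [hk x hx, hk x' hx']
    have hGG : Gz x (Y x) a (Af x) = Gz x' (Y x') a (Af x') := by rw [hG x hx, hG x' hx']
    apply x_unique ha (hD x hx).k_ne_zero hkk hGG
    have e1 := hef x hx
    have e2 := hef x' hx'
    rw [hxx] at e1
    linarith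
  rw [← card_image_of_injOn hinj]
  apply card_e_le k.toNat M (by omega) a (Bz x₀ a (Af x₀))
  · rw [hknat, ← hk0]
    exact hD0.k_coprime
  · intro e he
    rw [mem_image] at he
    obtain ⟨x, hx, rfl⟩ := he
    have hkk : kz x₀ (Y x₀) a (Af x₀) = kz x (Y x) a (Af x) := by rw [hk0, hk x hx]
    have hGG : Gz x₀ (Y x₀) a (Af x₀) = Gz x (Y x) a (Af x) := by rw [hG0, hG x hx]
    rw [hknat, ← hk0]
    exact k_dvd_e ha hD0.hco hkk hGG (ef x) (hef x hx)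
  · intro e he
    rw [mem_image] at he
    obtain ⟨x, hx, rfl⟩ := he
    rw [hknat]
    exact hM x₀ hx₀ x hx (ef x) (hef x hx)

end Pool.Agent.Helper15.Hall
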