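import Mathlib

set_option autoImplicit false

namespace Pool.Agent.Helper15.Hall2

/-- Admissible parameters: `R` is the size of `√x`, `Q` the Dirichlet parameter, `D` a bound for
`|x³ - y²|`, `W` a bound for `R / Q³` and `Q³ D / R²`. -/
structure Par (R Q D W : ℝ) : Prop where
  hR : 100000 ≤ R
  hQ : 2 ≤ Q
  hD : 0 < D
  hW : 0 < W
  p1 : R ≤ W * Q ^ 3
  p2 : Q ^ 3 * D ≤ W * R ^ 2
  p3 : 5000 * W ≤ R
  p5 : Q ^ 2 ≤ 4 * R

/-- Real data attached to an almost-solution: `A = a t - α`, `c = a³ (t³ - y)`. -/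
structure RD (R Q D W t a A α c : ℝ) : Prop where
  par : Par R Q D W
  ht1 : R ≤ t
  ht2 : t ≤ 8 * R
  ha1 : 1 ≤ a
  haq : a ≤ Q
  hA : A = a * t - α
  hα : |α| * Q ≤ 1
  hc : |c| * t ^ 3 ≤ a ^ 3 * D

namespace Par

variable {R Q D W : ℝ}

lemma R_pos (h : Par R Q D W) : 0 < R := by linarith [h.hR]
lemma Q_pos (h : Par R Q D W) : 0 < Q := by linarith [h.hQ]

lemma Q_le (h : Par R Q D W) : Q ≤ 0.01 * R := by
  by_contra hn
  push Not at hn
  have h1 := h.hR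
  have h2 := h.p5
  have h3 : (0.01 * R) ^ 2 < Q ^ 2 := by
    apply pow_lt_pow_left₀ hn
    · have := h.R_pos
      positivity
    · norm_num
  nlinarith

end Par

namespace RD

variable {R Q D W t a A α c : ℝ}

lemma R_pos (h : RD R Q D W t a A α c) : 0 < R := h.par.R_pos
lemma Q_pos (h : RD R Q D W t a A α c) : 0 < Q := h.par.Q_pos
lemma a_pos (h : RD R Q D W t a A α c) : 0 < a := by linarith [h.ha1]
lemma t_pos (h : RD R Q D W t a A α c) : 0 < t := by linarith [h.ht1, h.R_pos]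

lemma alpha_le (h : RD R Q D W t a A α c) : |α| ≤ 1 / 2 := by
  have h1 := h.hα
  have h2 : |α| * 2 ≤ |α| * Q := mul_le_mul_of_nonneg_left h.par.hQ (abs_nonneg _)
  linarith

lemma alphaQ3 (h : RD R Q D W t a A α c) : (|α| * Q) ^ 3 ≤ 1 :=
  pow_le_one₀ (mul_nonneg (abs_nonneg _) h.Q_pos.le) h.hα

/-- `R |α|³ ≤ W` -/
lemma Ra3 (h : RD R Q D W t a A α c) : R * |α| ^ 3 ≤ W := by
  have h1 := h.par.p1
  have h2 := h.alphaQ3
  have h3 : R * |α| ^ 3 ≤ W * Q ^ 3 * |α| ^ 3 := mul_le_mul_of_nonneg_right h1 (by positivity)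
  have h4 : W * Q ^ 3 * |α| ^ 3 = W * (|α| * Q) ^ 3 := by ring
  have h5 : W * (|α| * Q) ^ 3 ≤ W * 1 := mul_le_mul_of_nonneg_left h2 h.par.hW.le
  linarith

lemma at_ge (h : RD R Q D W t a A α c) : R ≤ a * t := by
  have h2 : 1 * t ≤ a * t := mul_le_mul_of_nonneg_right h.ha1 h.t_pos.le
  linarith [h.ht1]

lemma A_lower (h : RD R Q D W t a A α c) : 0.99 * (a * t) ≤ A := by
  have h1 := abs_le.1 h.alpha_le
  have h2 := h.at_ge
  have h3 := h.par.hR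
  rw [h.hA]
  norm_num
  linarith [h1.2]

lemma A_upper (h : RD R Q D W t a A α c) : A ≤ 1.01 * (a * t) := by
  have h1 := abs_le.1 h.alpha_le
  have h2 := h.at_ge
  have h3 := h.par.hR
  rw [h.hA]
  norm_num
  linarith [h1.1]

lemma A_pos (h : RD R Q D W t a A α c) : 0 < A := by
  have := h.A_lower
  have h2 : 0 < a * t := mul_pos h.a_pos h.t_pos
  linarith

lemma A_upper' (h : RD R Q D W t a A α c) : A ≤ 8.08 * (a * R) := by
  have h1 := h.A_upper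
  have h2 : a * t ≤ a * (8 * R) := mul_le_mul_of_nonneg_left h.ht2 h.a_pos.le
  linarith

lemma A_lower' (h : RD R Q D W t a A α c) : 0.99 * (a * R) ≤ A := by
  have h1 := h.A_lower
  have h2 : a * R ≤ a * t := mul_le_mul_of_nonneg_left h.ht1 h.a_pos.le
  linarith

lemma Aa2 (h : RD R Q D W t a A α c) : A * |α| ^ 2 * Q ^ 2 ≤ 8.08 * (a * R) := by
  have h1 := h.A_upper'
  have h2 : (|α| * Q) ^ 2 ≤ 1 := pow_le_one₀ (mul_nonneg (abs_nonneg _) h.Q_pos.le) h.hα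
  have ha := h.a_pos
  have hR := h.R_pos
  calc A * |α| ^ 2 * Q ^ 2 = A * (|α| * Q) ^ 2 := by ring
    _ ≤ A * 1 := mul_le_mul_of_nonneg_left h2 h.A_pos.le
    _ ≤ 8.08 * (a * R) := by linarith

lemma Aa3 (h : RD R Q D W t a A α c) : A * |α| ^ 3 ≤ 8.08 * (a * W) := by
  have h1 := h.A_upper'
  have h2 := h.Ra3
  have ha := h.a_pos
  calc A * |α| ^ 3 ≤ 8.08 * (a * R) * |α| ^ 3 := mul_le_mul_of_nonneg_right h1 (by positivity)
    _ = 8.08 * a * (R * |α| ^ 3) := by ring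
    _ ≤ 8.08 * a * W := mul_le_mul_of_nonneg_left h2 (by positivity)
    _ = 8.08 * (a * W) := by ring

lemma Aa4 (h : RD R Q D W t a A α c) : A * |α| ^ 4 ≤ 8.08 * (a * W / Q) := by
  have h1 := h.Aa3
  have h2 := h.hα
  have ha := h.a_pos
  have hQ := h.Q_pos
  have hW := h.par.hW
  have h3 : A * |α| ^ 4 * Q ≤ 8.08 * (a * W) := by
    calc A * |α| ^ 4 * Q = (A * |α| ^ 3) * (|α| * Q) := by ring
      _ ≤ (8.08 * (a * W)) * 1 := by
        apply mul_le_mul h1 h2 (by positivity) (by positivity)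
      _ = 8.08 * (a * W) := by ring
  rw [← mul_div_assoc, le_div_iff₀ hQ]
  exact h3

lemma tc (h : RD R Q D W t a A α c) : t * |c| ≤ W := by
  have h1 := h.hc
  have ht := h.t_pos
  have hR := h.R_pos
  have hD := h.par.hD
  have hW := h.par.hW
  have h2 : a ^ 3 ≤ Q ^ 3 := pow_le_pow_left₀ h.a_pos.le h.haq 3
  have h3 : a ^ 3 * D ≤ Q ^ 3 * D := mul_le_mul_of_nonneg_right h2 hD.le
  have h4 : R ^ 2 ≤ t ^ 2 := pow_le_pow_left₀ hR.le h.ht1 2
  have h5 : W * R ^ 2 ≤ W * t ^ 2 := mul_le_mul_of_nonneg_left h4 hW.le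
  have h6 : t ^ 2 * (t * |c|) ≤ t ^ 2 * W := by
    calc t ^ 2 * (t * |c|) = |c| * t ^ 3 := by ring
      _ ≤ a ^ 3 * D := h1
      _ ≤ Q ^ 3 * D := h3
      _ ≤ W * R ^ 2 := h.par.p2
      _ ≤ W * t ^ 2 := h5
      _ = t ^ 2 * W := by ring
  exact le_of_mul_le_mul_left h6 (by positivity)

lemma c_small (h : RD R Q D W t a A α c) : |c| ≤ 1 / 5000 := by
  have h1 := h.tc
  have h2 : R * |c| ≤ t * |c| := mul_le_mul_of_nonneg_right h.ht1 (abs_nonneg _)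
  have h3 := h.par.p3
  have hR := h.R_pos
  have h4 : R * (5000 * |c|) ≤ R * 1 := by nlinarith
  have h5 := le_of_mul_le_mul_left h4 hR
  linarith

lemma Ac (h : RD R Q D W t a A α c) : A * |c| ≤ 1.01 * (a * W) := by
  have h1 := h.tc
  have h2 := h.A_upper
  have ha := h.a_pos
  calc A * |c| ≤ 1.01 * (a * t) * |c| := mul_le_mul_of_nonneg_right h2 (abs_nonneg _)
    _ = 1.01 * a * (t * |c|) := by ring
    _ ≤ 1.01 * a * W := mul_le_mul_of_nonneg_left h1 (by positivity)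
    _ = 1.01 * (a * W) := by ring

lemma A2c (h : RD R Q D W t a A α c) : A ^ 2 * |c| ≤ 1.0201 * (a ^ 5 * D / R) := by
  have h1 := h.hc
  have hR := h.R_pos
  have ht := h.t_pos
  have h2 : A ^ 2 ≤ (1.01 * (a * t)) ^ 2 := pow_le_pow_left₀ h.A_pos.le h.A_upper 2
  rw [← mul_div_assoc, le_div_iff₀ hR]
  calc A ^ 2 * |c| * R ≤ (1.01 * (a * t)) ^ 2 * |c| * t := by
        apply mul_le_mul (mul_le_mul_of_nonneg_right h2 (abs_nonneg _)) h.ht1 hR.le
        positivity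
    _ = 1.0201 * (a ^ 2 * (|c| * t ^ 3)) := by ring
    _ ≤ 1.0201 * (a ^ 2 * (a ^ 3 * D)) := by gcongr
    _ = 1.0201 * (a ^ 5 * D) := by ring

lemma WR_small (h : RD R Q D W t a A α c) : |α| ^ 3 ≤ 0.00001 * (a * W) := by
  have h1 := h.Ra3
  have h2 := h.par.hR
  have h3 : 100000 * |α| ^ 3 ≤ R * |α| ^ 3 := mul_le_mul_of_nonneg_right h2 (by positivity)
  have h4 : 1 * W ≤ a * W := mul_le_mul_of_nonneg_right h.ha1 h.par.hW.le
  norm_num
  linarith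

/-- bound for `G = 4Aα³+3α⁴+8Ac` -/
lemma G_bound (h : RD R Q D W t a A α c) :
    |4 * A * α ^ 3 + 3 * α ^ 4 + 8 * A * c| ≤ 50 * (a * W) := by
  have hA := h.A_pos
  have hW := h.par.hW
  have ha := h.a_pos
  have h1 : |4 * A * α ^ 3| ≤ 4 * (8.08 * (a * W)) := by
    rw [abs_mul, abs_mul, abs_pow, abs_of_pos hA]
    have := h.Aa3
    rw [abs_of_pos (by norm_num : (0 : ℝ) < 4)]
    linarith
  have h2 : |3 * α ^ 4| ≤ 0.01 * (a * W) := by
    rw [abs_mul, abs_pow, abs_of_pos (by norm_num : (0 : ℝ) < 3)]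
    have h3 : |α| ^ 4 ≤ |α| ^ 3 := by
      have e := pow_le_pow_of_le_one (abs_nonneg α) (by linarith [h.alpha_le]) (by norm_num : 3 ≤ 4)
      exact e
    have h4 := h.WR_small
    have h5 : 0 < a * W := by positivity
    norm_num at h4 ⊢
    linarith
  have h3 : |8 * A * c| ≤ 8 * (1.01 * (a * W)) := by
    rw [abs_mul, abs_mul, abs_of_pos hA, abs_of_pos (by norm_num : (0 : ℝ) < 8)]
    have := h.Ac
    linarith
  have h5 := abs_add_le (4 * A * α ^ 3 + 3 * α ^ 4) (8 * A * c)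
  have h6 := abs_add_le (4 * A * α ^ 3) (3 * α ^ 4)
  have h7 : 0 < a * W := by positivity
  generalize |4 * A * α ^ 3 + 3 * α ^ 4 + 8 * A * c| = Z1 at *
  generalize |4 * A * α ^ 3| = Z2 at *
  generalize |3 * α ^ 4| = Z3 at *
  generalize |8 * A * c| = Z4 at *
  norm_num at h1 h2 h3
  linarith

/-- upper bound for `k = 3Aα²+2α³-2c` -/
lemma k_upper (h : RD R Q D W t a A α c) :
    (3 * A * α ^ 2 + 2 * α ^ 3 - 2 * c) * Q ^ 2 ≤ 30 * (a * R) := by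
  have hQ := h.Q_pos
  have hR := h.R_pos
  have h1 : 3 * A * α ^ 2 * Q ^ 2 ≤ 3 * (8.08 * (a * R)) := by
    have := h.Aa2
    rw [sq_abs] at this
    linarith
  have h2 : 2 * α ^ 3 * Q ^ 2 ≤ 1 := by
    have e1 : α ^ 3 ≤ |α| ^ 3 := by
      rw [← abs_pow]; exact le_abs_self _
    have e2 : (|α| * Q) ^ 2 ≤ 1 := pow_le_one₀ (mul_nonneg (abs_nonneg _) hQ.le) h.hα
    have e3 : 2 * |α| ≤ 1 := by linarith [h.alpha_le]
    calc 2 * α ^ 3 * Q ^ 2 ≤ 2 * |α| ^ 3 * Q ^ 2 := by gcongr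
      _ = (2 * |α|) * (|α| * Q) ^ 2 := by ring
      _ ≤ 1 * 1 := mul_le_mul e3 e2 (by positivity) (by norm_num)
      _ = 1 := by ring
  have h3 : -(2 * c * Q ^ 2) ≤ 2 * (1 / 5000) * (4 * R) := by
    have e1 := (abs_le.1 h.c_small).1
    have e2 := h.par.p5
    have e3 : -(2 * c) ≤ 2 * (1 / 5000) := by linarith
    calc -(2 * c * Q ^ 2) = (-(2 * c)) * Q ^ 2 := by ring
      _ ≤ (2 * (1 / 5000)) * Q ^ 2 := mul_le_mul_of_nonneg_right e3 (by positivity)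
      _ ≤ (2 * (1 / 5000)) * (4 * R) := mul_le_mul_of_nonneg_left e2 (by norm_num)
  have h4 : 1 * R ≤ a * R := mul_le_mul_of_nonneg_right h.ha1 hR.le
  have h5 := h.par.hR
  have h6 : (3 * A * α ^ 2 + 2 * α ^ 3 - 2 * c) * Q ^ 2 =
    3 * A * α ^ 2 * Q ^ 2 + 2 * α ^ 3 * Q ^ 2 + -(2 * c * Q ^ 2) := by ring
  rw [h6]
  norm_num at h1 h3
  linarith

lemma k_lower (h : RD R Q D W t a A α c) :
    -1 < 3 * A * α ^ 2 + 2 * α ^ 3 - 2 * c := by
  have h1 : |α ^ 3| ≤ (1 / 2) ^ 3 := by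
    rw [abs_pow]
    exact pow_le_pow_left₀ (abs_nonneg _) h.alpha_le 3
  have h3 := h.c_small
  rw [abs_le] at h1 h3
  have h4 : 0 ≤ 3 * A * α ^ 2 := by
    have := h.A_pos
    positivity
  norm_num at h1 h3
  linarith [h1.1, h3.2]

/-- bound for `U = 3GA - 2kB` -/
lemma U_bound (h : RD R Q D W t a A α c) :
    |-5 * A * α ^ 4 - 4 * α ^ 5 + c * (24 * A ^ 2 + 8 * A * α + 4 * α ^ 2)| ≤
      42 * (a * W / Q) + 25 * (a ^ 5 * D / R) := by
  have hA := h.A_pos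
  have hα := h.alpha_le
  have hW := h.par.hW
  have ha := h.a_pos
  have hQ := h.Q_pos
  have hR := h.R_pos
  have hD := h.par.hD
  have hA1 : 10000 ≤ A := by
    have h1 := h.A_lower'
    have h2 : 1 * 100000 ≤ a * R := mul_le_mul h.ha1 h.par.hR (by norm_num) h.a_pos.le
    norm_num at h1 h2
    linarith
  have hx0 : 0 < a * W / Q := by positivity
  have hy0 : 0 < a ^ 5 * D / R := by positivity
  have h1 : |5 * A * α ^ 4| ≤ 5 * (8.08 * (a * W / Q)) := by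
    rw [abs_mul, abs_mul, abs_pow, abs_of_pos hA]
    have := h.Aa4
    rw [abs_of_pos (by norm_num : (0 : ℝ) < 5)]
    linarith
  have h2 : |4 * α ^ 5| ≤ a * W / Q := by
    rw [abs_mul, abs_pow, abs_of_pos (by norm_num : (0 : ℝ) < 4)]
    have e1 : |α| ^ 5 ≤ |α| ^ 4 :=
      pow_le_pow_of_le_one (abs_nonneg α) (by linarith) (by norm_num)
    have e2 := h.Aa4
    have e3 : 10000 * |α| ^ 4 ≤ A * |α| ^ 4 := mul_le_mul_of_nonneg_right hA1 (by positivity)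
    norm_num at e2
    linarith
  have h3 : |24 * A ^ 2 + 8 * A * α + 4 * α ^ 2| ≤ 24.1 * A ^ 2 := by
    have e1 : 10000 * A ≤ A ^ 2 := by nlinarith
    have e2 : |A * α| ≤ A * (1 / 2) := by
      rw [abs_mul, abs_of_pos hA]
      exact mul_le_mul_of_nonneg_left hα hA.le
    have e3 : α ^ 2 ≤ (1 / 2) ^ 2 := by
      rw [← sq_abs]
      exact pow_le_pow_left₀ (abs_nonneg _) hα 2
    have e4 : 0 ≤ α ^ 2 := sq_nonneg _
    rw [abs_le] at e2 ⊢
    norm_num at *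
    constructor
    · nlinarith [e2.1]
    · nlinarith [e2.2]
  have h4 : |c * (24 * A ^ 2 + 8 * A * α + 4 * α ^ 2)| ≤ 24.1 * (1.0201 * (a ^ 5 * D / R)) := by
    rw [abs_mul]
    have e1 : |c| * |24 * A ^ 2 + 8 * A * α + 4 * α ^ 2| ≤ |c| * (24.1 * A ^ 2) :=
      mul_le_mul_of_nonneg_left h3 (abs_nonneg _)
    have e2 := h.A2c
    have e3 : |c| * (24.1 * A ^ 2) = 24.1 * (A ^ 2 * |c|) := by ring
    rw [e3] at e1
    linarith
  have h6 := abs_add_le (-5 * A * α ^ 4 - 4 * α ^ 5) (c * (24 * A ^ 2 + 8 * A * α + 4 * α ^ 2))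
  have h7 : |-5 * A * α ^ 4 - 4 * α ^ 5| ≤ |5 * A * α ^ 4| + |4 * α ^ 5| := by
    have : -5 * A * α ^ 4 - 4 * α ^ 5 = -(5 * A * α ^ 4 + 4 * α ^ 5) := by ring
    rw [this, abs_neg]
    exact abs_add_le _ _
  generalize |-5 * A * α ^ 4 - 4 * α ^ 5 + c * (24 * A ^ 2 + 8 * A * α + 4 * α ^ 2)| = Z1 at *
  generalize |c * (24 * A ^ 2 + 8 * A * α + 4 * α ^ 2)| = Z2 at *
  generalize |-5 * A * α ^ 4 - 4 * α ^ 5| = Z3 at *
  generalize |5 * A * α ^ 4| = Z4 at *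
  generalize |4 * α ^ 5| = Z5 at *
  norm_num at h1 h4
  linarith

end RD

end Pool.Agent.Helper15.Hall2
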