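import Mathlib
import Pool.Agent.Helper15.HallKeys
import Pool.Agent.Helper15.HallReal2
import Pool.Agent.Helper15.HallFam2

set_option autoImplicit false

namespace Pool.Agent.Helper15.Hall2

open Pool.Agent.Helper15.Hall (Bz kz Gz)

/-- An almost-solution of `y² = x³` together with a Dirichlet approximation `A / a` of `√x`. -/
structure Datum (R Q D : ℤ) (W : ℝ) (x y a A : ℤ) : Prop where
  par : Par (R : ℝ) Q D W
  hx1 : R ^ 2 ≤ x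
  hx2 : x ≤ 64 * R ^ 2
  hy : 1 ≤ y
  hd0 : x ^ 3 - y ^ 2 ≠ 0
  hd : |x ^ 3 - y ^ 2| ≤ D
  ha1 : 1 ≤ a
  haQ : a ≤ Q
  hco : IsCoprime A a
  hα : |(a : ℝ) * √(x : ℝ) - A| * Q ≤ 1

namespace Datum

variable {R Q D : ℤ} {W : ℝ} {x y a A : ℤ}

lemma R_pos (h : Datum R Q D W x y a A) : 0 < R := by
  have := h.par.R_pos
  exact_mod_cast this

lemma x_pos (h : Datum R Q D W x y a A) : 0 < x := by
  have h1 := h.hx1
  have h2 : 0 < R ^ 2 := by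
    have := h.R_pos
    positivity
  omega

lemma t_sq (h : Datum R Q D W x y a A) : (√(x : ℝ)) ^ 2 = x :=
  Real.sq_sqrt (by exact_mod_cast h.x_pos.le)

lemma t_ge (h : Datum R Q D W x y a A) : (R : ℝ) ≤ √(x : ℝ) := by
  apply Real.le_sqrt_of_sq_le
  exact_mod_cast h.hx1

lemma t_le (h : Datum R Q D W x y a A) : √(x : ℝ) ≤ 8 * (R : ℝ) := by
  have hR := h.par.R_pos
  rw [Real.sqrt_le_left (by positivity)]
  have h2 : (x : ℝ) ≤ 64 * (R : ℝ) ^ 2 := by exact_mod_cast h.hx2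
  calc (x : ℝ) ≤ 64 * (R : ℝ) ^ 2 := h2
    _ = (8 * (R : ℝ)) ^ 2 := by ring

lemma d_le (h : Datum R Q D W x y a A) : |((x : ℝ) ^ 3 - (y : ℝ) ^ 2)| ≤ D := by
  exact_mod_cast h.hd

/-- The real data of a datum. -/
lemma toRD (h : Datum R Q D W x y a A) :
    RD (R : ℝ) Q D W (√(x : ℝ)) a A ((a : ℝ) * √(x : ℝ) - A)
      ((a : ℝ) ^ 3 * ((√(x : ℝ)) ^ 3 - y)) := by
  have ha : (1 : ℝ) ≤ a := by exact_mod_cast h.ha1
  have ht := h.t_ge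
  have ht0 : 0 < √(x : ℝ) := lt_of_lt_of_le h.par.R_pos ht
  refine ⟨h.par, ht, h.t_le, ha, by exact_mod_cast h.haQ, by ring, h.hα, ?_⟩
  have hy : (1 : ℝ) ≤ y := by exact_mod_cast h.hy
  have h1 := h.d_le
  have hsq := h.t_sq
  set t := √(x : ℝ) with ht_def
  have h2 : (x : ℝ) ^ 3 - (y : ℝ) ^ 2 = (t ^ 3 - y) * (t ^ 3 + y) := by
    rw [← hsq]; ring
  rw [h2, abs_mul] at h1
  have h3 : |t ^ 3 + (y : ℝ)| = t ^ 3 + y := abs_of_pos (by positivity)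
  rw [h3] at h1
  have h4 : |t ^ 3 - (y : ℝ)| * t ^ 3 ≤ |t ^ 3 - (y : ℝ)| * (t ^ 3 + y) :=
    mul_le_mul_of_nonneg_left (by linarith) (abs_nonneg _)
  rw [abs_mul, abs_of_pos (by positivity : (0 : ℝ) < (a : ℝ) ^ 3)]
  calc (a : ℝ) ^ 3 * |t ^ 3 - (y : ℝ)| * t ^ 3 = (a : ℝ) ^ 3 * (|t ^ 3 - (y : ℝ)| * t ^ 3) := by
        ring
    _ ≤ (a : ℝ) ^ 3 * D := mul_le_mul_of_nonneg_left (le_trans h4 h1) (by positivity)

lemma B_real (h : Datum R Q D W x y a A) :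
    (Bz x a A : ℝ) = 2 * A * ((a : ℝ) * √(x : ℝ) - A) + ((a : ℝ) * √(x : ℝ) - A) ^ 2 := by
  have hsq := h.t_sq
  unfold Bz
  push_cast
  linear_combination (-(a : ℝ) ^ 2) * hsq

lemma k_real (h : Datum R Q D W x y a A) :
    (kz x y a A : ℝ) = 3 * A * ((a : ℝ) * √(x : ℝ) - A) ^ 2 + 2 * ((a : ℝ) * √(x : ℝ) - A) ^ 3
      - 2 * ((a : ℝ) ^ 3 * ((√(x : ℝ)) ^ 3 - y)) := by
  have hB := h.B_real
  unfold kz
  push_cast
  rw [hB]
  ring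

lemma G_real (h : Datum R Q D W x y a A) :
    (Gz x y a A : ℝ) = 4 * A * ((a : ℝ) * √(x : ℝ) - A) ^ 3 + 3 * ((a : ℝ) * √(x : ℝ) - A) ^ 4
      + 8 * A * ((a : ℝ) ^ 3 * ((√(x : ℝ)) ^ 3 - y)) := by
  have hB := h.B_real
  have hk := h.k_real
  unfold Gz
  push_cast
  rw [hB, hk]
  ring

lemma U_real (h : Datum R Q D W x y a A) :
    (3 * (Gz x y a A : ℝ) * A - 2 * (kz x y a A : ℝ) * (Bz x a A : ℝ)) =
      -5 * A * ((a : ℝ) * √(x : ℝ) - A) ^ 4 - 4 * ((a : ℝ) * √(x : ℝ) - A) ^ 5 +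
      ((a : ℝ) ^ 3 * ((√(x : ℝ)) ^ 3 - y)) * (24 * (A : ℝ) ^ 2 +
        8 * A * ((a : ℝ) * √(x : ℝ) - A) + 4 * ((a : ℝ) * √(x : ℝ) - A) ^ 2) := by
  rw [h.B_real, h.k_real, h.G_real]
  ring

lemma G_le (h : Datum R Q D W x y a A) : |(Gz x y a A : ℝ)| ≤ 50 * (a * W) := by
  have h1 := h.toRD.G_bound
  rw [← h.G_real] at h1
  exact h1

lemma U_le (h : Datum R Q D W x y a A) :
    |3 * (Gz x y a A : ℝ) * A - 2 * (kz x y a A : ℝ) * (Bz x a A : ℝ)| ≤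
      42 * ((a : ℝ) * W / Q) + 25 * ((a : ℝ) ^ 5 * D / R) := by
  rw [h.U_real]
  exact h.toRD.U_bound

lemma k_le (h : Datum R Q D W x y a A) : kz x y a A * Q ^ 2 ≤ 30 * (a * R) := by
  have h1 := h.toRD.k_upper
  rw [← h.k_real] at h1
  exact_mod_cast h1

lemma k_nonneg (h : Datum R Q D W x y a A) : 0 ≤ kz x y a A := by
  have h1 := h.toRD.k_lower
  rw [← h.k_real] at h1
  have h2 : (-1 : ℤ) < kz x y a A := by exact_mod_cast h1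
  omega

lemma A_pos (h : Datum R Q D W x y a A) : 0 < A := by
  have := h.toRD.A_pos
  exact_mod_cast this

/-- If `k = 0` then `a = 1`. -/
lemma a_eq_one (h : Datum R Q D W x y a A) (hk : kz x y a A = 0) : a = 1 := by
  have h1 : a ^ 2 ∣ A ^ 3 := by
    have := Hall.k_cong x y a A
    rw [hk] at this
    exact ⟨-(2 * a * y - 3 * A * x), by linarith⟩
  have h2 : IsCoprime (a ^ 2) (A ^ 3) := h.hco.symm.pow
  have h3 : IsUnit (a ^ 2) := h2.isUnit_of_dvd' (dvd_refl _) h1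
  have h4 : IsUnit a := (isUnit_pow_iff (by norm_num)).1 h3
  rcases Int.isUnit_iff.1 h4 with h5 | h5
  · exact h5
  · have := h.ha1
    omega

/-- If `k = 0` then `D` is large. -/
lemma D_large_of_k_zero (h : Datum R Q D W x y a A) (hk : kz x y a A = 0) :
    (R : ℝ) ^ 2 < 5 * D := by
  have ha := h.a_eq_one hk
  have hid := Hall.d_identity x y a A
  have hG : Gz x y a A = 3 * Bz x a A ^ 2 := by
    unfold Gz
    rw [hk]; ring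
  rw [hG, hk, ha] at hid
  have hB0 : Bz x 1 A ≠ 0 := by
    intro h0
    rw [h0] at hid
    apply h.hd0
    linarith
  have hid2 : 4 * (x ^ 3 - y ^ 2) = Bz x 1 A ^ 2 * (3 * A ^ 2 + 4 * Bz x 1 A) := by
    linarith
  have hR := h.toRD
  have hBr := h.B_real
  rw [ha] at hBr
  have hα := hR.alpha_le
  rw [ha] at hα
  have hA1 := hR.A_lower'
  rw [ha] at hA1
  push_cast at hBr hα hA1
  have hRbig := hR.par.hR
  have hAbig : (1000 : ℝ) ≤ A := by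
    norm_num at hA1 ⊢
    linarith
  have hBle : |(Bz x 1 A : ℝ)| ≤ (A : ℝ) + 1 := by
    rw [hBr]
    have e1 : |2 * (A : ℝ) * (1 * √(x : ℝ) - A)| ≤ 2 * A * (1 / 2) := by
      rw [abs_mul, abs_of_pos (by linarith : (0 : ℝ) < 2 * A)]
      exact mul_le_mul_of_nonneg_left hα (by linarith)
    have e2 : |(1 * √(x : ℝ) - (A : ℝ)) ^ 2| ≤ 1 := by
      rw [abs_pow]
      exact pow_le_one₀ (abs_nonneg _) (by linarith)
    have e3 := abs_add_le (2 * (A : ℝ) * (1 * √(x : ℝ) - A)) ((1 * √(x : ℝ) - (A : ℝ)) ^ 2)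
    linarith
  have hBz : |Bz x 1 A| ≤ A + 1 := by exact_mod_cast hBle
  have hAz : 1000 ≤ A := by exact_mod_cast hAbig
  have h5 : A ^ 2 ≤ 3 * A ^ 2 + 4 * Bz x 1 A := by
    have := abs_le.1 hBz
    nlinarith [this.1]
  have h6 : 1 ≤ Bz x 1 A ^ 2 := by
    have : 0 < Bz x 1 A ^ 2 := by positivity
    omega
  have h7 : A ^ 2 ≤ 4 * (x ^ 3 - y ^ 2) := by
    rw [hid2]
    nlinarith [sq_nonneg A]
  have h8 : (A : ℝ) ^ 2 ≤ 4 * ((x : ℝ) ^ 3 - (y : ℝ) ^ 2) := by exact_mod_cast h7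
  have h9 := h.d_le
  have h10 := le_abs_self ((x : ℝ) ^ 3 - (y : ℝ) ^ 2)
  have h11 : (0.99 * (R : ℝ)) ^ 2 ≤ (A : ℝ) ^ 2 := by
    apply pow_le_pow_left₀
    · have := h.par.R_pos
      positivity
    · linarith
  have h15 : (0.99 * (R : ℝ)) ^ 2 = 0.9801 * (R : ℝ) ^ 2 := by ring
  rw [h15] at h11
  have h16 : 0 < (R : ℝ) ^ 2 := by
    have := h.par.R_pos
    positivity
  norm_num at h11
  linarith

/-- If `k = 0` then `|B| ≤ 5 √W`, in the form `3 B² ≤ 50 W`. -/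
lemma B_small_of_k_zero (h : Datum R Q D W x y a A) (hk : kz x y a A = 0) :
    3 * (Bz x 1 A : ℝ) ^ 2 ≤ 50 * W := by
  have ha := h.a_eq_one hk
  have hG : Gz x y a A = 3 * Bz x a A ^ 2 := by
    unfold Gz
    rw [hk]; ring
  have h1 := h.G_le
  rw [hG, ha] at h1
  push_cast at h1
  have := le_trans (le_abs_self _) h1
  linarith

lemma N_aux (h : Datum R Q D W x y a A) (hk : kz x y a A ≠ 0) :
    (1 : ℝ) ≤ kz x y a A ∧ 5000 * ((a : ℝ) * W) ≤ a * (R : ℝ) * kz x y a A := by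
  have h0 := h.k_nonneg
  have h1 : (1 : ℝ) ≤ kz x y a A := by
    have : 1 ≤ kz x y a A := by omega
    exact_mod_cast this
  refine ⟨h1, ?_⟩
  have ha := h.toRD.a_pos
  have hR := h.par.R_pos
  calc 5000 * ((a : ℝ) * W) = a * (5000 * W) := by ring
    _ ≤ a * (R : ℝ) := mul_le_mul_of_nonneg_left h.par.p3 ha.le
    _ = a * (R : ℝ) * 1 := by ring
    _ ≤ a * (R : ℝ) * kz x y a A := mul_le_mul_of_nonneg_left h1 (by positivity)

lemma B_sq_le (h : Datum R Q D W x y a A) (hk : kz x y a A ≠ 0) :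
    (Bz x a A : ℝ) ^ 2 ≤ 11 * (a * (R : ℝ) * (kz x y a A : ℝ)) := by
  have hR := h.toRD
  obtain ⟨h1, h7⟩ := h.N_aux hk
  have h2 := h.G_le
  have h3 : (Gz x y a A : ℝ) = 3 * (Bz x a A : ℝ) ^ 2 - 4 * A * kz x y a A := by
    unfold Gz
    push_cast
    ring
  have h4 := hR.A_upper'
  have h5 := abs_le.1 h2
  have h6 : (A : ℝ) * kz x y a A ≤ 8.08 * (a * (R : ℝ)) * kz x y a A :=
    mul_le_mul_of_nonneg_right h4 (by linarith)
  have h8 : 8.08 * (a * (R : ℝ)) * kz x y a A = 8.08 * (a * (R : ℝ) * kz x y a A) := by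
    ring
  rw [h8] at h6
  have h9 : 0 < (a : ℝ) * W := mul_pos hR.a_pos h.par.hW
  norm_num at h6
  linarith [h5.2]

lemma B_sq_ge (h : Datum R Q D W x y a A) (hk : kz x y a A ≠ 0) :
    1.3 * (a * (R : ℝ) * (kz x y a A : ℝ)) ≤ (Bz x a A : ℝ) ^ 2 := by
  have hR := h.toRD
  obtain ⟨h1, h7⟩ := h.N_aux hk
  have h2 := h.G_le
  have h3 : (Gz x y a A : ℝ) = 3 * (Bz x a A : ℝ) ^ 2 - 4 * A * kz x y a A := by
    unfold Gz
    push_cast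
    ring
  have h4 := hR.A_lower'
  have h5 := abs_le.1 h2
  have h6 : 0.99 * (a * (R : ℝ)) * kz x y a A ≤ (A : ℝ) * kz x y a A :=
    mul_le_mul_of_nonneg_right h4 (by linarith)
  have h8 : 0.99 * (a * (R : ℝ)) * kz x y a A = 0.99 * (a * (R : ℝ) * kz x y a A) := by
    ring
  rw [h8] at h6
  have h9 : 0 < (a : ℝ) * W := mul_pos hR.a_pos h.par.hW
  norm_num at h6 ⊢
  linarith [h5.1]

lemma k_coprime (h : Datum R Q D W x y a A) : IsCoprime (kz x y a A) a := by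
  rw [Hall.k_cong]
  have h1 : IsCoprime (A ^ 3) a := h.hco.pow_left
  have h2 : A ^ 3 + a ^ 2 * (2 * a * y - 3 * A * x) = A ^ 3 + a * (a * (2 * a * y - 3 * A * x)) := by
    ring
  rw [h2]
  exact h1.add_mul_left_left _

end Datum

section pairs

variable {R Q D : ℤ} {W : ℝ} {x y x' y' a A A' : ℤ}

/-- General size bound for `e`. -/
lemma e_general (h : Datum R Q D W x y a A) (h' : Datum R Q D W x' y' a A')
    (hk0 : kz x y a A ≠ 0) (hk : kz x y a A = kz x' y' a A') (M : ℤ)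
    (hM : 44 * R ≤ M ^ 2 * a ^ 3)
    (e : ℤ) (he : Bz x' a A' - Bz x a A = a ^ 2 * e) :
    e ^ 2 ≤ M ^ 2 * kz x y a A := by
  have h1 := h.B_sq_le hk0
  have h2 := h'.B_sq_le (by rw [← hk]; exact hk0)
  rw [← hk] at h2
  have hk1 : (1 : ℝ) ≤ kz x y a A := (h.N_aux hk0).1
  have ha := h.toRD.a_pos
  have hR := h.par.R_pos
  set k : ℝ := (kz x y a A : ℝ) with hkdef
  have hMr : 44 * (R : ℝ) ≤ (M : ℝ) ^ 2 * (a : ℝ) ^ 3 := by exact_mod_cast hM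
  have he' : (Bz x' a A' : ℝ) - Bz x a A = (a : ℝ) ^ 2 * e := by exact_mod_cast he
  have h3 : ((a : ℝ) ^ 2 * e) ^ 2 ≤ 44 * (a * (R : ℝ) * k) := by
    rw [← he']
    have := sq_aux2 (a * (R : ℝ) * k) (Bz x' a A' : ℝ) (-(Bz x a A : ℝ)) h2 (by rwa [neg_sq])
    rw [← sub_eq_add_neg] at this
    exact this
  have h6 : (a : ℝ) ^ 4 * (e : ℝ) ^ 2 ≤ (a : ℝ) ^ 4 * ((M : ℝ) ^ 2 * k) := by
    calc (a : ℝ) ^ 4 * (e : ℝ) ^ 2 = ((a : ℝ) ^ 2 * e) ^ 2 := by ring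
      _ ≤ 44 * (a * (R : ℝ) * k) := h3
      _ = a * (44 * (R : ℝ)) * k := by ring
      _ ≤ a * ((M : ℝ) ^ 2 * (a : ℝ) ^ 3) * k := by gcongr
      _ = (a : ℝ) ^ 4 * ((M : ℝ) ^ 2 * k) := by ring
  have h7 : (e : ℝ) ^ 2 ≤ (M : ℝ) ^ 2 * k := le_of_mul_le_mul_left h6 (by positivity)
  rw [hkdef] at h7
  exact_mod_cast h7

/-- Size bound for `e` when `k` is large. -/
lemma e_large (h : Datum R Q D W x y a A) (h' : Datum R Q D W x' y' a A')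
    (hk0 : kz x y a A ≠ 0)
    (hk : kz x y a A = kz x' y' a A') (hG : Gz x y a A = Gz x' y' a A') (L L' M : ℤ) (hL : 1 ≤ L)
    (hL' : 1 ≤ L')
    (hbig : L * a ^ 2 ≤ kz x y a A) (hbig' : L' * a ^ 2 ≤ kz x y a A)
    (p4 : 1300000 * W ^ 2 ≤ R * Q * (L : ℝ) ^ 3)
    (p7 : 450000 * ((Q : ℝ) ^ 3 * (D : ℝ) ^ 2) ≤ (R : ℝ) ^ 3 * (L : ℝ) ^ 3)
    (p8 : 1024 * (D : ℝ) ^ 2 ≤ (M : ℝ) ^ 2 * ((R : ℝ) ^ 2 * (L' : ℝ) ^ 3))
    (e : ℤ) (he : Bz x' a A' - Bz x a A = a ^ 2 * e) :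
    e ^ 2 ≤ M ^ 2 * kz x y a A := by
  have hR := h.toRD
  have hR' := h'.toRD
  have hLr : (1 : ℝ) ≤ L := by exact_mod_cast hL
  have hLr' : (1 : ℝ) ≤ L' := by exact_mod_cast hL'
  have hb : (L : ℝ) * (a : ℝ) ^ 2 ≤ (kz x y a A : ℝ) := by exact_mod_cast hbig
  have hb' : (L' : ℝ) * (a : ℝ) ^ 2 ≤ (kz x y a A : ℝ) := by exact_mod_cast hbig'
  have hid := Hall.d_identity x y a A
  have hid' := Hall.d_identity x' y' a A'
  have hidr : 8 * (a : ℝ) ^ 6 * ((x : ℝ) ^ 3 - (y : ℝ) ^ 2) =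
      2 * (A : ℝ) ^ 2 * (Gz x y a A : ℝ) - (Bz x a A : ℝ) ^ 3 +
      3 * (Bz x a A : ℝ) * (Gz x y a A : ℝ) - 2 * (kz x y a A : ℝ) ^ 2 := by
    exact_mod_cast hid
  have hidr' : 8 * (a : ℝ) ^ 6 * ((x' : ℝ) ^ 3 - (y' : ℝ) ^ 2) =
      2 * (A' : ℝ) ^ 2 * (Gz x y a A : ℝ) - (Bz x' a A' : ℝ) ^ 3 +
      3 * (Bz x' a A' : ℝ) * (Gz x y a A : ℝ) - 2 * (kz x y a A : ℝ) ^ 2 := by
    rw [hk, hG]
    exact_mod_cast hid'
  have hG1 : (Gz x y a A : ℝ) = 3 * (Bz x a A : ℝ) ^ 2 - 4 * A * kz x y a A := by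
    unfold Gz
    push_cast
    ring
  have hG2 : (Gz x y a A : ℝ) = 3 * (Bz x' a A' : ℝ) ^ 2 - 4 * A' * kz x y a A := by
    rw [hk, hG]
    unfold Gz
    push_cast
    ring
  have hU' := h'.U_le
  rw [← hk, ← hG] at hU'
  have hB1' := h'.B_sq_ge (by rw [← hk]; exact hk0)
  have hB2' := h'.B_sq_le (by rw [← hk]; exact hk0)
  rw [← hk] at hB1' hB2'
  have hQ1 : (1 : ℝ) ≤ Q := by linarith [hR.par.hQ]
  have hmain := diff_bound hR.par.hR hQ1 hR.par.hD hR.par.hW hLr hR.ha1 hR.haq hb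
    hR.par.p3 p4 p7 (h.B_sq_ge hk0) (h.B_sq_le hk0) hB1' hB2'
    h.U_le hU' h.G_le rfl rfl hG1 hG2 hidr hidr' h.d_le h'.d_le
  have he' : (Bz x a A : ℝ) - Bz x' a A' = -((a : ℝ) ^ 2 * e) := by
    have : (Bz x' a A' : ℝ) - Bz x a A = (a : ℝ) ^ 2 * e := by exact_mod_cast he
    linarith
  have ha := hR.a_pos
  have hD := hR.par.hD
  have hRp := hR.R_pos
  rw [he', abs_neg, abs_mul, abs_of_pos (by positivity : (0 : ℝ) < (a : ℝ) ^ 2)] at hmain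
  set k : ℝ := (kz x y a A : ℝ) with hkdef
  have hk0' : 0 < k := lt_of_lt_of_le (by positivity) hb
  have h1 : |(e : ℝ)| * k * R ≤ 32 * ((a : ℝ) ^ 3 * D) := by
    have h2 : (a : ℝ) ^ 2 * (|(e : ℝ)| * k * R) ≤ (a : ℝ) ^ 2 * (32 * ((a : ℝ) ^ 3 * D)) := by
      calc (a : ℝ) ^ 2 * (|(e : ℝ)| * k * R) = (a : ℝ) ^ 2 * |(e : ℝ)| * k * R := by ring
        _ ≤ 32 * ((a : ℝ) ^ 5 * D) := hmain
        _ = (a : ℝ) ^ 2 * (32 * ((a : ℝ) ^ 3 * D)) := by ring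
    exact le_of_mul_le_mul_left h2 (by positivity)
  have h3 : (|(e : ℝ)| * k * R) ^ 2 ≤ (32 * ((a : ℝ) ^ 3 * D)) ^ 2 :=
    pow_le_pow_left₀ (by positivity) h1 2
  have h4 : ((L' : ℝ) * (a : ℝ) ^ 2) ^ 3 ≤ k ^ 3 := pow_le_pow_left₀ (by positivity) hb' 3
  have h6 : (k ^ 2 * (R : ℝ) ^ 2) * (e : ℝ) ^ 2 ≤ (k ^ 2 * (R : ℝ) ^ 2) * ((M : ℝ) ^ 2 * k) := by
    calc (k ^ 2 * (R : ℝ) ^ 2) * (e : ℝ) ^ 2 = (|(e : ℝ)| * k * R) ^ 2 := by
          rw [mul_pow, mul_pow, sq_abs]; ring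
      _ ≤ (32 * ((a : ℝ) ^ 3 * D)) ^ 2 := h3
      _ = (a : ℝ) ^ 6 * (1024 * (D : ℝ) ^ 2) := by ring
      _ ≤ (a : ℝ) ^ 6 * ((M : ℝ) ^ 2 * ((R : ℝ) ^ 2 * (L' : ℝ) ^ 3)) := by gcongr
      _ = (M : ℝ) ^ 2 * (R : ℝ) ^ 2 * ((L' : ℝ) * (a : ℝ) ^ 2) ^ 3 := by ring
      _ ≤ (M : ℝ) ^ 2 * (R : ℝ) ^ 2 * k ^ 3 := by gcongr
      _ = (k ^ 2 * (R : ℝ) ^ 2) * ((M : ℝ) ^ 2 * k) := by ring
  have h7 : (e : ℝ) ^ 2 ≤ (M : ℝ) ^ 2 * k := le_of_mul_le_mul_left h6 (by positivity)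
  rw [hkdef] at h7
  exact_mod_cast h7

end pairs

/-- The number of members of a family. -/
theorem fam_card (R Q D : ℤ) (W : ℝ) (a G k : ℤ) (M : ℕ) (F : Finset ℤ) (Y Af : ℤ → ℤ)
    (hD : ∀ x ∈ F, Datum R Q D W x (Y x) a (Af x))
    (hk0 : k ≠ 0)
    (hk : ∀ x ∈ F, kz x (Y x) a (Af x) = k)
    (hG : ∀ x ∈ F, Gz x (Y x) a (Af x) = G)
    (hM : ∀ x ∈ F, ∀ x' ∈ F, ∀ e : ℤ, Bz x' a (Af x') - Bz x a (Af x) = a ^ 2 * e →
      e ^ 2 ≤ (M : ℤ) ^ 2 * k) :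
    F.card ≤ (4 * M + 1) * k.toNat.divisors.card := by
  rcases F.eq_empty_or_nonempty with rfl | ⟨x₀, hx₀⟩
  · simp
  have hD0 := hD x₀ hx₀
  have hkx0 := hk x₀ hx₀
  have hG0 := hG x₀ hx₀
  have hkpos : 1 ≤ k := by
    have := hD0.k_nonneg
    rw [hkx0] at this
    omega
  have ha : a ≠ 0 := by
    have := hD0.ha1
    omega
  have hknat : ((k.toNat : ℕ) : ℤ) = k := Int.toNat_of_nonneg (by omega)
  -- choose e
  have hex : ∀ x ∈ F, ∃ e : ℤ, Bz x a (Af x) - Bz x₀ a (Af x₀) = a ^ 2 * e := by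
    intro x hx
    have hkk : kz x₀ (Y x₀) a (Af x₀) = kz x (Y x) a (Af x) := by rw [hkx0, hk x hx]
    have hGG : Gz x₀ (Y x₀) a (Af x₀) = Gz x (Y x) a (Af x) := by rw [hG0, hG x hx]
    exact Hall.fam_dvd_B hD0.hco hkk hGG
  choose! ef hef using hex
  have hinj : Set.InjOn ef F := by
    intro x hx x' hx' hxx
    have hkk : kz x (Y x) a (Af x) = kz x' (Y x') a (Af x') := by rw [hk x hx, hk x' hx']
    have hGG : Gz x (Y x) a (Af x) = Gz x' (Y x') a (Af x') := by rw [hG x hx, hG x' hx']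
    apply Hall.x_unique ha (by rw [hk x hx]; exact hk0) hkk hGG
    have e1 := hef x hx
    have e2 := hef x' hx'
    rw [hxx] at e1
    linarith
  rw [← Finset.card_image_of_injOn hinj]
  apply Hall.card_e_le k.toNat M (by omega) a (Bz x₀ a (Af x₀))
  · rw [hknat, ← hkx0]
    exact hD0.k_coprime
  · intro e he
    rw [Finset.mem_image] at he
    obtain ⟨x, hx, rfl⟩ := he
    have hkk : kz x₀ (Y x₀) a (Af x₀) = kz x (Y x) a (Af x) := by rw [hkx0, hk x hx]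
    have hGG : Gz x₀ (Y x₀) a (Af x₀) = Gz x (Y x) a (Af x) := by rw [hG0, hG x hx]
    rw [hknat, ← hkx0]
    exact Hall.k_dvd_e ha hD0.hco hkk hGG (ef x) (hef x hx)
  · intro e he
    rw [Finset.mem_image] at he
    obtain ⟨x, hx, rfl⟩ := he
    rw [hknat]
    exact hM x₀ hx₀ x hx (ef x) (hef x hx)

end Pool.Agent.Helper15.Hall2
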