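import Mathlib

set_option autoImplicit false

namespace Pool.Agent.Helper15.Hall

open Finset

/-- Number of fourth roots of unity modulo `n`. -/
noncomputable def r4 (n : ℕ) : ℕ := Nat.card {u : ZMod n // u ^ 4 = 1}

lemma r4_mul (m n : ℕ) (h : m.Coprime n) : r4 (m * n) = r4 m * r4 n := by
  unfold r4
  rw [← Nat.card_prod]
  apply Nat.card_congr
  let e := ZMod.chineseRemainder h
  refine ⟨fun u => (⟨(e u.1).1, ?_⟩, ⟨(e u.1).2, ?_⟩), fun v => ⟨e.symm (v.1.1, v.2.1), ?_⟩, ?_, ?_⟩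
  · have := congrArg e u.2
    rw [map_pow, map_one] at this
    exact congrArg Prod.fst this
  · have := congrArg e u.2
    rw [map_pow, map_one] at this
    exact congrArg Prod.snd this
  · rw [← map_pow]
    have : ((v.1.1, v.2.1) : ZMod m × ZMod n) ^ 4 = 1 := Prod.ext v.1.2 v.2.2
    rw [this, map_one]
  · intro u
    apply Subtype.ext
    simp
  · intro v
    apply Prod.ext <;> apply Subtype.ext <;> simp

/-- Counting via integer representatives. -/
lemma r4_le_of_int (n : ℕ) (hn : n ≠ 0) (S : Finset ℤ)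
    (hS : ∀ m : ℤ, 0 ≤ m → m < n → (n : ℤ) ∣ m ^ 4 - 1 → m ∈ S) : r4 n ≤ S.card := by
  have : NeZero n := ⟨hn⟩
  unfold r4
  have hfin : Finite {u : ZMod n // u ^ 4 = 1} := inferInstance
  have hinj : Function.Injective (fun u : {u : ZMod n // u ^ 4 = 1} =>
      (⟨((u.1.val : ℕ) : ℤ), hS _ (by positivity) (by exact_mod_cast ZMod.val_lt u.1) (by
        rw [← ZMod.intCast_zmod_eq_zero_iff_dvd]
        push_cast
        rw [ZMod.natCast_zmod_val, u.2, sub_self])⟩ : S)) := by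
    intro u v huv
    simp only [Subtype.mk.injEq, Nat.cast_inj] at huv
    exact Subtype.ext (ZMod.val_injective n huv)
  have h := Nat.card_le_card_of_injective _ hinj
  have h2 : Nat.card S = S.card := by
    rw [Nat.card_eq_fintype_card, Fintype.card_coe]
  rw [h2] at h
  exact h

lemma r4_two_pow (j : ℕ) : r4 (2 ^ (j + 3)) ≤ 8 := by
  set S : Finset ℤ := (Finset.range 4).image (fun i : ℕ => 1 + 2 ^ (j + 1) * (i : ℤ)) ∪
    (Finset.range 4).image (fun i : ℕ => 2 ^ (j + 1) * ((i : ℤ) + 1) - 1) with hSdef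
  have hcard : S.card ≤ 8 := by
    calc S.card ≤ ((Finset.range 4).image (fun i : ℕ => 1 + 2 ^ (j + 1) * (i : ℤ))).card +
          ((Finset.range 4).image (fun i : ℕ => 2 ^ (j + 1) * ((i : ℤ) + 1) - 1)).card :=
          card_union_le _ _
      _ ≤ 4 + 4 := by
          apply Nat.add_le_add
          · exact le_trans card_image_le (by simp)
          · exact le_trans card_image_le (by simp)
  refine le_trans (r4_le_of_int _ (by positivity) S ?_) hcard
  intro m hm0 hm1 hdvd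
  push_cast at hm1 hdvd
  have hpow : (2 : ℤ) ^ (j + 3) = 4 * 2 ^ (j + 1) := by ring
  have hodd : ¬ (2 : ℤ) ∣ m := by
    intro h2
    have h3 : (2 : ℤ) ∣ m ^ 4 - 1 := dvd_trans (dvd_pow_self 2 (by omega)) hdvd
    have h4 : (2 : ℤ) ∣ m ^ 4 := dvd_pow h2 (by norm_num)
    have h5 := (dvd_sub_right h4).1 h3
    omega
  have hodd' : m % 2 = 1 := by omega
  -- m^2 + 1 = 2 * odd
  obtain ⟨w, hw⟩ : ∃ w, m = 2 * w + 1 := ⟨m / 2, by omega⟩
  have hsq : m ^ 2 + 1 = 2 * (2 * (w ^ 2 + w) + 1) := by rw [hw]; ring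
  have h1 : (2 : ℤ) ^ (j + 2) ∣ m ^ 2 - 1 := by
    have e1 : m ^ 4 - 1 = 2 * ((m ^ 2 - 1) * (2 * (w ^ 2 + w) + 1)) := by
      calc m ^ 4 - 1 = (m ^ 2 - 1) * (m ^ 2 + 1) := by ring
        _ = (m ^ 2 - 1) * (2 * (2 * (w ^ 2 + w) + 1)) := by rw [hsq]
        _ = _ := by ring
    rw [e1, show (2 : ℤ) ^ (j + 3) = 2 * 2 ^ (j + 2) by ring] at hdvd
    have e2 := (mul_dvd_mul_iff_left (two_ne_zero)).1 hdvd
    have e3 : IsCoprime ((2 : ℤ) ^ (j + 2)) (2 * (w ^ 2 + w) + 1) := by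
      apply IsCoprime.pow_left
      exact ⟨-(w ^ 2 + w), 1, by ring⟩
    exact e3.dvd_of_dvd_mul_right e2
  -- split
  rcases Int.emod_two_eq_zero_or_one w with hw2 | hw2
  · -- m ≡ 1 mod 4 : m + 1 = 2 odd
    have e1 : m ^ 2 - 1 = 2 * ((m - 1) * (w + 1)) := by rw [hw]; ring
    rw [e1, show (2 : ℤ) ^ (j + 2) = 2 * 2 ^ (j + 1) by ring] at h1
    have e2 := (mul_dvd_mul_iff_left (two_ne_zero)).1 h1
    obtain ⟨v, hv⟩ : ∃ v, w = 2 * v := ⟨w / 2, by omega⟩
    have e3 : IsCoprime ((2 : ℤ) ^ (j + 1)) (w + 1) := by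
      apply IsCoprime.pow_left
      exact ⟨-v, 1, by rw [hv]; ring⟩
    obtain ⟨i, hi⟩ := e3.dvd_of_dvd_mul_right e2
    have hP : (0 : ℤ) < 2 ^ (j + 1) := by positivity
    have hi0 : 0 ≤ i := by
      by_contra hneg
      push Not at hneg
      have : 2 ^ (j + 1) * i ≤ 2 ^ (j + 1) * (-1) := by
        apply mul_le_mul_of_nonneg_left _ hP.le
        omega
      have h2 : (2 : ℤ) ≤ 2 ^ (j + 1) := by
        have : (2 : ℤ) ^ 1 ≤ 2 ^ (j + 1) := pow_le_pow_right₀ (by norm_num) (by omega)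
        simpa using this
      omega
    have hi4 : i < 4 := by
      by_contra hge
      push Not at hge
      have : 2 ^ (j + 1) * 4 ≤ 2 ^ (j + 1) * i := mul_le_mul_of_nonneg_left hge hP.le
      omega
    rw [hSdef, mem_union]
    left
    rw [mem_image]
    refine ⟨i.toNat, ?_, ?_⟩
    · rw [mem_range]; omega
    · rw [Int.toNat_of_nonneg hi0]; omega
  · -- m ≡ 3 mod 4 : m - 1 = 2 odd
    have e1 : m ^ 2 - 1 = 2 * ((m + 1) * w) := by rw [hw]; ring
    rw [e1, show (2 : ℤ) ^ (j + 2) = 2 * 2 ^ (j + 1) by ring] at h1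
    have e2 := (mul_dvd_mul_iff_left (two_ne_zero)).1 h1
    obtain ⟨v, hv⟩ : ∃ v, w = 2 * v + 1 := ⟨w / 2, by omega⟩
    have e3 : IsCoprime ((2 : ℤ) ^ (j + 1)) w := by
      apply IsCoprime.pow_left
      exact ⟨-v, 1, by rw [hv]; ring⟩
    obtain ⟨i, hi⟩ := e3.dvd_of_dvd_mul_right e2
    have hP : (0 : ℤ) < 2 ^ (j + 1) := by positivity
    have hi0 : 1 ≤ i := by
      by_contra hneg
      push Not at hneg
      have : 2 ^ (j + 1) * i ≤ 2 ^ (j + 1) * 0 := by
        apply mul_le_mul_of_nonneg_left _ hP.le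
        omega
      omega
    have hi4 : i ≤ 4 := by
      by_contra hge
      push Not at hge
      have : 2 ^ (j + 1) * 5 ≤ 2 ^ (j + 1) * i := mul_le_mul_of_nonneg_left (by omega) hP.le
      omega
    rw [hSdef, mem_union]
    right
    rw [mem_image]
    refine ⟨(i - 1).toNat, ?_, ?_⟩
    · rw [mem_range]; omega
    · rw [Int.toNat_of_nonneg (by omega), sub_add_cancel]; omega

lemma r4_odd_pow (p : ℕ) (hp : p.Prime) (hp2 : p ≠ 2) (k : ℕ) (hk : k ≠ 0) : r4 (p ^ k) ≤ 8 := by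
  classical
  have : Fact p.Prime := ⟨hp⟩
  set S : Finset ℤ := (Ico (0 : ℤ) (p ^ k : ℕ)).filter
    (fun m => ((p ^ k : ℕ) : ℤ) ∣ m ^ 4 - 1) with hSdef
  have hmem : ∀ m, m ∈ S ↔ (0 ≤ m ∧ m < ((p ^ k : ℕ) : ℤ)) ∧ ((p ^ k : ℕ) : ℤ) ∣ m ^ 4 - 1 := by
    intro m
    rw [hSdef, mem_filter, mem_Ico]
  refine le_trans (r4_le_of_int _ (pow_ne_zero _ hp.ne_zero) S
    (fun m h0 h1 h2 => (hmem m).2 ⟨⟨h0, h1⟩, h2⟩)) ?_
  have hmaps : ∀ m ∈ S, ((m : ℤ) : ZMod p) ∈ (Polynomial.nthRoots 4 (1 : ZMod p)).toFinset := by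
    intro m hm
    have h2 := ((hmem m).1 hm).2
    rw [Multiset.mem_toFinset, Polynomial.mem_nthRoots (by norm_num)]
    have h3 : (p : ℤ) ∣ m ^ 4 - 1 := by
      refine dvd_trans ?_ h2
      push_cast
      exact dvd_pow_self _ hk
    have h4 := (ZMod.intCast_zmod_eq_zero_iff_dvd (m ^ 4 - 1) p).2 h3
    push_cast at h4
    exact sub_eq_zero.1 h4
  have hinj : Set.InjOn (fun m : ℤ => ((m : ℤ) : ZMod p)) S := by
    intro m hm m' hm' hmm
    rw [mem_coe, hmem] at hm hm'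
    simp only at hmm
    have hp0 : (p : ℤ) ∣ m' - m := (ZMod.intCast_eq_intCast_iff_dvd_sub m m' p).1 hmm
    have h1 : (p : ℤ) ∣ m ^ 4 - 1 := by
      refine dvd_trans ?_ hm.2
      push_cast
      exact dvd_pow_self _ hk
    have hpz : Prime (p : ℤ) := Nat.prime_iff_prime_int.1 hp
    have hnm : ¬ (p : ℤ) ∣ m := by
      intro h
      have h2 : (p : ℤ) ∣ m ^ 4 := dvd_pow h (by norm_num)
      have h3 := (dvd_sub_right h2).1 h1
      exact hpz.not_isUnit (isUnit_of_dvd_one h3)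
    have hn4 : ¬ (p : ℤ) ∣ 4 := by
      intro h
      have h2 : p ∣ 4 := by exact_mod_cast h
      have h3 : p ∣ 2 := by
        have : (4 : ℕ) = 2 ^ 2 := by norm_num
        rw [this] at h2
        exact hp.dvd_of_dvd_pow h2
      exact hp2 ((Nat.prime_dvd_prime_iff_eq hp Nat.prime_two).1 h3)
    have hdv : ((p ^ k : ℕ) : ℤ) ∣ (m' - m) * (m' ^ 3 + m' ^ 2 * m + m' * m ^ 2 + m ^ 3) := by
      have := dvd_sub hm'.2 hm.2
      have e : m' ^ 4 - 1 - (m ^ 4 - 1) =
        (m' - m) * (m' ^ 3 + m' ^ 2 * m + m' * m ^ 2 + m ^ 3) := by ring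
      rwa [e] at this
    have hcop : IsCoprime (((p ^ k : ℕ) : ℤ)) (m' ^ 3 + m' ^ 2 * m + m' * m ^ 2 + m ^ 3) := by
      push_cast
      apply IsCoprime.pow_left
      rw [Prime.coprime_iff_not_dvd hpz]
      intro h
      obtain ⟨s, hs⟩ := hp0
      have e1 : m' = m + p * s := by linarith
      have e2 : m' ^ 3 + m' ^ 2 * m + m' * m ^ 2 + m ^ 3 = 4 * m ^ 3 +
        p * (s * (6 * m ^ 2 + 4 * m * (p * s) + (p * s) ^ 2)) := by
        rw [e1]; ring
      rw [e2] at h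
      have e3 := (dvd_add_left (dvd_mul_right _ _)).1 h
      rcases hpz.dvd_or_dvd e3 with h4 | h4
      · exact hn4 h4
      · exact hnm (hpz.dvd_of_dvd_pow h4)
    obtain ⟨s, hs⟩ := hcop.dvd_of_dvd_mul_right hdv
    have hP : (0 : ℤ) < ((p ^ k : ℕ) : ℤ) := by
      have := hp.pos
      positivity
    have hs0 : s = 0 := by
      by_contra hne
      rcases lt_or_gt_of_ne hne with h | h
      · have : ((p ^ k : ℕ) : ℤ) * s ≤ ((p ^ k : ℕ) : ℤ) * (-1) :=
          mul_le_mul_of_nonneg_left (by omega) hP.le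
        omega
      · have : ((p ^ k : ℕ) : ℤ) * 1 ≤ ((p ^ k : ℕ) : ℤ) * s :=
          mul_le_mul_of_nonneg_left (by omega) hP.le
        omega
    rw [hs0] at hs
    omega
  calc S.card ≤ ((Polynomial.nthRoots 4 (1 : ZMod p)).toFinset).card :=
        card_le_card_of_injOn _ hmaps hinj
    _ ≤ Multiset.card (Polynomial.nthRoots 4 (1 : ZMod p)) := Multiset.toFinset_card_le _
    _ ≤ 4 := Polynomial.card_nthRoots 4 1
    _ ≤ 8 := by norm_num

lemma r4_le_self (n : ℕ) (hn : n ≠ 0) : r4 n ≤ n := by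
  refine le_trans (r4_le_of_int n hn (Ico (0 : ℤ) n) (fun m h0 h1 _ => mem_Ico.2 ⟨h0, h1⟩)) ?_
  rw [Int.card_Ico]
  simp

lemma r4_prime_pow (p k : ℕ) (hp : p.Prime) (hk : k ≠ 0) : r4 (p ^ k) ≤ 8 := by
  by_cases hp2 : p = 2
  · subst hp2
    by_cases hk3 : k < 3
    · have h1 := r4_le_self (2 ^ k) (by positivity)
      have h2 : 2 ^ k ≤ 2 ^ 3 := Nat.pow_le_pow_right (by norm_num) (by omega)
      omega
    · obtain ⟨j, rfl⟩ : ∃ j, k = j + 3 := ⟨k - 3, by omega⟩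
      exact r4_two_pow j
  · exact r4_odd_pow p hp hp2 k hk

/-- The number of fourth roots of unity modulo `n` is at most `τ(n) ^ 3`. -/
theorem r4_le (n : ℕ) (hn : n ≠ 0) : r4 n ≤ n.divisors.card ^ 3 := by
  induction n using Nat.recOnPosPrimePosCoprime with
  | prime_pow p k hp hk =>
    have h1 := r4_prime_pow p k hp (by omega)
    have h2 : (p ^ k).divisors.card = k + 1 := by
      rw [Nat.divisors_prime_pow hp, card_map, card_range]
    rw [h2]
    have h3 : 2 ^ 3 ≤ (k + 1) ^ 3 := Nat.pow_le_pow_left (by omega) 3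
    omega
  | zero => exact absurd rfl hn
  | one =>
    have := r4_le_self 1 (by norm_num)
    simpa using this
  | coprime a b ha hb hab iha ihb =>
    rw [r4_mul a b hab, hab.card_divisors_mul, mul_pow]
    exact Nat.mul_le_mul (iha (by omega)) (ihb (by omega))

end Pool.Agent.Helper15.Hall
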