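import Mathlib
import Pool.Agent.Helper15.HallDatum2
import Pool.Agent.Helper15.HallRoots

set_option autoImplicit false

namespace Pool.Agent.Helper15.Hall2

open Finset
open Pool.Agent.Helper15.Hall (Bz kz Gz r4)

lemma tier_bound (F : Finset ℤ) (kf : ℤ → ℤ) (a : ℤ) (ha : 0 < a) (N : ℕ) (H : ℤ) (hH : 0 ≤ H)
    (h0 : ∀ x ∈ F, 0 ≤ kf x) (h1 : ∀ x ∈ F, 4 * kf x ≤ H)
    (hc : ∀ x ∈ F, ∀ x' ∈ F, a ^ 2 ∣ 4 * (kf x - kf x'))
    (hN : ∀ k ∈ F.image kf, (F.filter (fun x => kf x = k)).card ≤ N) :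
    (F.card : ℤ) ≤ N * (H / a ^ 2 + 1) := by
  have e1 : F.card ≤ N * (F.image kf).card := card_le_mul_card_image _ _ hN
  have e2 := Hall.card_le_of_modEq' (a ^ 2) (by positivity) 4 (by norm_num) H hH (F.image kf)
    (by
      intro z hz
      rw [mem_image] at hz
      obtain ⟨x, hx, rfl⟩ := hz
      exact h0 x hx)
    (by
      intro z hz
      rw [mem_image] at hz
      obtain ⟨x, hx, rfl⟩ := hz
      exact h1 x hx)
    (by
      intro z hz w hw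
      rw [mem_image] at hz hw
      obtain ⟨x, hx, rfl⟩ := hz
      obtain ⟨x', hx', rfl⟩ := hw
      exact hc x hx x' hx')
  have e3 : (F.card : ℤ) ≤ N * ((F.image kf).card : ℕ) := by exact_mod_cast e1
  refine le_trans e3 ?_
  exact mul_le_mul_of_nonneg_left e2 (by positivity)

/-- Tier parameters. -/
structure Tiers (R Q D : ℤ) (W : ℝ) (L1 L2 L3 M1 M2 : ℕ) : Prop where
  hL1 : 1 ≤ L1
  hL2 : 1 ≤ L2
  hL3 : 1 ≤ L3
  p4 : 1300000 * W ^ 2 ≤ R * Q * (L1 : ℝ) ^ 3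
  p7 : 450000 * ((Q : ℝ) ^ 3 * (D : ℝ) ^ 2) ≤ (R : ℝ) ^ 3 * (L1 : ℝ) ^ 3
  p81 : 1024 * (D : ℝ) ^ 2 ≤ (M1 : ℝ) ^ 2 * ((R : ℝ) ^ 2 * (L1 : ℝ) ^ 3)
  p82 : 1024 * (D : ℝ) ^ 2 ≤ (M2 : ℝ) ^ 2 * ((R : ℝ) ^ 2 * (L2 : ℝ) ^ 3)
  p83 : 1024 * (D : ℝ) ^ 2 ≤ (1 : ℝ) ^ 2 * ((R : ℝ) ^ 2 * (L3 : ℝ) ^ 3)

/-- The bound for the number of members of a fibre over `(a, A mod a, G)`, divided by `T`. -/
def V (R Q : ℤ) (L1 L2 L3 M1 M2 M0 : ℕ) (a : ℤ) : ℤ :=
  (4 * M0 + 1) * (4 * L1 + 1) + (4 * M1 + 1) * (4 * L2 + 1) + (4 * M2 + 1) * (4 * L3 + 1) +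
    5 * ((120 * (a * R) / Q ^ 2) / a ^ 2 + 1)

lemma V_nonneg (R Q : ℤ) (L1 L2 L3 M1 M2 M0 : ℕ) (a : ℤ) (hR : 0 ≤ R) (ha : 0 ≤ a) :
    0 ≤ V R Q L1 L2 L3 M1 M2 M0 a := by
  unfold V
  positivity

/-- Fibre over fixed `a`, `b = A mod a` and `G`. -/
theorem card_fixed_abG (R Q D : ℤ) (W : ℝ) (L1 L2 L3 M1 M2 M0 : ℕ)
    (hT : Tiers R Q D W L1 L2 L3 M1 M2) (a G : ℤ) (T : ℕ) (F : Finset ℤ) (Y Af : ℤ → ℤ)
    (hR0 : 0 ≤ R) (ha0 : 0 ≤ a)
    (hM0 : 44 * R ≤ (M0 : ℤ) ^ 2 * a ^ 3)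
    (hD : ∀ x ∈ F, Datum R Q D W x (Y x) a (Af x))
    (hk0 : ∀ x ∈ F, kz x (Y x) a (Af x) ≠ 0)
    (hb : ∀ x ∈ F, ∀ x' ∈ F, a ∣ Af x - Af x')
    (hG : ∀ x ∈ F, Gz x (Y x) a (Af x) = G)
    (hdiv : ∀ n : ℕ, n ≠ 0 → (n : ℤ) ≤ 30 * R → n.divisors.card ≤ T) :
    (F.card : ℤ) ≤ T * V R Q L1 L2 L3 M1 M2 M0 a := by
  rcases F.eq_empty_or_nonempty with rfl | ⟨x₀, hx₀⟩
  · simp only [card_empty, Nat.cast_zero]
    exact mul_nonneg (by positivity) (V_nonneg R Q L1 L2 L3 M1 M2 M0 a hR0 ha0)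
  have hD0 := hD x₀ hx₀
  have ha1 := hD0.ha1
  have haQ := hD0.haQ
  have hRpos := hD0.R_pos
  have hapos : 0 < a := by omega
  have hQ2 : 2 ≤ Q := by
    have := hD0.par.hQ
    exact_mod_cast this
  have ha2 : (0 : ℤ) < a ^ 2 := by positivity
  set kf : ℤ → ℤ := fun x => kz x (Y x) a (Af x) with hkf
  have hcong : ∀ x ∈ F, ∀ x' ∈ F, a ^ 2 ∣ 4 * (kf x - kf x') := by
    intro x hx x' hx'
    apply Hall.k_dvd (hD x' hx').hco (hb x hx x' hx')
    rw [hG x hx, hG x' hx']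
  have hTk : ∀ x ∈ F, (kf x).toNat.divisors.card ≤ T := by
    intro x hx
    have h1 := (hD x hx).k_nonneg
    have h1' := hk0 x hx
    have h2 := (hD x hx).k_le
    have h3 : kf x = kz x (Y x) a (Af x) := rfl
    rw [← h3] at h1 h1' h2
    apply hdiv
    · omega
    · rw [Int.toNat_of_nonneg (by omega)]
      have h4 : kf x * Q ^ 2 ≤ 30 * R * Q ^ 2 := by
        refine le_trans h2 ?_
        have e1 : a ≤ Q ^ 2 := by nlinarith
        have e2 : a * R ≤ Q ^ 2 * R := mul_le_mul_of_nonneg_right e1 hRpos.le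
        linarith
      exact le_of_mul_le_mul_right h4 (by positivity)
  -- generic fibre bound
  have hfib : ∀ (F' : Finset ℤ) (M : ℕ), F' ⊆ F →
      (∀ x ∈ F', ∀ x' ∈ F', kf x = kf x' → ∀ e : ℤ,
        Bz x' a (Af x') - Bz x a (Af x) = a ^ 2 * e → e ^ 2 ≤ (M : ℤ) ^ 2 * kf x) →
      ∀ k ∈ F'.image kf, (F'.filter (fun x => kf x = k)).card ≤ (4 * M + 1) * T := by
    intro F' M hsub hM k hk
    rw [mem_image] at hk
    obtain ⟨x₁, hx₁, hkx₁⟩ := hk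
    have hx₁F : x₁ ∈ F := hsub hx₁
    refine le_trans (fam_card R Q D W a G k M _ Y Af ?_ ?_ ?_ ?_ ?_) ?_
    · intro x hx
      exact hD x (hsub (mem_filter.1 hx).1)
    · rw [← hkx₁]
      exact hk0 x₁ hx₁F
    · intro x hx
      exact (mem_filter.1 hx).2
    · intro x hx
      exact hG x (hsub (mem_filter.1 hx).1)
    · intro x hx x' hx' e he
      have hxk := (mem_filter.1 hx).2
      have hxk' := (mem_filter.1 hx').2
      have := hM x (mem_filter.1 hx).1 x' (mem_filter.1 hx').1 (by rw [hxk, hxk']) e he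
      rwa [hxk] at this
    · apply Nat.mul_le_mul_left
      rw [← hkx₁]
      exact hTk x₁ hx₁F
  -- splitting
  set F0 := F.filter (fun x => kf x < L1 * a ^ 2) with hF0
  set F' := F.filter (fun x => ¬ kf x < L1 * a ^ 2) with hF'
  set F1 := F'.filter (fun x => kf x < L2 * a ^ 2) with hF1
  set F'' := F'.filter (fun x => ¬ kf x < L2 * a ^ 2) with hF''
  set F2 := F''.filter (fun x => kf x < L3 * a ^ 2) with hF2
  set F3 := F''.filter (fun x => ¬ kf x < L3 * a ^ 2) with hF3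
  have hs1 : F.card = F0.card + F'.card := by
    rw [hF0, hF', card_filter_add_card_filter_not]
  have hs2 : F'.card = F1.card + F''.card := by
    rw [hF1, hF'', card_filter_add_card_filter_not]
  have hs3 : F''.card = F2.card + F3.card := by
    rw [hF2, hF3, card_filter_add_card_filter_not]
  have hF'F : F' ⊆ F := filter_subset _ _
  have hF''F : F'' ⊆ F := (filter_subset _ _).trans hF'F
  have hF0F : F0 ⊆ F := filter_subset _ _
  have hF1F : F1 ⊆ F := (filter_subset _ _).trans hF'F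
  have hF2F : F2 ⊆ F := (filter_subset _ _).trans hF''F
  have hF3F : F3 ⊆ F := (filter_subset _ _).trans hF''F
  have hbigL1 : ∀ x ∈ F', (L1 : ℤ) * a ^ 2 ≤ kf x := fun x hx => not_lt.1 (mem_filter.1 hx).2
  have hbigL2 : ∀ x ∈ F'', (L2 : ℤ) * a ^ 2 ≤ kf x := fun x hx => not_lt.1 (mem_filter.1 hx).2
  have hbigL3 : ∀ x ∈ F3, (L3 : ℤ) * a ^ 2 ≤ kf x := fun x hx => not_lt.1 (mem_filter.1 hx).2
  have hkfn : ∀ x ∈ F, 0 ≤ kf x := fun x hx => (hD x hx).k_nonneg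
  have hL1 := hT.hL1
  have hL2 := hT.hL2
  have hL3 := hT.hL3
  have hlarge : ∀ (F' : Finset ℤ) (L' M : ℕ), F' ⊆ F → 1 ≤ L' →
      (∀ x ∈ F', (L1 : ℤ) * a ^ 2 ≤ kf x) → (∀ x ∈ F', (L' : ℤ) * a ^ 2 ≤ kf x) →
      (1024 * (D : ℝ) ^ 2 ≤ (M : ℝ) ^ 2 * ((R : ℝ) ^ 2 * (L' : ℝ) ^ 3)) →
      (∀ x ∈ F', ∀ x' ∈ F', kf x = kf x' → ∀ e : ℤ,
        Bz x' a (Af x') - Bz x a (Af x) = a ^ 2 * e → e ^ 2 ≤ (M : ℤ) ^ 2 * kf x) := by
    intro F' L' M hsub hL' hb1 hb2 hp8 x hx x' hx' hkk e he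
    exact e_large (hD x (hsub hx)) (hD x' (hsub hx')) (hk0 x (hsub hx)) hkk
      (by rw [hG x (hsub hx), hG x' (hsub hx')]) (L1 : ℤ) (L' : ℤ) (M : ℤ)
      (by exact_mod_cast hL1) (by exact_mod_cast hL') (hb1 x hx) (hb2 x hx)
      (by exact_mod_cast hT.p4) (by exact_mod_cast hT.p7) (by exact_mod_cast hp8) e he
  -- tier 0
  have t0 := tier_bound F0 kf a hapos ((4 * M0 + 1) * T) (4 * L1 * a ^ 2) (by positivity)
    (fun x hx => hkfn x (hF0F hx))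
    (fun x hx => by
      have := (mem_filter.1 hx).2
      linarith)
    (fun x hx x' hx' => hcong x (hF0F hx) x' (hF0F hx'))
    (hfib F0 M0 hF0F (by
      intro x hx x' hx' hkk e he
      exact e_general (hD x (hF0F hx)) (hD x' (hF0F hx')) (hk0 x (hF0F hx)) hkk (M0 : ℤ)
        hM0 e he))
  rw [Int.mul_ediv_cancel _ ha2.ne'] at t0
  -- tier 1
  have t1 := tier_bound F1 kf a hapos ((4 * M1 + 1) * T) (4 * L2 * a ^ 2) (by positivity)
    (fun x hx => hkfn x (hF1F hx))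
    (fun x hx => by
      have := (mem_filter.1 hx).2
      linarith)
    (fun x hx x' hx' => hcong x (hF1F hx) x' (hF1F hx'))
    (hfib F1 M1 hF1F (hlarge F1 L1 M1 hF1F hL1 (fun x hx => hbigL1 x (mem_filter.1 hx).1)
      (fun x hx => hbigL1 x (mem_filter.1 hx).1) hT.p81))
  rw [Int.mul_ediv_cancel _ ha2.ne'] at t1
  -- tier 2
  have t2 := tier_bound F2 kf a hapos ((4 * M2 + 1) * T) (4 * L3 * a ^ 2) (by positivity)
    (fun x hx => hkfn x (hF2F hx))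
    (fun x hx => by
      have := (mem_filter.1 hx).2
      linarith)
    (fun x hx x' hx' => hcong x (hF2F hx) x' (hF2F hx'))
    (hfib F2 M2 hF2F (hlarge F2 L2 M2 hF2F hL2
      (fun x hx => hbigL1 x (mem_filter.1 (mem_filter.1 hx).1).1)
      (fun x hx => hbigL2 x (mem_filter.1 hx).1) hT.p82))
  rw [Int.mul_ediv_cancel _ ha2.ne'] at t2
  -- tier 3
  have t3 := tier_bound F3 kf a hapos ((4 * 1 + 1) * T) (120 * (a * R) / Q ^ 2) (by positivity)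
    (fun x hx => hkfn x (hF3F hx))
    (fun x hx => by
      have h1 := (hD x (hF3F hx)).k_le
      rw [Int.le_ediv_iff_mul_le (by positivity)]
      have h3 : kf x = kz x (Y x) a (Af x) := rfl
      rw [← h3] at h1
      linarith)
    (fun x hx x' hx' => hcong x (hF3F hx) x' (hF3F hx'))
    (hfib F3 1 hF3F (hlarge F3 L3 1 hF3F hL3
      (fun x hx => hbigL1 x (mem_filter.1 (mem_filter.1 hx).1).1)
      (fun x hx => hbigL3 x hx) (by
        have := hT.p83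
        push_cast
        exact this)))
  have hsum : (F.card : ℤ) = F0.card + F1.card + F2.card + F3.card := by
    rw [hs1, hs2, hs3]; push_cast; ring
  rw [hsum]
  push_cast at t0 t1 t2 t3
  unfold V
  calc (F0.card : ℤ) + F1.card + F2.card + F3.card
      ≤ (4 * M0 + 1) * T * (4 * L1 + 1) + (4 * M1 + 1) * T * (4 * L2 + 1) +
        (4 * M2 + 1) * T * (4 * L3 + 1) +
        (4 * 1 + 1) * T * (120 * (a * R) / Q ^ 2 / a ^ 2 + 1) := by linarith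
    _ = _ := by ring

/-- Fibre over fixed `a` and `G`. -/
theorem card_fixed_aG (R Q D : ℤ) (W : ℝ) (L1 L2 L3 M1 M2 M0 : ℕ)
    (hT : Tiers R Q D W L1 L2 L3 M1 M2) (a : ℕ) (ha : a ≠ 0) (G : ℤ) (T : ℕ)
    (F : Finset ℤ) (Y Af : ℤ → ℤ)
    (hR0 : 0 ≤ R)
    (hM0 : 44 * R ≤ (M0 : ℤ) ^ 2 * (a : ℤ) ^ 3)
    (hD : ∀ x ∈ F, Datum R Q D W x (Y x) a (Af x))
    (hk0 : ∀ x ∈ F, kz x (Y x) a (Af x) ≠ 0)
    (hG : ∀ x ∈ F, Gz x (Y x) a (Af x) = G)
    (hdiv : ∀ n : ℕ, n ≠ 0 → (n : ℤ) ≤ 30 * R → n.divisors.card ≤ T) :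
    (F.card : ℤ) ≤ T * V R Q L1 L2 L3 M1 M2 M0 a * r4 a := by
  have hV := V_nonneg R Q L1 L2 L3 M1 M2 M0 a hR0 (by positivity)
  set Vn : ℕ := (T * V R Q L1 L2 L3 M1 M2 M0 a).toNat with hVn
  have hVnz : (Vn : ℤ) = T * V R Q L1 L2 L3 M1 M2 M0 a :=
    Int.toNat_of_nonneg (mul_nonneg (by positivity) hV)
  have hne : NeZero a := ⟨ha⟩
  have h1 : F.card ≤ Vn * (F.image (fun x => ((Af x : ℤ) : ZMod a))).card := by
    apply card_le_mul_card_image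
    intro b _
    have h2 := card_fixed_abG R Q D W L1 L2 L3 M1 M2 M0 hT a G T
      (F.filter (fun x => ((Af x : ℤ) : ZMod a) = b)) Y Af hR0 (by positivity) hM0
      (fun x hx => hD x (mem_filter.1 hx).1) (fun x hx => hk0 x (mem_filter.1 hx).1)
      (by
        intro x hx x' hx'
        have e1 := (mem_filter.1 hx).2
        have e2 := (mem_filter.1 hx').2
        rw [← ZMod.intCast_zmod_eq_zero_iff_dvd]
        push_cast
        rw [e1, e2, sub_self])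
      (fun x hx => hG x (mem_filter.1 hx).1) hdiv
    rw [← hVnz] at h2
    exact_mod_cast h2
  have h3 : (F.image (fun x => ((Af x : ℤ) : ZMod a))).card ≤ r4 a := by
    rcases F.eq_empty_or_nonempty with rfl | ⟨x₀, hx₀⟩
    · simp
    have hunit : ∀ x ∈ F, IsUnit ((Af x : ℤ) : ZMod a) := by
      intro x hx
      have hc := (hD x hx).hco
      obtain ⟨u, v, huv⟩ := hc
      have h4 : ((u : ℤ) : ZMod a) * ((Af x : ℤ) : ZMod a) = 1 := by
        have := congrArg (fun z : ℤ => (z : ZMod a)) huv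
        push_cast at this
        rw [ZMod.natCast_self, mul_zero, add_zero] at this
        exact this
      exact IsUnit.of_mul_eq_one _ (by rw [mul_comm]; exact h4)
    have hpow : ∀ x ∈ F, ((Af x : ℤ) : ZMod a) ^ 4 = -((G : ℤ) : ZMod a) := by
      intro x hx
      have h4 := Hall.G_cong x (Y x) a (Af x)
      rw [hG x hx] at h4
      have h5 := congrArg (fun z : ℤ => (z : ZMod a)) h4
      push_cast at h5
      rw [ZMod.natCast_self] at h5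
      rw [h5]
      ring
    obtain ⟨u₀, hu₀⟩ := hunit x₀ hx₀
    have hu₀4 : ((u₀ : ZMod a)) ^ 4 = -((G : ℤ) : ZMod a) := by
      rw [hu₀]; exact hpow x₀ hx₀
    have hmem : ∀ b ∈ F.image (fun x => ((Af x : ℤ) : ZMod a)),
        (b * ((u₀⁻¹ : (ZMod a)ˣ) : ZMod a)) ^ 4 = 1 := by
      intro b hb
      rw [mem_image] at hb
      obtain ⟨x, hx, rfl⟩ := hb
      rw [mul_pow, hpow x hx, ← hu₀4, ← mul_pow, Units.mul_inv, one_pow]
    unfold r4
    have hinj : Function.Injective (fun b : F.image (fun x => ((Af x : ℤ) : ZMod a)) =>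
        (⟨b.1 * ((u₀⁻¹ : (ZMod a)ˣ) : ZMod a), hmem b.1 b.2⟩ : {u : ZMod a // u ^ 4 = 1})) := by
      intro b b' hbb
      simp only [Subtype.mk.injEq] at hbb
      apply Subtype.ext
      exact (Units.mul_left_inj _).1 hbb
    have h5 := Nat.card_le_card_of_injective _ hinj
    have h6 : Nat.card (F.image (fun x => ((Af x : ℤ) : ZMod a))) =
        (F.image (fun x => ((Af x : ℤ) : ZMod a))).card := by
      rw [Nat.card_eq_fintype_card, Fintype.card_coe]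
    rw [h6] at h5
    exact h5
  have h4 : F.card ≤ Vn * r4 a := le_trans h1 (Nat.mul_le_mul_left _ h3)
  have h5 : (F.card : ℤ) ≤ (Vn : ℤ) * (r4 a : ℤ) := by exact_mod_cast h4
  rwa [hVnz] at h5

/-- Fibre over fixed `a`. -/
theorem card_fixed_a (R Q D : ℤ) (W : ℝ) (L1 L2 L3 M1 M2 M0 : ℕ)
    (hT : Tiers R Q D W L1 L2 L3 M1 M2) (a : ℕ) (ha : a ≠ 0) (T : ℕ)
    (F : Finset ℤ) (Y Af : ℤ → ℤ)
    (hR0 : 0 ≤ R) (hW : 0 ≤ W)
    (hM0 : 44 * R ≤ (M0 : ℤ) ^ 2 * (a : ℤ) ^ 3)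
    (hD : ∀ x ∈ F, Datum R Q D W x (Y x) a (Af x))
    (hk0 : ∀ x ∈ F, kz x (Y x) a (Af x) ≠ 0)
    (hdiv : ∀ n : ℕ, n ≠ 0 → (n : ℤ) ≤ 30 * R → n.divisors.card ≤ T) :
    (F.card : ℝ) ≤ T * (V R Q L1 L2 L3 M1 M2 M0 a : ℝ) * r4 a * (1 + 100 * (a * W)) := by
  have hV := V_nonneg R Q L1 L2 L3 M1 M2 M0 a hR0 (by positivity)
  set Vn : ℕ := (T * V R Q L1 L2 L3 M1 M2 M0 a * r4 a).toNat with hVn
  have hVnz : (Vn : ℤ) = T * V R Q L1 L2 L3 M1 M2 M0 a * r4 a :=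
    Int.toNat_of_nonneg (mul_nonneg (mul_nonneg (by positivity) hV) (by positivity))
  have h1 : F.card ≤ Vn * (F.image (fun x => Gz x (Y x) a (Af x))).card := by
    apply card_le_mul_card_image
    intro G _
    have h2 := card_fixed_aG R Q D W L1 L2 L3 M1 M2 M0 hT a ha G T
      (F.filter (fun x => Gz x (Y x) a (Af x) = G)) Y Af hR0 hM0
      (fun x hx => hD x (mem_filter.1 hx).1) (fun x hx => hk0 x (mem_filter.1 hx).1)
      (fun x hx => (mem_filter.1 hx).2) hdiv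
    rw [← hVnz] at h2
    exact_mod_cast h2
  set g : ℕ := ⌊50 * ((a : ℝ) * W)⌋₊ with hg
  have hg0 : (0 : ℝ) ≤ 50 * ((a : ℝ) * W) := by positivity
  have h3 : (F.image (fun x => Gz x (Y x) a (Af x))).card ≤ (Icc (-(g : ℤ)) g).card := by
    apply card_le_card
    intro G hG
    rw [mem_image] at hG
    obtain ⟨x, hx, rfl⟩ := hG
    have h4 := (hD x hx).G_le
    have h5 : (((Gz x (Y x) a (Af x)).natAbs : ℕ) : ℝ) ≤ 50 * ((a : ℝ) * W) := by
      have e1 : (((Gz x (Y x) a (Af x)).natAbs : ℕ) : ℝ) = |(Gz x (Y x) a (Af x) : ℝ)| := by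
        rw [Nat.cast_natAbs]
        push_cast
        rfl
      rw [e1]
      exact_mod_cast h4
    have h6 := Nat.le_floor h5
    rw [← hg] at h6
    rw [mem_Icc]
    omega
  have h4 : (Icc (-(g : ℤ)) g).card = 2 * g + 1 := by
    rw [Int.card_Icc]
    omega
  have h5 : F.card ≤ Vn * (2 * g + 1) := by
    rw [h4] at h3
    exact le_trans h1 (Nat.mul_le_mul_left _ h3)
  have h6 : (F.card : ℝ) ≤ (Vn : ℝ) * (2 * g + 1) := by exact_mod_cast h5
  have h7 : (Vn : ℝ) = T * (V R Q L1 L2 L3 M1 M2 M0 a : ℝ) * r4 a := by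
    have := congrArg (fun z : ℤ => (z : ℝ)) hVnz
    push_cast at this
    exact this
  rw [h7] at h6
  refine le_trans h6 ?_
  have h8 : (g : ℝ) ≤ 50 * ((a : ℝ) * W) := Nat.floor_le hg0
  apply mul_le_mul_of_nonneg_left (by linarith)
  have : (0 : ℝ) ≤ (V R Q L1 L2 L3 M1 M2 M0 a : ℝ) := by exact_mod_cast hV
  positivity

end Pool.Agent.Helper15.Hall2
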