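import Mathlib
import Pool.Agent.Helper15.HallSum2
import Pool.Agent.Helper15.HallDiv

set_option autoImplicit false

namespace Pool.Agent.Helper15.Hall2

open Finset
open Pool.Agent.Helper15.Hall (Bz kz Gz r4)

/-- `x` is `D`-exceptional: some `y` has `0 < |x³ - y²| ≤ D`. -/
def Exc (D x : ℤ) : Prop := ∃ y : ℤ, x ^ 3 - y ^ 2 ≠ 0 ∧ |x ^ 3 - y ^ 2| ≤ D

lemma exists_datum {R Q D : ℤ} {W : ℝ} {x : ℤ} (hP : Par (R : ℝ) Q D W)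
    (hx1 : R ^ 2 ≤ x) (hx2 : x ≤ 64 * R ^ 2) (h : Exc D x) :
    ∃ y a A : ℤ, Datum R Q D W x y a A := by
  obtain ⟨y, hd0, hd⟩ := h
  have hRp : (0 : ℤ) < R := by
    have := hP.R_pos
    exact_mod_cast this
  have hR5 : (100000 : ℤ) ≤ R := by
    have := hP.hR
    exact_mod_cast this
  have hQ2 : (2 : ℤ) ≤ Q := by
    have := hP.hQ
    exact_mod_cast this
  have hxpos : 0 < x := by
    have : 0 < R ^ 2 := by positivity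
    omega
  have hDR : (D : ℝ) ≤ (R : ℝ) ^ 3 := by
    have h1 := hP.p2
    have h2 := hP.p3
    have hQ := hP.hQ
    have hR := hP.R_pos
    have hD := hP.hD
    have h3 : (2 : ℝ) ^ 3 ≤ (Q : ℝ) ^ 3 := pow_le_pow_left₀ (by norm_num) hQ 3
    have h4 : 8 * (D : ℝ) ≤ (Q : ℝ) ^ 3 * D := by nlinarith
    have h5 : W * (R : ℝ) ^ 2 ≤ R * (R : ℝ) ^ 2 := by
      apply mul_le_mul_of_nonneg_right _ (by positivity)
      linarith [hP.hW]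
    nlinarith
  have hy0 : y ≠ 0 := by
    rintro rfl
    have h1 : x ^ 3 ≤ D := by
      have := le_abs_self (x ^ 3 - 0 ^ 2)
      have e : x ^ 3 - 0 ^ 2 = x ^ 3 := by ring
      rw [e] at this hd
      linarith
    have h2 : (D : ℤ) ≤ R ^ 3 := by exact_mod_cast hDR
    have h3 : (R ^ 2) ^ 3 ≤ x ^ 3 := pow_le_pow_left₀ (by positivity) hx1 3
    have h4 : R ^ 3 * 2 ≤ (R ^ 2) ^ 3 := by
      calc R ^ 3 * 2 ≤ R ^ 3 * R ^ 3 := by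
            apply mul_le_mul_of_nonneg_left _ (by positivity)
            nlinarith [sq_nonneg R, sq_nonneg (R - 2)]
        _ = (R ^ 2) ^ 3 := by ring
    have h5 : 0 < R ^ 3 := by positivity
    omega
  have hQn : (0 : ℕ) < Q.toNat := by omega
  have hQz : ((Q.toNat : ℕ) : ℤ) = Q := Int.toNat_of_nonneg (by omega)
  have hQr : ((Q.toNat : ℕ) : ℝ) = (Q : ℝ) := by exact_mod_cast congrArg (Int.cast : ℤ → ℝ) hQz
  obtain ⟨r, hr1, hr2⟩ := Real.exists_rat_abs_sub_le_and_den_le (√(x : ℝ)) hQn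
  refine ⟨|y|, r.den, r.num, ⟨hP, hx1, hx2, ?_, ?_, ?_, ?_, ?_, ?_, ?_⟩⟩
  · have := abs_pos.2 hy0
    omega
  · rwa [sq_abs]
  · rwa [sq_abs]
  · have := r.den_pos
    omega
  · rw [← hQz]
    exact_mod_cast hr2
  · rw [Int.isCoprime_iff_gcd_eq_one]
    exact r.reduced
  · have hden : (0 : ℝ) < r.den := by exact_mod_cast r.den_pos
    have h1 : (((r.den : ℤ) : ℝ)) * √(x : ℝ) - (r.num : ℝ) = r.den * (√(x : ℝ) - r) := by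
      have h2 : (r : ℝ) = r.num / r.den := Rat.cast_def r
      rw [h2]
      push_cast
      field_simp
    rw [h1, abs_mul, abs_of_pos hden]
    rw [hQr] at hr1
    have hQ0 : (0 : ℝ) < Q := by
      have : (0 : ℤ) < Q := by omega
      exact_mod_cast this
    calc (r.den : ℝ) * |√(x : ℝ) - r| * Q ≤ (r.den : ℝ) * (1 / ((Q + 1) * r.den)) * Q := by
          gcongr
      _ = Q / (Q + 1) := by field_simp
      _ ≤ 1 := by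
        rw [div_le_one (by linarith)]
        linarith

open Classical in
/-- exceptional `x` in `[R², 64 R²]` -/
noncomputable def block (R D : ℤ) : Finset ℤ := (Icc (R ^ 2) (64 * R ^ 2)).filter (fun x => Exc D x)

lemma mem_block {R D x : ℤ} : x ∈ block R D ↔ (R ^ 2 ≤ x ∧ x ≤ 64 * R ^ 2) ∧ Exc D x := by
  classical
  unfold block
  rw [mem_filter, mem_Icc]

lemma inv_sqrt_sum (Q : ℕ) : ∑ a ∈ Icc (1 : ℕ) Q, (√(a : ℝ))⁻¹ ≤ 2 * √(Q : ℝ) := by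
  induction Q with
  | zero => simp
  | succ n ih =>
    rw [Finset.sum_Icc_succ_top (by omega : 1 ≤ n + 1)]
    have h1 : (√((n + 1 : ℕ) : ℝ))⁻¹ ≤ 2 * √((n + 1 : ℕ) : ℝ) - 2 * √(n : ℝ) := by
      have ha : 0 < √((n + 1 : ℕ) : ℝ) := Real.sqrt_pos.2 (by positivity)
      have hb : 0 ≤ √(n : ℝ) := Real.sqrt_nonneg _
      have ha2 : √((n + 1 : ℕ) : ℝ) ^ 2 = n + 1 := by
        rw [Real.sq_sqrt (by positivity)]; push_cast; ring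
      have hb2 : √(n : ℝ) ^ 2 = n := Real.sq_sqrt (by positivity)
      rw [inv_le_iff_one_le_mul₀ ha]
      nlinarith [sq_nonneg (√((n + 1 : ℕ) : ℝ) - √(n : ℝ))]
    linarith

lemma inv_sum (Q : ℕ) : ∑ a ∈ Icc (1 : ℕ) Q, ((a : ℝ)⁻¹) ≤ 1 + Real.log Q := by
  have h5 := harmonic_le_one_add_log Q
  rw [harmonic_eq_sum_Icc] at h5
  push_cast at h5
  exact h5

lemma id_sum (Q : ℕ) : ∑ a ∈ Icc (1 : ℕ) Q, (a : ℝ) ≤ (Q : ℝ) ^ 2 := by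
  calc ∑ a ∈ Icc (1 : ℕ) Q, (a : ℝ) ≤ ∑ a ∈ Icc (1 : ℕ) Q, (Q : ℝ) := by
        apply sum_le_sum
        intro a ha
        exact_mod_cast (mem_Icc.1 ha).2
    _ = (Q : ℝ) ^ 2 := by
        rw [sum_const, Nat.card_Icc, nsmul_eq_mul, Nat.add_sub_cancel]
        ring

/-- The choice of `M0`. -/
noncomputable def M0 (R a : ℕ) : ℕ := Nat.sqrt (44 * R / a ^ 3) + 1

lemma M0_spec (R a : ℕ) (ha : a ≠ 0) : 44 * (R : ℤ) ≤ (M0 R a : ℤ) ^ 2 * (a : ℤ) ^ 3 := by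
  have h1 : 44 * R < a ^ 3 * (44 * R / a ^ 3 + 1) := by
    have := Nat.lt_mul_div_succ (44 * R) (by positivity : 0 < a ^ 3)
    exact this
  have h2 : 44 * R / a ^ 3 + 1 ≤ (M0 R a) ^ 2 := by
    unfold M0
    have := Nat.lt_succ_sqrt (44 * R / a ^ 3)
    rw [Nat.succ_eq_add_one] at this
    nlinarith
  have h3 : 44 * R ≤ (M0 R a) ^ 2 * a ^ 3 := by
    calc 44 * R ≤ a ^ 3 * (44 * R / a ^ 3 + 1) := h1.le
      _ ≤ a ^ 3 * (M0 R a) ^ 2 := Nat.mul_le_mul_left _ h2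
      _ = _ := by ring
  exact_mod_cast h3

lemma M0_le (R a : ℕ) (ha : 1 ≤ a) :
    (M0 R a : ℝ) ≤ 1 + 7 * (√(R : ℝ) * ((√(a : ℝ))⁻¹ * (a : ℝ)⁻¹)) := by
  have ha0 : (0 : ℝ) < a := by exact_mod_cast ha
  have hsa : 0 < √(a : ℝ) := Real.sqrt_pos.2 ha0
  unfold M0
  push_cast
  have h1 : ((Nat.sqrt (44 * R / a ^ 3) : ℕ) : ℝ) ≤ √(44 * (R : ℝ) / (a : ℝ) ^ 3) := by
    apply Real.le_sqrt_of_sq_le
    have e1 : (Nat.sqrt (44 * R / a ^ 3)) ^ 2 ≤ 44 * R / a ^ 3 := by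
      have := Nat.sqrt_le' (44 * R / a ^ 3)
      exact this
    have e2 : (((Nat.sqrt (44 * R / a ^ 3)) ^ 2 : ℕ) : ℝ) ≤ ((44 * R / a ^ 3 : ℕ) : ℝ) := by
      exact_mod_cast e1
    have e3 : ((44 * R / a ^ 3 : ℕ) : ℝ) ≤ ((44 * R : ℕ) : ℝ) / ((a ^ 3 : ℕ) : ℝ) := Nat.cast_div_le
    push_cast at e2 e3
    linarith
  have h2 : √(44 * (R : ℝ) / (a : ℝ) ^ 3) ≤ 7 * (√(R : ℝ) * ((√(a : ℝ))⁻¹ * (a : ℝ)⁻¹)) := by
    rw [Real.sqrt_le_left (by positivity)]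
    have e1 : (7 * (√(R : ℝ) * ((√(a : ℝ))⁻¹ * (a : ℝ)⁻¹))) ^ 2 =
        49 * (√(R : ℝ) ^ 2 * ((√(a : ℝ) ^ 2)⁻¹ * ((a : ℝ) ^ 2)⁻¹)) := by
      rw [mul_pow, mul_pow, mul_pow, inv_pow, inv_pow]; ring
    rw [e1, Real.sq_sqrt (by positivity), Real.sq_sqrt ha0.le]
    have e2 : 49 * ((R : ℝ) * ((a : ℝ)⁻¹ * ((a : ℝ) ^ 2)⁻¹)) = 49 * (R : ℝ) / (a : ℝ) ^ 3 := by
      field_simp
    rw [e2]
    gcongr
    norm_num
  linarith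

/-- Real bound for `V`. -/
lemma V_le (R Q n a : ℕ) (hQ : 1 ≤ Q) (hn : 1 ≤ n) (ha : 1 ≤ a) :
    (V R Q (154 * n ^ 12) (154 * n ^ 14) (154 * n ^ 16) (n ^ 6) (n ^ 3) (M0 R a) a : ℝ) ≤
      9260 * (n : ℝ) ^ 20 + 17276 * (n : ℝ) ^ 12 * (√(R : ℝ) * ((√(a : ℝ))⁻¹ * (a : ℝ)⁻¹)) +
        600 * ((R : ℝ) / (Q : ℝ) ^ 2 * (a : ℝ)⁻¹) := by
  have ha0 : (0 : ℝ) < a := by exact_mod_cast ha
  have hQ0 : (0 : ℝ) < Q := by exact_mod_cast hQ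
  have hn1 : (1 : ℝ) ≤ n := by exact_mod_cast hn
  unfold V
  push_cast
  set s : ℝ := √(R : ℝ) * ((√(a : ℝ))⁻¹ * (a : ℝ)⁻¹) with hs
  have hs0 : 0 ≤ s := by positivity
  have h1 : ((((120 * ((a : ℤ) * (R : ℤ)) / (Q : ℤ) ^ 2) / (a : ℤ) ^ 2 : ℤ)) : ℝ) ≤
      120 * ((R : ℝ) / (Q : ℝ) ^ 2 * (a : ℝ)⁻¹) := by
    have e1 : (120 * ((a : ℤ) * (R : ℤ)) / (Q : ℤ) ^ 2) / (a : ℤ) ^ 2 * ((Q : ℤ) ^ 2 * (a : ℤ) ^ 2) ≤
        120 * ((a : ℤ) * (R : ℤ)) := by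
      have e2 : (120 * ((a : ℤ) * (R : ℤ)) / (Q : ℤ) ^ 2) / (a : ℤ) ^ 2 * (a : ℤ) ^ 2 ≤
          (120 * ((a : ℤ) * (R : ℤ)) / (Q : ℤ) ^ 2) := Int.ediv_mul_le _ (by positivity)
      have e3 : (120 * ((a : ℤ) * (R : ℤ)) / (Q : ℤ) ^ 2) * (Q : ℤ) ^ 2 ≤
          120 * ((a : ℤ) * (R : ℤ)) := Int.ediv_mul_le _ (by positivity)
      have hQ2 : (0 : ℤ) ≤ (Q : ℤ) ^ 2 := by positivity
      nlinarith
    have e2 : ((((120 * ((a : ℤ) * (R : ℤ)) / (Q : ℤ) ^ 2) / (a : ℤ) ^ 2 : ℤ)) : ℝ) *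
        ((Q : ℝ) ^ 2 * (a : ℝ) ^ 2) ≤ 120 * ((a : ℝ) * (R : ℝ)) := by exact_mod_cast e1
    have e3 : 120 * ((R : ℝ) / (Q : ℝ) ^ 2 * (a : ℝ)⁻¹) =
        120 * ((a : ℝ) * (R : ℝ)) / ((Q : ℝ) ^ 2 * (a : ℝ) ^ 2) := by
      field_simp
    rw [e3, le_div_iff₀ (by positivity)]
    exact e2
  have h2 := M0_le R a ha
  rw [← hs] at h2
  have hn12 : (1 : ℝ) ≤ (n : ℝ) ^ 12 := one_le_pow₀ hn1
  have hn14 : (1 : ℝ) ≤ (n : ℝ) ^ 14 := one_le_pow₀ hn1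
  have hn16 : (1 : ℝ) ≤ (n : ℝ) ^ 16 := one_le_pow₀ hn1
  have hn6 : (1 : ℝ) ≤ (n : ℝ) ^ 6 := one_le_pow₀ hn1
  have hn3 : (1 : ℝ) ≤ (n : ℝ) ^ 3 := one_le_pow₀ hn1
  have hn20 : (n : ℝ) ^ 12 ≤ (n : ℝ) ^ 20 := pow_le_pow_right₀ hn1 (by norm_num)
  have hn1920 : (n : ℝ) ^ 19 ≤ (n : ℝ) ^ 20 := pow_le_pow_right₀ hn1 (by norm_num)
  have hn20' : (1 : ℝ) ≤ (n : ℝ) ^ 20 := one_le_pow₀ hn1
  have t0 : (4 * (M0 R a : ℝ) + 1) * (4 * (154 * (n : ℝ) ^ 12) + 1) ≤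
      (5 + 28 * s) * (617 * (n : ℝ) ^ 12) := by
    apply mul_le_mul (by linarith) (by linarith) (by positivity) (by positivity)
  have t1 : (4 * (n : ℝ) ^ 6 + 1) * (4 * (154 * (n : ℝ) ^ 14) + 1) ≤
      (5 * (n : ℝ) ^ 6) * (617 * (n : ℝ) ^ 14) := by
    apply mul_le_mul (by linarith) (by linarith) (by positivity) (by positivity)
  have t2 : (4 * (n : ℝ) ^ 3 + 1) * (4 * (154 * (n : ℝ) ^ 16) + 1) ≤
      (5 * (n : ℝ) ^ 3) * (617 * (n : ℝ) ^ 16) := by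
    apply mul_le_mul (by linarith) (by linarith) (by positivity) (by positivity)
  have t1' : (5 * (n : ℝ) ^ 6) * (617 * (n : ℝ) ^ 14) = 3085 * (n : ℝ) ^ 20 := by ring
  have t2' : (5 * (n : ℝ) ^ 3) * (617 * (n : ℝ) ^ 16) = 3085 * (n : ℝ) ^ 19 := by ring
  have t0' : (5 + 28 * s) * (617 * (n : ℝ) ^ 12) = 3085 * (n : ℝ) ^ 12 +
      17276 * (n : ℝ) ^ 12 * s := by ring
  rw [t1'] at t1
  rw [t2'] at t2
  rw [t0'] at t0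
  linarith

end Pool.Agent.Helper15.Hall2
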