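import Mathlib
import Pool.Agent.Helper15.HallBlock2

set_option autoImplicit false

namespace Pool.Agent.Helper15.Hall2

open Finset
open Pool.Agent.Helper15.Hall (Bz kz Gz r4)

/-- Sum over `a` of the fibre bounds. -/
lemma sum_main (R Q n : ℕ) (W : ℝ) (hW : 0 ≤ W) (hQ : 1 ≤ Q) (hn : 1 ≤ n) :
    ∑ a ∈ Icc (1 : ℕ) Q, (V R Q (154 * n ^ 12) (154 * n ^ 14) (154 * n ^ 16) (n ^ 6) (n ^ 3)
      (M0 R a) a : ℝ) * (1 + 100 * (a * W)) ≤
    4000000 * (1 + Real.log Q) * ((n : ℝ) ^ 20 * (Q + W * (Q : ℝ) ^ 2) +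
      (n : ℝ) ^ 12 * (√(R : ℝ) * (1 + W * √(Q : ℝ))) + (R : ℝ) / (Q : ℝ) ^ 2 * (1 + W * Q)) := by
  have hQr : (1 : ℝ) ≤ Q := by exact_mod_cast hQ
  have hlog : 0 ≤ Real.log Q := Real.log_nonneg hQr
  have hterm : ∀ a ∈ Icc (1 : ℕ) Q,
      (V R Q (154 * n ^ 12) (154 * n ^ 14) (154 * n ^ 16) (n ^ 6) (n ^ 3)
      (M0 R a) a : ℝ) * (1 + 100 * (a * W)) ≤
      9260 * (n : ℝ) ^ 20 * (1 + 100 * W * a) +
      17276 * (n : ℝ) ^ 12 * √(R : ℝ) * ((a : ℝ)⁻¹ + 100 * W * (√(a : ℝ))⁻¹) +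
      600 * ((R : ℝ) / (Q : ℝ) ^ 2) * ((a : ℝ)⁻¹ + 100 * W) := by
    intro a ha
    have ha1 := (mem_Icc.1 ha).1
    have ha0 : (0 : ℝ) < a := by exact_mod_cast ha1
    have har : (1 : ℝ) ≤ a := by exact_mod_cast ha1
    have h1 := V_le R Q n a hQ hn ha1
    have hsa : 1 ≤ √(a : ℝ) := by
      rw [Real.one_le_sqrt]; exact har
    have hsa0 : 0 < √(a : ℝ) := by linarith
    have hinv : (√(a : ℝ))⁻¹ ≤ 1 := inv_le_one_of_one_le₀ hsa
    have hpos : 0 ≤ 1 + 100 * ((a : ℝ) * W) := by positivity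
    refine le_trans (mul_le_mul_of_nonneg_right h1 hpos) ?_
    have e1 : (√(R : ℝ) * ((√(a : ℝ))⁻¹ * (a : ℝ)⁻¹)) * (1 + 100 * ((a : ℝ) * W)) ≤
        √(R : ℝ) * ((a : ℝ)⁻¹ + 100 * W * (√(a : ℝ))⁻¹) := by
      have e2 : (√(R : ℝ) * ((√(a : ℝ))⁻¹ * (a : ℝ)⁻¹)) * (1 + 100 * ((a : ℝ) * W)) =
        √(R : ℝ) * ((√(a : ℝ))⁻¹ * (a : ℝ)⁻¹ + 100 * W * (√(a : ℝ))⁻¹) := by
        field_simp
      rw [e2]
      have e3 : (√(a : ℝ))⁻¹ * (a : ℝ)⁻¹ ≤ 1 * (a : ℝ)⁻¹ :=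
        mul_le_mul_of_nonneg_right hinv (by positivity)
      apply mul_le_mul_of_nonneg_left _ (Real.sqrt_nonneg _)
      linarith
    have e4 : ((R : ℝ) / (Q : ℝ) ^ 2 * (a : ℝ)⁻¹) * (1 + 100 * ((a : ℝ) * W)) =
        ((R : ℝ) / (Q : ℝ) ^ 2) * ((a : ℝ)⁻¹ + 100 * W) := by
      field_simp
    have e5 : 17276 * (n : ℝ) ^ 12 * ((√(R : ℝ) * ((√(a : ℝ))⁻¹ * (a : ℝ)⁻¹)) *
        (1 + 100 * ((a : ℝ) * W))) ≤
        17276 * (n : ℝ) ^ 12 * (√(R : ℝ) * ((a : ℝ)⁻¹ + 100 * W * (√(a : ℝ))⁻¹)) :=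
      mul_le_mul_of_nonneg_left e1 (by positivity)
    calc (9260 * (n : ℝ) ^ 20 + 17276 * (n : ℝ) ^ 12 * (√(R : ℝ) * ((√(a : ℝ))⁻¹ * (a : ℝ)⁻¹)) +
        600 * ((R : ℝ) / (Q : ℝ) ^ 2 * (a : ℝ)⁻¹)) * (1 + 100 * ((a : ℝ) * W))
        = 9260 * (n : ℝ) ^ 20 * (1 + 100 * W * a) +
          17276 * (n : ℝ) ^ 12 * ((√(R : ℝ) * ((√(a : ℝ))⁻¹ * (a : ℝ)⁻¹)) *
            (1 + 100 * ((a : ℝ) * W))) +
          600 * (((R : ℝ) / (Q : ℝ) ^ 2 * (a : ℝ)⁻¹) * (1 + 100 * ((a : ℝ) * W))) := by ring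
      _ ≤ 9260 * (n : ℝ) ^ 20 * (1 + 100 * W * a) +
          17276 * (n : ℝ) ^ 12 * (√(R : ℝ) * ((a : ℝ)⁻¹ + 100 * W * (√(a : ℝ))⁻¹)) +
          600 * (((R : ℝ) / (Q : ℝ) ^ 2) * ((a : ℝ)⁻¹ + 100 * W)) := by
          rw [e4]
          linarith
      _ = _ := by ring
  refine le_trans (sum_le_sum hterm) ?_
  rw [sum_add_distrib, sum_add_distrib, ← mul_sum, ← mul_sum, ← mul_sum, sum_add_distrib,
    sum_add_distrib, sum_add_distrib, ← mul_sum, ← mul_sum]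
  have s0 : ∑ a ∈ Icc (1 : ℕ) Q, (1 : ℝ) = Q := by
    rw [sum_const, Nat.card_Icc, Nat.add_sub_cancel, nsmul_eq_mul, mul_one]
  have s0' : ∑ a ∈ Icc (1 : ℕ) Q, (100 * W : ℝ) = Q * (100 * W) := by
    rw [sum_const, Nat.card_Icc, Nat.add_sub_cancel, nsmul_eq_mul]
  have s1 := id_sum Q
  have s2 := inv_sum Q
  have s3 := inv_sqrt_sum Q
  rw [s0, s0']
  have hsR := Real.sqrt_nonneg (R : ℝ)
  have hsQ := Real.sqrt_nonneg (Q : ℝ)
  have hRQ : 0 ≤ (R : ℝ) / (Q : ℝ) ^ 2 := by positivity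
  have hl1 : 1 ≤ 1 + Real.log Q := by linarith
  have t1 : 9260 * (n : ℝ) ^ 20 * (Q + 100 * W * ∑ a ∈ Icc (1 : ℕ) Q, (a : ℝ)) ≤
      4000000 * (1 + Real.log Q) * ((n : ℝ) ^ 20 * (Q + W * (Q : ℝ) ^ 2)) := by
    calc 9260 * (n : ℝ) ^ 20 * (Q + 100 * W * ∑ a ∈ Icc (1 : ℕ) Q, (a : ℝ))
        ≤ 9260 * (n : ℝ) ^ 20 * (Q + 100 * W * (Q : ℝ) ^ 2) := by gcongr
      _ ≤ 9260 * (n : ℝ) ^ 20 * (100 * (Q + W * (Q : ℝ) ^ 2)) := by
          have : 0 ≤ W * (Q : ℝ) ^ 2 := by positivity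
          gcongr
          linarith
      _ = 926000 * 1 * ((n : ℝ) ^ 20 * (Q + W * (Q : ℝ) ^ 2)) := by ring
      _ ≤ 4000000 * (1 + Real.log Q) * ((n : ℝ) ^ 20 * (Q + W * (Q : ℝ) ^ 2)) := by
          gcongr
          norm_num
  have t2 : 17276 * (n : ℝ) ^ 12 * √(R : ℝ) * (∑ a ∈ Icc (1 : ℕ) Q, ((a : ℝ)⁻¹) +
      100 * W * ∑ a ∈ Icc (1 : ℕ) Q, (√(a : ℝ))⁻¹) ≤
      4000000 * (1 + Real.log Q) * ((n : ℝ) ^ 12 * (√(R : ℝ) * (1 + W * √(Q : ℝ)))) := by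
    calc 17276 * (n : ℝ) ^ 12 * √(R : ℝ) * (∑ a ∈ Icc (1 : ℕ) Q, ((a : ℝ)⁻¹) +
      100 * W * ∑ a ∈ Icc (1 : ℕ) Q, (√(a : ℝ))⁻¹)
        ≤ 17276 * (n : ℝ) ^ 12 * √(R : ℝ) * ((1 + Real.log Q) + 100 * W * (2 * √(Q : ℝ))) := by
          gcongr
      _ ≤ 17276 * (n : ℝ) ^ 12 * √(R : ℝ) * (200 * ((1 + Real.log Q) * (1 + W * √(Q : ℝ)))) := by
          have h1 : 0 ≤ W * √(Q : ℝ) := by positivity
          have h2 : 0 ≤ Real.log Q * (W * √(Q : ℝ)) := by positivity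
          gcongr
          nlinarith
      _ = 3455200 * (1 + Real.log Q) * ((n : ℝ) ^ 12 * (√(R : ℝ) * (1 + W * √(Q : ℝ)))) := by
          ring
      _ ≤ _ := by
          gcongr
          norm_num
  have t3 : 600 * ((R : ℝ) / (Q : ℝ) ^ 2) * (∑ a ∈ Icc (1 : ℕ) Q, ((a : ℝ)⁻¹) + Q * (100 * W)) ≤
      4000000 * (1 + Real.log Q) * ((R : ℝ) / (Q : ℝ) ^ 2 * (1 + W * Q)) := by
    calc 600 * ((R : ℝ) / (Q : ℝ) ^ 2) * (∑ a ∈ Icc (1 : ℕ) Q, ((a : ℝ)⁻¹) + Q * (100 * W))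
        ≤ 600 * ((R : ℝ) / (Q : ℝ) ^ 2) * ((1 + Real.log Q) + Q * (100 * W)) := by gcongr
      _ ≤ 600 * ((R : ℝ) / (Q : ℝ) ^ 2) * (100 * ((1 + Real.log Q) * (1 + W * Q))) := by
          have h1 : 0 ≤ W * (Q : ℝ) := by positivity
          have h2 : 0 ≤ Real.log Q * (W * (Q : ℝ)) := by positivity
          gcongr
          nlinarith
      _ = 60000 * (1 + Real.log Q) * ((R : ℝ) / (Q : ℝ) ^ 2 * (1 + W * Q)) := by ring
      _ ≤ _ := by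
          gcongr
          norm_num
  calc _ ≤ 4000000 * (1 + Real.log Q) * ((n : ℝ) ^ 20 * (Q + W * (Q : ℝ) ^ 2)) +
        4000000 * (1 + Real.log Q) * ((n : ℝ) ^ 12 * (√(R : ℝ) * (1 + W * √(Q : ℝ)))) +
        4000000 * (1 + Real.log Q) * ((R : ℝ) / (Q : ℝ) ^ 2 * (1 + W * Q)) :=
        add_le_add (add_le_add t1 t2) t3
    _ = _ := by ring

/-- The members with `k ≠ 0`. -/
theorem card_nonzero (R Q D n : ℕ) (W : ℝ) (hP : Par (R : ℝ) Q D W)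
    (hT : Tiers R Q D W (154 * n ^ 12) (154 * n ^ 14) (154 * n ^ 16) (n ^ 6) (n ^ 3)) (hn : 1 ≤ n)
    (T : ℕ) (F : Finset ℤ) (Y af Af : ℤ → ℤ)
    (hD : ∀ x ∈ F, Datum R Q D W x (Y x) (af x) (Af x))
    (hk0 : ∀ x ∈ F, kz x (Y x) (af x) (Af x) ≠ 0)
    (hdiv : ∀ n : ℕ, n ≠ 0 → (n : ℤ) ≤ 30 * R → n.divisors.card ≤ T) :
    (F.card : ℝ) ≤ (T : ℝ) ^ 4 * (4000000 * (1 + Real.log Q) * ((n : ℝ) ^ 20 *
      (Q + W * (Q : ℝ) ^ 2) + (n : ℝ) ^ 12 * (√(R : ℝ) * (1 + W * √(Q : ℝ))) +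
      (R : ℝ) / (Q : ℝ) ^ 2 * (1 + W * Q))) := by
  have hQ2 : 2 ≤ Q := by
    have := hP.hQ
    exact_mod_cast this
  have hmaps : ∀ x ∈ F, (af x).toNat ∈ Icc (1 : ℕ) Q := by
    intro x hx
    have h1 := (hD x hx).ha1
    have h2 := (hD x hx).haQ
    rw [mem_Icc]
    omega
  have h1 : (F.card : ℝ) = ∑ a ∈ Icc (1 : ℕ) Q, ((F.filter (fun x => (af x).toNat = a)).card : ℝ) := by
    rw [card_eq_sum_card_fiberwise hmaps]
    push_cast
    rfl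
  rw [h1]
  have h2 : ∀ a ∈ Icc (1 : ℕ) Q, ((F.filter (fun x => (af x).toNat = a)).card : ℝ) ≤
      (T : ℝ) ^ 4 * ((V R Q (154 * n ^ 12) (154 * n ^ 14) (154 * n ^ 16) (n ^ 6) (n ^ 3)
      (M0 R a) a : ℝ) * (1 + 100 * (a * W))) := by
    intro a ha
    rw [mem_Icc] at ha
    have ha0 : a ≠ 0 := by omega
    have haf : ∀ x ∈ F.filter (fun x => (af x).toNat = a), af x = (a : ℤ) := by
      intro x hx
      have e1 := (mem_filter.1 hx).2
      have e2 := (hD x (mem_filter.1 hx).1).ha1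
      omega
    have h3 := card_fixed_a R Q D W (154 * n ^ 12) (154 * n ^ 14) (154 * n ^ 16) (n ^ 6) (n ^ 3)
      (M0 R a) hT a ha0 T (F.filter (fun x => (af x).toNat = a)) Y Af (by positivity) hP.hW.le
      (M0_spec R a ha0)
      (by
        intro x hx
        have e1 := hD x (mem_filter.1 hx).1
        rw [haf x hx] at e1
        exact e1)
      (by
        intro x hx
        have e1 := hk0 x (mem_filter.1 hx).1
        rw [haf x hx] at e1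
        exact e1) hdiv
    refine le_trans h3 ?_
    have hr4 : (r4 a : ℝ) ≤ (T : ℝ) ^ 3 := by
      have e1 := Hall.r4_le a ha0
      have e2 : a.divisors.card ≤ T := by
        apply hdiv a ha0
        have e3 : Q ≤ R := by
          have e4 := hP.Q_le
          have e5 := hP.R_pos
          have e6 : (Q : ℝ) ≤ R := by
            norm_num at e4
            linarith
          exact_mod_cast e6
        have : (a : ℤ) ≤ R := by
          have := ha.2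
          omega
        omega
      have e3 : r4 a ≤ T ^ 3 := le_trans e1 (Nat.pow_le_pow_left e2 3)
      exact_mod_cast e3
    have hV : (0 : ℝ) ≤ (V R Q (154 * n ^ 12) (154 * n ^ 14) (154 * n ^ 16) (n ^ 6) (n ^ 3)
      (M0 R a) a : ℝ) := by
      have := V_nonneg R Q (154 * n ^ 12) (154 * n ^ 14) (154 * n ^ 16) (n ^ 6) (n ^ 3)
        (M0 R a) a (by positivity) (by positivity)
      exact_mod_cast this
    have hW := hP.hW.le
    have hx : 0 ≤ 1 + 100 * ((a : ℝ) * W) := by positivity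
    calc (T : ℝ) * (V R Q (154 * n ^ 12) (154 * n ^ 14) (154 * n ^ 16) (n ^ 6) (n ^ 3)
      (M0 R a) a : ℝ) * r4 a * (1 + 100 * (a * W))
        ≤ (T : ℝ) * (V R Q (154 * n ^ 12) (154 * n ^ 14) (154 * n ^ 16) (n ^ 6) (n ^ 3)
      (M0 R a) a : ℝ) * (T : ℝ) ^ 3 * (1 + 100 * (a * W)) := by gcongr
      _ = _ := by ring
  refine le_trans (sum_le_sum h2) ?_
  rw [← mul_sum]
  apply mul_le_mul_of_nonneg_left _ (by positivity)
  exact sum_main R Q n W hP.hW.le (by omega) hn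

/-- The members with `k = 0`. -/
theorem card_zero (R Q D : ℕ) (W : ℝ) (hP : Par (R : ℝ) Q D W)
    (F : Finset ℤ) (Y af Af : ℤ → ℤ)
    (hD : ∀ x ∈ F, Datum R Q D W x (Y x) (af x) (Af x))
    (hk0 : ∀ x ∈ F, kz x (Y x) (af x) (Af x) = 0) :
    (F.card : ℝ) ≤ 9 * R * (1 + 2 * √(17 * W)) := by
  set g : ℕ := ⌊√(17 * W)⌋₊ with hg
  have hW := hP.hW
  have hmaps : ∀ x ∈ F, (Af x, x - Af x ^ 2) ∈ (Icc (1 : ℤ) (9 * R)) ×ˢ (Icc (-(g : ℤ)) g) := by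
    intro x hx
    have h1 := hD x hx
    have ha := h1.a_eq_one (hk0 x hx)
    rw [mem_product, mem_Icc, mem_Icc]
    refine ⟨⟨?_, ?_⟩, ?_⟩
    · have := h1.A_pos
      simp only
      omega
    · have h2 := h1.toRD.A_upper'
      rw [ha] at h2
      have h3 := hP.R_pos
      have h4 : ((Af x : ℤ) : ℝ) ≤ 9 * (R : ℝ) := by
        push_cast at h2
        norm_num at h2
        linarith
      exact_mod_cast h4
    · have h2 := h1.B_small_of_k_zero (hk0 x hx)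
      have h3 : Bz x 1 (Af x) = x - Af x ^ 2 := by unfold Bz; ring
      rw [h3] at h2
      have h4 : (((x - Af x ^ 2).natAbs : ℕ) : ℝ) ≤ √(17 * W) := by
        apply Real.le_sqrt_of_sq_le
        have e1 : (((x - Af x ^ 2).natAbs : ℕ) : ℝ) = |((x - Af x ^ 2 : ℤ) : ℝ)| := by
          rw [Nat.cast_natAbs]
          push_cast
          rfl
        rw [e1, sq_abs]
        linarith
      have h5 := Nat.le_floor h4
      rw [← hg] at h5
      simp only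
      omega
  have hinj : Set.InjOn (fun x : ℤ => (Af x, x - Af x ^ 2)) F := by
    intro x _ x' _ hxx
    simp only [Prod.mk.injEq] at hxx
    have e1 := hxx.1
    have e2 := hxx.2
    rw [e1] at e2
    linarith
  have h1 := card_le_card_of_injOn _ hmaps hinj
  rw [card_product, Int.card_Icc, Int.card_Icc] at h1
  have h2 : F.card ≤ (9 * R) * (2 * g + 1) := by
    refine le_trans h1 ?_
    apply Nat.mul_le_mul
    · omega
    · omega
  have h3 : (F.card : ℝ) ≤ (9 * R) * (2 * g + 1) := by exact_mod_cast h2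
  have h4 : (g : ℝ) ≤ √(17 * W) := Nat.floor_le (Real.sqrt_nonneg _)
  have h5 := hP.R_pos
  refine le_trans h3 ?_
  apply mul_le_mul_of_nonneg_left (by linarith) (by positivity)

/-- The count for one block. -/
theorem card_block (R Q D n : ℕ) (W : ℝ) (hP : Par (R : ℝ) Q D W)
    (hT : Tiers R Q D W (154 * n ^ 12) (154 * n ^ 14) (154 * n ^ 16) (n ^ 6) (n ^ 3)) (hn : 1 ≤ n)
    (T : ℕ) (hdiv : ∀ n : ℕ, n ≠ 0 → (n : ℤ) ≤ 30 * R → n.divisors.card ≤ T) (Z : ℝ) (hZ0 : 0 ≤ Z)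
    (hZ : (R : ℝ) ^ 2 < 5 * D → 9 * R * (1 + 2 * √(17 * W)) ≤ Z) :
    ((block R D).card : ℝ) ≤ Z + (T : ℝ) ^ 4 * (4000000 * (1 + Real.log Q) * ((n : ℝ) ^ 20 *
      (Q + W * (Q : ℝ) ^ 2) + (n : ℝ) ^ 12 * (√(R : ℝ) * (1 + W * √(Q : ℝ))) +
      (R : ℝ) / (Q : ℝ) ^ 2 * (1 + W * Q))) := by
  have h : ∀ x ∈ block R D, ∃ y a A : ℤ, Datum R Q D W x y a A := by
    intro x hx
    rw [mem_block] at hx
    exact exists_datum (by exact_mod_cast hP) hx.1.1 hx.1.2 hx.2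
  choose! Y af Af hD using h
  have hs : (block R D).card =
      ((block R D).filter (fun x => kz x (Y x) (af x) (Af x) = 0)).card +
      ((block R D).filter (fun x => ¬ kz x (Y x) (af x) (Af x) = 0)).card := by
    rw [card_filter_add_card_filter_not]
  have h1 : (((block R D).filter (fun x => kz x (Y x) (af x) (Af x) = 0)).card : ℝ) ≤ Z := by
    by_cases hRD : (R : ℝ) ^ 2 < 5 * D
    · refine le_trans ?_ (hZ hRD)
      exact card_zero R Q D W hP _ Y af Af (fun x hx => hD x (mem_filter.1 hx).1)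
        (fun x hx => (mem_filter.1 hx).2)
    · have : ((block R D).filter (fun x => kz x (Y x) (af x) (Af x) = 0)) = ∅ := by
        rw [filter_eq_empty_iff]
        intro x hx hk
        apply hRD
        have := (hD x hx).D_large_of_k_zero hk
        exact_mod_cast this
      rw [this]
      simpa using hZ0
  have h2 := card_nonzero R Q D n W hP hT hn T
    ((block R D).filter (fun x => ¬ kz x (Y x) (af x) (Af x) = 0)) Y af Af
    (fun x hx => hD x (mem_filter.1 hx).1) (fun x hx => (mem_filter.1 hx).2) hdiv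
  rw [hs]
  push_cast
  exact add_le_add h1 h2

end Pool.Agent.Helper15.Hall2
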