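import Mathlib
import Pool.Agent.Helper15.HallMain2

set_option autoImplicit false

namespace Pool.Agent.Helper15.Hall2

open Finset

/-- The main quantity is at most `2^26 (κ^24 ρ^4 + κ^4 ρ^4)`. -/
lemma E_bound (ρ κ n Q : ℝ) (hρ : 200 ≤ ρ) (hκ : 0 < κ) (h1 : 1 ≤ κ ^ 4 * ρ)
    (hn : n = 1 ∧ κ ≤ 1 ∨ 1 ≤ κ ∧ 0 ≤ n ∧ n ≤ 2 * κ)
    (hQ1 : ρ ^ 2 / κ ^ 4 ≤ Q) (hQ2 : Q ≤ 2 * (ρ ^ 2 / κ ^ 4)) :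
    n ^ 20 * (Q + 8 * κ ^ 12 * Q ^ 2) + n ^ 12 * (√(ρ ^ 6) * (1 + 8 * κ ^ 12 * √Q)) +
      ρ ^ 6 / Q ^ 2 * (1 + 8 * κ ^ 12 * Q) ≤ 2 ^ 26 * (κ ^ 24 * ρ ^ 4 + κ ^ 4 * ρ ^ 4) := by
  have hρ0 : 0 < ρ := by linarith
  have hρ1 : 1 ≤ ρ := by linarith
  have hz : 0 < ρ ^ 2 / κ ^ 4 := by positivity
  have hQ0 : 0 < Q := lt_of_lt_of_le hz hQ1
  have hsR : √(ρ ^ 6) = ρ ^ 3 := by
    rw [show ρ ^ 6 = (ρ ^ 3) ^ 2 by ring]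
    exact Real.sqrt_sq (by positivity)
  have hsQ : √Q ≤ 2 * (ρ / κ ^ 2) := by
    rw [Real.sqrt_le_left (by positivity)]
    calc Q ≤ 2 * (ρ ^ 2 / κ ^ 4) := hQ2
      _ ≤ 4 * (ρ ^ 2 / κ ^ 4) := by linarith
      _ = (2 * (ρ / κ ^ 2)) ^ 2 := by
        field_simp
        norm_num
  have hn0 : 0 ≤ n := by
    rcases hn with ⟨h, _⟩ | ⟨_, h, _⟩
    · rw [h]; norm_num
    · exact h
  -- the six pieces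
  have e1 : n ^ 20 * Q ≤ n ^ 20 * (2 * (ρ ^ 2 / κ ^ 4)) := by gcongr
  have e2 : n ^ 20 * (8 * κ ^ 12 * Q ^ 2) ≤ 32 * n ^ 20 * (κ ^ 4 * ρ ^ 4) := by
    calc n ^ 20 * (8 * κ ^ 12 * Q ^ 2) ≤ n ^ 20 * (8 * κ ^ 12 * (2 * (ρ ^ 2 / κ ^ 4)) ^ 2) := by
          gcongr
      _ = 32 * n ^ 20 * (κ ^ 4 * ρ ^ 4) := by
          field_simp
          ring
  have e4 : n ^ 12 * (ρ ^ 3 * (8 * κ ^ 12 * √Q)) ≤ 16 * n ^ 12 * (κ ^ 10 * ρ ^ 4) := by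
    calc n ^ 12 * (ρ ^ 3 * (8 * κ ^ 12 * √Q)) ≤
          n ^ 12 * (ρ ^ 3 * (8 * κ ^ 12 * (2 * (ρ / κ ^ 2)))) := by gcongr
      _ = 16 * n ^ 12 * (κ ^ 10 * ρ ^ 4) := by
          field_simp
          ring
  have e5 : ρ ^ 6 / Q ^ 2 ≤ κ ^ 8 * ρ ^ 2 := by
    calc ρ ^ 6 / Q ^ 2 ≤ ρ ^ 6 / (ρ ^ 2 / κ ^ 4) ^ 2 := by gcongr
      _ = κ ^ 8 * ρ ^ 2 := by
          field_simp
  have e6 : ρ ^ 6 / Q ^ 2 * (8 * κ ^ 12 * Q) ≤ 8 * (κ ^ 16 * ρ ^ 4) := by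
    calc ρ ^ 6 / Q ^ 2 * (8 * κ ^ 12 * Q) = 8 * κ ^ 12 * ρ ^ 6 / Q := by
          field_simp
      _ ≤ 8 * κ ^ 12 * ρ ^ 6 / (ρ ^ 2 / κ ^ 4) := by gcongr
      _ = 8 * (κ ^ 16 * ρ ^ 4) := by
          field_simp
  have hT1 : 0 ≤ κ ^ 24 * ρ ^ 4 := by positivity
  have hT2 : 0 ≤ κ ^ 4 * ρ ^ 4 := by positivity
  have hsum : n ^ 20 * (Q + 8 * κ ^ 12 * Q ^ 2) + n ^ 12 * (√(ρ ^ 6) * (1 + 8 * κ ^ 12 * √Q)) +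
      ρ ^ 6 / Q ^ 2 * (1 + 8 * κ ^ 12 * Q) ≤
      n ^ 20 * (2 * (ρ ^ 2 / κ ^ 4)) + 32 * n ^ 20 * (κ ^ 4 * ρ ^ 4) + n ^ 12 * ρ ^ 3 +
        16 * n ^ 12 * (κ ^ 10 * ρ ^ 4) + κ ^ 8 * ρ ^ 2 + 8 * (κ ^ 16 * ρ ^ 4) := by
    rw [hsR]
    calc n ^ 20 * (Q + 8 * κ ^ 12 * Q ^ 2) + n ^ 12 * (ρ ^ 3 * (1 + 8 * κ ^ 12 * √Q)) +
      ρ ^ 6 / Q ^ 2 * (1 + 8 * κ ^ 12 * Q) = n ^ 20 * Q + n ^ 20 * (8 * κ ^ 12 * Q ^ 2) +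
        n ^ 12 * ρ ^ 3 + n ^ 12 * (ρ ^ 3 * (8 * κ ^ 12 * √Q)) + ρ ^ 6 / Q ^ 2 +
        ρ ^ 6 / Q ^ 2 * (8 * κ ^ 12 * Q) := by ring
      _ ≤ _ := by linarith
  refine le_trans hsum ?_
  clear hsum e1 e2 e4 e5 e6
  rcases hn with ⟨rfl, hκ1⟩ | ⟨hκ1, _, hn2⟩
  · -- κ ≤ 1
    simp only [one_pow, one_mul, mul_one]
    have p6 : κ ^ 6 ≤ 1 := pow_le_one₀ hκ.le hκ1
    have p4 : κ ^ 4 ≤ 1 := pow_le_one₀ hκ.le hκ1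
    have p12 : κ ^ 12 ≤ 1 := pow_le_one₀ hκ.le hκ1
    have f1 : 2 * (ρ ^ 2 / κ ^ 4) ≤ 2 * (κ ^ 4 * ρ ^ 4) := by
      rw [← mul_div_assoc, div_le_iff₀ (by positivity)]
      have g1 : 1 ≤ (κ ^ 4 * ρ) ^ 2 := one_le_pow₀ h1
      calc 2 * ρ ^ 2 = 2 * ρ ^ 2 * 1 := by ring
        _ ≤ 2 * ρ ^ 2 * (κ ^ 4 * ρ) ^ 2 := by gcongr
        _ = 2 * (κ ^ 4 * ρ ^ 4) * κ ^ 4 := by ring
    have f3 : ρ ^ 3 ≤ κ ^ 4 * ρ ^ 4 := by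
      calc ρ ^ 3 = ρ ^ 3 * 1 := by ring
        _ ≤ ρ ^ 3 * (κ ^ 4 * ρ) := by gcongr
        _ = κ ^ 4 * ρ ^ 4 := by ring
    have f4 : κ ^ 10 * ρ ^ 4 ≤ κ ^ 4 * ρ ^ 4 := by
      calc κ ^ 10 * ρ ^ 4 = κ ^ 6 * (κ ^ 4 * ρ ^ 4) := by ring
        _ ≤ 1 * (κ ^ 4 * ρ ^ 4) := by gcongr
        _ = κ ^ 4 * ρ ^ 4 := by ring
    have f5 : κ ^ 8 * ρ ^ 2 ≤ κ ^ 4 * ρ ^ 4 := by
      have g1 : 1 ≤ ρ ^ 2 := one_le_pow₀ hρ1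
      calc κ ^ 8 * ρ ^ 2 = κ ^ 4 * (κ ^ 4 * ρ ^ 2 * 1) := by ring
        _ ≤ 1 * (κ ^ 4 * ρ ^ 2 * ρ ^ 2) := by gcongr
        _ = κ ^ 4 * ρ ^ 4 := by ring
    have f6 : κ ^ 16 * ρ ^ 4 ≤ κ ^ 4 * ρ ^ 4 := by
      calc κ ^ 16 * ρ ^ 4 = κ ^ 12 * (κ ^ 4 * ρ ^ 4) := by ring
        _ ≤ 1 * (κ ^ 4 * ρ ^ 4) := by gcongr
        _ = κ ^ 4 * ρ ^ 4 := by ring
    norm_num
    linarith
  · -- 1 ≤ κ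
    have q20 : n ^ 20 ≤ 2 ^ 20 * κ ^ 20 := by
      calc n ^ 20 ≤ (2 * κ) ^ 20 := pow_le_pow_left₀ hn0 hn2 20
        _ = 2 ^ 20 * κ ^ 20 := by ring
    have q12 : n ^ 12 ≤ 2 ^ 12 * κ ^ 12 := by
      calc n ^ 12 ≤ (2 * κ) ^ 12 := pow_le_pow_left₀ hn0 hn2 12
        _ = 2 ^ 12 * κ ^ 12 := by ring
    have g8 : 1 ≤ κ ^ 8 := one_le_pow₀ hκ1
    have f1 : n ^ 20 * (2 * (ρ ^ 2 / κ ^ 4)) ≤ 2 ^ 21 * (κ ^ 24 * ρ ^ 4) := by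
      have g1 : 1 ≤ ρ ^ 2 := one_le_pow₀ hρ1
      calc n ^ 20 * (2 * (ρ ^ 2 / κ ^ 4)) ≤ 2 ^ 20 * κ ^ 20 * (2 * (ρ ^ 2 / κ ^ 4)) := by gcongr
        _ = 2 ^ 21 * (κ ^ 16 * 1 * (ρ ^ 2 * 1)) := by
          field_simp
        _ ≤ 2 ^ 21 * (κ ^ 16 * κ ^ 8 * (ρ ^ 2 * ρ ^ 2)) := by gcongr
        _ = 2 ^ 21 * (κ ^ 24 * ρ ^ 4) := by ring
    have f2 : 32 * n ^ 20 * (κ ^ 4 * ρ ^ 4) ≤ 2 ^ 25 * (κ ^ 24 * ρ ^ 4) := by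
      calc 32 * n ^ 20 * (κ ^ 4 * ρ ^ 4) ≤ 32 * (2 ^ 20 * κ ^ 20) * (κ ^ 4 * ρ ^ 4) := by gcongr
        _ = 2 ^ 25 * (κ ^ 24 * ρ ^ 4) := by ring
    have f3 : n ^ 12 * ρ ^ 3 ≤ 2 ^ 12 * (κ ^ 24 * ρ ^ 4) := by
      have g1 : 1 ≤ κ ^ 12 := one_le_pow₀ hκ1
      calc n ^ 12 * ρ ^ 3 ≤ 2 ^ 12 * κ ^ 12 * ρ ^ 3 := by gcongr
        _ = 2 ^ 12 * (κ ^ 12 * 1 * (ρ ^ 3 * 1)) := by ring
        _ ≤ 2 ^ 12 * (κ ^ 12 * κ ^ 12 * (ρ ^ 3 * ρ)) := by gcongr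
        _ = 2 ^ 12 * (κ ^ 24 * ρ ^ 4) := by ring
    have f4 : 16 * n ^ 12 * (κ ^ 10 * ρ ^ 4) ≤ 2 ^ 16 * (κ ^ 24 * ρ ^ 4) := by
      have g1 : 1 ≤ κ ^ 2 := one_le_pow₀ hκ1
      calc 16 * n ^ 12 * (κ ^ 10 * ρ ^ 4) ≤ 16 * (2 ^ 12 * κ ^ 12) * (κ ^ 10 * ρ ^ 4) := by gcongr
        _ = 2 ^ 16 * (κ ^ 22 * 1 * ρ ^ 4) := by ring
        _ ≤ 2 ^ 16 * (κ ^ 22 * κ ^ 2 * ρ ^ 4) := by gcongr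
        _ = 2 ^ 16 * (κ ^ 24 * ρ ^ 4) := by ring
    have f5 : κ ^ 8 * ρ ^ 2 ≤ κ ^ 24 * ρ ^ 4 := by
      have g1 : 1 ≤ κ ^ 16 := one_le_pow₀ hκ1
      have g2 : 1 ≤ ρ ^ 2 := one_le_pow₀ hρ1
      calc κ ^ 8 * ρ ^ 2 = κ ^ 8 * 1 * (ρ ^ 2 * 1) := by ring
        _ ≤ κ ^ 8 * κ ^ 16 * (ρ ^ 2 * ρ ^ 2) := by gcongr
        _ = κ ^ 24 * ρ ^ 4 := by ring
    have f6 : κ ^ 16 * ρ ^ 4 ≤ κ ^ 24 * ρ ^ 4 := by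
      calc κ ^ 16 * ρ ^ 4 = κ ^ 16 * 1 * ρ ^ 4 := by ring
        _ ≤ κ ^ 16 * κ ^ 8 * ρ ^ 4 := by gcongr
        _ = κ ^ 24 * ρ ^ 4 := by ring
    norm_num at f1 f2 f3 f4 ⊢
    linarith

/-- Admissibility of the parameters. -/
lemma par_tiers (R Q D n : ℕ) (ρ κ : ℝ) (hR : (R : ℝ) = ρ ^ 6) (hD : (D : ℝ) = κ ^ 24 * ρ ^ 6)
    (hρ : 200 ≤ ρ) (hR0 : (10 : ℝ) ^ 14 ≤ R) (hκ : 0 < κ) (h1 : 1 ≤ κ ^ 4 * ρ)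
    (h3 : κ ^ 3 ≤ ρ) (hn : 1 ≤ n) (hκn : κ ≤ n)
    (hQ1 : ρ ^ 2 / κ ^ 4 ≤ Q) (hQ2 : (Q : ℝ) ≤ 2 * (ρ ^ 2 / κ ^ 4)) :
    Par (R : ℝ) Q D (8 * κ ^ 12) ∧
    Tiers R Q D (8 * κ ^ 12) (154 * n ^ 12) (154 * n ^ 14) (154 * n ^ 16) (n ^ 6) (n ^ 3) := by
  have hρ0 : 0 < ρ := by linarith
  have hρ1 : 1 ≤ ρ := by linarith
  have hz : 0 < ρ ^ 2 / κ ^ 4 := by positivity
  have hQ0 : (0 : ℝ) < Q := lt_of_lt_of_le hz hQ1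
  have hn1 : (1 : ℝ) ≤ n := by exact_mod_cast hn
  have hzgt : 1 < ρ ^ 2 / κ ^ 4 := by
    rw [lt_div_iff₀ (by positivity), one_mul]
    have e1 : (κ ^ 4) ^ 3 < (ρ ^ 2) ^ 3 := by
      calc (κ ^ 4) ^ 3 = (κ ^ 3) ^ 4 := by ring
        _ ≤ ρ ^ 4 := pow_le_pow_left₀ (by positivity) h3 4
        _ = ρ ^ 4 * 1 := by ring
        _ < ρ ^ 4 * ρ ^ 2 := by
          have : 1 < ρ ^ 2 := by nlinarith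
          gcongr
        _ = (ρ ^ 2) ^ 3 := by ring
    exact lt_of_pow_lt_pow_left₀ 3 (by positivity) e1
  have hQge2 : (2 : ℝ) ≤ Q := by
    have e1 : (1 : ℝ) < Q := lt_of_lt_of_le hzgt hQ1
    have e2 : 1 < Q := by exact_mod_cast e1
    exact_mod_cast e2
  have hW : 0 < 8 * κ ^ 12 := by positivity
  have hz3 : (ρ ^ 2 / κ ^ 4) ^ 3 = ρ ^ 6 / κ ^ 12 := by
    field_simp
  have hQ3 : (Q : ℝ) ^ 3 ≤ 8 * (ρ ^ 6 / κ ^ 12) := by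
    calc (Q : ℝ) ^ 3 ≤ (2 * (ρ ^ 2 / κ ^ 4)) ^ 3 := pow_le_pow_left₀ hQ0.le hQ2 3
      _ = 8 * (ρ ^ 2 / κ ^ 4) ^ 3 := by ring
      _ = 8 * (ρ ^ 6 / κ ^ 12) := by rw [hz3]
  have hn36 : (1 : ℝ) ≤ (n : ℝ) ^ 36 := one_le_pow₀ hn1
  constructor
  · refine ⟨?_, hQge2, ?_, hW, ?_, ?_, ?_, ?_⟩
    · refine le_trans ?_ hR0
      norm_num
    · rw [hD]; positivity
    · rw [hR]
      have e1 : (ρ ^ 2 / κ ^ 4) ^ 3 ≤ (Q : ℝ) ^ 3 := pow_le_pow_left₀ hz.le hQ1 3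
      rw [hz3] at e1
      calc ρ ^ 6 ≤ 8 * ρ ^ 6 := by
            have : 0 < ρ ^ 6 := by positivity
            linarith
        _ = 8 * κ ^ 12 * (ρ ^ 6 / κ ^ 12) := by field_simp
        _ ≤ 8 * κ ^ 12 * (Q : ℝ) ^ 3 := by gcongr
    · rw [hR, hD]
      calc (Q : ℝ) ^ 3 * (κ ^ 24 * ρ ^ 6) ≤ 8 * (ρ ^ 6 / κ ^ 12) * (κ ^ 24 * ρ ^ 6) := by gcongr
        _ = 8 * κ ^ 12 * (ρ ^ 6) ^ 2 := by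
          field_simp
    · rw [hR]
      have e1 : (κ ^ 3) ^ 4 ≤ ρ ^ 4 := pow_le_pow_left₀ (by positivity) h3 4
      have e2 : 40000 ≤ ρ ^ 2 := by nlinarith
      calc 5000 * (8 * κ ^ 12) = 40000 * (κ ^ 3) ^ 4 := by ring
        _ ≤ ρ ^ 2 * ρ ^ 4 := mul_le_mul e2 e1 (by positivity) (by positivity)
        _ = ρ ^ 6 := by ring
    · rw [hR]
      have e1 : 1 ≤ (κ ^ 4 * ρ) ^ 2 := one_le_pow₀ h1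
      calc (Q : ℝ) ^ 2 ≤ (2 * (ρ ^ 2 / κ ^ 4)) ^ 2 := pow_le_pow_left₀ hQ0.le hQ2 2
        _ = 4 * (ρ ^ 4 / κ ^ 8 * 1) := by
          field_simp
          norm_num
        _ ≤ 4 * (ρ ^ 4 / κ ^ 8 * (κ ^ 4 * ρ) ^ 2) := by gcongr
        _ = 4 * ρ ^ 6 := by
          field_simp
  · have hk24 : κ ^ 24 ≤ (n : ℝ) ^ 24 := pow_le_pow_left₀ hκ.le hκn 24
    have hk36 : κ ^ 36 ≤ (n : ℝ) ^ 36 := pow_le_pow_left₀ hκ.le hκn 36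
    have hk48 : κ ^ 48 ≤ (n : ℝ) ^ 48 := pow_le_pow_left₀ hκ.le hκn 48
    have hn2436 : (n : ℝ) ^ 24 ≤ (n : ℝ) ^ 36 := pow_le_pow_right₀ hn1 (by norm_num)
    have hnn : 1 ≤ n := hn
    refine ⟨?_, ?_, ?_, ?_, ?_, ?_, ?_, ?_⟩
    · have := Nat.one_le_pow 12 n hnn
      omega
    · have := Nat.one_le_pow 14 n hnn
      omega
    · have := Nat.one_le_pow 16 n hnn
      omega
    · push_cast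
      have e0 : (0 : ℝ) ≤ (n : ℝ) ^ 36 := by positivity
      calc 1300000 * (8 * κ ^ 12) ^ 2 = 83200000 * κ ^ 24 := by ring
        _ ≤ 83200000 * (n : ℝ) ^ 36 := by gcongr; linarith
        _ ≤ (10 : ℝ) ^ 14 * 2 * (3652264 * (n : ℝ) ^ 36) := by
          norm_num
          linarith
        _ = (10 : ℝ) ^ 14 * 2 * (154 * (n : ℝ) ^ 12) ^ 3 := by ring
        _ ≤ R * Q * (154 * (n : ℝ) ^ 12) ^ 3 := by gcongr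
    · push_cast
      rw [hR, hD]
      calc 450000 * ((Q : ℝ) ^ 3 * (κ ^ 24 * ρ ^ 6) ^ 2)
          ≤ 450000 * (8 * (ρ ^ 6 / κ ^ 12) * (κ ^ 24 * ρ ^ 6) ^ 2) := by gcongr
        _ = 3600000 * (ρ ^ 18 * κ ^ 36) := by
          field_simp
          norm_num
        _ ≤ 3652264 * (ρ ^ 18 * (n : ℝ) ^ 36) := by
          have : 0 ≤ ρ ^ 18 * κ ^ 36 := by positivity
          calc 3600000 * (ρ ^ 18 * κ ^ 36) ≤ 3652264 * (ρ ^ 18 * κ ^ 36) := by linarith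
            _ ≤ _ := by gcongr
        _ = (ρ ^ 6) ^ 3 * (154 * (n : ℝ) ^ 12) ^ 3 := by ring
    · push_cast
      rw [hR, hD]
      calc 1024 * (κ ^ 24 * ρ ^ 6) ^ 2 = 1024 * (κ ^ 48 * ρ ^ 12) := by ring
        _ ≤ 3652264 * ((n : ℝ) ^ 48 * ρ ^ 12) := by
          have : 0 ≤ κ ^ 48 * ρ ^ 12 := by positivity
          calc 1024 * (κ ^ 48 * ρ ^ 12) ≤ 3652264 * (κ ^ 48 * ρ ^ 12) := by linarith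
            _ ≤ _ := by gcongr
        _ = ((n : ℝ) ^ 6) ^ 2 * ((ρ ^ 6) ^ 2 * (154 * (n : ℝ) ^ 12) ^ 3) := by ring
    · push_cast
      rw [hR, hD]
      calc 1024 * (κ ^ 24 * ρ ^ 6) ^ 2 = 1024 * (κ ^ 48 * ρ ^ 12) := by ring
        _ ≤ 3652264 * ((n : ℝ) ^ 48 * ρ ^ 12) := by
          have : 0 ≤ κ ^ 48 * ρ ^ 12 := by positivity
          calc 1024 * (κ ^ 48 * ρ ^ 12) ≤ 3652264 * (κ ^ 48 * ρ ^ 12) := by linarith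
            _ ≤ _ := by gcongr
        _ = ((n : ℝ) ^ 3) ^ 2 * ((ρ ^ 6) ^ 2 * (154 * (n : ℝ) ^ 14) ^ 3) := by ring
    · push_cast
      rw [hR, hD]
      calc 1024 * (κ ^ 24 * ρ ^ 6) ^ 2 = 1024 * (κ ^ 48 * ρ ^ 12) := by ring
        _ ≤ 3652264 * ((n : ℝ) ^ 48 * ρ ^ 12) := by
          have : 0 ≤ κ ^ 48 * ρ ^ 12 := by positivity
          calc 1024 * (κ ^ 48 * ρ ^ 12) ≤ 3652264 * (κ ^ 48 * ρ ^ 12) := by linarith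
            _ ≤ _ := by gcongr
        _ = 1 ^ 2 * ((ρ ^ 6) ^ 2 * (154 * (n : ℝ) ^ 16) ^ 3) := by ring

/-- The contribution of `k = 0`. -/
lemma Z_bound (ρ κ R D : ℝ) (hR : R = ρ ^ 6) (hD : D = κ ^ 24 * ρ ^ 6)
    (hρ : 200 ≤ ρ) (hκ : 0 < κ) (h : R ^ 2 < 5 * D) :
    9 * R * (1 + 2 * √(17 * (8 * κ ^ 12))) ≤ 450 * (κ ^ 24 * ρ ^ 4) := by
  have hρ0 : 0 < ρ := by linarith
  have h1 : ρ ^ 6 < 5 * κ ^ 24 := by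
    rw [hR, hD] at h
    have e1 : ρ ^ 6 * ρ ^ 6 < ρ ^ 6 * (5 * κ ^ 24) := by
      calc ρ ^ 6 * ρ ^ 6 = (ρ ^ 6) ^ 2 := by ring
        _ < 5 * (κ ^ 24 * ρ ^ 6) := h
        _ = ρ ^ 6 * (5 * κ ^ 24) := by ring
    exact lt_of_mul_lt_mul_left e1 (by positivity)
  have h2 : ρ ^ 2 ≤ 2 * κ ^ 8 := by
    have e1 : (ρ ^ 2) ^ 3 ≤ (2 * κ ^ 8) ^ 3 := by
      calc (ρ ^ 2) ^ 3 = ρ ^ 6 := by ring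
        _ ≤ 8 * κ ^ 24 := by
          have : 0 < κ ^ 24 := by positivity
          linarith
        _ = (2 * κ ^ 8) ^ 3 := by ring
    exact le_of_pow_le_pow_left₀ (by norm_num) (by positivity) e1
  have hκ1 : 1 ≤ κ := by
    by_contra hn
    push Not at hn
    have e1 : κ ^ 24 ≤ 1 := pow_le_one₀ hκ.le hn.le
    have e2 : (200 : ℝ) ^ 6 ≤ ρ ^ 6 := pow_le_pow_left₀ (by norm_num) hρ 6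
    norm_num at e2
    linarith
  have h3 : √(17 * (8 * κ ^ 12)) ≤ 12 * κ ^ 6 := by
    rw [Real.sqrt_le_left (by positivity)]
    have : 0 < κ ^ 12 := by positivity
    calc 17 * (8 * κ ^ 12) ≤ 144 * κ ^ 12 := by linarith
      _ = (12 * κ ^ 6) ^ 2 := by ring
  have g6 : 1 ≤ κ ^ 6 := one_le_pow₀ hκ1
  have g10 : 1 ≤ κ ^ 10 := one_le_pow₀ hκ1
  rw [hR]
  calc 9 * ρ ^ 6 * (1 + 2 * √(17 * (8 * κ ^ 12))) ≤ 9 * ρ ^ 6 * (κ ^ 6 + 2 * (12 * κ ^ 6)) := by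
        gcongr
    _ = 225 * κ ^ 6 * ρ ^ 4 * ρ ^ 2 := by ring
    _ ≤ 225 * κ ^ 6 * ρ ^ 4 * (2 * κ ^ 8) := by gcongr
    _ = 450 * (κ ^ 14 * 1 * ρ ^ 4) := by ring
    _ ≤ 450 * (κ ^ 14 * κ ^ 10 * ρ ^ 4) := by gcongr
    _ = 450 * (κ ^ 24 * ρ ^ 4) := by ring

end Pool.Agent.Helper15.Hall2
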