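import Mathlib
import Pool.Agent.Helper15.HallBound2

set_option autoImplicit false

namespace Pool.Agent.Helper15.Hall2

open Finset

lemma block_card_trivial (R D : ℕ) (hR : 1 ≤ R) : ((block R D).card : ℝ) ≤ 64 * (R : ℝ) ^ 2 := by
  have h1 : (block R D).card ≤ (Icc (1 : ℤ) (64 * (R : ℤ) ^ 2)).card := by
    apply card_le_card
    intro x hx
    rw [mem_block] at hx
    rw [mem_Icc]
    refine ⟨le_trans ?_ hx.1.1, hx.1.2⟩
    have : (1 : ℤ) ≤ R := by exact_mod_cast hR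
    exact one_le_pow₀ this
  have h2 : (Icc (1 : ℤ) (64 * (R : ℤ) ^ 2)).card = 64 * R ^ 2 := by
    rw [Int.card_Icc]
    have : (64 * (R : ℤ) ^ 2 + 1 - 1) = ((64 * R ^ 2 : ℕ) : ℤ) := by push_cast; ring
    rw [this, Int.toNat_natCast]
  rw [h2] at h1
  exact_mod_cast h1

/-- The main bound for one block: the number of `x ∈ [R², 64 R²]` with `0 < |x³ - y²| ≤ D` for
some `y` is `≪ R^η (D R^(-1/3) + R^(1/2) D^(1/6))`. -/
theorem block_bound (η : ℝ) (hη : 0 < η) : ∃ C : ℝ, 1 ≤ C ∧ ∀ R D : ℕ, 1 ≤ R → 1 ≤ D →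
    ((block R D).card : ℝ) ≤ C * (R : ℝ) ^ η * ((D : ℝ) * (R : ℝ) ^ (-(1 / 3) : ℝ) +
      (R : ℝ) ^ (1 / 2 : ℝ) * (D : ℝ) ^ (1 / 6 : ℝ)) := by
  obtain ⟨C₁, hC₁, hdiv⟩ := Hall.card_divisors_le_uniform (η / 5) (by positivity)
  set C₂ : ℝ := 450 + (C₁ * 30 ^ (η / 5)) ^ 4 * (4000000 * (1 + 5 / η) * 2 ^ 26) with hC₂
  have hC₂0 : 0 ≤ C₂ := by positivity
  set C : ℝ := max C₂ (64 * ((10 : ℝ) ^ 14) ^ 2 + 1) with hC
  have hCC₂ : C₂ ≤ C := le_max_left _ _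
  have hC64 : 64 * ((10 : ℝ) ^ 14) ^ 2 + 1 ≤ C := le_max_right _ _
  have hC0 : 0 ≤ C := le_trans (by positivity) hC64
  refine ⟨C, le_trans (by norm_num) hC64, ?_⟩
  intro R D hR1 hD1
  have hRr : (1 : ℝ) ≤ R := by exact_mod_cast hR1
  have hDr : (1 : ℝ) ≤ D := by exact_mod_cast hD1
  have hR0 : (0 : ℝ) < R := by linarith
  have hD0 : (0 : ℝ) < D := by linarith
  -- ρ = R^(1/6), δ = D^(1/6)
  set ρ : ℝ := (R : ℝ) ^ (1 / 6 : ℝ) with hρdef
  set δ : ℝ := (D : ℝ) ^ (1 / 6 : ℝ) with hδdef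
  have hρ0 : 0 < ρ := by positivity
  have hδ0 : 0 < δ := by positivity
  have hρ1 : 1 ≤ ρ := Real.one_le_rpow hRr (by norm_num)
  have hδ1 : 1 ≤ δ := Real.one_le_rpow hDr (by norm_num)
  have hρ6 : (R : ℝ) = ρ ^ 6 := by
    rw [hρdef, ← Real.rpow_natCast, ← Real.rpow_mul hR0.le]
    norm_num
  have hδ6 : (D : ℝ) = δ ^ 6 := by
    rw [hδdef, ← Real.rpow_natCast, ← Real.rpow_mul hD0.le]
    norm_num
  have hRinv : (R : ℝ) ^ (-(1 / 3) : ℝ) = 1 / ρ ^ 2 := by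
    rw [hρdef, ← Real.rpow_natCast, ← Real.rpow_mul hR0.le, Real.rpow_neg hR0.le, one_div]
    norm_num
  have hRhalf : (R : ℝ) ^ (1 / 2 : ℝ) = ρ ^ 3 := by
    rw [hρdef, ← Real.rpow_natCast, ← Real.rpow_mul hR0.le]
    norm_num
  rw [hRinv, hRhalf]
  have hRη : 1 ≤ (R : ℝ) ^ η := Real.one_le_rpow hRr hη.le
  have hT1 : 0 < (D : ℝ) * (1 / ρ ^ 2) := by positivity
  have hT2 : 1 ≤ ρ ^ 3 * δ := by
    have := one_le_pow₀ hρ1 (n := 3)
    nlinarith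
  have htriv := block_card_trivial R D hR1
  by_cases hbig : (10 : ℝ) ^ 14 ≤ R
  · by_cases hDle : δ ^ 3 ≤ ρ ^ 7
    · -- the main case
      set κ : ℝ := (δ / ρ) ^ (1 / 4 : ℝ) with hκdef
      have hκ0 : 0 < κ := by positivity
      have hκ4 : κ ^ 4 = δ / ρ := by
        rw [hκdef, ← Real.rpow_natCast, ← Real.rpow_mul (by positivity)]
        norm_num
      have hκρ : κ ^ 4 * ρ = δ := by
        rw [hκ4]; field_simp
      have hDκ : (D : ℝ) = κ ^ 24 * ρ ^ 6 := by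
        rw [hδ6, ← hκρ]; ring
      have hρ200 : 200 ≤ ρ := by
        by_contra hn
        push Not at hn
        have e1 : ρ ^ 6 < 200 ^ 6 := pow_lt_pow_left₀ hn hρ0.le (by norm_num)
        rw [← hρ6] at e1
        norm_num at e1 hbig
        linarith
      have h1 : 1 ≤ κ ^ 4 * ρ := by rw [hκρ]; exact hδ1
      have h3 : κ ^ 3 ≤ ρ := by
        have e1 : (κ ^ 3) ^ 4 ≤ ρ ^ 4 := by
          calc (κ ^ 3) ^ 4 = (κ ^ 4) ^ 3 := by ring
            _ = (δ / ρ) ^ 3 := by rw [hκ4]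
            _ = δ ^ 3 / ρ ^ 3 := by ring
            _ ≤ ρ ^ 7 / ρ ^ 3 := by gcongr
            _ = ρ ^ 4 := by field_simp
        exact le_of_pow_le_pow_left₀ (by norm_num) hρ0.le e1
      set n : ℕ := ⌈κ⌉₊ with hndef
      have hn1 : 1 ≤ n := Nat.one_le_ceil_iff.2 hκ0
      have hκn : κ ≤ n := Nat.le_ceil κ
      have hncase : ((n : ℝ) = 1 ∧ κ ≤ 1) ∨ (1 ≤ κ ∧ 0 ≤ (n : ℝ) ∧ (n : ℝ) ≤ 2 * κ) := by
        by_cases hk : κ ≤ 1
        · left
          refine ⟨?_, hk⟩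
          have : n ≤ 1 := Nat.ceil_le.2 (by exact_mod_cast hk)
          have : n = 1 := by omega
          rw [this]; norm_num
        · right
          push Not at hk
          refine ⟨hk.le, by positivity, ?_⟩
          have := Nat.ceil_lt_add_one hκ0.le
          rw [← hndef] at this
          linarith
      set Q : ℕ := ⌈ρ ^ 2 / κ ^ 4⌉₊ with hQdef
      have hz0 : 0 < ρ ^ 2 / κ ^ 4 := by positivity
      have hQ1 : ρ ^ 2 / κ ^ 4 ≤ Q := Nat.le_ceil _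
      have hz1 : 1 ≤ ρ ^ 2 / κ ^ 4 := by
        rw [le_div_iff₀ (by positivity), one_mul]
        have e1 : (κ ^ 4) ^ 3 ≤ (ρ ^ 2) ^ 3 := by
          calc (κ ^ 4) ^ 3 = (κ ^ 3) ^ 4 := by ring
            _ ≤ ρ ^ 4 := pow_le_pow_left₀ (by positivity) h3 4
            _ = ρ ^ 4 * 1 := by ring
            _ ≤ ρ ^ 4 * ρ ^ 2 := by
              have : 1 ≤ ρ ^ 2 := one_le_pow₀ hρ1
              gcongr
            _ = (ρ ^ 2) ^ 3 := by ring
        exact le_of_pow_le_pow_left₀ (by norm_num) (by positivity) e1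
      have hQ2 : (Q : ℝ) ≤ 2 * (ρ ^ 2 / κ ^ 4) := by
        have := Nat.ceil_lt_add_one hz0.le
        rw [← hQdef] at this
        linarith
      obtain ⟨hP, hT⟩ := par_tiers R Q D n ρ κ hρ6 hDκ hρ200 hbig hκ0 h1 h3 hn1 hκn hQ1 hQ2
      -- the divisor bound
      set T : ℕ := ⌊C₁ * (30 * (R : ℝ)) ^ (η / 5)⌋₊ with hTdef
      have hTd : ∀ m : ℕ, m ≠ 0 → (m : ℤ) ≤ 30 * R → m.divisors.card ≤ T := by
        intro m hm hmR
        rw [hTdef]
        apply Nat.le_floor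
        have h1 := hdiv (30 * R) m hm (by exact_mod_cast hmR)
        push_cast at h1
        exact h1
      have hTle : (T : ℝ) ≤ C₁ * 30 ^ (η / 5) * (R : ℝ) ^ (η / 5) := by
        have e1 : (T : ℝ) ≤ C₁ * (30 * (R : ℝ)) ^ (η / 5) := Nat.floor_le (by positivity)
        rw [Real.mul_rpow (by norm_num) hR0.le, ← mul_assoc] at e1
        exact e1
      have hT1' : κ ^ 24 * ρ ^ 4 = (D : ℝ) * (1 / ρ ^ 2) := by
        rw [hDκ]; field_simp
      have hT2' : κ ^ 4 * ρ ^ 4 = ρ ^ 3 * δ := by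
        rw [← hκρ]; ring
      have hmain := card_block R Q D n (8 * κ ^ 12) hP hT hn1 T hTd (450 * (κ ^ 24 * ρ ^ 4))
        (by positivity) (fun h => Z_bound ρ κ R D hρ6 hDκ hρ200 hκ0 h)
      have hE := E_bound ρ κ n Q hρ200 hκ0 h1 hncase hQ1 hQ2
      rw [← hρ6] at hE
      set T12 : ℝ := (D : ℝ) * (1 / ρ ^ 2) + ρ ^ 3 * δ with hT12
      have hT12pos : 0 < T12 := by positivity
      rw [hT1', hT2'] at hE
      rw [hT1'] at hmain
      rw [← hT12] at hE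
      -- logs
      have hQR : (Q : ℝ) ≤ R := by
        have e4 := hP.Q_le
        norm_num at e4
        linarith
      have hQr1 : (1 : ℝ) ≤ Q := le_trans hz1 hQ1
      have hlogQ : 0 ≤ Real.log Q := Real.log_nonneg hQr1
      have h5 : 1 + Real.log Q ≤ (1 + 5 / η) * (R : ℝ) ^ (η / 5) := by
        have e0 : Real.log Q ≤ Real.log R := Real.log_le_log (by linarith) hQR
        have e1 := Real.log_le_rpow_div hR0.le (by positivity : 0 < η / 5)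
        have e2 : 1 ≤ (R : ℝ) ^ (η / 5) := Real.one_le_rpow hRr (by positivity)
        have e3 : (R : ℝ) ^ (η / 5) / (η / 5) = 5 / η * (R : ℝ) ^ (η / 5) := by
          field_simp
        rw [e3] at e1
        linarith
      have hpow : (R : ℝ) ^ η = ((R : ℝ) ^ (η / 5)) ^ 5 := by
        rw [← Real.rpow_natCast, ← Real.rpow_mul hR0.le]
        congr 1
        push_cast
        ring
      have hE0 : 0 ≤ ((n : ℝ) ^ 20 * (Q + 8 * κ ^ 12 * (Q : ℝ) ^ 2) +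
          (n : ℝ) ^ 12 * (√(R : ℝ) * (1 + 8 * κ ^ 12 * √(Q : ℝ))) +
          (R : ℝ) / (Q : ℝ) ^ 2 * (1 + 8 * κ ^ 12 * Q)) := by positivity
      have hstep : (T : ℝ) ^ 4 * (4000000 * (1 + Real.log Q) *
          ((n : ℝ) ^ 20 * (Q + 8 * κ ^ 12 * (Q : ℝ) ^ 2) +
          (n : ℝ) ^ 12 * (√(R : ℝ) * (1 + 8 * κ ^ 12 * √(Q : ℝ))) +
          (R : ℝ) / (Q : ℝ) ^ 2 * (1 + 8 * κ ^ 12 * Q))) ≤
          (C₁ * 30 ^ (η / 5) * (R : ℝ) ^ (η / 5)) ^ 4 *
            (4000000 * ((1 + 5 / η) * (R : ℝ) ^ (η / 5)) * (2 ^ 26 * T12)) := by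
        gcongr
      have hstep2 : (C₁ * 30 ^ (η / 5) * (R : ℝ) ^ (η / 5)) ^ 4 *
            (4000000 * ((1 + 5 / η) * (R : ℝ) ^ (η / 5)) * (2 ^ 26 * T12)) =
          (C₁ * 30 ^ (η / 5)) ^ 4 * (4000000 * (1 + 5 / η) * 2 ^ 26) * ((R : ℝ) ^ η * T12) := by
        rw [hpow]; ring
      rw [hstep2] at hstep
      have hfirst : 450 * ((D : ℝ) * (1 / ρ ^ 2)) ≤ 450 * ((R : ℝ) ^ η * T12) := by
        have e1 : (D : ℝ) * (1 / ρ ^ 2) ≤ T12 := by
          rw [hT12]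
          have : 0 < ρ ^ 3 * δ := by positivity
          linarith
        have e2 : 1 * T12 ≤ (R : ℝ) ^ η * T12 := mul_le_mul_of_nonneg_right hRη hT12pos.le
        linarith
      calc ((block R D).card : ℝ) ≤ 450 * ((R : ℝ) ^ η * T12) +
            (C₁ * 30 ^ (η / 5)) ^ 4 * (4000000 * (1 + 5 / η) * 2 ^ 26) * ((R : ℝ) ^ η * T12) := by
            refine le_trans hmain ?_
            exact add_le_add hfirst hstep
        _ = C₂ * (R : ℝ) ^ η * T12 := by rw [hC₂]; ring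
        _ ≤ C * (R : ℝ) ^ η * T12 := by gcongr
    · -- D is so large that the bound is trivial
      push Not at hDle
      have e1 : (ρ ^ 7) ^ 2 ≤ (δ ^ 3) ^ 2 := pow_le_pow_left₀ (by positivity) hDle.le 2
      have e2 : (R : ℝ) ^ 2 ≤ (D : ℝ) * (1 / ρ ^ 2) := by
        rw [hρ6, hδ6, mul_one_div, le_div_iff₀ (by positivity)]
        calc (ρ ^ 6) ^ 2 * ρ ^ 2 = (ρ ^ 7) ^ 2 := by ring
          _ ≤ (δ ^ 3) ^ 2 := e1
          _ = δ ^ 6 := by ring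
      have e3 : 64 ≤ C := le_trans (by norm_num) hC64
      have e4 : (D : ℝ) * (1 / ρ ^ 2) ≤ (D : ℝ) * (1 / ρ ^ 2) + ρ ^ 3 * δ := by linarith
      calc ((block R D).card : ℝ) ≤ 64 * (R : ℝ) ^ 2 := htriv
        _ = 64 * 1 * (R : ℝ) ^ 2 := by ring
        _ ≤ C * (R : ℝ) ^ η * ((D : ℝ) * (1 / ρ ^ 2) + ρ ^ 3 * δ) := by
          have := le_trans e2 e4
          gcongr
  · push Not at hbig
    calc ((block R D).card : ℝ) ≤ 64 * (R : ℝ) ^ 2 := htriv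
      _ ≤ 64 * ((10 : ℝ) ^ 14) ^ 2 := by gcongr
      _ ≤ C := by linarith
      _ = C * 1 * 1 := by ring
      _ ≤ C * (R : ℝ) ^ η * ((D : ℝ) * (1 / ρ ^ 2) + ρ ^ 3 * δ) := by
        have e2 : 1 ≤ (D : ℝ) * (1 / ρ ^ 2) + ρ ^ 3 * δ := by linarith
        gcongr

end Pool.Agent.Helper15.Hall2
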