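import Mathlib
import Pool.Agent.Helper15.HallBlockBound

set_option autoImplicit false

namespace Pool.Agent.Helper15.Hall2

open Finset

lemma geom_bound (r : ℝ) (hr : 2 ≤ r) (n : ℕ) : ∑ i ∈ range (n + 1), r ^ i ≤ 2 * r ^ n := by
  induction n with
  | zero => simp
  | succ n ih =>
    rw [sum_range_succ, pow_succ]
    have h1 : 0 < r ^ n := by positivity
    nlinarith

/-- A positive integer `x` lies in `[R², 64 R²]` for `R = 8 ^ i`, `i = log₆₄ x`. -/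
lemma mem_dyadic (x : ℕ) (hx : x ≠ 0) :
    ((8 ^ Nat.log 64 x : ℕ) : ℤ) ^ 2 ≤ x ∧ (x : ℤ) ≤ 64 * ((8 ^ Nat.log 64 x : ℕ) : ℤ) ^ 2 := by
  constructor
  · have h1 := Nat.pow_log_le_self 64 hx
    have h2 : ((8 ^ Nat.log 64 x : ℕ) : ℤ) ^ 2 = ((64 ^ Nat.log 64 x : ℕ) : ℤ) := by
      push_cast
      rw [← pow_mul, mul_comm, pow_mul]
      norm_num
    rw [h2]
    exact_mod_cast h1
  · have h1 := Nat.lt_pow_succ_log_self (b := 64) (by norm_num) x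
    have h2 : 64 * ((8 ^ Nat.log 64 x : ℕ) : ℤ) ^ 2 = ((64 ^ (Nat.log 64 x + 1) : ℕ) : ℤ) := by
      push_cast
      rw [← pow_mul, mul_comm _ 2, pow_mul, pow_succ]
      norm_num
      ring
    rw [h2]
    have h3 : x ≤ 64 ^ (Nat.log 64 x + 1) := h1.le
    exact_mod_cast h3

/-- `|x³ - y²| ≤ K √|x|` with `x³ ≠ y²`. -/
def ExcK (K : ℕ) (x : ℤ) : Prop := ∃ y : ℤ, x ^ 3 - y ^ 2 ≠ 0 ∧ (x ^ 3 - y ^ 2) ^ 2 ≤ K ^ 2 * |x|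

lemma excK_zero (K : ℕ) : ¬ ExcK K 0 := by
  rintro ⟨y, h1, h2⟩
  apply h1
  simp at h2
  simp [h2]

lemma excK_neg {K : ℕ} {x : ℤ} (hx : x < 0) (h : ExcK K x) : -(K : ℤ) ≤ x := by
  obtain ⟨y, _, h2⟩ := h
  rw [abs_of_neg hx] at h2
  obtain ⟨n, rfl⟩ : ∃ n, x = -n := ⟨-x, by ring⟩
  have hn : 0 < n := by omega
  rw [neg_neg] at h2
  have h3 : n * n ^ 5 ≤ n * (K : ℤ) ^ 2 := by
    calc n * n ^ 5 = (n ^ 3) ^ 2 := by ring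
      _ ≤ (n ^ 3 + y ^ 2) ^ 2 := by
        have e1 : 0 ≤ n ^ 3 := by positivity
        have e2 : 0 ≤ y ^ 2 := sq_nonneg y
        nlinarith
      _ = ((-n) ^ 3 - y ^ 2) ^ 2 := by ring
      _ ≤ (K : ℤ) ^ 2 * n := h2
      _ = n * (K : ℤ) ^ 2 := by ring
  have h4 : n ^ 5 ≤ (K : ℤ) ^ 2 := le_of_mul_le_mul_left h3 hn
  have h5 : n ^ 2 ≤ n ^ 5 := pow_le_pow_right₀ (by omega) (by norm_num)
  have h6 : n ^ 2 ≤ (K : ℤ) ^ 2 := le_trans h5 h4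
  have h7 := abs_le_of_sq_le_sq h6 (by positivity : (0 : ℤ) ≤ K)
  rw [abs_le] at h7
  omega

/-- Cover of the exceptional integers up to `N` by blocks. -/
lemma excK_cover {K : ℕ} {x : ℤ} {N : ℕ} (hxN : |x| ≤ N) (h : ExcK K x) :
    x ∈ Icc (-(K : ℤ)) (-1) ∪ (range (Nat.log 64 N + 1)).biUnion
      (fun i => block ((8 ^ i : ℕ) : ℤ) ((8 * K * 8 ^ i : ℕ) : ℤ)) := by
  rw [mem_union, mem_Icc, mem_biUnion]
  rcases lt_trichotomy x 0 with hx | hx | hx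
  · left
    exact ⟨excK_neg hx h, by omega⟩
  · exact absurd (hx ▸ h) (excK_zero K)
  · right
    lift x to ℕ using hx.le
    have hx0 : x ≠ 0 := by
      rintro rfl
      simp at hx
    obtain ⟨h1, h2⟩ := mem_dyadic x hx0
    refine ⟨Nat.log 64 x, ?_, ?_⟩
    · rw [mem_range]
      have h1 : x ≤ N := by
        have := le_abs_self (x : ℤ)
        omega
      have := Nat.log_mono_right (b := 64) h1
      omega
    · rw [mem_block]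
      refine ⟨⟨h1, h2⟩, ?_⟩
      obtain ⟨y, hy1, hy2⟩ := h
      refine ⟨y, hy1, ?_⟩
      rw [abs_of_pos hx] at hy2
      apply abs_le_of_sq_le_sq _ (by positivity)
      calc ((x : ℤ) ^ 3 - y ^ 2) ^ 2 ≤ (K : ℤ) ^ 2 * x := hy2
        _ ≤ (K : ℤ) ^ 2 * (64 * ((8 ^ Nat.log 64 x : ℕ) : ℤ) ^ 2) := by gcongr
        _ = (((8 * K * 8 ^ Nat.log 64 x : ℕ)) : ℤ) ^ 2 := by push_cast; ring

/-- Main theorem, integer parameters. -/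
theorem mainA_int (ε : ℝ) (hε : 0 < ε) : ∃ C : ℝ, 1 ≤ C ∧ ∀ K : ℕ, 1 ≤ K → ∀ N : ℕ, 1 ≤ N →
    ∃ S : Finset ℤ, (∀ x : ℤ, |x| ≤ N → ExcK K x → x ∈ S) ∧
      (S.card : ℝ) ≤ C * K * (N : ℝ) ^ (1 / 3 + ε) := by
  obtain ⟨C, hC, hb⟩ := block_bound (2 * ε) (by positivity)
  refine ⟨1 + 32 * C, by linarith, ?_⟩
  intro K hK N hN
  refine ⟨_, fun x hx hxe => excK_cover hx hxe, ?_⟩
  have hKr : (1 : ℝ) ≤ K := by exact_mod_cast hK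
  have hNr : (1 : ℝ) ≤ N := by exact_mod_cast hN
  set I := Nat.log 64 N with hI
  have hN1 : 1 ≤ (N : ℝ) ^ (1 / 3 + ε) := Real.one_le_rpow hNr (by positivity)
  have h1 : ((Icc (-(K : ℤ)) (-1)).card : ℝ) ≤ K := by
    rw [Int.card_Icc]
    have : (-1 + 1 - -(K : ℤ)) = ((K : ℕ) : ℤ) := by ring
    rw [this, Int.toNat_natCast]
  set r : ℝ := (8 : ℝ) ^ (2 / 3 + 2 * ε) with hr
  have hr2 : 2 ≤ r := by
    calc (2 : ℝ) = (8 : ℝ) ^ (1 / 3 : ℝ) := by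
          rw [show (8 : ℝ) = 2 ^ (3 : ℝ) by norm_num, ← Real.rpow_mul (by norm_num)]
          norm_num
      _ ≤ r := Real.rpow_le_rpow_of_exponent_le (by norm_num) (by linarith)
  have hri : ∀ i : ℕ, ((8 : ℝ) ^ i) ^ (2 / 3 + 2 * ε) = r ^ i := by
    intro i
    rw [hr, ← Real.rpow_natCast, ← Real.rpow_mul (by norm_num), ← Real.rpow_natCast,
      ← Real.rpow_mul (by norm_num), mul_comm]
  have hblk : ∀ i : ℕ, ((block ((8 ^ i : ℕ) : ℤ) ((8 * K * 8 ^ i : ℕ) : ℤ)).card : ℝ) ≤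
      16 * C * K * r ^ i := by
    intro i
    have hR1 : 1 ≤ 8 ^ i := Nat.one_le_pow _ _ (by norm_num)
    have h3 := hb (8 ^ i) (8 * K * 8 ^ i) hR1 (by
      have : 1 * 1 * 1 ≤ 8 * K * 8 ^ i := Nat.mul_le_mul (Nat.mul_le_mul (by norm_num) hK) hR1
      omega)
    refine le_trans h3 ?_
    have hRr : (1 : ℝ) ≤ ((8 ^ i : ℕ) : ℝ) := by exact_mod_cast hR1
    set R : ℝ := ((8 ^ i : ℕ) : ℝ) with hRdef
    have hR0 : 0 < R := by linarith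
    have hD : (((8 * K * 8 ^ i : ℕ)) : ℝ) = 8 * K * R := by
      rw [hRdef]; push_cast; ring
    rw [hD]
    have e1 : 8 * (K : ℝ) * R * R ^ (-(1 / 3) : ℝ) = 8 * K * R ^ (2 / 3 : ℝ) := by
      have : R ^ (2 / 3 : ℝ) = R * R ^ (-(1 / 3) : ℝ) := by
        rw [show (2 / 3 : ℝ) = 1 + -(1 / 3) by norm_num, Real.rpow_add hR0, Real.rpow_one]
      rw [this]; ring
    have e2 : R ^ (1 / 2 : ℝ) * (8 * (K : ℝ) * R) ^ (1 / 6 : ℝ) ≤ 8 * K * R ^ (2 / 3 : ℝ) := by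
      have e3 : (8 * (K : ℝ) * R) ^ (1 / 6 : ℝ) = (8 * (K : ℝ)) ^ (1 / 6 : ℝ) * R ^ (1 / 6 : ℝ) := by
        rw [Real.mul_rpow (by positivity) hR0.le]
      have e4 : (8 * (K : ℝ)) ^ (1 / 6 : ℝ) ≤ 8 * K := by
        calc (8 * (K : ℝ)) ^ (1 / 6 : ℝ) ≤ (8 * (K : ℝ)) ^ (1 : ℝ) :=
              Real.rpow_le_rpow_of_exponent_le (by linarith) (by norm_num)
          _ = 8 * K := Real.rpow_one _
      have e5 : R ^ (2 / 3 : ℝ) = R ^ (1 / 2 : ℝ) * R ^ (1 / 6 : ℝ) := by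
        rw [← Real.rpow_add hR0]; norm_num
      rw [e3, e5]
      calc R ^ (1 / 2 : ℝ) * ((8 * (K : ℝ)) ^ (1 / 6 : ℝ) * R ^ (1 / 6 : ℝ))
          ≤ R ^ (1 / 2 : ℝ) * ((8 * (K : ℝ)) * R ^ (1 / 6 : ℝ)) := by gcongr
        _ = 8 * K * (R ^ (1 / 2 : ℝ) * R ^ (1 / 6 : ℝ)) := by ring
    rw [e1]
    have e6 : r ^ i = R ^ (2 * ε) * R ^ (2 / 3 : ℝ) := by
      rw [← hri i, ← Real.rpow_add hR0, hRdef]
      push_cast
      congr 1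
      ring
    calc C * R ^ (2 * ε) * (8 * K * R ^ (2 / 3 : ℝ) +
          R ^ (1 / 2 : ℝ) * (8 * (K : ℝ) * R) ^ (1 / 6 : ℝ))
        ≤ C * R ^ (2 * ε) * (8 * K * R ^ (2 / 3 : ℝ) + 8 * K * R ^ (2 / 3 : ℝ)) := by gcongr
      _ = 16 * C * K * (R ^ (2 * ε) * R ^ (2 / 3 : ℝ)) := by ring
      _ = 16 * C * K * r ^ i := by rw [e6]
  have h2 : ((((range (I + 1)).biUnion (fun i => block ((8 ^ i : ℕ) : ℤ)
      ((8 * K * 8 ^ i : ℕ) : ℤ))).card : ℕ) : ℝ) ≤ 32 * C * K * r ^ I := by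
    calc ((((range (I + 1)).biUnion (fun i => block ((8 ^ i : ℕ) : ℤ)
      ((8 * K * 8 ^ i : ℕ) : ℤ))).card : ℕ) : ℝ)
        ≤ ∑ i ∈ range (I + 1), ((block ((8 ^ i : ℕ) : ℤ) ((8 * K * 8 ^ i : ℕ) : ℤ)).card : ℝ) := by
          exact_mod_cast card_biUnion_le
      _ ≤ ∑ i ∈ range (I + 1), 16 * C * K * r ^ i := sum_le_sum (fun i _ => hblk i)
      _ = 16 * C * K * ∑ i ∈ range (I + 1), r ^ i := by rw [mul_sum]
      _ ≤ 16 * C * K * (2 * r ^ I) :=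
          mul_le_mul_of_nonneg_left (geom_bound r hr2 I) (by positivity)
      _ = 32 * C * K * r ^ I := by ring
  have h3 : r ^ I ≤ (N : ℝ) ^ (1 / 3 + ε) := by
    rw [← hri I]
    have e1 : ((8 : ℝ) ^ I) ^ 2 ≤ N := by
      have := Nat.pow_log_le_self 64 (by omega : N ≠ 0)
      rw [← hI] at this
      have e2 : ((8 : ℝ) ^ I) ^ 2 = ((64 ^ I : ℕ) : ℝ) := by
        push_cast
        rw [← pow_mul, mul_comm, pow_mul]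
        norm_num
      rw [e2]
      exact_mod_cast this
    have e2 : ((8 : ℝ) ^ I) ^ (2 / 3 + 2 * ε) = (((8 : ℝ) ^ I) ^ 2) ^ (1 / 3 + ε) := by
      rw [← Real.rpow_natCast ((8 : ℝ) ^ I) 2, ← Real.rpow_mul (by positivity)]
      congr 1
      push_cast
      ring
    rw [e2]
    exact Real.rpow_le_rpow (by positivity) e1 (by positivity)
  have h4 : (((Icc (-(K : ℤ)) (-1) ∪
      (range (I + 1)).biUnion (fun i => block ((8 ^ i : ℕ) : ℤ)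
      ((8 * K * 8 ^ i : ℕ) : ℤ))).card : ℕ) : ℝ) ≤ K + 32 * C * K * r ^ I := by
    refine le_trans ?_ (add_le_add h1 h2)
    exact_mod_cast card_union_le _ _
  refine le_trans h4 ?_
  have h5 : (K : ℝ) * 1 ≤ K * (N : ℝ) ^ (1 / 3 + ε) := by gcongr
  have h6 : 32 * C * K * r ^ I ≤ 32 * C * K * (N : ℝ) ^ (1 / 3 + ε) := by gcongr
  calc (K : ℝ) + 32 * C * K * r ^ I
      ≤ K * (N : ℝ) ^ (1 / 3 + ε) + 32 * C * K * (N : ℝ) ^ (1 / 3 + ε) := by linarith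
    _ = (1 + 32 * C) * K * (N : ℝ) ^ (1 / 3 + ε) := by ring

/-- Main theorem, real parameters. -/
theorem mainA (ε : ℝ) (hε : 0 < ε) : ∃ C : ℝ, ∀ K : ℝ, 1 ≤ K → ∀ X : ℝ, 1 ≤ X →
    {x : ℤ | |(x : ℝ)| ≤ X ∧ ∃ y : ℤ, x ^ 3 ≠ y ^ 2 ∧
      |(x : ℝ) ^ 3 - (y : ℝ) ^ 2| ≤ K * √|(x : ℝ)|}.Finite ∧
    ({x : ℤ | |(x : ℝ)| ≤ X ∧ ∃ y : ℤ, x ^ 3 ≠ y ^ 2 ∧
      |(x : ℝ) ^ 3 - (y : ℝ) ^ 2| ≤ K * √|(x : ℝ)|}.ncard : ℝ) ≤ C * K * X ^ (1 / 3 + ε) := by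
  obtain ⟨C, hC, hmain⟩ := mainA_int ε hε
  refine ⟨2 * C, ?_⟩
  intro K hK X hX
  have hK1 : 1 ≤ ⌈K⌉₊ := Nat.one_le_ceil_iff.2 (by linarith)
  have hN1 : 1 ≤ ⌊X⌋₊ := Nat.one_le_floor_iff X |>.2 hX
  obtain ⟨S, hS, hcard⟩ := hmain ⌈K⌉₊ hK1 ⌊X⌋₊ hN1
  have hsub : {x : ℤ | |(x : ℝ)| ≤ X ∧ ∃ y : ℤ, x ^ 3 ≠ y ^ 2 ∧
      |(x : ℝ) ^ 3 - (y : ℝ) ^ 2| ≤ K * √|(x : ℝ)|} ⊆ (S : Set ℤ) := by
    rintro x ⟨hx, y, hne, hle⟩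
    apply hS x
    · have h1 : ((|x|.toNat : ℕ) : ℝ) ≤ X := by
        have e1 : ((|x|.toNat : ℕ) : ℤ) = |x| := Int.toNat_of_nonneg (abs_nonneg x)
        have e2 : ((|x|.toNat : ℕ) : ℝ) = |(x : ℝ)| := by
          have : ((((|x|.toNat : ℕ) : ℤ)) : ℝ) = ((|x| : ℤ) : ℝ) := by rw [e1]
          push_cast at this
          exact this
        rw [e2]
        exact hx
      have h2 := Nat.le_floor h1
      have e1 : ((|x|.toNat : ℕ) : ℤ) = |x| := Int.toNat_of_nonneg (abs_nonneg x)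
      rw [← e1]
      exact_mod_cast h2
    · refine ⟨y, sub_ne_zero.2 hne, ?_⟩
      have hceil : K ≤ (⌈K⌉₊ : ℝ) := Nat.le_ceil K
      have h1 : |(x : ℝ) ^ 3 - (y : ℝ) ^ 2| ≤ (⌈K⌉₊ : ℝ) * √|(x : ℝ)| := by
        refine le_trans hle ?_
        exact mul_le_mul_of_nonneg_right hceil (Real.sqrt_nonneg _)
      have h2 : ((x : ℝ) ^ 3 - (y : ℝ) ^ 2) ^ 2 ≤ ((⌈K⌉₊ : ℝ) * √|(x : ℝ)|) ^ 2 := by
        rw [← sq_abs]
        exact pow_le_pow_left₀ (abs_nonneg _) h1 2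
      rw [mul_pow, Real.sq_sqrt (abs_nonneg _)] at h2
      exact_mod_cast h2
  have hfin : {x : ℤ | |(x : ℝ)| ≤ X ∧ ∃ y : ℤ, x ^ 3 ≠ y ^ 2 ∧
      |(x : ℝ) ^ 3 - (y : ℝ) ^ 2| ≤ K * √|(x : ℝ)|}.Finite := S.finite_toSet.subset hsub
  refine ⟨hfin, ?_⟩
  have h1 : {x : ℤ | |(x : ℝ)| ≤ X ∧ ∃ y : ℤ, x ^ 3 ≠ y ^ 2 ∧
      |(x : ℝ) ^ 3 - (y : ℝ) ^ 2| ≤ K * √|(x : ℝ)|}.ncard ≤ S.card := by
    rw [← Set.ncard_coe_finset S]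
    exact Set.ncard_le_ncard hsub S.finite_toSet
  have h2 : (⌈K⌉₊ : ℝ) ≤ 2 * K := by
    have := Nat.ceil_lt_add_one (by linarith : 0 ≤ K)
    linarith
  have h4 : ((⌊X⌋₊ : ℕ) : ℝ) ^ (1 / 3 + ε) ≤ X ^ (1 / 3 + ε) :=
    Real.rpow_le_rpow (by positivity) (Nat.floor_le (by linarith)) (by positivity)
  calc ({x : ℤ | |(x : ℝ)| ≤ X ∧ ∃ y : ℤ, x ^ 3 ≠ y ^ 2 ∧
      |(x : ℝ) ^ 3 - (y : ℝ) ^ 2| ≤ K * √|(x : ℝ)|}.ncard : ℝ) ≤ (S.card : ℝ) := by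
        exact_mod_cast h1
    _ ≤ C * (⌈K⌉₊ : ℝ) * ((⌊X⌋₊ : ℕ) : ℝ) ^ (1 / 3 + ε) := hcard
    _ ≤ C * (2 * K) * X ^ (1 / 3 + ε) := by gcongr
    _ = 2 * C * K * X ^ (1 / 3 + ε) := by ring

end Pool.Agent.Helper15.Hall2
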