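import Mathlib
import Pool.Agent.Helper15.HallFinalA

set_option autoImplicit false

namespace Pool.Agent.Helper15.Hall2

open Finset

/-- Small `x`. -/
lemma cover_small (D : ℝ) (hD : 1 ≤ D) : ∃ F : Finset ℤ,
    (∀ d x y : ℤ, |(d : ℝ)| ≤ D → y ^ 2 = x ^ 3 + d → |(x : ℝ)| ≤ D ^ (7 / 20 : ℝ) → d ∈ F) ∧
      (F.card : ℝ) ≤ 15 * D ^ (7 / 8 : ℝ) := by
  have hD0 : 0 < D := by linarith
  set a : ℕ := ⌊D ^ (7 / 20 : ℝ)⌋₊ with ha
  set b : ℕ := ⌊2 * D ^ (21 / 40 : ℝ)⌋₊ with hb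
  refine ⟨((Icc (-(a : ℤ)) a) ×ˢ (Icc (-(b : ℤ)) b)).image (fun p => p.2 ^ 2 - p.1 ^ 3), ?_, ?_⟩
  · intro d x y hd hxy hx
    rw [mem_image]
    refine ⟨(x, y), ?_, by simp only; linarith⟩
    rw [mem_product, mem_Icc, mem_Icc]
    have hxa : x.natAbs ≤ a := by
      rw [ha]
      apply Nat.le_floor
      rw [Nat.cast_natAbs]
      push_cast
      exact hx
    have hyb : y.natAbs ≤ b := by
      rw [hb]
      apply Nat.le_floor
      rw [Nat.cast_natAbs]
      push_cast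
      apply abs_le_of_sq_le_sq _ (by positivity)
      have h1 : (y : ℝ) ^ 2 = (x : ℝ) ^ 3 + d := by exact_mod_cast hxy
      have h2 : (x : ℝ) ^ 3 ≤ (D ^ (7 / 20 : ℝ)) ^ 3 := by
        calc (x : ℝ) ^ 3 ≤ |(x : ℝ) ^ 3| := le_abs_self _
          _ = |(x : ℝ)| ^ 3 := abs_pow _ _
          _ ≤ _ := pow_le_pow_left₀ (abs_nonneg _) hx 3
      have h3 : (D ^ (7 / 20 : ℝ)) ^ 3 = D ^ (21 / 20 : ℝ) := by
        rw [← Real.rpow_natCast, ← Real.rpow_mul hD0.le]
        norm_num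
      have h4 : (2 * D ^ (21 / 40 : ℝ)) ^ 2 = 4 * D ^ (21 / 20 : ℝ) := by
        rw [mul_pow, ← Real.rpow_natCast (D ^ (21 / 40 : ℝ)), ← Real.rpow_mul hD0.le]
        norm_num
      have h5 : D ≤ D ^ (21 / 20 : ℝ) := by
        calc D = D ^ (1 : ℝ) := (Real.rpow_one D).symm
          _ ≤ _ := Real.rpow_le_rpow_of_exponent_le hD (by norm_num)
      have h6 := le_abs_self (d : ℝ)
      rw [h1, h4]
      rw [h3] at h2
      linarith
    simp only
    omega
  · have h1 : (((Icc (-(a : ℤ)) a) ×ˢ (Icc (-(b : ℤ)) b)).image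
        (fun p => p.2 ^ 2 - p.1 ^ 3)).card ≤ (2 * a + 1) * (2 * b + 1) := by
      refine le_trans card_image_le ?_
      rw [card_product, Int.card_Icc, Int.card_Icc]
      apply Nat.mul_le_mul <;> omega
    have h2 : ((((Icc (-(a : ℤ)) a) ×ˢ (Icc (-(b : ℤ)) b)).image
        (fun p => p.2 ^ 2 - p.1 ^ 3)).card : ℝ) ≤ (2 * a + 1) * (2 * b + 1) := by
      exact_mod_cast h1
    refine le_trans h2 ?_
    have h3 : (a : ℝ) ≤ D ^ (7 / 20 : ℝ) := Nat.floor_le (by positivity)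
    have h4 : (b : ℝ) ≤ 2 * D ^ (21 / 40 : ℝ) := Nat.floor_le (by positivity)
    have h5 : 1 ≤ D ^ (7 / 20 : ℝ) := Real.one_le_rpow hD (by norm_num)
    have h6 : 1 ≤ D ^ (21 / 40 : ℝ) := Real.one_le_rpow hD (by norm_num)
    have h7 : D ^ (7 / 8 : ℝ) = D ^ (7 / 20 : ℝ) * D ^ (21 / 40 : ℝ) := by
      rw [← Real.rpow_add hD0]; norm_num
    rw [h7]
    calc (2 * (a : ℝ) + 1) * (2 * b + 1) ≤ (3 * D ^ (7 / 20 : ℝ)) * (5 * D ^ (21 / 40 : ℝ)) := by
          apply mul_le_mul (by linarith) (by linarith) (by positivity) (by positivity)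
      _ = _ := by ring

/-- Medium `x`: `x ∈ [u, v]` with `u³ ≥ 2D`. -/
lemma cover_mid (D u v : ℝ) (hD : 1 ≤ D) (hu : 1 ≤ u) (hu3 : 2 * D ≤ u ^ 3) (hv : 0 ≤ v) :
    ∃ F : Finset ℤ,
    (∀ d x y : ℤ, |(d : ℝ)| ≤ D → y ^ 2 = x ^ 3 + d → u ≤ x → (x : ℝ) ≤ v → d ∈ F) ∧
      (F.card : ℝ) ≤ v * (1 + 2 * D / √(u ^ 3)) := by
  classical
  set h : ℕ := ⌊2 * D / √(u ^ 3)⌋₊ with hh
  set M : ℕ := ⌊v⌋₊ with hM
  have hD0 : 0 < D := by linarith
  have hu0 : 0 < u := by linarith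
  have hsu : 0 < √(u ^ 3) := Real.sqrt_pos.2 (by positivity)
  -- a bound for y
  set B : ℕ := ⌊v ^ 3 + D⌋₊ with hB
  let Y : ℤ → Finset ℤ := fun x => (Icc (0 : ℤ) B).filter (fun y => |((y ^ 2 - x ^ 3 : ℤ) : ℝ)| ≤ D)
  refine ⟨(Icc (1 : ℤ) M).biUnion (fun x => if u ≤ (x : ℝ) then
    (Y x).image (fun y => y ^ 2 - x ^ 3) else ∅), ?_, ?_⟩
  · intro d x y hd hxy hux hxv
    rw [mem_biUnion]
    have hx1 : (1 : ℝ) ≤ x := le_trans hu hux
    have hx1z : (1 : ℤ) ≤ x := by exact_mod_cast hx1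
    refine ⟨x, ?_, ?_⟩
    · rw [mem_Icc]
      refine ⟨hx1z, ?_⟩
      have e1 : ((x.toNat : ℕ) : ℝ) ≤ v := by
        have : ((x.toNat : ℕ) : ℤ) = x := Int.toNat_of_nonneg (by omega)
        have e2 : ((x.toNat : ℕ) : ℝ) = (x : ℝ) := by exact_mod_cast congrArg (Int.cast : ℤ → ℝ) this
        rw [e2]; exact hxv
      have e3 := Nat.le_floor e1
      rw [← hM] at e3
      omega
    · rw [if_pos hux, mem_image]
      refine ⟨|y|, ?_, ?_⟩
      · rw [mem_filter, mem_Icc]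
        have h1 : |y| ^ 2 - x ^ 3 = d := by rw [sq_abs]; linarith
        refine ⟨⟨abs_nonneg _, ?_⟩, ?_⟩
        · have h2 : ((y.natAbs : ℕ) : ℝ) ≤ v ^ 3 + D := by
            have e0 : ((y.natAbs : ℕ) : ℝ) = |(y : ℝ)| := by
              rw [Nat.cast_natAbs]; push_cast; rfl
            rw [e0]
            have e1 : (y : ℝ) ^ 2 = (x : ℝ) ^ 3 + d := by exact_mod_cast hxy
            have e2 : (x : ℝ) ^ 3 ≤ v ^ 3 := pow_le_pow_left₀ (by linarith) hxv 3
            have e3 := le_abs_self (d : ℝ)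
            have e4 : |(y : ℝ)| ≤ |(y : ℝ)| ^ 2 ∨ |(y : ℝ)| ≤ 1 := by
              by_cases hc : |(y : ℝ)| ≤ 1
              · right; exact hc
              · left
                push Not at hc
                nlinarith
            rcases e4 with e4 | e4
            · rw [sq_abs] at e4
              linarith
            · have : 0 ≤ v ^ 3 := by positivity
              linarith
          have h3 := Nat.le_floor h2
          rw [← hB] at h3
          rw [Int.abs_eq_natAbs]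
          exact_mod_cast h3
        · rw [h1]; exact hd
      · rw [sq_abs]; linarith
  · have hYcard : ∀ x : ℤ, u ≤ (x : ℝ) → (Y x).card ≤ h + 1 := by
      intro x hux
      rcases (Y x).eq_empty_or_nonempty with he | hne
      · rw [he]; simp
      -- all elements lie within h of the minimum
      set y0 := (Y x).min' hne with hy0
      have hy0mem := (Y x).min'_mem hne
      rw [← hy0] at hy0mem
      have hx3 : u ^ 3 ≤ (x : ℝ) ^ 3 := pow_le_pow_left₀ hu0.le hux 3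
      have hsub : Y x ⊆ Icc y0 (y0 + h) := by
        intro y hy
        rw [mem_Icc]
        have hle : y0 ≤ y := (Y x).min'_le y hy
        refine ⟨hle, ?_⟩
        have hy' := mem_filter.1 hy
        have hy0' := mem_filter.1 hy0mem
        have hyn := (mem_Icc.1 hy'.1).1
        have hy0n := (mem_Icc.1 hy0'.1).1
        have h1 := abs_le.1 hy'.2
        have h2 := abs_le.1 hy0'.2
        push_cast at h1 h2
        have hynr : (0 : ℝ) ≤ y := by exact_mod_cast hyn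
        have hy0nr : (0 : ℝ) ≤ y0 := by exact_mod_cast hy0n
        have hler : (y0 : ℝ) ≤ y := by exact_mod_cast hle
        -- y0² ≥ x³/2 ≥ u³/2
        have h3 : u ^ 3 / 2 ≤ (y0 : ℝ) ^ 2 := by linarith
        have h4 : √(u ^ 3) ≤ 2 * (y0 : ℝ) := by
          rw [Real.sqrt_le_left (by positivity)]
          have : 0 < u ^ 3 := by positivity
          nlinarith
        have h5 : ((y : ℝ) - y0) * (2 * y0) ≤ 2 * D := by
          have : ((y : ℝ) - y0) * (y + y0) ≤ 2 * D := by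
            have e : ((y : ℝ) - y0) * (y + y0) = (y : ℝ) ^ 2 - (y0 : ℝ) ^ 2 := by ring
            rw [e]; linarith [h1.2, h2.1]
          nlinarith
        have h6 : ((y : ℝ) - y0) * √(u ^ 3) ≤ 2 * D := by
          refine le_trans ?_ h5
          apply mul_le_mul_of_nonneg_left h4
          linarith
        have h7 : (((y - y0).toNat : ℕ) : ℝ) ≤ 2 * D / √(u ^ 3) := by
          have e1 : (((y - y0).toNat : ℕ) : ℤ) = y - y0 := Int.toNat_of_nonneg (by omega)
          have e2 : (((y - y0).toNat : ℕ) : ℝ) = (y : ℝ) - y0 := by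
            have := congrArg (Int.cast : ℤ → ℝ) e1
            push_cast at this
            exact this
          rw [e2, le_div_iff₀ hsu]
          exact h6
        have h8 := Nat.le_floor h7
        rw [← hh] at h8
        omega
      calc (Y x).card ≤ (Icc y0 (y0 + h)).card := card_le_card hsub
        _ = h + 1 := by
          rw [Int.card_Icc]; omega
    have h1 : ((Icc (1 : ℤ) M).biUnion (fun x => if u ≤ (x : ℝ) then
        (Y x).image (fun y => y ^ 2 - x ^ 3) else ∅)).card ≤ M * (h + 1) := by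
      calc ((Icc (1 : ℤ) M).biUnion (fun x => if u ≤ (x : ℝ) then
        (Y x).image (fun y => y ^ 2 - x ^ 3) else ∅)).card ≤
            ∑ x ∈ Icc (1 : ℤ) M, (if u ≤ (x : ℝ) then
              (Y x).image (fun y => y ^ 2 - x ^ 3) else ∅).card := card_biUnion_le
        _ ≤ ∑ x ∈ Icc (1 : ℤ) M, (h + 1) := by
          apply sum_le_sum
          intro x _
          split_ifs with hc
          · exact le_trans card_image_le (hYcard x hc)
          · simp
        _ = M * (h + 1) := by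
          rw [sum_const, Int.card_Icc, smul_eq_mul]
          congr 1
          omega
    have h2 : (((Icc (1 : ℤ) M).biUnion (fun x => if u ≤ (x : ℝ) then
        (Y x).image (fun y => y ^ 2 - x ^ 3) else ∅)).card : ℝ) ≤ M * (h + 1) := by
      exact_mod_cast h1
    refine le_trans h2 ?_
    have h3 : (M : ℝ) ≤ v := Nat.floor_le hv
    have h4 : (h : ℝ) ≤ 2 * D / √(u ^ 3) := Nat.floor_le (by positivity)
    apply mul_le_mul h3 (by linarith) (by positivity) hv

/-- One block of large `x`. -/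
lemma cover_block (R N : ℕ) (hN : 1 ≤ N) (hRN : 2 * N ≤ R ^ 3) : ∃ F : Finset ℤ,
    (∀ d x y : ℤ, d ≠ 0 → |d| ≤ N → y ^ 2 = x ^ 3 + d → (R : ℤ) ^ 2 ≤ x → x ≤ 64 * (R : ℤ) ^ 2 →
      d ∈ F) ∧ F.card ≤ (block R N).card := by
  classical
  have hex : ∀ x ∈ block (R : ℤ) N, ∃ y : ℤ, x ^ 3 - y ^ 2 ≠ 0 ∧ |x ^ 3 - y ^ 2| ≤ N :=
    fun x hx => (mem_block.1 hx).2
  choose! Yf hY1 hY2 using hex
  refine ⟨(block (R : ℤ) N).image (fun x => Yf x ^ 2 - x ^ 3), ?_, card_image_le⟩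
  intro d x y hd0 hdN hxy hx1 hx2
  have hdx : x ^ 3 - y ^ 2 = -d := by linarith
  have hmem : x ∈ block (R : ℤ) N := by
    rw [mem_block]
    refine ⟨⟨hx1, hx2⟩, y, ?_, ?_⟩
    · rw [hdx]; exact neg_ne_zero.2 hd0
    · rw [hdx, abs_neg]; exact hdN
  rw [mem_image]
  refine ⟨x, hmem, ?_⟩
  have h2 := hY2 x hmem
  -- uniqueness of |y|
  have hNz : (1 : ℤ) ≤ N := by exact_mod_cast hN
  have hRNz : 2 * (N : ℤ) ≤ (R : ℤ) ^ 3 := by exact_mod_cast hRN
  have hx3 : (2 * (N : ℤ)) ^ 2 ≤ x ^ 3 := by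
    calc (2 * (N : ℤ)) ^ 2 ≤ ((R : ℤ) ^ 3) ^ 2 := pow_le_pow_left₀ (by positivity) hRNz 2
      _ = ((R : ℤ) ^ 2) ^ 3 := by ring
      _ ≤ x ^ 3 := pow_le_pow_left₀ (by positivity) hx1 3
  have key : ∀ z : ℤ, |x ^ 3 - z ^ 2| ≤ N → (N : ℤ) < |z| := by
    intro z hz
    have h3 := (abs_le.1 hz).2
    have h4 : (N : ℤ) ^ 2 < |z| ^ 2 := by
      rw [sq_abs]
      nlinarith
    exact lt_of_pow_lt_pow_left₀ 2 (abs_nonneg _) h4
  have ky := key y (by rw [hdx, abs_neg]; exact hdN)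
  have ky' := key (Yf x) h2
  have heq : |Yf x| = |y| := by
    by_contra hne
    have h5 : |(|Yf x|) ^ 2 - |y| ^ 2| ≤ 2 * N := by
      rw [sq_abs, sq_abs]
      have e1 := abs_le.1 h2
      have e2 : |x ^ 3 - y ^ 2| ≤ N := by rw [hdx, abs_neg]; exact hdN
      have e3 := abs_le.1 e2
      rw [abs_le]
      constructor
      · linarith [e1.2, e3.1]
      · linarith [e1.1, e3.2]
    have h6 : |(|Yf x|) ^ 2 - |y| ^ 2| = |(|Yf x| - |y|)| * (|Yf x| + |y|) := by
      have : (|Yf x|) ^ 2 - |y| ^ 2 = (|Yf x| - |y|) * (|Yf x| + |y|) := by ring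
      rw [this, abs_mul, abs_of_nonneg (by positivity : 0 ≤ |Yf x| + |y|)]
    have h7 : 1 ≤ |(|Yf x| - |y|)| := Int.one_le_abs (sub_ne_zero.2 hne)
    have h8 : 1 * (|Yf x| + |y|) ≤ |(|Yf x| - |y|)| * (|Yf x| + |y|) :=
      mul_le_mul_of_nonneg_right h7 (by positivity)
    rw [h6] at h5
    linarith
  have h9 : Yf x ^ 2 = y ^ 2 := by rw [← sq_abs, heq, sq_abs]
  rw [h9]
  linarith

end Pool.Agent.Helper15.Hall2
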