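import Mathlib
import Pool.Agent.Helper15.HallFinalB

set_option autoImplicit false

namespace Pool.Agent.Helper15.Hall2

open Finset

/-- All blocks of large `x`. -/
lemma cover_large (ε : ℝ) (hε : 0 < ε) (hε1 : ε ≤ 1) : ∃ C : ℝ, 0 ≤ C ∧ ∀ D : ℝ, (2 : ℝ) ^ 200 ≤ D →
    ∃ F : Finset ℤ,
    (∀ d x y : ℤ, d ≠ 0 → |(d : ℝ)| ≤ D → y ^ 2 = x ^ 3 + d → D ^ (7 / 10 : ℝ) ≤ x →
      (x : ℝ) ≤ D ^ (10 / 3 - ε) → d ∈ F) ∧
      (F.card : ℝ) ≤ C * D ^ (1 - min (1 / 40) (ε / 16)) := by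
  classical
  set η : ℝ := min (1 / 20) (3 * ε / 40) with hη
  have hη0 : 0 < η := by
    rw [hη]; apply lt_min <;> positivity
  have hη1 : η ≤ 1 / 20 := min_le_left _ _
  have hη2 : η ≤ 3 * ε / 40 := min_le_right _ _
  set τ : ℝ := min (1 / 40) (ε / 16) with hτ
  have hτ0 : 0 < τ := by
    rw [hτ]; apply lt_min <;> positivity
  have hτ1 : τ ≤ 1 / 40 := min_le_left _ _
  have hτ2 : τ ≤ ε / 16 := min_le_right _ _
  obtain ⟨C, hC, hb⟩ := block_bound η hη0
  refine ⟨(1 + 10 / 3 / τ) * (C * 9), by positivity, ?_⟩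
  intro D hD
  have hD1 : 1 ≤ D := le_trans (by norm_num) hD
  have hD0 : 0 < D := by linarith
  set N : ℕ := ⌊D⌋₊ with hN
  have hN1 : 1 ≤ N := Nat.one_le_floor_iff D |>.2 hD1
  have hND : (N : ℝ) ≤ D := Nat.floor_le hD0.le
  set X : ℝ := D ^ (10 / 3 - ε) with hX
  have hX1 : 1 ≤ X := Real.one_le_rpow hD1 (by linarith)
  set I : ℕ := Nat.log 64 ⌊X⌋₊ with hI
  have hD120 : 1024 ≤ D ^ (1 / 20 : ℝ) := by
    calc (1024 : ℝ) = ((2 : ℝ) ^ 200) ^ (1 / 20 : ℝ) := by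
          rw [← Real.rpow_natCast, ← Real.rpow_mul (by norm_num)]
          norm_num
      _ ≤ D ^ (1 / 20 : ℝ) := Real.rpow_le_rpow (by positivity) hD (by norm_num)
  have hRN : ∀ i : ℕ, D ^ (7 / 20 : ℝ) ≤ 8 * (8 : ℝ) ^ i → 2 * N ≤ (8 ^ i) ^ 3 := by
    intro i hi
    have h1 : (D ^ (7 / 20 : ℝ)) ^ 3 ≤ (8 * (8 : ℝ) ^ i) ^ 3 := pow_le_pow_left₀ (by positivity) hi 3
    have h2 : (D ^ (7 / 20 : ℝ)) ^ 3 = D * D ^ (1 / 20 : ℝ) := by
      rw [← Real.rpow_natCast, ← Real.rpow_mul hD0.le]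
      nth_rewrite 2 [← Real.rpow_one D]
      rw [← Real.rpow_add hD0]
      norm_num
    have h3 : D * 1024 ≤ D * D ^ (1 / 20 : ℝ) := mul_le_mul_of_nonneg_left hD120 hD0.le
    have h4 : (8 * (8 : ℝ) ^ i) ^ 3 = 512 * ((8 : ℝ) ^ i) ^ 3 := by ring
    have h5 : 2 * (N : ℝ) ≤ ((8 : ℝ) ^ i) ^ 3 := by
      rw [h2, h4] at h1
      linarith
    exact_mod_cast h5
  have hcov : ∀ i : ℕ, D ^ (7 / 20 : ℝ) ≤ 8 * (8 : ℝ) ^ i → ∃ F : Finset ℤ,
      (∀ d x y : ℤ, d ≠ 0 → |d| ≤ N → y ^ 2 = x ^ 3 + d → ((8 ^ i : ℕ) : ℤ) ^ 2 ≤ x →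
        x ≤ 64 * ((8 ^ i : ℕ) : ℤ) ^ 2 → d ∈ F) ∧
        F.card ≤ (block ((8 ^ i : ℕ) : ℤ) (N : ℤ)).card :=
    fun i hi => cover_block (8 ^ i) N hN1 (hRN i hi)
  choose! Fi hF1 hF2 using hcov
  refine ⟨(range (I + 1)).biUnion
    (fun i => if D ^ (7 / 20 : ℝ) ≤ 8 * (8 : ℝ) ^ i then Fi i else ∅), ?_, ?_⟩
  · intro d x y hd0 hdD hxy hx1 hx2
    have hxpos : (0 : ℝ) < x := lt_of_lt_of_le (by positivity) hx1
    have hxz : 0 < x := by exact_mod_cast hxpos
    lift x to ℕ using hxz.le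
    have hx0 : x ≠ 0 := by
      rintro rfl
      simp at hxz
    obtain ⟨h1, h2⟩ := mem_dyadic x hx0
    rw [mem_biUnion]
    refine ⟨Nat.log 64 x, ?_, ?_⟩
    · rw [mem_range]
      have h3 : x ≤ ⌊X⌋₊ := Nat.le_floor (by exact_mod_cast hx2)
      have := Nat.log_mono_right (b := 64) h3
      omega
    · have hcond : D ^ (7 / 20 : ℝ) ≤ 8 * (8 : ℝ) ^ (Nat.log 64 x) := by
        have e1 : (D ^ (7 / 20 : ℝ)) ^ 2 ≤ (8 * (8 : ℝ) ^ (Nat.log 64 x)) ^ 2 := by
          have e2 : (D ^ (7 / 20 : ℝ)) ^ 2 = D ^ (7 / 10 : ℝ) := by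
            rw [← Real.rpow_natCast, ← Real.rpow_mul hD0.le]
            norm_num
          have e3 : ((x : ℤ) : ℝ) ≤ 64 * ((8 : ℝ) ^ (Nat.log 64 x)) ^ 2 := by exact_mod_cast h2
          rw [e2]
          calc D ^ (7 / 10 : ℝ) ≤ ((x : ℤ) : ℝ) := hx1
            _ ≤ 64 * ((8 : ℝ) ^ (Nat.log 64 x)) ^ 2 := e3
            _ = _ := by ring
        exact le_of_pow_le_pow_left₀ (by norm_num) (by positivity) e1
      rw [if_pos hcond]
      apply hF1 _ hcond d x y hd0 _ hxy h1 h2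
      have e1 : ((d.natAbs : ℕ) : ℝ) ≤ D := by
        rw [Nat.cast_natAbs]; push_cast; exact hdD
      have e2 := Nat.le_floor e1
      rw [← hN] at e2
      rw [Int.abs_eq_natAbs]
      exact_mod_cast e2
  · have hblk : ∀ i ∈ range (I + 1), (((if D ^ (7 / 20 : ℝ) ≤ 8 * (8 : ℝ) ^ i then Fi i else ∅ :
        Finset ℤ)).card : ℝ) ≤ C * (8 * D ^ (19 / 20 : ℝ) + D ^ (1 - ε / 8)) := by
      intro i hi
      split_ifs with hc
      · have e1 : ((Fi i).card : ℝ) ≤ ((block ((8 ^ i : ℕ) : ℤ) (N : ℤ)).card : ℝ) := by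
          exact_mod_cast hF2 i hc
        refine le_trans e1 ?_
        have hR1 : 1 ≤ 8 ^ i := Nat.one_le_pow _ _ (by norm_num)
        refine le_trans (hb (8 ^ i) N hR1 hN1) ?_
        have hRr : (1 : ℝ) ≤ ((8 ^ i : ℕ) : ℝ) := by exact_mod_cast hR1
        set R : ℝ := ((8 ^ i : ℕ) : ℝ) with hRdef
        have hR0 : 0 < R := by linarith
        have hRlow : D ^ (7 / 20 : ℝ) ≤ 8 * R := by
          rw [hRdef]; push_cast; exact hc
        -- upper bound for R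
        have hRX : R ^ 2 ≤ X := by
          have f1 : (8 ^ i) ^ 2 ≤ ⌊X⌋₊ := by
            have f2 : (8 ^ i) ^ 2 = 64 ^ i := by
              rw [← pow_mul, mul_comm, pow_mul]
              norm_num
            rw [f2]
            have f3 : ⌊X⌋₊ ≠ 0 := by
              have := Nat.one_le_floor_iff X |>.2 hX1
              omega
            refine le_trans (Nat.pow_le_pow_right (by norm_num) ?_) (Nat.pow_log_le_self 64 f3)
            rw [mem_range] at hi
            omega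
          have f4 : (((8 ^ i) ^ 2 : ℕ) : ℝ) ≤ X :=
            le_trans (by exact_mod_cast f1) (Nat.floor_le (by linarith))
          rw [hRdef]
          exact_mod_cast f4
        have hRup : R ≤ D ^ (5 / 3 - ε / 2) := by
          have f1 : (D ^ (5 / 3 - ε / 2)) ^ 2 = X := by
            rw [hX, ← Real.rpow_natCast, ← Real.rpow_mul hD0.le]
            congr 1
            push_cast
            ring
          exact le_of_pow_le_pow_left₀ (n := 2) (by norm_num) (by positivity) (by rw [f1]; exact hRX)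
        -- first term
        have t1 : R ^ η * ((N : ℝ) * R ^ (-(1 / 3) : ℝ)) ≤ 8 * D ^ (19 / 20 : ℝ) := by
          have g1 : R ^ η * R ^ (-(1 / 3) : ℝ) = R ^ (η - 1 / 3) := by
            rw [← Real.rpow_add hR0]; congr 1
          have g2 : R ^ (η - 1 / 3) ≤ (D ^ (7 / 20 : ℝ) / 8) ^ (η - 1 / 3) := by
            apply Real.rpow_le_rpow_of_nonpos (by positivity) (by linarith) (by linarith)
          have g3 : (D ^ (7 / 20 : ℝ) / 8) ^ (η - 1 / 3) =
              D ^ (7 / 20 * (η - 1 / 3)) * 8 ^ (1 / 3 - η) := by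
            rw [Real.div_rpow (by positivity) (by norm_num), ← Real.rpow_mul hD0.le,
              show η - 1 / 3 = -(1 / 3 - η) by ring, Real.rpow_neg (by norm_num : (0 : ℝ) ≤ 8)]
            rw [div_inv_eq_mul]
          have g4 : (8 : ℝ) ^ (1 / 3 - η) ≤ 8 := by
            calc (8 : ℝ) ^ (1 / 3 - η) ≤ (8 : ℝ) ^ (1 : ℝ) :=
                  Real.rpow_le_rpow_of_exponent_le (by norm_num) (by linarith)
              _ = 8 := Real.rpow_one _
          have g5 : D * D ^ (7 / 20 * (η - 1 / 3)) ≤ D ^ (19 / 20 : ℝ) := by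
            nth_rewrite 1 [← Real.rpow_one D]
            rw [← Real.rpow_add hD0]
            apply Real.rpow_le_rpow_of_exponent_le hD1
            linarith
          calc R ^ η * ((N : ℝ) * R ^ (-(1 / 3) : ℝ)) = (N : ℝ) * (R ^ η * R ^ (-(1 / 3) : ℝ)) := by
                ring
            _ = (N : ℝ) * R ^ (η - 1 / 3) := by rw [g1]
            _ ≤ D * (D ^ (7 / 20 : ℝ) / 8) ^ (η - 1 / 3) := by gcongr
            _ = (D * D ^ (7 / 20 * (η - 1 / 3))) * 8 ^ (1 / 3 - η) := by rw [g3]; ring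
            _ ≤ D ^ (19 / 20 : ℝ) * 8 := by gcongr
            _ = 8 * D ^ (19 / 20 : ℝ) := by ring
        -- second term
        have t2 : R ^ η * (R ^ (1 / 2 : ℝ) * (N : ℝ) ^ (1 / 6 : ℝ)) ≤ D ^ (1 - ε / 8) := by
          have g1 : R ^ η * R ^ (1 / 2 : ℝ) = R ^ (η + 1 / 2) := by
            rw [← Real.rpow_add hR0]
          have g2 : R ^ (η + 1 / 2) ≤ (D ^ (5 / 3 - ε / 2)) ^ (η + 1 / 2) :=
            Real.rpow_le_rpow hR0.le hRup (by linarith)
          have g3 : (N : ℝ) ^ (1 / 6 : ℝ) ≤ D ^ (1 / 6 : ℝ) :=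
            Real.rpow_le_rpow (by positivity) hND (by norm_num)
          calc R ^ η * (R ^ (1 / 2 : ℝ) * (N : ℝ) ^ (1 / 6 : ℝ))
              = (R ^ η * R ^ (1 / 2 : ℝ)) * (N : ℝ) ^ (1 / 6 : ℝ) := by ring
            _ = R ^ (η + 1 / 2) * (N : ℝ) ^ (1 / 6 : ℝ) := by rw [g1]
            _ ≤ (D ^ (5 / 3 - ε / 2)) ^ (η + 1 / 2) * D ^ (1 / 6 : ℝ) := by gcongr
            _ = D ^ ((5 / 3 - ε / 2) * (η + 1 / 2) + 1 / 6) := by
              rw [← Real.rpow_mul hD0.le, ← Real.rpow_add hD0]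
            _ ≤ D ^ (1 - ε / 8) := by
              apply Real.rpow_le_rpow_of_exponent_le hD1
              nlinarith [mul_pos hε hη0]
        calc C * R ^ η * ((N : ℝ) * R ^ (-(1 / 3) : ℝ) + R ^ (1 / 2 : ℝ) * (N : ℝ) ^ (1 / 6 : ℝ))
            = C * (R ^ η * ((N : ℝ) * R ^ (-(1 / 3) : ℝ)) +
                R ^ η * (R ^ (1 / 2 : ℝ) * (N : ℝ) ^ (1 / 6 : ℝ))) := by ring
          _ ≤ C * (8 * D ^ (19 / 20 : ℝ) + D ^ (1 - ε / 8)) := by gcongr
      · simp only [card_empty, Nat.cast_zero]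
        positivity
    have hsum : ((((range (I + 1)).biUnion
        (fun i => if D ^ (7 / 20 : ℝ) ≤ 8 * (8 : ℝ) ^ i then Fi i else ∅)).card : ℕ) : ℝ) ≤
        (I + 1) * (C * (8 * D ^ (19 / 20 : ℝ) + D ^ (1 - ε / 8))) := by
      calc ((((range (I + 1)).biUnion
        (fun i => if D ^ (7 / 20 : ℝ) ≤ 8 * (8 : ℝ) ^ i then Fi i else ∅)).card : ℕ) : ℝ)
          ≤ ∑ i ∈ range (I + 1), (((if D ^ (7 / 20 : ℝ) ≤ 8 * (8 : ℝ) ^ i then Fi i else ∅ :
            Finset ℤ)).card : ℝ) := by exact_mod_cast card_biUnion_le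
        _ ≤ ∑ i ∈ range (I + 1), C * (8 * D ^ (19 / 20 : ℝ) + D ^ (1 - ε / 8)) :=
            sum_le_sum hblk
        _ = _ := by
          rw [sum_const, card_range, nsmul_eq_mul]
          push_cast
          ring
    refine le_trans hsum ?_
    have hIle : (I : ℝ) + 1 ≤ (1 + 10 / 3 / τ) * D ^ τ := by
      have f1 : (64 : ℝ) ^ I ≤ X := by
        have f3 : ⌊X⌋₊ ≠ 0 := by
          have := Nat.one_le_floor_iff X |>.2 hX1
          omega
        have f4 := Nat.pow_log_le_self 64 f3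
        rw [← hI] at f4
        have f5 : ((64 ^ I : ℕ) : ℝ) ≤ (⌊X⌋₊ : ℝ) := by exact_mod_cast f4
        push_cast at f5
        exact le_trans f5 (Nat.floor_le (by linarith))
      have f2 : (I : ℝ) * Real.log 64 ≤ Real.log X := by
        rw [← Real.log_pow]
        exact Real.log_le_log (by positivity) f1
      have f3 : 1 ≤ Real.log 64 := by
        rw [Real.le_log_iff_exp_le (by norm_num)]
        linarith [Real.exp_one_lt_d9]
      have f4 : (I : ℝ) ≤ Real.log X := by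
        have : (I : ℝ) * 1 ≤ (I : ℝ) * Real.log 64 := mul_le_mul_of_nonneg_left f3 (by positivity)
        linarith
      have f5 : Real.log X = (10 / 3 - ε) * Real.log D := by
        rw [hX, Real.log_rpow hD0]
      have f6 : 0 ≤ Real.log D := Real.log_nonneg hD1
      have f7 := Real.log_le_rpow_div hD0.le hτ0
      have f8 : 1 ≤ D ^ τ := Real.one_le_rpow hD1 hτ0.le
      have f9 : (10 / 3 - ε) * Real.log D ≤ 10 / 3 * (D ^ τ / τ) := by
        calc (10 / 3 - ε) * Real.log D ≤ 10 / 3 * Real.log D := by gcongr; linarith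
          _ ≤ 10 / 3 * (D ^ τ / τ) := by gcongr
      have f10 : (1 + 10 / 3 / τ) * D ^ τ = D ^ τ + 10 / 3 * (D ^ τ / τ) := by ring
      rw [f10]
      linarith
    have e1 : D ^ τ * D ^ (19 / 20 : ℝ) ≤ D ^ (1 - τ) := by
      rw [← Real.rpow_add hD0]
      apply Real.rpow_le_rpow_of_exponent_le hD1
      linarith
    have e2 : D ^ τ * D ^ (1 - ε / 8) ≤ D ^ (1 - τ) := by
      rw [← Real.rpow_add hD0]
      apply Real.rpow_le_rpow_of_exponent_le hD1
      linarith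
    calc ((I : ℝ) + 1) * (C * (8 * D ^ (19 / 20 : ℝ) + D ^ (1 - ε / 8)))
        ≤ ((1 + 10 / 3 / τ) * D ^ τ) * (C * (8 * D ^ (19 / 20 : ℝ) + D ^ (1 - ε / 8))) := by
          gcongr
      _ = (1 + 10 / 3 / τ) * (C * (8 * (D ^ τ * D ^ (19 / 20 : ℝ)) + D ^ τ * D ^ (1 - ε / 8))) := by
          ring
      _ ≤ (1 + 10 / 3 / τ) * (C * (8 * D ^ (1 - τ) + D ^ (1 - τ))) := by gcongr
      _ = (1 + 10 / 3 / τ) * (C * 9) * D ^ (1 - τ) := by ring

/-- Almost all Mordell curves have no integral point with `|x| ≤ D ^ (10 / 3 - ε)`. -/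
theorem mainB_aux (ε : ℝ) (hε : 0 < ε) (hε1 : ε ≤ 1) : ∃ C : ℝ, ∀ D : ℝ, 1 ≤ D → ∃ F : Finset ℤ,
    (∀ d x y : ℤ, d ≠ 0 → |(d : ℝ)| ≤ D → y ^ 2 = x ^ 3 + d → |(x : ℝ)| ≤ D ^ (10 / 3 - ε) →
      d ∈ F) ∧
    (F.card : ℝ) ≤ C * D ^ (1 - min (1 / 40) (ε / 16)) := by
  classical
  obtain ⟨C, hC, hlarge⟩ := cover_large ε hε hε1
  set τ : ℝ := min (1 / 40) (ε / 16) with hτ
  have hτ0 : 0 < τ := by
    rw [hτ]; apply lt_min <;> positivity
  have hτ1 : τ ≤ 1 / 40 := min_le_left _ _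
  refine ⟨3 * 2 ^ 200 + (21 + C), ?_⟩
  intro D hD1
  have hD0 : 0 < D := by linarith
  have hDτ : 1 ≤ D ^ (1 - τ) := Real.one_le_rpow hD1 (by linarith)
  by_cases hD : (2 : ℝ) ^ 200 ≤ D
  · obtain ⟨F0, hF0, hc0⟩ := cover_small D hD1
    have hD120 : 1024 ≤ D ^ (1 / 20 : ℝ) := by
      calc (1024 : ℝ) = ((2 : ℝ) ^ 200) ^ (1 / 20 : ℝ) := by
            rw [← Real.rpow_natCast, ← Real.rpow_mul (by norm_num)]
            norm_num
        _ ≤ D ^ (1 / 20 : ℝ) := Real.rpow_le_rpow (by positivity) hD (by norm_num)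
    obtain ⟨F1, hF1, hc1⟩ := cover_mid D (D ^ (7 / 20 : ℝ)) (D ^ (1 / 2 : ℝ)) hD1
      (Real.one_le_rpow hD1 (by norm_num)) (by
        have h2 : (D ^ (7 / 20 : ℝ)) ^ 3 = D * D ^ (1 / 20 : ℝ) := by
          rw [← Real.rpow_natCast, ← Real.rpow_mul hD0.le]
          nth_rewrite 2 [← Real.rpow_one D]
          rw [← Real.rpow_add hD0]
          norm_num
        rw [h2]
        nlinarith) (by positivity)
    obtain ⟨F2, hF2, hc2⟩ := cover_mid D (D ^ (1 / 2 : ℝ)) (D ^ (7 / 10 : ℝ)) hD1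
      (Real.one_le_rpow hD1 (by norm_num)) (by
        have h2 : (D ^ (1 / 2 : ℝ)) ^ 3 = D * D ^ (1 / 2 : ℝ) := by
          rw [← Real.rpow_natCast, ← Real.rpow_mul hD0.le]
          nth_rewrite 2 [← Real.rpow_one D]
          rw [← Real.rpow_add hD0]
          norm_num
        have h3 : D ^ (1 / 20 : ℝ) ≤ D ^ (1 / 2 : ℝ) :=
          Real.rpow_le_rpow_of_exponent_le hD1 (by norm_num)
        rw [h2]
        nlinarith) (by positivity)
    obtain ⟨F3, hF3, hc3⟩ := hlarge D hD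
    refine ⟨F0 ∪ (F1 ∪ (F2 ∪ F3)), ?_, ?_⟩
    · intro d x y hd0 hdD hxy hx
      rw [mem_union, mem_union, mem_union]
      by_cases h1 : |(x : ℝ)| ≤ D ^ (7 / 20 : ℝ)
      · left
        exact hF0 d x y hdD hxy h1
      · right
        push Not at h1
        -- x is positive
        have hxpos : 0 < (x : ℝ) := by
          by_contra hneg
          push Not at hneg
          rw [abs_of_nonpos hneg] at h1
          have e1 : (y : ℝ) ^ 2 = (x : ℝ) ^ 3 + d := by exact_mod_cast hxy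
          have e2 : (D ^ (7 / 20 : ℝ)) ^ 3 < (-(x : ℝ)) ^ 3 :=
            pow_lt_pow_left₀ h1 (by positivity) (by norm_num)
          have h2 : (D ^ (7 / 20 : ℝ)) ^ 3 = D * D ^ (1 / 20 : ℝ) := by
            rw [← Real.rpow_natCast, ← Real.rpow_mul hD0.le]
            nth_rewrite 2 [← Real.rpow_one D]
            rw [← Real.rpow_add hD0]
            norm_num
          have e3 : D * 1 ≤ D * D ^ (1 / 20 : ℝ) := by gcongr; linarith
          have e4 : (-(x : ℝ)) ^ 3 = -((x : ℝ) ^ 3) := by ring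
          have e5 := le_abs_self (d : ℝ)
          have e6 := sq_nonneg (y : ℝ)
          rw [h2, e4] at e2
          linarith
        rw [abs_of_pos hxpos] at h1 hx
        by_cases h2 : (x : ℝ) ≤ D ^ (1 / 2 : ℝ)
        · left
          exact hF1 d x y hdD hxy h1.le h2
        · right
          push Not at h2
          by_cases h3 : (x : ℝ) ≤ D ^ (7 / 10 : ℝ)
          · left
            exact hF2 d x y hdD hxy h2.le h3
          · right
            push Not at h3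
            exact hF3 d x y hd0 hdD hxy h3.le hx
    · have p0 : D ^ (7 / 8 : ℝ) ≤ D ^ (1 - τ) :=
        Real.rpow_le_rpow_of_exponent_le hD1 (by linarith)
      have p1 : D ^ (39 / 40 : ℝ) ≤ D ^ (1 - τ) :=
        Real.rpow_le_rpow_of_exponent_le hD1 (by linarith)
      have q1 : D ^ (1 / 2 : ℝ) * (1 + 2 * D / √((D ^ (7 / 20 : ℝ)) ^ 3)) ≤ 3 * D ^ (39 / 40 : ℝ) := by
        have h2 : √((D ^ (7 / 20 : ℝ)) ^ 3) = D ^ (21 / 40 : ℝ) := by
          rw [← Real.rpow_natCast, ← Real.rpow_mul hD0.le, Real.sqrt_eq_rpow,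
            ← Real.rpow_mul hD0.le]
          norm_num
        have h3 : D ^ (1 / 2 : ℝ) * (2 * D / D ^ (21 / 40 : ℝ)) = 2 * D ^ (39 / 40 : ℝ) := by
          have h4 : D ^ (1 / 2 : ℝ) * D = D ^ (39 / 40 : ℝ) * D ^ (21 / 40 : ℝ) := by
            nth_rewrite 2 [← Real.rpow_one D]
            rw [← Real.rpow_add hD0, ← Real.rpow_add hD0]
            norm_num
          have h5 : D ^ (21 / 40 : ℝ) ≠ 0 := by positivity
          field_simp
          linarith
        rw [h2, mul_add, mul_one, h3]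
        have h6 : D ^ (1 / 2 : ℝ) ≤ D ^ (39 / 40 : ℝ) :=
          Real.rpow_le_rpow_of_exponent_le hD1 (by norm_num)
        linarith
      have q2 : D ^ (7 / 10 : ℝ) * (1 + 2 * D / √((D ^ (1 / 2 : ℝ)) ^ 3)) ≤ 3 * D ^ (39 / 40 : ℝ) := by
        have h2 : √((D ^ (1 / 2 : ℝ)) ^ 3) = D ^ (3 / 4 : ℝ) := by
          rw [← Real.rpow_natCast, ← Real.rpow_mul hD0.le, Real.sqrt_eq_rpow,
            ← Real.rpow_mul hD0.le]
          norm_num
        have h3 : D ^ (7 / 10 : ℝ) * (2 * D / D ^ (3 / 4 : ℝ)) = 2 * D ^ (19 / 20 : ℝ) := by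
          have h4 : D ^ (7 / 10 : ℝ) * D = D ^ (19 / 20 : ℝ) * D ^ (3 / 4 : ℝ) := by
            nth_rewrite 2 [← Real.rpow_one D]
            rw [← Real.rpow_add hD0, ← Real.rpow_add hD0]
            norm_num
          have h5 : D ^ (3 / 4 : ℝ) ≠ 0 := by positivity
          field_simp
          linarith
        rw [h2, mul_add, mul_one, h3]
        have h6 : D ^ (7 / 10 : ℝ) ≤ D ^ (39 / 40 : ℝ) :=
          Real.rpow_le_rpow_of_exponent_le hD1 (by norm_num)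
        have h7 : D ^ (19 / 20 : ℝ) ≤ D ^ (39 / 40 : ℝ) :=
          Real.rpow_le_rpow_of_exponent_le hD1 (by norm_num)
        linarith
      have hcard : ((F0 ∪ (F1 ∪ (F2 ∪ F3))).card : ℝ) ≤
          (F0.card : ℝ) + (F1.card + (F2.card + F3.card)) := by
        have h1 := card_union_le F0 (F1 ∪ (F2 ∪ F3))
        have h2 := card_union_le F1 (F2 ∪ F3)
        have h3 := card_union_le F2 F3
        have h4 : (F0 ∪ (F1 ∪ (F2 ∪ F3))).card ≤ F0.card + (F1.card + (F2.card + F3.card)) := by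
          omega
        exact_mod_cast h4
      have hbig : (0 : ℝ) ≤ 3 * 2 ^ 200 * D ^ (1 - τ) := by positivity
      calc ((F0 ∪ (F1 ∪ (F2 ∪ F3))).card : ℝ) ≤
          (F0.card : ℝ) + (F1.card + (F2.card + F3.card)) := hcard
        _ ≤ 15 * D ^ (1 - τ) + (3 * D ^ (1 - τ) + (3 * D ^ (1 - τ) + C * D ^ (1 - τ))) := by
          apply add_le_add
          · linarith
          · apply add_le_add
            · linarith
            · apply add_le_add
              · linarith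
              · exact hc3
        _ = (21 + C) * D ^ (1 - τ) := by ring
        _ ≤ (3 * 2 ^ 200 + (21 + C)) * D ^ (1 - τ) := by
          rw [add_mul]
          linarith
  · push Not at hD
    set N : ℕ := ⌊D⌋₊ with hN
    refine ⟨Icc (-(N : ℤ)) N, ?_, ?_⟩
    · intro d x y _ hdD _ _
      have e1 : ((d.natAbs : ℕ) : ℝ) ≤ D := by
        rw [Nat.cast_natAbs]; push_cast; exact hdD
      have e2 := Nat.le_floor e1
      rw [← hN] at e2
      rw [mem_Icc]
      omega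
    · have h1 : (Icc (-(N : ℤ)) N).card = 2 * N + 1 := by
        rw [Int.card_Icc]; omega
      rw [h1]
      push_cast
      have h2 : (N : ℝ) ≤ D := Nat.floor_le hD0.le
      calc 2 * (N : ℝ) + 1 ≤ 3 * D := by linarith
        _ ≤ 3 * 2 ^ 200 * 1 := by linarith
        _ ≤ (3 * 2 ^ 200 + (21 + C)) * D ^ (1 - τ) := by
          apply mul_le_mul (by linarith) hDτ (by norm_num) (by positivity)

/-- For every `ε > 0` there are `δ > 0` and `C` such that, for all `D ≥ 1`, at most `C D ^ (1 - δ)`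
non-zero integers `d` with `|d| ≤ D` admit an integral point `(x, y)` on `y² = x³ + d` with
`|x| ≤ D ^ (10 / 3 - ε)`. -/
theorem mainB (ε : ℝ) (hε : 0 < ε) : ∃ δ : ℝ, 0 < δ ∧ ∃ C : ℝ, ∀ D : ℝ, 1 ≤ D →
    {d : ℤ | d ≠ 0 ∧ |(d : ℝ)| ≤ D ∧ ∃ x y : ℤ, y ^ 2 = x ^ 3 + d ∧
      |(x : ℝ)| ≤ D ^ (10 / 3 - ε)}.Finite ∧
    ({d : ℤ | d ≠ 0 ∧ |(d : ℝ)| ≤ D ∧ ∃ x y : ℤ, y ^ 2 = x ^ 3 + d ∧
      |(x : ℝ)| ≤ D ^ (10 / 3 - ε)}.ncard : ℝ) ≤ C * D ^ (1 - δ) := by
  set ε' : ℝ := min ε 1 with hε'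
  have hε'0 : 0 < ε' := lt_min hε (by norm_num)
  obtain ⟨C, hC⟩ := mainB_aux ε' hε'0 (min_le_right _ _)
  refine ⟨min (1 / 40) (ε' / 16), lt_min (by norm_num) (by positivity), C, ?_⟩
  intro D hD
  obtain ⟨F, hF, hcard⟩ := hC D hD
  have hsub : {d : ℤ | d ≠ 0 ∧ |(d : ℝ)| ≤ D ∧ ∃ x y : ℤ, y ^ 2 = x ^ 3 + d ∧
      |(x : ℝ)| ≤ D ^ (10 / 3 - ε)} ⊆ (F : Set ℤ) := by
    rintro d ⟨hd0, hdD, x, y, hxy, hx⟩
    apply hF d x y hd0 hdD hxy
    refine le_trans hx ?_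
    apply Real.rpow_le_rpow_of_exponent_le hD
    have := min_le_left ε 1
    linarith
  refine ⟨F.finite_toSet.subset hsub, ?_⟩
  refine le_trans ?_ hcard
  rw [← Set.ncard_coe_finset F]
  exact_mod_cast Set.ncard_le_ncard hsub F.finite_toSet

end Pool.Agent.Helper15.Hall2
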