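import Mathlib
import Pool.Agent.Helper15.HallFinalC

set_option autoImplicit false

namespace Pool.Agent.Helper15.HallAlmostAllResult

/-- Almost all Mordell curves have no integral point with `|x| ≤ |d| ^ (10 / 3 - ε)`: for every
`ε > 0` there are `δ > 0` and `C` such that, for all real `D ≥ 1`, at most `C D ^ (1 - δ)` non-zero
integers `d` with `|d| ≤ D` admit integers `x`, `y` with `y ^ 2 = x ^ 3 + d` and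
`|x| ≤ D ^ (10 / 3 - ε)`. -/
theorem result : ∀ ε : ℝ, 0 < ε → ∃ δ : ℝ, 0 < δ ∧ ∃ C : ℝ, ∀ D : ℝ, 1 ≤ D →
    {d : ℤ | d ≠ 0 ∧ |(d : ℝ)| ≤ D ∧ ∃ x y : ℤ, y ^ 2 = x ^ 3 + d ∧
      |(x : ℝ)| ≤ D ^ (10 / 3 - ε)}.Finite ∧
    ({d : ℤ | d ≠ 0 ∧ |(d : ℝ)| ≤ D ∧ ∃ x y : ℤ, y ^ 2 = x ^ 3 + d ∧
      |(x : ℝ)| ≤ D ^ (10 / 3 - ε)}.ncard : ℝ) ≤ C * D ^ (1 - δ) :=
  fun ε hε => Helper15.Hall2.mainB ε hε

end Pool.Agent.Helper15.HallAlmostAllResult
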