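import Mathlib
import Pool.Agent.Helper15.HallKeys

set_option autoImplicit false

namespace Pool.Agent.Helper15.Hall

open Finset

/-- Fibre over fixed `a`, `b = A mod a` and `G`. -/
theorem card_fixed_abG (Q K a b G : ℤ) (hK0 : 0 ≤ K) (T : ℕ) (F : Finset ℤ) (Y Af : ℤ → ℤ)
    (hD : ∀ x ∈ F, Datum Q K x (Y x) a (Af x))
    (hb : ∀ x ∈ F, Af x % a = b)
    (hG : ∀ x ∈ F, Gz x (Y x) a (Af x) = G)
    (hT : ∀ n : ℕ, n ≠ 0 → (n : ℤ) ≤ 30 * Q ^ 2 → n.divisors.card ≤ T) :
    (F.card : ℤ) ≤ 23050 * K * (Q / a) ^ 2 * T := by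
  rcases F.eq_empty_or_nonempty with rfl | ⟨x₀, hx₀⟩
  · simp only [card_empty, Nat.cast_zero]
    positivity
  have hD0 := hD x₀ hx₀
  have ha1 := hD0.ha1
  have haQ := hD0.haQ
  have hQ := hD0.hQ
  have hK := hD0.hK
  set q : ℤ := Q / a with hq
  have hq1 : 1 ≤ q := by
    rw [hq, Int.le_ediv_iff_mul_le (by omega)]
    omega
  have hQq : Q ≤ 2 * a * q := by
    have h1 := Int.lt_ediv_add_one_mul_self Q (by omega : 0 < a)
    rw [← hq] at h1
    nlinarith
  have haq : a * q ≤ Q := by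
    rw [hq]
    exact Int.mul_ediv_self_le (by omega)
  -- congruence
  have hcong : ∀ x ∈ F, ∀ x' ∈ F, a ^ 2 ∣ 4 * (kz x (Y x) a (Af x) - kz x' (Y x') a (Af x')) := by
    intro x hx x' hx'
    apply k_dvd (hD x' hx').hco
    · apply Int.ModEq.dvd
      unfold Int.ModEq
      rw [hb x hx, hb x' hx']
    · rw [hG x hx, hG x' hx']
  have hTk : ∀ x ∈ F, (kz x (Y x) a (Af x)).toNat.divisors.card ≤ T := by
    intro x hx
    have h1 := (hD x hx).k_pos
    have h2 := (hD x hx).k_le
    apply hT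
    · omega
    · rw [Int.toNat_of_nonneg (by omega)]
      nlinarith
  have ha2 : (0 : ℤ) < a ^ 2 := by positivity
  -- the part with small k
  set F1 := F.filter (fun x => kz x (Y x) a (Af x) < 64 * K * a ^ 2) with hF1
  set F2 := F.filter (fun x => ¬ kz x (Y x) a (Af x) < 64 * K * a ^ 2) with hF2
  have hsplit : F.card = F1.card + F2.card := by
    rw [hF1, hF2, card_filter_add_card_filter_not]
  have hc1 : F1.card ≤ ((4 * (21 * q.toNat ^ 2) + 1) * T) *
      (F1.image (fun x => kz x (Y x) a (Af x))).card := by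
    apply card_le_mul_card_image
    intro k hk
    rw [mem_image] at hk
    obtain ⟨x₁, hx₁, hkx₁⟩ := hk
    have hx₁F : x₁ ∈ F := (mem_filter.1 hx₁).1
    refine le_trans (fam_card Q K a G k (21 * q.toNat ^ 2) _ Y Af ?_ ?_ ?_ ?_) ?_
    · intro x hx
      exact hD x (mem_filter.1 (mem_filter.1 hx).1).1
    · intro x hx
      exact (mem_filter.1 hx).2
    · intro x hx
      exact hG x (mem_filter.1 (mem_filter.1 hx).1).1
    · intro x hx x' hx' e he
      have hxF := (mem_filter.1 (mem_filter.1 hx).1).1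
      have hxF' := (mem_filter.1 (mem_filter.1 hx').1).1
      have hkx := (mem_filter.1 hx).2
      have hkx' := (mem_filter.1 hx').2
      have := e_general (hD x hxF) (hD x' hxF') (by rw [hkx, hkx']) q hq1 hQq e he
      rw [hkx] at this
      have hqn : ((q.toNat : ℕ) : ℤ) = q := Int.toNat_of_nonneg (by omega)
      push_cast
      rw [hqn]
      exact this
    · apply Nat.mul_le_mul_left
      rw [← hkx₁]
      exact hTk x₁ hx₁F
  have hc1' : (((F1.image (fun x => kz x (Y x) a (Af x))).card : ℕ) : ℤ) ≤ 257 * K := by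
    have h1 := card_le_of_modEq' (a ^ 2) ha2 4 (by norm_num) (256 * K * a ^ 2) (by positivity)
      (F1.image (fun x => kz x (Y x) a (Af x))) ?_ ?_ ?_
    · rw [Int.mul_ediv_cancel _ ha2.ne'] at h1
      linarith
    · intro z hz
      rw [mem_image] at hz
      obtain ⟨x, hx, rfl⟩ := hz
      exact (hD x (mem_filter.1 hx).1).k_nonneg
    · intro z hz
      rw [mem_image] at hz
      obtain ⟨x, hx, rfl⟩ := hz
      have := (mem_filter.1 hx).2
      linarith
    · intro z hz w hw
      rw [mem_image] at hz hw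
      obtain ⟨x, hx, rfl⟩ := hz
      obtain ⟨x', hx', rfl⟩ := hw
      exact hcong x (mem_filter.1 hx).1 x' (mem_filter.1 hx').1
  have hc2 : F2.card ≤ ((4 * 1 + 1) * T) *
      (F2.image (fun x => kz x (Y x) a (Af x))).card := by
    apply card_le_mul_card_image
    intro k hk
    rw [mem_image] at hk
    obtain ⟨x₁, hx₁, hkx₁⟩ := hk
    have hx₁F : x₁ ∈ F := (mem_filter.1 hx₁).1
    refine le_trans (fam_card Q K a G k 1 _ Y Af ?_ ?_ ?_ ?_) ?_
    · intro x hx
      exact hD x (mem_filter.1 (mem_filter.1 hx).1).1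
    · intro x hx
      exact (mem_filter.1 hx).2
    · intro x hx
      exact hG x (mem_filter.1 (mem_filter.1 hx).1).1
    · intro x hx x' hx' e he
      have hxF := (mem_filter.1 (mem_filter.1 hx).1).1
      have hxF' := (mem_filter.1 (mem_filter.1 hx').1).1
      have hbig := (mem_filter.1 (mem_filter.1 hx).1).2
      have hkx := (mem_filter.1 hx).2
      have hkx' := (mem_filter.1 hx').2
      have := e_large (hD x hxF) (hD x' hxF') (by rw [hkx, hkx'])
        (by rw [hG x hxF, hG x' hxF']) (not_lt.1 hbig) e he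
      rw [hkx] at this
      exact_mod_cast this
    · apply Nat.mul_le_mul_left
      rw [← hkx₁]
      exact hTk x₁ hx₁F
  have hc2' : (((F2.image (fun x => kz x (Y x) a (Af x))).card : ℕ) : ℤ) ≤ 241 * q := by
    have h1 := card_le_of_modEq' (a ^ 2) ha2 4 (by norm_num) (240 * q * a ^ 2) (by positivity)
      (F2.image (fun x => kz x (Y x) a (Af x))) ?_ ?_ ?_
    · rw [Int.mul_ediv_cancel _ ha2.ne'] at h1
      linarith
    · intro z hz
      rw [mem_image] at hz
      obtain ⟨x, hx, rfl⟩ := hz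
      exact (hD x (mem_filter.1 hx).1).k_nonneg
    · intro z hz
      rw [mem_image] at hz
      obtain ⟨x, hx, rfl⟩ := hz
      have h2 := (hD x (mem_filter.1 hx).1).k_le
      nlinarith
    · intro z hz w hw
      rw [mem_image] at hz hw
      obtain ⟨x, hx, rfl⟩ := hz
      obtain ⟨x', hx', rfl⟩ := hw
      exact hcong x (mem_filter.1 hx).1 x' (mem_filter.1 hx').1
  have hqn : ((q.toNat : ℕ) : ℤ) = q := Int.toNat_of_nonneg (by omega)
  have hT0 : (0 : ℤ) ≤ T := by positivity
  have hc1z : (F1.card : ℤ) ≤ ((4 * (21 * q ^ 2) + 1) * T) * (257 * K) := by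
    have h1 : (F1.card : ℤ) ≤ ((4 * (21 * q ^ 2) + 1) * T) *
        ((F1.image (fun x => kz x (Y x) a (Af x))).card : ℕ) := by
      have := hc1
      zify at this
      rw [hqn] at this
      exact this
    refine le_trans h1 ?_
    apply mul_le_mul_of_nonneg_left hc1'
    positivity
  have hc2z : (F2.card : ℤ) ≤ (5 * T) * (241 * q) := by
    have h1 : (F2.card : ℤ) ≤ (5 * T) *
        ((F2.image (fun x => kz x (Y x) a (Af x))).card : ℕ) := by
      have := hc2
      zify at this
      linarith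
    refine le_trans h1 ?_
    apply mul_le_mul_of_nonneg_left hc2'
    positivity
  have hfin : (F.card : ℤ) = F1.card + F2.card := by exact_mod_cast hsplit
  rw [hfin]
  have hq2 : q ≤ q ^ 2 := by nlinarith
  have hTK : (0 : ℤ) ≤ T * K := mul_nonneg hT0 (by omega)
  have e1 : ((4 * (21 * q ^ 2) + 1) * T) * (257 * K) ≤ 21845 * (T * K * q ^ 2) := by
    have : 1 ≤ q ^ 2 := by nlinarith
    nlinarith
  have e2 : (5 * (T : ℤ)) * (241 * q) ≤ 1205 * (T * K * q ^ 2) := by
    have h1 : (T : ℤ) * q ≤ T * K * q ^ 2 := by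
      have h2 : (T : ℤ) * 1 * q ≤ T * K * q ^ 2 := by
        apply mul_le_mul (mul_le_mul_of_nonneg_left hK hT0) hq2 (by omega) hTK
      linarith
    linarith
  linarith

/-- Fibre over fixed `a`. -/
theorem card_fixed_a (Q K a : ℤ) (hK0 : 0 ≤ K) (ha0 : 0 ≤ a) (T : ℕ) (F : Finset ℤ)
    (Y Af : ℤ → ℤ)
    (hD : ∀ x ∈ F, Datum Q K x (Y x) a (Af x))
    (hT : ∀ n : ℕ, n ≠ 0 → (n : ℤ) ≤ 30 * Q ^ 2 → n.divisors.card ≤ T) :
    (F.card : ℤ) ≤ 2328050 * K ^ 2 * T * (a * (Q / a) ^ 2) := by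
  rcases F.eq_empty_or_nonempty with rfl | ⟨x₀, hx₀⟩
  · simp only [card_empty, Nat.cast_zero]
    positivity
  have hD0 := hD x₀ hx₀
  have ha1 := hD0.ha1
  have haQ := hD0.haQ
  have hQ := hD0.hQ
  have hK := hD0.hK
  have hapos : 0 < a := by omega
  set W : ℤ := 23050 * K * (Q / a) ^ 2 * T with hW
  have hW0 : 0 ≤ W := by positivity
  have hWn : ((W.toNat : ℕ) : ℤ) = W := Int.toNat_of_nonneg hW0
  have hKn : (((101 * K).toNat : ℕ) : ℤ) = 101 * K := Int.toNat_of_nonneg (by omega)
  have han : ((a.toNat : ℕ) : ℤ) = a := Int.toNat_of_nonneg ha0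
  have hmaps : ∀ x ∈ F, Af x % a ∈ Ico (0 : ℤ) a := by
    intro x _
    rw [mem_Ico]
    exact ⟨Int.emod_nonneg _ hapos.ne', Int.emod_lt_of_pos _ hapos⟩
  have h1 : F.card ≤ (W.toNat * (101 * K).toNat) * (Ico (0 : ℤ) a).card := by
    refine card_le_mul_card_image_of_maps_to hmaps _ ?_
    intro b _
    set Fb := F.filter (fun x => Af x % a = b) with hFb
    have h2 : Fb.card ≤ W.toNat * (Fb.image (fun x => Gz x (Y x) a (Af x))).card := by
      apply card_le_mul_card_image
      intro G _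
      have h3 := card_fixed_abG Q K a b G hK0 T
        (Fb.filter (fun x => Gz x (Y x) a (Af x) = G)) Y Af
        (fun x hx => hD x (mem_filter.1 (mem_filter.1 hx).1).1)
        (fun x hx => (mem_filter.1 (mem_filter.1 hx).1).2)
        (fun x hx => (mem_filter.1 hx).2) hT
      rw [← hW, ← hWn] at h3
      exact_mod_cast h3
    have h4 : (((Fb.image (fun x => Gz x (Y x) a (Af x))).card : ℕ) : ℤ) ≤ 101 * K := by
      have h5 := card_le_of_modEq' a hapos 1 (by norm_num) (100 * K * a) (by positivity)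
        ((Fb.image (fun x => Gz x (Y x) a (Af x))).image (fun G => G + 50 * K * a)) ?_ ?_ ?_
      · rw [Int.mul_ediv_cancel _ hapos.ne'] at h5
        rw [card_image_of_injective _ (add_left_injective _)] at h5
        linarith
      · intro z hz
        rw [mem_image] at hz
        obtain ⟨G, hGm, rfl⟩ := hz
        rw [mem_image] at hGm
        obtain ⟨x, hx, rfl⟩ := hGm
        have := abs_le.1 (hD x (mem_filter.1 hx).1).G_le
        linarith [this.1]
      · intro z hz
        rw [mem_image] at hz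
        obtain ⟨G, hGm, rfl⟩ := hz
        rw [mem_image] at hGm
        obtain ⟨x, hx, rfl⟩ := hGm
        have := abs_le.1 (hD x (mem_filter.1 hx).1).G_le
        linarith [this.2]
      · intro z hz w hw
        rw [mem_image] at hz hw
        obtain ⟨G, hGm, rfl⟩ := hz
        obtain ⟨G', hGm', rfl⟩ := hw
        rw [mem_image] at hGm hGm'
        obtain ⟨x, hx, rfl⟩ := hGm
        obtain ⟨x', hx', rfl⟩ := hGm'
        have e1 := G_cong x (Y x) a (Af x)
        have e2 := G_cong x' (Y x') a (Af x')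
        have e3 : a ∣ Af x - Af x' := by
          apply Int.ModEq.dvd
          unfold Int.ModEq
          rw [(mem_filter.1 hx).2, (mem_filter.1 hx').2]
        have e4 : a ∣ (Af x') ^ 4 - (Af x) ^ 4 := by
          have : (Af x') ^ 4 - (Af x) ^ 4 = (Af x - Af x') *
            (-(Af x' + Af x) * ((Af x') ^ 2 + (Af x) ^ 2)) := by ring
          rw [this]
          exact e3.mul_right _
        have e5 : 1 * (Gz x (Y x) a (Af x) + 50 * K * a - (Gz x' (Y x') a (Af x') + 50 * K * a)) =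
          ((Af x') ^ 4 - (Af x) ^ 4) + a * (a * ((3 * a ^ 2 * x ^ 2 - 6 * Af x ^ 2 * x -
            4 * Af x * (2 * a * Y x - 3 * Af x * x)) - (3 * a ^ 2 * x' ^ 2 - 6 * Af x' ^ 2 * x' -
            4 * Af x' * (2 * a * Y x' - 3 * Af x' * x')))) := by
          rw [e1, e2]; ring
        rw [e5]
        exact dvd_add e4 (dvd_mul_right _ _)
    refine le_trans h2 ?_
    apply Nat.mul_le_mul_left
    rw [← hKn] at h4
    exact_mod_cast h4
  have h6 : (Ico (0 : ℤ) a).card = a.toNat := by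
    rw [Int.card_Ico]; simp
  rw [h6] at h1
  have h7 : (F.card : ℤ) ≤ W * (101 * K) * a := by
    have h8 : (F.card : ℤ) ≤ (W.toNat : ℤ) * ((101 * K).toNat : ℤ) * (a.toNat : ℤ) := by
      exact_mod_cast h1
    rw [hWn, hKn, han] at h8
    exact h8
  calc (F.card : ℤ) ≤ W * (101 * K) * a := h7
    _ = 2328050 * K ^ 2 * T * (a * (Q / a) ^ 2) := by rw [hW]; ring

/-- The count for one block. -/
theorem card_block (Q K : ℤ) (hK0 : 0 ≤ K) (T : ℕ) (F : Finset ℤ) (Y af Af : ℤ → ℤ)
    (hD : ∀ x ∈ F, Datum Q K x (Y x) (af x) (Af x))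
    (hT : ∀ n : ℕ, n ≠ 0 → (n : ℤ) ≤ 30 * Q ^ 2 → n.divisors.card ≤ T) :
    (F.card : ℤ) ≤ 2328050 * K ^ 2 * T * ∑ a ∈ Icc 1 Q, a * (Q / a) ^ 2 := by
  have hmaps : ∀ x ∈ F, af x ∈ Icc 1 Q := fun x hx =>
    mem_Icc.2 ⟨(hD x hx).ha1, (hD x hx).haQ⟩
  rw [card_eq_sum_card_fiberwise hmaps]
  push_cast
  rw [mul_sum]
  apply sum_le_sum
  intro a ha
  rw [mem_Icc] at ha
  apply card_fixed_a Q K a hK0 (by omega) T _ Y Af _ hT
  intro x hx
  have h1 := hD x (mem_filter.1 hx).1
  have h2 := (mem_filter.1 hx).2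
  rw [h2] at h1
  exact h1

end Pool.Agent.Helper15.Hall
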