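import Mathlib
import Pool.Agent.Helper15.HallSum
import Pool.Agent.Helper15.HallDiv

set_option autoImplicit false

namespace Pool.Agent.Helper15.Hall

open Finset

/-- `x` is `K`-exceptional: some `y` has `0 < |x³ - y²| ≤ K √|x|`. -/
def Exc (K x : ℤ) : Prop := ∃ y : ℤ, x ^ 3 - y ^ 2 ≠ 0 ∧ (x ^ 3 - y ^ 2) ^ 2 ≤ K ^ 2 * |x|

lemma exists_datum {Q K x : ℤ} (hQ : 1000 ≤ Q) (hK : 1 ≤ K) (hKQ : K ≤ Q ^ 2)
    (hx1 : Q ^ 6 ≤ x) (hx2 : x ≤ 64 * Q ^ 6) (h : Exc K x) :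
    ∃ y a A : ℤ, Datum Q K x y a A := by
  obtain ⟨y, hd0, hd⟩ := h
  have hxpos : 0 < x := by
    have : 0 < Q ^ 6 := by positivity
    omega
  rw [abs_of_pos hxpos] at hd
  have hy0 : y ≠ 0 := by
    rintro rfl
    have h1 : x * x ^ 5 ≤ x * (Q ^ 2) ^ 2 := by
      calc x * x ^ 5 = (x ^ 3 - 0 ^ 2) ^ 2 := by ring
        _ ≤ K ^ 2 * x := hd
        _ ≤ (Q ^ 2) ^ 2 * x := by gcongr
        _ = x * (Q ^ 2) ^ 2 := by ring
    have h2 : x ^ 5 ≤ (Q ^ 2) ^ 2 := le_of_mul_le_mul_left h1 hxpos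
    have h3 : Q ^ 6 * 1 ≤ x ^ 5 := by
      have : x * 1 ≤ x * x ^ 4 := by
        apply mul_le_mul_of_nonneg_left _ hxpos.le
        exact one_le_pow₀ (by omega)
      calc Q ^ 6 * 1 ≤ x * 1 := by omega
        _ ≤ x * x ^ 4 := this
        _ = x ^ 5 := by ring
    have h4 : Q ^ 4 * 2 ≤ Q ^ 6 := by
      have : Q ^ 4 * 2 ≤ Q ^ 4 * Q ^ 2 := by
        apply mul_le_mul_of_nonneg_left _ (by positivity)
        nlinarith
      calc Q ^ 4 * 2 ≤ Q ^ 4 * Q ^ 2 := this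
        _ = Q ^ 6 := by ring
    have h5 : 0 < Q ^ 4 := by positivity
    have h6 : (Q ^ 2) ^ 2 = Q ^ 4 := by ring
    omega
  have hQn : (0 : ℕ) < Q.toNat := by omega
  have hQz : ((Q.toNat : ℕ) : ℤ) = Q := Int.toNat_of_nonneg (by omega)
  have hQr : ((Q.toNat : ℕ) : ℝ) = (Q : ℝ) := by exact_mod_cast congrArg (Int.cast : ℤ → ℝ) hQz
  obtain ⟨r, hr1, hr2⟩ := Real.exists_rat_abs_sub_le_and_den_le (√(x : ℝ)) hQn
  refine ⟨|y|, r.den, r.num, ⟨hQ, hK, hKQ, hx1, hx2, ?_, ?_, ?_, ?_, ?_, ?_, ?_⟩⟩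
  · have := abs_pos.2 hy0
    omega
  · rwa [sq_abs]
  · rwa [sq_abs]
  · have := r.den_pos
    omega
  · rw [← hQz]
    exact_mod_cast hr2
  · rw [Int.isCoprime_iff_gcd_eq_one]
    exact r.reduced
  · have hden : (0 : ℝ) < r.den := by exact_mod_cast r.den_pos
    have h1 : (((r.den : ℤ) : ℝ)) * √(x : ℝ) - (r.num : ℝ) = r.den * (√(x : ℝ) - r) := by
      have h2 : (r : ℝ) = r.num / r.den := Rat.cast_def r
      rw [h2]
      push_cast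
      field_simp
    rw [h1, abs_mul, abs_of_pos hden]
    rw [hQr] at hr1
    have hQ0 : (0 : ℝ) < Q := by
      have : (0 : ℤ) < Q := by omega
      exact_mod_cast this
    calc (r.den : ℝ) * |√(x : ℝ) - r| * Q ≤ (r.den : ℝ) * (1 / ((Q + 1) * r.den)) * Q := by
          gcongr
      _ = Q / (Q + 1) := by field_simp
      _ ≤ 1 := by
        rw [div_le_one (by linarith)]
        linarith

open Classical in
/-- exceptional `x` in `[Q⁶, 64 Q⁶]` -/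
noncomputable def block (Q K : ℤ) : Finset ℤ := (Icc (Q ^ 6) (64 * Q ^ 6)).filter (fun x => Exc K x)

lemma mem_block {Q K x : ℤ} : x ∈ block Q K ↔ (Q ^ 6 ≤ x ∧ x ≤ 64 * Q ^ 6) ∧ Exc K x := by
  classical
  unfold block
  rw [mem_filter, mem_Icc]

theorem card_block' (Q K : ℤ) (hQ : 1000 ≤ Q) (hK : 1 ≤ K) (hKQ : K ≤ Q ^ 2) (T : ℕ)
    (hT : ∀ n : ℕ, n ≠ 0 → (n : ℤ) ≤ 30 * Q ^ 2 → n.divisors.card ≤ T) :
    ((block Q K).card : ℤ) ≤ 2328050 * K ^ 2 * T * ∑ a ∈ Icc 1 Q, a * (Q / a) ^ 2 := by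
  have h : ∀ x ∈ block Q K, ∃ y a A : ℤ, Datum Q K x y a A := by
    intro x hx
    rw [mem_block] at hx
    exact exists_datum hQ hK hKQ hx.1.1 hx.1.2 hx.2
  choose! Y af Af hD using h
  exact card_block Q K (by omega) T _ Y af Af hD hT

lemma sum_bound (Q : ℕ) (hQ : 1 ≤ Q) :
    ((∑ a ∈ Icc (1 : ℤ) Q, a * ((Q : ℤ) / a) ^ 2 : ℤ) : ℝ) ≤ (Q : ℝ) ^ 2 * (1 + Real.log Q) := by
  have h1 : (∑ a ∈ Icc (1 : ℤ) Q, a * ((Q : ℤ) / a) ^ 2 : ℤ) =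
      ∑ a ∈ Icc (1 : ℕ) Q, ((a : ℤ) * ((Q : ℤ) / (a : ℤ)) ^ 2) := by
    symm
    apply sum_bij (fun (a : ℕ) _ => (a : ℤ))
    · intro a ha
      rw [mem_Icc] at ha ⊢
      constructor <;> [exact_mod_cast ha.1; exact_mod_cast ha.2]
    · intro a _ b _ hab
      exact_mod_cast hab
    · intro b hb
      rw [mem_Icc] at hb
      refine ⟨b.toNat, ?_, ?_⟩
      · rw [mem_Icc]; omega
      · exact Int.toNat_of_nonneg (by omega)
    · intro a _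
      rfl
  rw [h1]
  push_cast
  have h2 : ∀ a ∈ Icc (1 : ℕ) Q, ((a : ℝ) * ((((Q : ℤ) / (a : ℤ)) : ℤ) : ℝ) ^ 2) ≤
      (Q : ℝ) ^ 2 * ((a : ℝ)⁻¹) := by
    intro a ha
    rw [mem_Icc] at ha
    have ha0 : (0 : ℝ) < a := by exact_mod_cast ha.1
    have h3 : ((((Q : ℤ) / (a : ℤ)) : ℤ) : ℝ) ≤ (Q : ℝ) / a := by
      rw [le_div_iff₀ ha0]
      have : ((Q : ℤ) / (a : ℤ)) * (a : ℤ) ≤ Q := Int.ediv_mul_le _ (by
        have := ha.1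
        omega)
      exact_mod_cast this
    have h4 : (0 : ℝ) ≤ ((((Q : ℤ) / (a : ℤ)) : ℤ) : ℝ) := by
      have : (0 : ℤ) ≤ (Q : ℤ) / (a : ℤ) := by positivity
      exact_mod_cast this
    calc (a : ℝ) * ((((Q : ℤ) / (a : ℤ)) : ℤ) : ℝ) ^ 2 ≤ a * ((Q : ℝ) / a) ^ 2 := by gcongr
      _ = (Q : ℝ) ^ 2 * ((a : ℝ)⁻¹) := by field_simp
  have h3 : ∑ a ∈ Icc (1 : ℕ) Q, ((a : ℝ) * ((((Q : ℤ) / (a : ℤ)) : ℤ) : ℝ) ^ 2) ≤
      (Q : ℝ) ^ 2 * ∑ a ∈ Icc (1 : ℕ) Q, ((a : ℝ)⁻¹) := by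
    rw [mul_sum]
    exact sum_le_sum h2
  have h4 : ∑ a ∈ Icc (1 : ℕ) Q, ((a : ℝ)⁻¹) ≤ 1 + Real.log Q := by
    have h5 := harmonic_le_one_add_log Q
    rw [harmonic_eq_sum_Icc] at h5
    push_cast at h5
    exact h5
  calc ∑ a ∈ Icc (1 : ℕ) Q, ((a : ℝ) * ((((Q : ℤ) / (a : ℤ)) : ℤ) : ℝ) ^ 2)
      ≤ (Q : ℝ) ^ 2 * ∑ a ∈ Icc (1 : ℕ) Q, ((a : ℝ)⁻¹) := h3
    _ ≤ (Q : ℝ) ^ 2 * (1 + Real.log Q) := by gcongr

/-- Final bound for one block. -/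
theorem block_bound (η : ℝ) (hη : 0 < η) : ∃ C : ℝ, 1 ≤ C ∧ ∀ Q : ℕ, 1 ≤ Q → ∀ K : ℤ, 1 ≤ K →
    ((block Q K).card : ℝ) ≤ C * (K : ℝ) ^ 2 * (Q : ℝ) ^ (2 + η) := by
  obtain ⟨C₁, hC₁, hdiv⟩ := card_divisors_le_uniform (η / 4) (by positivity)
  set C₂ : ℝ := 2328050 * (C₁ * 30 ^ (η / 4) * (1 + 2 / η)) with hC₂
  have hC₂0 : 0 ≤ C₂ := by positivity
  set C : ℝ := max C₂ (64 * 1000 ^ 6 + 1) with hC
  refine ⟨C, ?_, ?_⟩
  · refine le_trans ?_ (le_max_right _ _)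
    norm_num
  intro Q hQ K hK
  have hQr : (1 : ℝ) ≤ Q := by exact_mod_cast hQ
  have hKr : (1 : ℝ) ≤ K := by exact_mod_cast hK
  have hQ2 : (Q : ℝ) ^ (2 + η) = (Q : ℝ) ^ 2 * (Q : ℝ) ^ η := by
    rw [Real.rpow_add (by positivity)]
    norm_num
  have hQη : 1 ≤ (Q : ℝ) ^ η := Real.one_le_rpow hQr hη.le
  have hC64 : (64 * 1000 ^ 6 + 1 : ℝ) ≤ C := le_max_right _ _
  -- trivial bound
  have htriv : ((block Q K).card : ℝ) ≤ 64 * (Q : ℝ) ^ 6 := by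
    have h1 : (block Q K).card ≤ (Icc (1 : ℤ) (64 * (Q : ℤ) ^ 6)).card := by
      apply card_le_card
      intro x hx
      rw [mem_block] at hx
      rw [mem_Icc]
      refine ⟨le_trans ?_ hx.1.1, hx.1.2⟩
      have : (1 : ℤ) ≤ Q := by exact_mod_cast hQ
      exact one_le_pow₀ this
    have h2 : (Icc (1 : ℤ) (64 * (Q : ℤ) ^ 6)).card = 64 * Q ^ 6 := by
      rw [Int.card_Icc]
      have : (64 * (Q : ℤ) ^ 6 + 1 - 1) = ((64 * Q ^ 6 : ℕ) : ℤ) := by push_cast; ring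
      rw [this, Int.toNat_natCast]
    rw [h2] at h1
    exact_mod_cast h1
  by_cases hQ1000 : 1000 ≤ Q
  · by_cases hKQ : K ≤ (Q : ℤ) ^ 2
    · -- main case
      set T : ℕ := ⌊C₁ * (30 * (Q : ℝ) ^ 2) ^ (η / 4)⌋₊ with hT
      have hTd : ∀ n : ℕ, n ≠ 0 → (n : ℤ) ≤ 30 * (Q : ℤ) ^ 2 → n.divisors.card ≤ T := by
        intro n hn hnQ
        rw [hT]
        apply Nat.le_floor
        have h1 := hdiv (30 * Q ^ 2) n hn (by exact_mod_cast hnQ)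
        push_cast at h1
        exact h1
      have h1 := card_block' Q K (by exact_mod_cast hQ1000) hK hKQ T hTd
      have h2 := sum_bound Q hQ
      have h3 : ((block Q K).card : ℝ) ≤ 2328050 * (K : ℝ) ^ 2 * T *
          ((∑ a ∈ Icc (1 : ℤ) Q, a * ((Q : ℤ) / a) ^ 2 : ℤ) : ℝ) := by
        exact_mod_cast h1
      have hTle : (T : ℝ) ≤ C₁ * (30 * (Q : ℝ) ^ 2) ^ (η / 4) := Nat.floor_le (by positivity)
      have h4 : (30 * (Q : ℝ) ^ 2) ^ (η / 4) = 30 ^ (η / 4) * (Q : ℝ) ^ (η / 2) := by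
        rw [Real.mul_rpow (by norm_num) (by positivity)]
        congr 1
        rw [← Real.rpow_natCast, ← Real.rpow_mul (by positivity)]
        congr 1
        push_cast
        ring
      have h5 : 1 + Real.log Q ≤ (1 + 2 / η) * (Q : ℝ) ^ (η / 2) := by
        have e1 := Real.log_le_rpow_div (by positivity : (0 : ℝ) ≤ (Q : ℝ))
          (by positivity : 0 < η / 2)
        have e2 : 1 ≤ (Q : ℝ) ^ (η / 2) := Real.one_le_rpow hQr (by positivity)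
        have e3 : (Q : ℝ) ^ (η / 2) / (η / 2) = 2 / η * (Q : ℝ) ^ (η / 2) := by
          field_simp
        rw [e3] at e1
        linarith
      have hlog : 0 ≤ Real.log Q := Real.log_nonneg hQr
      have h6 : ((block Q K).card : ℝ) ≤ 2328050 * (K : ℝ) ^ 2 *
          (C₁ * (30 ^ (η / 4) * (Q : ℝ) ^ (η / 2))) *
          ((Q : ℝ) ^ 2 * ((1 + 2 / η) * (Q : ℝ) ^ (η / 2))) := by
        rw [h4] at hTle
        refine le_trans h3 ?_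
        have e1 : ((∑ a ∈ Icc (1 : ℤ) Q, a * ((Q : ℤ) / a) ^ 2 : ℤ) : ℝ) ≤
            ((Q : ℝ) ^ 2 * ((1 + 2 / η) * (Q : ℝ) ^ (η / 2))) := by
          refine le_trans h2 ?_
          gcongr
        have e2 : 2328050 * (K : ℝ) ^ 2 * T ≤ 2328050 * (K : ℝ) ^ 2 *
            (C₁ * (30 ^ (η / 4) * (Q : ℝ) ^ (η / 2))) := by
          gcongr
        calc 2328050 * (K : ℝ) ^ 2 * T *
            ((∑ a ∈ Icc (1 : ℤ) Q, a * ((Q : ℤ) / a) ^ 2 : ℤ) : ℝ)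
            ≤ 2328050 * (K : ℝ) ^ 2 * T *
              ((Q : ℝ) ^ 2 * ((1 + 2 / η) * (Q : ℝ) ^ (η / 2))) := by gcongr
          _ ≤ _ := by gcongr
      have h7 : (Q : ℝ) ^ η = (Q : ℝ) ^ (η / 2) * (Q : ℝ) ^ (η / 2) := by
        rw [← Real.rpow_add (by positivity)]
        congr 1
        ring
      calc ((block Q K).card : ℝ) ≤ 2328050 * (K : ℝ) ^ 2 *
          (C₁ * (30 ^ (η / 4) * (Q : ℝ) ^ (η / 2))) *
          ((Q : ℝ) ^ 2 * ((1 + 2 / η) * (Q : ℝ) ^ (η / 2))) := h6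
        _ = C₂ * (K : ℝ) ^ 2 * (Q : ℝ) ^ (2 + η) := by
          rw [hQ2, h7, hC₂]; ring
        _ ≤ C * (K : ℝ) ^ 2 * (Q : ℝ) ^ (2 + η) := by
          have : C₂ ≤ C := le_max_left _ _
          gcongr
    · -- K > Q²
      push Not at hKQ
      have hKQr : (Q : ℝ) ^ 2 ≤ K := by exact_mod_cast hKQ.le
      have h1 : ((Q : ℝ) ^ 2) ^ 2 ≤ (K : ℝ) ^ 2 := by gcongr
      calc ((block Q K).card : ℝ) ≤ 64 * (Q : ℝ) ^ 6 := htriv
        _ = 64 * ((Q : ℝ) ^ 2) ^ 2 * ((Q : ℝ) ^ 2 * 1) := by ring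
        _ ≤ C * (K : ℝ) ^ 2 * ((Q : ℝ) ^ 2 * (Q : ℝ) ^ η) := by
          have : (64 : ℝ) ≤ C := by
            refine le_trans ?_ hC64
            norm_num
          gcongr
        _ = C * (K : ℝ) ^ 2 * (Q : ℝ) ^ (2 + η) := by rw [hQ2]
  · push Not at hQ1000
    have hQ3 : (Q : ℝ) ≤ 1000 := by exact_mod_cast hQ1000.le
    calc ((block Q K).card : ℝ) ≤ 64 * (Q : ℝ) ^ 6 := htriv
      _ ≤ 64 * 1000 ^ 6 := by gcongr
      _ ≤ C := by linarith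
      _ = C * 1 * 1 := by ring
      _ ≤ C * (K : ℝ) ^ 2 * (Q : ℝ) ^ (2 + η) := by
        have e1 : 1 ≤ (K : ℝ) ^ 2 := one_le_pow₀ hKr
        have e2 : 1 ≤ (Q : ℝ) ^ (2 + η) := Real.one_le_rpow hQr (by positivity)
        have e3 : 0 ≤ C := by
          refine le_trans ?_ hC64
          norm_num
        gcongr

end Pool.Agent.Helper15.Hall
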