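import Mathlib
import Pool.Agent.Helper15.HallFinalA

set_option autoImplicit false

namespace Pool.Agent.Helper15.Hall2.ExceptionalSet

/-- Exceptional set in Hall's conjecture: for every `ε > 0` there is `C` such that for all real
`K ≥ 1`, `X ≥ 1`, at most `C K X ^ (1 / 3 + ε)` integers `x` with `|x| ≤ X` admit an integer
`y` with `0 < |x ^ 3 - y ^ 2| ≤ K √|x|`. -/
theorem result : ∀ ε : ℝ, 0 < ε → ∃ C : ℝ, ∀ K : ℝ, 1 ≤ K → ∀ X : ℝ, 1 ≤ X →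
    {x : ℤ | |(x : ℝ)| ≤ X ∧ ∃ y : ℤ, x ^ 3 ≠ y ^ 2 ∧
      |(x : ℝ) ^ 3 - (y : ℝ) ^ 2| ≤ K * √|(x : ℝ)|}.Finite ∧
    ({x : ℤ | |(x : ℝ)| ≤ X ∧ ∃ y : ℤ, x ^ 3 ≠ y ^ 2 ∧
      |(x : ℝ) ^ 3 - (y : ℝ) ^ 2| ≤ K * √|(x : ℝ)|}.ncard : ℝ) ≤
        C * K * X ^ (1 / 3 + ε) :=
  fun ε hε => Helper15.Hall2.mainA ε hε

end Pool.Agent.Helper15.Hall2.ExceptionalSet
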