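import Mathlib
import Pool.Agent.Helper15.HallBlock

set_option autoImplicit false

namespace Pool.Agent.Helper15.Hall

open Finset

lemma geom_bound (r : ℝ) (hr : 2 ≤ r) (n : ℕ) : ∑ i ∈ range (n + 1), r ^ i ≤ 2 * r ^ n := by
  induction n with
  | zero => simp
  | succ n ih =>
    rw [sum_range_succ, pow_succ]
    have h1 : 0 < r ^ n := by positivity
    nlinarith

lemma exc_zero (K : ℤ) : ¬ Exc K 0 := by
  rintro ⟨y, h1, h2⟩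
  apply h1
  simp at h2
  simp [h2]

lemma exc_neg {K x : ℤ} (hx : x < 0) (h : Exc K x) : -(K ^ 2) ≤ x := by
  obtain ⟨y, _, h2⟩ := h
  rw [abs_of_neg hx] at h2
  obtain ⟨n, rfl⟩ : ∃ n, x = -n := ⟨-x, by ring⟩
  have hn : 0 < n := by omega
  rw [neg_neg] at h2
  have h3 : n * n ^ 5 ≤ n * K ^ 2 := by
    calc n * n ^ 5 = (n ^ 3) ^ 2 := by ring
      _ ≤ (n ^ 3 + y ^ 2) ^ 2 := by
        have e1 : 0 ≤ n ^ 3 := by positivity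
        have e2 : 0 ≤ y ^ 2 := sq_nonneg y
        nlinarith
      _ = ((-n) ^ 3 - y ^ 2) ^ 2 := by ring
      _ ≤ K ^ 2 * n := h2
      _ = n * K ^ 2 := by ring
  have h4 : n ^ 5 ≤ K ^ 2 := le_of_mul_le_mul_left h3 hn
  have h5 : n ≤ n ^ 5 := by
    have : n * 1 ≤ n * n ^ 4 := by
      apply mul_le_mul_of_nonneg_left _ hn.le
      exact one_le_pow₀ (by omega)
    calc n = n * 1 := by ring
      _ ≤ n * n ^ 4 := this
      _ = n ^ 5 := by ring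
  omega

/-- Cover of the exceptional integers up to `X` by dyadic blocks. -/
lemma exc_cover {K x : ℤ} {N : ℕ} (hxN : |x| ≤ N) (h : Exc K x) :
    x ∈ Icc (-(K ^ 2)) (-1) ∪
      (range (Nat.log 64 N + 1)).biUnion (fun i => block (2 ^ i) K) := by
  rw [mem_union, mem_Icc, mem_biUnion]
  rcases lt_trichotomy x 0 with hx | hx | hx
  · left
    exact ⟨exc_neg hx h, by omega⟩
  · exact absurd (hx ▸ h) (exc_zero K)
  · right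
    lift x to ℕ using hx.le
    have hx0 : x ≠ 0 := by
      rintro rfl
      simp at hx
    refine ⟨Nat.log 64 x, ?_, ?_⟩
    · rw [mem_range]
      have h1 : x ≤ N := by
        have := le_abs_self (x : ℤ)
        omega
      have := Nat.log_mono_right (b := 64) h1
      omega
    · rw [mem_block]
      refine ⟨⟨?_, ?_⟩, h⟩
      · have h1 := Nat.pow_log_le_self 64 hx0
        have h2 : ((2 : ℤ) ^ Nat.log 64 x) ^ 6 = ((64 ^ Nat.log 64 x : ℕ) : ℤ) := by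
          push_cast
          rw [← pow_mul, mul_comm, pow_mul]
          norm_num
        rw [h2]
        exact_mod_cast h1
      · have h1 := Nat.lt_pow_succ_log_self (b := 64) (by norm_num) x
        have h2 : 64 * ((2 : ℤ) ^ Nat.log 64 x) ^ 6 = ((64 ^ (Nat.log 64 x + 1) : ℕ) : ℤ) := by
          push_cast
          rw [← pow_mul, mul_comm _ 6, pow_mul, pow_succ]
          norm_num
          ring
        rw [h2]
        have h3 : x ≤ 64 ^ (Nat.log 64 x + 1) := h1.le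
        exact_mod_cast h3

/-- Main theorem, integer parameters. -/
theorem main_int (ε : ℝ) (hε : 0 < ε) : ∃ C : ℝ, 1 ≤ C ∧ ∀ K : ℤ, 1 ≤ K → ∀ N : ℕ, 1 ≤ N →
    ∃ S : Finset ℤ, (∀ x : ℤ, |x| ≤ N → Exc K x → x ∈ S) ∧
      (S.card : ℝ) ≤ C * (K : ℝ) ^ 2 * (N : ℝ) ^ (1 / 3 + ε) := by
  obtain ⟨C, hC, hb⟩ := block_bound (6 * ε) (by positivity)
  refine ⟨1 + 2 * C, by linarith, ?_⟩
  intro K hK N hN
  refine ⟨_, fun x hx hxe => exc_cover hx hxe, ?_⟩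
  have hKr : (1 : ℝ) ≤ K := by exact_mod_cast hK
  have hNr : (1 : ℝ) ≤ N := by exact_mod_cast hN
  set I := Nat.log 64 N with hI
  have hN1 : 1 ≤ (N : ℝ) ^ (1 / 3 + ε) := Real.one_le_rpow hNr (by positivity)
  have h1 : ((Icc (-(K ^ 2)) (-1)).card : ℝ) ≤ (K : ℝ) ^ 2 := by
    rw [Int.card_Icc]
    have : (-1 + 1 - -(K ^ 2)) = K ^ 2 := by ring
    rw [this]
    have h2 : (((K ^ 2).toNat : ℕ) : ℤ) = K ^ 2 := Int.toNat_of_nonneg (sq_nonneg K)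
    have h3 : ((((K ^ 2).toNat : ℕ) : ℤ) : ℝ) = (K : ℝ) ^ 2 := by rw [h2]; push_cast; ring
    rw [← h3]
    push_cast
    exact le_rfl
  -- the power r = 2^(2+6ε)
  set r : ℝ := (2 : ℝ) ^ (2 + 6 * ε) with hr
  have hr2 : 2 ≤ r := by
    calc (2 : ℝ) = (2 : ℝ) ^ (1 : ℝ) := by simp
      _ ≤ r := Real.rpow_le_rpow_of_exponent_le (by norm_num) (by linarith)
  have hri : ∀ i : ℕ, ((2 : ℝ) ^ i) ^ (2 + 6 * ε) = r ^ i := by
    intro i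
    rw [hr, ← Real.rpow_natCast, ← Real.rpow_mul (by norm_num), ← Real.rpow_natCast,
      ← Real.rpow_mul (by norm_num), mul_comm]
  have h2 : ((((range (I + 1)).biUnion (fun i => block (2 ^ i) K)).card : ℕ) : ℝ) ≤
      2 * C * (K : ℝ) ^ 2 * r ^ I := by
    calc ((((range (I + 1)).biUnion (fun i => block (2 ^ i) K)).card : ℕ) : ℝ)
        ≤ ∑ i ∈ range (I + 1), ((block (2 ^ i) K).card : ℝ) := by
          exact_mod_cast card_biUnion_le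
      _ ≤ ∑ i ∈ range (I + 1), C * (K : ℝ) ^ 2 * r ^ i := by
          apply sum_le_sum
          intro i _
          have h3 := hb (2 ^ i) Nat.one_le_two_pow K hK
          push_cast at h3
          rw [hri] at h3
          exact h3
      _ = C * (K : ℝ) ^ 2 * ∑ i ∈ range (I + 1), r ^ i := by rw [mul_sum]
      _ ≤ C * (K : ℝ) ^ 2 * (2 * r ^ I) := by
          apply mul_le_mul_of_nonneg_left (geom_bound r hr2 I) (by positivity)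
      _ = 2 * C * (K : ℝ) ^ 2 * r ^ I := by ring
  have h3 : r ^ I ≤ (N : ℝ) ^ (1 / 3 + ε) := by
    rw [← hri I]
    have e1 : ((2 : ℝ) ^ I) ^ 6 ≤ N := by
      have := Nat.pow_log_le_self 64 (by omega : N ≠ 0)
      rw [← hI] at this
      have e2 : ((2 : ℝ) ^ I) ^ 6 = ((64 ^ I : ℕ) : ℝ) := by
        push_cast
        rw [← pow_mul, mul_comm, pow_mul]
        norm_num
      rw [e2]
      exact_mod_cast this
    have e2 : ((2 : ℝ) ^ I) ^ (2 + 6 * ε) = (((2 : ℝ) ^ I) ^ 6) ^ (1 / 3 + ε) := by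
      rw [← Real.rpow_natCast ((2 : ℝ) ^ I) 6, ← Real.rpow_mul (by positivity)]
      congr 1
      push_cast
      ring
    rw [e2]
    exact Real.rpow_le_rpow (by positivity) e1 (by positivity)
  have h4 : (((Icc (-(K ^ 2)) (-1) ∪
      (range (I + 1)).biUnion (fun i => block (2 ^ i) K)).card : ℕ) : ℝ) ≤
      (K : ℝ) ^ 2 + 2 * C * (K : ℝ) ^ 2 * r ^ I := by
    refine le_trans ?_ (add_le_add h1 h2)
    exact_mod_cast card_union_le _ _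
  refine le_trans h4 ?_
  have h5 : (K : ℝ) ^ 2 * 1 ≤ (K : ℝ) ^ 2 * (N : ℝ) ^ (1 / 3 + ε) := by gcongr
  have h6 : 2 * C * (K : ℝ) ^ 2 * r ^ I ≤ 2 * C * (K : ℝ) ^ 2 * (N : ℝ) ^ (1 / 3 + ε) := by
    gcongr
  calc (K : ℝ) ^ 2 + 2 * C * (K : ℝ) ^ 2 * r ^ I
      ≤ (K : ℝ) ^ 2 * (N : ℝ) ^ (1 / 3 + ε) + 2 * C * (K : ℝ) ^ 2 * (N : ℝ) ^ (1 / 3 + ε) := by
        linarith
    _ = (1 + 2 * C) * (K : ℝ) ^ 2 * (N : ℝ) ^ (1 / 3 + ε) := by ring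

/-- Main theorem, real parameters. -/
theorem main_real (ε : ℝ) (hε : 0 < ε) : ∃ C : ℝ, ∀ K : ℝ, 1 ≤ K → ∀ X : ℝ, 1 ≤ X →
    {x : ℤ | |(x : ℝ)| ≤ X ∧ ∃ y : ℤ, x ^ 3 ≠ y ^ 2 ∧
      |(x : ℝ) ^ 3 - (y : ℝ) ^ 2| ≤ K * √|(x : ℝ)|}.Finite ∧
    ({x : ℤ | |(x : ℝ)| ≤ X ∧ ∃ y : ℤ, x ^ 3 ≠ y ^ 2 ∧
      |(x : ℝ) ^ 3 - (y : ℝ) ^ 2| ≤ K * √|(x : ℝ)|}.ncard : ℝ) ≤ C * K ^ 2 * X ^ (1 / 3 + ε) := by
  obtain ⟨C, hC, hmain⟩ := main_int ε hε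
  refine ⟨4 * C, ?_⟩
  intro K hK X hX
  have hK1 : (1 : ℤ) ≤ ⌈K⌉ := by
    have : (0 : ℤ) < ⌈K⌉ := Int.ceil_pos.2 (by linarith)
    omega
  have hN1 : 1 ≤ ⌊X⌋₊ := Nat.one_le_floor_iff X |>.2 hX
  obtain ⟨S, hS, hcard⟩ := hmain ⌈K⌉ hK1 ⌊X⌋₊ hN1
  have hsub : {x : ℤ | |(x : ℝ)| ≤ X ∧ ∃ y : ℤ, x ^ 3 ≠ y ^ 2 ∧
      |(x : ℝ) ^ 3 - (y : ℝ) ^ 2| ≤ K * √|(x : ℝ)|} ⊆ (S : Set ℤ) := by
    rintro x ⟨hx, y, hne, hle⟩
    apply hS x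
    · have h1 : ((|x|.toNat : ℕ) : ℝ) ≤ X := by
        have e1 : ((|x|.toNat : ℕ) : ℤ) = |x| := Int.toNat_of_nonneg (abs_nonneg x)
        have e2 : ((|x|.toNat : ℕ) : ℝ) = |(x : ℝ)| := by
          have : ((((|x|.toNat : ℕ) : ℤ)) : ℝ) = ((|x| : ℤ) : ℝ) := by rw [e1]
          push_cast at this
          exact this
        rw [e2]
        exact hx
      have h2 := Nat.le_floor h1
      have e1 : ((|x|.toNat : ℕ) : ℤ) = |x| := Int.toNat_of_nonneg (abs_nonneg x)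
      rw [← e1]
      exact_mod_cast h2
    · refine ⟨y, sub_ne_zero.2 hne, ?_⟩
      have hceil : K ≤ (⌈K⌉ : ℝ) := Int.le_ceil K
      have h1 : |(x : ℝ) ^ 3 - (y : ℝ) ^ 2| ≤ (⌈K⌉ : ℝ) * √|(x : ℝ)| := by
        refine le_trans hle ?_
        exact mul_le_mul_of_nonneg_right hceil (Real.sqrt_nonneg _)
      have h2 : ((x : ℝ) ^ 3 - (y : ℝ) ^ 2) ^ 2 ≤ ((⌈K⌉ : ℝ) * √|(x : ℝ)|) ^ 2 := by
        rw [← sq_abs]
        exact pow_le_pow_left₀ (abs_nonneg _) h1 2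
      rw [mul_pow, Real.sq_sqrt (abs_nonneg _)] at h2
      exact_mod_cast h2
  have hfin : {x : ℤ | |(x : ℝ)| ≤ X ∧ ∃ y : ℤ, x ^ 3 ≠ y ^ 2 ∧
      |(x : ℝ) ^ 3 - (y : ℝ) ^ 2| ≤ K * √|(x : ℝ)|}.Finite := S.finite_toSet.subset hsub
  refine ⟨hfin, ?_⟩
  have h1 : {x : ℤ | |(x : ℝ)| ≤ X ∧ ∃ y : ℤ, x ^ 3 ≠ y ^ 2 ∧
      |(x : ℝ) ^ 3 - (y : ℝ) ^ 2| ≤ K * √|(x : ℝ)|}.ncard ≤ S.card := by
    rw [← Set.ncard_coe_finset S]
    exact Set.ncard_le_ncard hsub S.finite_toSet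
  have h2 : ((⌈K⌉ : ℤ) : ℝ) ≤ 2 * K := by
    have := Int.ceil_lt_add_one K
    linarith
  have h3 : ((⌈K⌉ : ℤ) : ℝ) ^ 2 ≤ 4 * K ^ 2 := by
    have e0 : (0 : ℝ) ≤ ((⌈K⌉ : ℤ) : ℝ) := by
      have : (0 : ℤ) ≤ ⌈K⌉ := by omega
      exact_mod_cast this
    calc ((⌈K⌉ : ℤ) : ℝ) ^ 2 ≤ (2 * K) ^ 2 := pow_le_pow_left₀ e0 h2 2
      _ = 4 * K ^ 2 := by ring
  have h4 : ((⌊X⌋₊ : ℕ) : ℝ) ^ (1 / 3 + ε) ≤ X ^ (1 / 3 + ε) :=
    Real.rpow_le_rpow (by positivity) (Nat.floor_le (by linarith)) (by positivity)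
  calc ({x : ℤ | |(x : ℝ)| ≤ X ∧ ∃ y : ℤ, x ^ 3 ≠ y ^ 2 ∧
      |(x : ℝ) ^ 3 - (y : ℝ) ^ 2| ≤ K * √|(x : ℝ)|}.ncard : ℝ) ≤ (S.card : ℝ) := by
        exact_mod_cast h1
    _ ≤ C * ((⌈K⌉ : ℤ) : ℝ) ^ 2 * ((⌊X⌋₊ : ℕ) : ℝ) ^ (1 / 3 + ε) := hcard
    _ ≤ C * (4 * K ^ 2) * X ^ (1 / 3 + ε) := by gcongr
    _ = 4 * C * K ^ 2 * X ^ (1 / 3 + ε) := by ring

end Pool.Agent.Helper15.Hall
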