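import Mathlib

set_option autoImplicit false

namespace Pool.Agent.Helper15.LEC

open Equiv Equiv.Perm

variable {E : Type}

/-- counting invariant functions of a permutation and its sign -/
theorem exists_exponent_fin (n : ℕ) : ∀ (π : Perm (Fin n)),
    ∃ l : ℕ, (∀ (Y : Type) [Finite Y],
        Nat.card {c : Fin n → Y // ∀ i, c (π i) = c i} = (Nat.card Y) ^ l) ∧
      ((-1 : ℤˣ) ^ l = (-1) ^ n * sign π) := by
  induction n with
  | zero =>
    intro π
    refine ⟨0, ?_, ?_⟩
    · intro Y _
      have : Unique {c : Fin 0 → Y // ∀ i, c (π i) = c i} :=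
        { default := ⟨fun i => i.elim0, fun i => i.elim0⟩
          uniq := fun a => Subtype.ext (funext fun i => i.elim0) }
      simp
    · have : π = 1 := Subsingleton.elim _ _
      simp [this]
  | succ n ih =>
    intro π
    obtain ⟨⟨p, e⟩, rfl⟩ := (decomposeFin (n := n)).symm.surjective π
    obtain ⟨l, hl, hs⟩ := ih e
    refine Fin.cases ?_ ?_ p
    · refine ⟨l + 1, ?_, ?_⟩
      · intro Y _
        have E : {c : Fin (n+1) → Y // ∀ i, c (decomposeFin.symm (0, e) i) = c i} ≃
            Y × {c : Fin n → Y // ∀ i, c (e i) = c i} :=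
          { toFun := fun c => (c.1 0, ⟨fun i => c.1 i.succ, fun i => by
              have := c.2 i.succ
              simpa using this⟩)
            invFun := fun yc => ⟨Fin.cons yc.1 yc.2.1, fun i => by
              refine Fin.cases ?_ (fun j => ?_) i
              · simp
              · have := yc.2.2 j
                simpa using this⟩
            left_inv := fun c => by
              apply Subtype.ext
              funext i
              refine Fin.cases ?_ (fun j => ?_) i <;> simp
            right_inv := fun yc => by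
              ext <;> simp }
        rw [Nat.card_congr E, Nat.card_prod, hl Y, pow_succ]
        ring
      · rw [decomposeFin.symm_sign]
        simp only [if_true, one_mul, pow_succ]
        rw [hs]
        simp [mul_comm]
    · intro q
      refine ⟨l, ?_, ?_⟩
      · intro Y _
        have E : {c : Fin (n+1) → Y // ∀ i, c (decomposeFin.symm (q.succ, e) i) = c i} ≃
            {c : Fin n → Y // ∀ i, c (e i) = c i} :=
          { toFun := fun c => ⟨fun i => c.1 i.succ, fun i => by
              have h0 := c.2 0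
              have h1 := c.2 i.succ
              rw [decomposeFin_symm_apply_zero] at h0
              rw [decomposeFin_symm_apply_succ] at h1
              by_cases h : e i = q
              · rw [h] at h1 ⊢
                rw [swap_apply_right] at h1
                show c.1 q.succ = c.1 i.succ
                rw [h0, h1]
              · rw [swap_apply_of_ne_of_ne (Fin.succ_ne_zero _)
                  (by simpa using h)] at h1
                exact h1⟩
            invFun := fun c => ⟨Fin.cons (c.1 q) c.1, fun i => by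
              refine Fin.cases ?_ (fun j => ?_) i
              · rw [decomposeFin_symm_apply_zero]; simp
              · rw [decomposeFin_symm_apply_succ]
                have h2 := c.2 j
                by_cases h : e j = q
                · rw [h] at h2 ⊢
                  rw [swap_apply_right]
                  simpa using h2
                · rw [swap_apply_of_ne_of_ne (Fin.succ_ne_zero _)
                    (by simpa using h)]
                  simpa using h2⟩
            left_inv := fun c => by
              apply Subtype.ext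
              funext i
              refine Fin.cases ?_ (fun j => ?_) i
              · have h0 := c.2 0
                rw [decomposeFin_symm_apply_zero] at h0
                simpa using h0
              · simp
            right_inv := fun c => by
              apply Subtype.ext
              funext i
              simp }
        rw [Nat.card_congr E, hl Y]
      · rw [decomposeFin.symm_sign, if_neg (Fin.succ_ne_zero q), hs, pow_succ]
        simp

theorem exists_exponent {E : Type} [Fintype E] [DecidableEq E] (π : Perm E) :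
    ∃ l : ℕ, (∀ (Y : Type) [Finite Y],
        Nat.card {c : E → Y // ∀ i, c (π i) = c i} = (Nat.card Y) ^ l) ∧
      ((-1 : ℤˣ) ^ l = (-1) ^ (Fintype.card E) * sign π) := by
  let ε := Fintype.equivFin E
  obtain ⟨l, hl, hs⟩ := exists_exponent_fin (Fintype.card E) (ε.permCongr π)
  refine ⟨l, ?_, ?_⟩
  · intro Y _
    rw [← hl Y]
    apply Nat.card_congr
    exact
      { toFun := fun c => ⟨fun i => c.1 (ε.symm i), fun i => by
          have := c.2 (ε.symm i)
          simpa [Equiv.permCongr_apply] using this⟩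
        invFun := fun c => ⟨fun i => c.1 (ε i), fun i => by
          have := c.2 (ε i)
          simpa [Equiv.permCongr_apply] using this⟩
        left_inv := fun c => by apply Subtype.ext; funext i; simp
        right_inv := fun c => by apply Subtype.ext; funext i; simp }
  · rw [hs, sign_permCongr]

theorem not_sameCycle {X : Type} (φ τ : Perm X) (hφ : φ * φ = 1) (hτ : τ * τ = 1)
    (hφf : ∀ x, φ x ≠ x) (hτf : ∀ x, τ x ≠ x) (x : X) : ¬ (φ * τ).SameCycle x (φ x) := by
  rintro ⟨k, hk⟩
  have hφi : φ⁻¹ = φ := inv_eq_of_mul_eq_one_left hφ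
  have hτi : τ⁻¹ = τ := inv_eq_of_mul_eq_one_left hτ
  have hconj : ∀ j : ℤ, φ * (φ * τ) ^ j = (φ * τ) ^ (-j) * φ := by
    intro j
    have h1 : φ * (φ * τ) * φ⁻¹ = (φ * τ)⁻¹ := by
      rw [mul_inv_rev, hφi, hτi, ← mul_assoc, hφ, one_mul]
    have h2 := conj_zpow (i := j) (a := φ) (b := φ * τ)
    rw [h1, inv_zpow'] at h2
    rw [h2, inv_mul_cancel_right]
  rcases Int.even_or_odd' k with ⟨j, rfl | rfl⟩
  · apply hφf (((φ * τ) ^ j) x)
    have := congrArg (fun g : Perm X => g x) (hconj j)
    simp only [Perm.mul_apply] at this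
    rw [this, ← hk, ← Perm.mul_apply, ← zpow_add]
    congr 2
    ring
  · apply hτf (((φ * τ) ^ j) x)
    have h4 : τ (((φ * τ) ^ j) x) = (φ * (φ * τ) ^ (j+1)) x := by
      have h3 : τ * (φ * τ) ^ j = φ * (φ * τ) ^ (j + 1) := by
        rw [add_comm, zpow_one_add, ← mul_assoc, ← mul_assoc, hφ, one_mul]
      rw [← Perm.mul_apply, h3]
    rw [h4, hconj (j+1), Perm.mul_apply, ← hk, ← Perm.mul_apply, ← zpow_add]
    congr 2
    ring

theorem exists_two_colouring {X : Type} (φ τ : Perm X) (hφ : φ * φ = 1) (hτ : τ * τ = 1)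
    (hφf : ∀ x, φ x ≠ x) (hτf : ∀ x, τ x ≠ x) :
    ∃ A : X → Bool, (∀ x, A (φ x) = !(A x)) ∧ (∀ x, A (τ x) = !(A x)) := by
  classical
  let s := SameCycle.setoid (φ * τ)
  let r : Quotient s → Quotient s → Prop := WellOrderingRel
  have hne : ∀ x, (Quotient.mk s (φ x)) ≠ Quotient.mk s x := by
    intro x h
    exact not_sameCycle φ τ hφ hτ hφf hτf x (Quotient.exact h.symm)
  have key : ∀ x, decide (r (Quotient.mk s (φ x)) (Quotient.mk s x))
      = !(decide (r (Quotient.mk s x) (Quotient.mk s (φ x)))) := by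
    intro x
    rcases trichotomous_of r (Quotient.mk s x) (Quotient.mk s (φ x)) with h | h | h
    · have : ¬ r (Quotient.mk s (φ x)) (Quotient.mk s x) := asymm_of r h
      simp [h, this]
    · exact absurd h.symm (hne x)
    · have : ¬ r (Quotient.mk s x) (Quotient.mk s (φ x)) := asymm_of r h
      simp [h, this]
  have hφφ : ∀ x, φ (φ x) = x := fun x => by
    rw [← Perm.mul_apply, hφ]; rfl
  have hττ : ∀ x, τ (τ x) = x := fun x => by
    rw [← Perm.mul_apply, hτ]; rfl
  refine ⟨fun x => decide (r (Quotient.mk s x) (Quotient.mk s (φ x))), ?_, ?_⟩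
  · intro x
    show decide (r (Quotient.mk s (φ x)) (Quotient.mk s (φ (φ x)))) = _
    rw [hφφ]
    exact key x
  · intro x
    show decide (r (Quotient.mk s (τ x)) (Quotient.mk s (φ (τ x)))) = _
    have h1 : Quotient.mk s (φ (τ x)) = Quotient.mk s x := by
      apply Quotient.sound
      show (φ * τ).SameCycle (φ (τ x)) x
      exact SameCycle.symm ⟨1, by simp⟩
    have h2 : Quotient.mk s (τ x) = Quotient.mk s (φ x) := by
      apply Quotient.sound
      show (φ * τ).SameCycle (τ x) (φ x)
      exact ⟨1, by simp [hττ]⟩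
    rw [h1, h2]
    exact key x

theorem inv_app {X : Type} (f : Perm X) (x : X) : f⁻¹ (f x) = x := f.symm_apply_apply x

theorem app_inv {X : Type} (f : Perm X) (x : X) : f (f⁻¹ x) = x := f.apply_symm_apply x

/-- labellings of half-edges compatible with two matchings -/
abbrev SS (Y : Type) (r : Y → Y) (g : Perm (E × Bool)) : Type :=
  {f : E × Bool → Y // (∀ x : E × Bool, f (x.1, !x.2) = r (f x)) ∧
    (∀ x : E × Bool, f (g (x.1, !x.2)) = r (f (g x)))}

/-- flip second coordinate where `a` holds -/
def th (a : E → Bool) : Perm (E × Bool) :=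
  Equiv.prodCongrRight (fun e => if a e then Equiv.boolNot else Equiv.refl Bool)

theorem th_apply (a : E → Bool) (x : E × Bool) : th a x = (x.1, xor x.2 (a x.1)) := by
  obtain ⟨e, b⟩ := x
  unfold th
  cases h : a e <;> simp [h]

theorem sign_th [Fintype E] [DecidableEq E] (a : E → Bool) :
    sign (th a) = ∏ e, (if a e then (-1 : ℤˣ) else 1) := by
  unfold th
  rw [sign_prodCongrRight]
  apply Finset.prod_congr rfl
  intro e _
  cases h : a e
  · simp
  · simp only [if_true]
    decide

theorem split_perm [Fintype E] [DecidableEq E] (w : Perm (E × Bool)) (hw : ∀ x, (w x).2 = x.2) :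
    ∃ w' : Bool → Perm E, (∀ e b, w (e, b) = (w' b e, b)) ∧ sign w = sign (w' false) * sign (w' true) := by
  have hw' : ∀ x, (w.symm x).2 = x.2 := by
    intro x
    have := hw (w.symm x)
    rw [Equiv.apply_symm_apply] at this
    exact this.symm
  let w' : Bool → Perm E := fun b =>
    { toFun := fun e => (w (e, b)).1
      invFun := fun e => (w.symm (e, b)).1
      left_inv := fun e => by
        have h : ((w (e, b)).1, b) = w (e, b) := Prod.ext rfl (hw (e, b)).symm
        show (w.symm ((w (e, b)).1, b)).1 = e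
        rw [h, Equiv.symm_apply_apply]
      right_inv := fun e => by
        have h : ((w.symm (e, b)).1, b) = w.symm (e, b) := Prod.ext rfl (hw' (e, b)).symm
        show (w ((w.symm (e, b)).1, b)).1 = e
        rw [h, Equiv.apply_symm_apply] }
  have h1 : ∀ e b, w (e, b) = (w' b e, b) := fun e b => Prod.ext rfl (hw (e, b))
  refine ⟨w', h1, ?_⟩
  have h2 : w = Equiv.prodCongrLeft w' := by
    ext1 x
    obtain ⟨e, b⟩ := x
    rw [h1]
    rfl
  rw [h2, sign_prodCongrLeft]
  simp [mul_comm]

theorem core [Fintype E] [DecidableEq E] (g : Perm (E × Bool)) (A : E × Bool → Bool)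
    (hA1 : ∀ x : E × Bool, A (x.1, !x.2) = !(A x))
    (hA2 : ∀ x : E × Bool, A (g (x.1, !x.2)) = !(A (g x))) :
    ∃ l : ℕ, (∀ (Y : Type) [Finite Y] (r : Y → Y), (∀ y, r (r y) = y) →
        Nat.card (SS Y r g) = (Nat.card Y) ^ l) ∧
      ((-1 : ℤˣ) ^ l = (-1) ^ (Fintype.card E) * (sign g *
        ((∏ e, (if A (e, false) then (-1 : ℤˣ) else 1)) *
        (∏ e, (if A (g (e, false)) then (-1 : ℤˣ) else 1))))) := by
  let a1 : E → Bool := fun e => A (e, false)
  let a2 : E → Bool := fun e => A (g (e, false))
  have ht1 : ∀ x, (th a1 x).2 = A x := by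
    rintro ⟨e, b⟩
    rw [th_apply]
    cases b
    · simp [a1]
    · have := hA1 (e, false)
      simp only [Bool.not_false] at this
      simp [a1, this]
  have ht2 : ∀ x, (th a2 x).2 = A (g x) := by
    rintro ⟨e, b⟩
    rw [th_apply]
    cases b
    · simp [a2]
    · have := hA2 (e, false)
      simp only [Bool.not_false] at this
      simp [a2, this]
  have htf : ∀ (a : E → Bool) x, (th a x).1 = x.1 := by
    intro a x; rw [th_apply]
  let w : Perm (E × Bool) := th a1 * g * (th a2)⁻¹
  have hw : ∀ x, (w x).2 = x.2 := by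
    intro x
    show (th a1 (g ((th a2)⁻¹ x))).2 = x.2
    rw [ht1, ← ht2, app_inv]
  obtain ⟨w', hw1, hw2⟩ := split_perm w hw
  obtain ⟨l, hl, hs⟩ := exists_exponent (w' false * (w' true)⁻¹)
  have hgw : ∀ x, (g x).1 = (w (th a2 x)).1 := by
    intro x
    show (g x).1 = (th a1 (g ((th a2)⁻¹ (th a2 x)))).1
    rw [inv_app, htf]
  -- twisting
  let tw : (Y : Type) → (Y → Y) → Bool → Y → Y := fun Y r b y => if b then r y else y
  refine ⟨l, ?_, ?_⟩
  · intro Y _ r hr
    rw [← hl Y]
    have htw : ∀ b y, tw Y r b (tw Y r b y) = y := by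
      intro b y; cases b <;> simp [tw, hr]
    have htw2 : ∀ b y, tw Y r (!b) (r y) = tw Y r b y := by
      intro b y; cases b <;> simp [tw, hr]
    have htw3 : ∀ b y, tw Y r (!b) y = r (tw Y r b y) := by
      intro b y; cases b <;> simp [tw, hr]
    -- condition on c : E → Y
    have hcond : ∀ c : E → Y, (∀ e, c ((g (e, true)).1) = c ((g (e, false)).1)) ↔
        (∀ i, c ((w' false * (w' true)⁻¹) i) = c i) := by
      intro c
      have h1 : ∀ e, (c ((g (e, true)).1) = c ((g (e, false)).1)) ↔ c (w' false e) = c (w' true e) := by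
        intro e
        rw [hgw, hgw, th_apply, th_apply, hw1, hw1]
        cases h : a2 e <;> simp [eq_comm]
      constructor
      · intro h i
        have := (h1 ((w' true)⁻¹ i)).1 (h _)
        rw [app_inv] at this
        exact this
      · intro h e
        rw [h1]
        have := h (w' true e)
        rw [Perm.mul_apply, inv_app] at this
        exact this
    apply Nat.card_congr
    exact
      { toFun := fun f => ⟨fun e => tw Y r (A (e, false)) (f.1 (e, false)), by
          have hf0 : ∀ x, tw Y r (A x) (f.1 x) = tw Y r (A (x.1, false)) (f.1 (x.1, false)) := by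
            rintro ⟨e, b⟩
            cases b
            · rfl
            · have e1 := hA1 (e, false)
              have e2 := f.2.1 (e, false)
              simp only [Bool.not_false] at e1 e2
              rw [e1, e2, htw2]
          refine (hcond (fun e => tw Y r (A (e, false)) (f.1 (e, false)))).1 ?_
          intro e
          show tw Y r (A ((g (e, true)).1, false)) (f.1 ((g (e, true)).1, false)) =
            tw Y r (A ((g (e, false)).1, false)) (f.1 ((g (e, false)).1, false))
          have e1 := hA2 (e, false)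
          have e2 := f.2.2 (e, false)
          simp only [Bool.not_false] at e1 e2
          rw [← hf0 (g (e, true)), ← hf0 (g (e, false)), e1, e2, htw2]⟩
        invFun := fun c => ⟨fun x => tw Y r (A x) (c.1 x.1), by
          refine ⟨?_, ?_⟩
          · intro x
            show tw Y r (A (x.1, !x.2)) (c.1 x.1) = _
            rw [hA1, htw3]
          · have h := (hcond c.1).2 c.2
            rintro ⟨e, b⟩
            show tw Y r (A (g (e, !b))) (c.1 (g (e, !b)).1) = r (tw Y r (A (g (e, b))) (c.1 (g (e, b)).1))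
            have e1 := hA2 (e, b)
            simp only at e1
            rw [e1, htw3]
            congr 2
            cases b
            · exact h e
            · exact (h e).symm⟩
        left_inv := fun f => by
          apply Subtype.ext
          funext x
          obtain ⟨e, b⟩ := x
          show tw Y r (A (e, b)) (tw Y r (A (e, false)) (f.1 (e, false))) = f.1 (e, b)
          cases b
          · rw [htw]
          · have e1 := hA1 (e, false)
            have e2 := f.2.1 (e, false)
            simp only [Bool.not_false] at e1 e2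
            rw [e1, e2, htw3, htw]
        right_inv := fun c => by
          apply Subtype.ext
          funext e
          show tw Y r (A (e, false)) (tw Y r (A (e, false)) (c.1 e)) = c.1 e
          rw [htw] }
  · rw [hs]
    congr 1
    have h3 : sign (w' false * (w' true)⁻¹) = sign w := by
      rw [hw2, Perm.sign_mul, Perm.sign_inv]
    rw [h3]
    show sign (th a1 * g * (th a2)⁻¹) = _
    rw [Perm.sign_mul, Perm.sign_mul, Perm.sign_inv, sign_th, sign_th]
    simp only [a1, a2]
    rw [mul_comm (∏ e, if A (e, false) = true then (-1 : ℤˣ) else 1) (sign g), mul_assoc]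

theorem card_SS_eq [Fintype E] [DecidableEq E] {R : Type} [CommRing R] (d : ℕ)
    (hd : (d : R) = -2) (g : Perm (E × Bool)) :
    (Nat.card (SS (Fin d) Fin.rev g) : R) =
      ∑ A ∈ Finset.univ.filter (fun A : E × Bool → Bool =>
          (∀ x : E × Bool, A (x.1, !x.2) = !(A x)) ∧
          (∀ x : E × Bool, A (g (x.1, !x.2)) = !(A (g x)))),
        ((((-1 : ℤˣ) ^ (Fintype.card E) * (sign g *
        ((∏ e, (if A (e, false) then (-1 : ℤˣ) else 1)) *
        (∏ e, (if A (g (e, false)) then (-1 : ℤˣ) else 1)))) : ℤˣ) : ℤ) : R) := by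
  classical
  -- existence
  have hex : ∃ A : E × Bool → Bool, (∀ x : E × Bool, A (x.1, !x.2) = !(A x)) ∧
          (∀ x : E × Bool, A (g (x.1, !x.2)) = !(A (g x))) := by
    let fl : Perm (E × Bool) := th (fun _ => true)
    have hfl : ∀ x, fl x = (x.1, !x.2) := by
      intro x; show th _ x = _; rw [th_apply]; simp
    have hfl2 : fl * fl = 1 := by
      ext1 x; rw [Perm.mul_apply, hfl, hfl]; simp
    obtain ⟨A, h1, h2⟩ := exists_two_colouring fl (g * fl * g⁻¹) hfl2
      (by
        have : g * fl * g⁻¹ * (g * fl * g⁻¹) = g * (fl * fl) * g⁻¹ := by group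
        rw [this, hfl2]; group)
      (by intro x h; rw [hfl] at h
          have := congrArg Prod.snd h
          simp at this)
      (by intro x h
          have h3 : fl (g⁻¹ x) = g⁻¹ x := by
            have := congrArg (fun y => g⁻¹ y) h
            simp only [Perm.mul_apply] at this
            rw [inv_app] at this
            exact this
          rw [hfl] at h3
          have := congrArg Prod.snd h3
          simp at this)
    refine ⟨A, ?_, ?_⟩
    · intro x
      rw [← hfl]; exact h1 x
    · intro x
      rw [← hfl]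
      have := h2 (g x)
      simp only [Perm.mul_apply] at this
      rw [inv_app] at this
      exact this
  obtain ⟨A0, hA01, hA02⟩ := hex
  obtain ⟨l0, hl0, -⟩ := core g A0 hA01 hA02
  have hcardB : (Finset.univ.filter (fun A : E × Bool → Bool =>
          (∀ x : E × Bool, A (x.1, !x.2) = !(A x)) ∧
          (∀ x : E × Bool, A (g (x.1, !x.2)) = !(A (g x))))).card = 2 ^ l0 := by
    have h1 := hl0 Bool not Bool.not_not
    rw [Nat.card_eq_fintype_card, Nat.card_eq_fintype_card, Fintype.card_bool] at h1
    rw [← h1, Fintype.card_subtype]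
  rw [hl0 (Fin d) Fin.rev Fin.rev_rev]
  have hterm : ∀ A ∈ (Finset.univ.filter (fun A : E × Bool → Bool =>
          (∀ x : E × Bool, A (x.1, !x.2) = !(A x)) ∧
          (∀ x : E × Bool, A (g (x.1, !x.2)) = !(A (g x))))),
        ((((-1 : ℤˣ) ^ (Fintype.card E) * (sign g *
        ((∏ e, (if A (e, false) then (-1 : ℤˣ) else 1)) *
        (∏ e, (if A (g (e, false)) then (-1 : ℤˣ) else 1)))) : ℤˣ) : ℤ) : R) = (-1) ^ l0 := by
    intro A hA
    rw [Finset.mem_filter] at hA
    obtain ⟨lA, hlA, hsA⟩ := core g A hA.2.1 hA.2.2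
    have h1 := hl0 Bool not Bool.not_not
    have h2 := hlA Bool not Bool.not_not
    have h3 : lA = l0 := by
      rw [h1] at h2
      simp only [Nat.card_eq_fintype_card, Fintype.card_bool] at h2
      exact (Nat.pow_right_injective (le_refl 2) h2).symm
    rw [← hsA, h3]
    simp
  rw [Finset.sum_congr rfl hterm, Finset.sum_const, hcardB, nsmul_eq_mul]
  rw [Nat.card_eq_fintype_card, Fintype.card_fin]
  push_cast
  rw [hd, ← mul_pow]
  norm_num

/-- incidence matrix of a function -/
def FM (R : Type) [CommRing R] {d : ℕ} (f : Fin d → Fin d) : Matrix (Fin d) (Fin d) R :=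
  Matrix.of fun j a => if f j = a then (1 : R) else 0

theorem vdm_expand {S : Type} [CommRing S] {d : ℕ} (v : Fin d → S) :
    (Matrix.vandermonde v).det = ∑ f : Fin d → Fin d, (∏ j, v j ^ (f j : ℕ)) * (FM S f).det := by
  have h1 : Matrix.vandermonde v = fun j => ∑ a : Fin d, (v j ^ (a : ℕ)) • (fun b => if a = b then (1 : S) else 0) := by
    funext j b
    rw [Finset.sum_apply]
    simp [Matrix.vandermonde]
  have h2 := (Matrix.detRowAlternating (n := Fin d) (R := S)).toMultilinearMap.map_sum
    (fun (j : Fin d) (a : Fin d) => (v j ^ (a : ℕ)) • (fun b => if a = b then (1 : S) else 0))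
  have h3 : (Matrix.vandermonde v).det = (Matrix.detRowAlternating (n := Fin d) (R := S)).toMultilinearMap
      (fun j => ∑ a : Fin d, (v j ^ (a : ℕ)) • (fun b => if a = b then (1 : S) else 0)) := by
    rw [h1]; rfl
  rw [h3, h2]
  apply Finset.sum_congr rfl
  intro f _
  rw [MultilinearMap.map_smul_univ, smul_eq_mul]
  rfl

theorem FM_map {R S : Type} [CommRing R] [CommRing S] (φ : R →+* S) {d : ℕ} (f : Fin d → Fin d) :
    (FM S f).det = φ (FM R f).det := by
  rw [RingHom.map_det]
  congr 1
  ext i j
  simp only [FM, Matrix.of_apply, RingHom.mapMatrix_apply, Matrix.map_apply]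
  split_ifs <;> simp

theorem FM_mul {R : Type} [CommRing R] {d : ℕ} (f g : Fin d → Fin d) :
    FM R f * FM R g = FM R (g ∘ f) := by
  ext j a
  simp only [Matrix.mul_apply, FM, Matrix.of_apply, Function.comp]
  rw [Finset.sum_eq_single (f j)]
  · simp
  · intro b _ hb
    rw [if_neg (Ne.symm hb)]; simp
  · intro h; exact absurd (Finset.mem_univ _) h

theorem FM_pair {R : Type} [CommRing R] {d : ℕ} (f g : Fin d → Fin d) :
    (FM R (Fin.rev : Fin d → Fin d)).det * ((FM R f).det * (FM R g).det) =
      ∑ σ : Perm (Fin d), ((sign σ : ℤ) : R) * (if (∀ j, g (σ j) = Fin.rev (f j)) then 1 else 0) := by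
  have h1 : (FM R (Fin.rev : Fin d → Fin d)).det * ((FM R f).det * (FM R g).det) =
      (FM R f * FM R (Fin.rev : Fin d → Fin d) * (FM R g).transpose).det := by
    rw [Matrix.det_mul, Matrix.det_mul, Matrix.det_transpose]; ring
  have h2 : FM R f * FM R (Fin.rev : Fin d → Fin d) * (FM R g).transpose =
      Matrix.of fun j k => if g k = Fin.rev (f j) then (1 : R) else 0 := by
    rw [FM_mul]
    ext j k
    simp only [Matrix.mul_apply, FM, Matrix.of_apply, Matrix.transpose_apply, Function.comp]
    rw [Finset.sum_eq_single (Fin.rev (f j))]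
    · simp
    · intro b _ hb
      rw [if_neg (Ne.symm hb)]; simp
    · intro h; exact absurd (Finset.mem_univ _) h
  rw [h1, h2, ← Matrix.det_transpose, Matrix.det_apply']
  apply Finset.sum_congr rfl
  intro σ _
  congr 1
  simp only [Matrix.transpose_apply, Matrix.of_apply]
  rw [Finset.prod_ite_zero]
  simp

theorem FM_rev_sq {R : Type} [CommRing R] {d : ℕ} :
    (FM R (Fin.rev : Fin d → Fin d)).det * (FM R (Fin.rev : Fin d → Fin d)).det = 1 := by
  rw [← Matrix.det_mul]
  have : FM R (Fin.rev : Fin d → Fin d) * FM R (Fin.rev : Fin d → Fin d) = 1 := by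
    rw [FM_mul]
    ext j k
    simp only [FM, Matrix.of_apply, Matrix.one_apply, Function.comp, Fin.rev_rev]
  rw [this, Matrix.det_one]

/-- half-edges: slot `j` at the vertex `(i,b)` is `((i,j),b)` -/
abbrev Hf (m d : ℕ) := (Fin m × Fin d) × Bool

/-- the graph polynomial of the line graph -/
noncomputable def PP (R : Type) [CommRing R] {m d : ℕ} (γ : Perm (Hf m d)) :
    MvPolynomial (Fin m × Fin d) R :=
  ∏ v : Fin m × Bool, (Matrix.vandermonde
    (fun j : Fin d => (MvPolynomial.X (γ ((v.1, j), v.2)).1 : MvPolynomial (Fin m × Fin d) R))).det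

/-- reindexing -/
def reix (m d : ℕ) (Y : Type) : ((Fin m × Bool) → (Fin d → Y)) ≃ (Hf m d → Y) where
  toFun F := fun x => F (x.1.1, x.2) x.1.2
  invFun f := fun v j => f ((v.1, j), v.2)
  left_inv F := rfl
  right_inv f := rfl

theorem PP_expand {R : Type} [CommRing R] {m d : ℕ} (γ : Perm (Hf m d)) :
    PP R γ = ∑ f : Hf m d → Fin d, (∏ x : Hf m d, (MvPolynomial.X (γ x).1) ^ (f x : ℕ)) *
      MvPolynomial.C (∏ v : Fin m × Bool, (FM R (fun j => f ((v.1, j), v.2))).det) := by
  unfold PP
  simp_rw [vdm_expand]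
  rw [Finset.prod_univ_sum, Fintype.piFinset_univ]
  rw [← (reix m d (Fin d)).sum_comp]
  apply Finset.sum_congr rfl
  intro F _
  rw [Finset.prod_mul_distrib]
  congr 1
  · rw [← Fintype.prod_prod_type']
    apply Fintype.prod_equiv
      { toFun := fun y : (Fin m × Bool) × Fin d => (((y.1.1, y.2), y.1.2) : Hf m d)
        invFun := fun x => ((x.1.1, x.2), x.1.2)
        left_inv := fun y => rfl
        right_inv := fun y => rfl }
    intro y
    rfl
  · rw [map_prod]
    apply Finset.prod_congr rfl
    intro v _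
    exact FM_map _ _

theorem coeff_PP {R : Type} [CommRing R] {m d : ℕ} (γ : Perm (Hf m d)) (t : (Fin m × Fin d) →₀ ℕ)
    (ht : ∀ e, t e = d - 1) :
    MvPolynomial.coeff t (PP R γ) = ∑ f : Hf m d → Fin d,
      (if (∀ x : Hf m d, f (γ⁻¹ (x.1, !x.2)) = Fin.rev (f (γ⁻¹ x))) then
        (∏ v : Fin m × Bool, (FM R (fun j => f ((v.1, j), v.2))).det) else 0) := by
  rw [PP_expand, MvPolynomial.coeff_sum]
  apply Finset.sum_congr rfl
  intro f _
  rw [mul_comm, MvPolynomial.coeff_C_mul]
  have h1 : (∏ x : Hf m d, (MvPolynomial.X (γ x).1 : MvPolynomial (Fin m × Fin d) R) ^ (f x : ℕ)) =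
      MvPolynomial.monomial (∑ x : Hf m d, Finsupp.single (γ x).1 (f x : ℕ)) 1 := by
    rw [MvPolynomial.monomial_sum_one]
    apply Finset.prod_congr rfl
    intro x _
    rw [MvPolynomial.X_pow_eq_monomial]
  have h2 : ∀ e, (∑ x : Hf m d, Finsupp.single (γ x).1 (f x : ℕ)) e =
      (f (γ⁻¹ (e, false)) : ℕ) + (f (γ⁻¹ (e, true)) : ℕ) := by
    intro e
    rw [← Equiv.sum_comp γ⁻¹]
    simp only [Finsupp.coe_finsetSum, Finset.sum_apply, Fintype.sum_prod_type, Fintype.sum_bool]
    have : ∀ y, γ (γ⁻¹ y) = y := fun y => γ.apply_symm_apply y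
    simp only [this]
    rw [Finset.sum_eq_single e.1]
    · rw [Finset.sum_eq_single e.2]
      · simp [add_comm]
      · intro b _ hb
        have : (e.1, b) ≠ e := fun h => hb (congrArg Prod.snd h)
        simp [Finsupp.single_apply, this]
      · intro h; exact absurd (Finset.mem_univ _) h
    · intro a _ ha
      apply Finset.sum_eq_zero
      intro b _
      have : (a, b) ≠ e := fun h => ha (congrArg Prod.fst h)
      simp [Finsupp.single_apply, this]
    · intro h; exact absurd (Finset.mem_univ _) h
  rw [h1, MvPolynomial.coeff_monomial]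
  have h3 : ((∑ x : Hf m d, Finsupp.single (γ x).1 (f x : ℕ)) = t) ↔
      (∀ x : Hf m d, f (γ⁻¹ (x.1, !x.2)) = Fin.rev (f (γ⁻¹ x))) := by
    rw [Finsupp.ext_iff]
    constructor
    · intro h x
      have := h x.1
      rw [h2, ht] at this
      obtain ⟨e, b⟩ := x
      apply Fin.ext
      rw [Fin.val_rev]
      have hd : (f (γ⁻¹ (e, false)) : ℕ) < d := (f (γ⁻¹ (e, false))).2
      simp only at this
      cases b
      · simp only [Bool.not_false]; omega
      · simp only [Bool.not_true]; omega
    · intro h e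
      rw [h2, ht]
      have := congrArg Fin.val (h (e, false))
      rw [Fin.val_rev] at this
      simp only [Bool.not_false] at this
      have hd : (f (γ⁻¹ (e, false)) : ℕ) < d := (f (γ⁻¹ (e, false))).2
      omega
  by_cases h : (∀ x : Hf m d, f (γ⁻¹ (x.1, !x.2)) = Fin.rev (f (γ⁻¹ x)))
  · rw [if_pos (h3.2 h), if_pos h, mul_one]
  · rw [if_neg (fun h' => h (h3.1 h')), if_neg h, mul_zero]

/-- permute the slots on the `true` side -/
def sg {m d : ℕ} (σ : Fin m → Perm (Fin d)) : Perm (Hf m d) :=
  Equiv.prodCongrLeft (fun b : Bool => if b then Equiv.prodCongrRight σ else 1)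

theorem sg_false {m d : ℕ} (σ : Fin m → Perm (Fin d)) (e : Fin m × Fin d) :
    sg σ (e, false) = (e, false) := by
  unfold sg; simp

theorem sg_true {m d : ℕ} (σ : Fin m → Perm (Fin d)) (e : Fin m × Fin d) :
    sg σ (e, true) = ((e.1, σ e.1 e.2), true) := by
  obtain ⟨i, j⟩ := e
  unfold sg; simp

theorem sign_sg {m d : ℕ} (σ : Fin m → Perm (Fin d)) : sign (sg σ) = ∏ i, sign (σ i) := by
  unfold sg
  rw [sign_prodCongrLeft, Fintype.prod_bool]
  simp [sign_prodCongrRight]

theorem card_labels {m d : ℕ} (γ : Perm (Hf m d)) (σ : Fin m → Perm (Fin d)) :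
    (Finset.univ.filter (fun f : Hf m d → Fin d =>
      (∀ x : Hf m d, f (γ⁻¹ (x.1, !x.2)) = Fin.rev (f (γ⁻¹ x))) ∧
      (∀ i j, f ((i, σ i j), true) = Fin.rev (f ((i, j), false))))).card =
    Nat.card (SS (Fin d) Fin.rev (γ * sg σ)) := by
  rw [Nat.card_eq_fintype_card, ← Fintype.card_subtype]
  apply Fintype.card_congr
  exact
    { toFun := fun f => ⟨fun x => f.1 (γ⁻¹ x), by
        refine ⟨f.2.1, ?_⟩
        rintro ⟨⟨i, j⟩, b⟩
        simp only [Perm.mul_apply, inv_app]
        cases b
        · simp only [Bool.not_false]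
          rw [sg_true, sg_false]
          exact f.2.2 i j
        · simp only [Bool.not_true]
          rw [sg_true, sg_false]
          rw [f.2.2 i j, Fin.rev_rev]⟩
      invFun := fun f => ⟨fun x => f.1 (γ x), by
        refine ⟨?_, ?_⟩
        · intro x
          simp only [app_inv]
          exact f.2.1 x
        · intro i j
          have := f.2.2 ((i, j), false)
          simp only [Perm.mul_apply, Bool.not_false] at this
          rw [sg_true, sg_false] at this
          exact this⟩
      left_inv := fun f => by apply Subtype.ext; funext x; simp only [inv_app]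
      right_inv := fun f => by apply Subtype.ext; funext x; simp only [app_inv] }

theorem coeff_PP_sum {R : Type} [CommRing R] {m d : ℕ} (γ : Perm (Hf m d))
    (t : (Fin m × Fin d) →₀ ℕ) (ht : ∀ e, t e = d - 1) :
    (FM R (Fin.rev : Fin d → Fin d)).det ^ m * MvPolynomial.coeff t (PP R γ) =
      ∑ σ : Fin m → Perm (Fin d), (∏ i, ((sign (σ i) : ℤ) : R)) *
        (Nat.card (SS (Fin d) Fin.rev (γ * sg σ)) : R) := by
  have h1 : ∀ f : Hf m d → Fin d, (FM R (Fin.rev : Fin d → Fin d)).det ^ m *
      (∏ v : Fin m × Bool, (FM R (fun j => f ((v.1, j), v.2))).det) =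
      ∑ σ : Fin m → Perm (Fin d), (∏ i, ((sign (σ i) : ℤ) : R)) *
        (if (∀ i j, f ((i, σ i j), true) = Fin.rev (f ((i, j), false))) then 1 else 0) := by
    intro f
    rw [Fintype.prod_prod_type]
    simp_rw [Fintype.prod_bool]
    have h2 : (FM R (Fin.rev : Fin d → Fin d)).det ^ m =
        ∏ _i : Fin m, (FM R (Fin.rev : Fin d → Fin d)).det := by
      simp
    rw [h2, ← Finset.prod_mul_distrib]
    have h3 : ∀ i : Fin m, (FM R (Fin.rev : Fin d → Fin d)).det *
        ((FM R fun j => f ((i, j), true)).det * (FM R fun j => f ((i, j), false)).det) =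
        ∑ σ : Perm (Fin d), ((sign σ : ℤ) : R) *
          (if (∀ j, f ((i, σ j), true) = Fin.rev (f ((i, j), false))) then 1 else 0) := by
      intro i
      rw [mul_comm (FM R fun j => f ((i, j), true)).det]
      exact FM_pair _ _
    rw [Finset.prod_congr rfl (fun i _ => h3 i)]
    rw [Finset.prod_univ_sum, Fintype.piFinset_univ]
    apply Finset.sum_congr rfl
    intro σ _
    rw [Finset.prod_mul_distrib]
    congr 1
    rw [Finset.prod_ite_zero]
    simp
  rw [coeff_PP γ t ht, Finset.mul_sum]
  have h4 : ∀ f : Hf m d → Fin d, (FM R (Fin.rev : Fin d → Fin d)).det ^ m *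
      (if (∀ x : Hf m d, f (γ⁻¹ (x.1, !x.2)) = Fin.rev (f (γ⁻¹ x))) then
        (∏ v : Fin m × Bool, (FM R (fun j => f ((v.1, j), v.2))).det) else 0) =
      ∑ σ : Fin m → Perm (Fin d), (∏ i, ((sign (σ i) : ℤ) : R)) *
        (if ((∀ x : Hf m d, f (γ⁻¹ (x.1, !x.2)) = Fin.rev (f (γ⁻¹ x))) ∧
          (∀ i j, f ((i, σ i j), true) = Fin.rev (f ((i, j), false)))) then 1 else 0) := by
    intro f
    by_cases h : (∀ x : Hf m d, f (γ⁻¹ (x.1, !x.2)) = Fin.rev (f (γ⁻¹ x)))
    · rw [if_pos h, h1]
      apply Finset.sum_congr rfl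
      intro σ _
      congr 1
      simp only [h, true_and, implies_true]
    · rw [if_neg h, mul_zero]
      symm
      apply Finset.sum_eq_zero
      intro σ _
      rw [if_neg (fun h' => h h'.1), mul_zero]
  rw [Finset.sum_congr rfl (fun f _ => h4 f), Finset.sum_comm]
  apply Finset.sum_congr rfl
  intro σ _
  rw [← Finset.mul_sum]
  congr 1
  rw [← card_labels, Finset.sum_boole]

/-- number of permutations matching two colourings -/
def cnt {d : ℕ} (a b : Fin d → Bool) : ℕ :=
  (Finset.univ.filter (fun σ : Perm (Fin d) => ∀ j, b (σ j) = !(a j))).card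

theorem main_identity {R : Type} [CommRing R] {m d : ℕ} (hd : (d : R) = -2) (γ : Perm (Hf m d))
    (t : (Fin m × Fin d) →₀ ℕ) (ht : ∀ e, t e = d - 1) :
    (FM R (Fin.rev : Fin d → Fin d)).det ^ m * MvPolynomial.coeff t (PP R γ) =
      ((((-1 : ℤˣ) ^ (Fintype.card (Fin m × Fin d)) * sign γ : ℤˣ) : ℤ) : R) *
      ∑ A ∈ Finset.univ.filter (fun A : Hf m d → Bool => ∀ x : Hf m d, A (x.1, !x.2) = !(A x)),
        (∏ e, (if A (e, false) then (-1 : R) else 1)) *
        ∏ i, ((∏ j, (if A (γ ((i, j), false)) then (-1 : R) else 1)) *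
          (cnt (fun j => A (γ ((i, j), false))) (fun j => A (γ ((i, j), true))) : R)) := by
  rw [coeff_PP_sum γ t ht]
  simp_rw [card_SS_eq d hd]
  have hσ : ∀ (σ : Fin m → Perm (Fin d)) (A : Hf m d → Bool),
      (∀ x : Hf m d, A ((γ * sg σ) (x.1, !x.2)) = !(A ((γ * sg σ) x))) ↔
      (∀ i j, A (γ ((i, σ i j), true)) = !(A (γ ((i, j), false)))) := by
    intro σ A
    constructor
    · intro h i j
      have := h ((i, j), false)
      simp only [Perm.mul_apply, Bool.not_false] at this
      rwa [sg_true, sg_false] at this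
    · intro h
      rintro ⟨⟨i, j⟩, b⟩
      simp only [Perm.mul_apply]
      cases b
      · simp only [Bool.not_false]
        rw [sg_true, sg_false]
        exact h i j
      · simp only [Bool.not_true]
        rw [sg_true, sg_false, h i j, Bool.not_not]
  have h1 : ∀ σ : Fin m → Perm (Fin d),
      (∏ i, ((sign (σ i) : ℤ) : R)) * ∑ A ∈ Finset.univ.filter (fun A : Hf m d → Bool =>
          (∀ x : Hf m d, A (x.1, !x.2) = !(A x)) ∧
          (∀ x : Hf m d, A ((γ * sg σ) (x.1, !x.2)) = !(A ((γ * sg σ) x)))),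
        ((((-1 : ℤˣ) ^ (Fintype.card (Fin m × Fin d)) * (sign (γ * sg σ) *
        ((∏ e, (if A (e, false) then (-1 : ℤˣ) else 1)) *
        (∏ e, (if A ((γ * sg σ) (e, false)) then (-1 : ℤˣ) else 1)))) : ℤˣ) : ℤ) : R) =
      ∑ A ∈ Finset.univ.filter (fun A : Hf m d → Bool => ∀ x : Hf m d, A (x.1, !x.2) = !(A x)),
        (((((-1 : ℤˣ) ^ (Fintype.card (Fin m × Fin d)) * sign γ : ℤˣ) : ℤ) : R) *
        ((∏ e, (if A (e, false) then (-1 : R) else 1)) *
         (∏ i, (∏ j, (if A (γ ((i, j), false)) then (-1 : R) else 1))))) *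
        (if (∀ i j, A (γ ((i, σ i j), true)) = !(A (γ ((i, j), false)))) then 1 else 0) := by
    intro σ
    rw [Finset.mul_sum, ← Finset.filter_filter, Finset.sum_filter]
    apply Finset.sum_congr rfl
    intro A _
    simp only [hσ]
    by_cases h : (∀ i j, A (γ ((i, σ i j), true)) = !(A (γ ((i, j), false))))
    · rw [if_pos h, if_pos h, mul_one]
      rw [Perm.sign_mul, sign_sg]
      have e1 : (∏ i, ((sign (σ i) : ℤ) : R)) * (((∏ i, sign (σ i) : ℤˣ) : ℤ) : R) = 1 := by
        rw [Units.coe_prod]
        push_cast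
        rw [← Finset.prod_mul_distrib]
        apply Finset.prod_eq_one
        intro i _
        rcases Int.units_eq_one_or (sign (σ i)) with h | h <;> rw [h] <;> simp
      have e2 : (∏ e, (if A ((γ * sg σ) (e, false)) then (-1 : ℤˣ) else 1)) =
          (∏ i, (∏ j, (if A (γ ((i, j), false)) then (-1 : ℤˣ) else 1))) := by
        rw [Fintype.prod_prod_type]
        apply Finset.prod_congr rfl; intro i _
        apply Finset.prod_congr rfl; intro j _
        rw [Perm.mul_apply, sg_false]
      rw [e2]
      have e3 : ∀ (ι : Type) [Fintype ι] (P : ι → Bool), (((∏ e, (if P e then (-1 : ℤˣ) else 1) : ℤˣ) : ℤ) : R) =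
          ∏ e, (if P e then (-1 : R) else 1) := by
        intro ι _ P
        rw [Units.coe_prod]
        push_cast
        apply Finset.prod_congr rfl
        intro e _
        cases P e <;> simp
      have e4 : (((∏ i, (∏ j, (if A (γ ((i, j), false)) then (-1 : ℤˣ) else 1)) : ℤˣ) : ℤ) : R) =
          ∏ i, (∏ j, (if A (γ ((i, j), false)) then (-1 : R) else 1)) := by
        rw [Units.coe_prod]
        push_cast
        apply Finset.prod_congr rfl
        intro i _
        apply Finset.prod_congr rfl
        intro j _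
        cases A (γ ((i, j), false)) <;> simp
      rw [← e4, ← e3 _ (fun e => A (e, false))]
      generalize (∏ e, (if A (e, false) then (-1 : ℤˣ) else 1)) = u1
      generalize (∏ i, (∏ j, (if A (γ ((i, j), false)) then (-1 : ℤˣ) else 1)) : ℤˣ) = u2
      generalize (-1 : ℤˣ) ^ (Fintype.card (Fin m × Fin d)) = u3
      generalize sign γ = u4
      generalize (∏ i, sign (σ i) : ℤˣ) = u5 at e1 ⊢
      generalize (∏ i, ((sign (σ i) : ℤ) : R)) = u6 at e1 ⊢
      push_cast
      calc u6 * (((u3 : ℤ) : R) * (((u4 : ℤ) : R) * ((u5 : ℤ) : R) * (((u1 : ℤ) : R) * ((u2 : ℤ) : R))))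
          = (u6 * ((u5 : ℤ) : R)) * (((u3 : ℤ) : R) * ((u4 : ℤ) : R) * (((u1 : ℤ) : R) * ((u2 : ℤ) : R))) := by ring
        _ = _ := by rw [e1]; ring
    · rw [if_neg h, if_neg h, mul_zero]
  rw [Finset.sum_congr rfl (fun σ _ => h1 σ), Finset.sum_comm, Finset.mul_sum]
  apply Finset.sum_congr rfl
  intro A _
  rw [← Finset.mul_sum, mul_assoc, mul_assoc]
  congr 1
  congr 1
  rw [Finset.prod_mul_distrib]
  congr 1
  have h2 : ∀ σ : Fin m → Perm (Fin d), (if (∀ i j, A (γ ((i, σ i j), true)) = !(A (γ ((i, j), false)))) then (1 : R) else 0) =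
      ∏ i, (if (∀ j, A (γ ((i, σ i j), true)) = !(A (γ ((i, j), false)))) then (1 : R) else 0) := by
    intro σ
    rw [Finset.prod_ite_zero]
    simp
  simp_rw [h2]
  have h3 := Finset.prod_univ_sum (fun _ : Fin m => (Finset.univ : Finset (Perm (Fin d))))
    (fun i τ => (if (∀ j, A (γ ((i, τ j), true)) = !(A (γ ((i, j), false)))) then (1 : R) else 0))
  rw [Fintype.piFinset_univ] at h3
  rw [← h3]
  apply Finset.prod_congr rfl
  intro i _
  rw [Finset.sum_boole]
  rfl

/-- number of `true` values -/
def kk {d : ℕ} (a : Fin d → Bool) : ℕ := (Finset.univ.filter (fun j => a j = true)).card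

theorem kk_false {d : ℕ} (a : Fin d → Bool) :
    (Finset.univ.filter (fun j => a j = false)).card = d - kk a := by
  have h := Finset.card_filter_add_card_filter_not (s := (Finset.univ : Finset (Fin d))) (fun j => a j = true)
  simp only [Bool.not_eq_true, Finset.card_univ, Fintype.card_fin] at h
  unfold kk
  omega

theorem kk_le {d : ℕ} (a : Fin d → Bool) : kk a ≤ d := by
  unfold kk
  exact (Finset.card_le_univ _).trans (by simp)

theorem cnt_eq {d : ℕ} (a b : Fin d → Bool) :
    cnt a b = if kk a + kk b = d then (kk a).factorial * (kk b).factorial else 0 := by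
  by_cases hne : ∃ σ : Perm (Fin d), ∀ j, b (σ j) = !(a j)
  · obtain ⟨σ0, h0⟩ := hne
    have hk : kk b = d - kk a := by
      rw [← kk_false a]
      unfold kk
      symm
      apply Finset.card_bij (fun j _ => σ0 j)
      · intro j hj
        simp only [Finset.mem_filter, Finset.mem_univ, true_and] at hj ⊢
        rw [h0, hj]; rfl
      · intro j _ j' _ h
        exact σ0.injective h
      · intro k hk
        simp only [Finset.mem_filter, Finset.mem_univ, true_and] at hk
        refine ⟨σ0⁻¹ k, ?_, app_inv _ _⟩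
        simp only [Finset.mem_filter, Finset.mem_univ, true_and]
        have := h0 (σ0⁻¹ k)
        rw [app_inv, hk] at this
        cases h : a (σ0⁻¹ k)
        · rfl
        · rw [h] at this; exact absurd this (by decide)
    have hka := kk_le a
    rw [if_pos (by omega)]
    have h1 : cnt a b = Fintype.card {g : Perm (Fin d) // a ∘ g = a} := by
      unfold cnt
      rw [← Fintype.card_subtype]
      apply Fintype.card_congr
      exact
        { toFun := fun σ => ⟨σ0⁻¹ * σ.1, by
            funext j
            have h2 := h0 ((σ0⁻¹ * σ.1) j)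
            rw [Perm.mul_apply, app_inv, σ.2 j] at h2
            simp only [Function.comp]
            rw [Perm.mul_apply]
            exact (Bool.not_inj h2).symm⟩
          invFun := fun ρ => ⟨σ0 * ρ.1, by
            intro j
            rw [Perm.mul_apply, h0]
            have := congrFun ρ.2 j
            simp only [Function.comp] at this
            rw [this]⟩
          left_inv := fun σ => by apply Subtype.ext; simp
          right_inv := fun ρ => by apply Subtype.ext; simp }
    rw [h1, DomMulAct.stabilizer_card, Fintype.prod_bool]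
    rw [Fintype.card_subtype, Fintype.card_subtype, kk_false a, ← hk]
    rfl
  · have h1 : cnt a b = 0 := by
      unfold cnt
      rw [Finset.card_eq_zero, Finset.filter_eq_empty_iff]
      intro σ _ h
      exact hne ⟨σ, h⟩
    rw [h1, if_neg]
    intro hk
    apply hne
    have hc : Fintype.card {j // a j = false} = Fintype.card {j // b j = true} := by
      rw [Fintype.card_subtype, Fintype.card_subtype, kk_false a]
      show d - kk a = kk b
      omega
    let e : {j // a j = false} ≃ {j // b j = true} := Fintype.equivOfCardEq hc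
    refine ⟨e.extendSubtype, ?_⟩
    intro j
    cases h : a j
    · rw [e.extendSubtype_mem j h]; rfl
    · have := e.extendSubtype_not_mem j (by rw [h]; decide)
      simpa using this

/-- ordered pairs -/
abbrev PR (n : ℕ) := {q : Fin n × Fin n // q.1 < q.2}

/-- the vertex chosen in the pair `q` by `b` -/
def endp {n : ℕ} (q : PR n) (b : Bool) : Fin n := if b then q.1.1 else q.1.2

/-- score vector -/
def kv {n : ℕ} (a : PR n → Bool) (v : Fin n) : ℕ := ∑ q : PR n, if endp q (a q) = v then 1 else 0

theorem prod_Ioi {n : ℕ} {S : Type} [CommRing S] (v : Fin n → S) :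
    (Matrix.vandermonde v).det = ∏ q : PR n, (v q.1.2 - v q.1.1) := by
  rw [Matrix.det_vandermonde, Finset.prod_sigma']
  symm
  apply Finset.prod_bij (fun (q : PR n) _ => (⟨q.1.1, q.1.2⟩ : (_ : Fin n) × Fin n))
  · intro q _
    simp [q.2]
  · rintro ⟨⟨a, b⟩, h⟩ _ ⟨⟨a', b'⟩, h'⟩ _ heq
    simp only [Sigma.mk.injEq, heq_eq_eq] at heq
    obtain ⟨h1, h2⟩ := heq
    subst h1 h2
    rfl
  · rintro ⟨a, b⟩ h
    simp only [Finset.mem_sigma, Finset.mem_univ, Finset.mem_Ioi, true_and] at h
    exact ⟨⟨(a, b), h⟩, Finset.mem_univ _, rfl⟩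
  · intro q _
    rfl

theorem vdm_functional {n : ℕ} {R : Type} [CommRing R] (W : (Fin n → ℕ) → R) :
    ∑ a : PR n → Bool, (∏ q, (if a q then (-1 : R) else 1)) * W (kv a) =
      ∑ π : Perm (Fin n), ((sign π : ℤ) : R) * W (fun v => (π v : ℕ)) := by
  let L : MvPolynomial (Fin n) R →ₗ[R] R :=
    (MvPolynomial.basisMonomials (Fin n) R).constr R (fun s => W (⇑s))
  have hL : ∀ (s : Fin n →₀ ℕ) (c : R), L (MvPolynomial.C c * MvPolynomial.monomial s 1) = c * W (⇑s) := by
    intro s c
    rw [← MvPolynomial.smul_eq_C_mul, map_smul, smul_eq_mul]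
    congr 1
    have := (MvPolynomial.basisMonomials (Fin n) R).constr_basis R (fun s => W (⇑s)) s
    rw [MvPolynomial.coe_basisMonomials] at this
    exact this
  have h1 : (Matrix.vandermonde (fun v : Fin n => (MvPolynomial.X v : MvPolynomial (Fin n) R))).det =
      ∑ a : PR n → Bool, MvPolynomial.C (∏ q, (if a q then (-1 : R) else 1)) *
        MvPolynomial.monomial (∑ q : PR n, Finsupp.single (endp q (a q)) 1) 1 := by
    rw [prod_Ioi]
    have h2 : ∀ q : PR n, (MvPolynomial.X q.1.2 - MvPolynomial.X q.1.1 : MvPolynomial (Fin n) R) =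
        ∑ b : Bool, MvPolynomial.C (if b then (-1 : R) else 1) * MvPolynomial.X (endp q b) := by
      intro q
      simp [endp]
      ring
    rw [Finset.prod_congr rfl (fun q _ => h2 q), Finset.prod_univ_sum, Fintype.piFinset_univ]
    apply Finset.sum_congr rfl
    intro a _
    rw [Finset.prod_mul_distrib, map_prod, MvPolynomial.monomial_sum_one]
    rfl
  have h3 : (Matrix.vandermonde (fun v : Fin n => (MvPolynomial.X v : MvPolynomial (Fin n) R))).det =
      ∑ π : Perm (Fin n), MvPolynomial.C (((sign π : ℤ) : R)) *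
        MvPolynomial.monomial (∑ v : Fin n, Finsupp.single v (π v : ℕ)) 1 := by
    rw [← Matrix.det_transpose, Matrix.det_apply']
    apply Finset.sum_congr rfl
    intro π _
    rw [MvPolynomial.monomial_sum_one]
    congr 1
    apply Finset.prod_congr rfl
    intro v _
    simp [Matrix.vandermonde, MvPolynomial.X_pow_eq_monomial]
  have h4 := congrArg L (h1.symm.trans h3)
  rw [map_sum, map_sum] at h4
  simp_rw [hL] at h4
  have h5 : ∀ a : PR n → Bool, (⇑(∑ q : PR n, Finsupp.single (endp q (a q)) 1 : Fin n →₀ ℕ)) = kv a := by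
    intro a
    funext v
    simp only [Finsupp.coe_finsetSum, Finset.sum_apply, kv, Finsupp.single_apply]
  have h6 : ∀ π : Perm (Fin n), (⇑(∑ v : Fin n, Finsupp.single v (π v : ℕ) : Fin n →₀ ℕ)) =
      (fun v => (π v : ℕ)) := by
    intro π
    funext v
    simp [Finsupp.single_apply]
  simp_rw [h5, h6] at h4
  exact h4

/-- a permutation commuting with the flip -/
theorem sign_flip_comm {m : ℕ} (ρ : Perm (Fin m × Bool))
    (hρ : ∀ i b, ρ (i, !b) = ((ρ (i, b)).1, !(ρ (i, b)).2)) :
    ∃ τ : Perm (Fin m), (∀ i, (ρ (i, false)).1 = τ i) ∧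
      sign ρ = ∏ i, (if (ρ (i, false)).2 then (-1 : ℤˣ) else 1) := by
  let c : Fin m → Bool := fun i => (ρ (i, false)).2
  have hc : ∀ i b, ρ (i, b) = ((ρ (i, false)).1, xor b (c i)) := by
    intro i b
    cases b
    · simp [c]
    · have := hρ i false
      simp only [Bool.not_false] at this
      rw [this]; simp [c]
  have hinv : ∀ x, (th c)⁻¹ x = th c x := by
    intro x
    have h : th c (th c x) = x := by
      rw [th_apply, th_apply]; simp
    have h2 := inv_app (th c) (th c x)
    rw [h] at h2
    exact h2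
  let w : Perm (Fin m × Bool) := ρ * (th c)⁻¹
  have hw1 : ∀ i b, w (i, b) = ((ρ (i, false)).1, b) := by
    intro i b
    show ρ ((th c)⁻¹ (i, b)) = _
    rw [hinv, th_apply, hc]
    simp
  obtain ⟨w', hw', hs⟩ := split_perm w (by rintro ⟨i, b⟩; rw [hw1])
  have hw2 : ∀ b i, w' b i = (ρ (i, false)).1 := by
    intro b i
    have := hw' i b
    rw [hw1] at this
    exact (congrArg Prod.fst this).symm
  refine ⟨w' false, fun i => (hw2 false i).symm, ?_⟩
  have h3 : w' false = w' true := by
    ext1 i; rw [hw2, hw2]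
  have h4 : sign w = 1 := by
    rw [hs, h3]
    rcases Int.units_eq_one_or (sign (w' true)) with h | h <;> rw [h] <;> simp
  have h5 : sign ρ = sign w * sign (th c) := by
    show sign ρ = sign (ρ * (th c)⁻¹) * sign (th c)
    rw [Perm.sign_mul, Perm.sign_inv, mul_assoc]
    rcases Int.units_eq_one_or (sign (th c)) with h | h <;> rw [h] <;> simp
  rw [h5, h4, one_mul, sign_th]

/-- the pairing of the vertices -/
noncomputable def e0 {m d : ℕ} (h : 2 * m = d + 1) : Fin m × Bool ≃ Fin (d + 1) :=
  Equiv.ofBijective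
    (fun x => if x.2 then Fin.rev ⟨x.1, by omega⟩ else ⟨x.1, by omega⟩)
    ((Fintype.bijective_iff_injective_and_card _).2 ⟨by
      rintro ⟨i, b⟩ ⟨i', b'⟩ heq
      have hi := i.2
      have hi' := i'.2
      cases b <;> cases b' <;>
      · have := congrArg Fin.val heq
        simp [Fin.val_rev] at this
        first
          | (exfalso; omega)
          | (congr 1; apply Fin.ext; omega), by simp; omega⟩)

theorem e0_false {m d : ℕ} (h : 2 * m = d + 1) (i : Fin m) : (e0 h (i, false)).val = i.val := rfl

theorem e0_true {m d : ℕ} (h : 2 * m = d + 1) (i : Fin m) :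
    e0 h (i, true) = Fin.rev (e0 h (i, false)) := rfl

theorem e0_not {m d : ℕ} (h : 2 * m = d + 1) (i : Fin m) (b : Bool) :
    e0 h (i, !b) = Fin.rev (e0 h (i, b)) := by
  cases b
  · rfl
  · simp only [Bool.not_true]
    rw [e0_true, Fin.rev_rev]

/-- the weight functional -/
noncomputable def Wt (R : Type) [CommRing R] {m d : ℕ} (h : 2 * m = d + 1) (k : Fin (d + 1) → ℕ) : R :=
  ∏ i : Fin m, ((-1 : R) ^ (k (e0 h (i, false))) *
    ((if k (e0 h (i, false)) + k (e0 h (i, true)) = d then
      (k (e0 h (i, false))).factorial * (k (e0 h (i, true))).factorial else 0 : ℕ) : R))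

theorem sign_term {m d : ℕ} (h : 2 * m = d + 1) (π : Perm (Fin (d + 1)))
    (hπ : ∀ v, π (Fin.rev v) = Fin.rev (π v)) :
    ((sign π : ℤˣ)) * ∏ i : Fin m, (-1 : ℤˣ) ^ ((π (e0 h (i, false))).val) = ∏ i : Fin m, (-1 : ℤˣ) ^ (i.val) := by
  let ρ : Perm (Fin m × Bool) := (e0 h).symm.permCongr π
  have hρapp : ∀ x, ρ x = (e0 h).symm (π (e0 h x)) := by
    intro x; simp [ρ, Equiv.permCongr_apply]
  have hρ : ∀ i b, ρ (i, !b) = ((ρ (i, b)).1, !(ρ (i, b)).2) := by
    intro i b
    rw [hρapp, hρapp, e0_not, hπ]
    apply (e0 h).injective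
    rw [Equiv.apply_symm_apply]
    have := e0_not h ((e0 h).symm (π (e0 h (i, b)))).1 ((e0 h).symm (π (e0 h (i, b)))).2
    rw [this, Prod.mk.eta, Equiv.apply_symm_apply]
  obtain ⟨τ, hτ, hs⟩ := sign_flip_comm ρ hρ
  have hsp : sign π = sign ρ := by
    simp only [ρ]; rw [sign_permCongr]
  have hd : Odd d := by
    have : Odd (d + 1 + 1) := by rw [← h]; exact ⟨m, rfl⟩
    rcases Nat.even_or_odd d with hd | hd
    · exact absurd (hd.add_one.add_one) (by simpa [Nat.not_even_iff_odd] using this)
    · exact hd
  have hval : ∀ i, (-1 : ℤˣ) ^ ((π (e0 h (i, false))).val) =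
      (-1 : ℤˣ) ^ ((τ i).val) * (if (ρ (i, false)).2 then (-1 : ℤˣ) else 1) := by
    intro i
    have h1 : π (e0 h (i, false)) = e0 h (ρ (i, false)) := by
      rw [hρapp, Equiv.apply_symm_apply]
    rw [h1]
    have h2 : ρ (i, false) = (τ i, (ρ (i, false)).2) := Prod.ext (hτ i) rfl
    cases hb : (ρ (i, false)).2
    · rw [hb] at h2
      rw [h2, e0_false]; simp
    · rw [hb] at h2
      rw [h2, e0_true, Fin.val_rev, e0_false]
      simp only [if_true]
      have hi := (τ i).2
      have h3 : (-1 : ℤˣ) ^ (d + 1 - ((τ i).val + 1)) * (-1 : ℤˣ) ^ ((τ i).val) = -1 := by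
        rw [← pow_add]
        have : d + 1 - ((τ i).val + 1) + (τ i).val = d := by omega
        rw [this]
        exact hd.neg_one_pow
      have h4 : (-1 : ℤˣ) ^ ((τ i).val) * (-1 : ℤˣ) ^ ((τ i).val) = 1 := by
        rw [← pow_add]; exact Even.neg_one_pow ⟨_, rfl⟩
      calc (-1 : ℤˣ) ^ (d + 1 - ((τ i).val + 1))
          = ((-1 : ℤˣ) ^ (d + 1 - ((τ i).val + 1)) * (-1 : ℤˣ) ^ ((τ i).val)) * (-1 : ℤˣ) ^ ((τ i).val) := by
            rw [mul_assoc, h4, mul_one]
        _ = _ := by rw [h3]; rw [mul_comm]
  rw [Finset.prod_congr rfl (fun i _ => hval i), Finset.prod_mul_distrib, hsp, hs]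
  rw [Equiv.prod_comp τ (fun j => (-1 : ℤˣ) ^ (j.val))]
  have h6 : (∏ i, (if (ρ (i, false)).2 then (-1 : ℤˣ) else 1)) * (∏ i, (if (ρ (i, false)).2 then (-1 : ℤˣ) else 1)) = 1 := by
    rw [← Finset.prod_mul_distrib]
    apply Finset.prod_eq_one
    intro i _
    split_ifs <;> simp
  rw [mul_comm, mul_assoc, h6, mul_one]

theorem final_ne_zero {m d : ℕ} (h : 2 * m = d + 1) (hp : (d + 2).Prime) :
    ∑ π : Perm (Fin (d + 1)), ((sign π : ℤ) : ZMod (d + 2)) * Wt (ZMod (d + 2)) h (fun v => (π v : ℕ)) ≠ 0 := by
  have : Fact (d + 2).Prime := ⟨hp⟩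
  have hterm : ∀ π : Perm (Fin (d + 1)), ((sign π : ℤ) : ZMod (d + 2)) * Wt (ZMod (d + 2)) h (fun v => (π v : ℕ)) =
      if (∀ v, π (Fin.rev v) = Fin.rev (π v)) then
        (((∏ i : Fin m, (-1 : ℤˣ) ^ (i.val) : ℤˣ) : ℤ) : ZMod (d + 2)) *
          ((∏ k : Fin (d + 1), (k.val).factorial : ℕ) : ZMod (d + 2)) else 0 := by
    intro π
    by_cases hπ : (∀ v, π (Fin.rev v) = Fin.rev (π v))
    · rw [if_pos hπ, ← sign_term h π hπ]
      have hW : Wt (ZMod (d + 2)) h (fun v => (π v : ℕ)) =
          (∏ i : Fin m, (-1 : ZMod (d + 2)) ^ ((π (e0 h (i, false))).val)) *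
            ((∏ k : Fin (d + 1), (k.val).factorial : ℕ) : ZMod (d + 2)) := by
        unfold Wt
        rw [Finset.prod_mul_distrib]
        congr 1
        rw [← Equiv.prod_comp π (fun k : Fin (d + 1) => (k.val).factorial), ← Equiv.prod_comp (e0 h), Fintype.prod_prod_type]
        push_cast
        apply Finset.prod_congr rfl
        intro i _
        rw [Fintype.prod_bool]
        have : (π (e0 h (i, false))).val + (π (e0 h (i, true))).val = d := by
          rw [e0_true, hπ, Fin.val_rev]
          have := (π (e0 h (i, false))).2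
          omega
        rw [if_pos this]
        push_cast
        ring
      rw [hW]
      push_cast
      rw [mul_assoc]
    · rw [if_neg hπ]
      have hW : Wt (ZMod (d + 2)) h (fun v => (π v : ℕ)) = 0 := by
        push Not at hπ
        obtain ⟨v, hv⟩ := hπ
        obtain ⟨⟨i, b⟩, rfl⟩ := (e0 h).surjective v
        unfold Wt
        apply Finset.prod_eq_zero (Finset.mem_univ i)
        rw [if_neg]
        · simp
        · intro hsum
          apply hv
          beta_reduce at hsum
          rw [← e0_not]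
          apply Fin.ext
          rw [Fin.val_rev]
          have h1 := (π (e0 h (i, false))).2
          have h2 := (π (e0 h (i, true))).2
          cases b
          · simp only [Bool.not_false]; omega
          · simp only [Bool.not_true]; omega
      rw [hW, mul_zero]
  rw [Finset.sum_congr rfl (fun π _ => hterm π), ← Finset.sum_filter, Finset.sum_const, nsmul_eq_mul]
  apply mul_ne_zero
  · -- cardinality
    let S : Subgroup (Perm (Fin (d + 1))) := Subgroup.centralizer {Fin.revPerm}
    have hS : (Finset.univ.filter (fun π : Perm (Fin (d + 1)) => ∀ v, π (Fin.rev v) = Fin.rev (π v))).card = Nat.card S := by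
      rw [← Fintype.card_subtype, ← Nat.card_eq_fintype_card]
      apply Nat.card_congr
      apply Equiv.subtypeEquivRight
      intro π
      simp only [S, Subgroup.mem_centralizer_iff, Set.mem_singleton_iff, forall_eq]
      rw [Equiv.ext_iff]
      constructor
      · intro h v; rw [Perm.mul_apply, Perm.mul_apply, Fin.revPerm_apply, Fin.revPerm_apply, h]
      · intro h v; have := h v; rw [Perm.mul_apply, Perm.mul_apply, Fin.revPerm_apply, Fin.revPerm_apply] at this; exact this.symm
    rw [hS]
    have hdvd : Nat.card S ∣ (d + 1).factorial := by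
      have := Subgroup.card_subgroup_dvd_card S
      rwa [Nat.card_eq_fintype_card (α := Perm (Fin (d + 1))), Fintype.card_perm, Fintype.card_fin] at this
    rw [Ne, ZMod.natCast_eq_zero_iff]
    intro hd2
    have := (hp.dvd_factorial).1 (hd2.trans hdvd)
    omega
  · apply mul_ne_zero
    · have : (((∏ i : Fin m, (-1 : ℤˣ) ^ (i.val) : ℤˣ) : ℤ) : ZMod (d + 2)) = 1 ∨
          (((∏ i : Fin m, (-1 : ℤˣ) ^ (i.val) : ℤˣ) : ℤ) : ZMod (d + 2)) = -1 := by
        rcases Int.units_eq_one_or (∏ i : Fin m, (-1 : ℤˣ) ^ (i.val)) with h | h <;> rw [h] <;> simp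
      rcases this with h | h <;> rw [h] <;> simp
    · rw [Nat.cast_prod, Finset.prod_ne_zero_iff]
      intro k _
      rw [Ne, ZMod.natCast_eq_zero_iff]
      intro hd2
      have := (hp.dvd_factorial).1 hd2
      have := k.2
      omega

/-- half-edges of the complete graph as ordered pairs -/
noncomputable def slotE {m d : ℕ} (h : 2 * m = d + 1) :
    Hf m d ≃ {q : Fin (d + 1) × Fin (d + 1) // q.1 ≠ q.2} where
  toFun x := ⟨(e0 h (x.1.1, x.2), (e0 h (x.1.1, x.2)).succAbove x.1.2), Fin.ne_succAbove _ _⟩
  invFun q := ((((e0 h).symm q.1.1).1, (finSuccAboveEquiv q.1.1).symm ⟨q.1.2, Ne.symm q.2⟩), ((e0 h).symm q.1.1).2)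
  left_inv := by
    rintro ⟨⟨i, j⟩, b⟩
    simp only
    have h1 : (e0 h).symm (e0 h (i, b)) = (i, b) := Equiv.symm_apply_apply _ _
    rw [h1]
    congr 2
    exact (finSuccAboveEquiv (e0 h (i, b))).symm_apply_apply j
  right_inv := by
    rintro ⟨⟨v, u⟩, hq⟩
    apply Subtype.ext
    simp only
    have h1 : (((e0 h).symm v).1, ((e0 h).symm v).2) = (e0 h).symm v := rfl
    rw [h1, Equiv.apply_symm_apply]
    congr 1
    exact congrArg Subtype.val ((finSuccAboveEquiv v).apply_symm_apply ⟨u, Ne.symm hq⟩)

/-- ordered pairs of distinct vertices as an edge with an end -/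
def neE (n : ℕ) : {q : Fin n × Fin n // q.1 ≠ q.2} ≃ PR n × Bool where
  toFun q := if h : q.1.1 < q.1.2 then (⟨(q.1.1, q.1.2), h⟩, false)
    else (⟨(q.1.2, q.1.1), lt_of_le_of_ne (not_lt.1 h) (Ne.symm q.2)⟩, true)
  invFun x := if x.2 then ⟨(x.1.1.2, x.1.1.1), ne_of_gt x.1.2⟩ else ⟨(x.1.1.1, x.1.1.2), ne_of_lt x.1.2⟩
  left_inv := by
    rintro ⟨⟨v, u⟩, hq⟩
    by_cases h : v < u
    · simp [h]
    · simp [h]
  right_inv := by
    rintro ⟨⟨⟨v, u⟩, hq⟩, b⟩
    cases b
    · simp at hq
      simp [hq]
    · simp at hq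
      simp [not_lt.2 hq.le]

theorem neE_end {n : ℕ} (q : {q : Fin n × Fin n // q.1 ≠ q.2}) :
    q.1.1 = endp (neE n q).1 (!(neE n q).2) ∧ q.1.2 = endp (neE n q).1 (neE n q).2 := by
  obtain ⟨⟨v, u⟩, hq⟩ := q
  unfold neE endp
  by_cases h : v < u
  · simp [h]
  · simp [h]

theorem card_PR {m d : ℕ} (h : 2 * m = d + 1) : Fintype.card (PR (d + 1)) = Fintype.card (Fin m × Fin d) := by
  have h1 := Fintype.card_congr ((slotE h).trans (neE (d + 1)))
  rw [Fintype.card_prod, Fintype.card_prod (PR (d+1))] at h1
  simp only [Fintype.card_bool] at h1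
  omega

noncomputable def kap {m d : ℕ} (h : 2 * m = d + 1) : PR (d + 1) ≃ Fin m × Fin d :=
  Fintype.equivOfCardEq (card_PR h)

/-- the complete graph -/
noncomputable def gam {m d : ℕ} (h : 2 * m = d + 1) : Perm (Hf m d) :=
  ((slotE h).trans (neE (d + 1))).trans ((kap h).prodCongr (Equiv.refl Bool))

theorem gam_apply {m d : ℕ} (h : 2 * m = d + 1) (x : Hf m d) :
    gam h x = (kap h (neE _ (slotE h x)).1, (neE _ (slotE h x)).2) := rfl

/-- orientation from a choice on pairs -/
noncomputable def ext {m d : ℕ} (h : 2 * m = d + 1) (a : PR (d + 1) → Bool) : Hf m d → Bool :=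
  fun x => xor x.2 (a ((kap h).symm x.1))

theorem kk_ext {m d : ℕ} (h : 2 * m = d + 1) (a : PR (d + 1) → Bool) (i : Fin m) (b : Bool) :
    kk (fun j => ext h a (gam h ((i, j), b))) = kv a (e0 h (i, b)) := by
  unfold kk kv
  rw [Finset.sum_boole]
  simp only [Nat.cast_id]
  have hsl : ∀ j, (slotE h ((i, j), b)).1 = (e0 h (i, b), (e0 h (i, b)).succAbove j) := fun j => rfl
  have hA : ∀ j, ext h a (gam h ((i, j), b)) =
      xor (neE _ (slotE h ((i, j), b))).2 (a (neE _ (slotE h ((i, j), b))).1) := by
    intro j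
    unfold ext
    rw [gam_apply]
    simp
  have hend : ∀ (q : PR (d+1)) (β : Bool), endp q β ≠ endp q (!β) := by
    intro q β
    have := q.2
    unfold endp
    cases β
    · simp; exact ne_of_gt this
    · simp; exact ne_of_lt this
  apply Finset.card_bij (fun j _ => (neE _ (slotE h ((i, j), b))).1)
  · intro j hj
    simp only [Finset.mem_filter, Finset.mem_univ, true_and] at hj ⊢
    rw [hA] at hj
    have h1 := (neE_end (slotE h ((i, j), b))).1
    rw [hsl] at h1
    simp only at h1
    rw [h1]
    congr 1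
    revert hj
    cases a (neE (d + 1) (slotE h ((i, j), b))).1 <;> cases (neE (d + 1) (slotE h ((i, j), b))).2 <;> simp
  · intro j hj j' hj' heq
    simp only [Finset.mem_filter, Finset.mem_univ, true_and] at hj hj'
    rw [hA] at hj hj'
    rw [heq] at hj
    have h2 : (neE _ (slotE h ((i, j), b))).2 = (neE _ (slotE h ((i, j'), b))).2 := by
      revert hj hj'
      cases a (neE (d + 1) (slotE h ((i, j'), b))).1 <;> cases (neE (d + 1) (slotE h ((i, j), b))).2 <;>
        cases (neE (d + 1) (slotE h ((i, j'), b))).2 <;> simp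
    have h3 := (neE (d+1)).injective (Prod.ext heq h2)
    have h4 := (slotE h).injective h3
    simpa using h4
  · intro q hq
    simp only [Finset.mem_filter, Finset.mem_univ, true_and] at hq
    -- other endpoint
    have hne : endp q (!(a q)) ≠ e0 h (i, b) := by
      rw [← hq]; exact (hend q (a q)).symm
    obtain ⟨j, hj⟩ := Fin.exists_succAbove_eq hne
    have hs : slotE h ((i, j), b) = (neE (d+1)).symm (q, !(a q)) := by
      apply (neE (d+1)).injective
      rw [Equiv.apply_symm_apply]
      have h1 : slotE h ((i, j), b) = (neE (d+1)).symm (q, !(a q)) := by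
        apply Subtype.ext
        rw [hsl, hj, ← hq]
        cases ha : a q
        · simp [neE, endp]
        · simp [neE, endp]
      rw [h1, Equiv.apply_symm_apply]
    refine ⟨j, ?_, ?_⟩
    · simp only [Finset.mem_filter, Finset.mem_univ, true_and]
      rw [hA, hs, Equiv.apply_symm_apply]
      simp
    · rw [hs, Equiv.apply_symm_apply]

theorem coeff_ne_zero {m d : ℕ} (h : 2 * m = d + 1) (hp : (d + 2).Prime)
    (t : (Fin m × Fin d) →₀ ℕ) (ht : ∀ e, t e = d - 1) :
    MvPolynomial.coeff t (PP (ZMod (d + 2)) (gam h)) ≠ 0 := by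
  intro h0
  have hd : ((d : ℕ) : ZMod (d + 2)) = -2 := by
    have := ZMod.natCast_self (d + 2)
    push_cast at this
    exact eq_neg_of_add_eq_zero_left this
  have hmain := main_identity hd (gam h) t ht
  rw [h0, mul_zero] at hmain
  have hu : IsUnit ((((-1 : ℤˣ) ^ (Fintype.card (Fin m × Fin d)) * sign (gam h) : ℤˣ) : ℤ) : ZMod (d + 2)) := by
    rcases Int.units_eq_one_or ((-1 : ℤˣ) ^ (Fintype.card (Fin m × Fin d)) * sign (gam h)) with h | h <;>
      rw [h] <;> simp
  have hsum := (hu.mul_right_eq_zero).1 hmain.symm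
  apply final_ne_zero h hp
  rw [← vdm_functional, ← hsum]
  symm
  symm
  apply Finset.sum_bij (fun (a : PR (d + 1) → Bool) _ => ext h a)
  · intro a _
    simp only [Finset.mem_filter, Finset.mem_univ, true_and]
    intro x
    unfold ext
    cases x.2 <;> simp
  · intro a _ a' _ heq
    funext q
    have := congrFun heq (kap h q, false)
    simpa [ext] using this
  · intro A hA
    simp only [Finset.mem_filter, Finset.mem_univ, true_and] at hA
    refine ⟨fun q => A (kap h q, false), Finset.mem_univ _, ?_⟩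
    funext x
    obtain ⟨e, b⟩ := x
    unfold ext
    cases b
    · simp
    · have := hA (e, false)
      simp only [Bool.not_false] at this
      simp [this]
  · intro a _
    congr 1
    · rw [← Equiv.prod_comp (kap h)]
      apply Finset.prod_congr rfl
      intro q _
      simp [ext]
    · unfold Wt
      apply Finset.prod_congr rfl
      intro i _
      rw [cnt_eq, kk_ext, kk_ext]
      congr 1
      rw [← kk_ext]
      unfold kk
      rw [Finset.prod_ite, Finset.prod_const_one, mul_one, Finset.prod_const]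

theorem PP_map {R S : Type} [CommRing R] [CommRing S] (φ : R →+* S) {m d : ℕ} (γ : Perm (Hf m d)) :
    MvPolynomial.map φ (PP R γ) = PP S γ := by
  unfold PP
  rw [map_prod]
  apply Finset.prod_congr rfl
  intro v _
  rw [RingHom.map_det]
  congr 1
  ext i j
  simp [Matrix.vandermonde]

theorem PP_homog {R : Type} [CommRing R] {m d : ℕ} (γ : Perm (Hf m d)) :
    ∃ N : ℕ, (PP R γ).IsHomogeneous N := by
  refine ⟨∑ v : Fin m × Bool, ∑ i : Fin d, ∑ j ∈ Finset.Ioi i, 1, ?_⟩
  unfold PP
  apply MvPolynomial.IsHomogeneous.prod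
  intro v _
  rw [Matrix.det_vandermonde]
  apply MvPolynomial.IsHomogeneous.prod
  intro i _
  apply MvPolynomial.IsHomogeneous.prod
  intro j _
  exact (MvPolynomial.isHomogeneous_X _ _).sub (MvPolynomial.isHomogeneous_X _ _)

theorem choose_pairs {m d : ℕ} (h : 2 * m = d + 1) (hp : (d + 2).Prime) (L : PR (d + 1) → Finset ℕ)
    (hL : ∀ q, d ≤ (L q).card) :
    ∃ c : PR (d + 1) → ℕ, (∀ q, c q ∈ L q) ∧
      ∀ q q', q ≠ q' → (∃ b b', endp q b = endp q' b') → c q ≠ c q' := by
  classical
  have hdpos : 0 < d := by omega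
  let t : (Fin m × Fin d) →₀ ℕ := Finsupp.equivFunOnFinite.symm (fun _ => d - 1)
  have ht : ∀ e, t e = d - 1 := fun e => rfl
  have hc := coeff_ne_zero h hp t ht
  have hcZ : MvPolynomial.coeff t (PP ℤ (gam h)) ≠ 0 := by
    intro h0
    apply hc
    rw [← PP_map (Int.castRingHom (ZMod (d + 2))), MvPolynomial.coeff_map, h0, map_zero]
  obtain ⟨N, hN⟩ := PP_homog (R := ℤ) (gam h)
  have hne : PP ℤ (gam h) ≠ 0 := by
    intro h0; apply hcZ; rw [h0]; simp
  have htN : t.degree = N := by
    have := hN hcZ
    rw [Pi.one_def, ← Finsupp.degree_eq_weight_one] at this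
    exact this
  obtain ⟨s, hs1, hs2⟩ := MvPolynomial.combinatorial_nullstellensatz_exists_eval_nonzero
    (PP ℤ (gam h)) t hcZ (by rw [htN]; exact hN.totalDegree hne)
    (fun e => (L ((kap h).symm e)).map Nat.castEmbedding)
    (fun e => by rw [ht, Finset.card_map]; have := hL ((kap h).symm e); omega)
  have hs3 : ∀ q, ∃ n ∈ L q, (n : ℤ) = s (kap h q) := by
    intro q
    have := hs1 (kap h q)
    rw [Finset.mem_map] at this
    obtain ⟨n, hn, hn2⟩ := this
    rw [Equiv.symm_apply_apply] at hn
    exact ⟨n, hn, hn2⟩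
  choose c hc1 hc2 using hs3
  refine ⟨c, hc1, ?_⟩
  intro q q' hqq hb heq
  obtain ⟨b, b', hbb⟩ := hb
  -- evaluate
  have h1 : (MvPolynomial.eval s) (PP ℤ (gam h)) =
      ∏ v : Fin m × Bool, (Matrix.vandermonde (fun j : Fin d => s (gam h ((v.1, j), v.2)).1)).det := by
    unfold PP
    rw [map_prod]
    apply Finset.prod_congr rfl
    intro v _
    rw [RingHom.map_det]
    congr 1
    ext i j
    simp [Matrix.vandermonde]
  rw [h1, Finset.prod_ne_zero_iff] at hs2
  -- slots
  have hslot : ∀ (q : PR (d+1)) (b : Bool), ∃ j : Fin d,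
      (gam h ((((e0 h).symm (endp q b)).1, j), ((e0 h).symm (endp q b)).2)).1 = kap h q := by
    intro q b
    have hend : endp q (!b) ≠ endp q b := by
      have := q.2
      unfold endp
      cases b
      · simp; exact ne_of_lt this
      · simp; exact ne_of_gt this
    obtain ⟨j, hj⟩ := Fin.exists_succAbove_eq hend
    refine ⟨j, ?_⟩
    rw [gam_apply]
    simp only
    congr 1
    have h2 : slotE h ((((e0 h).symm (endp q b)).1, j), ((e0 h).symm (endp q b)).2) = (neE (d+1)).symm (q, !b) := by
      apply Subtype.ext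
      show (e0 h (((e0 h).symm (endp q b)).1, ((e0 h).symm (endp q b)).2),
        (e0 h (((e0 h).symm (endp q b)).1, ((e0 h).symm (endp q b)).2)).succAbove j) = _
      rw [Prod.mk.eta, Equiv.apply_symm_apply, hj]
      cases b
      · simp [neE, endp]
      · simp [neE, endp]
    rw [h2, Equiv.apply_symm_apply]
  obtain ⟨j, hj⟩ := hslot q b
  obtain ⟨j', hj'⟩ := hslot q' b'
  rw [← hbb] at hj'
  have hv := hs2 ((e0 h).symm (endp q b)) (Finset.mem_univ _)
  rw [Matrix.det_vandermonde_ne_zero_iff] at hv
  have hjj : j = j' := by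
    apply hv
    show s (gam h ((((e0 h).symm (endp q b)).1, j), ((e0 h).symm (endp q b)).2)).1 =
      s (gam h ((((e0 h).symm (endp q b)).1, j'), ((e0 h).symm (endp q b)).2)).1
    rw [hj, hj', ← hc2, ← hc2, heq]
  rw [hjj] at hj
  exact hqq ((kap h).injective (hj.symm.trans hj'))

/-- every graph on `n` vertices, `n+1` prime, is `(n-1)`-edge-choosable -/
theorem choosable (V : Type) [Fintype V] (hV : (Fintype.card V + 1).Prime) (G : SimpleGraph V)
    (L : G.edgeSet → Finset ℕ) (hL : ∀ e, Fintype.card V - 1 ≤ (L e).card) :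
    ∃ f : G.edgeSet → ℕ, (∀ e, f e ∈ L e) ∧ ∀ e e', G.lineGraph.Adj e e' → f e ≠ f e' := by
  classical
  by_cases h1 : Fintype.card V = 1
  · have hsub : Subsingleton V := Fintype.card_le_one_iff_subsingleton.1 h1.le
    have hempty : IsEmpty G.edgeSet := by
      constructor
      rintro ⟨e, he⟩
      induction e with
      | h u w =>
        rw [SimpleGraph.mem_edgeSet] at he
        exact he.ne (Subsingleton.elim u w)
    exact ⟨fun e => 0, fun e => (hempty.false e).elim, fun e => (hempty.false e).elim⟩
  · have hodd : Odd (Fintype.card V + 1) := hV.odd_of_ne_two (by omega)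
    obtain ⟨m, hm⟩ := hodd
    have hpos : 0 < Fintype.card V := by
      rcases Nat.eq_zero_or_pos (Fintype.card V) with h0 | h0
      · rw [h0] at hV; exact absurd hV (by decide)
      · exact h0
    obtain ⟨d, hd⟩ : ∃ d, Fintype.card V = d + 1 := ⟨Fintype.card V - 1, by omega⟩
    have hmd : 2 * m = d + 1 := by omega
    have hp : (d + 2).Prime := by rw [hd] at hV; exact hV
    let ε : V ≃ Fin (d + 1) := Fintype.equivFinOfCardEq hd
    let edge : PR (d + 1) → Sym2 V := fun q => s(ε.symm q.1.1, ε.symm q.1.2)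
    let L' : PR (d + 1) → Finset ℕ := fun q =>
      if hq : edge q ∈ G.edgeSet then L ⟨edge q, hq⟩ else Finset.range d
    have hL' : ∀ q, d ≤ (L' q).card := by
      intro q
      by_cases hq : edge q ∈ G.edgeSet
      · simp only [L', dif_pos hq]
        have := hL ⟨edge q, hq⟩
        omega
      · simp only [L', dif_neg hq, Finset.card_range, le_refl]
    obtain ⟨c, hc1, hc2⟩ := choose_pairs hmd hp L' hL'
    have hrep : ∀ e : G.edgeSet, ∃ q : PR (d + 1), edge q = e.1 := by
      rintro ⟨e, he⟩
      induction e with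
      | h u w =>
        rw [SimpleGraph.mem_edgeSet] at he
        have hne : ε u ≠ ε w := fun h => he.ne (ε.injective h)
        rcases lt_or_gt_of_ne hne with hlt | hlt
        · exact ⟨⟨(ε u, ε w), hlt⟩, by simp [edge]⟩
        · exact ⟨⟨(ε w, ε u), hlt⟩, by simp [edge, Sym2.eq_swap]⟩
    choose rep hrep using hrep
    refine ⟨fun e => c (rep e), ?_, ?_⟩
    · intro e
      have h2 := hc1 (rep e)
      have h3 : edge (rep e) ∈ G.edgeSet := by rw [hrep]; exact e.2
      simp only [L', dif_pos h3] at h2
      have h4 : (⟨edge (rep e), h3⟩ : G.edgeSet) = e := Subtype.ext (hrep e)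
      rw [h4] at h2
      exact h2
    · intro e e' hadj
      rw [SimpleGraph.lineGraph_adj_iff_exists] at hadj
      obtain ⟨hne, v, hv, hv'⟩ := hadj
      have hmem : ∀ (q : PR (d + 1)), v ∈ edge q → ∃ b, endp q b = ε v := by
        intro q hq
        simp only [edge, Sym2.mem_iff] at hq
        rcases hq with hq | hq
        · exact ⟨true, by simp [endp, hq]⟩
        · exact ⟨false, by simp [endp, hq]⟩
      apply hc2
      · intro h
        apply hne
        apply Subtype.ext
        rw [← hrep e, ← hrep e', h]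
      · obtain ⟨b, hb⟩ := hmem (rep e) (by rw [hrep]; exact hv)
        obtain ⟨b', hb'⟩ := hmem (rep e') (by rw [hrep]; exact hv')
        exact ⟨b, b', hb.trans hb'.symm⟩

theorem main (V : Type) [Fintype V] (hV : (Fintype.card V + 1).Prime) (G : SimpleGraph V)
    (hG : ∃ v, ∀ w, w ≠ v → G.Adj v w) (k : ℕ) :
    G.lineGraph.Colorable k ↔
        ∀ L : G.edgeSet → Finset ℕ, (∀ e, k ≤ (L e).card) →
          ∃ f : G.edgeSet → ℕ, (∀ e, f e ∈ L e) ∧
            ∀ e e', G.lineGraph.Adj e e' → f e ≠ f e' := by
  classical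
  constructor
  · rintro ⟨C⟩ L hL
    obtain ⟨v, hv⟩ := hG
    have hk : Fintype.card V - 1 ≤ k := by
      let F : {w : V // w ≠ v} → Fin k := fun w => C ⟨s(v, w.1), (SimpleGraph.mem_edgeSet G).2 (hv w.1 w.2)⟩
      have hF : Function.Injective F := by
        intro w w' hww
        by_contra hne
        have hadj : G.lineGraph.Adj ⟨s(v, w.1), (SimpleGraph.mem_edgeSet G).2 (hv w.1 w.2)⟩
            ⟨s(v, w'.1), (SimpleGraph.mem_edgeSet G).2 (hv w'.1 w'.2)⟩ := by
          rw [SimpleGraph.lineGraph_adj_iff_exists]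
          refine ⟨?_, v, by simp, by simp⟩
          intro h
          have h2 := congrArg Subtype.val h
          simp only [Sym2.congr_right] at h2
          exact hne (Subtype.ext h2)
        exact C.valid hadj hww
      have := Fintype.card_le_of_injective F hF
      rw [Fintype.card_fin] at this
      have h3 : Fintype.card {w : V // w ≠ v} = Fintype.card V - 1 := by
        rw [Fintype.card_subtype_compl, Fintype.card_subtype_eq]
      rw [h3] at this
      exact this
    exact choosable V hV G L (fun e => hk.trans (hL e))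
  · intro h
    obtain ⟨f, hf1, hf2⟩ := h (fun _ => Finset.range k) (fun e => by simp)
    refine ⟨SimpleGraph.Coloring.mk (fun e => ⟨f e, Finset.mem_range.1 (hf1 e)⟩) ?_⟩
    intro e e' hadj heq
    exact hf2 e e' hadj (congrArg Fin.val heq)

end Pool.Agent.Helper15.LEC
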