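import Mathlib
import Pool.Agent.Helper15.LEC

set_option autoImplicit false

namespace Pool.Agent.Helper15.Slots

open Equiv Equiv.Perm Pool.Agent.Helper15.LEC

theorem exists_A {E : Type} [Fintype E] [DecidableEq E] (g : Perm (E × Bool)) :
    ∃ A : E × Bool → Bool, (∀ x : E × Bool, A (x.1, !x.2) = !(A x)) ∧
          (∀ x : E × Bool, A (g (x.1, !x.2)) = !(A (g x))) := by
  let fl : Perm (E × Bool) := th (fun _ => true)
  have hfl : ∀ x, fl x = (x.1, !x.2) := by
    intro x; show th _ x = _; rw [th_apply]; simp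
  have hfl2 : fl * fl = 1 := by
    ext1 x; rw [Perm.mul_apply, hfl, hfl]; simp
  obtain ⟨A, h1, h2⟩ := exists_two_colouring fl (g * fl * g⁻¹) hfl2
    (by
      have : g * fl * g⁻¹ * (g * fl * g⁻¹) = g * (fl * fl) * g⁻¹ := by group
      rw [this, hfl2]; group)
    (by intro x h; rw [hfl] at h
        have := congrArg Prod.snd h
        simp at this)
    (by intro x h
        have h3 : fl (g⁻¹ x) = g⁻¹ x := by
          have := congrArg (fun y => g⁻¹ y) h
          simp only [Perm.mul_apply] at this
          rw [inv_app] at this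
          exact this
        rw [hfl] at h3
        have := congrArg Prod.snd h3
        simp at this)
  refine ⟨A, ?_, ?_⟩
  · intro x
    rw [← hfl]; exact h1 x
  · intro x
    rw [← hfl]
    have := h2 (g x)
    simp only [Perm.mul_apply] at this
    rw [inv_app] at this
    exact this

theorem card_SS_rev_id {E : Type} [Fintype E] [DecidableEq E] (d : ℕ) (g : Perm (E × Bool)) :
    Nat.card (SS (Fin d) Fin.rev g) = Nat.card (SS (Fin d) id g) := by
  obtain ⟨A, h1, h2⟩ := exists_A g
  obtain ⟨l, hl, -⟩ := core g A h1 h2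
  rw [hl (Fin d) Fin.rev Fin.rev_rev, hl (Fin d) id (fun _ => rfl)]

theorem FM_pair_id {R : Type} [CommRing R] {d : ℕ} (f g : Fin d → Fin d) :
    (FM R f).det * (FM R g).det =
      ∑ σ : Perm (Fin d), ((sign σ : ℤ) : R) * (if (∀ j, g (σ j) = f j) then 1 else 0) := by
  have h1 : (FM R f).det * (FM R g).det = (FM R f * (FM R g).transpose).det := by
    rw [Matrix.det_mul, Matrix.det_transpose]
  have h2 : FM R f * (FM R g).transpose =
      Matrix.of fun j k => if g k = f j then (1 : R) else 0 := by
    ext j k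
    simp only [Matrix.mul_apply, FM, Matrix.of_apply, Matrix.transpose_apply]
    rw [Finset.sum_eq_single (f j)]
    · simp
    · intro b _ hb
      rw [if_neg (Ne.symm hb)]; simp
    · intro h; exact absurd (Finset.mem_univ _) h
  rw [h1, h2, ← Matrix.det_transpose, Matrix.det_apply']
  apply Finset.sum_congr rfl
  intro σ _
  congr 1
  simp only [Matrix.transpose_apply, Matrix.of_apply]
  rw [Finset.prod_ite_zero]
  simp

theorem card_labels_id {m d : ℕ} (γ : Perm (Hf m d)) (σ : Fin m → Perm (Fin d)) :
    (Finset.univ.filter (fun f : Hf m d → Fin d =>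
      (∀ x : Hf m d, f (γ⁻¹ (x.1, !x.2)) = f (γ⁻¹ x)) ∧
      (∀ i j, f ((i, σ i j), true) = f ((i, j), false)))).card =
    Nat.card (SS (Fin d) id (γ * sg σ)) := by
  rw [Nat.card_eq_fintype_card, ← Fintype.card_subtype]
  apply Fintype.card_congr
  exact
    { toFun := fun f => ⟨fun x => f.1 (γ⁻¹ x), by
        refine ⟨f.2.1, ?_⟩
        rintro ⟨⟨i, j⟩, b⟩
        simp only [Perm.mul_apply, inv_app, id]
        cases b
        · simp only [Bool.not_false]
          rw [sg_true, sg_false]
          exact f.2.2 i j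
        · simp only [Bool.not_true]
          rw [sg_true, sg_false]
          rw [f.2.2 i j]⟩
      invFun := fun f => ⟨fun x => f.1 (γ x), by
        refine ⟨?_, ?_⟩
        · intro x
          simp only [app_inv]
          exact f.2.1 x
        · intro i j
          have := f.2.2 ((i, j), false)
          simp only [Perm.mul_apply, Bool.not_false] at this
          rw [sg_true, sg_false] at this
          exact this⟩
      left_inv := fun f => by apply Subtype.ext; funext x; simp only [inv_app]
      right_inv := fun f => by apply Subtype.ext; funext x; simp only [app_inv] }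

/-- the signed count with identity pairing -/
noncomputable def SI (R : Type) [CommRing R] {m d : ℕ} (γ : Perm (Hf m d)) : R :=
  ∑ f : Hf m d → Fin d,
      (if (∀ x : Hf m d, f (γ⁻¹ (x.1, !x.2)) = f (γ⁻¹ x)) then
        (∏ v : Fin m × Bool, (FM R (fun j => f ((v.1, j), v.2))).det) else 0)

theorem SI_sum {R : Type} [CommRing R] {m d : ℕ} (γ : Perm (Hf m d)) :
    SI R γ =
      ∑ σ : Fin m → Perm (Fin d), (∏ i, ((sign (σ i) : ℤ) : R)) *
        (Nat.card (SS (Fin d) id (γ * sg σ)) : R) := by
  have h1 : ∀ f : Hf m d → Fin d,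
      (∏ v : Fin m × Bool, (FM R (fun j => f ((v.1, j), v.2))).det) =
      ∑ σ : Fin m → Perm (Fin d), (∏ i, ((sign (σ i) : ℤ) : R)) *
        (if (∀ i j, f ((i, σ i j), true) = f ((i, j), false)) then 1 else 0) := by
    intro f
    rw [Fintype.prod_prod_type]
    simp_rw [Fintype.prod_bool]
    have h3 : ∀ i : Fin m,
        ((FM R fun j => f ((i, j), true)).det * (FM R fun j => f ((i, j), false)).det) =
        ∑ σ : Perm (Fin d), ((sign σ : ℤ) : R) *
          (if (∀ j, f ((i, σ j), true) = f ((i, j), false)) then 1 else 0) := by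
      intro i
      rw [mul_comm (FM R fun j => f ((i, j), true)).det]
      exact FM_pair_id _ _
    rw [Finset.prod_congr rfl (fun i _ => h3 i)]
    rw [Finset.prod_univ_sum, Fintype.piFinset_univ]
    apply Finset.sum_congr rfl
    intro σ _
    rw [Finset.prod_mul_distrib]
    congr 1
    rw [Finset.prod_ite_zero]
    simp
  unfold SI
  have h4 : ∀ f : Hf m d → Fin d,
      (if (∀ x : Hf m d, f (γ⁻¹ (x.1, !x.2)) = f (γ⁻¹ x)) then
        (∏ v : Fin m × Bool, (FM R (fun j => f ((v.1, j), v.2))).det) else 0) =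
      ∑ σ : Fin m → Perm (Fin d), (∏ i, ((sign (σ i) : ℤ) : R)) *
        (if ((∀ x : Hf m d, f (γ⁻¹ (x.1, !x.2)) = f (γ⁻¹ x)) ∧
          (∀ i j, f ((i, σ i j), true) = f ((i, j), false))) then 1 else 0) := by
    intro f
    by_cases h : (∀ x : Hf m d, f (γ⁻¹ (x.1, !x.2)) = f (γ⁻¹ x))
    · rw [if_pos h, h1]
      apply Finset.sum_congr rfl
      intro σ _
      congr 1
      simp only [h, true_and, implies_true]
    · rw [if_neg h]
      symm
      apply Finset.sum_eq_zero
      intro σ _
      rw [if_neg (fun h' => h h'.1), mul_zero]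
  rw [Finset.sum_congr rfl (fun f _ => h4 f), Finset.sum_comm]
  apply Finset.sum_congr rfl
  intro σ _
  rw [← Finset.mul_sum]
  congr 1
  rw [← card_labels_id, Finset.sum_boole]

theorem SI_coeff {R : Type} [CommRing R] {m d : ℕ} (γ : Perm (Hf m d))
    (t : (Fin m × Fin d) →₀ ℕ) (ht : ∀ e, t e = d - 1) :
    SI R γ = (FM R (Fin.rev : Fin d → Fin d)).det ^ m * MvPolynomial.coeff t (PP R γ) := by
  rw [coeff_PP_sum γ t ht, SI_sum]
  apply Finset.sum_congr rfl
  intro σ _
  rw [card_SS_rev_id]

theorem SI_cast {R : Type} [CommRing R] {m d : ℕ} (γ : Perm (Hf m d)) :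
    ((SI ℤ γ : ℤ) : R) = SI R γ := by
  unfold SI
  rw [Int.cast_sum]
  apply Finset.sum_congr rfl
  intro f _
  split_ifs
  · rw [Int.cast_prod]
    apply Finset.prod_congr rfl
    intro v _
    exact (FM_map (Int.castRingHom R) _).symm
  · simp

/-- the polynomial method -/
theorem list_core {m d : ℕ} (hd : 0 < d) (γ : Perm (Hf m d)) (hγ : SI ℤ γ ≠ 0)
    (L : Fin m × Fin d → Finset ℕ) (hL : ∀ q, d ≤ (L q).card) :
    ∃ c : Fin m × Fin d → ℕ, (∀ q, c q ∈ L q) ∧
      ∀ v : Fin m × Bool, Function.Injective (fun j => c (γ ((v.1, j), v.2)).1) := by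
  classical
  let t : (Fin m × Fin d) →₀ ℕ := Finsupp.equivFunOnFinite.symm (fun _ => d - 1)
  have ht : ∀ e, t e = d - 1 := fun e => rfl
  have hcZ : MvPolynomial.coeff t (PP ℤ γ) ≠ 0 := by
    intro h0
    apply hγ
    rw [SI_coeff γ t ht, h0, mul_zero]
  obtain ⟨N, hN⟩ := PP_homog (R := ℤ) γ
  have hne : PP ℤ γ ≠ 0 := by
    intro h0; apply hcZ; rw [h0]; simp
  have htN : t.degree = N := by
    have := hN hcZ
    rw [Pi.one_def, ← Finsupp.degree_eq_weight_one] at this
    exact this
  obtain ⟨s, hs1, hs2⟩ := MvPolynomial.combinatorial_nullstellensatz_exists_eval_nonzero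
    (PP ℤ γ) t hcZ (by rw [htN]; exact hN.totalDegree hne)
    (fun e => (L e).map Nat.castEmbedding)
    (fun e => by rw [ht, Finset.card_map]; have := hL e; omega)
  have hs3 : ∀ q, ∃ n ∈ L q, (n : ℤ) = s q := by
    intro q
    have := hs1 q
    rw [Finset.mem_map] at this
    obtain ⟨n, hn, hn2⟩ := this
    exact ⟨n, hn, hn2⟩
  choose c hc1 hc2 using hs3
  refine ⟨c, hc1, ?_⟩
  have h1 : (MvPolynomial.eval s) (PP ℤ γ) =
      ∏ v : Fin m × Bool, (Matrix.vandermonde (fun j : Fin d => s (γ ((v.1, j), v.2)).1)).det := by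
    unfold PP
    rw [map_prod]
    apply Finset.prod_congr rfl
    intro v _
    rw [RingHom.map_det]
    congr 1
    ext i j
    simp [Matrix.vandermonde]
  rw [h1, Finset.prod_ne_zero_iff] at hs2
  intro v j j' hjj
  have hv := hs2 v (Finset.mem_univ _)
  rw [Matrix.det_vandermonde_ne_zero_iff] at hv
  apply hv
  show s (γ ((v.1, j), v.2)).1 = s (γ ((v.1, j'), v.2)).1
  rw [← hc2, ← hc2]
  exact congrArg Nat.cast hjj


section Slot

set_option linter.unusedSectionVars false

variable {V : Type} [Fintype V] [DecidableEq V] {D : ℕ}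

/-- weight of a labelling of slots -/
noncomputable def wt {V : Type} [Fintype V] {D : ℕ} (h : V × Fin D → Fin D) : ℤ :=
  ∏ v, (FM ℤ (fun j => h (v, j))).det

/-- partition function with boundary condition `g` on the fixed points of `μ` -/
noncomputable def Zs (μ : V × Fin D → V × Fin D) (g : V × Fin D → Fin D) : ℤ :=
  ∑ h : V × Fin D → Fin D,
    if (∀ x, h (μ x) = h x) ∧ (∀ x, μ x = x → h x = g x) then wt h else 0

def Good (μ : V × Fin D → V × Fin D) : Prop := ∃ g, Zs μ g ≠ 0

/-- double along the slots in `T` -/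
def dbl {V : Type} {D : ℕ} (μ : V × Fin D → V × Fin D) (T : V × Fin D → Bool) :
    (V × Bool) × Fin D → (V × Bool) × Fin D :=
  fun x => if T (x.1.1, x.2) then ((x.1.1, !x.1.2), x.2)
    else (((μ (x.1.1, x.2)).1, x.1.2), (μ (x.1.1, x.2)).2)

theorem dbl_invol {μ : V × Fin D → V × Fin D} {T : V × Fin D → Bool}
    (hμ : ∀ x, μ (μ x) = x) (hT : ∀ x, T x = true → μ x = x) :
    ∀ x, dbl μ T (dbl μ T x) = x := by
  rintro ⟨⟨v, b⟩, j⟩
  unfold dbl
  by_cases h : T (v, j) = true
  · simp [h]
  · have h1 : ¬ T (μ (v, j)) = true := by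
      intro h2
      have h3 := hT _ h2
      rw [hμ] at h3
      rw [← h3] at h2
      exact h h2
    simp [h, h1, hμ]

/-- splitting a labelling of the doubled system -/
def spl (V : Type) (D : ℕ) (Y : Type) :
    ((V × Bool) × Fin D → Y) ≃ (V × Fin D → Y) × (V × Fin D → Y) where
  toFun h := (fun y => h ((y.1, false), y.2), fun y => h ((y.1, true), y.2))
  invFun p := fun x => if x.1.2 then p.2 (x.1.1, x.2) else p.1 (x.1.1, x.2)
  left_inv h := by
    funext x
    obtain ⟨⟨v, b⟩, j⟩ := x
    cases b <;> simp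
  right_inv p := by
    apply Prod.ext <;> simp

theorem wt_spl (p : (V × Fin D → Fin D) × (V × Fin D → Fin D)) :
    wt ((spl V D (Fin D)).symm p) = wt p.1 * wt p.2 := by
  unfold wt
  rw [Fintype.prod_prod_type]
  simp_rw [Fintype.prod_bool]
  rw [Finset.prod_mul_distrib, mul_comm]
  rfl

theorem Zs_dbl {μ : V × Fin D → V × Fin D} {T : V × Fin D → Bool}
    (hT : ∀ x, T x = true → μ x = x) (g : V × Fin D → Fin D) :
    Zs (dbl μ T) (fun x => g (x.1.1, x.2)) =
      ∑ s : V × Fin D → Fin D, if (∀ x, T x = false → s x = g x) then (Zs μ s) ^ 2 else 0 := by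
  unfold Zs
  rw [← (spl V D (Fin D)).symm.sum_comp, Fintype.sum_prod_type]
  have hR : ∀ s : V × Fin D → Fin D, (if (∀ x, T x = false → s x = g x) then
      (∑ h : V × Fin D → Fin D,
        if (∀ x, h (μ x) = h x) ∧ (∀ x, μ x = x → h x = s x) then wt h else 0) ^ 2 else 0) =
      ∑ h0 : V × Fin D → Fin D, ∑ h1 : V × Fin D → Fin D,
        if (∀ x, T x = false → s x = g x) ∧
          ((∀ x, h0 (μ x) = h0 x) ∧ (∀ x, μ x = x → h0 x = s x)) ∧
          ((∀ x, h1 (μ x) = h1 x) ∧ (∀ x, μ x = x → h1 x = s x)) then wt h0 * wt h1 else 0 := by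
    intro s
    by_cases hs : ∀ x, T x = false → s x = g x
    · rw [if_pos hs, sq, Finset.sum_mul_sum]
      apply Finset.sum_congr rfl
      intro h0 _
      apply Finset.sum_congr rfl
      intro h1 _
      by_cases c0 : (∀ x, h0 (μ x) = h0 x) ∧ (∀ x, μ x = x → h0 x = s x)
      · by_cases c1 : (∀ x, h1 (μ x) = h1 x) ∧ (∀ x, μ x = x → h1 x = s x)
        · rw [if_pos c0, if_pos c1, if_pos ⟨hs, c0, c1⟩]
        · rw [if_neg c1, mul_zero, if_neg (fun h => c1 h.2.2)]
      · rw [if_neg c0, zero_mul, if_neg (fun h => c0 h.2.1)]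
    · rw [if_neg hs]
      symm
      apply Finset.sum_eq_zero
      intro h0 _
      apply Finset.sum_eq_zero
      intro h1 _
      rw [if_neg (fun h => hs h.1)]
  rw [Finset.sum_congr rfl (fun s _ => hR s)]
  symm
  rw [Finset.sum_comm]
  apply Finset.sum_congr rfl
  intro h0 _
  rw [Finset.sum_comm]
  apply Finset.sum_congr rfl
  intro h1 _
  symm
  rw [wt_spl]
  simp only
  have hiff : ((∀ x, (spl V D (Fin D)).symm (h0, h1) (dbl μ T x) = (spl V D (Fin D)).symm (h0, h1) x) ∧
      (∀ x, dbl μ T x = x → (spl V D (Fin D)).symm (h0, h1) x = g (x.1.1, x.2))) ↔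
      ((∀ y, h0 (μ y) = h0 y) ∧ (∀ y, h1 (μ y) = h1 y) ∧ (∀ y, T y = true → h0 y = h1 y) ∧
        (∀ y, T y = false → μ y = y → h0 y = g y ∧ h1 y = g y)) := by
    constructor
    · rintro ⟨a1, a2⟩
      have a10 : ∀ y, h0 (μ y) = h0 y := by
        intro y
        by_cases hy : T y = true
        · rw [hT y hy]
        · have := a1 ((y.1, false), y.2)
          simpa [dbl, spl, hy] using this
      have a11 : ∀ y, h1 (μ y) = h1 y := by
        intro y
        by_cases hy : T y = true
        · rw [hT y hy]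
        · have := a1 ((y.1, true), y.2)
          simpa [dbl, spl, hy] using this
      refine ⟨a10, a11, ?_, ?_⟩
      · intro y hy
        have := a1 ((y.1, true), y.2)
        simpa [dbl, spl, hy] using this
      · intro y hy hy2
        have b0 := a2 ((y.1, false), y.2) (by simp [dbl, hy, hy2])
        have b1 := a2 ((y.1, true), y.2) (by simp [dbl, hy, hy2])
        simp [spl] at b0 b1
        exact ⟨b0, b1⟩
    · rintro ⟨a0, a1, a2, a3⟩
      constructor
      · rintro ⟨⟨v, b⟩, j⟩
        by_cases hy : T (v, j) = true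
        · have h2 := a2 (v, j) hy
          cases b <;> simp [dbl, spl, hy, h2]
        · have h2 := a0 (v, j)
          have h3 := a1 (v, j)
          cases b <;> simp [dbl, spl, hy, h2, h3]
      · rintro ⟨⟨v, b⟩, j⟩ hx
        by_cases hy : T (v, j) = true
        · simp [dbl, hy] at hx
        · have hy' : T (v, j) = false := by simpa using hy
          simp only [dbl, hy', Prod.mk.injEq, Bool.false_eq_true, if_false] at hx
          have h5 : μ (v, j) = (v, j) := Prod.ext hx.1.1 hx.2
          have h3 := a3 (v, j) hy' h5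
          cases b
          · simpa [spl] using h3.1
          · simpa [spl] using h3.2
  simp only [hiff]
  by_cases hc : ((∀ y, h0 (μ y) = h0 y) ∧ (∀ y, h1 (μ y) = h1 y) ∧ (∀ y, T y = true → h0 y = h1 y) ∧
        (∀ y, T y = false → μ y = y → h0 y = g y ∧ h1 y = g y))
  · rw [if_pos hc]
    obtain ⟨c0, c1, c2, c3⟩ := hc
    let s0 : V × Fin D → Fin D := fun y => if T y then h0 y else g y
    rw [Finset.sum_eq_single s0]
    · rw [if_pos]
      refine ⟨?_, ⟨c0, ?_⟩, ⟨c1, ?_⟩⟩
      · intro x hx
        simp [s0, hx]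
      · intro x hx
        by_cases hy : T x = true
        · simp [s0, hy]
        · simp only [s0, hy]
          exact (c3 x (by simpa using hy) hx).1
      · intro x hx
        by_cases hy : T x = true
        · simp [s0, hy, c2 x hy]
        · simp only [s0, hy]
          exact (c3 x (by simpa using hy) hx).2
    · intro s _ hs
      rw [if_neg]
      rintro ⟨d1, ⟨-, d2⟩, -⟩
      apply hs
      funext x
      by_cases hy : T x = true
      · simp [s0, hy, d2 x (hT x hy)]
      · simp only [s0, hy]
        exact d1 x (by simpa using hy)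
    · intro h; exact absurd (Finset.mem_univ _) h
  · rw [if_neg hc]
    symm
    apply Finset.sum_eq_zero
    intro s _
    rw [if_neg]
    rintro ⟨d1, ⟨d2, d3⟩, ⟨d4, d5⟩⟩
    apply hc
    refine ⟨d2, d4, ?_, ?_⟩
    · intro y hy
      rw [d3 y (hT y hy), d5 y (hT y hy)]
    · intro y hy hy2
      rw [d3 y hy2, d5 y hy2]
      exact ⟨d1 y hy, d1 y hy⟩

theorem good_dbl {μ : V × Fin D → V × Fin D} {T : V × Fin D → Bool}
    (hT : ∀ x, T x = true → μ x = x) (hg : Good μ) : Good (dbl μ T) := by
  obtain ⟨g, hg⟩ := hg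
  refine ⟨fun x => g (x.1.1, x.2), ?_⟩
  rw [Zs_dbl hT]
  apply ne_of_gt
  apply Finset.sum_pos'
  · intro s _
    split_ifs
    · exact sq_nonneg _
    · exact le_refl _
  · refine ⟨g, Finset.mem_univ _, ?_⟩
    rw [if_pos (fun _ _ => rfl)]
    positivity


theorem fix_of_sub {μ μ' : V × Fin D → V × Fin D} (hμ : ∀ x, μ (μ x) = x) (hμ' : ∀ x, μ' (μ' x) = x)
    (hsub : ∀ x, μ' x = μ x ∨ μ' x = x) (x : V × Fin D) (hx : μ' x = x) : μ' (μ x) = μ x := by
  rcases hsub (μ x) with h | h
  · rw [hμ] at h
    have h2 := hμ' (μ x)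
    rw [h, hx] at h2
    rw [h]; exact h2
  · exact h

theorem Zs_sub {μ μ' : V × Fin D → V × Fin D} (hμ : ∀ x, μ (μ x) = x) (hμ' : ∀ x, μ' (μ' x) = x)
    (hsub : ∀ x, μ' x = μ x ∨ μ' x = x) (g : V × Fin D → Fin D) :
    Zs μ g = ∑ s : V × Fin D → Fin D,
      if (∀ x, μ' x ≠ x → s x = g x) ∧ (∀ x, μ' x = x → s (μ x) = s x) ∧ (∀ x, μ x = x → s x = g x)
        then Zs μ' s else 0 := by
  unfold Zs
  have hR : ∀ s : V × Fin D → Fin D,
      (if (∀ x, μ' x ≠ x → s x = g x) ∧ (∀ x, μ' x = x → s (μ x) = s x) ∧ (∀ x, μ x = x → s x = g x)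
        then (∑ h : V × Fin D → Fin D,
        if (∀ x, h (μ' x) = h x) ∧ (∀ x, μ' x = x → h x = s x) then wt h else 0) else 0) =
      ∑ h : V × Fin D → Fin D,
        if ((∀ x, μ' x ≠ x → s x = g x) ∧ (∀ x, μ' x = x → s (μ x) = s x) ∧
          (∀ x, μ x = x → s x = g x)) ∧
          ((∀ x, h (μ' x) = h x) ∧ (∀ x, μ' x = x → h x = s x)) then wt h else 0 := by
    intro s
    by_cases hs : (∀ x, μ' x ≠ x → s x = g x) ∧ (∀ x, μ' x = x → s (μ x) = s x) ∧
      (∀ x, μ x = x → s x = g x)
    · rw [if_pos hs]
      apply Finset.sum_congr rfl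
      intro h _
      by_cases c0 : (∀ x, h (μ' x) = h x) ∧ (∀ x, μ' x = x → h x = s x)
      · rw [if_pos c0, if_pos ⟨hs, c0⟩]
      · rw [if_neg c0, if_neg (fun h => c0 h.2)]
    · rw [if_neg hs]
      symm
      apply Finset.sum_eq_zero
      intro h0 _
      rw [if_neg (fun h => hs h.1)]
  rw [Finset.sum_congr rfl (fun s _ => hR s)]
  rw [Finset.sum_comm]
  apply Finset.sum_congr rfl
  intro h _
  by_cases hc : (∀ x, h (μ x) = h x) ∧ (∀ x, μ x = x → h x = g x)
  · rw [if_pos hc]
    obtain ⟨c0, c1⟩ := hc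
    let s0 : V × Fin D → Fin D := fun y => if μ' y = y then h y else g y
    rw [Finset.sum_eq_single s0]
    · rw [if_pos]
      refine ⟨⟨?_, ?_, ?_⟩, ?_, ?_⟩
      · intro x hx
        simp [s0, hx]
      · intro x hx
        have := fix_of_sub hμ hμ' hsub x hx
        simp [s0, hx, this, c0]
      · intro x hx
        have h1 : μ' x = x := by
          rcases hsub x with h | h
          · rw [h, hx]
          · exact h
        simp [s0, h1, c1 x hx]
      · intro x
        rcases hsub x with h | h
        · rw [h, c0]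
        · rw [h]
      · intro x hx
        simp [s0, hx]
    · intro s _ hs
      rw [if_neg]
      rintro ⟨⟨d1, d2, d3⟩, d4, d5⟩
      apply hs
      funext x
      by_cases hy : μ' x = x
      · simp [s0, hy, d5 x hy]
      · simp [s0, hy, d1 x hy]
    · intro h; exact absurd (Finset.mem_univ _) h
  · rw [if_neg hc]
    symm
    apply Finset.sum_eq_zero
    intro s _
    rw [if_neg]
    rintro ⟨⟨d1, d2, d3⟩, d4, d5⟩
    apply hc
    constructor
    · intro x
      rcases hsub x with h' | h'
      · rw [← h', d4]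
      · have := fix_of_sub hμ hμ' hsub x h'
        rw [d5 _ this, d5 x h', d2 x h']
    · intro x hx
      have h1 : μ' x = x := by
        rcases hsub x with h | h
        · rw [h, hx]
        · exact h
      rw [d5 x h1, d3 x hx]

theorem good_sub {μ μ' : V × Fin D → V × Fin D} (hμ : ∀ x, μ (μ x) = x) (hμ' : ∀ x, μ' (μ' x) = x)
    (hsub : ∀ x, μ' x = μ x ∨ μ' x = x) (hg : Good μ) : Good μ' := by
  obtain ⟨g, hg⟩ := hg
  by_contra hn
  apply hg
  rw [Zs_sub hμ hμ' hsub]
  apply Finset.sum_eq_zero
  intro s _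
  split_ifs
  · by_contra h
    exact hn ⟨s, h⟩
  · rfl

theorem good_id : Good (id : V × Fin D → V × Fin D) := by
  refine ⟨fun x => x.2, ?_⟩
  unfold Zs
  rw [Finset.sum_eq_single (fun x : V × Fin D => x.2)]
  · rw [if_pos ⟨fun _ => rfl, fun _ _ => rfl⟩]
    unfold wt
    have h1 : ∀ v : V, (FM ℤ (fun j : Fin D => ((v, j) : V × Fin D).2)).det = 1 := by
      intro v
      have : FM ℤ (fun j : Fin D => ((v, j) : V × Fin D).2) = 1 := by
        ext j k
        simp only [FM, Matrix.of_apply, Matrix.one_apply]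
      rw [this, Matrix.det_one]
    rw [Finset.prod_congr rfl (fun v _ => h1 v), Finset.prod_const_one]
    exact one_ne_zero
  · intro h _ hh
    rw [if_neg]
    rintro ⟨-, h2⟩
    apply hh
    funext x
    exact h2 x rfl
  · intro h; exact absurd (Finset.mem_univ _) h

omit [DecidableEq V] in
theorem FM_inj {f : Fin D → Fin D} (h : (FM ℤ f).det ≠ 0) : Function.Injective f := by
  intro i j hij
  by_contra hne
  apply h
  apply Matrix.det_zero_of_row_eq hne
  funext k
  simp only [FM, Matrix.of_apply, hij]

theorem Zs_ne_zero_inj {μ : V × Fin D → V × Fin D} {g : V × Fin D → Fin D} (h : Zs μ g ≠ 0)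
    {v : V} {i j : Fin D} (hi : μ (v, i) = (v, i)) (hj : μ (v, j) = (v, j))
    (hij : g (v, i) = g (v, j)) : i = j := by
  by_contra hne
  apply h
  unfold Zs
  apply Finset.sum_eq_zero
  intro k _
  split_ifs with hc
  · by_contra hw
    apply hne
    unfold wt at hw
    rw [← ne_eq, Finset.prod_ne_zero_iff] at hw
    apply FM_inj (hw v (Finset.mem_univ _))
    show k (v, i) = k (v, j)
    rw [hc.2 _ hi, hc.2 _ hj, hij]
  · rfl

/-- a new free slot at each vertex -/
def inc {V : Type} {D : ℕ} (μ : V × Fin D → V × Fin D) : V × Fin (D + 1) → V × Fin (D + 1) :=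
  fun x => Fin.lastCases (motive := fun _ => V × Fin (D + 1)) (x.1, Fin.last D)
    (fun j => ((μ (x.1, j)).1, (μ (x.1, j)).2.castSucc)) x.2

def incf {V : Type} {D : ℕ} (h : V × Fin D → Fin D) : V × Fin (D + 1) → Fin (D + 1) :=
  fun x => Fin.lastCases (motive := fun _ => Fin (D + 1)) (Fin.last D)
    (fun j => (h (x.1, j)).castSucc) x.2

theorem inc_last (μ : V × Fin D → V × Fin D) (v : V) : inc μ (v, Fin.last D) = (v, Fin.last D) := by
  simp [inc]

theorem inc_castSucc (μ : V × Fin D → V × Fin D) (v : V) (j : Fin D) :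
    inc μ (v, j.castSucc) = ((μ (v, j)).1, (μ (v, j)).2.castSucc) := by
  simp [inc]

theorem incf_last (h : V × Fin D → Fin D) (v : V) : incf h (v, Fin.last D) = Fin.last D := by
  simp [incf]

theorem incf_castSucc (h : V × Fin D → Fin D) (v : V) (j : Fin D) :
    incf h (v, j.castSucc) = (h (v, j)).castSucc := by
  simp [incf]

theorem FM_inc {f : Fin D → Fin D} {f' : Fin (D + 1) → Fin (D + 1)} (h1 : f' (Fin.last D) = Fin.last D)
    (h2 : ∀ j, f' j.castSucc = (f j).castSucc) : (FM ℤ f').det = (FM ℤ f).det := by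
  rw [Matrix.det_succ_row (FM ℤ f') (Fin.last D)]
  rw [Finset.sum_eq_single (Fin.last D)]
  · have e1 : FM ℤ f' (Fin.last D) (Fin.last D) = 1 := by simp [FM, h1]
    have e2 : (FM ℤ f').submatrix (Fin.last D).succAbove (Fin.last D).succAbove = FM ℤ f := by
      ext i j
      simp only [FM, Matrix.submatrix_apply, Matrix.of_apply, Fin.succAbove_last, h2,
        Fin.castSucc_inj]
    rw [e1, e2]
    have e3 : (-1 : ℤ) ^ (((Fin.last D : Fin (D + 1)) : ℕ) + ((Fin.last D : Fin (D + 1)) : ℕ)) = 1 := by
      rw [← two_mul, pow_mul]; simp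
    rw [e3]; ring
  · intro b _ hb
    have : FM ℤ f' (Fin.last D) b = 0 := by
      simp only [FM, Matrix.of_apply, h1]
      rw [if_neg (Ne.symm hb)]
    rw [this]; ring
  · intro h; exact absurd (Finset.mem_univ _) h

theorem Zs_inc (μ : V × Fin D → V × Fin D) (g : V × Fin D → Fin D) :
    Zs (inc μ) (incf g) = Zs μ g := by
  unfold Zs
  symm
  apply Finset.sum_of_injOn (e := incf)
  · intro h _ h' _ heq
    funext x
    obtain ⟨v, j⟩ := x
    have := congrFun heq (v, j.castSucc)
    rw [incf_castSucc, incf_castSucc, Fin.castSucc_inj] at this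
    exact this
  · intro h _
    simp
  · intro k _ hk
    split_ifs with hc
    · by_contra hw
      apply hk
      unfold wt at hw
      rw [← ne_eq, Finset.prod_ne_zero_iff] at hw
      have hlast : ∀ v, k (v, Fin.last D) = Fin.last D := by
        intro v
        rw [hc.2 _ (inc_last μ v), incf_last]
      have hne : ∀ (v : V) (j : Fin D), k (v, j.castSucc) ≠ Fin.last D := by
        intro v j h
        have h1 := FM_inj (hw v (Finset.mem_univ _)) (a₁ := j.castSucc) (a₂ := Fin.last D)
          (by show k (v, j.castSucc) = k (v, Fin.last D); rw [h, hlast])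
        exact (Fin.castSucc_lt_last j).ne h1
      refine ⟨fun x => (k (x.1, x.2.castSucc)).castPred (hne x.1 x.2), by simp, ?_⟩
      funext x
      obtain ⟨v, j⟩ := x
      induction j using Fin.lastCases with
      | last => rw [incf_last, hlast]
      | cast j => rw [incf_castSucc]; simp
    · rfl
  · intro h _
    have hiff : ((∀ x, h (μ x) = h x) ∧ (∀ x, μ x = x → h x = g x)) ↔
        ((∀ x, incf h (inc μ x) = incf h x) ∧ (∀ x, inc μ x = x → incf h x = incf g x)) := by
      constructor
      · rintro ⟨a, b⟩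
        constructor
        · rintro ⟨v, j⟩
          induction j using Fin.lastCases with
          | last => rw [inc_last]
          | cast j => rw [inc_castSucc, incf_castSucc, incf_castSucc]; rw [Prod.mk.eta, a]
        · rintro ⟨v, j⟩ hx
          induction j using Fin.lastCases with
          | last => rw [incf_last, incf_last]
          | cast j =>
            rw [inc_castSucc] at hx
            rw [incf_castSucc, incf_castSucc, b]
            rw [Prod.mk.injEq, Fin.castSucc_inj] at hx
            exact Prod.ext hx.1 hx.2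
      · rintro ⟨a, b⟩
        constructor
        · rintro ⟨v, j⟩
          have := a (v, j.castSucc)
          rw [inc_castSucc, incf_castSucc, incf_castSucc, Fin.castSucc_inj, Prod.mk.eta] at this
          exact this
        · rintro ⟨v, j⟩ hx
          have := b (v, j.castSucc) (by rw [inc_castSucc, hx])
          rw [incf_castSucc, incf_castSucc, Fin.castSucc_inj] at this
          exact this
    have hwt : wt (incf h) = wt h := by
      unfold wt
      apply Finset.prod_congr rfl
      intro v _
      exact FM_inc (incf_last h v) (fun j => incf_castSucc h v j)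
    by_cases hc : (∀ x, h (μ x) = h x) ∧ (∀ x, μ x = x → h x = g x)
    · rw [if_pos hc, if_pos (hiff.1 hc), hwt]
    · rw [if_neg hc, if_neg (fun h' => hc (hiff.2 h'))]

theorem good_inc {μ : V × Fin D → V × Fin D} (h : Good μ) : Good (inc μ) := by
  obtain ⟨g, hg⟩ := h
  exact ⟨incf g, by rw [Zs_inc]; exact hg⟩


theorem swap_ne' {X : Type} [DecidableEq X] {p q x : X} (h1 : x ≠ p) (h2 : x ≠ q) :
    Equiv.swap p q x = x := Equiv.swap_apply_of_ne_of_ne h1 h2

theorem wt_swap {p q : V × Fin D} (hpq : p ≠ q) (h1 : p.1 = q.1) (h : V × Fin D → Fin D) :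
    wt (h ∘ Equiv.swap p q) = - wt h := by
  unfold wt
  rw [← Finset.mul_prod_erase Finset.univ _ (Finset.mem_univ p.1),
    ← Finset.mul_prod_erase Finset.univ (fun v => (FM ℤ fun j => h (v, j)).det)
      (Finset.mem_univ p.1)]
  have e1 : (FM ℤ fun j => (h ∘ Equiv.swap p q) (p.1, j)).det = - (FM ℤ fun j => h (p.1, j)).det := by
    have e2 : (FM ℤ fun j => (h ∘ Equiv.swap p q) (p.1, j)) =
        (FM ℤ fun j => h (p.1, j)).submatrix (Equiv.swap p.2 q.2) id := by
      ext j k
      have : Equiv.swap p q (p.1, j) = (p.1, Equiv.swap p.2 q.2 j) := by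
        by_cases ha : j = p.2
        · rw [ha, Equiv.swap_apply_left p.2 q.2]
          rw [Prod.mk.eta, Equiv.swap_apply_left, h1]
        · by_cases hb : j = q.2
          · rw [hb, Equiv.swap_apply_right, h1, Prod.mk.eta, Equiv.swap_apply_right, ← h1]
          · rw [swap_ne' ha hb, swap_ne']
            · intro h; exact ha (congrArg Prod.snd h)
            · intro h; exact hb (congrArg Prod.snd h)
      show (if h (Equiv.swap p q (p.1, j)) = k then (1 : ℤ) else 0) =
        (if h (p.1, Equiv.swap p.2 q.2 j) = k then (1 : ℤ) else 0)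
      rw [this]
    rw [e2, Matrix.det_permute]
    have hne : p.2 ≠ q.2 := fun h => hpq (Prod.ext h1 h)
    rw [Equiv.Perm.sign_swap hne]
    simp
  rw [e1, neg_mul]
  congr 2
  apply Finset.prod_congr rfl
  intro v hv
  rw [Finset.mem_erase] at hv
  congr 2
  funext j
  simp only [Function.comp]
  rw [swap_ne']
  · intro h; exact hv.1 (congrArg Prod.fst h)
  · intro h; exact hv.1 ((congrArg Prod.fst h).trans h1.symm)

theorem mu_swap {μ : V × Fin D → V × Fin D} (hμ : ∀ x, μ (μ x) = x) {p q : V × Fin D}
    (hp : μ p = p) (hq : μ q = q) (x : V × Fin D) :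
    μ (Equiv.swap p q x) = Equiv.swap p q (μ x) := by
  by_cases h1 : x = p
  · rw [h1, Equiv.swap_apply_left, hp, hq, Equiv.swap_apply_left]
  · by_cases h2 : x = q
    · rw [h2, Equiv.swap_apply_right, hq, hp, Equiv.swap_apply_right]
    · rw [swap_ne' h1 h2, swap_ne']
      · intro h; apply h1; rw [← hμ x, h, hp]
      · intro h; apply h2; rw [← hμ x, h, hq]

theorem Zs_swap {μ : V × Fin D → V × Fin D} (hμ : ∀ x, μ (μ x) = x) {p q : V × Fin D}
    (hp : μ p = p) (hq : μ q = q) (hpq : p ≠ q) (h1 : p.1 = q.1) (g : V × Fin D → Fin D) :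
    Zs μ (g ∘ Equiv.swap p q) = - Zs μ g := by
  unfold Zs
  rw [← (Equiv.arrowCongr (Equiv.swap p q) (Equiv.refl (Fin D))).sum_comp, ← Finset.sum_neg_distrib]
  apply Finset.sum_congr rfl
  intro h _
  have e0 : (Equiv.arrowCongr (Equiv.swap p q) (Equiv.refl (Fin D))) h = h ∘ Equiv.swap p q := by
    funext x
    simp [Equiv.arrowCongr]
  rw [e0, wt_swap hpq h1]
  have hiff : ((∀ x, (h ∘ Equiv.swap p q) (μ x) = (h ∘ Equiv.swap p q) x) ∧
      (∀ x, μ x = x → (h ∘ Equiv.swap p q) x = (g ∘ Equiv.swap p q) x)) ↔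
      ((∀ x, h (μ x) = h x) ∧ (∀ x, μ x = x → h x = g x)) := by
    simp only [Function.comp]
    constructor
    · rintro ⟨a, b⟩
      constructor
      · intro x
        have := a (Equiv.swap p q x)
        rw [mu_swap hμ hp hq, Equiv.swap_apply_self, Equiv.swap_apply_self] at this
        exact this
      · intro x hx
        have := b (Equiv.swap p q x) (by rw [mu_swap hμ hp hq, hx])
        rw [Equiv.swap_apply_self] at this
        exact this
    · rintro ⟨a, b⟩
      constructor
      · intro x
        rw [← mu_swap hμ hp hq, a]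
      · intro x hx
        apply b
        rw [mu_swap hμ hp hq, hx]
  by_cases hc : ((∀ x, h (μ x) = h x) ∧ (∀ x, μ x = x → h x = g x))
  · rw [if_pos hc, if_pos (hiff.2 hc)]
  · rw [if_neg hc, if_neg (fun h' => hc (hiff.1 h')), neg_zero]

theorem Zs_congr {μ : V × Fin D → V × Fin D} {g g' : V × Fin D → Fin D}
    (h : ∀ x, μ x = x → g x = g' x) : Zs μ g = Zs μ g' := by
  unfold Zs
  apply Finset.sum_congr rfl
  intro k _
  have hiff : ((∀ x, k (μ x) = k x) ∧ (∀ x, μ x = x → k x = g x)) ↔
      ((∀ x, k (μ x) = k x) ∧ (∀ x, μ x = x → k x = g' x)) := by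
    constructor
    · rintro ⟨a, b⟩
      exact ⟨a, fun x hx => (b x hx).trans (h x hx)⟩
    · rintro ⟨a, b⟩
      exact ⟨a, fun x hx => (b x hx).trans (h x hx).symm⟩
  by_cases hc : ((∀ x, k (μ x) = k x) ∧ (∀ x, μ x = x → k x = g x))
  · rw [if_pos hc, if_pos (hiff.1 hc)]
  · rw [if_neg hc, if_neg (fun h' => hc (hiff.2 h'))]

/-- join two free slots -/
def joi {V : Type} [DecidableEq V] {D : ℕ} (μ : V × Fin D → V × Fin D) (x0 y0 : V × Fin D) :
    V × Fin D → V × Fin D :=
  fun x => if x = x0 then y0 else if x = y0 then x0 else μ x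

theorem Zs_joi {μ : V × Fin D → V × Fin D} {x0 y0 : V × Fin D}
    (hx : μ x0 = x0) (hy : μ y0 = y0) (hxy : x0 ≠ y0) (g : V × Fin D → Fin D) :
    Zs (joi μ x0 y0) g =
      ∑ a : Fin D, Zs μ (Function.update (Function.update g x0 a) y0 a) := by
  unfold Zs
  rw [Finset.sum_comm]
  apply Finset.sum_congr rfl
  intro h _
  have key : ∀ a, ((∀ x, h (μ x) = h x) ∧
      (∀ x, μ x = x → h x = Function.update (Function.update g x0 a) y0 a x)) ↔
      (a = h x0 ∧ ((∀ x, h (joi μ x0 y0 x) = h x) ∧ (∀ x, joi μ x0 y0 x = x → h x = g x))) := by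
    intro a
    constructor
    · rintro ⟨c1, c2⟩
      have d1 : h y0 = a := by rw [c2 y0 hy, Function.update_self]
      have d2 : h x0 = a := by
        rw [c2 x0 hx, Function.update_of_ne hxy, Function.update_self]
      refine ⟨d2.symm, ?_, ?_⟩
      · intro x
        unfold joi
        split_ifs with h1 h2
        · rw [h1, d1, d2]
        · rw [h2, d1, d2]
        · exact c1 x
      · intro x hx'
        unfold joi at hx'
        split_ifs at hx' with h1 h2
        · exact absurd (h1.symm.trans hx'.symm) hxy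
        · exact absurd (hx'.trans h2) hxy
        · rw [c2 x hx', Function.update_of_ne h2, Function.update_of_ne h1]
    · rintro ⟨c0, c1, c2⟩
      have d1 : h y0 = h x0 := by
        have := c1 x0
        simpa [joi] using this
      constructor
      · intro x
        by_cases h1 : x = x0
        · rw [h1, hx]
        · by_cases h2 : x = y0
          · rw [h2, hy]
          · have := c1 x
            simpa [joi, h1, h2] using this
      · intro x hx'
        by_cases h2 : x = y0
        · rw [h2, Function.update_self, d1, c0]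
        · by_cases h1 : x = x0
          · rw [h1, Function.update_of_ne hxy, Function.update_self, c0]
          · rw [Function.update_of_ne h2, Function.update_of_ne h1]
            apply c2
            simp [joi, h1, h2, hx']
  rw [Finset.sum_eq_single (h x0)]
  · by_cases hc : ((∀ x, h (joi μ x0 y0 x) = h x) ∧ (∀ x, joi μ x0 y0 x = x → h x = g x))
    · rw [if_pos hc, if_pos ((key (h x0)).2 ⟨rfl, hc⟩)]
    · rw [if_neg hc, if_neg (fun h' => hc ((key (h x0)).1 h').2)]
  · intro a _ ha
    rw [if_neg (fun h' => ha ((key a).1 h').1)]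
  · intro h; exact absurd (Finset.mem_univ _) h

theorem sum_killed {ι A : Type} [Fintype ι] [DecidableEq ι] [Fintype A] [DecidableEq A] (b : ι) (K : (ι → A) → ℤ)
    (hK : ∀ β, ∑ a, K (Function.update β b a) = 0) : ∑ β, K β = 0 := by
  rcases isEmpty_or_nonempty A with hA | ⟨⟨a0⟩⟩
  · have : IsEmpty (ι → A) := ⟨fun f => hA.false (f b)⟩
    exact Finset.sum_of_isEmpty _
  · rw [← (Equiv.funSplitAt b A).symm.sum_comp, Fintype.sum_prod_type, Finset.sum_comm]
    apply Finset.sum_eq_zero
    intro β' _
    rw [← hK ((Equiv.funSplitAt b A).symm (a0, β'))]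
    apply Finset.sum_congr rfl
    intro a _
    congr 1
    funext j
    by_cases hj : j = b
    · subst hj
      simp [Equiv.funSplitAt, Equiv.piSplitAt]
    · simp [Equiv.funSplitAt, Equiv.piSplitAt, hj]

/-- the combinatorial heart of adding an edge -/
theorem abstract_zero {ι A : Type} [Fintype ι] [DecidableEq ι] [Fintype A] [DecidableEq A]
    (Φ : (ι → A) → ℤ) (β₀ : ι → A) (Z : Finset A)
    (h1 : ∀ β b, ∑ a, Φ (Function.update β b a) = 0)
    (h2 : ∀ β, Φ β ≠ 0 → Function.Injective β ∧ ∀ i, β i ∈ Z)
    (h3 : ∀ (π : Perm ι), Φ (β₀ ∘ π) = Φ β₀)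
    (h4 : Z.card < 2 * Fintype.card ι) : Φ β₀ = 0 := by
  by_contra hne
  obtain ⟨hinj, hZ⟩ := h2 β₀ hne
  let R : Finset A := Finset.univ.image β₀
  have hR : R.card = Fintype.card ι := by
    rw [Finset.card_image_of_injective _ hinj, Finset.card_univ]
  have hRZ : R ⊆ Z := by
    intro a ha
    simp only [R, Finset.mem_image, Finset.mem_univ, true_and] at ha
    obtain ⟨i, rfl⟩ := ha
    exact hZ i
  let ω : A → ℤ := fun a => if a ∈ R then 0 else 1
  have hsum : ∑ β : ι → A, Φ β * ∏ i, (1 - ω (β i)) = 0 := by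
    have hexp : ∀ β : ι → A, ∏ i, (1 - ω (β i)) =
        ∑ I ∈ (Finset.univ : Finset ι).powerset, ∏ i ∈ I, (-ω (β i)) := by
      intro β
      have := Finset.prod_add (fun i => - ω (β i)) (fun _ => (1 : ℤ)) (Finset.univ : Finset ι)
      simp only [Finset.prod_const_one, mul_one] at this
      rw [← this]
      apply Finset.prod_congr rfl
      intro i _
      ring
    simp_rw [hexp, Finset.mul_sum]
    rw [Finset.sum_comm]
    apply Finset.sum_eq_zero
    intro I _
    by_cases hI : I = Finset.univ
    · apply Finset.sum_eq_zero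
      intro β _
      by_contra hz
      have ha : Φ β ≠ 0 := fun h => hz (by rw [h, zero_mul])
      have hb : ∏ i ∈ I, (-ω (β i)) ≠ 0 := fun h => hz (by rw [h, mul_zero])
      rw [Finset.prod_ne_zero_iff] at hb
      obtain ⟨hβ, hβZ⟩ := h2 β ha
      have hsub : Finset.univ.image β ⊆ Z \ R := by
        intro a ha
        simp only [Finset.mem_image, Finset.mem_univ, true_and] at ha
        obtain ⟨i, rfl⟩ := ha
        rw [Finset.mem_sdiff]
        refine ⟨hβZ i, ?_⟩
        intro hr
        apply hb i (by rw [hI]; exact Finset.mem_univ _)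
        simp [ω, hr]
      have hc := Finset.card_le_card hsub
      rw [Finset.card_image_of_injective _ hβ, Finset.card_univ, Finset.card_sdiff_of_subset hRZ,
        hR] at hc
      have hc2 := Finset.card_le_card hRZ
      omega
    · obtain ⟨b, hb⟩ : ∃ b, b ∉ I := by
        by_contra hno
        push Not at hno
        exact hI (Finset.eq_univ_iff_forall.2 hno)
      apply sum_killed b
      intro β
      have : ∀ a, ∏ i ∈ I, (-ω (Function.update β b a i)) = ∏ i ∈ I, (-ω (β i)) := by
        intro a
        apply Finset.prod_congr rfl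
        intro i hi
        have hib : i ≠ b := by
          rintro rfl
          exact hb hi
        rw [Function.update_of_ne hib]
      simp_rw [this]
      rw [← Finset.sum_mul, h1, zero_mul]
  have hsum2 : ∑ β : ι → A, Φ β * ∏ i, (1 - ω (β i)) = ∑ π : Perm ι, Φ β₀ := by
    symm
    apply Finset.sum_of_injOn (e := fun π : Perm ι => β₀ ∘ π)
    · intro π _ π' _ heq
      ext1 i
      exact hinj (congrFun heq i)
    · intro π _; simp
    · intro β _ hβ
      by_contra hz
      have ha : Φ β ≠ 0 := fun h => hz (by rw [h, zero_mul])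
      have hb : ∏ i, (1 - ω (β i)) ≠ 0 := fun h => hz (by rw [h, mul_zero])
      rw [Finset.prod_ne_zero_iff] at hb
      obtain ⟨hβi, hβZ⟩ := h2 β ha
      have hmem : ∀ i, ∃ k, β₀ k = β i := by
        intro i
        have hr : β i ∈ R := by
          by_contra hr
          apply hb i (Finset.mem_univ _)
          simp [ω, hr]
        simpa [R] using hr
      choose f hf using hmem
      have hfi : Function.Injective f := by
        intro i j hij
        apply hβi
        rw [← hf i, ← hf j, hij]
      apply hβ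
      refine ⟨Equiv.ofBijective f ⟨hfi, Finite.surjective_of_injective hfi⟩, by simp, ?_⟩
      funext i
      exact hf i
    · intro π _
      show Φ β₀ = Φ (β₀ ∘ π) * ∏ i, (1 - ω ((β₀ ∘ π) i))
      rw [h3]
      have : ∏ i, (1 - ω ((β₀ ∘ π) i)) = 1 := by
        apply Finset.prod_eq_one
        intro i _
        simp [ω, R]
      rw [this, mul_one]
  rw [hsum2, Finset.sum_const, Finset.card_univ, nsmul_eq_mul, mul_eq_zero] at hsum
  rcases hsum with h | h
  · have : (Fintype.card (Perm ι) : ℤ) ≠ 0 := by
      rw [Fintype.card_perm]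
      exact_mod_cast (Nat.factorial_pos _).ne'
    exact this h
  · exact hne h


theorem Zs_swap' {μ : V × Fin D → V × Fin D} (hμ : ∀ x, μ (μ x) = x) {p q : V × Fin D}
    (hp : μ p = p) (hq : μ q = q) (h1 : p.1 = q.1) :
    ∃ ε : ℤ, ε ≠ 0 ∧ ∀ g : V × Fin D → Fin D, Zs μ g = ε * Zs μ (g ∘ Equiv.swap p q) := by
  by_cases hpq : p = q
  · refine ⟨1, one_ne_zero, fun g => ?_⟩
    rw [hpq, Equiv.swap_self]
    simp
  · refine ⟨-1, by norm_num, fun g => ?_⟩
    rw [Zs_swap hμ hp hq hpq h1]
    ring

theorem good_joi {μ : V × Fin D → V × Fin D} (hμ : ∀ x, μ (μ x) = x) {x0 y0 : V × Fin D}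
    (hx : μ x0 = x0) (hy : μ y0 = y0) (hxy : x0.1 ≠ y0.1)
    (hcard : D < (Finset.univ.filter (fun j => μ (x0.1, j) = (x0.1, j))).card +
      (Finset.univ.filter (fun j => μ (y0.1, j) = (y0.1, j))).card)
    (hg : Good μ) : Good (joi μ x0 y0) := by
  classical
  by_contra hn
  have H0 : ∀ g', ∑ a : Fin D, Zs μ (Function.update (Function.update g' x0 a) y0 a) = 0 := by
    intro g'
    rw [← Zs_joi hx hy (fun h => hxy (by rw [h]))]
    by_contra h
    exact hn ⟨g', h⟩
  have H1 : ∀ x y : V × Fin D, x.1 = x0.1 → y.1 = y0.1 → μ x = x → μ y = y →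
      ∀ g', ∑ a : Fin D, Zs μ (Function.update (Function.update g' x a) y a) = 0 := by
    intro x y hx1 hy1 hx2 hy2 g'
    obtain ⟨ε1, he1, hε1⟩ := Zs_swap' hμ hx hx2 hx1.symm
    obtain ⟨ε2, he2, hε2⟩ := Zs_swap' hμ hy hy2 hy1.symm
    have key : ∀ a : Fin D, Zs μ (Function.update (Function.update g' x a) y a) =
        ε1 * ε2 * Zs μ (Function.update (Function.update
          ((g' ∘ Equiv.swap x0 x) ∘ Equiv.swap y0 y) x0 a) y0 a) := by
      intro a
      rw [hε1, hε2 ((Function.update (Function.update g' x a) y a) ∘ Equiv.swap x0 x), ← mul_assoc]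
      congr 2
      have n1 : y ≠ x0 := by rintro rfl; exact hxy hy1
      have n2 : y ≠ x := by rintro rfl; exact hxy (hx1.symm.trans hy1)
      have n3 : x0 ≠ y0 := by rintro rfl; exact hxy rfl
      rw [Function.update_comp_equiv, Function.update_comp_equiv, Equiv.symm_swap,
        Function.update_comp_equiv, Function.update_comp_equiv, Equiv.symm_swap,
        Equiv.symm_swap x0 x,
        Equiv.swap_apply_right, swap_ne' n1 n2, Equiv.swap_apply_right,
        swap_ne' n3 (fun h : x0 = y => n1 h.symm)]
    rw [Finset.sum_congr rfl (fun a _ => key a), ← Finset.mul_sum, H0, mul_zero]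
  obtain ⟨g, hg⟩ := hg
  let Su : Finset (Fin D) := (Finset.univ.filter (fun j => μ (x0.1, j) = (x0.1, j))).image
    (fun j => g (x0.1, j))
  let Sv : Finset (Fin D) := (Finset.univ.filter (fun j => μ (y0.1, j) = (y0.1, j))).image
    (fun j => g (y0.1, j))
  have hSu : Su.card = (Finset.univ.filter (fun j => μ (x0.1, j) = (x0.1, j))).card := by
    apply Finset.card_image_of_injOn
    intro i hi j hj hij
    rw [Finset.mem_coe, Finset.mem_filter] at hi hj
    exact Zs_ne_zero_inj hg hi.2 hj.2 hij
  have hSv : Sv.card = (Finset.univ.filter (fun j => μ (y0.1, j) = (y0.1, j))).card := by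
    apply Finset.card_image_of_injOn
    intro i hi j hj hij
    rw [Finset.mem_coe, Finset.mem_filter] at hi hj
    exact Zs_ne_zero_inj hg hi.2 hj.2 hij
  have hexu : ∀ c : {c // c ∈ Su ∩ Sv}, ∃ j, μ (x0.1, j) = (x0.1, j) ∧ g (x0.1, j) = c.1 := by
    intro c
    have h1 := (Finset.mem_inter.1 c.2).1
    simp only [Su, Finset.mem_image, Finset.mem_filter, Finset.mem_univ, true_and] at h1
    exact h1
  have hexv : ∀ c : {c // c ∈ Su ∩ Sv}, ∃ j, μ (y0.1, j) = (y0.1, j) ∧ g (y0.1, j) = c.1 := by
    intro c
    have h1 := (Finset.mem_inter.1 c.2).2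
    simp only [Sv, Finset.mem_image, Finset.mem_filter, Finset.mem_univ, true_and] at h1
    exact h1
  choose xj hxj1 hxj2 using hexu
  choose yj hyj1 hyj2 using hexv
  let Cd : V × Fin D → Prop := fun z => g z ∈ Su ∩ Sv ∧ μ z = z ∧ (z.1 = x0.1 ∨ z.1 = y0.1)
  let G : ({c // c ∈ Su ∩ Sv} → Fin D) → V × Fin D → Fin D := fun β z =>
    if h : Cd z then β ⟨g z, h.1⟩ else g z
  have Gpos : ∀ β z (h : Cd z), G β z = β ⟨g z, h.1⟩ := fun β z h => dif_pos h
  have Gneg : ∀ β z (_ : ¬ Cd z), G β z = g z := fun β z h => dif_neg h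
  have hCx : ∀ c, Cd (x0.1, xj c) := fun c => ⟨by rw [hxj2]; exact c.2, hxj1 c, Or.inl rfl⟩
  have hCy : ∀ c, Cd (y0.1, yj c) := fun c => ⟨by rw [hyj2]; exact c.2, hyj1 c, Or.inr rfl⟩
  have Gx : ∀ β c, G β (x0.1, xj c) = β c := by
    intro β c
    rw [Gpos β _ (hCx c)]
    congr 1
    exact Subtype.ext (hxj2 c)
  have Gy : ∀ β c, G β (y0.1, yj c) = β c := by
    intro β c
    rw [Gpos β _ (hCy c)]
    congr 1
    exact Subtype.ext (hyj2 c)
  -- characterization of slots by colour
  have hcx : ∀ z, μ z = z → z.1 = x0.1 → ∀ c : {c // c ∈ Su ∩ Sv}, g z = c.1 → z = (x0.1, xj c) := by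
    rintro ⟨w, j⟩ hz hw c hc
    simp only at hw
    subst hw
    have := Zs_ne_zero_inj hg hz (hxj1 c) (by rw [hxj2]; exact hc)
    rw [this]
  have hcy : ∀ z, μ z = z → z.1 = y0.1 → ∀ c : {c // c ∈ Su ∩ Sv}, g z = c.1 → z = (y0.1, yj c) := by
    rintro ⟨w, j⟩ hz hw c hc
    simp only at hw
    subst hw
    have := Zs_ne_zero_inj hg hz (hyj1 c) (by rw [hyj2]; exact hc)
    rw [this]
  have hfin := abstract_zero (fun β => Zs μ (G β)) (fun c : {c // c ∈ Su ∩ Sv} => c.1)
    ((Su ∩ Sv) ∪ (Su ∪ Sv)ᶜ) ?_ ?_ ?_ ?_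
  · apply hg
    rw [← hfin]
    congr 1
    funext z
    by_cases h : Cd z
    · rw [Gpos _ _ h]
    · rw [Gneg _ _ h]
  · -- h1
    intro β b
    have key : ∀ a : Fin D, G (Function.update β b a) =
        Function.update (Function.update (G β) (x0.1, xj b) a) (y0.1, yj b) a := by
      intro a
      funext z
      by_cases hz1 : z = (y0.1, yj b)
      · rw [hz1, Function.update_self, Gy, Function.update_self]
      · rw [Function.update_of_ne hz1]
        by_cases hz2 : z = (x0.1, xj b)
        · rw [hz2, Function.update_self, Gx, Function.update_self]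
        · rw [Function.update_of_ne hz2]
          by_cases h : Cd z
          · rw [Gpos _ _ h, Gpos _ _ h, Function.update_of_ne]
            intro heq
            have h3 : g z = b.1 := congrArg Subtype.val heq
            rcases h.2.2 with h4 | h4
            · exact hz2 (hcx z h.2.1 h4 b h3)
            · exact hz1 (hcy z h.2.1 h4 b h3)
          · rw [Gneg _ _ h, Gneg _ _ h]
    simp only [key]
    exact H1 (x0.1, xj b) (y0.1, yj b) rfl rfl (hxj1 b) (hyj1 b) (G β)
  · -- h2
    intro β hβ
    constructor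
    · intro c c' hcc
      have := Zs_ne_zero_inj hβ (hxj1 c) (hxj1 c') (by rw [Gx, Gx, hcc])
      apply Subtype.ext
      rw [← hxj2 c, ← hxj2 c', this]
    · intro c
      by_contra hz
      rw [Finset.mem_union, Finset.mem_compl, not_or, not_not] at hz
      obtain ⟨z1, z2⟩ := hz
      rcases Finset.mem_union.1 z2 with z3 | z3
      · simp only [Su, Finset.mem_image, Finset.mem_filter, Finset.mem_univ, true_and] at z3
        obtain ⟨j, hj1, hj2⟩ := z3
        have hnC : ¬ Cd (x0.1, j) := fun h => z1 (hj2 ▸ h.1)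
        have := Zs_ne_zero_inj hβ hj1 (hxj1 c) (by rw [Gx, Gneg _ _ hnC, hj2])
        exact hnC (this ▸ hCx c)
      · simp only [Sv, Finset.mem_image, Finset.mem_filter, Finset.mem_univ, true_and] at z3
        obtain ⟨j, hj1, hj2⟩ := z3
        have hnC : ¬ Cd (y0.1, j) := fun h => z1 (hj2 ▸ h.1)
        have := Zs_ne_zero_inj hβ hj1 (hyj1 c) (by rw [Gy, Gneg _ _ hnC, hj2])
        exact hnC (this ▸ hCy c)
  · -- h3
    have hswap : ∀ (β : {c // c ∈ Su ∩ Sv} → Fin D) (c c' : {c // c ∈ Su ∩ Sv}), c ≠ c' →
        Zs μ (G (β ∘ Equiv.swap c c')) = Zs μ (G β) := by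
      intro β c c' hcc
      have hxne : (x0.1, xj c) ≠ (x0.1, xj c') := by
        intro h
        apply hcc
        apply Subtype.ext
        rw [← hxj2 c, ← hxj2 c', h]
      have hyne : (y0.1, yj c) ≠ (y0.1, yj c') := by
        intro h
        apply hcc
        apply Subtype.ext
        rw [← hyj2 c, ← hyj2 c', h]
      have hG : G (β ∘ Equiv.swap c c') =
          (G β ∘ Equiv.swap (x0.1, xj c) (x0.1, xj c')) ∘ Equiv.swap (y0.1, yj c) (y0.1, yj c') := by
        funext z
        simp only [Function.comp]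
        have nxy : ∀ i j, ((x0.1, i) : V × Fin D) ≠ (y0.1, j) := by
          intro i j h
          exact hxy (Prod.mk.inj h).1
        by_cases hz1 : z = (y0.1, yj c)
        · rw [hz1, Equiv.swap_apply_left, swap_ne' (nxy _ _).symm (nxy _ _).symm, Gy, Gy,
            Function.comp, Equiv.swap_apply_left]
        · by_cases hz2 : z = (y0.1, yj c')
          · rw [hz2, Equiv.swap_apply_right, swap_ne' (nxy _ _).symm (nxy _ _).symm, Gy, Gy,
              Function.comp, Equiv.swap_apply_right]
          · rw [swap_ne' hz1 hz2]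
            by_cases hz3 : z = (x0.1, xj c)
            · rw [hz3, Equiv.swap_apply_left, Gx, Gx, Function.comp, Equiv.swap_apply_left]
            · by_cases hz4 : z = (x0.1, xj c')
              · rw [hz4, Equiv.swap_apply_right, Gx, Gx, Function.comp, Equiv.swap_apply_right]
              · rw [swap_ne' hz3 hz4]
                by_cases h : Cd z
                · rw [Gpos _ _ h, Gpos _ _ h, Function.comp, swap_ne']
                  · intro heq
                    have h3 : g z = c.1 := congrArg Subtype.val heq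
                    rcases h.2.2 with h4 | h4
                    · exact hz3 (hcx z h.2.1 h4 c h3)
                    · exact hz1 (hcy z h.2.1 h4 c h3)
                  · intro heq
                    have h3 : g z = c'.1 := congrArg Subtype.val heq
                    rcases h.2.2 with h4 | h4
                    · exact hz4 (hcx z h.2.1 h4 c' h3)
                    · exact hz2 (hcy z h.2.1 h4 c' h3)
                · rw [Gneg _ _ h, Gneg _ _ h]
      rw [hG, Zs_swap hμ (hyj1 c) (hyj1 c') hyne rfl, Zs_swap hμ (hxj1 c) (hxj1 c') hxne rfl, neg_neg]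
    have hall : ∀ (π : Perm {c // c ∈ Su ∩ Sv}) (β : {c // c ∈ Su ∩ Sv} → Fin D),
        Zs μ (G (β ∘ π)) = Zs μ (G β) := by
      intro π
      induction π using Equiv.Perm.swap_induction_on with
      | one => intro β; rfl
      | swap_mul f c c' hcc ih =>
        intro β
        have : β ∘ ⇑(Equiv.swap c c' * f) = (β ∘ Equiv.swap c c') ∘ f := rfl
        rw [this, ih, hswap β c c' hcc]
    intro π
    exact hall π _
  · -- h4
    have a1 : ((Su ∩ Sv) ∪ (Su ∪ Sv)ᶜ).card ≤ (Su ∩ Sv).card + ((Su ∪ Sv)ᶜ).card :=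
      Finset.card_union_le _ _
    have a2 : ((Su ∪ Sv)ᶜ).card = D - (Su ∪ Sv).card := by
      rw [Finset.card_compl, Fintype.card_fin]
    have a3 := Finset.card_union_add_card_inter Su Sv
    have a4 : (Su ∪ Sv).card ≤ D := by
      have := Finset.card_le_univ (Su ∪ Sv)
      rwa [Fintype.card_fin] at this
    have a5 : Fintype.card {c // c ∈ Su ∩ Sv} = (Su ∩ Sv).card := Fintype.card_coe _
    rw [hSu, hSv] at a3
    omega


theorem exists_gamma {X E : Type} [Fintype X] [Fintype E] (ν : X → X) (hν : ∀ x, ν (ν x) = x)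
    (hfix : ∀ x, ν x ≠ x) (hcard : Fintype.card X = Fintype.card E * 2) :
    ∃ γ : X ≃ E × Bool, ∀ x, γ (ν x) = ((γ x).1, !(γ x).2) := by
  classical
  let φ : Perm X := Function.Involutive.toPerm ν hν
  have hφ : φ * φ = 1 := by
    ext1 x
    exact hν x
  obtain ⟨A, hA, -⟩ := exists_two_colouring φ φ hφ hφ hfix hfix
  have hA' : ∀ x, A (ν x) = !(A x) := hA
  let θ : X ≃ {x // A x = false} × Bool :=
    { toFun := fun x => if h : A x = false then (⟨x, h⟩, false)
        else (⟨ν x, by rw [hA']; simpa using h⟩, true)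
      invFun := fun p => if p.2 then ν p.1.1 else p.1.1
      left_inv := by
        intro x
        by_cases h : A x = false
        · simp [h]
        · simp [h, hν]
      right_inv := by
        rintro ⟨⟨x, hx⟩, b⟩
        cases b
        · simp [hx]
        · have : A (ν x) = true := by rw [hA', hx]; rfl
          simp [this, hν] }
  have hc : Fintype.card {x // A x = false} = Fintype.card E := by
    have h1 := Fintype.card_congr θ
    rw [Fintype.card_prod, Fintype.card_bool] at h1
    omega
  let κ : {x // A x = false} ≃ E := Fintype.equivOfCardEq hc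
  refine ⟨θ.trans (Equiv.prodCongr κ (Equiv.refl Bool)), ?_⟩
  intro x
  have key : θ (ν x) = ((θ x).1, !(θ x).2) := by
    show (if h : A (ν x) = false then _ else _) = _
    by_cases h : A x = false
    · have h2 : ¬ A (ν x) = false := by rw [hA', h]; simp
      rw [dif_neg h2]
      show _ = ((if h : A x = false then _ else _ : {x // A x = false} × Bool).1,
        !(if h : A x = false then _ else _ : {x // A x = false} × Bool).2)
      rw [dif_pos h]
      simp [hν]
    · have h2 : A (ν x) = false := by rw [hA']; simpa using h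
      rw [dif_pos h2]
      show _ = ((if h : A x = false then _ else _ : {x // A x = false} × Bool).1,
        !(if h : A x = false then _ else _ : {x // A x = false} × Bool).2)
      rw [dif_neg h]
      simp
  show (Equiv.prodCongr κ (Equiv.refl Bool)) (θ (ν x)) = _
  rw [key]
  rfl

theorem good_choos {μ : V × Fin D → V × Fin D} (hμ : ∀ x, μ (μ x) = x) (hg : Good μ)
    (L : V × Fin D → Finset ℕ) (hL1 : ∀ x, L (μ x) = L x) (hL2 : ∀ x, D ≤ (L x).card) :
    ∃ c : V × Fin D → ℕ, (∀ x, c (μ x) = c x) ∧ (∀ x, c x ∈ L x) ∧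
      ∀ v, Function.Injective (fun j => c (v, j)) := by
  rcases Nat.eq_zero_or_pos D with hD | hD
  · subst hD
    exact ⟨fun _ => 0, fun x => x.2.elim0, fun x => x.2.elim0, fun v j => j.elim0⟩
  let T : V × Fin D → Bool := fun x => decide (μ x = x)
  have hT : ∀ x, T x = true → μ x = x := fun x h => of_decide_eq_true h
  have hT' : ∀ x, μ x = x → T x = true := fun x h => decide_eq_true h
  let ν := dbl μ T
  have hν : ∀ x, ν (ν x) = x := dbl_invol hμ hT
  have hfix : ∀ x, ν x ≠ x := by
    rintro ⟨⟨v, b⟩, j⟩ h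
    by_cases hx : T (v, j) = true
    · simp [ν, dbl, hx] at h
    · have hx' : T (v, j) = false := by simpa using hx
      simp only [ν, dbl, hx', Prod.mk.injEq, Bool.false_eq_true, if_false] at h
      exact hx (hT' _ (Prod.ext h.1.1 h.2))
  obtain ⟨g, hg⟩ := good_dbl hT hg
  let m := Fintype.card V
  obtain ⟨γ0, hγ0⟩ := exists_gamma (E := Fin m × Fin D) ν hν hfix (by
    simp only [Fintype.card_prod, Fintype.card_bool, Fintype.card_fin, m]; ring)
  let e : V ≃ Fin m := Fintype.equivFin V
  let ι : (V × Bool) × Fin D ≃ Hf m D :=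
    { toFun := fun x => ((e x.1.1, x.2), x.1.2)
      invFun := fun y => ((e.symm y.1.1, y.2), y.1.2)
      left_inv := fun x => by simp
      right_inv := fun y => by simp }
  let γ : Perm (Hf m D) := ι.symm.trans γ0
  have hγι : ∀ x, γ (ι x) = γ0 x := by
    intro x
    show γ0 (ι.symm (ι x)) = _
    rw [Equiv.symm_apply_apply]
  have hγinv : ∀ y, γ⁻¹ y = ι (γ0.symm y) := by
    intro y
    apply γ.injective
    rw [app_inv, hγι, Equiv.apply_symm_apply]
  have hSI : SI ℤ γ = Zs ν g := by
    unfold SI Zs
    rw [← (Equiv.arrowCongr ι (Equiv.refl (Fin D))).sum_comp]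
    apply Finset.sum_congr rfl
    intro h _
    have e0 : ∀ x, (Equiv.arrowCongr ι (Equiv.refl (Fin D))) h (ι x) = h x := by
      intro x
      simp [Equiv.arrowCongr]
    have hiff : (∀ x : Hf m D, (Equiv.arrowCongr ι (Equiv.refl (Fin D))) h (γ⁻¹ (x.1, !x.2)) =
        (Equiv.arrowCongr ι (Equiv.refl (Fin D))) h (γ⁻¹ x)) ↔
        ((∀ x, h (ν x) = h x) ∧ (∀ x, ν x = x → h x = g x)) := by
      simp only [hγinv, e0]
      constructor
      · intro H
        refine ⟨?_, fun x hx => absurd hx (hfix x)⟩
        intro x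
        have := H (γ0 x)
        rw [← hγ0 x, Equiv.symm_apply_apply, Equiv.symm_apply_apply] at this
        exact this
      · rintro ⟨H, -⟩ y
        have := H (γ0.symm y)
        have h2 : ν (γ0.symm y) = γ0.symm (y.1, !y.2) := by
          apply γ0.injective
          rw [hγ0, Equiv.apply_symm_apply, Equiv.apply_symm_apply]
        rw [h2] at this
        exact this
    have hwt : (∏ v : Fin m × Bool, (FM ℤ (fun j =>
        (Equiv.arrowCongr ι (Equiv.refl (Fin D))) h ((v.1, j), v.2))).det) = wt h := by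
      unfold wt
      apply Fintype.prod_equiv (Equiv.prodCongr e (Equiv.refl Bool)).symm
      rintro ⟨i, b⟩
      congr 2
    rw [hwt]
    by_cases hc : ((∀ x, h (ν x) = h x) ∧ (∀ x, ν x = x → h x = g x))
    · rw [if_pos hc, if_pos (hiff.2 hc)]
    · rw [if_neg hc, if_neg (fun h' => hc (hiff.1 h'))]
  let pr : (V × Bool) × Fin D → V × Fin D := fun x => (x.1.1, x.2)
  have hLν : ∀ x, L (pr (ν x)) = L (pr x) := by
    rintro ⟨⟨v, b⟩, j⟩
    by_cases hx : T (v, j) = true
    · simp [ν, dbl, hx, pr]
    · have hx' : T (v, j) = false := by simpa using hx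
      simp only [ν, dbl, hx', pr, Bool.false_eq_true, if_false, Prod.mk.eta]
      exact hL1 _
  have hLγ : ∀ x, L (pr (γ0.symm ((γ0 x).1, false))) = L (pr x) := by
    intro x
    by_cases hb : (γ0 x).2 = false
    · have : ((γ0 x).1, false) = γ0 x := Prod.ext rfl hb.symm
      rw [this, Equiv.symm_apply_apply]
    · have hb' : (γ0 x).2 = true := by simpa using hb
      have : ((γ0 x).1, false) = γ0 (ν x) := by
        rw [hγ0, hb']; rfl
      rw [this, Equiv.symm_apply_apply, hLν]
  obtain ⟨c2, hc1, hc2⟩ := list_core hD γ (by rw [hSI]; exact hg)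
    (fun q => L (pr (γ0.symm (q, false)))) (fun q => hL2 _)
  refine ⟨fun x => c2 (γ0 ((x.1, false), x.2)).1, ?_, ?_, ?_⟩
  · intro x
    by_cases hx : μ x = x
    · rw [hx]
    · have hx' : T x = false := by simp [T, hx]
      have h2 : ν ((x.1, false), x.2) = (((μ x).1, false), (μ x).2) := by
        simp [ν, dbl, hx']
      show c2 (γ0 (((μ x).1, false), (μ x).2)).1 = _
      rw [← h2, hγ0]
  · intro x
    have := hc1 (γ0 ((x.1, false), x.2)).1
    rw [hLγ] at this
    exact this
  · intro v j j' hj
    have := hc2 (e v, false) (a₁ := j) (a₂ := j')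
    apply this
    show c2 (γ (ι ((v, false), j))).1 = c2 (γ (ι ((v, false), j'))).1
    rw [hγι, hγι]
    exact hj

/-- relabel the vertices -/
def rel {V W : Type} {D : ℕ} (e : V ≃ W) (μ : V × Fin D → V × Fin D) : W × Fin D → W × Fin D :=
  fun x => (e (μ (e.symm x.1, x.2)).1, (μ (e.symm x.1, x.2)).2)

theorem Zs_rel {W : Type} [Fintype W] [DecidableEq W] (e : V ≃ W) (μ : V × Fin D → V × Fin D)
    (g : V × Fin D → Fin D) : Zs (rel e μ) (fun x => g (e.symm x.1, x.2)) = Zs μ g := by
  unfold Zs
  symm
  apply Fintype.sum_equiv (Equiv.arrowCongr (Equiv.prodCongr e (Equiv.refl (Fin D))) (Equiv.refl (Fin D)))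
  intro h
  have e0 : ∀ x : W × Fin D, (Equiv.arrowCongr (Equiv.prodCongr e (Equiv.refl (Fin D))) (Equiv.refl (Fin D))) h x =
      h (e.symm x.1, x.2) := by
    intro x
    rfl
  have hiff : ((∀ x, (Equiv.arrowCongr (Equiv.prodCongr e (Equiv.refl (Fin D))) (Equiv.refl (Fin D))) h (rel e μ x) =
      (Equiv.arrowCongr (Equiv.prodCongr e (Equiv.refl (Fin D))) (Equiv.refl (Fin D))) h x) ∧
      (∀ x, rel e μ x = x → (Equiv.arrowCongr (Equiv.prodCongr e (Equiv.refl (Fin D))) (Equiv.refl (Fin D))) h x =
        g (e.symm x.1, x.2))) ↔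
      ((∀ x, h (μ x) = h x) ∧ (∀ x, μ x = x → h x = g x)) := by
    simp only [e0]
    constructor
    · rintro ⟨a, b⟩
      constructor
      · intro x
        have := a (e x.1, x.2)
        simpa [rel] using this
      · intro x hx
        have := b (e x.1, x.2) (by simp [rel, hx])
        simpa using this
    · rintro ⟨a, b⟩
      constructor
      · intro x
        have := a (e.symm x.1, x.2)
        simpa [rel] using this
      · intro x hx
        apply b
        have h1 := congrArg (fun q : W × Fin D => (e.symm q.1, q.2)) hx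
        simpa [rel] using h1
  have hwt : wt ((Equiv.arrowCongr (Equiv.prodCongr e (Equiv.refl (Fin D))) (Equiv.refl (Fin D))) h) = wt h := by
    unfold wt
    simp only [e0]
    exact (Equiv.prod_comp e.symm (fun v => (FM ℤ (fun j => h (v, j))).det))
  rw [hwt]
  by_cases hc : ((∀ x, h (μ x) = h x) ∧ (∀ x, μ x = x → h x = g x))
  · rw [if_pos hc, if_pos (hiff.2 hc)]
  · rw [if_neg hc, if_neg (fun h' => hc (hiff.1 h'))]

theorem good_rel {W : Type} [Fintype W] [DecidableEq W] (e : V ≃ W) {μ : V × Fin D → V × Fin D}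
    (h : Good μ) : Good (rel e μ) := by
  obtain ⟨g, hg⟩ := h
  exact ⟨_, by rw [Zs_rel]; exact hg⟩


end Slot

section Graph

variable {V : Type} [Fintype V] [DecidableEq V] {D : ℕ}

/-- the slot system `μ` represents the graph `G` -/
structure Rep {V : Type} {D : ℕ} (μ : V × Fin D → V × Fin D) (G : SimpleGraph V) : Prop where
  inv : ∀ x, μ (μ x) = x
  adj : ∀ x, μ x ≠ x → G.Adj x.1 (μ x).1
  uniq : ∀ x y, x.1 = y.1 → μ x ≠ x → μ y ≠ y → (μ x).1 = (μ y).1 → x = y
  ex : ∀ u v, G.Adj u v → ∃ i, (μ (u, i)).1 = v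

def GG {V : Type} [Fintype V] (G : SimpleGraph V) (D : ℕ) : Prop :=
  ∃ μ : V × Fin D → V × Fin D, Rep μ G ∧ @Good V _ (Classical.decEq V) D μ

def LC {V : Type} (G : SimpleGraph V) (k : ℕ) : Prop :=
  ∀ L : G.edgeSet → Finset ℕ, (∀ e, k ≤ (L e).card) →
    ∃ f : G.edgeSet → ℕ, (∀ e, f e ∈ L e) ∧ ∀ e e', G.lineGraph.Adj e e' → f e ≠ f e'

theorem GG_iff (G : SimpleGraph V) : GG G D ↔ ∃ μ : V × Fin D → V × Fin D, Rep μ G ∧ Good μ := by
  unfold GG
  have : (Classical.decEq V) = (inferInstance : DecidableEq V) := Subsingleton.elim _ _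
  rw [this]

theorem GG_LC (G : SimpleGraph V) (h : GG G D) : LC G D := by
  classical
  rw [GG_iff] at h
  obtain ⟨μ, hr, hg⟩ := h
  intro L hL
  let L' : V × Fin D → Finset ℕ := fun x =>
    if h : s(x.1, (μ x).1) ∈ G.edgeSet then L ⟨s(x.1, (μ x).1), h⟩ else Finset.range D
  have hpos : ∀ x (h : s(x.1, (μ x).1) ∈ G.edgeSet), L' x = L ⟨s(x.1, (μ x).1), h⟩ :=
    fun x h => dif_pos h
  have hneg : ∀ x (_ : ¬ s(x.1, (μ x).1) ∈ G.edgeSet), L' x = Finset.range D :=
    fun x h => dif_neg h
  have hsw : ∀ x, s((μ x).1, (μ (μ x)).1) = s(x.1, (μ x).1) := by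
    intro x
    rw [hr.inv, Sym2.eq_swap]
  obtain ⟨c, hc1, hc2, hc3⟩ := good_choos hr.inv hg L' (by
      intro x
      by_cases h : s(x.1, (μ x).1) ∈ G.edgeSet
      · rw [hpos x h, hpos (μ x) (by rw [hsw]; exact h)]
        congr 1
        exact Subtype.ext (hsw x)
      · rw [hneg x h, hneg (μ x) (by rw [hsw]; exact h)]) (by
      intro x
      by_cases h : s(x.1, (μ x).1) ∈ G.edgeSet
      · rw [hpos x h]; exact hL _
      · rw [hneg x h, Finset.card_range])
  have hrep : ∀ e : G.edgeSet, ∃ x : V × Fin D, s(x.1, (μ x).1) = e.1 := by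
    rintro ⟨e, he⟩
    induction e with
    | h u w =>
      rw [SimpleGraph.mem_edgeSet] at he
      obtain ⟨i, hi⟩ := hr.ex u w he
      exact ⟨(u, i), by simp [hi]⟩
  choose rep hrep using hrep
  refine ⟨fun e => c (rep e), ?_, ?_⟩
  · intro e
    have h1 := hc2 (rep e)
    have h2 : s((rep e).1, (μ (rep e)).1) ∈ G.edgeSet := by rw [hrep]; exact e.2
    rw [hpos _ h2] at h1
    have h3 : (⟨s((rep e).1, (μ (rep e)).1), h2⟩ : G.edgeSet) = e := Subtype.ext (hrep e)
    rw [h3] at h1
    exact h1
  · intro e e' hadj heq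
    rw [SimpleGraph.lineGraph_adj_iff_exists] at hadj
    obtain ⟨hne, v, hv, hv'⟩ := hadj
    have hmem : ∀ e : G.edgeSet, v ∈ e.1 → ∃ j, s(v, (μ (v, j)).1) = e.1 ∧ c (v, j) = c (rep e) := by
      intro e hv
      rw [← hrep e, Sym2.mem_iff] at hv
      rcases hv with hv | hv
      · refine ⟨(rep e).2, ?_, ?_⟩
        · rw [hv, Prod.mk.eta]; exact hrep e
        · rw [hv, Prod.mk.eta]
      · refine ⟨(μ (rep e)).2, ?_, ?_⟩
        · rw [hv, Prod.mk.eta, hr.inv, Sym2.eq_swap]; exact hrep e
        · rw [hv, Prod.mk.eta, hc1]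
    obtain ⟨j, hj1, hj2⟩ := hmem e hv
    obtain ⟨j', hj1', hj2'⟩ := hmem e' hv'
    have : j = j' := hc3 v (by show c (v, j) = c (v, j'); rw [hj2, hj2']; exact heq)
    subst this
    exact hne (Subtype.ext (hj1.symm.trans hj1'))

theorem GG_bot : GG (⊥ : SimpleGraph V) D := by
  rw [GG_iff]
  refine ⟨id, ⟨fun _ => rfl, fun x h => absurd rfl h, fun x y _ h => absurd rfl h, ?_⟩, good_id⟩
  intro u v h
  exact h.elim

theorem GG_mono {G G' : SimpleGraph V} (hle : G' ≤ G) (h : GG G D) : GG G' D := by
  classical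
  rw [GG_iff] at h ⊢
  obtain ⟨μ, hr, hg⟩ := h
  let μ' : V × Fin D → V × Fin D := fun x => if G'.Adj x.1 (μ x).1 then μ x else x
  have hpos : ∀ x, G'.Adj x.1 (μ x).1 → μ' x = μ x := fun x h => if_pos h
  have hneg : ∀ x, ¬ G'.Adj x.1 (μ x).1 → μ' x = x := fun x h => if_neg h
  have hinv : ∀ x, μ' (μ' x) = x := by
    intro x
    by_cases h : G'.Adj x.1 (μ x).1
    · rw [hpos x h, hpos _ (by rw [hr.inv]; exact h.symm), hr.inv]
    · rw [hneg x h, hneg x h]
  have hsub : ∀ x, μ' x = μ x ∨ μ' x = x := by
    intro x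
    by_cases h : G'.Adj x.1 (μ x).1
    · left; exact hpos x h
    · right; exact hneg x h
  have hnf : ∀ x, μ' x ≠ x → G'.Adj x.1 (μ x).1 ∧ μ' x = μ x := by
    intro x hx
    by_cases h : G'.Adj x.1 (μ x).1
    · exact ⟨h, hpos x h⟩
    · exact absurd (hneg x h) hx
  refine ⟨μ', ⟨hinv, ?_, ?_, ?_⟩, good_sub hr.inv hinv hsub hg⟩
  · intro x hx
    obtain ⟨h1, h2⟩ := hnf x hx
    rw [h2]; exact h1
  · intro x y hxy hx hy h
    obtain ⟨h1, h2⟩ := hnf x hx
    obtain ⟨h3, h4⟩ := hnf y hy
    rw [h2, h4] at h
    exact hr.uniq x y hxy (h2 ▸ hx) (h4 ▸ hy) h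
  · intro u v huv
    obtain ⟨i, hi⟩ := hr.ex u v (hle huv)
    refine ⟨i, ?_⟩
    rw [hpos _ (by rw [hi]; exact huv), hi]

theorem legs_card {μ : V × Fin D → V × Fin D} {G : SimpleGraph V} (hr : Rep μ G) (v : V)
    [Fintype (G.neighborSet v)] :
    (Finset.univ.filter (fun j => μ (v, j) = (v, j))).card + G.degree v = D := by
  have h1 : (Finset.univ.filter (fun j => ¬ μ (v, j) = (v, j))).card = G.degree v := by
    rw [← SimpleGraph.card_neighborFinset_eq_degree]
    apply Finset.card_bij (fun j _ => (μ (v, j)).1)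
    · intro j hj
      rw [Finset.mem_filter] at hj
      rw [SimpleGraph.mem_neighborFinset]
      exact hr.adj _ hj.2
    · intro j hj j' hj' h
      rw [Finset.mem_filter] at hj hj'
      exact (Prod.mk.inj (hr.uniq (v, j) (v, j') rfl hj.2 hj'.2 h)).2
    · intro w hw
      rw [SimpleGraph.mem_neighborFinset] at hw
      obtain ⟨i, hi⟩ := hr.ex v w hw
      refine ⟨i, ?_, hi⟩
      rw [Finset.mem_filter]
      refine ⟨Finset.mem_univ _, ?_⟩
      intro h
      rw [h] at hi
      exact hw.ne hi
  have h2 := Finset.card_filter_add_card_filter_not (s := (Finset.univ : Finset (Fin D)))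
    (fun j => μ (v, j) = (v, j))
  rw [Finset.card_univ, Fintype.card_fin, h1] at h2
  exact h2

theorem leg_exists {μ : V × Fin D → V × Fin D} {G : SimpleGraph V} (hr : Rep μ G) (v : V)
    [Fintype (G.neighborSet v)] (hd : G.degree v < D) : ∃ j, μ (v, j) = (v, j) := by
  have h := legs_card hr v
  have : 0 < (Finset.univ.filter (fun j => μ (v, j) = (v, j))).card := by omega
  obtain ⟨j, hj⟩ := Finset.card_pos.1 this
  exact ⟨j, (Finset.mem_filter.1 hj).2⟩

theorem GG_add {G : SimpleGraph V} {u v : V} [Fintype (G.neighborSet u)] [Fintype (G.neighborSet v)]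
    (huv : u ≠ v) (hn : ¬ G.Adj u v) (hd : G.degree u + G.degree v < D) (h : GG G D) :
    GG (G ⊔ SimpleGraph.edge u v) D := by
  classical
  rw [GG_iff] at h ⊢
  obtain ⟨μ, hr, hg⟩ := h
  obtain ⟨i, hi⟩ := leg_exists hr u (by omega)
  obtain ⟨j, hj⟩ := leg_exists hr v (by omega)
  have hlu := legs_card hr u
  have hlv := legs_card hr v
  have hne : ((u, i) : V × Fin D) ≠ (v, j) := fun h => huv (Prod.mk.inj h).1
  have e1 : joi μ (u, i) (v, j) (u, i) = (v, j) := by simp [joi]
  have e2 : joi μ (u, i) (v, j) (v, j) = (u, i) := by simp [joi, hne.symm]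
  have e3 : ∀ x, x ≠ (u, i) → x ≠ (v, j) → joi μ (u, i) (v, j) x = μ x := by
    intro x h1 h2
    simp [joi, h1, h2]
  have e4 : ∀ x, x ≠ (u, i) → x ≠ (v, j) → μ x ≠ (u, i) ∧ μ x ≠ (v, j) := by
    intro x h1 h2
    constructor
    · intro h; apply h1; rw [← hr.inv x, h, hi]
    · intro h; apply h2; rw [← hr.inv x, h, hj]
  refine ⟨joi μ (u, i) (v, j), ⟨?_, ?_, ?_, ?_⟩, good_joi hr.inv hi hj huv (by simp only; omega) hg⟩
  · intro x
    by_cases h1 : x = (u, i)
    · rw [h1, e1, e2]
    · by_cases h2 : x = (v, j)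
      · rw [h2, e2, e1]
      · rw [e3 x h1 h2, e3 _ (e4 x h1 h2).1 (e4 x h1 h2).2, hr.inv]
  · intro x hx
    rw [SimpleGraph.sup_adj, SimpleGraph.edge_adj]
    by_cases h1 : x = (u, i)
    · rw [h1, e1]; right; exact ⟨Or.inl ⟨rfl, rfl⟩, huv⟩
    · by_cases h2 : x = (v, j)
      · rw [h2, e2]; right; exact ⟨Or.inr ⟨rfl, rfl⟩, huv.symm⟩
      · rw [e3 x h1 h2] at hx ⊢
        left
        exact hr.adj x hx
  · intro x y hxy hx hy h
    by_cases h1 : x = (u, i)
    · by_cases h3 : y = (u, i)
      · rw [h1, h3]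
      · by_cases h4 : y = (v, j)
        · exfalso
          rw [h1, h4] at hxy
          exact huv hxy
        · exfalso
          rw [e3 y h3 h4] at hy h
          rw [h1, e1] at h
          simp only at h
          rw [h1] at hxy
          simp only at hxy
          have := hr.adj y hy
          rw [← h, ← hxy] at this
          exact hn this
    · by_cases h2 : x = (v, j)
      · by_cases h3 : y = (u, i)
        · exfalso
          rw [h2, h3] at hxy
          exact huv hxy.symm
        · by_cases h4 : y = (v, j)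
          · rw [h2, h4]
          · exfalso
            rw [e3 y h3 h4] at hy h
            rw [h2, e2] at h
            simp only at h
            rw [h2] at hxy
            simp only at hxy
            have := hr.adj y hy
            rw [← h, ← hxy] at this
            exact hn this.symm
      · by_cases h3 : y = (u, i)
        · exfalso
          rw [e3 x h1 h2] at hx h
          rw [h3, e1] at h
          simp only at h
          rw [h3] at hxy
          simp only at hxy
          have := hr.adj x hx
          rw [h, hxy] at this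
          exact hn this
        · by_cases h4 : y = (v, j)
          · exfalso
            rw [e3 x h1 h2] at hx h
            rw [h4, e2] at h
            simp only at h
            rw [h4] at hxy
            simp only at hxy
            have := hr.adj x hx
            rw [h, hxy] at this
            exact hn this.symm
          · rw [e3 x h1 h2] at hx h
            rw [e3 y h3 h4] at hy h
            exact hr.uniq x y hxy hx hy h
  · intro a b hab
    rw [SimpleGraph.sup_adj, SimpleGraph.edge_adj] at hab
    rcases hab with hab | ⟨⟨rfl, rfl⟩ | ⟨rfl, rfl⟩, hab⟩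
    · obtain ⟨k, hk⟩ := hr.ex a b hab
      refine ⟨k, ?_⟩
      rw [e3, hk]
      · intro h
        rw [h, hi] at hk
        have h1 := (Prod.mk.inj h).1
        simp only at hk
        rw [h1, ← hk] at hab
        exact hab.ne rfl
      · intro h
        rw [h, hj] at hk
        have h1 := (Prod.mk.inj h).1
        simp only at hk
        rw [h1, ← hk] at hab
        exact hab.ne rfl
    · exact ⟨i, by rw [e1]⟩
    · exact ⟨j, by rw [e2]⟩

theorem GG_succ {G : SimpleGraph V} (h : GG G D) : GG G (D + 1) := by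
  rw [GG_iff] at h ⊢
  obtain ⟨μ, hr, hg⟩ := h
  have hfix : ∀ x : V × Fin (D + 1), inc μ x ≠ x → ∃ j : Fin D, x = (x.1, j.castSucc) ∧
      inc μ x = ((μ (x.1, j)).1, (μ (x.1, j)).2.castSucc) ∧ μ (x.1, j) ≠ (x.1, j) := by
    rintro ⟨v, j⟩ hx
    induction j using Fin.lastCases with
    | last => exact absurd (inc_last μ v) hx
    | cast j =>
      refine ⟨j, rfl, inc_castSucc μ v j, ?_⟩
      intro h
      apply hx
      rw [inc_castSucc]
      simp only at h
      rw [h]
  refine ⟨inc μ, ⟨?_, ?_, ?_, ?_⟩, good_inc hg⟩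
  · rintro ⟨v, j⟩
    induction j using Fin.lastCases with
    | last => rw [inc_last, inc_last]
    | cast j => rw [inc_castSucc, inc_castSucc, Prod.mk.eta, hr.inv]
  · intro x hx
    obtain ⟨j, h1, h2, h3⟩ := hfix x hx
    rw [h2]
    exact hr.adj _ h3
  · intro x y hxy hx hy h
    obtain ⟨j, h1, h2, h3⟩ := hfix x hx
    obtain ⟨k, h4, h5, h6⟩ := hfix y hy
    rw [h2, h5] at h
    have := hr.uniq (x.1, j) (y.1, k) hxy h3 h6 h
    rw [h1, h4, (Prod.mk.inj this).1, (Prod.mk.inj this).2]
  · intro u v huv
    obtain ⟨i, hi⟩ := hr.ex u v huv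
    exact ⟨i.castSucc, by rw [inc_castSucc, hi]⟩

theorem GG_le {G : SimpleGraph V} {D' : ℕ} (h : GG G D) (hD : D ≤ D') : GG G D' := by
  obtain ⟨k, rfl⟩ := Nat.exists_eq_add_of_le hD
  induction k with
  | zero => exact h
  | succ k ih => exact GG_succ (ih (by omega))

theorem GG_equiv {W : Type} [Fintype W] {G : SimpleGraph V} {H : SimpleGraph W}
    (f : V ≃ W) (hf : ∀ a b, H.Adj (f a) (f b) ↔ G.Adj a b) (h : GG G D) : GG H D := by
  classical
  rw [GG_iff] at h ⊢
  obtain ⟨μ, hr, hg⟩ := h
  refine ⟨rel f μ, ⟨?_, ?_, ?_, ?_⟩, good_rel f hg⟩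
  · intro x
    simp [rel, hr.inv]
  · intro x hx
    have : μ (f.symm x.1, x.2) ≠ (f.symm x.1, x.2) := by
      intro h
      apply hx
      simp [rel, h]
    have h2 := hr.adj _ this
    have h3 := (hf _ _).2 h2
    simpa [rel] using h3
  · intro x y hxy hx hy h
    have hx' : μ (f.symm x.1, x.2) ≠ (f.symm x.1, x.2) := by
      intro h
      apply hx
      simp [rel, h]
    have hy' : μ (f.symm y.1, y.2) ≠ (f.symm y.1, y.2) := by
      intro h
      apply hy
      simp [rel, h]
    have := hr.uniq _ _ (by simp only; rw [hxy]) hx' hy' (f.injective h)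
    exact Prod.ext hxy (Prod.mk.inj this).2
  · intro u v huv
    have h1 : G.Adj (f.symm u) (f.symm v) := by
      rw [← hf]; simpa using huv
    obtain ⟨i, hi⟩ := hr.ex _ _ h1
    refine ⟨i, ?_⟩
    show f (μ (f.symm u, i)).1 = v
    rw [hi]
    simp

/-- the prism over `G` -/
theorem GG_prism {G : SimpleGraph V} [∀ v, Fintype (G.neighborSet v)] (hd : ∀ v, G.degree v < D)
    (h : GG G D) : GG (G □ (⊤ : SimpleGraph Bool)) D := by
  classical
  rw [GG_iff] at h ⊢
  obtain ⟨μ, hr, hg⟩ := h
  choose τ hτ using fun v => leg_exists hr v (hd v)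
  let T : V × Fin D → Bool := fun x => decide (x.2 = τ x.1)
  have hT : ∀ x, T x = true → μ x = x := by
    intro x hx
    have : x.2 = τ x.1 := of_decide_eq_true hx
    have h2 := hτ x.1
    rw [← this] at h2
    exact h2
  have hpos : ∀ v b, dbl μ T ((v, b), τ v) = ((v, !b), τ v) := by
    intro v b
    simp [dbl, T]
  have hneg : ∀ v b j, j ≠ τ v → dbl μ T ((v, b), j) = (((μ (v, j)).1, b), (μ (v, j)).2) := by
    intro v b j hj
    simp [dbl, T, hj]
  refine ⟨dbl μ T, ⟨dbl_invol hr.inv hT, ?_, ?_, ?_⟩, good_dbl hT hg⟩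
  · rintro ⟨⟨v, b⟩, j⟩ hx
    rw [SimpleGraph.boxProd_adj]
    by_cases hj : j = τ v
    · subst hj
      rw [hpos]
      right
      simp
    · rw [hneg v b j hj] at hx ⊢
      left
      have : μ (v, j) ≠ (v, j) := by
        intro h
        apply hx
        rw [h]
      exact ⟨hr.adj _ this, rfl⟩
  · rintro ⟨⟨v, b⟩, j⟩ ⟨⟨w, b'⟩, k⟩ hxy hx hy h
    obtain ⟨rfl, rfl⟩ := Prod.mk.inj hxy
    by_cases hj : j = τ v
    · subst hj
      by_cases hk : k = τ v
      · rw [hk]
      · exfalso
        rw [hpos, hneg v b k hk] at h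
        have := (Prod.mk.inj h).2
        simp at this
    · by_cases hk : k = τ v
      · exfalso
        subst hk
        rw [hpos, hneg v b j hj] at h
        have := (Prod.mk.inj h).2
        simp at this
      · rw [hneg v b j hj] at hx h
        rw [hneg v b k hk] at hy h
        have hx' : μ (v, j) ≠ (v, j) := by
          intro h; apply hx; rw [h]
        have hy' : μ (v, k) ≠ (v, k) := by
          intro h; apply hy; rw [h]
        have := hr.uniq (v, j) (v, k) rfl hx' hy' (Prod.mk.inj h).1
        rw [(Prod.mk.inj this).2]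
  · rintro ⟨u, b⟩ ⟨v, b'⟩ huv
    rw [SimpleGraph.boxProd_adj] at huv
    rcases huv with ⟨h1, h2⟩ | ⟨h1, h2⟩
    · obtain ⟨i, hi⟩ := hr.ex u v h1
      refine ⟨i, ?_⟩
      rw [hneg]
      · simp only at h2
        rw [hi, h2]
      · intro hiτ
        rw [hiτ, hτ] at hi
        exact h1.ne hi
    · refine ⟨τ u, ?_⟩
      rw [hpos]
      simp only [SimpleGraph.top_adj] at h1 h2
      rw [h2]
      cases b <;> cases b' <;> simp_all


/-- the complete graph on `p - 1` vertices -/
theorem GG_top {m d : ℕ} (h : 2 * m = d + 1) (hp : (d + 2).Prime) :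
    GG (⊤ : SimpleGraph (Fin (d + 1))) d := by
  classical
  rw [GG_iff]
  let t : (Fin m × Fin d) →₀ ℕ := Finsupp.equivFunOnFinite.symm (fun _ => d - 1)
  have ht : ∀ e, t e = d - 1 := fun e => rfl
  have hc := coeff_ne_zero h hp t ht
  have hSI : SI ℤ (gam h) ≠ 0 := by
    intro h0
    have h1 : SI (ZMod (d + 2)) (gam h) = 0 := by
      rw [← SI_cast, h0, Int.cast_zero]
    rw [SI_coeff (gam h) t ht] at h1
    have hu : IsUnit ((FM (ZMod (d + 2)) (Fin.rev : Fin d → Fin d)).det ^ m) := by
      apply IsUnit.pow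
      exact IsUnit.of_mul_eq_one _ FM_rev_sq
    exact hc ((hu.mul_right_eq_zero).1 h1)
  let κ : Hf m d ≃ Fin (d + 1) × Fin d :=
    { toFun := fun x => (e0 h (x.1.1, x.2), x.1.2)
      invFun := fun y => ((((e0 h).symm y.1).1, y.2), ((e0 h).symm y.1).2)
      left_inv := fun x => by simp
      right_inv := fun y => by simp }
  let fl : Hf m d → Hf m d := fun x => (x.1, !x.2)
  have hfl : ∀ x, fl (fl x) = x := fun x => by simp [fl]
  let ν : Hf m d → Hf m d := fun x => (gam h).symm (fl (gam h x))
  have hν : ∀ x, ν (ν x) = x := by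
    intro x
    simp only [ν, Equiv.apply_symm_apply, hfl, Equiv.symm_apply_apply]
  let μ : Fin (d + 1) × Fin d → Fin (d + 1) × Fin d := fun y => κ (ν (κ.symm y))
  have hμκ : ∀ x, μ (κ x) = κ (ν x) := by
    intro x
    simp only [μ, Equiv.symm_apply_apply]
  have hend : ∀ x, (κ (ν x)).1 = (κ x).1.succAbove (κ x).2 := by
    intro x
    have h1 : neE _ (slotE h (ν x)) = ((neE _ (slotE h x)).1, !(neE _ (slotE h x)).2) := by
      have h2 : gam h (ν x) = fl (gam h x) := (gam h).apply_symm_apply _
      rw [gam_apply, gam_apply] at h2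
      have h3 := (Prod.mk.inj h2).1
      have h4 := (Prod.mk.inj h2).2
      exact Prod.ext ((kap h).injective h3) h4
    have h5 := (neE_end (slotE h (ν x))).1
    have h6 := (neE_end (slotE h x)).2
    rw [h1] at h5
    simp only [Bool.not_not] at h5
    rw [← h6] at h5
    exact h5
  have hμ1 : ∀ y, (μ y).1 = y.1.succAbove y.2 := by
    intro y
    obtain ⟨x, rfl⟩ := κ.surjective y
    rw [hμκ]
    exact hend x
  refine ⟨μ, ⟨?_, ?_, ?_, ?_⟩, ?_⟩
  · intro y
    obtain ⟨x, rfl⟩ := κ.surjective y
    show μ (μ (κ x)) = κ x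
    have h1 := hμκ x
    have h2 := hμκ (ν x)
    rw [h1, h2, hν]
  · intro y _
    rw [SimpleGraph.top_adj, hμ1]
    exact (Fin.succAbove_ne _ _).symm
  · intro x y hxy _ _ hh
    rw [hμ1, hμ1, hxy] at hh
    exact Prod.ext hxy (Fin.succAbove_right_injective hh)
  · intro u v huv
    rw [SimpleGraph.top_adj] at huv
    obtain ⟨i, hi⟩ := Fin.exists_succAbove_eq huv.symm
    exact ⟨i, by rw [hμ1]; exact hi⟩
  · refine ⟨fun y => y.2, ?_⟩
    rw [← SI_cast] at *
    have hS : SI ℤ (gam h) = Zs μ (fun y => y.2) := by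
      unfold SI Zs
      rw [← (Equiv.arrowCongr κ.symm (Equiv.refl (Fin d))).sum_comp]
      apply Finset.sum_congr rfl
      intro f _
      have e0' : ∀ x, (Equiv.arrowCongr κ.symm (Equiv.refl (Fin d))) f x = f (κ x) := by
        intro x
        rfl
      have hiff : (∀ x : Hf m d, (Equiv.arrowCongr κ.symm (Equiv.refl (Fin d))) f ((gam h)⁻¹ (x.1, !x.2)) =
          (Equiv.arrowCongr κ.symm (Equiv.refl (Fin d))) f ((gam h)⁻¹ x)) ↔
          ((∀ x, f (μ x) = f x) ∧ (∀ x, μ x = x → f x = x.2)) := by
        simp only [e0']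
        constructor
        · intro H
          refine ⟨?_, ?_⟩
          · intro y
            obtain ⟨x, rfl⟩ := κ.surjective y
            rw [hμκ]
            have := H (gam h x)
            rw [inv_app] at this
            exact this
          · intro y hy
            exfalso
            have := hμ1 y
            rw [hy] at this
            exact Fin.succAbove_ne _ _ this.symm
        · rintro ⟨H, -⟩ y
          have := H (κ ((gam h).symm y))
          rw [hμκ] at this
          simp only [ν, Equiv.apply_symm_apply] at this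
          exact this
      have hwt : (∏ v : Fin m × Bool, (FM ℤ (fun j =>
          (Equiv.arrowCongr κ.symm (Equiv.refl (Fin d))) f ((v.1, j), v.2))).det) = wt f := by
        unfold wt
        apply Fintype.prod_equiv (e0 h)
        rintro ⟨i, b⟩
        rfl
      rw [hwt]
      by_cases hc : ((∀ x, f (μ x) = f x) ∧ (∀ x, μ x = x → f x = x.2))
      · rw [if_pos hc, if_pos (hiff.2 hc)]
      · rw [if_neg hc, if_neg (fun h' => hc (hiff.1 h'))]
    rw [← hS]
    exact hSI

/-- the hypercube -/
abbrev Qc (r : ℕ) : SimpleGraph (Fin r → Bool) :=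
  SimpleGraph.fromRel (fun a b : Fin r → Bool => hammingDist a b = 1)

theorem Qc_adj {r : ℕ} (a b : Fin r → Bool) : (Qc r).Adj a b ↔ hammingDist a b = 1 := by
  rw [SimpleGraph.fromRel_adj]
  constructor
  · rintro ⟨-, h | h⟩
    · exact h
    · rw [hammingDist_comm]; exact h
  · intro h
    refine ⟨?_, Or.inl h⟩
    rintro rfl
    rw [hammingDist_self] at h
    exact absurd h (by norm_num)

theorem hammingDist_cons {r : ℕ} (a b : Fin r → Bool) (x y : Bool) :
    hammingDist (Fin.cons x a : Fin (r + 1) → Bool) (Fin.cons y b) =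
      (if x ≠ y then 1 else 0) + hammingDist a b := by
  unfold hammingDist
  rw [Finset.card_filter, Finset.card_filter, Fin.sum_univ_succ]
  simp

theorem Qc_degree {r : ℕ} (a : Fin r → Bool) [Fintype ((Qc r).neighborSet a)] :
    (Qc r).degree a = r := by
  classical
  rw [← SimpleGraph.card_neighborFinset_eq_degree]
  have : (Qc r).neighborFinset a = Finset.univ.image (fun j : Fin r => Function.update a j (!a j)) := by
    ext b
    rw [SimpleGraph.mem_neighborFinset, Qc_adj, Finset.mem_image]
    unfold hammingDist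
    rw [Finset.card_eq_one]
    constructor
    · rintro ⟨j, hj⟩
      refine ⟨j, Finset.mem_univ _, ?_⟩
      funext i
      by_cases hi : i = j
      · subst hi
        rw [Function.update_self]
        have : i ∈ ({i} : Finset (Fin r)) := Finset.mem_singleton_self i
        rw [← hj, Finset.mem_filter] at this
        have h2 := this.2
        cases h3 : a i <;> cases h4 : b i <;> simp_all
      · rw [Function.update_of_ne hi]
        by_contra hne
        have : i ∈ ({j} : Finset (Fin r)) := by
          rw [← hj, Finset.mem_filter]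
          exact ⟨Finset.mem_univ _, hne⟩
        exact hi (Finset.mem_singleton.1 this)
    · rintro ⟨j, -, rfl⟩
      refine ⟨j, ?_⟩
      ext i
      rw [Finset.mem_filter, Finset.mem_singleton]
      by_cases hi : i = j
      · subst hi
        simp
      · simp [Function.update_of_ne hi, hi]
  rw [this, Finset.card_image_of_injective, Finset.card_univ, Fintype.card_fin]
  intro i j hij
  by_contra hne
  have := congrFun hij i
  simp only at this
  rw [Function.update_self, Function.update_of_ne hne] at this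
  simp at this

theorem GG_cube {G : SimpleGraph V} [∀ v, Fintype (G.neighborSet v)] {r : ℕ}
    (hd : ∀ v, G.degree v + r ≤ D) (h : GG G D) : GG (G □ Qc r) D := by
  classical
  have key : ∀ i, i ≤ r → GG (G □ Qc i) D := by
    intro i
    induction i with
    | zero =>
      intro _
      apply GG_equiv (G := G) (Equiv.prodUnique V (Fin 0 → Bool)).symm _ h
      intro a b
      rw [SimpleGraph.boxProd_adj, Qc_adj]
      simp
    | succ i ih =>
      intro hi
      have h1 := ih (by omega)
      have h2 : GG ((G □ Qc i) □ (⊤ : SimpleGraph Bool)) D := by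
        apply GG_prism _ h1
        rintro ⟨v, a⟩
        have h3 : (G □ Qc i).degree (v, a) = G.degree v + (Qc i).degree a := by
          convert SimpleGraph.degree_boxProd (v, a)
        rw [h3, Qc_degree]
        have := hd v
        omega
      let f : (V × (Fin i → Bool)) × Bool ≃ V × (Fin (i + 1) → Bool) :=
        { toFun := fun x => (x.1.1, Fin.cons x.2 x.1.2)
          invFun := fun y => ((y.1, Fin.tail y.2), y.2 0)
          left_inv := by
            rintro ⟨⟨v, a⟩, b⟩
            simp
          right_inv := by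
            rintro ⟨v, a⟩
            simp }
      apply GG_equiv f _ h2
      rintro ⟨⟨v, a⟩, b⟩ ⟨⟨v', a'⟩, b'⟩
      simp only [f, Equiv.coe_fn_mk, SimpleGraph.boxProd_adj, Qc_adj, hammingDist_cons,
        SimpleGraph.top_adj, Prod.mk.injEq, Fin.cons_inj]
      by_cases hb : b = b'
      · subst hb
        simp
      · simp only [hb, false_and, and_false, false_or, ne_eq, not_false_eq_true, if_true, true_and]
        constructor
        · rintro ⟨h1, h2⟩
          have : hammingDist a a' = 0 := by omega
          exact ⟨h2, hammingDist_eq_zero.1 this⟩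
        · rintro ⟨h1, h2⟩
          subst h2
          rw [hammingDist_self]
          exact ⟨rfl, h1⟩
  exact key r le_rfl

theorem LC_hom {V W : Type} {G : SimpleGraph V} {H : SimpleGraph W} {k : ℕ} (f : V → W)
    (hf : Function.Injective f) (hG : ∀ a b, G.Adj a b → H.Adj (f a) (f b)) (h : LC H k) : LC G k := by
  classical
  intro L hL
  have hmem : ∀ e : G.edgeSet, Sym2.map f e.1 ∈ H.edgeSet := by
    rintro ⟨e, he⟩
    induction e with
    | h u w =>
      rw [SimpleGraph.mem_edgeSet] at he
      rw [Sym2.map_mk, SimpleGraph.mem_edgeSet]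
      exact hG _ _ he
  have hinj : Function.Injective (Sym2.map f) := Sym2.map.injective hf
  let ψ : G.edgeSet → H.edgeSet := fun e => ⟨Sym2.map f e.1, hmem e⟩
  have hψ : Function.Injective ψ := by
    intro e e' hee
    exact Subtype.ext (hinj (congrArg Subtype.val hee))
  let L' : H.edgeSet → Finset ℕ := fun x => if hx : ∃ e, ψ e = x then L hx.choose else Finset.range k
  obtain ⟨c, hc1, hc2⟩ := h L' (by
    intro x
    by_cases hx : ∃ e, ψ e = x
    · simp only [L', dif_pos hx]; exact hL _
    · simp only [L', dif_neg hx, Finset.card_range, le_refl])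
  refine ⟨fun e => c (ψ e), ?_, ?_⟩
  · intro e
    have h1 := hc1 (ψ e)
    have hx : ∃ e', ψ e' = ψ e := ⟨e, rfl⟩
    simp only [L', dif_pos hx] at h1
    have h2 : hx.choose = e := hψ hx.choose_spec
    rw [h2] at h1
    exact h1
  · intro e e' hadj
    apply hc2
    rw [SimpleGraph.lineGraph_adj_iff_exists] at hadj ⊢
    obtain ⟨hne, v, hv, hv'⟩ := hadj
    refine ⟨fun h => hne (hψ h), f v, ?_, ?_⟩
    · exact Sym2.mem_map.2 ⟨v, hv, rfl⟩
    · exact Sym2.mem_map.2 ⟨v, hv', rfl⟩

theorem degree_le_of_colorable {W : Type} (H : SimpleGraph W) (w : W) [Fintype (H.neighborSet w)]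
    {k : ℕ} (h : H.lineGraph.Colorable k) : H.degree w ≤ k := by
  classical
  obtain ⟨C⟩ := h
  let F : H.neighborSet w → Fin k := fun x => C ⟨s(w, x.1), (SimpleGraph.mem_edgeSet H).2 x.2⟩
  have hF : Function.Injective F := by
    intro x y hxy
    by_contra hne
    have hadj : H.lineGraph.Adj ⟨s(w, x.1), (SimpleGraph.mem_edgeSet H).2 x.2⟩
        ⟨s(w, y.1), (SimpleGraph.mem_edgeSet H).2 y.2⟩ := by
      rw [SimpleGraph.lineGraph_adj_iff_exists]
      refine ⟨?_, w, by simp, by simp⟩
      intro h
      have h2 := congrArg Subtype.val h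
      simp only [Sym2.congr_right] at h2
      exact hne (Subtype.ext h2)
    exact C.valid hadj hxy
  have := Fintype.card_le_of_injective F hF
  rw [Fintype.card_fin, SimpleGraph.card_neighborSet_eq_degree] at this
  exact this

theorem LC_colorable {W : Type} {H : SimpleGraph W} {k : ℕ} (h : LC H k) : H.lineGraph.Colorable k := by
  obtain ⟨f, hf1, hf2⟩ := h (fun _ => Finset.range k) (fun e => by simp)
  refine ⟨SimpleGraph.Coloring.mk (fun e => ⟨f e, Finset.mem_range.1 (hf1 e)⟩) ?_⟩
  intro e e' hadj heq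
  exact hf2 e e' hadj (congrArg Fin.val heq)

/-- from list-colourability at the maximum degree to the list edge-colouring property -/
theorem LECC_of_LC {G : SimpleGraph V} [DecidableRel G.Adj] {r : ℕ}
    (h : LC (G □ Qc r) (G.maxDegree + r)) (k : ℕ) :
    (G □ Qc r).lineGraph.Colorable k ↔ LC (G □ Qc r) k := by
  classical
  constructor
  · intro hk
    rcases isEmpty_or_nonempty V with hV | hV
    · intro L _
      have hempty : IsEmpty (G □ Qc r).edgeSet := by
        constructor
        rintro ⟨e, he⟩
        induction e with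
        | h u w => exact hV.false u.1
      exact ⟨fun e => 0, fun e => (hempty.false e).elim, fun e => (hempty.false e).elim⟩
    · obtain ⟨v, hv⟩ := G.exists_maximal_degree_vertex
      let a0 : Fin r → Bool := fun _ => false
      have h1 := degree_le_of_colorable (G □ Qc r) (v, a0) hk
      have h3 : (G □ Qc r).degree (v, a0) = G.degree v + (Qc r).degree a0 := by
        convert SimpleGraph.degree_boxProd (v, a0)
      rw [h3, Qc_degree, ← hv] at h1
      intro L hL
      exact h L (fun e => h1.trans (hL e))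
  · exact LC_colorable


theorem GG_small {G : SimpleGraph V} [DecidableRel G.Adj] {p r : ℕ} (hp : p.Prime)
    (h1 : Fintype.card V + 1 ≤ p) (h2 : p ≤ G.maxDegree + r + 2) :
    LC (G □ Qc r) (G.maxDegree + r) := by
  classical
  rcases hp.eq_two_or_odd' with rfl | hodd
  · -- at most one vertex
    have hsub : Subsingleton V := Fintype.card_le_one_iff_subsingleton.1 (by omega)
    have hG : G = ⊥ := by
      ext a b
      constructor
      · intro h
        exact (h.ne (Subsingleton.elim a b)).elim
      · intro h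
        exact h.elim
    have hdeg : ∀ v, G.degree v = 0 := by
      intro v
      rw [← SimpleGraph.card_neighborFinset_eq_degree, Finset.card_eq_zero]
      ext w
      rw [SimpleGraph.mem_neighborFinset]
      constructor
      · intro h
        exact (h.ne (Subsingleton.elim v w)).elim
      · intro h
        exact absurd h (Finset.notMem_empty _)
    apply GG_LC
    apply GG_cube
    · intro v
      rw [hdeg]
      omega
    · generalize G.maxDegree + r = D'
      rw [hG]
      exact GG_bot
  · obtain ⟨m, hm⟩ := hodd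
    obtain ⟨d, hd⟩ : ∃ d, p = d + 2 := ⟨p - 2, by have := hp.two_le; omega⟩
    have hmd : 2 * m = d + 1 := by omega
    have hp' : (d + 2).Prime := hd ▸ hp
    have hcard : Fintype.card V ≤ Fintype.card (Fin (d + 1)) := by
      rw [Fintype.card_fin]; omega
    obtain ⟨φ⟩ := Function.Embedding.nonempty_of_card_le hcard
    have hT := GG_top hmd hp'
    have hG' : GG (G.map φ) (G.maxDegree + r) := by
      apply GG_le (GG_mono le_top hT)
      omega
    have hdeg : ∀ w, (G.map φ).degree w ≤ G.maxDegree := by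
      intro w
      by_cases hw : ∃ v, φ v = w
      · obtain ⟨v, rfl⟩ := hw
        refine le_trans ?_ (G.degree_le_maxDegree v)
        rw [← SimpleGraph.card_neighborFinset_eq_degree, ← SimpleGraph.card_neighborFinset_eq_degree]
        have : (G.map φ).neighborFinset (φ v) ⊆ (G.neighborFinset v).image φ := by
          intro x hx
          rw [SimpleGraph.mem_neighborFinset, SimpleGraph.map_adj] at hx
          obtain ⟨a, b, hab, ha, hb⟩ := hx
          rw [Finset.mem_image]
          refine ⟨b, ?_, hb⟩
          rw [SimpleGraph.mem_neighborFinset]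
          rw [← φ.injective ha]
          exact hab
        exact (Finset.card_le_card this).trans Finset.card_image_le
      · have : (G.map φ).neighborFinset w = ∅ := by
          ext x
          rw [SimpleGraph.mem_neighborFinset, SimpleGraph.map_adj]
          constructor
          · rintro ⟨a, b, hab, ha, hb⟩
            exact (hw ⟨a, ha⟩).elim
          · intro h
            exact absurd h (Finset.notMem_empty _)
        rw [← SimpleGraph.card_neighborFinset_eq_degree, this, Finset.card_empty]
        exact Nat.zero_le _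
    have h3 : LC (G.map φ □ Qc r) (G.maxDegree + r) := by
      apply GG_LC
      apply GG_cube _ hG'
      intro v
      exact Nat.add_le_add_right (hdeg v) r
    apply LC_hom (Prod.map φ id) (φ.injective.prodMap Function.injective_id) _ h3
    rintro ⟨a, x⟩ ⟨b, y⟩ hab
    rw [SimpleGraph.boxProd_adj] at hab ⊢
    rcases hab with ⟨h4, h5⟩ | ⟨h4, h5⟩
    · left
      exact ⟨SimpleGraph.map_adj_apply.2 h4, h5⟩
    · right
      refine ⟨h4, ?_⟩
      simp only at h5
      simp [h5]

/-- graphs whose edges can be ordered greedily -/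
theorem GG_of_order {G : SimpleGraph V} (ord : G.edgeSet → ℕ) (hinj : Function.Injective ord)
    (hord : ∀ e, {e' | G.lineGraph.Adj e e' ∧ ord e' < ord e}.ncard < D) : GG G D := by
  classical
  let Gn : ℕ → SimpleGraph V := fun n =>
    { Adj := fun a b => ∃ h : G.Adj a b, ord ⟨s(a, b), (SimpleGraph.mem_edgeSet G).2 h⟩ < n
      symm := by
        constructor
        rintro a b ⟨h, h2⟩
        refine ⟨h.symm, ?_⟩
        have : (⟨s(b, a), (SimpleGraph.mem_edgeSet G).2 h.symm⟩ : G.edgeSet) =
            ⟨s(a, b), (SimpleGraph.mem_edgeSet G).2 h⟩ := Subtype.ext Sym2.eq_swap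
        rw [this]; exact h2
      loopless := by
        constructor
        rintro a ⟨h, -⟩
        exact h.ne rfl }
  have hstep : ∀ n, GG (Gn n) D := by
    intro n
    induction n with
    | zero =>
      have : Gn 0 = ⊥ := by
        ext a b
        constructor
        · rintro ⟨h, h2⟩
          exact absurd h2 (Nat.not_lt_zero _)
        · intro h; exact h.elim
      rw [this]
      exact GG_bot
    | succ n ih =>
      by_cases hn : ∃ e, ord e = n
      · obtain ⟨⟨e, he⟩, hen⟩ := hn
        induction e with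
        | h u v =>
        have huv : G.Adj u v := (SimpleGraph.mem_edgeSet G).1 he
        have heq : Gn (n + 1) = Gn n ⊔ SimpleGraph.edge u v := by
          ext a b
          rw [SimpleGraph.sup_adj, SimpleGraph.edge_adj]
          constructor
          · rintro ⟨h, h2⟩
            rcases Nat.lt_succ_iff_lt_or_eq.1 h2 with h3 | h3
            · left; exact ⟨h, h3⟩
            · right
              refine ⟨?_, h.ne⟩
              have := hinj (h3.trans hen.symm)
              have h4 : s(a, b) = s(u, v) := congrArg Subtype.val this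
              exact Sym2.eq_iff.1 h4
          · rintro (⟨h, h2⟩ | ⟨h, h2⟩)
            · exact ⟨h, Nat.lt_succ_of_lt h2⟩
            · have h4 : s(a, b) = s(u, v) := Sym2.eq_iff.2 h
              have h5 : G.Adj a b := by
                rw [← SimpleGraph.mem_edgeSet, h4]; exact he
              refine ⟨h5, ?_⟩
              have : (⟨s(a, b), (SimpleGraph.mem_edgeSet G).2 h5⟩ : G.edgeSet) = ⟨s(u, v), he⟩ :=
                Subtype.ext h4
              rw [this, hen]
              exact Nat.lt_succ_self n
        have hnot : ¬ (Gn n).Adj u v := by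
          rintro ⟨h, h2⟩
          have : ord ⟨s(u, v), (SimpleGraph.mem_edgeSet G).2 h⟩ = n := hen
          omega
        rw [heq]
        apply GG_add huv.ne hnot _ ih
        refine lt_of_le_of_lt ?_ (hord ⟨s(u, v), he⟩)
        rw [← SimpleGraph.card_neighborFinset_eq_degree, ← SimpleGraph.card_neighborFinset_eq_degree]
        have hfin : {e' | G.lineGraph.Adj ⟨s(u, v), he⟩ e' ∧ ord e' < ord ⟨s(u, v), he⟩}.Finite :=
          Set.toFinite _
        rw [Set.ncard_eq_toFinset_card _ hfin]
        have hmapu : ∀ w, (Gn n).Adj u w → s(u, w) ∈ G.edgeSet := by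
          rintro w ⟨h, -⟩; exact h
        have hmapv : ∀ w, (Gn n).Adj v w → s(v, w) ∈ G.edgeSet := by
          rintro w ⟨h, -⟩; exact h
        rw [← Finset.card_disjSum]
        apply Finset.card_le_card_of_injOn (fun x : V ⊕ V =>
          match x with
          | Sum.inl w => if h : s(u, w) ∈ G.edgeSet then (⟨s(u, w), h⟩ : G.edgeSet) else ⟨s(u, v), he⟩
          | Sum.inr w => if h : s(v, w) ∈ G.edgeSet then (⟨s(v, w), h⟩ : G.edgeSet) else ⟨s(u, v), he⟩)
        · rintro (w | w) hw
          · rw [Finset.mem_coe, Finset.inl_mem_disjSum, SimpleGraph.mem_neighborFinset] at hw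
            have hw1 := hmapu w hw
            obtain ⟨hw2, hw3⟩ := hw
            simp only [dif_pos hw1]
            rw [Finset.mem_coe, Set.Finite.mem_toFinset, Set.mem_ofPred_eq,
              SimpleGraph.lineGraph_adj_iff_exists]
            refine ⟨⟨?_, u, by simp, by simp⟩, ?_⟩
            · intro h
              have := congrArg ord h
              rw [hen] at this
              omega
            · rw [hen]; exact hw3
          · rw [Finset.mem_coe, Finset.inr_mem_disjSum, SimpleGraph.mem_neighborFinset] at hw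
            have hw1 := hmapv w hw
            obtain ⟨hw2, hw3⟩ := hw
            simp only [dif_pos hw1]
            rw [Finset.mem_coe, Set.Finite.mem_toFinset, Set.mem_ofPred_eq,
              SimpleGraph.lineGraph_adj_iff_exists]
            refine ⟨⟨?_, v, by simp, by simp⟩, ?_⟩
            · intro h
              have := congrArg ord h
              rw [hen] at this
              omega
            · rw [hen]; exact hw3
        · rintro (w | w) hw (w' | w') hw' heq'
          · rw [Finset.mem_coe, Finset.inl_mem_disjSum, SimpleGraph.mem_neighborFinset] at hw hw'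
            simp only [dif_pos (hmapu w hw), dif_pos (hmapu w' hw')] at heq'
            have := congrArg Subtype.val heq'
            simp only [Sym2.congr_right] at this
            rw [this]
          · exfalso
            rw [Finset.mem_coe, Finset.inl_mem_disjSum, SimpleGraph.mem_neighborFinset] at hw
            rw [Finset.mem_coe, Finset.inr_mem_disjSum, SimpleGraph.mem_neighborFinset] at hw'
            simp only [dif_pos (hmapu w hw), dif_pos (hmapv w' hw')] at heq'
            have := congrArg Subtype.val heq'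
            simp only [Sym2.eq_iff] at this
            rcases this with ⟨h5, -⟩ | ⟨h5, h6⟩
            · exact huv.ne h5
            · rw [h6] at hw; exact hnot hw
          · exfalso
            rw [Finset.mem_coe, Finset.inr_mem_disjSum, SimpleGraph.mem_neighborFinset] at hw
            rw [Finset.mem_coe, Finset.inl_mem_disjSum, SimpleGraph.mem_neighborFinset] at hw'
            simp only [dif_pos (hmapv w hw), dif_pos (hmapu w' hw')] at heq'
            have := congrArg Subtype.val heq'
            simp only [Sym2.eq_iff] at this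
            rcases this with ⟨h5, -⟩ | ⟨h5, h6⟩
            · exact huv.ne h5.symm
            · rw [← h5] at hw'; exact hnot hw'
          · rw [Finset.mem_coe, Finset.inr_mem_disjSum, SimpleGraph.mem_neighborFinset] at hw hw'
            simp only [dif_pos (hmapv w hw), dif_pos (hmapv w' hw')] at heq'
            have := congrArg Subtype.val heq'
            simp only [Sym2.congr_right] at this
            rw [this]
      · have heq : Gn (n + 1) = Gn n := by
          ext a b
          constructor
          · rintro ⟨h, h2⟩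
            refine ⟨h, ?_⟩
            rcases Nat.lt_succ_iff_lt_or_eq.1 h2 with h3 | h3
            · exact h3
            · exact absurd ⟨_, h3⟩ hn
          · rintro ⟨h, h2⟩
            exact ⟨h, Nat.lt_succ_of_lt h2⟩
        rw [heq]
        exact ih
  obtain ⟨N, hN⟩ : ∃ N, ∀ e : G.edgeSet, ord e < N := by
    obtain ⟨N, hN⟩ := (Set.finite_range ord).bddAbove
    exact ⟨N + 1, fun e => Nat.lt_succ_of_le (hN ⟨e, rfl⟩)⟩
  have : Gn N = G := by
    ext a b
    constructor
    · rintro ⟨h, -⟩; exact h
    · intro h; exact ⟨h, hN _⟩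
  rw [← this]
  exact hstep N

/-- sign of the expansion along a fixed column entry -/
theorem FM_succAbove {f : Fin (D + 1) → Fin (D + 1)} {f' : Fin D → Fin D} (s : Fin (D + 1))
    (h1 : f s = Fin.last D) (h2 : ∀ j, f (s.succAbove j) = (f' j).castSucc) :
    (FM ℤ f).det = (-1) ^ ((s : ℕ) + D) * (FM ℤ f').det := by
  rw [Matrix.det_succ_row (FM ℤ f) s]
  rw [Finset.sum_eq_single (Fin.last D)]
  · have e1 : FM ℤ f s (Fin.last D) = 1 := by simp [FM, h1]
    have e2 : (FM ℤ f).submatrix s.succAbove (Fin.last D).succAbove = FM ℤ f' := by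
      ext i j
      simp only [FM, Matrix.submatrix_apply, Matrix.of_apply, Fin.succAbove_last, h2,
        Fin.castSucc_inj]
    rw [e1, e2, Fin.val_last, mul_one]
  · intro b _ hb
    have : FM ℤ f s b = 0 := by
      simp only [FM, Matrix.of_apply, h1]
      rw [if_neg (Ne.symm hb)]
    rw [this]; ring
  · intro h; exact absurd (Finset.mem_univ _) h

/-- remove one colour class -/
theorem good_last {μ : V × Fin (D + 1) → V × Fin (D + 1)} (hμ : ∀ x, μ (μ x) = x)
    (hleg : ∀ x, μ x ≠ x) (hg : Good μ) :
    ∃ (s : V → Fin (D + 1)) (μ' : V × Fin D → V × Fin D),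
      (∀ v, μ (v, s v) = ((μ (v, s v)).1, s (μ (v, s v)).1)) ∧
      (∀ x, μ (x.1, (s x.1).succAbove x.2) = ((μ' x).1, (s (μ' x).1).succAbove (μ' x).2)) ∧
      Good μ' := by
  classical
  obtain ⟨g, hg⟩ := hg
  have hZ : Zs μ g = ∑ s : V → Fin (D + 1), ∑ h : V × Fin (D + 1) → Fin (D + 1),
      if (∀ v, h (v, s v) = Fin.last D) ∧ (∀ x, h (μ x) = h x) then wt h else 0 := by
    unfold Zs
    rw [Finset.sum_comm]
    apply Finset.sum_congr rfl
    intro h _
    have hiff : ((∀ x, h (μ x) = h x) ∧ (∀ x, μ x = x → h x = g x)) ↔ (∀ x, h (μ x) = h x) :=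
      ⟨fun a => a.1, fun a => ⟨a, fun x hx => absurd hx (hleg x)⟩⟩
    by_cases hc : ∀ x, h (μ x) = h x
    · rw [if_pos (hiff.2 hc)]
      by_cases hw : wt h = 0
      · rw [hw]
        symm
        apply Finset.sum_eq_zero
        intro s _
        split_ifs <;> rfl
      · have hw' := hw
        unfold wt at hw'
        rw [← ne_eq, Finset.prod_ne_zero_iff] at hw'
        have hbij : ∀ v, Function.Bijective (fun j => h (v, j)) := fun v =>
          Finite.injective_iff_bijective.1 (FM_inj (hw' v (Finset.mem_univ _)))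
        choose s hs using fun v => (hbij v).2 (Fin.last D)
        rw [Finset.sum_eq_single s]
        · rw [if_pos ⟨hs, hc⟩]
        · intro s' _ hs'
          rw [if_neg]
          rintro ⟨a, -⟩
          apply hs'
          funext v
          apply (hbij v).1
          show h (v, s' v) = h (v, s v)
          rw [a]; exact (hs v).symm
        · intro h; exact absurd (Finset.mem_univ _) h
    · rw [if_neg (fun h' => hc (hiff.1 h'))]
      symm
      apply Finset.sum_eq_zero
      intro s _
      rw [if_neg (fun h' => hc h'.2)]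
  rw [hZ] at hg
  obtain ⟨s, -, hs⟩ := Finset.exists_ne_zero_of_sum_ne_zero hg
  -- μ preserves the slots (v, s v)
  have hS : ∀ v, μ (v, s v) = ((μ (v, s v)).1, s (μ (v, s v)).1) := by
    obtain ⟨h, -, hh⟩ := Finset.exists_ne_zero_of_sum_ne_zero hs
    split_ifs at hh with hc
    · unfold wt at hh
      rw [Finset.prod_ne_zero_iff] at hh
      intro v
      have h1 := FM_inj (hh (μ (v, s v)).1 (Finset.mem_univ _))
        (a₁ := (μ (v, s v)).2) (a₂ := s (μ (v, s v)).1)
        (by
          show h ((μ (v, s v)).1, (μ (v, s v)).2) = h ((μ (v, s v)).1, s (μ (v, s v)).1)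
          rw [Prod.mk.eta, hc.2, hc.1, hc.1])
      exact Prod.ext rfl h1
    · exact absurd rfl hh
  have hS2 : ∀ x : V × Fin D, (μ (x.1, (s x.1).succAbove x.2)).2 ≠ s (μ (x.1, (s x.1).succAbove x.2)).1 := by
    intro x hx
    have h1 : μ (x.1, (s x.1).succAbove x.2) =
        ((μ (x.1, (s x.1).succAbove x.2)).1, s (μ (x.1, (s x.1).succAbove x.2)).1) := Prod.ext rfl hx
    have h2 := hS (μ (x.1, (s x.1).succAbove x.2)).1
    rw [← h1, hμ] at h2
    have h3 := (Prod.mk.inj h2).2
    exact Fin.succAbove_ne _ _ h3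
  choose τ hτ using fun x : V × Fin D => Fin.exists_succAbove_eq (hS2 x)
  let μ' : V × Fin D → V × Fin D := fun x => ((μ (x.1, (s x.1).succAbove x.2)).1, τ x)
  have hμ' : ∀ x, μ (x.1, (s x.1).succAbove x.2) = ((μ' x).1, (s (μ' x).1).succAbove (μ' x).2) := by
    intro x
    exact Prod.ext rfl (hτ x).symm
  refine ⟨s, μ', hS, hμ', ?_⟩
  -- the lifting of labellings
  let up : (V × Fin D → Fin D) → (V × Fin (D + 1) → Fin (D + 1)) := fun h' x =>
    if hx : x.2 = s x.1 then Fin.last D else
      (h' (x.1, (Fin.exists_succAbove_eq hx).choose)).castSucc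
  have up1 : ∀ h' v, up h' (v, s v) = Fin.last D := fun h' v => dif_pos rfl
  have up2 : ∀ h' v j, up h' (v, (s v).succAbove j) = (h' (v, j)).castSucc := by
    intro h' v j
    have hx : ¬ ((v, (s v).succAbove j) : V × Fin (D + 1)).2 = s ((v, (s v).succAbove j) : V × Fin (D + 1)).1 :=
      Fin.succAbove_ne _ _
    have h1 : up h' (v, (s v).succAbove j) = (h' (v, (Fin.exists_succAbove_eq hx).choose)).castSucc :=
      dif_neg hx
    rw [h1]
    have h2 : (Fin.exists_succAbove_eq hx).choose = j :=
      Fin.succAbove_right_injective (Fin.exists_succAbove_eq hx).choose_spec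
    rw [h2]
  have hcase : ∀ x : V × Fin (D + 1), x.2 = s x.1 ∨ ∃ y : V × Fin D, x = (y.1, (s y.1).succAbove y.2) := by
    intro x
    by_cases hx : x.2 = s x.1
    · left; exact hx
    · right
      obtain ⟨j, hj⟩ := Fin.exists_succAbove_eq hx
      exact ⟨(x.1, j), Prod.ext rfl hj.symm⟩
  have hfix' : ∀ x, μ' x ≠ x := by
    intro x hx
    apply hleg (x.1, (s x.1).succAbove x.2)
    rw [hμ', hx]
  refine ⟨fun x => x.2, ?_⟩
  have hsum : (∑ h : V × Fin (D + 1) → Fin (D + 1),
      if (∀ v, h (v, s v) = Fin.last D) ∧ (∀ x, h (μ x) = h x) then wt h else 0) =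
      (∏ v, (-1 : ℤ) ^ ((s v : ℕ) + D)) * Zs μ' (fun x => x.2) := by
    unfold Zs
    rw [Finset.mul_sum]
    symm
    apply Finset.sum_of_injOn (e := up)
    · intro h _ h' _ heq
      funext x
      have := congrFun heq (x.1, (s x.1).succAbove x.2)
      rw [up2, up2, Fin.castSucc_inj] at this
      exact this
    · intro h _
      simp
    · intro k _ hk
      split_ifs with hc
      · by_contra hw
        apply hk
        unfold wt at hw
        rw [← ne_eq, Finset.prod_ne_zero_iff] at hw
        have hne : ∀ (v : V) (j : Fin D), k (v, (s v).succAbove j) ≠ Fin.last D := by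
          intro v j h
          have h1 := FM_inj (hw v (Finset.mem_univ _)) (a₁ := (s v).succAbove j) (a₂ := s v)
            (by show k (v, (s v).succAbove j) = k (v, s v); rw [h, hc.1])
          exact Fin.succAbove_ne _ _ h1
        obtain ⟨k', hk'⟩ : ∃ k' : V × Fin D → Fin D, ∀ x : V × Fin D,
            (k' x).castSucc = k (x.1, (s x.1).succAbove x.2) :=
          ⟨fun x => (k (x.1, (s x.1).succAbove x.2)).castPred (hne x.1 x.2), fun x => by simp⟩
        refine ⟨k', by simp, ?_⟩
        funext x
        rcases hcase x with hx | ⟨y, rfl⟩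
        · obtain ⟨v, j⟩ := x
          simp only at hx
          subst hx
          exact (up1 k' v).trans (hc.1 v).symm
        · exact (up2 k' y.1 y.2).trans (hk' y)
      · rfl
    · intro h _
      have hiff : ((∀ x, h (μ' x) = h x) ∧ (∀ x, μ' x = x → h x = x.2)) ↔
          ((∀ v, up h (v, s v) = Fin.last D) ∧ (∀ x, up h (μ x) = up h x)) := by
        constructor
        · rintro ⟨a, b⟩
          refine ⟨up1 h, ?_⟩
          intro x
          rcases hcase x with hx | ⟨y, rfl⟩
          · obtain ⟨v, j⟩ := x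
            simp only at hx
            subst hx
            rw [up1, hS, up1]
          · rw [hμ', up2, up2, Prod.mk.eta, Prod.mk.eta, a]
        · rintro ⟨-, a⟩
          refine ⟨?_, fun x hx => absurd hx (hfix' x)⟩
          intro x
          have := a (x.1, (s x.1).succAbove x.2)
          rw [hμ', up2, up2, Fin.castSucc_inj] at this
          exact this
      have hwt : wt (up h) = (∏ v, (-1 : ℤ) ^ ((s v : ℕ) + D)) * wt h := by
        unfold wt
        rw [← Finset.prod_mul_distrib]
        apply Finset.prod_congr rfl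
        intro v _
        exact FM_succAbove (s v) (up1 h v) (fun j => up2 h v j)
      by_cases hc : (∀ x, h (μ' x) = h x) ∧ (∀ x, μ' x = x → h x = x.2)
      · rw [if_pos hc, if_pos (hiff.1 hc), hwt]
      · rw [if_neg hc, if_neg (fun h' => hc (hiff.2 h')), mul_zero]
  rw [hsum] at hs
  exact right_ne_zero_of_mul hs

/-- remove a perfect matching from a regular graph -/
theorem GG_matching {G : SimpleGraph V} [∀ v, Fintype (G.neighborSet v)]
    (hd : ∀ v, G.degree v = D + 1) (h : GG G (D + 1)) :
    ∃ m : V → V, (∀ v, m (m v) = v) ∧ (∀ v, G.Adj v (m v)) ∧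
      ∀ G' : SimpleGraph V, G' ≤ G → (∀ v, ¬ G'.Adj v (m v)) → GG G' D := by
  classical
  rw [GG_iff] at h
  obtain ⟨μ, hr, hg⟩ := h
  have hleg : ∀ x, μ x ≠ x := by
    intro x hx
    have h1 := legs_card hr x.1
    rw [hd] at h1
    have h2 : (Finset.univ.filter (fun j => μ (x.1, j) = (x.1, j))).card = 0 := by omega
    rw [Finset.card_eq_zero] at h2
    have : x.2 ∈ Finset.univ.filter (fun j => μ (x.1, j) = (x.1, j)) := by
      rw [Finset.mem_filter]
      exact ⟨Finset.mem_univ _, hx⟩
    rw [h2] at this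
    exact absurd this (Finset.notMem_empty _)
  obtain ⟨s, μ', h1, h2, h3⟩ := good_last hr.inv hleg hg
  refine ⟨fun v => (μ (v, s v)).1, ?_, ?_, ?_⟩
  · intro v
    simp only
    rw [← h1, hr.inv]
  · intro v
    exact hr.adj (v, s v) (hleg _)
  · intro G' hle hm
    have hinv : ∀ x, μ' (μ' x) = x := by
      intro x
      have e1 := h2 x
      have e2 := h2 (μ' x)
      rw [← e1, hr.inv] at e2
      have e3 := Prod.mk.inj e2
      have e4 : (μ' (μ' x)).1 = x.1 := e3.1.symm
      apply Prod.ext e4
      have e5 := e3.2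
      rw [e4] at e5
      exact (Fin.succAbove_right_injective e5).symm
    have hfst : ∀ x, (μ' x).1 = (μ (x.1, (s x.1).succAbove x.2)).1 := by
      intro x
      rw [h2]
    have hGG : GG (G \ SimpleGraph.fromRel (fun a b => (μ (a, s a)).1 = b)) D := by
      rw [GG_iff]
      have hadj : ∀ x : V × Fin D, (G \ SimpleGraph.fromRel (fun a b => (μ (a, s a)).1 = b)).Adj x.1 (μ' x).1 := by
        intro x
        rw [SimpleGraph.sdiff_adj, SimpleGraph.fromRel_adj, hfst]
        refine ⟨hr.adj (x.1, (s x.1).succAbove x.2) (hleg _), ?_⟩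
        rintro ⟨-, h | h⟩
        · have := hr.uniq (x.1, s x.1) (x.1, (s x.1).succAbove x.2) rfl (hleg _) (hleg _) h
          exact Fin.succAbove_ne _ _ (Prod.mk.inj this).2.symm
        · rw [← hfst] at h
          have e1 := h1 (μ' x).1
          have e2 := congrArg μ e1
          rw [hr.inv, h] at e2
          have e3 := hr.uniq (x.1, s x.1) (x.1, (s x.1).succAbove x.2) rfl (hleg _) (hleg _)
            (by rw [← e2, ← hfst])
          exact Fin.succAbove_ne _ _ (Prod.mk.inj e3).2.symm
      refine ⟨μ', ⟨hinv, ?_, ?_, ?_⟩, h3⟩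
      · intro x _
        exact hadj x
      · intro x y hxy _ _ hh
        rw [hfst, hfst] at hh
        have := hr.uniq (x.1, (s x.1).succAbove x.2) (y.1, (s y.1).succAbove y.2) hxy (hleg _) (hleg _) hh
        have e := (Prod.mk.inj this).2
        rw [hxy] at e
        exact Prod.ext hxy (Fin.succAbove_right_injective e)
      · intro u v huv
        rw [SimpleGraph.sdiff_adj, SimpleGraph.fromRel_adj] at huv
        obtain ⟨i, hi⟩ := hr.ex u v huv.1
        have hne : i ≠ s u := by
          rintro rfl
          exact huv.2 ⟨huv.1.ne, Or.inl hi⟩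
        obtain ⟨j, hj⟩ := Fin.exists_succAbove_eq hne
        refine ⟨j, ?_⟩
        rw [hfst]
        simp only
        rw [hj]
        exact hi
    apply GG_mono _ hGG
    intro a b hab
    rw [SimpleGraph.sdiff_adj, SimpleGraph.fromRel_adj]
    refine ⟨hle hab, ?_⟩
    rintro ⟨-, h | h⟩
    · apply hm a
      simp only
      rw [h]; exact hab
    · apply hm b
      simp only
      rw [h]; exact hab.symm

/-- complete graph on `p - 1` vertices minus any perfect matching -/
theorem GG_cocktail {V : Type} [Fintype V] {p : ℕ} (hp : p.Prime) (hodd : p ≠ 2) (hV : Fintype.card V + 1 = p)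
    (G : SimpleGraph V) (m : V → V) (hm1 : ∀ v, m (m v) = v) (hm2 : ∀ v, m v ≠ v)
    (hm3 : ∀ v, ¬ G.Adj v (m v)) : GG G (p - 3) := by
  classical
  have hodd' : Odd p := hp.odd_of_ne_two hodd
  obtain ⟨n, hn⟩ := hodd'
  have hp2 := hp.two_le
  obtain ⟨d, hd⟩ : ∃ d, p = d + 1 + 2 := ⟨p - 3, by omega⟩
  have hmd : 2 * n = (d + 1) + 1 := by omega
  have hT := GG_top hmd (by rw [← hd]; exact hp)
  obtain ⟨m', e1, e2, e3⟩ := GG_matching (G := (⊤ : SimpleGraph (Fin (d + 1 + 1)))) (D := d)
    (fun v => by simp) hT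
  have e2' : ∀ v, m' v ≠ v := fun v => (e2 v).ne.symm
  obtain ⟨γ, hγ⟩ := exists_gamma (E := Fin n) m hm1 hm2 (by rw [Fintype.card_fin]; omega)
  obtain ⟨γ', hγ'⟩ := exists_gamma (E := Fin n) m' e1 e2' (by
    rw [Fintype.card_fin, Fintype.card_fin]; omega)
  let f : Fin (d + 1 + 1) ≃ V := γ'.trans γ.symm
  have hf : ∀ x, f (m' x) = m (f x) := by
    intro x
    apply γ.injective
    rw [hγ]
    simp only [f, Equiv.trans_apply, Equiv.apply_symm_apply, hγ']
  have h1 : GG (G.comap f) d := by
    apply e3 _ le_top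
    intro v hv
    rw [SimpleGraph.comap_adj, hf] at hv
    exact hm3 _ hv
  have h2 : p - 3 = d := by omega
  rw [h2]
  apply GG_equiv f _ h1
  intro a b
  rw [SimpleGraph.comap_adj]


theorem card_even_of_invol {X : Type} [Fintype X] (ν : X → X) (hν : ∀ x, ν (ν x) = x)
    (hfix : ∀ x, ν x ≠ x) : Even (Fintype.card X) := by
  classical
  let φ : Perm X := Function.Involutive.toPerm ν hν
  have hφ : φ * φ = 1 := by
    ext1 x
    exact hν x
  obtain ⟨A, hA, -⟩ := exists_two_colouring φ φ hφ hφ hfix hfix
  have hA' : ∀ x, A (ν x) = !(A x) := hA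
  have h1 : (Finset.univ.filter (fun x => A x = true)).card =
      (Finset.univ.filter (fun x => ¬ A x = true)).card := by
    apply Finset.card_bij (fun x _ => ν x)
    · intro x hx
      rw [Finset.mem_filter] at hx ⊢
      refine ⟨Finset.mem_univ _, ?_⟩
      rw [hA', hx.2]; simp
    · intro x _ y _ h
      rw [← hν x, h, hν]
    · intro y hy
      rw [Finset.mem_filter] at hy
      refine ⟨ν y, ?_, hν y⟩
      rw [Finset.mem_filter]
      refine ⟨Finset.mem_univ _, ?_⟩
      rw [hA']
      simpa using hy.2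
  have h2 := Finset.card_filter_add_card_filter_not (s := (Finset.univ : Finset X))
    (fun x => A x = true)
  rw [Finset.card_univ, ← h1] at h2
  exact ⟨_, h2.symm⟩

theorem LC_cocktail {G : SimpleGraph V} [DecidableRel G.Adj] {p r : ℕ} (hp : p.Prime)
    (m : V → V) (hm1 : ∀ v, m (m v) = v) (hm2 : ∀ v, ¬ G.Adj v (m v))
    (h1 : Fintype.card V + (Finset.univ.filter (fun v => m v = v)).card + 1 ≤ p)
    (h2 : p ≤ G.maxDegree + r + 3) :
    LC (G □ Qc r) (G.maxDegree + r) := by
  classical
  by_cases hV : Fintype.card V ≤ 1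
  · -- trivial case
    have hsub : Subsingleton V := Fintype.card_le_one_iff_subsingleton.1 hV
    have hG : G = ⊥ := by
      ext a b
      constructor
      · intro h
        exact (h.ne (Subsingleton.elim a b)).elim
      · intro h
        exact h.elim
    have hdeg : ∀ v, G.degree v = 0 := by
      intro v
      rw [← SimpleGraph.card_neighborFinset_eq_degree, Finset.card_eq_zero]
      ext w
      rw [SimpleGraph.mem_neighborFinset]
      constructor
      · intro h
        exact (h.ne (Subsingleton.elim v w)).elim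
      · intro h
        exact absurd h (Finset.notMem_empty _)
    apply GG_LC
    apply GG_cube
    · intro v
      rw [hdeg]
      omega
    · generalize G.maxDegree + r = D'
      rw [hG]
      exact GG_bot
  · have hp2 : p ≠ 2 := by omega
    have hodd := hp.odd_of_ne_two hp2
    let F := {v // m v = v}
    have hF : Fintype.card F = (Finset.univ.filter (fun v => m v = v)).card := Fintype.card_subtype _
    -- parity
    let ν0 : V ⊕ F → V ⊕ F := fun x => match x with
      | Sum.inl v => if h : m v = v then Sum.inr ⟨v, h⟩ else Sum.inl (m v)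
      | Sum.inr v => Sum.inl v.1
    have ν0a : ∀ v (h : m v = v), ν0 (Sum.inl v) = Sum.inr ⟨v, h⟩ := fun v h => dif_pos h
    have ν0b : ∀ v (_ : m v ≠ v), ν0 (Sum.inl v) = Sum.inl (m v) := fun v h => dif_neg h
    have ν0c : ∀ v : F, ν0 (Sum.inr v) = Sum.inl v.1 := fun v => rfl
    have hν0 : ∀ x, ν0 (ν0 x) = x := by
      rintro (v | v)
      · by_cases h : m v = v
        · rw [ν0a v h, ν0c]
        · rw [ν0b v h, ν0b _ (fun h' => h (by rw [hm1] at h'; exact h'.symm)), hm1]
      · rw [ν0c, ν0a v.1 v.2]
    have hν0f : ∀ x, ν0 x ≠ x := by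
      rintro (v | v)
      · by_cases h : m v = v
        · rw [ν0a v h]; simp
        · rw [ν0b v h]
          intro h'
          exact h (Sum.inl.inj h')
      · rw [ν0c]; simp
    have heven := card_even_of_invol ν0 hν0 hν0f
    rw [Fintype.card_sum, hF] at heven
    obtain ⟨a, ha⟩ := heven
    obtain ⟨b, hb⟩ := hodd
    obtain ⟨t, ht⟩ : ∃ t, Fintype.card V + (Finset.univ.filter (fun v => m v = v)).card + t * 2 + 1 = p :=
      ⟨b - a, by omega⟩
    let W := (V ⊕ F) ⊕ (Fin t × Bool)
    let mW : W → W := fun x => match x with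
      | Sum.inl y => Sum.inl (ν0 y)
      | Sum.inr (i, b) => Sum.inr (i, !b)
    have hW : Fintype.card W + 1 = p := by
      simp only [W, Fintype.card_sum, Fintype.card_prod, Fintype.card_fin, Fintype.card_bool]
      rw [hF]
      exact ht
    let φ : V ↪ W := ⟨fun v => Sum.inl (Sum.inl v), fun x y h => Sum.inl.inj (Sum.inl.inj h)⟩
    have hG' : GG (G.map φ) (p - 3) := by
      apply GG_cocktail hp hp2 hW _ mW
      · rintro (y | ⟨i, b⟩)
        · show Sum.inl (ν0 (ν0 y)) = _
          rw [hν0]
        · show Sum.inr (i, !!b) = _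
          rw [Bool.not_not]
      · rintro (y | ⟨i, b⟩)
        · intro h
          exact hν0f y (Sum.inl.inj h)
        · intro h
          have := (Prod.mk.inj (Sum.inr.inj h)).2
          simp at this
      · intro w hw
        rw [SimpleGraph.map_adj] at hw
        obtain ⟨u, v, huv, rfl, h4⟩ := hw
        have h5 : mW (φ u) = Sum.inl (ν0 (Sum.inl u)) := rfl
        have h6 : φ v = Sum.inl (Sum.inl v) := rfl
        rw [h5, h6] at h4
        have h7 := Sum.inl.inj h4
        by_cases h : m u = u
        · rw [ν0a u h] at h7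
          exact absurd h7 (by simp)
        · rw [ν0b u h] at h7
          have h8 := Sum.inl.inj h7
          rw [h8] at huv
          exact hm2 u huv
    have hG2 : GG (G.map φ) (G.maxDegree + r) := GG_le hG' (by omega)
    have hdeg : ∀ w, (G.map φ).degree w ≤ G.maxDegree := by
      intro w
      by_cases hw : ∃ v, φ v = w
      · obtain ⟨v, rfl⟩ := hw
        refine le_trans ?_ (G.degree_le_maxDegree v)
        rw [← SimpleGraph.card_neighborFinset_eq_degree, ← SimpleGraph.card_neighborFinset_eq_degree]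
        have : (G.map φ).neighborFinset (φ v) ⊆ (G.neighborFinset v).image φ := by
          intro x hx
          rw [SimpleGraph.mem_neighborFinset, SimpleGraph.map_adj] at hx
          obtain ⟨a, b, hab, ha, hb⟩ := hx
          rw [Finset.mem_image]
          refine ⟨b, ?_, hb⟩
          rw [SimpleGraph.mem_neighborFinset]
          rw [← φ.injective ha]
          exact hab
        exact (Finset.card_le_card this).trans Finset.card_image_le
      · have : (G.map φ).neighborFinset w = ∅ := by
          ext x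
          rw [SimpleGraph.mem_neighborFinset, SimpleGraph.map_adj]
          constructor
          · rintro ⟨a, b, hab, ha, hb⟩
            exact (hw ⟨a, ha⟩).elim
          · intro h
            exact absurd h (Finset.notMem_empty _)
        rw [← SimpleGraph.card_neighborFinset_eq_degree, this, Finset.card_empty]
        exact Nat.zero_le _
    have h3 : LC (G.map φ □ Qc r) (G.maxDegree + r) := by
      apply GG_LC
      apply GG_cube _ hG2
      intro v
      exact Nat.add_le_add_right (hdeg v) r
    apply LC_hom (Prod.map φ id) (φ.injective.prodMap Function.injective_id) _ h3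
    rintro ⟨a, x⟩ ⟨b, y⟩ hab
    rw [SimpleGraph.boxProd_adj] at hab ⊢
    rcases hab with ⟨h4, h5⟩ | ⟨h4, h5⟩
    · left
      exact ⟨SimpleGraph.map_adj_apply.2 h4, h5⟩
    · right
      refine ⟨h4, ?_⟩
      simp only at h5
      simp [h5]

/-- the list edge-colouring property together with the value of the chromatic index -/
theorem final_form [Nonempty V] {G : SimpleGraph V} [DecidableRel G.Adj] {r : ℕ}
    (h : LC (G □ Qc r) (G.maxDegree + r)) (H : SimpleGraph (V × (Fin r → Bool)))
    (hH : H = G □ SimpleGraph.fromRel (fun a b : Fin r → Bool => hammingDist a b = 1)) (k : ℕ) :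
    (H.lineGraph.Colorable k ↔
      ∀ L : H.edgeSet → Finset ℕ, (∀ e, k ≤ (L e).card) →
        ∃ f : H.edgeSet → ℕ, (∀ e, f e ∈ L e) ∧ ∀ e e', H.lineGraph.Adj e e' → f e ≠ f e') ∧
    (H.lineGraph.Colorable k ↔ G.maxDegree + r ≤ k) := by
  classical
  subst hH
  refine ⟨LECC_of_LC h k, ?_, ?_⟩
  · intro hk
    obtain ⟨v, hv⟩ := G.exists_maximal_degree_vertex
    let a0 : Fin r → Bool := fun _ => false
    have h1 := degree_le_of_colorable (G □ Qc r) (v, a0) hk
    have h3 : (G □ Qc r).degree (v, a0) = G.degree v + (Qc r).degree a0 := by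
      convert SimpleGraph.degree_boxProd (v, a0)
    rw [h3, Qc_degree, ← hv] at h1
    exact h1
  · intro hk
    exact (LC_colorable h).mono hk

theorem LC_order {G : SimpleGraph V} [DecidableRel G.Adj] {r : ℕ}
    (h : ∃ ord : G.edgeSet → ℕ, Function.Injective ord ∧
      ∀ e, {e' | G.lineGraph.Adj e e' ∧ ord e' < ord e}.ncard < G.maxDegree + r) :
    LC (G □ Qc r) (G.maxDegree + r) := by
  classical
  obtain ⟨ord, h1, h2⟩ := h
  apply GG_LC
  apply GG_cube _ (GG_of_order ord h1 h2)
  intro v
  exact Nat.add_le_add_right (G.degree_le_maxDegree v) r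

theorem LC_cocktail' {G : SimpleGraph V} [DecidableRel G.Adj] {p r : ℕ} (hp : p.Prime)
    (hm : ∃ m : V → V, (∀ v, m (m v) = v) ∧ (∀ v, ¬ G.Adj v (m v)) ∧
      Fintype.card V + Fintype.card {v // m v = v} + 1 ≤ p)
    (h2 : p ≤ G.maxDegree + r + 3) : LC (G □ Qc r) (G.maxDegree + r) := by
  obtain ⟨m, h3, h4, h5⟩ := hm
  rw [Fintype.card_subtype] at h5
  exact LC_cocktail hp m h3 h4 h5 h2

end Graph

end Pool.Agent.Helper15.Slots
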