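import Mathlib
import Pool.Agent.Helper15.LEC

set_option autoImplicit false

namespace Pool.Agent.Helper15.Starter

open Equiv Equiv.Perm Pool.Agent.Helper15.LEC

section Poly

variable {p : ℕ} [Fact p.Prime]

theorem sum_poly (hp : 2 < p) (f : Polynomial (ZMod p)) (hf : f.natDegree ≤ p) :
    ∑ y : ZMod p, f.eval y = - f.coeff (p - 1) := by
  have h1 : ∀ y : ZMod p, f.eval y = ∑ n ∈ Finset.range (p + 1), f.coeff n * y ^ n := by
    intro y
    exact Polynomial.eval_eq_sum_range' (by omega) y
  simp_rw [h1]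
  rw [Finset.sum_comm]
  simp_rw [← Finset.mul_sum]
  have hcard : Fintype.card (ZMod p) = p := ZMod.card p
  rw [Finset.sum_eq_single (p - 1)]
  · have h2 : ∑ y : ZMod p, y ^ (p - 1) = -1 := by
      have h3 : ∀ y : ZMod p, y ^ (p - 1) = 1 - (if y = 0 then 1 else 0) := by
        intro y
        by_cases hy : y = 0
        · rw [hy, if_pos rfl, zero_pow (by omega)]; ring
        · rw [if_neg hy, ZMod.pow_card_sub_one_eq_one hy]; ring
      simp_rw [h3]
      rw [Finset.sum_sub_distrib, Finset.sum_ite_eq' Finset.univ (0 : ZMod p)]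
      simp
    rw [h2]; ring
  · intro n hn hne
    rw [Finset.mem_range] at hn
    have h2 : ∑ y : ZMod p, y ^ n = 0 := by
      by_cases hn2 : n < p - 1
      · apply FiniteField.sum_pow_lt_card_sub_one
        rw [hcard]; exact hn2
      · have hnp : n = p := by omega
        rw [hnp]
        have h3 : ∀ y : ZMod p, y ^ p = y ^ 1 := by
          intro y; rw [ZMod.pow_card, pow_one]
        simp_rw [h3]
        apply FiniteField.sum_pow_lt_card_sub_one
        rw [hcard]; omega
    rw [h2, mul_zero]
  · intro h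
    exfalso
    apply h
    rw [Finset.mem_range]; omega

/-- two-variable power sum -/
def Ps (a b : ℕ) (c : ZMod p) : ZMod p := ∑ y : ZMod p, y ^ a * (y + c) ^ b

theorem Ps_eq (hp : 2 < p) {a b : ℕ} (hab : a + b ≤ p) (c : ZMod p) (ha : a ≤ p - 1) :
    Ps a b c = - (c ^ (b - (p - 1 - a)) * (b.choose (p - 1 - a) : ZMod p)) := by
  unfold Ps
  have h1 : ∀ y : ZMod p, y ^ a * (y + c) ^ b =
      (Polynomial.X ^ a * (Polynomial.X + Polynomial.C c) ^ b : Polynomial (ZMod p)).eval y := by
    intro y; simp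
  simp_rw [h1]
  rw [sum_poly hp]
  · rw [Polynomial.coeff_X_pow_mul', if_pos ha, Polynomial.coeff_X_add_C_pow]
  · refine le_trans (Polynomial.natDegree_mul_le) ?_
    refine le_trans (Nat.add_le_add (Polynomial.natDegree_X_pow_le a) (Polynomial.natDegree_pow_le)) ?_
    rw [Polynomial.natDegree_X_add_C]
    omega

theorem Ps_lt (hp : 2 < p) {a b : ℕ} (hab : a + b < p - 1) (c : ZMod p) : Ps a b c = 0 := by
  rw [Ps_eq hp (by omega) c (by omega), Nat.choose_eq_zero_of_lt (by omega)]
  simp

theorem Ps_eq1 (hp : 2 < p) {a b : ℕ} (hab : a + b = p - 1) (c : ZMod p) : Ps a b c = -1 := by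
  rw [Ps_eq hp (by omega) c (by omega)]
  have h1 : p - 1 - a = b := by omega
  rw [h1, Nat.sub_self, Nat.choose_self]
  simp

theorem Ps_eq2 (hp : 2 < p) {a b : ℕ} (hb : 1 ≤ b) (hab : a + b = p) (c : ZMod p) :
    Ps a b c = - ((b : ZMod p) * c) := by
  rw [Ps_eq hp (by omega) c (by omega)]
  have h1 : p - 1 - a = b - 1 := by omega
  have h2 : b - (b - 1) = 1 := by omega
  have h3 : b.choose (b - 1) = b := by
    obtain ⟨b', rfl⟩ : ∃ b', b = b' + 1 := ⟨b - 1, by omega⟩
    simp
  rw [h1, h2, h3, pow_one, mul_comm]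

end Poly

section Half

variable {p h : ℕ} [Fact p.Prime] (hh : p = 2 * h + 1)

/-- the half representatives -/
def cc (p : ℕ) {h : ℕ} (k : Fin h) : ZMod p := ((k : ℕ) + 1 : ℕ)

/-- the coordinate map -/
def E0 (p h : ℕ) : Option (Fin h × Bool) → ZMod p
  | none => 0
  | some (k, true) => cc p k
  | some (k, false) => - cc p k

include hh in
theorem cc_ne (k l : Fin h) : cc p k ≠ - cc p l := by
  intro he
  unfold cc at he
  have h1 : ((((k : ℕ) + 1) + ((l : ℕ) + 1) : ℕ) : ZMod p) = 0 := by
    push_cast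
    push_cast at he
    rw [he]; ring
  rw [ZMod.natCast_eq_zero_iff] at h1
  have := Nat.le_of_dvd (by omega) h1
  have := k.2
  have := l.2
  omega

include hh in
theorem cc_inj {k l : Fin h} (he : cc p k = cc p l) : k = l := by
  unfold cc at he
  rw [ZMod.natCast_eq_natCast_iff] at he
  have h1 : ((k : ℕ) + 1) % p = ((l : ℕ) + 1) % p := he
  have := k.2
  have := l.2
  rw [Nat.mod_eq_of_lt (by omega), Nat.mod_eq_of_lt (by omega)] at h1
  exact Fin.ext (by omega)

include hh in
theorem cc_ne_zero (k : Fin h) : cc p k ≠ 0 := by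
  intro he
  unfold cc at he
  rw [ZMod.natCast_eq_zero_iff] at he
  have := Nat.le_of_dvd (by omega) he
  have := k.2
  omega

include hh in
theorem E0_inj : Function.Injective (E0 p h) := by
  rintro (_ | ⟨k, _ | _⟩) (_ | ⟨l, _ | _⟩) he
  · rfl
  · exact absurd (neg_eq_zero.1 he.symm) (cc_ne_zero hh l)
  · exact absurd he.symm (cc_ne_zero hh l)
  · exact absurd (neg_eq_zero.1 he) (cc_ne_zero hh k)
  · rw [cc_inj hh (neg_injective he)]
  · exact absurd he.symm (cc_ne hh l k)
  · exact absurd he (cc_ne_zero hh k)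
  · exact absurd he (cc_ne hh k l)
  · rw [cc_inj hh he]

/-- the coordinate bijection -/
noncomputable def EE : Option (Fin h × Bool) ≃ ZMod p :=
  Equiv.ofBijective (E0 p h) ((Fintype.bijective_iff_injective_and_card _).2
    ⟨E0_inj hh, by simp [ZMod.card, hh]; ring⟩)

theorem EE_none : EE hh none = 0 := rfl

theorem EE_true (k : Fin h) : EE hh (some (k, true)) = cc p k := rfl

theorem EE_false (k : Fin h) : EE hh (some (k, false)) = - cc p k := rfl

theorem EE_not (k : Fin h) (b : Bool) : EE hh (some (k, !b)) = - EE hh (some (k, b)) := by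
  cases b
  · rw [Bool.not_false, EE_true, EE_false, neg_neg]
  · rw [Bool.not_true, EE_true, EE_false]

/-- exponent attached to an index -/
noncomputable def dg (x : Option (Fin h × Bool)) : ℕ := (EE hh x).val

/-- generalized Vandermonde matrix -/
noncomputable def MM (f : Option (Fin h × Bool) → ZMod p) :
    Matrix (Option (Fin h × Bool)) (Option (Fin h × Bool)) (ZMod p) :=
  Matrix.of fun x i => f x ^ dg hh i

theorem MM_perm (φ : Perm (Option (Fin h × Bool))) :
    (MM hh (fun x => EE hh (φ x))).det = ((sign φ : ℤ) : ZMod p) * (MM hh (EE hh)).det := by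
  have : MM hh (fun x => EE hh (φ x)) = (MM hh (EE hh)).submatrix φ id := by
    ext x i; rfl
  rw [this, Matrix.det_permute]

/-- the functions built from a choice on the half set -/
def fy (y : Fin h → ZMod p) : Option (Fin h × Bool) → ZMod p
  | none => 0
  | some (k, true) => y k + cc p k
  | some (k, false) => y k

/-- the condition on permutations of the index set -/
def Cn (φ : Perm (Option (Fin h × Bool))) : Prop :=
  φ none = none ∧ ∀ k, EE hh (φ (some (k, true))) = EE hh (φ (some (k, false))) + cc p k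

theorem Cn_fy {φ : Perm (Option (Fin h × Bool))} (hφ : Cn hh φ) :
    fy (fun k => EE hh (φ (some (k, false)))) = fun x => EE hh (φ x) := by
  funext x
  rcases x with _ | ⟨k, _ | _⟩
  · show (0 : ZMod p) = _
    rw [hφ.1, EE_none]
  · rfl
  · exact (hφ.2 k).symm

open Classical in
theorem sum_det : (∑ φ : Perm (Option (Fin h × Bool)),
      if Cn hh φ then ((sign φ : ℤ) : ZMod p) else 0) * (MM hh (EE hh)).det =
    ∑ y : Fin h → ZMod p, (MM hh (fy y)).det := by
  rw [Finset.sum_mul]
  have h1 : ∀ φ : Perm (Option (Fin h × Bool)),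
      (if Cn hh φ then ((sign φ : ℤ) : ZMod p) else 0) * (MM hh (EE hh)).det =
      if Cn hh φ then (MM hh (fun x => EE hh (φ x))).det else 0 := by
    intro φ
    split_ifs
    · rw [MM_perm]
    · rw [zero_mul]
  rw [Finset.sum_congr rfl (fun φ _ => h1 φ), ← Finset.sum_filter]
  apply Finset.sum_of_injOn (e := fun (φ : Perm (Option (Fin h × Bool))) k => EE hh (φ (some (k, false))))
  · intro φ hφ φ' hφ' he
    simp only [Finset.coe_filter, Finset.mem_univ, true_and, Set.mem_ofPred_eq] at hφ hφ'
    have e1 := Cn_fy hh hφ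
    have e2 := Cn_fy hh hφ'
    have he' : (fun k => EE hh (φ (some (k, false)))) = (fun k => EE hh (φ' (some (k, false)))) := he
    rw [he'] at e1
    ext1 x
    have := congrFun (e1.symm.trans e2) x
    exact (EE hh).injective this
  · intro φ _; simp
  · intro y _ hy
    by_contra hdet
    apply hy
    have hinj : Function.Injective (fy y : Option (Fin h × Bool) → ZMod p) := by
      intro a b hab
      by_contra hne
      apply hdet
      apply Matrix.det_zero_of_row_eq hne
      funext i
      simp only [MM, Matrix.of_apply, hab]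
    have hinj2 : Function.Injective (fun x => (EE hh).symm (fy y x)) :=
      (EE hh).symm.injective.comp hinj
    let φ : Perm (Option (Fin h × Bool)) :=
      Equiv.ofBijective _ (Finite.injective_iff_bijective.1 hinj2)
    have hφ : ∀ x, EE hh (φ x) = fy y x := fun x => (EE hh).apply_symm_apply _
    refine ⟨φ, ?_, ?_⟩
    · simp only [Finset.coe_filter, Finset.mem_univ, true_and, Set.mem_ofPred_eq]
      constructor
      · apply (EE hh).injective
        rw [hφ, EE_none]
        rfl
      · intro k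
        rw [hφ, hφ]
        rfl
    · funext k
      exact hφ _
  · intro φ hφ
    rw [Finset.mem_filter] at hφ
    rw [Cn_fy hh hφ.2]

theorem sum_expand : ∑ y : Fin h → ZMod p, (MM hh (fy y)).det =
    ∑ π : Perm (Option (Fin h × Bool)), ((sign π : ℤ) : ZMod p) *
      (0 ^ dg hh (π none) * ∏ k : Fin h, Ps (dg hh (π (some (k, false)))) (dg hh (π (some (k, true)))) (cc p k)) := by
  have h1 : ∀ y : Fin h → ZMod p, (MM hh (fy y)).det =
      ∑ π : Perm (Option (Fin h × Bool)), ((sign π : ℤ) : ZMod p) *
      (0 ^ dg hh (π none) * ∏ k : Fin h, (y k ^ (dg hh (π (some (k, false)))) *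
        (y k + cc p k) ^ (dg hh (π (some (k, true)))))) := by
    intro y
    rw [← Matrix.det_transpose, Matrix.det_apply']
    apply Finset.sum_congr rfl
    intro π _
    congr 1
    rw [Fintype.prod_option, Fintype.prod_prod_type]
    congr 1
    apply Finset.prod_congr rfl
    intro k _
    rw [Fintype.prod_bool, mul_comm]
    rfl
  simp_rw [h1]
  rw [Finset.sum_comm]
  apply Finset.sum_congr rfl
  intro π _
  rw [← Finset.mul_sum, ← Finset.mul_sum]
  congr 2
  unfold Ps
  rw [Finset.prod_univ_sum, Fintype.piFinset_univ]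

theorem antisym (F : Perm (Option (Fin h × Bool)) → ZMod p)
    (P : Fin h → ℕ → ℕ → ZMod p) (Q : ℕ → ZMod p)
    (hF : ∀ π, F π = ((sign π : ℤ) : ZMod p) * (Q (dg hh (π none)) *
      ∏ k : Fin h, P k (dg hh (π (some (k, false)))) (dg hh (π (some (k, true)))))) :
    (2 : ZMod p) ^ h * ∑ π, F π = ∑ π : Perm (Option (Fin h × Bool)), ((sign π : ℤ) : ZMod p) *
      (Q (dg hh (π none)) * ∏ k : Fin h,
        (P k (dg hh (π (some (k, false)))) (dg hh (π (some (k, true)))) -
         P k (dg hh (π (some (k, true)))) (dg hh (π (some (k, false)))))) := by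
  have h1 : ∀ ε : Fin h → Bool, ∑ π, F π = ∑ π : Perm (Option (Fin h × Bool)),
      ((sign π : ℤ) : ZMod p) * (Q (dg hh (π none)) * ∏ k : Fin h,
        (if ε k then - P k (dg hh (π (some (k, true)))) (dg hh (π (some (k, false)))) else
          P k (dg hh (π (some (k, false)))) (dg hh (π (some (k, true)))))) := by
    intro ε
    rw [← Equiv.sum_comp (Equiv.mulRight (optionCongr (th ε)))]
    apply Finset.sum_congr rfl
    intro π _
    rw [Equiv.coe_mulRight, hF, Perm.sign_mul, Equiv.optionCongr_sign, sign_th]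
    have e1 : (π * optionCongr (th ε)) none = π none := rfl
    have e2 : ∀ k b, (π * optionCongr (th ε)) (some (k, b)) = π (some (k, xor b (ε k))) := by
      intro k b
      show π (some (th ε (k, b))) = _
      rw [th_apply]
    rw [e1]
    simp only [e2]
    have e3 : (((sign π * ∏ e, (if ε e = true then (-1 : ℤˣ) else 1) : ℤˣ) : ℤ) : ZMod p) =
        ((sign π : ℤ) : ZMod p) * ∏ k : Fin h, (if ε k = true then (-1 : ZMod p) else 1) := by
      push_cast
      congr 1
      apply Finset.prod_congr rfl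
      intro k _
      split_ifs <;> simp
    rw [e3]
    have e4 : (∏ k : Fin h, (if ε k then - P k (dg hh (π (some (k, true)))) (dg hh (π (some (k, false)))) else
          P k (dg hh (π (some (k, false)))) (dg hh (π (some (k, true)))))) =
        (∏ k : Fin h, (if ε k = true then (-1 : ZMod p) else 1)) *
        ∏ k : Fin h, P k (dg hh (π (some (k, xor false (ε k))))) (dg hh (π (some (k, xor true (ε k))))) := by
      rw [← Finset.prod_mul_distrib]
      apply Finset.prod_congr rfl
      intro k _
      cases ε k <;> simp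
    rw [e4]
    ring
  have h2 : (2 : ZMod p) ^ h * ∑ π, F π = ∑ ε : Fin h → Bool, ∑ π, F π := by
    rw [Finset.sum_const, Finset.card_univ, Fintype.card_fun, Fintype.card_bool, Fintype.card_fin,
      nsmul_eq_mul]
    push_cast
    rfl
  rw [h2, Finset.sum_congr rfl (fun ε _ => h1 ε), Finset.sum_comm]
  apply Finset.sum_congr rfl
  intro π _
  rw [← Finset.mul_sum, ← Finset.mul_sum]
  congr 2
  have h3 : ∀ k : Fin h, (P k (dg hh (π (some (k, false)))) (dg hh (π (some (k, true)))) -
         P k (dg hh (π (some (k, true)))) (dg hh (π (some (k, false))))) =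
      ∑ b : Bool, (if b then - P k (dg hh (π (some (k, true)))) (dg hh (π (some (k, false)))) else
          P k (dg hh (π (some (k, false)))) (dg hh (π (some (k, true))))) := by
    intro k
    rw [Fintype.sum_bool]
    simp; ring
  rw [Finset.prod_congr rfl (fun k _ => h3 k), Finset.prod_univ_sum, Fintype.piFinset_univ]

end Half

section Eval

variable {p h : ℕ} [Fact p.Prime] (hh : p = 2 * h + 1)

theorem dg_none : dg hh none = 0 := by
  unfold dg; rw [EE_none, ZMod.val_zero]

theorem dg_eq_zero {x : Option (Fin h × Bool)} (hx : dg hh x = 0) : x = none := by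
  unfold dg at hx
  rw [ZMod.val_eq_zero] at hx
  exact (EE hh).injective (hx.trans (EE_none hh).symm)

theorem dg_cast (x : Option (Fin h × Bool)) : ((dg hh x : ℕ) : ZMod p) = EE hh x := by
  unfold dg
  rw [ZMod.natCast_zmod_val]

theorem dg_lt (x : Option (Fin h × Bool)) : dg hh x < p := ZMod.val_lt _

theorem sum_dg : ∑ x, dg hh x = p * h := by
  unfold dg
  rw [(EE hh).sum_comp (fun z : ZMod p => z.val)]
  have h1 : ∑ z : ZMod p, z.val = ∑ i ∈ Finset.range p, i := by
    apply Finset.sum_bij (fun (z : ZMod p) _ => z.val)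
    · intro z _
      rw [Finset.mem_range]; exact ZMod.val_lt z
    · intro z _ z' _ hz
      exact ZMod.val_injective p hz
    · intro i hi
      rw [Finset.mem_range] at hi
      exact ⟨(i : ZMod p), Finset.mem_univ _, ZMod.val_natCast_of_lt hi⟩
    · intro z _; rfl
  rw [h1]
  have h2 := Finset.sum_range_id_mul_two p
  have h3 : p - 1 = 2 * h := by omega
  rw [h3] at h2
  have h4 : p * (2 * h) = (p * h) * 2 := by ring
  rw [h4] at h2
  exact Nat.eq_of_mul_eq_mul_right (by norm_num) h2

/-- the antisymmetrized factor -/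
def Ds (a b : ℕ) (c : ZMod p) : ZMod p := Ps a b c - Ps b a c

theorem Ds_ne {a b : ℕ} (hp : 2 < p) {c : ZMod p} (hD : Ds a b c ≠ 0) : p ≤ a + b := by
  by_contra hlt
  apply hD
  unfold Ds
  rcases Nat.lt_or_ge (a + b) (p - 1) with h1 | h1
  · rw [Ps_lt hp h1, Ps_lt hp (by omega)]; ring
  · rw [Ps_eq1 hp (by omega), Ps_eq1 hp (by omega)]; ring

theorem Ds_val {a b : ℕ} (hp : 2 < p) (ha : 1 ≤ a) (hb : 1 ≤ b) (hab : a + b = p) (c : ZMod p) :
    Ds a b c = -2 * ((b : ZMod p) * c) := by
  unfold Ds
  rw [Ps_eq2 hp hb hab, Ps_eq2 hp ha (by omega)]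
  have h1 : ((a : ℕ) : ZMod p) = - ((b : ℕ) : ZMod p) := by
    have : ((a + b : ℕ) : ZMod p) = 0 := by rw [hab, ZMod.natCast_self]
    push_cast at this
    exact eq_neg_of_add_eq_zero_left this
  rw [h1]; ring

/-- the term of a permutation -/
noncomputable def tt (π : Perm (Option (Fin h × Bool))) : ZMod p :=
  ((sign π : ℤ) : ZMod p) * (0 ^ dg hh (π none) * ∏ k : Fin h,
    Ds (dg hh (π (some (k, false)))) (dg hh (π (some (k, true)))) (cc p k))

theorem tt_ne {π : Perm (Option (Fin h × Bool))} (hp : 2 < p) (ht : tt hh π ≠ 0) :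
    π none = none ∧ ∀ k, EE hh (π (some (k, false))) = - EE hh (π (some (k, true))) := by
  unfold tt at ht
  have h1 := left_ne_zero_of_mul (right_ne_zero_of_mul ht)
  have h2 := right_ne_zero_of_mul (right_ne_zero_of_mul ht)
  have h3 : dg hh (π none) = 0 := by
    by_contra hne
    exact h1 (zero_pow hne)
  refine ⟨dg_eq_zero hh h3, ?_⟩
  rw [Finset.prod_ne_zero_iff] at h2
  have h4 : ∀ k, p ≤ dg hh (π (some (k, false))) + dg hh (π (some (k, true))) :=
    fun k => Ds_ne hp (h2 k (Finset.mem_univ _))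
  have h5 : ∑ k : Fin h, (dg hh (π (some (k, false))) + dg hh (π (some (k, true)))) = p * h := by
    have e1 : ∑ x, dg hh (π x) = p * h := by
      rw [Equiv.sum_comp π (fun x => dg hh x), sum_dg]
    rw [Fintype.sum_option, h3, zero_add, Fintype.sum_prod_type] at e1
    simp_rw [Fintype.sum_bool] at e1
    rw [← e1]
    apply Finset.sum_congr rfl
    intro k _
    rw [add_comm]
  have h6 : ∀ k, dg hh (π (some (k, false))) + dg hh (π (some (k, true))) = p := by
    by_contra hno
    push Not at hno
    obtain ⟨k, hk⟩ := hno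
    have h7 : ∑ _k : Fin h, p < ∑ k : Fin h, (dg hh (π (some (k, false))) + dg hh (π (some (k, true)))) := by
      apply Finset.sum_lt_sum
      · intro i _; exact h4 i
      · exact ⟨k, Finset.mem_univ _, lt_of_le_of_ne (h4 k) (Ne.symm hk)⟩
    rw [h5, Finset.sum_const, Finset.card_univ, Fintype.card_fin, smul_eq_mul, mul_comm] at h7
    exact lt_irrefl _ h7
  intro k
  rw [← dg_cast, ← dg_cast]
  have : ((dg hh (π (some (k, false))) + dg hh (π (some (k, true))) : ℕ) : ZMod p) = 0 := by
    rw [h6, ZMod.natCast_self]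
  push_cast at this
  exact eq_neg_of_add_eq_zero_left this

/-- odd permutations from signed permutations -/
def Th (ρ : Perm (Fin h)) (ε : Fin h → Bool) : Perm (Option (Fin h × Bool)) :=
  optionCongr ((Equiv.prodCongr ρ (Equiv.refl Bool) : Perm (Fin h × Bool)) * th ε)

theorem Th_none (ρ : Perm (Fin h)) (ε : Fin h → Bool) : Th ρ ε none = none := rfl

theorem Th_some (ρ : Perm (Fin h)) (ε : Fin h → Bool) (k : Fin h) (b : Bool) :
    Th ρ ε (some (k, b)) = some (ρ k, xor b (ε k)) := by
  show some (((Equiv.prodCongr ρ (Equiv.refl Bool) : Perm (Fin h × Bool)) * th ε) (k, b)) = _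
  rw [Perm.mul_apply, th_apply]
  rfl

theorem sign_Th (ρ : Perm (Fin h)) (ε : Fin h → Bool) :
    sign (Th ρ ε) = ∏ k, (if ε k then (-1 : ℤˣ) else 1) := by
  unfold Th
  rw [Equiv.optionCongr_sign, Perm.sign_mul, sign_th]
  have h1 : (Equiv.prodCongr ρ (Equiv.refl Bool) : Perm (Fin h × Bool)) =
      Equiv.prodCongrLeft (fun _ : Bool => ρ) := by
    ext1 x; rfl
  rw [h1, sign_prodCongrLeft, Fintype.prod_bool, Int.units_mul_self, one_mul]

theorem val_add_neg {x : ZMod p} (hx : x ≠ 0) : x.val + (-x).val = p := by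
  rw [ZMod.neg_val, if_neg hx]
  have := ZMod.val_lt x
  omega

theorem tt_Th (hp : 2 < p) (ρ : Perm (Fin h)) (ε : Fin h → Bool) :
    tt hh (Th ρ ε) = (-2) ^ h * (∏ k : Fin h, cc p k) ^ 2 := by
  unfold tt
  rw [Th_none, dg_none, pow_zero, one_mul, sign_Th]
  have h1 : ∀ k, EE hh (Th ρ ε (some (k, true))) = (if ε k then (-1 : ZMod p) else 1) * cc p (ρ k) := by
    intro k
    rw [Th_some]
    cases ε k
    · simp [EE_true]
    · simp [EE_false]
  have h2 : ∀ k, EE hh (Th ρ ε (some (k, false))) = - EE hh (Th ρ ε (some (k, true))) := by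
    intro k
    rw [Th_some, Th_some]
    cases ε k
    · simp [EE_true, EE_false]
    · simp [EE_true, EE_false]
  have h3 : ∀ k, Ds (dg hh (Th ρ ε (some (k, false)))) (dg hh (Th ρ ε (some (k, true)))) (cc p k) =
      -2 * ((if ε k then (-1 : ZMod p) else 1) * cc p (ρ k) * cc p k) := by
    intro k
    have hne : EE hh (Th ρ ε (some (k, true))) ≠ 0 := by
      rw [h1]
      apply mul_ne_zero
      · split_ifs
        · exact neg_ne_zero.2 one_ne_zero
        · exact one_ne_zero
      · exact cc_ne_zero hh _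
    have hne' : EE hh (Th ρ ε (some (k, false))) ≠ 0 := by
      rw [h2]; exact neg_ne_zero.2 hne
    rw [Ds_val hp]
    · rw [dg_cast, h1]
    · unfold dg
      have := (ZMod.val_ne_zero _).2 hne'
      omega
    · unfold dg
      have := (ZMod.val_ne_zero _).2 hne
      omega
    · unfold dg
      rw [h2, add_comm]
      exact val_add_neg hne
  rw [Finset.prod_congr rfl (fun k _ => h3 k)]
  rw [Finset.prod_mul_distrib, Finset.prod_mul_distrib, Finset.prod_mul_distrib,
    Equiv.prod_comp ρ (fun k => cc p k), Finset.prod_const, Finset.card_univ, Fintype.card_fin]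
  have h4 : (((∏ k, (if ε k = true then (-1 : ℤˣ) else 1) : ℤˣ) : ℤ) : ZMod p) =
      ∏ k : Fin h, (if ε k = true then (-1 : ZMod p) else 1) := by
    push_cast
    apply Finset.prod_congr rfl
    intro k _
    split_ifs <;> simp
  rw [h4]
  have h5 : (∏ k : Fin h, (if ε k = true then (-1 : ZMod p) else 1)) *
      (∏ k : Fin h, (if ε k = true then (-1 : ZMod p) else 1)) = 1 := by
    rw [← Finset.prod_mul_distrib]
    apply Finset.prod_eq_one
    intro k _
    split_ifs <;> ring
  calc _ = (-2) ^ h * (∏ k : Fin h, cc p k) ^ 2 *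
      ((∏ k : Fin h, (if ε k = true then (-1 : ZMod p) else 1)) *
      (∏ k : Fin h, (if ε k = true then (-1 : ZMod p) else 1))) := by ring
    _ = _ := by rw [h5, mul_one]

theorem Th_surj {π : Perm (Option (Fin h × Bool))} (h0 : π none = none)
    (hk : ∀ k, EE hh (π (some (k, false))) = - EE hh (π (some (k, true)))) :
    ∃ ρ ε, Th ρ ε = π := by
  have hex : ∀ k, ∃ q : Fin h × Bool, π (some (k, true)) = some q := by
    intro k
    cases hq : π (some (k, true)) with
    | none =>
      exfalso
      have := π.injective (hq.trans h0.symm)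
      simp at this
    | some q => exact ⟨q, rfl⟩
  choose q hq using hex
  have hq' : ∀ k, π (some (k, false)) = some ((q k).1, !(q k).2) := by
    intro k
    apply (EE hh).injective
    rw [hk, hq, EE_not]
  have hinj : Function.Injective (fun k => (q k).1) := by
    intro k l hkl
    have hkl' : (q k).1 = (q l).1 := hkl
    by_cases hs : (q k).2 = (q l).2
    · have : π (some (k, true)) = π (some (l, true)) := by
        rw [hq, hq]; congr 1; exact Prod.ext hkl' hs
      have := π.injective this
      simpa using this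
    · exfalso
      have hs' : (q l).2 = !(q k).2 := by
        revert hs; cases (q k).2 <;> cases (q l).2 <;> simp
      have : π (some (k, false)) = π (some (l, true)) := by
        rw [hq', hq]; congr 1; exact Prod.ext hkl' hs'.symm
      have := π.injective this
      simp at this
  refine ⟨Equiv.ofBijective _ (Finite.injective_iff_bijective.1 hinj), fun k => !(q k).2, ?_⟩
  ext1 x
  rcases x with _ | ⟨k, b⟩
  · rw [Th_none, h0]
  · rw [Th_some]
    cases b
    · rw [hq']
      simp
    · rw [hq]
      simp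

theorem sum_tt (hp : 2 < p) : ∑ π, tt hh π =
    ((h.factorial : ℕ) : ZMod p) * 2 ^ h * ((-2) ^ h * (∏ k : Fin h, cc p k) ^ 2) := by
  have h1 : ∑ π, tt hh π = ∑ q : Perm (Fin h) × (Fin h → Bool), tt hh (Th q.1 q.2) := by
    symm
    apply Finset.sum_of_injOn (e := fun q : Perm (Fin h) × (Fin h → Bool) => Th q.1 q.2)
    · rintro ⟨ρ, ε⟩ _ ⟨ρ', ε'⟩ _ he
      have he' : Th ρ ε = Th ρ' ε' := he
      have h2 : ∀ k b, some (ρ k, xor b (ε k)) = some (ρ' k, xor b (ε' k)) := by
        intro k b
        rw [← Th_some, ← Th_some, he']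
      apply Prod.ext
      · ext1 k
        exact (Prod.mk.inj (Option.some.inj (h2 k false))).1
      · funext k
        have := (Prod.mk.inj (Option.some.inj (h2 k false))).2
        simpa using this
    · intro q _; simp
    · intro π _ hπ
      by_contra ht
      apply hπ
      obtain ⟨h2, h3⟩ := tt_ne hh hp ht
      obtain ⟨ρ, ε, h4⟩ := Th_surj hh h2 h3
      exact ⟨(ρ, ε), by simp, h4⟩
    · intro q _; rfl
  rw [h1, Finset.sum_congr rfl (fun q _ => tt_Th hh hp q.1 q.2), Finset.sum_const,
    Finset.card_univ, Fintype.card_prod, Fintype.card_perm, Fintype.card_fun, Fintype.card_bool,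
    Fintype.card_fin, nsmul_eq_mul]
  push_cast
  ring

open Classical in
theorem starter_zmod (hp : 2 < p) :
    (∑ φ : Perm (Option (Fin h × Bool)), if Cn hh φ then ((sign φ : ℤ) : ZMod p) else 0) ≠ 0 := by
  intro h0
  have h1 := sum_det hh
  rw [h0, zero_mul, sum_expand] at h1
  have h2 := antisym hh (fun π => ((sign π : ℤ) : ZMod p) *
      (0 ^ dg hh (π none) * ∏ k : Fin h, Ps (dg hh (π (some (k, false)))) (dg hh (π (some (k, true)))) (cc p k)))
      (fun k a b => Ps a b (cc p k)) (fun n => 0 ^ n) (fun π => rfl)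
  rw [← h1, mul_zero] at h2
  have h3 := sum_tt hh hp
  unfold tt Ds at h3
  rw [← h2] at h3
  have hpp : p.Prime := Fact.out
  have h2ne : (2 : ZMod p) ≠ 0 := by
    intro h
    have h7 : ((2 : ℕ) : ZMod p) = 0 := by exact_mod_cast h
    rw [ZMod.natCast_eq_zero_iff] at h7
    have := Nat.le_of_dvd (by norm_num) h7
    omega
  have hfac : ((h.factorial : ℕ) : ZMod p) ≠ 0 := by
    intro h
    rw [ZMod.natCast_eq_zero_iff, hpp.dvd_factorial] at h
    omega
  have hcc : (∏ k : Fin h, cc p k) ≠ 0 := by
    rw [Finset.prod_ne_zero_iff]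
    intro k _
    exact cc_ne_zero hh k
  have : ((h.factorial : ℕ) : ZMod p) * 2 ^ h * ((-2) ^ h * (∏ k : Fin h, cc p k) ^ 2) ≠ 0 :=
    mul_ne_zero (mul_ne_zero hfac (pow_ne_zero _ h2ne))
      (mul_ne_zero (pow_ne_zero _ (neg_ne_zero.2 h2ne)) (pow_ne_zero _ hcc))
  exact this h3.symm

end Eval

theorem starter_ne_zero (p : ℕ) [Fact p.Prime] (hp : p ≠ 2) :
    ¬ ((p : ℤ) ∣ ∑ φ ∈ Finset.univ.filter (fun φ : Equiv.Perm (ZMod p) =>
      φ 0 = 0 ∧ ∀ k, φ k = k + φ (-k)), ((Equiv.Perm.sign φ : ℤˣ) : ℤ)) := by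
  classical
  have hpp : p.Prime := Fact.out
  obtain ⟨h, hh⟩ := hpp.odd_of_ne_two hp
  have hp2 : 2 < p := lt_of_le_of_ne hpp.two_le (Ne.symm hp)
  intro hdvd
  rw [← ZMod.intCast_zmod_eq_zero_iff_dvd] at hdvd
  apply starter_zmod hh hp2
  refine Eq.trans ?_ hdvd
  rw [Int.cast_sum, ← Finset.sum_filter]
  apply Finset.sum_bij (fun (φ : Perm (Option (Fin h × Bool))) _ => (EE hh).permCongr φ)
  · intro φ hφ
    rw [Finset.mem_filter] at hφ ⊢
    obtain ⟨-, h1, h2⟩ := hφ
    refine ⟨Finset.mem_univ _, ?_, ?_⟩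
    · rw [Equiv.permCongr_apply]
      have : (EE hh).symm 0 = none := by
        rw [Equiv.symm_apply_eq, EE_none]
      rw [this, h1, EE_none]
    · intro z
      obtain ⟨x, rfl⟩ := (EE hh).surjective z
      rcases x with _ | ⟨k, _ | _⟩
      · rw [EE_none]; simp
      · rw [EE_false, neg_neg, ← EE_false hh, ← EE_true hh, Equiv.permCongr_apply, Equiv.permCongr_apply,
          Equiv.symm_apply_apply, Equiv.symm_apply_apply, h2 k, EE_false]
        ring
      · rw [EE_true, ← EE_false hh, ← EE_true hh, Equiv.permCongr_apply, Equiv.permCongr_apply,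
          Equiv.symm_apply_apply, Equiv.symm_apply_apply, h2 k, EE_true]
        ring
  · intro φ _ φ' _ he
    exact (EE hh).permCongr.injective he
  · intro ψ hψ
    rw [Finset.mem_filter] at hψ
    obtain ⟨-, h1, h2⟩ := hψ
    refine ⟨(EE hh).permCongr.symm ψ, ?_, (EE hh).permCongr.apply_symm_apply ψ⟩
    rw [Finset.mem_filter]
    refine ⟨Finset.mem_univ _, ?_, ?_⟩
    · show (EE hh).symm (ψ (EE hh none)) = none
      rw [EE_none, h1, Equiv.symm_apply_eq, EE_none]
    · intro k
      show EE hh ((EE hh).symm (ψ (EE hh (some (k, true))))) =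
        EE hh ((EE hh).symm (ψ (EE hh (some (k, false))))) + cc p k
      rw [Equiv.apply_symm_apply, Equiv.apply_symm_apply, EE_true, EE_false, h2 (cc p k)]
      ring
  · intro φ _
    rw [Equiv.Perm.sign_permCongr]

end Pool.Agent.Helper15.Starter
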