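import Mathlib
import Pool.Agent.Helper15.Slots
import Pool.Agent.Helper15.Starter

set_option autoImplicit false

namespace Pool.Agent.Helper15.K2p

open Equiv Equiv.Perm Pool.Agent.Helper15.LEC Pool.Agent.Helper15.Slots Pool.Agent.Helper15.Starter

theorem FM_perm {D : ℕ} (σ : Perm (Fin D)) : (FM ℤ (fun j => σ j)).det = ((sign σ : ℤˣ) : ℤ) := by
  have : FM ℤ (fun j => σ j) = (1 : Matrix (Fin D) (Fin D) ℤ).submatrix σ id := by
    ext i j
    simp only [FM, Matrix.of_apply, Matrix.submatrix_apply, Matrix.one_apply, id]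
  rw [this, Matrix.det_permute, Matrix.det_one, mul_one]
  rfl

section Bridge

variable {V : Type} [Fintype V] [DecidableEq V] {D : ℕ}

/-- signed sum over symmetric arrays with constant diagonal -/
noncomputable def AA (o : V) : ℤ :=
  ∑ L : V → Perm V, if (∀ v w, L v w = L w v) ∧ (∀ v, L v v = o) then
    ∏ v, ((sign (L v) : ℤˣ) : ℤ) else 0

theorem exists_E (hD : Fintype.card V = D + 1) (v : V) : ∃ E : Option (Fin D) ≃ V, E none = v := by
  have h : Fintype.card (Option (Fin D)) = Fintype.card V := by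
    rw [Fintype.card_option, Fintype.card_fin, hD]
  let E0 : Option (Fin D) ≃ V := Fintype.equivOfCardEq h
  exact ⟨E0.trans (swap (E0 none) v), by simp⟩

theorem GG_of_AA (o : V) (hD : Fintype.card V = D + 1) (hA : AA o ≠ 0) :
    GG (⊤ : SimpleGraph V) D := by
  classical
  choose E hE using exists_E (V := V) hD
  have hsome : ∀ v j, E v (some j) ≠ v := by
    intro v j h
    have : E v (some j) = E v none := by rw [h, hE]
    exact absurd ((E v).injective this) (by simp)
  have hex : ∀ v w, w ≠ v → ∃ j, E v (some j) = w := by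
    intro v w hw
    obtain ⟨x, hx⟩ := (E v).surjective w
    cases x with
    | none => rw [hE] at hx; exact absurd hx.symm hw
    | some j => exact ⟨j, hx⟩
  choose τ hτ using fun x : V × Fin D => hex (E x.1 (some x.2)) x.1 (hsome x.1 x.2).symm
  let μ : V × Fin D → V × Fin D := fun x => (E x.1 (some x.2), τ x)
  have hinv : ∀ x, μ (μ x) = x := by
    intro x
    have h1 : (μ (μ x)).1 = x.1 := hτ x
    apply Prod.ext h1
    have h2 := hτ (μ x)
    have h3 : E (μ x).1 (some (μ x).2) = x.1 := hτ x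
    rw [h3] at h2
    have h4 : (μ x).1 = E x.1 (some x.2) := rfl
    rw [h4] at h2
    exact Option.some.inj ((E x.1).injective h2)
  have hnf : ∀ x, μ x ≠ x := fun x h => hsome x.1 x.2 (congrArg Prod.fst h)
  rw [GG_iff]
  refine ⟨μ, ⟨hinv, ?_, ?_, ?_⟩, fun x => x.2, ?_⟩
  · intro x _
    rw [SimpleGraph.top_adj]
    exact (hsome x.1 x.2).symm
  · intro x y hxy _ _ h
    apply Prod.ext hxy
    have h' : E x.1 (some x.2) = E y.1 (some y.2) := h
    rw [hxy] at h'
    exact Option.some.inj ((E y.1).injective h')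
  · intro u v huv
    obtain ⟨j, hj⟩ := hex u v (SimpleGraph.top_adj .. |>.1 huv).symm
    exact ⟨j, hj⟩
  -- rewrite both sums over families of permutations of `Fin D`
  let Λ : (V → Perm (Fin D)) → (V → Perm V) := fun σ v =>
    (E v).symm.trans ((optionCongr (σ v)).trans (E o))
  have hΛ0 : ∀ σ v, Λ σ v v = o := by
    intro σ v
    have h1 : (E v).symm v = none := by rw [Equiv.symm_apply_eq, hE]
    show E o (optionCongr (σ v) ((E v).symm v)) = o
    rw [h1]
    simp [hE]
  have hΛ1 : ∀ σ v j, Λ σ v (E v (some j)) = E o (some (σ v j)) := by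
    intro σ v j
    show E o (optionCongr (σ v) ((E v).symm (E v (some j)))) = _
    rw [Equiv.symm_apply_apply]
    simp
  have hΛs : ∀ σ v, sign (Λ σ v) = sign ((E v).symm.trans (E o)) * sign (σ v) := by
    intro σ v
    have h1 : Λ σ v = (((E v).symm.trans (optionCongr (σ v))).trans (E v)).trans
        ((E v).symm.trans (E o)) := by
      ext1 x
      simp [Λ]
    rw [h1]
    have h2 : sign ((((E v).symm.trans (optionCongr (σ v))).trans (E v)).trans
        ((E v).symm.trans (E o))) = sign ((E v).symm.trans (E o)) *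
        sign (((E v).symm.trans (optionCongr (σ v))).trans (E v)) := by
      rw [← Equiv.Perm.sign_mul]
      rfl
    rw [h2, Equiv.Perm.sign_symm_trans_trans, Equiv.optionCongr_sign]
  have hiff : ∀ σ : V → Perm (Fin D), (∀ x : V × Fin D, σ (μ x).1 (μ x).2 = σ x.1 x.2) ↔
      (∀ v w, Λ σ v w = Λ σ w v) := by
    intro σ
    constructor
    · intro h v w
      by_cases hvw : w = v
      · rw [hvw]
      · obtain ⟨j, hj⟩ := hex v w hvw
        have h1 := h (v, j)
        have h2 : μ (v, j) = (w, τ (v, j)) := by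
          show (E v (some j), τ (v, j)) = _
          rw [hj]
        have h3 : E w (some (τ (v, j))) = v := by
          have := hτ (v, j)
          simp only at this
          rw [hj] at this
          exact this
        rw [h2] at h1
        simp only at h1
        rw [← hj, hΛ1, hj]
        conv_rhs => rw [← h3, hΛ1]
        rw [h1]
    · intro h x
      have h1 := h x.1 (E x.1 (some x.2))
      have h3 : E (E x.1 (some x.2)) (some (τ x)) = x.1 := hτ x
      rw [hΛ1] at h1
      have h4 : Λ σ (E x.1 (some x.2)) x.1 = E o (some (σ (E x.1 (some x.2)) (τ x))) := by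
        rw [← hΛ1, h3]
      rw [h4] at h1
      exact (Option.some.inj ((E o).injective h1)).symm
  have hZ : Zs μ (fun x => x.2) = ∑ σ : V → Perm (Fin D),
      if (∀ x : V × Fin D, σ (μ x).1 (μ x).2 = σ x.1 x.2) then ∏ v, ((sign (σ v) : ℤˣ) : ℤ) else 0 := by
    unfold Zs
    symm
    apply Finset.sum_of_injOn (e := fun (σ : V → Perm (Fin D)) (x : V × Fin D) => σ x.1 x.2)
    · intro σ _ σ' _ h
      funext v
      ext1 j
      exact congrFun h (v, j)
    · intro σ _; simp
    · intro k _ hk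
      split_ifs with hc
      · by_contra hw
        apply hk
        unfold wt at hw
        rw [← ne_eq, Finset.prod_ne_zero_iff] at hw
        have hbij : ∀ v, Function.Bijective (fun j => k (v, j)) := fun v =>
          Finite.injective_iff_bijective.1 (FM_inj (hw v (Finset.mem_univ _)))
        refine ⟨fun v => Equiv.ofBijective _ (hbij v), by simp, ?_⟩
        funext x
        rfl
      · rfl
    · intro σ _
      have hwt : wt (fun x : V × Fin D => σ x.1 x.2) = ∏ v, ((sign (σ v) : ℤˣ) : ℤ) := by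
        unfold wt
        apply Finset.prod_congr rfl
        intro v _
        exact FM_perm (σ v)
      by_cases hc : (∀ x : V × Fin D, σ (μ x).1 (μ x).2 = σ x.1 x.2)
      · rw [if_pos hc, if_pos ⟨hc, fun x hx => absurd hx (hnf x)⟩, hwt]
      · rw [if_neg hc, if_neg (fun h => hc h.1)]
  have hAA : AA o = ∑ σ : V → Perm (Fin D),
      if (∀ x : V × Fin D, σ (μ x).1 (μ x).2 = σ x.1 x.2) then
        ∏ v, ((sign (Λ σ v) : ℤˣ) : ℤ) else 0 := by
    unfold AA
    symm
    apply Finset.sum_of_injOn (e := Λ)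
    · intro σ _ σ' _ h
      funext v
      ext1 j
      have := congrArg (fun f : Perm V => f (E v (some j))) (congrFun h v)
      simp only [hΛ1] at this
      exact Option.some.inj ((E o).injective this)
    · intro σ _; simp
    · intro L _ hL
      rw [if_neg]
      rintro ⟨-, h2⟩
      apply hL
      let e : V → Perm (Option (Fin D)) := fun v => (E v).trans ((L v).trans (E o).symm)
      have he : ∀ v, e v none = none := by
        intro v
        show (E o).symm (L v (E v none)) = none
        rw [hE, h2, Equiv.symm_apply_eq, hE]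
      refine ⟨fun v => removeNone (e v), by simp, ?_⟩
      funext v
      have h3 : (removeNone (e v)).optionCongr = e v := by
        rw [map_equiv_removeNone, he, swap_self]
        rfl
      show (E v).symm.trans ((optionCongr (removeNone (e v))).trans (E o)) = L v
      rw [h3]
      ext1 x
      simp [e]
    · intro σ _
      by_cases hc : (∀ x : V × Fin D, σ (μ x).1 (μ x).2 = σ x.1 x.2)
      · rw [if_pos hc, if_pos ⟨(hiff σ).1 hc, hΛ0 σ⟩]
      · rw [if_neg hc, if_neg (fun h => hc ((hiff σ).2 h.1))]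
  intro h0
  apply hA
  rw [hZ] at h0
  rw [hAA]
  have : ∀ σ : V → Perm (Fin D), (∏ v, ((sign (Λ σ v) : ℤˣ) : ℤ)) =
      (∏ v, ((sign ((E v).symm.trans (E o)) : ℤˣ) : ℤ)) * ∏ v, ((sign (σ v) : ℤˣ) : ℤ) := by
    intro σ
    rw [← Finset.prod_mul_distrib]
    apply Finset.prod_congr rfl
    intro v _
    rw [hΛs]
    push_cast
    rfl
  calc ∑ σ : V → Perm (Fin D),
      (if (∀ x : V × Fin D, σ (μ x).1 (μ x).2 = σ x.1 x.2) then
        ∏ v, ((sign (Λ σ v) : ℤˣ) : ℤ) else 0)
      = ∑ σ : V → Perm (Fin D), (∏ v, ((sign ((E v).symm.trans (E o)) : ℤˣ) : ℤ)) *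
      (if (∀ x : V × Fin D, σ (μ x).1 (μ x).2 = σ x.1 x.2) then
        ∏ v, ((sign (σ v) : ℤˣ) : ℤ) else 0) := by
        apply Finset.sum_congr rfl
        intro σ _
        rw [this]
        split_ifs
        · rfl
        · rw [mul_zero]
    _ = 0 := by rw [← Finset.mul_sum, h0, mul_zero]

end Bridge

/-- a free action makes an invariant sum divisible by the order of the group -/
theorem free_sum {G X : Type} [AddCommGroup G] [Fintype G] [Fintype X] [DecidableEq X]
    (act : G → X → X) (h0 : ∀ x, act 0 x = x) (hadd : ∀ g h x, act (g + h) x = act g (act h x))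
    (w : X → ℤ) (hw : ∀ g x, w (act g x) = w x)
    (hfree : ∀ g x, w x ≠ 0 → act g x = x → g = 0) : (Fintype.card G : ℤ) ∣ ∑ x, w x := by
  classical
  have hneg : ∀ g x, act (-g) (act g x) = x := by
    intro g x; rw [← hadd, neg_add_cancel, h0]
  let s : Setoid X := ⟨fun x y => ∃ g, act g x = y, by
    refine ⟨fun x => ⟨0, h0 x⟩, ?_, ?_⟩
    · rintro x y ⟨g, rfl⟩
      exact ⟨-g, hneg g x⟩
    · rintro x y z ⟨g, rfl⟩ ⟨h, rfl⟩
      exact ⟨h + g, hadd h g x⟩⟩
  rw [← Finset.sum_fiberwise Finset.univ (fun x => (Quotient.mk s x)) w]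
  apply Finset.dvd_sum
  intro q _
  obtain ⟨x0, rfl⟩ := Quotient.exists_rep q
  by_cases hx0 : w x0 = 0
  · have : ∑ x ∈ Finset.univ.filter (fun x => Quotient.mk s x = Quotient.mk s x0), w x = 0 := by
      apply Finset.sum_eq_zero
      intro x hx
      rw [Finset.mem_filter] at hx
      obtain ⟨g, hg⟩ : s.r x x0 := Quotient.exact hx.2
      rw [← hw g x, hg, hx0]
    rw [this]
    exact dvd_zero _
  · have : ∑ x ∈ Finset.univ.filter (fun x => Quotient.mk s x = Quotient.mk s x0), w x =
        ∑ g : G, w (act g x0) := by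
      symm
      apply Finset.sum_of_injOn (e := fun g => act g x0)
      · intro g _ h _ hgh
        have h1 : act (-h + g) x0 = x0 := by
          rw [hadd]
          show act (-h) (act g x0) = x0
          have : act g x0 = act h x0 := hgh
          rw [this, hneg]
        have h2 := hfree _ _ hx0 h1
        exact (neg_add_eq_zero.1 h2).symm
      · intro g _
        simp only [Finset.coe_filter, Finset.mem_univ, true_and]
        exact Quotient.sound ⟨-g, hneg g x0⟩
      · intro x hx hx2
        exfalso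
        apply hx2
        rw [Finset.mem_filter] at hx
        obtain ⟨g, hg⟩ : s.r x x0 := Quotient.exact hx.2
        refine ⟨-g, by simp, ?_⟩
        show act (-g) x0 = x
        rw [← hg, hneg]
      · intro g _; rfl
    rw [this, Finset.sum_congr rfl (fun g _ => hw g x0), Finset.sum_const, Finset.card_univ,
      nsmul_eq_mul]
    exact dvd_mul_right _ _

section Main

variable {p : ℕ} [Fact p.Prime]

/-- vertices (and colours) -/
abbrev W2 (p : ℕ) := Bool × ZMod p

abbrev oo (p : ℕ) : W2 p := (true, 0)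

/-- the group -/
abbrev G3 (p : ℕ) := ZMod p × ZMod p × ZMod p

/-- rotation of the vertices -/
def rho (g : G3 p) : Perm (W2 p) :=
  Equiv.prodCongrRight (fun b => Equiv.addLeft (if b then g.2.1 else g.1))

/-- rotation of the colours -/
def kap2 (g : G3 p) : Perm (W2 p) :=
  Equiv.prodCongrRight (fun b => Equiv.addLeft (if b then 0 else g.2.2))

theorem rho_apply (g : G3 p) (b : Bool) (x : ZMod p) :
    rho g (b, x) = (b, (if b then g.2.1 else g.1) + x) := rfl

theorem kap2_apply (g : G3 p) (b : Bool) (x : ZMod p) :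
    kap2 g (b, x) = (b, (if b then 0 else g.2.2) + x) := rfl

theorem rho_zero : rho (0 : G3 p) = 1 := by
  ext1 v
  obtain ⟨b, x⟩ := v
  rw [rho_apply]
  cases b <;> simp

theorem kap2_zero : kap2 (0 : G3 p) = 1 := by
  ext1 v
  obtain ⟨b, x⟩ := v
  rw [kap2_apply]
  cases b <;> simp

theorem rho_add (g h : G3 p) : rho (g + h) = rho g * rho h := by
  ext1 v
  obtain ⟨b, x⟩ := v
  rw [Perm.mul_apply, rho_apply, rho_apply, rho_apply]
  cases b <;> simp [add_assoc]

theorem kap2_add (g h : G3 p) : kap2 (g + h) = kap2 g * kap2 h := by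
  ext1 v
  obtain ⟨b, x⟩ := v
  rw [Perm.mul_apply, kap2_apply, kap2_apply, kap2_apply]
  cases b <;> simp [add_assoc]

theorem rho_neg (g : G3 p) : rho (-g) = (rho g)⁻¹ := by
  rw [eq_inv_iff_mul_eq_one, ← rho_add, neg_add_cancel, rho_zero]

/-- the action on families of permutations -/
def act (g : G3 p) (L : W2 p → Perm (W2 p)) : W2 p → Perm (W2 p) :=
  fun v => kap2 g * L (rho (-g) v) * rho (-g)

theorem act_zero (L : W2 p → Perm (W2 p)) : act 0 L = L := by
  funext v
  unfold act
  rw [neg_zero, rho_zero, kap2_zero]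
  simp

theorem act_add (g h : G3 p) (L : W2 p → Perm (W2 p)) : act (g + h) L = act g (act h L) := by
  funext v
  unfold act
  rw [kap2_add, neg_add_rev, rho_add]
  rw [Perm.mul_apply]
  simp only [mul_assoc]

theorem act_apply (g : G3 p) (L : W2 p → Perm (W2 p)) (v w : W2 p) :
    act g L (rho g v) (rho g w) = kap2 g (L v w) := by
  unfold act
  rw [rho_neg, Perm.mul_apply, Perm.mul_apply, inv_app, inv_app]

/-- symmetric arrays with diagonal `o` -/
def Sym (L : W2 p → Perm (W2 p)) : Prop := (∀ v w, L v w = L w v) ∧ (∀ v, L v v = oo p)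

theorem kap2_oo (g : G3 p) : kap2 g (oo p) = oo p := by
  rw [kap2_apply]; simp

theorem Sym_act {g : G3 p} {L : W2 p → Perm (W2 p)} (h : Sym L) : Sym (act g L) := by
  constructor
  · intro v w
    obtain ⟨v, rfl⟩ := (rho g).surjective v
    obtain ⟨w, rfl⟩ := (rho g).surjective w
    rw [act_apply, act_apply, h.1]
  · intro v
    obtain ⟨v, rfl⟩ := (rho g).surjective v
    rw [act_apply, h.2, kap2_oo]

theorem Sym_act_iff (g : G3 p) (L : W2 p → Perm (W2 p)) : Sym (act g L) ↔ Sym L := by
  constructor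
  · intro h
    have := Sym_act (g := -g) h
    rwa [← act_add, neg_add_cancel, act_zero] at this
  · exact Sym_act

theorem card_W2 : Fintype.card (W2 p) = p * 2 := by
  rw [Fintype.card_prod, Fintype.card_bool, ZMod.card]; ring

theorem unit_pow_even (u : ℤˣ) : u ^ (p * 2) = 1 := by
  rw [mul_comm, pow_mul, Int.units_sq, one_pow]

theorem sgn_act (g : G3 p) (L : W2 p → Perm (W2 p)) :
    ∏ v, sign (act g L v) = ∏ v, sign (L v) := by
  unfold act
  simp only [Perm.sign_mul]
  rw [Finset.prod_mul_distrib, Finset.prod_mul_distrib, Finset.prod_const, Finset.prod_const,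
    Finset.card_univ, card_W2, unit_pow_even, unit_pow_even, one_mul, mul_one]
  exact Equiv.prod_comp (rho (-g)) (fun v => sign (L v))

/-- points with nontrivial stabilizer -/
theorem stab_rot {g : G3 p} (hp : p ≠ 2) {L : W2 p → Perm (W2 p)} (h : act g L = L)
    (hS : Sym L) (h3 : g.2.2 = 0) : g = 0 := by
  have key : ∀ b : Bool, (if b then g.2.1 else g.1) = 0 := by
    intro b
    set a : ZMod p := (if b then g.2.1 else g.1) with ha
    have h1 : L (b, a) (b, a + a) = L (b, 0) (b, a) := by
      have := act_apply g L (b, 0) (b, a)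
      rw [h, rho_apply, rho_apply, ← ha, add_zero] at this
      rw [this]
      have hk : ∀ v : W2 p, kap2 g v = v := by
        rintro ⟨c, x⟩
        rw [kap2_apply, h3]
        cases c <;> simp
      rw [hk]
    rw [hS.1 (b, 0) (b, a)] at h1
    have h2 := (L (b, a)).injective h1
    have h4 : a + a = 0 := (Prod.mk.inj h2).2
    have h5 : (2 : ZMod p) * a = 0 := by rw [two_mul]; exact h4
    rcases mul_eq_zero.1 h5 with h6 | h6
    · exfalso
      have h7 : ((2 : ℕ) : ZMod p) = 0 := by exact_mod_cast h6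
      rw [ZMod.natCast_eq_zero_iff] at h7
      have := (Nat.prime_dvd_prime_iff_eq (Fact.out : p.Prime) Nat.prime_two).1 h7
      exact hp this
    · exact h6
  have k1 := key true
  have k2 := key false
  simp only [if_true, Bool.false_eq_true, if_false] at k1 k2
  exact Prod.ext k2 (Prod.ext k1 h3)

theorem stab_block {g : G3 p} (hp : p ≠ 2) {L : W2 p → Perm (W2 p)} (h : act g L = L)
    (hS : Sym L) (h3 : g.2.2 ≠ 0) (b : Bool) : (if b then g.2.1 else g.1) ≠ 0 := by
  intro ha
  have h1 : ∀ x y, (L (b, x) (b, y)).1 = true := by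
    intro x y
    have h2 := act_apply g L (b, x) (b, y)
    rw [h, rho_apply, rho_apply, ha, zero_add, zero_add] at h2
    by_contra hc
    have hc' : (L (b, x) (b, y)).1 = false := by simpa using hc
    have h4 : L (b, x) (b, y) = (false, (L (b, x) (b, y)).2) := Prod.ext hc' rfl
    rw [h4, kap2_apply] at h2
    have h5 := (Prod.mk.inj h2).2
    simp at h5
    exact h3 h5
  -- rows restricted to the block are permutations of `ZMod p`
  have hrow : ∀ x, ∃ y, L (b, x) (b, y) = (true, 1) := by
    intro x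
    have hinj : Function.Injective (fun y => (L (b, x) (b, y)).2) := by
      intro y y' hy
      have : L (b, x) (b, y) = L (b, x) (b, y') := Prod.ext ((h1 x y).trans (h1 x y').symm) hy
      exact (Prod.mk.inj ((L (b, x)).injective this)).2
    obtain ⟨y, hy⟩ := (Finite.injective_iff_surjective.1 hinj) 1
    exact ⟨y, Prod.ext (h1 x y) hy⟩
  choose m hm using hrow
  have hm1 : ∀ x, m (m x) = x := by
    intro x
    have e1 := hm (m x)
    have e2 : L (b, m x) (b, x) = (true, 1) := by rw [hS.1]; exact hm x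
    have := (L (b, m x)).injective (e1.trans e2.symm)
    exact (Prod.mk.inj this).2
  have hm2 : ∀ x, m x ≠ x := by
    intro x hx
    have e1 := hm x
    rw [hx, hS.2] at e1
    have := (Prod.mk.inj e1).2
    exact zero_ne_one this
  have heven := card_even_of_invol m hm1 hm2
  rw [ZMod.card] at heven
  have hodd := (Fact.out : p.Prime).odd_of_ne_two hp
  exact (Nat.not_even_iff_odd.2 hodd) heven

theorem stab_all {g : G3 p} (hp : p ≠ 2) {L : W2 p → Perm (W2 p)} (h : act g L = L)
    (hS : Sym L) (hg : g ≠ 0) : g.1 ≠ 0 ∧ g.2.1 ≠ 0 ∧ g.2.2 ≠ 0 := by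
  have h3 : g.2.2 ≠ 0 := fun h3 => hg (stab_rot hp h hS h3)
  refine ⟨?_, ?_, h3⟩
  · have := stab_block hp h hS h3 false
    simpa using this
  · have := stab_block hp h hS h3 true
    simpa using this

/-- relabelling -/
def RR (α β : Perm (W2 p)) (L : W2 p → Perm (W2 p)) : W2 p → Perm (W2 p) :=
  fun v => β * L (α⁻¹ v) * α⁻¹

theorem act_eq_RR (g : G3 p) (L : W2 p → Perm (W2 p)) : act g L = RR (rho g) (kap2 g) L := by
  funext v
  unfold act RR
  rw [rho_neg]

theorem RR_mul (α β α' β' : Perm (W2 p)) (L : W2 p → Perm (W2 p)) :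
    RR α β (RR α' β' L) = RR (α * α') (β * β') L := by
  funext v
  unfold RR
  rw [mul_inv_rev, Perm.mul_apply]
  simp only [mul_assoc]

theorem RR_one (L : W2 p → Perm (W2 p)) : RR 1 1 L = L := by
  funext v
  unfold RR
  simp

theorem RR_apply (α β : Perm (W2 p)) (L : W2 p → Perm (W2 p)) (v w : W2 p) :
    RR α β L (α v) (α w) = β (L v w) := by
  unfold RR
  rw [Perm.mul_apply, Perm.mul_apply, inv_app, inv_app]

theorem Sym_RR {α β : Perm (W2 p)} (hβ : β (oo p) = oo p) {L : W2 p → Perm (W2 p)} (h : Sym L) :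
    Sym (RR α β L) := by
  constructor
  · intro v w
    obtain ⟨v, rfl⟩ := α.surjective v
    obtain ⟨w, rfl⟩ := α.surjective w
    rw [RR_apply, RR_apply, h.1]
  · intro v
    obtain ⟨v, rfl⟩ := α.surjective v
    rw [RR_apply, h.2, hβ]

theorem Sym_RR_iff {α β : Perm (W2 p)} (hβ : β (oo p) = oo p) (L : W2 p → Perm (W2 p)) :
    Sym (RR α β L) ↔ Sym L := by
  constructor
  · intro h
    have hβ' : β⁻¹ (oo p) = oo p := by
      rw [Perm.inv_eq_iff_eq]; exact hβ.symm
    have := Sym_RR (α := α⁻¹) hβ' h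
    rwa [RR_mul, inv_mul_cancel, inv_mul_cancel, RR_one] at this
  · exact Sym_RR hβ

theorem sgn_RR (α β : Perm (W2 p)) (L : W2 p → Perm (W2 p)) :
    ∏ v, sign (RR α β L v) = ∏ v, sign (L v) := by
  unfold RR
  simp only [Perm.sign_mul]
  rw [Finset.prod_mul_distrib, Finset.prod_mul_distrib, Finset.prod_const, Finset.prod_const,
    Finset.card_univ, card_W2, unit_pow_even, unit_pow_even, one_mul, mul_one]
  exact Equiv.prod_comp α⁻¹ (fun v => sign (L v))

open Classical in
/-- weight of a family -/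
noncomputable def wL (L : W2 p → Perm (W2 p)) : ℤ :=
  if Sym L then ((∏ v, sign (L v) : ℤˣ) : ℤ) else 0

theorem wL_RR {α β : Perm (W2 p)} (hβ : β (oo p) = oo p) (L : W2 p → Perm (W2 p)) :
    wL (RR α β L) = wL L := by
  unfold wL
  rw [sgn_RR]
  by_cases h : Sym L
  · rw [if_pos h, if_pos ((Sym_RR_iff hβ L).2 h)]
  · rw [if_neg h, if_neg (fun h' => h ((Sym_RR_iff hβ L).1 h'))]

theorem wL_act (g : G3 p) (L : W2 p → Perm (W2 p)) : wL (act g L) = wL L := by
  rw [act_eq_RR]
  exact wL_RR (kap2_oo g) L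

theorem AA_eq : AA (oo p) = ∑ L : W2 p → Perm (W2 p), wL L := by
  classical
  unfold AA wL
  apply Finset.sum_congr rfl
  intro L _
  by_cases h : Sym L
  · have h' : (∀ v w, L v w = L w v) ∧ (∀ v, L v v = oo p) := h
    rw [if_pos h, if_pos h', Units.coe_prod]
  · have h' : ¬ ((∀ v w, L v w = L w v) ∧ (∀ v, L v v = oo p)) := h
    rw [if_neg h, if_neg h']

/-- sum over the families fixed by `g` -/
noncomputable def FF (g : G3 p) : ℤ :=
  ∑ L : W2 p → Perm (W2 p), if act g L = L then wL L else 0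

theorem act_nsmul {g : G3 p} {L : W2 p → Perm (W2 p)} (h : act g L = L) (n : ℕ) :
    act (n • g) L = L := by
  induction n with
  | zero => rw [zero_smul, act_zero]
  | succ n ih => rw [succ_nsmul, act_add, h, ih]

theorem AA_mod (hp : p ≠ 2) : ((p : ℤ) ^ 3) ∣ AA (oo p) -
    ∑ q ∈ (Finset.univ : Finset (ZMod p × ZMod p)).filter (fun q => q.1 ≠ 0 ∧ q.2 ≠ 0),
      FF ((1, q.1, q.2) : G3 p) := by
  classical
  let wf : (W2 p → Perm (W2 p)) → ℤ := fun L => if (∀ g : G3 p, g ≠ 0 → act g L ≠ L) then wL L else 0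
  have hfree : ((p : ℤ) ^ 3) ∣ ∑ L, wf L := by
    have h1 := free_sum (G := G3 p) (act (p := p)) act_zero act_add wf (by
      intro g L
      simp only [wf]
      rw [wL_act]
      have : (∀ g' : G3 p, g' ≠ 0 → act g' (act g L) ≠ act g L) ↔ (∀ g' : G3 p, g' ≠ 0 → act g' L ≠ L) := by
        constructor
        · intro h g' hg' h2
          apply h g' hg'
          rw [← act_add, add_comm, act_add, h2]
        · intro h g' hg' h2
          apply h g' hg'
          have h3 := congrArg (act (-g)) h2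
          rw [← act_add, ← act_add, ← act_add] at h3
          rw [neg_add_cancel, act_zero] at h3
          have : -g + g' + g = g' := by abel
          rwa [this] at h3
      simp only [this]) (by
      intro g L hw hg
      by_contra hne
      simp only [wf] at hw
      split_ifs at hw with hc
      · exact hc g hne hg
      · exact hw rfl)
    have h2 : (Fintype.card (G3 p) : ℤ) = (p : ℤ) ^ 3 := by
      rw [Fintype.card_prod, Fintype.card_prod, ZMod.card]
      push_cast; ring
    rwa [h2] at h1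
  have hsplit : ∀ L : W2 p → Perm (W2 p), wL L = wf L +
      ∑ q ∈ (Finset.univ : Finset (ZMod p × ZMod p)).filter (fun q => q.1 ≠ 0 ∧ q.2 ≠ 0),
        if act ((1, q.1, q.2) : G3 p) L = L then wL L else 0 := by
    intro L
    by_cases hS : Sym L
    · by_cases hf : ∀ g : G3 p, g ≠ 0 → act g L ≠ L
      · simp only [wf]
        rw [if_pos hf]
        have : ∑ q ∈ (Finset.univ : Finset (ZMod p × ZMod p)).filter (fun q => q.1 ≠ 0 ∧ q.2 ≠ 0),
            (if act ((1, q.1, q.2) : G3 p) L = L then wL L else 0) = 0 := by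
          apply Finset.sum_eq_zero
          intro q _
          rw [if_neg]
          apply hf
          intro h
          have := (Prod.mk.inj h).1
          exact one_ne_zero this
        rw [this, add_zero]
      · simp only [wf]
        rw [if_neg hf, zero_add]
        push Not at hf
        obtain ⟨g, hg0, hg⟩ := hf
        obtain ⟨ha, hb, hi⟩ := stab_all hp hg hS hg0
        -- normalize
        obtain ⟨n, hn⟩ : ∃ n : ℕ, (n : ZMod p) * g.1 = 1 := by
          refine ⟨(g.1⁻¹).val, ?_⟩
          rw [ZMod.natCast_zmod_val, inv_mul_cancel₀ ha]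
        have hng : n • g = ((1, (n : ZMod p) * g.2.1, (n : ZMod p) * g.2.2) : G3 p) := by
          apply Prod.ext
          · show n • g.1 = 1
            rw [nsmul_eq_mul, hn]
          · apply Prod.ext
            · show n • g.2.1 = _
              rw [nsmul_eq_mul]
            · show n • g.2.2 = _
              rw [nsmul_eq_mul]
        have hn0 : (n : ZMod p) ≠ 0 := by
          intro h; rw [h, zero_mul] at hn; exact zero_ne_one hn
        have hfix : act ((1, (n : ZMod p) * g.2.1, (n : ZMod p) * g.2.2) : G3 p) L = L := by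
          rw [← hng]; exact act_nsmul hg n
        rw [Finset.sum_eq_single ((n : ZMod p) * g.2.1, (n : ZMod p) * g.2.2)]
        · rw [if_pos hfix]
        · intro q _ hq
          rw [if_neg]
          intro hq2
          apply hq
          have h3 : act (((1, q.1, q.2) : G3 p) + -((1, (n : ZMod p) * g.2.1, (n : ZMod p) * g.2.2) : G3 p)) L = L := by
            rw [act_add]
            have : act (-((1, (n : ZMod p) * g.2.1, (n : ZMod p) * g.2.2) : G3 p)) L = L := by
              conv_lhs => rw [← hfix]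
              rw [← act_add, neg_add_cancel, act_zero]
            rw [this, hq2]
          by_contra hne
          have h4 := stab_all hp h3 hS (by
            intro h5
            apply hne
            have h6 := add_neg_eq_zero.1 h5
            exact (Prod.mk.inj h6).2)
          apply h4.1
          show (1 : ZMod p) + -1 = 0
          ring
        · intro hmem
          exfalso
          apply hmem
          rw [Finset.mem_filter]
          exact ⟨Finset.mem_univ _, mul_ne_zero hn0 hb, mul_ne_zero hn0 hi⟩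
    · have hw : wL L = 0 := if_neg hS
      simp only [wf, hw]
      simp
  have : AA (oo p) - ∑ q ∈ (Finset.univ : Finset (ZMod p × ZMod p)).filter
      (fun q => q.1 ≠ 0 ∧ q.2 ≠ 0), FF ((1, q.1, q.2) : G3 p) = ∑ L, wf L := by
    rw [AA_eq]
    unfold FF
    rw [Finset.sum_comm, ← Finset.sum_sub_distrib]
    apply Finset.sum_congr rfl
    intro L _
    rw [sub_eq_iff_eq_add]
    exact hsplit L
  rw [this]
  exact hfree

def tv (b : ZMod p) (hb : b ≠ 0) : Perm (W2 p) :=
  Equiv.prodCongrRight (fun c => if c then Equiv.mulLeft₀ b hb else 1)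

def tc (i : ZMod p) (hi : i ≠ 0) : Perm (W2 p) :=
  Equiv.prodCongrRight (fun c => if c then 1 else Equiv.mulLeft₀ i hi)

theorem FF_eq {b i : ZMod p} (hb : b ≠ 0) (hi : i ≠ 0) :
    FF ((1, b, i) : G3 p) = FF ((1, 1, 1) : G3 p) := by
  classical
  unfold FF
  let e : (W2 p → Perm (W2 p)) ≃ (W2 p → Perm (W2 p)) :=
    { toFun := RR (tv b hb) (tc i hi)
      invFun := RR (tv b hb)⁻¹ (tc i hi)⁻¹
      left_inv := by
        intro L
        rw [RR_mul, inv_mul_cancel, inv_mul_cancel, RR_one]
      right_inv := by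
        intro L
        rw [RR_mul, mul_inv_cancel, mul_inv_cancel, RR_one] }
  rw [← e.sum_comp]
  apply Finset.sum_congr rfl
  intro L _
  have ho : tc i hi (oo p) = oo p := rfl
  have e1 : wL (e L) = wL L := wL_RR ho L
  have h1 : tv b hb * rho ((1, 1, 1) : G3 p) = rho ((1, b, i) : G3 p) * tv b hb := by
    ext1 v
    obtain ⟨c, x⟩ := v
    rw [Perm.mul_apply, Perm.mul_apply]
    cases c
    · simp [tv, rho_apply]
    · simp only [tv, rho_apply, Equiv.prodCongrRight_apply, if_true, Equiv.mulLeft₀_apply]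
      rw [mul_add, mul_one]
  have h2 : tc i hi * kap2 ((1, 1, 1) : G3 p) = kap2 ((1, b, i) : G3 p) * tc i hi := by
    ext1 v
    obtain ⟨c, x⟩ := v
    rw [Perm.mul_apply, Perm.mul_apply]
    cases c
    · simp only [tc, kap2_apply, Equiv.prodCongrRight_apply, Bool.false_eq_true, if_false,
        Equiv.mulLeft₀_apply]
      rw [mul_add, mul_one]
    · simp [tc, kap2_apply]
  have h3 : act ((1, b, i) : G3 p) (e L) = e (act ((1, 1, 1) : G3 p) L) := by
    show act ((1, b, i) : G3 p) (RR (tv b hb) (tc i hi) L) = RR (tv b hb) (tc i hi) (act ((1, 1, 1) : G3 p) L)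
    rw [act_eq_RR, act_eq_RR, RR_mul, RR_mul, h1, h2]
  rw [h3, e1]
  simp only [e.injective.eq_iff]

theorem AA_mod' (hp : p ≠ 2) : ((p : ℤ) ^ 3) ∣ AA (oo p) -
    ((p : ℤ) - 1) ^ 2 * FF ((1, 1, 1) : G3 p) := by
  classical
  have h := AA_mod (p := p) hp
  have h2 : ∑ q ∈ (Finset.univ : Finset (ZMod p × ZMod p)).filter (fun q => q.1 ≠ 0 ∧ q.2 ≠ 0),
      FF ((1, q.1, q.2) : G3 p) = ((p : ℤ) - 1) ^ 2 * FF ((1, 1, 1) : G3 p) := by
    rw [Finset.sum_congr rfl (fun q hq => FF_eq (Finset.mem_filter.1 hq).2.1 (Finset.mem_filter.1 hq).2.2)]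
    rw [Finset.sum_const, nsmul_eq_mul]
    congr 1
    have h3 : (Finset.univ : Finset (ZMod p × ZMod p)).filter (fun q => q.1 ≠ 0 ∧ q.2 ≠ 0) =
        (Finset.univ.filter (fun x : ZMod p => x ≠ 0)) ×ˢ (Finset.univ.filter (fun x : ZMod p => x ≠ 0)) := by
      ext q
      simp [Finset.mem_product]
    have h4 : (Finset.univ.filter (fun x : ZMod p => x ≠ 0)).card = p - 1 := by
      rw [Finset.filter_ne', Finset.card_erase_of_mem (Finset.mem_univ _), Finset.card_univ, ZMod.card]
    rw [h3, Finset.card_product, h4]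
    have h5 : 1 ≤ p := (Fact.out : p.Prime).one_le
    rw [Nat.cast_mul, Nat.cast_sub h5]
    push_cast
    ring
  rwa [h2] at h

abbrev gx (x : ZMod p) : G3 p := (x, x, x)

theorem perm_ext_off {X : Type} [DecidableEq X] {f g : Perm X} (a : X) (h : ∀ x, x ≠ a → f x = g x) : f = g := by
  have ha : f a = g a := by
    obtain ⟨k, hk⟩ := g.surjective (f a)
    by_cases hka : k = a
    · rw [← hk, hka]
    · rw [← h k hka] at hk
      exact absurd (f.injective hk) hka
  ext1 x
  by_cases hx : x = a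
  · rw [hx, ha]
  · exact h x hx

/-- block permutation -/
def Bl (φ β : Perm (ZMod p)) : Perm (W2 p) :=
  Equiv.prodCongrRight (fun c => if c then β else φ)

def flp : Perm (W2 p) := Equiv.prodCongrLeft (fun _ : ZMod p => Equiv.boolNot)

theorem Bl_false (φ β : Perm (ZMod p)) (x : ZMod p) : Bl φ β (false, x) = (false, φ x) := rfl

theorem Bl_true (φ β : Perm (ZMod p)) (x : ZMod p) : Bl φ β (true, x) = (true, β x) := rfl

theorem flp_apply (c : Bool) (x : ZMod p) : flp ((c, x) : W2 p) = (!c, x) := rfl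

theorem sign_Bl (φ β : Perm (ZMod p)) : sign (Bl φ β) = sign β * sign φ := by
  unfold Bl
  rw [sign_prodCongrRight, Fintype.prod_bool]
  simp

def RA (φ β : Perm (ZMod p)) (y0 : ZMod p) : Perm (W2 p) :=
  Bl φ β * swap (false, 0) (true, y0)

def RB (ψ β : Perm (ZMod p)) (y0 : ZMod p) : Perm (W2 p) :=
  Bl ψ (β * Equiv.neg (ZMod p)) * flp * swap (true, 0) (false, -y0)

theorem RA1 {φ β : Perm (ZMod p)} {y0 : ZMod p} {y : ZMod p} (hy : y ≠ 0) :
    RA φ β y0 (false, y) = (false, φ y) := by
  unfold RA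
  rw [Perm.mul_apply, swap_ne', Bl_false]
  · intro h; exact hy (Prod.mk.inj h).2
  · intro h; exact absurd (Prod.mk.inj h).1 (by simp)

theorem RA2 {φ β : Perm (ZMod p)} {y0 : ZMod p} (hβ : β y0 = 0) :
    RA φ β y0 (false, 0) = (true, 0) := by
  unfold RA
  rw [Perm.mul_apply, swap_apply_left, Bl_true, hβ]

theorem RA3 {φ β : Perm (ZMod p)} {y0 : ZMod p} {y : ZMod p} (hy : y ≠ y0) :
    RA φ β y0 (true, y) = (true, β y) := by
  unfold RA
  rw [Perm.mul_apply, swap_ne', Bl_true]
  · intro h; exact absurd (Prod.mk.inj h).1 (by simp)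
  · intro h; exact hy (Prod.mk.inj h).2

theorem RA4 {φ β : Perm (ZMod p)} {y0 : ZMod p} : RA φ β y0 (true, y0) = (false, φ 0) := by
  unfold RA
  rw [Perm.mul_apply, swap_apply_right, Bl_false]

theorem RB1 {ψ β : Perm (ZMod p)} {y0 : ZMod p} {y : ZMod p} (hy : y ≠ 0) :
    RB ψ β y0 (true, y) = (false, ψ y) := by
  unfold RB
  rw [Perm.mul_apply, swap_ne', Perm.mul_apply, flp_apply]
  · rfl
  · intro h; exact hy (Prod.mk.inj h).2
  · intro h; exact absurd (Prod.mk.inj h).1 (by simp)

theorem RB2 {ψ β : Perm (ZMod p)} {y0 : ZMod p} (hβ : β y0 = 0) :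
    RB ψ β y0 (true, 0) = (true, 0) := by
  unfold RB
  rw [Perm.mul_apply, swap_apply_left, Perm.mul_apply, flp_apply, Bool.not_false, Bl_true,
    Perm.mul_apply, Equiv.neg_apply, neg_neg, hβ]

theorem RB3 {ψ β : Perm (ZMod p)} {y0 : ZMod p} {y : ZMod p} (hy : y ≠ -y0) :
    RB ψ β y0 (false, y) = (true, β (-y)) := by
  unfold RB
  rw [Perm.mul_apply, swap_ne', Perm.mul_apply, flp_apply, Bool.not_false, Bl_true,
    Perm.mul_apply, Equiv.neg_apply]
  · intro h; exact absurd (Prod.mk.inj h).1 (by simp)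
  · intro h; exact hy (Prod.mk.inj h).2

theorem RB4 {ψ β : Perm (ZMod p)} {y0 : ZMod p} : RB ψ β y0 (false, -y0) = (false, ψ 0) := by
  unfold RB
  rw [Perm.mul_apply, swap_apply_right, Perm.mul_apply, flp_apply]
  rfl

/-- the row at vertex `(c,0)` -/
def R0 (φ ψ β : Perm (ZMod p)) (c : Bool) : Perm (W2 p) :=
  if c then RB ψ β (φ 0 - ψ 0) else RA φ β (φ 0 - ψ 0)

/-- the invariant family -/
def fam (φ ψ β : Perm (ZMod p)) : W2 p → Perm (W2 p) :=
  fun v => kap2 (gx v.2) * R0 φ ψ β v.1 * (rho (gx v.2))⁻¹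

theorem fam_apply (φ ψ β : Perm (ZMod p)) (c c' : Bool) (x y : ZMod p) :
    fam φ ψ β (c, x) (c', x + y) = kap2 (gx x) (R0 φ ψ β c (c', y)) := by
  unfold fam
  have h : ((c', x + y) : W2 p) = rho (gx x) (c', y) := by
    rw [rho_apply]
    cases c' <;> simp
  rw [h, Perm.mul_apply, Perm.mul_apply, inv_app]

theorem kap2_gx (x : ZMod p) (z : ZMod p) : kap2 (gx x) (false, z) = (false, x + z) := by
  rw [kap2_apply]; simp

theorem kap2_gx' (x : ZMod p) (z : ZMod p) : kap2 (gx x) (true, z) = (true, z) := by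
  rw [kap2_apply]; simp

/-- the starter condition -/
def St (φ : Perm (ZMod p)) : Prop := ∀ k, φ k = k + φ (-k)

theorem fam_sym {φ ψ β : Perm (ZMod p)} (h1 : St φ) (h2 : St ψ) (h3 : β (φ 0 - ψ 0) = 0) :
    Sym (fam φ ψ β) := by
  have hdiag : ∀ v, fam φ ψ β v v = oo p := by
    rintro ⟨c, x⟩
    have := fam_apply φ ψ β c c x 0
    rw [add_zero] at this
    rw [this]
    cases c
    · show kap2 (gx x) (RA φ β (φ 0 - ψ 0) (false, 0)) = _
      rw [RA2 h3, kap2_gx']
    · show kap2 (gx x) (RB ψ β (φ 0 - ψ 0) (true, 0)) = _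
      rw [RB2 h3, kap2_gx']
  refine ⟨?_, hdiag⟩
  have hmix : ∀ x y, fam φ ψ β (false, x) (true, y) = fam φ ψ β (true, y) (false, x) := by
    intro x y
    have e1 := fam_apply φ ψ β false true x (y - x)
    have e2 := fam_apply φ ψ β true false y (x - y)
    rw [add_sub_cancel] at e1 e2
    rw [e1, e2]
    show kap2 (gx x) (RA φ β (φ 0 - ψ 0) (true, y - x)) = kap2 (gx y) (RB ψ β (φ 0 - ψ 0) (false, x - y))
    by_cases hy : y - x = φ 0 - ψ 0
    · have hy2 : x - y = -(φ 0 - ψ 0) := by rw [← hy]; ring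
      rw [hy, hy2, RA4, RB4, kap2_gx, kap2_gx]
      congr 1
      have : y = x + (φ 0 - ψ 0) := by rw [← hy]; ring
      rw [this]; ring
    · have hy2 : x - y ≠ -(φ 0 - ψ 0) := by
        intro h; apply hy
        have : y - x = -(x - y) := by ring
        rw [this, h, neg_neg]
      rw [RA3 hy, RB3 hy2, kap2_gx', kap2_gx', neg_sub]
  rintro ⟨c, x⟩ ⟨c', y⟩
  by_cases hxy : ((c, x) : W2 p) = (c', y)
  · rw [hxy]
  cases c <;> cases c'
  · have hne : y - x ≠ 0 := by
      intro h; apply hxy; rw [sub_eq_zero.1 h]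
    have hne' : x - y ≠ 0 := by
      intro h; apply hxy; rw [sub_eq_zero.1 h]
    have e1 := fam_apply φ ψ β false false x (y - x)
    have e2 := fam_apply φ ψ β false false y (x - y)
    rw [add_sub_cancel] at e1 e2
    rw [e1, e2]
    show kap2 (gx x) (RA φ β (φ 0 - ψ 0) (false, y - x)) = kap2 (gx y) (RA φ β (φ 0 - ψ 0) (false, x - y))
    rw [RA1 hne, RA1 hne', kap2_gx, kap2_gx, h1 (y - x), neg_sub]
    congr 1
    ring
  · exact hmix x y
  · exact (hmix y x).symm
  · have hne : y - x ≠ 0 := by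
      intro h; apply hxy; rw [sub_eq_zero.1 h]
    have hne' : x - y ≠ 0 := by
      intro h; apply hxy; rw [sub_eq_zero.1 h]
    have e1 := fam_apply φ ψ β true true x (y - x)
    have e2 := fam_apply φ ψ β true true y (x - y)
    rw [add_sub_cancel] at e1 e2
    rw [e1, e2]
    show kap2 (gx x) (RB ψ β (φ 0 - ψ 0) (true, y - x)) = kap2 (gx y) (RB ψ β (φ 0 - ψ 0) (true, x - y))
    rw [RB1 hne, RB1 hne', kap2_gx, kap2_gx, h2 (y - x), neg_sub]
    congr 1
    ring

theorem fam_fixed (φ ψ β : Perm (ZMod p)) : act ((1, 1, 1) : G3 p) (fam φ ψ β) = fam φ ψ β := by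
  funext v
  ext1 w
  obtain ⟨⟨c, x⟩, rfl⟩ := (rho ((1, 1, 1) : G3 p)).surjective v
  obtain ⟨⟨c', y⟩, rfl⟩ := (rho ((1, 1, 1) : G3 p)).surjective w
  rw [act_apply, rho_apply, rho_apply]
  have h1 : (if c then (1 : ZMod p) else 1) + x = x + 1 := by cases c <;> simp [add_comm]
  have h2 : (if c' then (1 : ZMod p) else 1) + y = (x + 1) + (y - x) := by cases c' <;> simp <;> ring
  show kap2 (1, 1, 1) (fam φ ψ β (c, x) (c', y)) =
    fam φ ψ β (c, (if c then (1 : ZMod p) else 1) + x) (c', (if c' then (1 : ZMod p) else 1) + y)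
  rw [h1, h2, fam_apply]
  have h3 := fam_apply φ ψ β c c' x (y - x)
  rw [add_sub_cancel] at h3
  rw [h3, ← Perm.mul_apply, ← kap2_add]
  congr 2
  show ((1 + x, 1 + x, 1 + x) : G3 p) = (x + 1, x + 1, x + 1)
  rw [add_comm]

theorem fam_inj {φ ψ β φ' ψ' β' : Perm (ZMod p)} (h : fam φ ψ β = fam φ' ψ' β') :
    φ = φ' ∧ ψ = ψ' ∧ β = β' := by
  have hrow : ∀ c w, R0 φ ψ β c w = R0 φ' ψ' β' c w := by
    rintro c ⟨c', y⟩
    have h1 := fam_apply φ ψ β c c' 0 y
    have h2 := fam_apply φ' ψ' β' c c' 0 y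
    rw [h, h2] at h1
    exact ((kap2 (gx 0)).injective h1).symm
  have hφ : φ = φ' := by
    apply perm_ext_off 0
    intro y hy
    have := hrow false (false, y)
    have h' : RA φ β (φ 0 - ψ 0) (false, y) = RA φ' β' (φ' 0 - ψ' 0) (false, y) := this
    rw [RA1 hy, RA1 hy] at h'
    exact (Prod.mk.inj h').2
  have hψ : ψ = ψ' := by
    apply perm_ext_off 0
    intro y hy
    have := hrow true (true, y)
    have h' : RB ψ β (φ 0 - ψ 0) (true, y) = RB ψ' β' (φ' 0 - ψ' 0) (true, y) := this
    rw [RB1 hy, RB1 hy] at h'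
    exact (Prod.mk.inj h').2
  refine ⟨hφ, hψ, ?_⟩
  subst hφ
  subst hψ
  apply perm_ext_off (φ 0 - ψ 0)
  intro y hy
  have := hrow false (true, y)
  have h' : RA φ β (φ 0 - ψ 0) (true, y) = RA φ β' (φ 0 - ψ 0) (true, y) := this
  rw [RA3 hy, RA3 hy] at h'
  exact (Prod.mk.inj h').2

theorem bnot_of_ne {c c' : Bool} (h : ¬ c' = c) : c' = !c := by
  revert h; cases c <;> cases c' <;> simp

theorem fam_surj {L : W2 p → Perm (W2 p)} (hp : p ≠ 2) (hS : Sym L)
    (hL : act ((1, 1, 1) : G3 p) L = L) :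
    ∃ φ ψ β : Perm (ZMod p), St φ ∧ St ψ ∧ β (φ 0 - ψ 0) = 0 ∧ fam φ ψ β = L := by
  classical
  have hinv : ∀ (x : ZMod p) (c c' : Bool) (y z : ZMod p),
      L (c, x + y) (c', x + z) = kap2 (gx x) (L (c, y) (c', z)) := by
    intro x c c' y z
    have h1 : act (gx x) L = L := by
      have := act_nsmul hL x.val
      have h2 : x.val • ((1, 1, 1) : G3 p) = gx x := by
        show ((x.val • (1 : ZMod p), x.val • (1 : ZMod p), x.val • (1 : ZMod p)) : G3 p) = _
        rw [nsmul_eq_mul, mul_one, ZMod.natCast_zmod_val]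
      rwa [h2] at this
    have h2 := act_apply (gx x) L (c, y) (c', z)
    rw [h1, rho_apply, rho_apply] at h2
    have h3 : ∀ c : Bool, (if c then (gx x).2.1 else (gx x).1) = x := by intro c; cases c <;> rfl
    rw [h3, h3] at h2
    exact h2
  have h2ne : ∀ y : ZMod p, y ≠ 0 → -y ≠ y := by
    intro y hy h
    have h1 : (2 : ZMod p) * y = 0 := by
      rw [two_mul]
      nth_rewrite 1 [← h]
      ring
    rcases mul_eq_zero.1 h1 with h6 | h6
    · have h7 : ((2 : ℕ) : ZMod p) = 0 := by exact_mod_cast h6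
      rw [ZMod.natCast_eq_zero_iff] at h7
      exact hp ((Nat.prime_dvd_prime_iff_eq (Fact.out : p.Prime) Nat.prime_two).1 h7)
    · exact hy h6
  -- inside a block
  have hswap : ∀ (c c' : Bool) (y : ZMod p), L (c, 0) (c', y) = kap2 (gx y) (L (c', 0) (c, -y)) := by
    intro c c' y
    rw [hS.1, ← hinv]
    rw [add_zero, add_neg_cancel]
  have hin : ∀ (c : Bool) (y : ZMod p), y ≠ 0 → L (c, 0) (c, y) = (false, (L (c, 0) (c, y)).2) := by
    intro c y hy
    refine Prod.ext ?_ rfl
    by_contra hc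
    have hc' : (L (c, 0) (c, y)).1 = true := by simpa using hc
    have h1 := hswap c c (-y)
    rw [neg_neg] at h1
    have h2 : L (c, 0) (c, y) = (true, (L (c, 0) (c, y)).2) := Prod.ext hc' rfl
    rw [h2, kap2_gx', ← h2] at h1
    have h3 := (L (c, 0)).injective h1
    exact h2ne y hy (Prod.mk.inj h3).2
  have hst : ∀ (c : Bool) (y : ZMod p), y ≠ 0 → (L (c, 0) (c, y)).2 = y + (L (c, 0) (c, -y)).2 := by
    intro c y hy
    have h1 := hswap c c y
    have hy' : -y ≠ 0 := neg_ne_zero.2 hy
    rw [hin c (-y) hy', kap2_gx] at h1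
    rw [h1]
  have hinj : ∀ (c : Bool) (y z : ZMod p), y ≠ 0 → z ≠ 0 → (L (c, 0) (c, y)).2 = (L (c, 0) (c, z)).2 → y = z := by
    intro c y z hy hz h
    have h1 : L (c, 0) (c, y) = L (c, 0) (c, z) := by
      rw [hin c y hy, hin c z hz, h]
    exact (Prod.mk.inj ((L (c, 0)).injective h1)).2
  -- the missing colour
  have hmiss : ∀ c : Bool, ∃ z : ZMod p, ∀ y, y ≠ 0 → (L (c, 0) (c, y)).2 ≠ z := by
    intro c
    by_contra hno
    push Not at hno
    choose f hf1 hf2 using hno
    have hfi : Function.Injective f := by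
      intro z z' hz
      rw [← hf2 z, ← hf2 z', hz]
    have hfs := Finite.injective_iff_surjective.1 hfi
    obtain ⟨z, hz⟩ := hfs 0
    exact hf1 z hz
  choose z hz using hmiss
  let Fc : Bool → ZMod p → ZMod p := fun c y => if y = 0 then z c else (L (c, 0) (c, y)).2
  have Fc0 : ∀ c, Fc c 0 = z c := fun c => if_pos rfl
  have Fc1 : ∀ c y, y ≠ 0 → Fc c y = (L (c, 0) (c, y)).2 := fun c y hy => if_neg hy
  have hFi : ∀ c, Function.Injective (Fc c) := by
    intro c y y' h
    by_cases hy : y = 0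
    · by_cases hy' : y' = 0
      · rw [hy, hy']
      · rw [hy, Fc0, Fc1 c y' hy'] at h
        exact absurd h.symm (hz c y' hy')
    · by_cases hy' : y' = 0
      · rw [hy', Fc0, Fc1 c y hy] at h
        exact absurd h (hz c y hy)
      · rw [Fc1 c y hy, Fc1 c y' hy'] at h
        exact hinj c y y' hy hy' h
  let Φ : Bool → Perm (ZMod p) := fun c => Equiv.ofBijective (Fc c) (Finite.injective_iff_bijective.1 (hFi c))
  have Φ0 : ∀ c, Φ c 0 = z c := Fc0
  have Φ1 : ∀ c y, y ≠ 0 → L (c, 0) (c, y) = (false, Φ c y) := by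
    intro c y hy
    rw [hin c y hy]
    congr 1
    exact (Fc1 c y hy).symm
  have ΦS : ∀ c, St (Φ c) := by
    intro c k
    by_cases hk : k = 0
    · rw [hk, neg_zero, zero_add]
    · show Fc c k = k + Fc c (-k)
      rw [Fc1 c k hk, Fc1 c (-k) (neg_ne_zero.2 hk)]
      exact hst c k hk
  have hexy : ∀ c : Bool, ∃ y, L (c, 0) (!c, y) = (false, z c) := by
    intro c
    obtain ⟨⟨c', y⟩, hy⟩ := (L (c, 0)).surjective (false, z c)
    by_cases hc : c' = c
    · subst hc
      by_cases hy0 : y = 0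
      · rw [hy0, hS.2] at hy
        exact absurd (Prod.mk.inj hy).1 (by simp)
      · rw [Φ1 _ y hy0] at hy
        have := (Prod.mk.inj hy).2
        rw [← Φ0] at this
        exact absurd ((Φ c').injective this) hy0
    · have := bnot_of_ne hc
      subst this
      exact ⟨y, hy⟩
  choose yc hyc using hexy
  have hout : ∀ (c : Bool) (y : ZMod p), y ≠ yc c → L (c, 0) (!c, y) = (true, (L (c, 0) (!c, y)).2) := by
    intro c y hy
    refine Prod.ext ?_ rfl
    by_contra hc
    have hc' : (L (c, 0) (!c, y)).1 = false := by simpa using hc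
    have h2 : L (c, 0) (!c, y) = (false, (L (c, 0) (!c, y)).2) := Prod.ext hc' rfl
    obtain ⟨k, hk⟩ := (Φ c).surjective (L (c, 0) (!c, y)).2
    by_cases hk0 : k = 0
    · rw [hk0, Φ0] at hk
      rw [← hk, ← hyc c] at h2
      exact hy (Prod.mk.inj ((L (c, 0)).injective h2)).2
    · have h3 := Φ1 c k hk0
      rw [hk, ← h2] at h3
      have := (Prod.mk.inj ((L (c, 0)).injective h3)).1
      cases c <;> simp at this
  -- compare the two exceptional points
  have hyy : yc true = - yc false ∧ z true = z false - yc false := by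
    have h1 := hswap true false (-(yc false))
    rw [neg_neg] at h1
    have h2 : L (false, 0) (true, yc false) = (false, z false) := hyc false
    rw [h2, kap2_gx] at h1
    have h3 : yc true = -(yc false) := by
      by_contra hne
      have h4 := hout true (-(yc false)) (Ne.symm hne)
      have h5 : L (true, 0) (!true, -(yc false)) = L (true, 0) (false, -(yc false)) := rfl
      rw [h5, h1] at h4
      exact absurd (Prod.mk.inj h4).1 (by simp)
    refine ⟨h3, ?_⟩
    have h6 : L (true, 0) (false, yc true) = (false, z true) := hyc true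
    rw [h3, h1] at h6
    have := (Prod.mk.inj h6).2
    rw [← this]; ring
  have hy0 : yc false = Φ false 0 - Φ true 0 := by
    rw [Φ0, Φ0, hyy.2]; ring
  let Bc : ZMod p → ZMod p := fun y => if y = yc false then 0 else (L (false, 0) (true, y)).2
  have hout' : ∀ y, y ≠ yc false → L (false, 0) (true, y) = (true, (L (false, 0) (true, y)).2) :=
    fun y hy => hout false y hy
  have hBi : Function.Injective Bc := by
    have hzero : ∀ y, y ≠ yc false → (L (false, 0) (true, y)).2 ≠ 0 := by
      intro y hy h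
      have h1 := hout' y hy
      rw [h] at h1
      have h2 : L (false, 0) (true, y) = L (false, 0) (false, 0) := by rw [h1, hS.2]
      exact absurd (Prod.mk.inj ((L (false, 0)).injective h2)).1 (by simp)
    intro y y' h
    simp only [Bc] at h
    by_cases hy : y = yc false
    · by_cases hy' : y' = yc false
      · rw [hy, hy']
      · rw [if_pos hy, if_neg hy'] at h
        exact absurd h.symm (hzero y' hy')
    · by_cases hy' : y' = yc false
      · rw [if_pos hy', if_neg hy] at h
        exact absurd h (hzero y hy)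
      · rw [if_neg hy, if_neg hy'] at h
        have h1 : L (false, 0) (true, y) = L (false, 0) (true, y') := by
          rw [hout' y hy, hout' y' hy', h]
        exact (Prod.mk.inj ((L (false, 0)).injective h1)).2
  let β : Perm (ZMod p) := Equiv.ofBijective Bc (Finite.injective_iff_bijective.1 hBi)
  have hβ0 : β (yc false) = 0 := if_pos rfl
  have hβ1 : ∀ y, y ≠ yc false → L (false, 0) (true, y) = (true, β y) := by
    intro y hy
    rw [hout' y hy]
    congr 1
    exact (if_neg hy).symm
  refine ⟨Φ false, Φ true, β, ΦS false, ΦS true, by rw [← hy0, hβ0], ?_⟩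
  have hrow : ∀ c w, R0 (Φ false) (Φ true) β c w = L (c, 0) w := by
    rintro c ⟨c', y⟩
    cases c
    · show RA (Φ false) β (Φ false 0 - Φ true 0) (c', y) = _
      rw [← hy0]
      cases c'
      · by_cases hy : y = 0
        · rw [hy, RA2 hβ0, hS.2]
        · rw [RA1 hy, Φ1 false y hy]
      · by_cases hy : y = yc false
        · rw [hy, RA4, Φ0]
          exact (hyc false).symm
        · rw [RA3 hy, hβ1 y hy]
    · show RB (Φ true) β (Φ false 0 - Φ true 0) (c', y) = _
      rw [← hy0]
      cases c'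
      · by_cases hy : y = -(yc false)
        · rw [hy, RB4, Φ0, ← hyy.1]
          exact (hyc true).symm
        · rw [RB3 hy]
          have h1 := hswap true false y
          have h2 : -y ≠ yc false := by
            intro h; apply hy; rw [← h, neg_neg]
          rw [hβ1 (-y) h2, kap2_gx'] at h1
          exact h1.symm
      · by_cases hy : y = 0
        · rw [hy, RB2 hβ0, hS.2]
        · rw [RB1 hy, Φ1 true y hy]
  funext v
  ext1 w
  obtain ⟨c, x⟩ := v
  obtain ⟨c', y⟩ := w
  have h1 := fam_apply (Φ false) (Φ true) β c c' x (y - x)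
  have h2 := hinv x c c' 0 (y - x)
  rw [add_sub_cancel] at h1 h2
  rw [add_zero] at h2
  rw [h1, h2, hrow]

theorem al (z x : ZMod p) : Equiv.addLeft z x = z + x := rfl

/-- the constant sign -/
noncomputable def eps (p : ℕ) [Fact p.Prime] : ℤˣ := sign (Equiv.neg (ZMod p)) * sign (flp : Perm (W2 p))

theorem odd_pow_unit {n : ℕ} (hn : Odd n) (u : ℤˣ) : u ^ n = u := by
  obtain ⟨k, rfl⟩ := hn
  rw [pow_add, pow_mul, Int.units_sq, one_pow, one_mul, pow_one]

theorem sign_fam (hp : p ≠ 2) (φ ψ β : Perm (ZMod p)) :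
    ∏ v, sign (fam φ ψ β v) = eps p * (sign φ * sign ψ) := by
  have hodd := (Fact.out : p.Prime).odd_of_ne_two hp
  have h1 : ∏ v, sign (fam φ ψ β v) =
      ∏ c : Bool, ((∏ x : ZMod p, (sign (kap2 (gx x)) * sign (rho (gx x)))) * sign (R0 φ ψ β c)) := by
    rw [Fintype.prod_prod_type]
    apply Finset.prod_congr rfl
    intro c _
    unfold fam
    simp only [Perm.sign_mul, Perm.sign_inv]
    have h2 : ∀ x : ZMod p, sign (kap2 (gx x)) * sign (R0 φ ψ β c) * sign (rho (gx x)) =
        (sign (kap2 (gx x)) * sign (rho (gx x))) * sign (R0 φ ψ β c) := by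
      intro x
      rw [mul_right_comm]
    rw [Finset.prod_congr rfl (fun x _ => h2 x), Finset.prod_mul_distrib, Finset.prod_const,
      Finset.card_univ, ZMod.card, odd_pow_unit hodd]
  rw [h1, Fintype.prod_bool]
  have h3 : sign (R0 φ ψ β true) = sign β * sign (Equiv.neg (ZMod p)) * sign ψ *
      sign (flp : Perm (W2 p)) * (-1) := by
    show sign (RB ψ β (φ 0 - ψ 0)) = _
    unfold RB
    rw [Perm.sign_mul, Perm.sign_mul, sign_Bl, Perm.sign_mul, Perm.sign_swap]
    intro h
    exact absurd (Prod.mk.inj h).1 (by simp)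
  have h4 : sign (R0 φ ψ β false) = sign β * sign φ * (-1) := by
    show sign (RA φ β (φ 0 - ψ 0)) = _
    unfold RA
    rw [Perm.sign_mul, sign_Bl, Perm.sign_swap]
    intro h
    exact absurd (Prod.mk.inj h).1 (by simp)
  rw [h3, h4]
  unfold eps
  generalize (∏ x : ZMod p, (sign (kap2 (gx x)) * sign (rho (gx x)))) = P
  have hP := Int.units_mul_self P
  have hβ := Int.units_mul_self (sign β)
  calc P * (sign β * sign (Equiv.neg (ZMod p)) * sign ψ * sign (flp : Perm (W2 p)) * (-1)) *
      (P * (sign β * sign φ * (-1)))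
      = (P * P) * (sign β * sign β) * ((-1) * (-1)) * (sign (Equiv.neg (ZMod p)) *
        sign (flp : Perm (W2 p)) * (sign φ * sign ψ)) := by
        simp only [mul_comm, mul_left_comm, mul_assoc]
    _ = _ := by
        rw [hP, hβ]
        simp

open Classical in
/-- signed number of starter permutations -/
noncomputable def TT (p : ℕ) [Fact p.Prime] : ℤ :=
  ∑ φ ∈ Finset.univ.filter (fun φ : Perm (ZMod p) => St φ), ((sign φ : ℤˣ) : ℤ)

theorem sign_addLeft (hp : p ≠ 2) (z : ZMod p) : sign (Equiv.addLeft z : Perm (ZMod p)) = 1 := by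
  have hodd := (Fact.out : p.Prime).odd_of_ne_two hp
  have h1 : ∀ n : ℕ, (Equiv.addLeft z : Perm (ZMod p)) ^ n = Equiv.addLeft (n • z) := by
    intro n
    induction n with
    | zero => ext1 x; simp
    | succ n ih =>
      rw [pow_succ, ih]
      ext1 x
      rw [Perm.mul_apply, al, al, al, succ_nsmul]
      ring
  have h2 := h1 p
  have h3 : (p • z : ZMod p) = 0 := by
    rw [nsmul_eq_mul, ZMod.natCast_self, zero_mul]
  rw [h3] at h2
  have h4 : (Equiv.addLeft (0 : ZMod p) : Perm (ZMod p)) = 1 := by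
    ext1 x; simp
  rw [h4] at h2
  have h5 := congrArg sign h2
  rw [map_pow, odd_pow_unit hodd, map_one] at h5
  exact h5

theorem card_fixed_val (y : ZMod p) :
    (Finset.univ.filter (fun β : Perm (ZMod p) => β y = 0)).card * p = p.factorial := by
  classical
  have h1 : ∀ z : ZMod p, (Finset.univ.filter (fun β : Perm (ZMod p) => β y = z)).card =
      (Finset.univ.filter (fun β : Perm (ZMod p) => β y = 0)).card := by
    intro z
    apply Finset.card_bij (fun β _ => Equiv.addLeft (-z) * β)
    · intro β hβ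
      rw [Finset.mem_filter] at hβ ⊢
      refine ⟨Finset.mem_univ _, ?_⟩
      rw [Perm.mul_apply, hβ.2, al, neg_add_cancel]
    · intro β _ β' _ h
      exact mul_left_cancel h
    · intro β hβ
      rw [Finset.mem_filter] at hβ
      refine ⟨Equiv.addLeft z * β, ?_, ?_⟩
      · rw [Finset.mem_filter]
        refine ⟨Finset.mem_univ _, ?_⟩
        rw [Perm.mul_apply, hβ.2, al, add_zero]
      · ext1 x
        simp
  have h2 : ∑ z : ZMod p, (Finset.univ.filter (fun β : Perm (ZMod p) => β y = z)).card =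
      Fintype.card (Perm (ZMod p)) := by
    rw [← Finset.card_univ]
    exact (Finset.card_eq_sum_card_fiberwise (fun β _ => Finset.mem_univ (β y))).symm
  rw [Finset.sum_congr rfl (fun z _ => h1 z), Finset.sum_const, Finset.card_univ, ZMod.card,
    Fintype.card_perm, ZMod.card, smul_eq_mul] at h2
  rw [mul_comm]; exact h2

theorem FF_value (hp : p ≠ 2) : ∃ c : ℕ, c * p = p.factorial ∧
    FF ((1, 1, 1) : G3 p) = ((eps p : ℤˣ) : ℤ) * ((c : ℤ) * (TT p * TT p)) := by
  classical
  refine ⟨(Finset.univ.filter (fun β : Perm (ZMod p) => β 0 = 0)).card, card_fixed_val 0, ?_⟩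
  have hc : ∀ y : ZMod p, (Finset.univ.filter (fun β : Perm (ZMod p) => β y = 0)).card =
      (Finset.univ.filter (fun β : Perm (ZMod p) => β 0 = 0)).card := by
    intro y
    have h1 := card_fixed_val y
    have h2 := card_fixed_val (p := p) 0
    exact Nat.eq_of_mul_eq_mul_right (Fact.out : p.Prime).pos (h1.trans h2.symm)
  have h1 : FF ((1, 1, 1) : G3 p) = ∑ t : Perm (ZMod p) × Perm (ZMod p) × Perm (ZMod p),
      if (St t.1 ∧ St t.2.1 ∧ t.2.2 (t.1 0 - t.2.1 0) = 0) then
        ((eps p : ℤˣ) : ℤ) * (((sign t.1 : ℤˣ) : ℤ) * ((sign t.2.1 : ℤˣ) : ℤ)) else 0 := by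
    rw [← Finset.sum_filter]
    unfold FF
    symm
    apply Finset.sum_of_injOn (e := fun t : Perm (ZMod p) × Perm (ZMod p) × Perm (ZMod p) =>
      fam t.1 t.2.1 t.2.2)
    · rintro ⟨φ, ψ, β⟩ _ ⟨φ', ψ', β'⟩ _ h
      obtain ⟨h1, h2, h3⟩ := fam_inj h
      exact Prod.ext h1 (Prod.ext h2 h3)
    · intro t _; simp
    · intro L _ hL
      split_ifs with hc
      · unfold wL
        rw [if_neg]
        intro hS
        apply hL
        obtain ⟨φ, ψ, β, h1, h2, h3, h4⟩ := fam_surj hp hS hc
        refine ⟨(φ, ψ, β), ?_, h4⟩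
        simp only [Finset.coe_filter, Finset.mem_univ, true_and]
        exact ⟨h1, h2, h3⟩
      · rfl
    · rintro ⟨φ, ψ, β⟩ ht
      rw [Finset.mem_filter] at ht
      obtain ⟨-, h1, h2, h3⟩ := ht
      simp only
      rw [if_pos (fam_fixed φ ψ β)]
      unfold wL
      rw [if_pos (fam_sym h1 h2 h3), sign_fam hp]
      push_cast
      rfl
  rw [h1, Fintype.sum_prod_type]
  simp_rw [Fintype.sum_prod_type]
  have h2 : ∀ φ ψ : Perm (ZMod p), (∑ β : Perm (ZMod p),
      if (St φ ∧ St ψ ∧ β (φ 0 - ψ 0) = 0) then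
        ((eps p : ℤˣ) : ℤ) * (((sign φ : ℤˣ) : ℤ) * ((sign ψ : ℤˣ) : ℤ)) else 0) =
      ((eps p : ℤˣ) : ℤ) * (((Finset.univ.filter (fun β : Perm (ZMod p) => β 0 = 0)).card : ℤ) *
        ((if St φ then ((sign φ : ℤˣ) : ℤ) else 0) * (if St ψ then ((sign ψ : ℤˣ) : ℤ) else 0))) := by
    intro φ ψ
    by_cases hφ : St φ
    · by_cases hψ : St ψ
      · simp only [hφ, hψ, true_and, if_true]
        rw [← Finset.sum_filter, Finset.sum_const, hc, nsmul_eq_mul]
        ring
      · simp [hψ]
    · simp [hφ]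
  simp_rw [h2]
  simp_rw [← Finset.mul_sum]
  congr 2
  unfold TT
  rw [← Finset.sum_mul, Finset.sum_filter]

theorem TT_value (hp : p ≠ 2) : TT p = (p : ℤ) *
    ∑ φ ∈ Finset.univ.filter (fun φ : Equiv.Perm (ZMod p) => φ 0 = 0 ∧ ∀ k, φ k = k + φ (-k)),
      ((Equiv.Perm.sign φ : ℤˣ) : ℤ) := by
  classical
  unfold TT
  rw [← Finset.sum_fiberwise _ (fun φ : Perm (ZMod p) => φ 0)]
  have h1 : ∀ z : ZMod p, ∑ φ ∈ (Finset.univ.filter (fun φ : Perm (ZMod p) => St φ)).filter (fun φ => φ 0 = z),
      ((sign φ : ℤˣ) : ℤ) =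
      ∑ φ ∈ Finset.univ.filter (fun φ : Equiv.Perm (ZMod p) => φ 0 = 0 ∧ ∀ k, φ k = k + φ (-k)),
      ((Equiv.Perm.sign φ : ℤˣ) : ℤ) := by
    intro z
    apply Finset.sum_bij (fun φ _ => Equiv.addLeft (-z) * φ)
    · intro φ hφ
      rw [Finset.mem_filter, Finset.mem_filter] at hφ
      rw [Finset.mem_filter]
      refine ⟨Finset.mem_univ _, ?_, ?_⟩
      · rw [Perm.mul_apply, hφ.2, al, neg_add_cancel]
      · intro k
        rw [Perm.mul_apply, Perm.mul_apply, al, al, hφ.1.2 k]
        ring
    · intro φ _ φ' _ h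
      exact mul_left_cancel h
    · intro φ hφ
      rw [Finset.mem_filter] at hφ
      refine ⟨Equiv.addLeft z * φ, ?_, ?_⟩
      · rw [Finset.mem_filter, Finset.mem_filter]
        refine ⟨⟨Finset.mem_univ _, ?_⟩, ?_⟩
        · intro k
          rw [Perm.mul_apply, Perm.mul_apply, al, al, hφ.2.2 k]
          ring
        · rw [Perm.mul_apply, hφ.2.1, al, add_zero]
      · ext1 x
        simp
    · intro φ _
      rw [Perm.sign_mul, sign_addLeft hp, one_mul]
  rw [Finset.sum_congr rfl (fun z _ => h1 z), Finset.sum_const, Finset.card_univ, ZMod.card,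
    nsmul_eq_mul]

theorem AA_ne_zero (hp : p ≠ 2)
    (hS : ¬ ((p : ℤ) ∣ ∑ φ ∈ Finset.univ.filter (fun φ : Equiv.Perm (ZMod p) =>
      φ 0 = 0 ∧ ∀ k, φ k = k + φ (-k)), ((Equiv.Perm.sign φ : ℤˣ) : ℤ))) :
    AA (oo p) ≠ 0 := by
  intro h0
  have h1 := AA_mod' (p := p) hp
  rw [h0, zero_sub, dvd_neg] at h1
  obtain ⟨c, hc1, hc2⟩ := FF_value (p := p) hp
  rw [hc2, TT_value hp] at h1
  set S := ∑ φ ∈ Finset.univ.filter (fun φ : Equiv.Perm (ZMod p) =>
      φ 0 = 0 ∧ ∀ k, φ k = k + φ (-k)), ((Equiv.Perm.sign φ : ℤˣ) : ℤ)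
  have hpp : Prime (p : ℤ) := Nat.prime_iff_prime_int.1 (Fact.out : p.Prime)
  have hp0 : (p : ℤ) ≠ 0 := hpp.ne_zero
  have h2 : (p : ℤ) ^ 2 * (p : ℤ) ∣ (p : ℤ) ^ 2 * (((p : ℤ) - 1) ^ 2 * (((eps p : ℤˣ) : ℤ) * ((c : ℤ) * (S * S)))) := by
    have e1 : (p : ℤ) ^ 2 * (p : ℤ) = (p : ℤ) ^ 3 := by ring
    have e2 : (p : ℤ) ^ 2 * (((p : ℤ) - 1) ^ 2 * (((eps p : ℤˣ) : ℤ) * ((c : ℤ) * (S * S)))) =
        ((p : ℤ) - 1) ^ 2 * (((eps p : ℤˣ) : ℤ) * ((c : ℤ) * ((p : ℤ) * S * ((p : ℤ) * S)))) := by ring
    rw [e1, e2]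
    exact h1
  have h3 := (mul_dvd_mul_iff_left (pow_ne_zero 2 hp0)).1 h2
  rcases hpp.dvd_or_dvd h3 with h4 | h4
  · have h5 := hpp.dvd_of_dvd_pow h4
    have h6 : (p : ℤ) ∣ 1 := by
      have := dvd_sub (dvd_refl (p : ℤ)) h5
      simpa using this
    exact hpp.not_dvd_one h6
  · rcases hpp.dvd_or_dvd h4 with h5 | h5
    · have h6 : IsUnit (((eps p : ℤˣ) : ℤ)) := (eps p).isUnit
      exact hpp.not_isUnit (isUnit_of_dvd_unit h5 h6)
    · rcases hpp.dvd_or_dvd h5 with h6 | h6
      · have h7 : p ∣ c := by exact_mod_cast h6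
        have h8 : c = (p - 1).factorial := by
          have h9 : p.factorial = (p - 1).factorial * p := by
            rw [mul_comm, Nat.mul_factorial_pred (Fact.out : p.Prime).ne_zero]
          rw [h9] at hc1
          exact Nat.eq_of_mul_eq_mul_right (Fact.out : p.Prime).pos hc1
        rw [h8, (Fact.out : p.Prime).dvd_factorial] at h7
        have := (Fact.out : p.Prime).pos
        omega
      · rcases hpp.dvd_or_dvd h6 with h7 | h7 <;> exact hS h7

end Main

theorem LC_embed {V W : Type} [Fintype V] [DecidableEq V] [Fintype W] {d : ℕ}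
    (hW : GG (⊤ : SimpleGraph W) d) {G : SimpleGraph V} [DecidableRel G.Adj] {r : ℕ}
    (hcard : Fintype.card V ≤ Fintype.card W) (h2 : d ≤ G.maxDegree + r) :
    LC (G □ Qc r) (G.maxDegree + r) := by
  classical
  obtain ⟨φ⟩ := Function.Embedding.nonempty_of_card_le hcard
  have hG' : GG (G.map φ) (G.maxDegree + r) := GG_le (GG_mono le_top hW) h2
  have hdeg : ∀ w, (G.map φ).degree w ≤ G.maxDegree := by
    intro w
    by_cases hw : ∃ v, φ v = w
    · obtain ⟨v, rfl⟩ := hw
      refine le_trans ?_ (G.degree_le_maxDegree v)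
      rw [← SimpleGraph.card_neighborFinset_eq_degree, ← SimpleGraph.card_neighborFinset_eq_degree]
      have : (G.map φ).neighborFinset (φ v) ⊆ (G.neighborFinset v).image φ := by
        intro x hx
        rw [SimpleGraph.mem_neighborFinset, SimpleGraph.map_adj] at hx
        obtain ⟨a, b, hab, ha, hb⟩ := hx
        rw [Finset.mem_image]
        refine ⟨b, ?_, hb⟩
        rw [SimpleGraph.mem_neighborFinset]
        rw [← φ.injective ha]
        exact hab
      exact (Finset.card_le_card this).trans Finset.card_image_le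
    · have : (G.map φ).neighborFinset w = ∅ := by
        ext x
        rw [SimpleGraph.mem_neighborFinset, SimpleGraph.map_adj]
        constructor
        · rintro ⟨a, b, hab, ha, hb⟩
          exact (hw ⟨a, ha⟩).elim
        · intro h
          exact absurd h (Finset.notMem_empty _)
      rw [← SimpleGraph.card_neighborFinset_eq_degree, this, Finset.card_empty]
      exact Nat.zero_le _
  have h3 : LC (G.map φ □ Qc r) (G.maxDegree + r) := by
    apply GG_LC
    apply GG_cube _ hG'
    intro v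
    exact Nat.add_le_add_right (hdeg v) r
  apply LC_hom (Prod.map φ id) (φ.injective.prodMap Function.injective_id) _ h3
  rintro ⟨a, x⟩ ⟨b, y⟩ hab
  rw [SimpleGraph.boxProd_adj] at hab ⊢
  rcases hab with ⟨h4, h5⟩ | ⟨h4, h5⟩
  · left
    exact ⟨SimpleGraph.map_adj_apply.2 h4, h5⟩
  · right
    refine ⟨h4, ?_⟩
    simp only at h5
    simp [h5]

/-- the complete graph on `2p` vertices -/
theorem GG_twice {p : ℕ} (hp : p.Prime) :
    ∃ (W : Type) (_ : Fintype W), Fintype.card W = 2 * p ∧ GG (⊤ : SimpleGraph W) (2 * p - 1) := by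
  by_cases hp2 : p = 2
  · subst hp2
    exact ⟨Fin 4, inferInstance, by simp, GG_top (m := 2) (d := 3) rfl (by norm_num)⟩
  · haveI : Fact p.Prime := ⟨hp⟩
    have hA := AA_ne_zero (p := p) hp2 (starter_ne_zero p hp2)
    have hc : Fintype.card (W2 p) = (2 * p - 1) + 1 := by
      rw [card_W2]
      have := hp.pos
      omega
    refine ⟨W2 p, inferInstance, ?_, GG_of_AA (oo p) hc hA⟩
    rw [card_W2, mul_comm]

theorem LC_twice {V : Type} [Fintype V] [DecidableEq V] {G : SimpleGraph V} [DecidableRel G.Adj]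
    {p r : ℕ} (hp : p.Prime) (h1 : Fintype.card V ≤ 2 * p) (h2 : 2 * p ≤ G.maxDegree + r + 1) :
    LC (G □ Qc r) (G.maxDegree + r) := by
  obtain ⟨W, hW, hcard, hGG⟩ := GG_twice hp
  exact LC_embed hGG (by rw [hcard]; exact h1) (by omega)

end Pool.Agent.Helper15.K2p
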