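import Mathlib

set_option autoImplicit false

/-! Maximum independent sets in 1-perfectly orientable graphs: the combinatorial core.
`R a b` means that the edge `ab` is directed from `a` to `b`. -/

namespace Pool.Agent.Helper15.PO

open Finset

variable {V : Type}

/-- adjacency of an oriented graph -/
def Ad (R : V → V → Prop) (a b : V) : Prop := R a b ∨ R b a

theorem Ad.symm {R : V → V → Prop} {a b : V} (h : Ad R a b) : Ad R b a := Or.symm h

/-- the standing hypotheses: a 1-perfect orientation of a connected graph without dominated pairs -/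
structure Hyp (R : V → V → Prop) : Prop where
  irr : ∀ a, ¬ R a a
  asym : ∀ a b, R a b → ¬ R b a
  out : ∀ v a b, R v a → R v b → a ≠ b → Ad R a b
  red : ∀ u v, Ad R u v → ∃ y, Ad R y u ∧ y ≠ v ∧ ¬ Ad R y v
  conn : ∀ X : Set V, X.Nonempty → (∀ x ∈ X, ∀ y, Ad R x y → y ∈ X) → X = Set.univ

variable {R : V → V → Prop}

theorem Hyp.ne (h : Hyp R) {a b : V} (hab : Ad R a b) : a ≠ b := by
  rintro rfl
  exact h.irr a (by rcases hab with h | h <;> exact h)

/-- in-closed sets are everything -/
theorem Hyp.strong [Fintype V] (h : Hyp R) : ∀ (n : ℕ) (X : Finset V), X.card ≤ n → X.Nonempty →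
    (∀ x ∈ X, ∀ y, R y x → y ∈ X) → ∀ z, z ∈ X := by
  classical
  intro n
  induction n with
  | zero =>
    intro X hX hne
    exact absurd (Finset.card_pos.2 hne) (by omega)
  | succ n ih =>
    intro X hX hne hin z0
    by_contra hz0
    by_cases hcl : ∀ x ∈ X, ∀ y, Ad R x y → y ∈ X
    · have := h.conn (X : Set V) (by exact_mod_cast hne) (by simpa using hcl)
      have h2 : z0 ∈ (X : Set V) := by rw [this]; trivial
      exact hz0 (by exact_mod_cast h2)
    · push Not at hcl
      obtain ⟨l, hl, z, hlz, hz⟩ := hcl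
      have hlz' : R l z := by
        rcases hlz with h1 | h1
        · exact h1
        · exact absurd (hin l hl z h1) hz
      have hall : ∀ x ∈ X, R x z := by
        by_contra hcon
        push Not at hcon
        obtain ⟨x0, hx0, hx0z⟩ := hcon
        have := ih (X.filter (fun x => ¬ R x z)) (by
            have : (X.filter (fun x => ¬ R x z)).card < X.card := by
              apply Finset.card_lt_card
              rw [Finset.filter_ssubset]
              exact ⟨l, hl, by simpa using hlz'⟩
            omega) ⟨x0, by simp [hx0, hx0z]⟩ (by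
            intro x hx y hyx
            rw [Finset.mem_filter] at hx ⊢
            have hy : y ∈ X := hin x hx.1 y hyx
            refine ⟨hy, fun hyz => ?_⟩
            have hne' : x ≠ z := fun e => hz (e ▸ hx.1)
            rcases h.out y x z hyx hyz hne' with h1 | h1
            · exact hx.2 h1
            · exact hz (hin x hx.1 z h1)) z
        rw [Finset.mem_filter] at this
        exact hz this.1
      obtain ⟨y, hyl, hyz, hnyz⟩ := h.red l z (Or.inl hlz')
      rcases hyl with h1 | h1
      · exact hnyz (Or.inl (hall y (hin l hl y h1)))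
      · exact hnyz (h.out l y z h1 hlz' hyz)

/-- the pair lemma -/
theorem Hyp.pair [Fintype V] (h : Hyp R) (K : Set V) (hK : ∀ a ∈ K, ∀ b ∈ K, a ≠ b → Ad R a b) :
    ∀ (n : ℕ) (A B : Finset V), A.card + B.card ≤ n → A.Nonempty → B.Nonempty →
    (∀ a ∈ A, ∀ b ∈ B, a ≠ b ∧ ¬ Ad R a b) →
    (∀ a ∈ A, ∀ x, R x a → x ∈ A ∨ x ∈ K) → (∀ b ∈ B, ∀ x, R x b → x ∈ B ∨ x ∈ K) → False := by
  classical
  intro n
  induction n with
  | zero =>
    intro A B hn hA
    exact absurd (Finset.card_pos.2 hA) (by omega)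
  | succ n ih =>
    -- the main step
    have main : ∀ A B : Finset V, A.card + B.card ≤ n + 1 → B.Nonempty →
        (∀ a ∈ A, ∀ b ∈ B, a ≠ b ∧ ¬ Ad R a b) →
        (∀ a ∈ A, ∀ x, R x a → x ∈ A ∨ x ∈ K) → (∀ b ∈ B, ∀ x, R x b → x ∈ B ∨ x ∈ K) →
        ∀ a ∈ A, ∀ b ∈ B, ∀ q r, R q a → R r b → r ∉ A → r ∈ K → R q r → False := by
      intro A B hn hB hAB hAK hBK a ha b hb q r hqa hrb hrA hrK hqr
      have hout : ∀ x ∈ A, ¬ R r x := by
        intro x hx hrx
        exact (hAB x hx b hb).2 (h.out r x b hrx hrb (hAB x hx b hb).1)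
      have har : R a r := by
        have hne : a ≠ r := fun e => hrA (e ▸ ha)
        rcases h.out q a r hqa hqr hne with h1 | h1
        · exact h1
        · exact absurd h1 (hout a ha)
      obtain ⟨y, hya, hyr, hnyr⟩ := h.red a r (Or.inl har)
      have hya' : R y a := by
        rcases hya with h1 | h1
        · exact h1
        · exact absurd (h.out a y r h1 har hyr) hnyr
      have hyA : y ∈ A := by
        rcases hAK a ha y hya' with h1 | h1
        · exact h1
        · exact absurd (hK y h1 r hrK hyr) hnyr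
      refine ih (A.filter (fun x => ¬ R x r)) B ?_ ⟨y, ?_⟩ hB ?_ ?_ hBK
      · have : (A.filter (fun x => ¬ R x r)).card < A.card := by
          apply Finset.card_lt_card
          rw [Finset.filter_ssubset]
          exact ⟨a, ha, by simpa using har⟩
        omega
      · rw [Finset.mem_filter]
        exact ⟨hyA, fun h1 => hnyr (Or.inl h1)⟩
      · intro x hx
        exact hAB x (Finset.mem_filter.1 hx).1
      · intro x hx w hwx
        rw [Finset.mem_filter] at hx
        rcases hAK x hx.1 w hwx with h1 | h1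
        · by_cases hwr : R w r
          · exfalso
            have hne : x ≠ r := fun e => hrA (e ▸ hx.1)
            rcases h.out w x r hwx hwr hne with h2 | h2
            · exact hx.2 h2
            · exact hout x hx.1 h2
          · left; rw [Finset.mem_filter]; exact ⟨h1, hwr⟩
        · right; exact h1
    intro A B hn hA hB hAB hAK hBK
    obtain ⟨a0, ha0⟩ := hA
    obtain ⟨b0, hb0⟩ := hB
    -- entering edges
    have e1 : ∃ a ∈ A, ∃ q, R q a ∧ q ∉ A := by
      by_contra hcon
      push Not at hcon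
      have := h.strong A.card A le_rfl ⟨a0, ha0⟩ (fun x hx y hy => hcon x hx y hy) b0
      exact (hAB b0 this b0 hb0).1 rfl
    have e2 : ∃ b ∈ B, ∃ q, R q b ∧ q ∉ B := by
      by_contra hcon
      push Not at hcon
      have := h.strong B.card B le_rfl ⟨b0, hb0⟩ (fun x hx y hy => hcon x hx y hy) a0
      exact (hAB a0 ha0 a0 this).1 rfl
    obtain ⟨a, ha, q, hqa, hqA⟩ := e1
    obtain ⟨b, hb, r, hrb, hrB⟩ := e2
    have hqK : q ∈ K := (hAK a ha q hqa).resolve_left hqA
    have hrK : r ∈ K := (hBK b hb r hrb).resolve_left hrB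
    have hqr : q ≠ r := by
      rintro rfl
      exact (hAB a ha b hb).2 (h.out q a b hqa hrb (hAB a ha b hb).1)
    have hrA : r ∉ A := by
      intro hrA
      exact (hAB r hrA b hb).2 (Or.inl hrb)
    have hqB : q ∉ B := by
      intro hqB
      exact (hAB a ha q hqB).2 (Or.inr hqa)
    rcases hK q hqK r hrK hqr with h1 | h1
    · exact main A B hn ⟨b0, hb0⟩ hAB hAK hBK a ha b hb q r hqa hrb hrA hrK h1
    · exact main B A (by omega) ⟨a0, ha0⟩ (fun x hx y hy => ⟨(hAB y hy x hx).1.symm,
        fun h2 => (hAB y hy x hx).2 h2.symm⟩) hBK hAK b hb a ha r q hrb hqa hqB hqK h1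

/-- the complement of a closed neighbourhood is connected -/
theorem Hyp.compl_conn [Fintype V] (h : Hyp R) (v : V) (X : Set V)
    (hX : ∀ x ∈ X, x ≠ v ∧ ¬ Ad R x v) (hne : X.Nonempty)
    (hcl : ∀ x ∈ X, ∀ y, Ad R x y → y ≠ v → ¬ Ad R y v → y ∈ X) :
    ∀ y, y ≠ v → ¬ Ad R y v → y ∈ X := by
  classical
  intro y hyv hnyv
  by_contra hy
  refine h.pair {w | R v w} (fun a ha b hb hab => h.out v a b ha hb hab) _
    (Finset.univ.filter (fun x => x ∈ X))
    (Finset.univ.filter (fun x => x ∉ X ∧ x ≠ v ∧ ¬ Ad R x v)) le_rfl ?_ ⟨y, by simp [hy, hyv, hnyv]⟩ ?_ ?_ ?_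
  · obtain ⟨x, hx⟩ := hne
    exact ⟨x, by simp [hx]⟩
  · intro a ha b hb
    simp only [Finset.mem_filter, Finset.mem_univ, true_and] at ha hb
    refine ⟨fun e => hb.1 (e ▸ ha), fun hab => hb.1 (hcl a ha b hab hb.2.1 hb.2.2)⟩
  · intro a ha x hxa
    simp only [Finset.mem_filter, Finset.mem_univ, true_and, Set.mem_ofPred_eq] at ha ⊢
    have hxv : x ≠ v := by
      rintro rfl
      exact (hX a ha).2 (Or.inr hxa)
    by_cases hadj : Ad R x v
    · right
      rcases hadj with h1 | h1
      · exact absurd (h.out x a v hxa h1 (hX a ha).1) (hX a ha).2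
      · exact h1
    · left; exact hcl a ha x (Or.inr hxa) hxv hadj
  · intro b hb x hxb
    simp only [Finset.mem_filter, Finset.mem_univ, true_and, Set.mem_ofPred_eq] at hb ⊢
    have hxv : x ≠ v := by
      rintro rfl
      exact hb.2.2 (Or.inr hxb)
    by_cases hadj : Ad R x v
    · right
      rcases hadj with h1 | h1
      · exact absurd (h.out x b v hxb h1 hb.2.1) hb.2.2
      · exact h1
    · left
      exact ⟨fun hx => hb.1 (hcl x hx b (Or.inl hxb) hb.2.1 hb.2.2), hxv, hadj⟩

/-- in-neighbourhoods are cliques -/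
theorem Hyp.inn [Fintype V] (h : Hyp R) : ∀ v a b, R a v → R b v → a ≠ b → Ad R a b := by
  intro v u u' huv hu'v hne
  by_contra hnad
  -- directed walks outside the closed neighbourhood of v
  let C : V → Prop := fun x => x ≠ v ∧ ¬ Ad R x v
  let st : V → V → Prop := fun x y => R x y ∧ C x ∧ C y
  let W : Set V := {x | C x ∧ ∃ z, R z u ∧ C z ∧ Relation.ReflTransGen st x z}
  have exZ : ∀ w, R w v → ∃ z, R z w ∧ C z := by
    intro w hw
    obtain ⟨y, hy, hyv, hnyv⟩ := h.red w v (Or.inl hw)
    refine ⟨y, ?_, hyv, hnyv⟩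
    rcases hy with h1 | h1
    · exact h1
    · exact absurd (h.out w y v h1 hw hyv) hnyv
  have outcl : ∀ w, R w v → ∀ z, R z w → C z → ∀ y, R z y → C y → R y w := by
    intro w hw z hzw hz y hzy hy
    have hyw : y ≠ w := by
      rintro rfl
      exact hy.2 (Or.inl hw)
    rcases h.out z y w hzy hzw hyw with h1 | h1
    · exact h1
    · exact absurd (h.out w y v h1 hw hy.1) hy.2
  have hWin : ∀ x ∈ W, ∀ y, C y → R y x → y ∈ W := by
    rintro x ⟨hx, z, hz, hzC, hpath⟩ y hy hyx
    exact ⟨hy, z, hz, hzC, Relation.ReflTransGen.head ⟨hyx, hy, hx⟩ hpath⟩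
  have hWout : ∀ x ∈ W, ∀ y, C y → R x y → y ∈ W := by
    rintro x ⟨hx, z, hz, hzC, hpath⟩
    induction hpath using Relation.ReflTransGen.head_induction_on with
    | refl =>
      intro y hy hxy
      exact ⟨hy, y, outcl u huv z hz hzC y hxy hy, hy, Relation.ReflTransGen.refl⟩
    | head hac hcb ih =>
      rename_i a c
      intro y hy hay
      by_cases hyc : y = c
      · subst hyc
        exact ⟨hy, z, hz, hzC, hcb⟩
      · have hcW : c ∈ W := ⟨hac.2.2, z, hz, hzC, hcb⟩
        rcases h.out a y c hay hac.1 hyc with h1 | h1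
        · exact hWin c hcW y hy h1
        · exact ih hac.2.2 y hy h1
  obtain ⟨z1, hz1, hz1C⟩ := exZ u huv
  obtain ⟨z2, hz2, hz2C⟩ := exZ u' hu'v
  have hz2W : z2 ∈ W := by
    refine h.compl_conn v W (fun x hx => hx.1) ⟨z1, hz1C, z1, hz1, hz1C, Relation.ReflTransGen.refl⟩ ?_
      z2 hz2C.1 hz2C.2
    intro x hx y hxy hyv hnyv
    rcases hxy with h1 | h1
    · exact hWout x hx y ⟨hyv, hnyv⟩ h1
    · exact hWin x hx y ⟨hyv, hnyv⟩ h1
  obtain ⟨-, z, hz, hzC, hpath⟩ := hz2W
  have key : R z u' := by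
    clear hz
    induction hpath with
    | refl => exact hz2
    | tail hab hbc ih =>
      exact outcl u' hu'v _ (ih hbc.2.1) hbc.2.1 _ hbc.1 hbc.2.2
  exact hnad (h.out z u u' hz key hne)


/-- a directed triangle inside an out-neighbourhood forces independence number at most two -/
theorem Hyp.tri [Fintype V] (h : Hyp R) (v w0 w1 w2 : V) (hv0 : R v w0) (hv1 : R v w1) (hv2 : R v w2)
    (h01 : R w0 w1) (h12 : R w1 w2) (h20 : R w2 w0) :
    (∀ a b, a ≠ v → ¬ Ad R a v → b ≠ v → ¬ Ad R b v → a ≠ b → Ad R a b) ∧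
    (∀ p r a, R p v → R v r → a ≠ v → ¬ Ad R a v → ¬ Ad R p r → ¬ Ad R p a → p ≠ a → r ≠ a →
      ¬ Ad R r a → False) := by
  have hin := h.inn
  let C : V → Prop := fun x => x ≠ v ∧ ¬ Ad R x v
  have F1 : ∀ w, R v w → ∀ a, C a → Ad R w a → R w a := by
    intro w hw a ha hwa
    rcases hwa with h1 | h1
    · exact h1
    · exact absurd (hin w a v h1 hw ha.1) ha.2
  have F2 : ∀ y, R y v → ∀ a, C a → Ad R y a → R a y := by
    intro y hy a ha hya
    rcases hya with h1 | h1
    · exact absurd (h.out y a v h1 hy ha.1) ha.2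
    · exact h1
  have F3 : ∀ r r', R v r → R v r' → R r r' → ∀ b, C b → R r b → R r' b := by
    intro r r' hr hr' hrr b hb hrb
    have hne : r' ≠ b := by
      rintro rfl
      exact hb.2 (Or.inr hr')
    exact F1 r' hr' b hb (h.out r r' b hrr hrb hne)
  -- all three have the same neighbours outside
  have B01 : ∀ b, C b → R w0 b → R w1 b := F3 w0 w1 hv0 hv1 h01
  have B12 : ∀ b, C b → R w1 b → R w2 b := F3 w1 w2 hv1 hv2 h12
  have B20 : ∀ b, C b → R w2 b → R w0 b := F3 w2 w0 hv2 hv0 h20
  -- the vertex b0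
  obtain ⟨b0, hb0, hb0ne, hb0n⟩ := h.red w1 w0 (Or.inr h01)
  have hw1b0 : R w1 b0 := by
    rcases hb0 with h1 | h1
    · exact absurd (hin w1 b0 w0 h1 h01 hb0ne) hb0n
    · exact h1
  have hb0v : b0 ≠ v := by
    rintro rfl
    exact hb0n (Or.inl hv0)
  have hb0P : R b0 v := by
    by_cases hadj : Ad R b0 v
    · rcases hadj with h1 | h1
      · exact h1
      · exact absurd (h.out v b0 w0 h1 hv0 hb0ne) hb0n
    · exact absurd (Or.inr (B20 b0 ⟨hb0v, hadj⟩ (B12 b0 ⟨hb0v, hadj⟩ hw1b0))) hb0n
  have hb0w2 : R b0 w2 := by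
    have hne : b0 ≠ w2 := by
      rintro rfl
      exact h.asym _ _ hb0P hv2
    rcases h.out w1 b0 w2 hw1b0 h12 hne with h1 | h1
    · exact h1
    · exact absurd (h.out w2 b0 w0 h1 h20 hb0ne) hb0n
  -- B is contained in the neighbourhood of b0
  have hBb0 : ∀ b, C b → R w1 b → R b b0 := by
    intro b hb hwb
    have hne : b ≠ b0 := by
      rintro rfl
      exact hb.2 (Or.inl hb0P)
    exact F2 b0 hb0P b hb (h.out w1 b b0 hwb hw1b0 hne).symm
  -- vertices reachable from B
  let st : V → V → Prop := fun x y => R x y ∧ C x ∧ C y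
  let W : Set V := {x | C x ∧ ∃ z, R w0 z ∧ C z ∧ Relation.ReflTransGen st z x}
  have hWout : ∀ x ∈ W, ∀ y, C y → R x y → y ∈ W := by
    rintro x ⟨hx, z, hz, hzC, hpath⟩ y hy hxy
    exact ⟨hy, z, hz, hzC, Relation.ReflTransGen.tail hpath ⟨hxy, hx, hy⟩⟩
  have hWin : ∀ x ∈ W, ∀ y, C y → R y x → y ∈ W := by
    rintro x ⟨hx, z, hz, hzC, hpath⟩
    induction hpath with
    | refl =>
      intro y hy hyx
      refine ⟨hy, y, ?_, hy, Relation.ReflTransGen.refl⟩
      have hne : w0 ≠ y := by
        rintro rfl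
        exact hy.2 (Or.inr hv0)
      exact F1 w0 hv0 y hy (hin z w0 y hz hyx hne)
    | tail hab hbc ih =>
      rename_i b c
      intro y hy hyc
      have hbW : b ∈ W := ⟨hbc.2.1, z, hz, hzC, hab⟩
      by_cases hyb : y = b
      · subst hyb; exact hbW
      · rcases hin c y b hyc hbc.1 hyb with h1 | h1
        · exact ih hbc.2.1 y hy h1
        · exact hWout b hbW y hy h1
  have hWne : W.Nonempty := by
    obtain ⟨y, hy, hyv, hnyv⟩ := h.red w0 v (Or.inr hv0)
    exact ⟨y, ⟨hyv, hnyv⟩, y, F1 w0 hv0 y ⟨hyv, hnyv⟩ hy.symm, ⟨hyv, hnyv⟩, Relation.ReflTransGen.refl⟩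
  have hWall : ∀ y, C y → y ∈ W := by
    intro y hy
    refine h.compl_conn v W (fun x hx => hx.1) hWne ?_ y hy.1 hy.2
    intro x hx y hxy hyv hnyv
    rcases hxy with h1 | h1
    · exact hWout x hx y ⟨hyv, hnyv⟩ h1
    · exact hWin x hx y ⟨hyv, hnyv⟩ h1
  have hAb0 : ∀ a, C a → R a b0 := by
    intro a ha
    obtain ⟨-, z, hz, hzC, hpath⟩ := hWall a ha
    clear ha
    induction hpath with
    | refl => exact hBb0 z hzC (B01 z hzC hz)
    | tail hab hbc ih =>
      rename_i b c
      have hne : c ≠ b0 := by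
        rintro rfl
        exact hbc.2.2.2 (Or.inl hb0P)
      exact F2 b0 hb0P c hbc.2.2 (h.out b c b0 hbc.1 ih hne).symm
  have hw1A : ∀ a, C a → R w1 a := by
    intro a ha
    have hne : w1 ≠ a := by
      rintro rfl
      exact ha.2 (Or.inr hv1)
    exact F1 w1 hv1 a ha (hin b0 w1 a hw1b0 (hAb0 a ha) hne)
  refine ⟨?_, ?_⟩
  · intro a b ha1 ha2 hb1 hb2 hab
    exact hin b0 a b (hAb0 a ⟨ha1, ha2⟩) (hAb0 b ⟨hb1, hb2⟩) hab
  · intro p r a hp hr ha1 ha2 hpr hpa hpa' hra' hra
    have haC : C a := ⟨ha1, ha2⟩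
    have hw2a : R w2 a := B12 a haC (hw1A a haC)
    have hab0 := hAb0 a haC
    -- r → w2
    have hrw2 : R r w2 := by
      have hne : r ≠ w2 := by
        rintro rfl
        exact hra (Or.inl hw2a)
      rcases h.out v r w2 hr hv2 hne with h1 | h1
      · exact h1
      · exact absurd (h.out w2 r a h1 hw2a hra') hra
    have hrb0 : r ≠ b0 := by
      rintro rfl
      exact h.asym _ _ hb0P hr
    rcases hin w2 r b0 hrw2 hb0w2 hrb0 with h1 | h1
    · exact hra (hin b0 r a h1 hab0 hra')
    · have hpb0 : p ≠ b0 := by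
        rintro rfl
        exact hpa (Or.inr hab0)
      rcases hin v p b0 hp hb0P hpb0 with h2 | h2
      · exact hpa (hin b0 p a h2 hab0 hpa')
      · have hprne : p ≠ r := by
          rintro rfl
          exact h.asym _ _ hp hr
        exact hpr (h.out b0 p r h2 h1 hprne)

/-- if there are three independent vertices, out-neighbourhoods are transitive -/
theorem Hyp.notri [Fintype V] (h : Hyp R) (x y z : V) (hxy : x ≠ y) (hxz : x ≠ z) (hyz : y ≠ z)
    (nxy : ¬ Ad R x y) (nxz : ¬ Ad R x z) (nyz : ¬ Ad R y z) (v w0 w1 w2 : V) (hv0 : R v w0)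
    (hv1 : R v w1) (hv2 : R v w2) (h01 : R w0 w1) (h12 : R w1 w2) (h20 : R w2 w0) : False := by
  obtain ⟨hA, hT⟩ := h.tri v w0 w1 w2 hv0 hv1 hv2 h01 h12 h20
  have hin := h.inn
  -- classification
  have key : ∀ a b c : V, a ≠ b → a ≠ c → b ≠ c → ¬ Ad R a b → ¬ Ad R a c → ¬ Ad R b c →
      a ≠ v → ¬ Ad R a v → False := by
    intro a b c hab hac hbc nab nac nbc hav nav
    have hbv : b ≠ v := by
      rintro rfl; exact nab (by
        exfalso
        by_cases hcv : Ad R c b
        · exact nbc hcv.symm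
        · exact nac (hA a c hav nav hbc.symm hcv hac))
    have hcv : c ≠ v := by
      rintro rfl
      exact nab (hA a b hav nav hbv nbc hab)
    have bv : Ad R b v := by
      by_contra hcon
      exact nab (hA a b hav nav hbv hcon hab)
    have cv : Ad R c v := by
      by_contra hcon
      exact nac (hA a c hav nav hcv hcon hac)
    rcases bv with hb | hb <;> rcases cv with hc | hc
    · exact nbc (hin v b c hb hc hbc)
    · exact hT b c a hb hc hav nav nbc (fun e => nab e.symm) hab.symm hac.symm (fun e => nac e.symm)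
    · exact hT c b a hc hb hav nav (fun e => nbc e.symm) (fun e => nac e.symm) hac.symm hab.symm
        (fun e => nab e.symm)
    · exact nbc (h.out v b c hb hc hbc)
  by_cases hxv : x ≠ v ∧ ¬ Ad R x v
  · exact key x y z hxy hxz hyz nxy nxz nyz hxv.1 hxv.2
  by_cases hyv : y ≠ v ∧ ¬ Ad R y v
  · exact key y x z hxy.symm hyz hxz (fun e => nxy e.symm) nyz nxz hyv.1 hyv.2
  by_cases hzv : z ≠ v ∧ ¬ Ad R z v
  · exact key z x y hxz.symm hyz.symm hxy (fun e => nxz e.symm) (fun e => nyz e.symm) nxy hzv.1 hzv.2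
  have hxv' : x ≠ v := by
    rintro rfl
    exact hyv ⟨hxy.symm, fun e => nxy e.symm⟩
  have hyv' : y ≠ v := by
    rintro rfl
    exact hxv ⟨hxy, nxy⟩
  have hzv' : z ≠ v := by
    rintro rfl
    exact hxv ⟨hxz, nxz⟩
  have ax : Ad R x v := by by_contra hc; exact hxv ⟨hxv', hc⟩
  have ay : Ad R y v := by by_contra hc; exact hyv ⟨hyv', hc⟩
  have az : Ad R z v := by by_contra hc; exact hzv ⟨hzv', hc⟩
  rcases ax with a1 | a1 <;> rcases ay with a2 | a2 <;> rcases az with a3 | a3
  · exact nxy (hin v _ _ a1 a2 hxy)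
  · exact nxy (hin v _ _ a1 a2 hxy)
  · exact nxz (hin v _ _ a1 a3 hxz)
  · exact nyz (h.out v _ _ a2 a3 hyz)
  · exact nyz (hin v _ _ a2 a3 hyz)
  · exact nxz (h.out v _ _ a1 a3 hxz)
  · exact nxy (h.out v _ _ a1 a2 hxy)
  · exact nxy (h.out v _ _ a1 a2 hxy)

/-- the successor map -/
theorem Hyp.succ [Fintype V] (h : Hyp R) (x y z : V) (hxy : x ≠ y) (hxz : x ≠ z) (hyz : y ≠ z)
    (nxy : ¬ Ad R x y) (nxz : ¬ Ad R x z) (nyz : ¬ Ad R y z) :
    ∃ σ : V → V, (∀ v, R v (σ v)) ∧ (∀ v w, R v w → w ≠ σ v → R (σ v) w) := by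
  classical
  have hex : ∀ v, ∃ w, R v w := by
    intro v
    by_contra hcon
    push Not at hcon
    have hne : ∃ u, u ≠ v := by
      by_cases hxv : x = v
      · exact ⟨y, fun e => hxy (hxv.trans e.symm)⟩
      · exact ⟨x, hxv⟩
    obtain ⟨u, hu⟩ := hne
    have := h.strong _ (Finset.univ.filter (fun w => w ≠ v)) le_rfl ⟨u, by simp [hu]⟩ (by
      intro a _ b hb
      rw [Finset.mem_filter]
      refine ⟨Finset.mem_univ _, ?_⟩
      rintro rfl
      exact hcon a hb) v
    rw [Finset.mem_filter] at this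
    exact this.2 rfl
  have hsrc : ∀ v, ∃ s, R v s ∧ ∀ w, R v w → w ≠ s → R s w := by
    intro v
    obtain ⟨w, hw⟩ := hex v
    obtain ⟨s, hs, hmax⟩ := Finset.exists_max_image (Finset.univ.filter (fun w => R v w))
      (fun s => (Finset.univ.filter (fun w => R v w ∧ R s w)).card) ⟨w, by simp [hw]⟩
    rw [Finset.mem_filter] at hs
    refine ⟨s, hs.2, ?_⟩
    intro w hw hws
    by_contra hcon
    have hws' : R w s := by
      rcases h.out v w s hw hs.2 hws with h1 | h1
      · exact h1
      · exact absurd h1 hcon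
    have h1 := hmax w (by simp [hw])
    have h2 : (Finset.univ.filter (fun a => R v a ∧ R s a)) ⊂ (Finset.univ.filter (fun a => R v a ∧ R w a)) := by
      rw [Finset.ssubset_iff_of_subset]
      · refine ⟨s, by simp [hs.2, hws'], by simp [h.irr s]⟩
      · intro a ha
        simp only [Finset.mem_filter, Finset.mem_univ, true_and] at ha ⊢
        refine ⟨ha.1, ?_⟩
        have hwa : w ≠ a := by
          rintro rfl
          exact hcon ha.2
        rcases h.out v w a hw ha.1 hwa with h3 | h3
        · exact h3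
        · exact (h.notri x y z hxy hxz hyz nxy nxz nyz v s a w hs.2 ha.1 hw ha.2 h3 hws').elim
    exact absurd (Finset.card_lt_card h2) (by omega)
  choose σ h1 h2 using hsrc
  exact ⟨σ, h1, h2⟩


/-- every vertex of a connected graph without dominated pairs is in a maximum independent set -/
theorem Hyp.main [Fintype V] (h : Hyp R) (x0 : V) :
    ∃ S : Finset V, x0 ∈ S ∧ (∀ a ∈ S, ∀ b ∈ S, ¬ Ad R a b) ∧
      ∀ T : Finset V, (∀ a ∈ T, ∀ b ∈ T, ¬ Ad R a b) → T.card ≤ S.card := by
  classical
  have hself : ∀ a, ¬ Ad R a a := fun a ha => h.ne ha rfl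
  by_cases h3 : ∃ x y z : V, x ≠ y ∧ x ≠ z ∧ y ≠ z ∧ ¬ Ad R x y ∧ ¬ Ad R x z ∧ ¬ Ad R y z
  · obtain ⟨x, y, z, hxy, hxz, hyz, nxy, nxz, nyz⟩ := h3
    obtain ⟨σ, hσ1, hσ2⟩ := h.succ x y z hxy hxz hyz nxy nxz nyz
    have hin := h.inn
    -- the other in-neighbours of σ v point to v
    have hτ : ∀ v w, R w (σ v) → w ≠ v → R w v := by
      intro v w hw hwv
      rcases hin (σ v) w v hw (hσ1 v) hwv with h1 | h1
      · exact h1
      · have hne : w ≠ σ v := by
          rintro rfl
          exact h.irr _ hw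
        exact absurd hw (h.asym _ _ (hσ2 v w h1 hne))
    have hinj : Function.Injective σ := by
      intro a b hab
      by_contra hne
      have h1 : R b a := hτ a b (by rw [hab]; exact hσ1 b) (Ne.symm hne)
      have h2 : R a b := hτ b a (by rw [← hab]; exact hσ1 a) hne
      exact h.asym _ _ h1 h2
    have hshift1 : ∀ a b, a ≠ b → ¬ Ad R a b → ¬ R (σ a) (σ b) := by
      intro a b hab nab hR
      have h1 : R (σ a) b := by
        have hne : σ a ≠ b := by
          rintro rfl
          exact nab (Or.inl (hσ1 a))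
        exact hτ b (σ a) hR hne
      obtain ⟨y, hy, hyne, hyn⟩ := h.red b (σ b) (Or.inl (hσ1 b))
      have hyb : R y b := by
        rcases hy with h2 | h2
        · exact h2
        · exact absurd (h.out b y (σ b) h2 (hσ1 b) hyne) hyn
      have hysa : y ≠ σ a := by
        rintro rfl
        exact hyn (Or.inl hR)
      rcases hin b y (σ a) hyb h1 hysa with h2 | h2
      · have hya : y ≠ a := by
          rintro rfl
          exact nab (Or.inl hyb)
        exact nab (h.out y a b (hτ a y h2 hya) hyb hab)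
      · exact hyn (h.out (σ a) y (σ b) h2 hR hyne)
    have hshift : ∀ a b, ¬ Ad R a b → ¬ Ad R (σ a) (σ b) := by
      intro a b nab
      by_cases hab : a = b
      · subst hab; exact hself _
      · rintro (h1 | h1)
        · exact hshift1 a b hab nab h1
        · exact hshift1 b a (Ne.symm hab) (fun e => nab e.symm) h1
    have hshiftn : ∀ n a b, ¬ Ad R a b → ¬ Ad R (σ^[n] a) (σ^[n] b) := by
      intro n
      induction n with
      | zero => intro a b hab; exact hab
      | succ n ih =>
        intro a b hab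
        rw [Function.iterate_succ_apply, Function.iterate_succ_apply]
        exact ih _ _ (hshift a b hab)
    -- single orbit
    have horb : ∀ i j : V, ∃ n : ℕ, σ^[n] i = j := by
      intro i
      let π : Equiv.Perm V := Equiv.ofBijective σ (Finite.injective_iff_bijective.1 hinj)
      have hπ : ∀ n : ℕ, ∀ w, (π ^ n) w = σ^[n] w := by
        intro n w
        rw [← Equiv.Perm.iterate_eq_pow]
        rfl
      have hN : 0 < orderOf π := orderOf_pos π
      have hback : ∀ l m : ℕ, ∃ k : ℕ, σ^[k] (σ^[l] i) = σ^[m] i := by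
        intro l m
        refine ⟨l * orderOf π + m - l, ?_⟩
        rw [← Function.iterate_add_apply, ← hπ]
        have hle : l ≤ l * orderOf π := Nat.le_mul_of_pos_right l hN
        have : l * orderOf π + m - l + l = l * orderOf π + m := by omega
        rw [this, pow_add, mul_comm l, pow_mul, pow_orderOf_eq_one, one_pow, one_mul, hπ]
      let O : Finset V := Finset.univ.filter (fun w => ∃ n : ℕ, σ^[n] i = w)
      have hO : ∀ w, w ∈ O ↔ ∃ n : ℕ, σ^[n] i = w := by intro w; simp [O]
      have hOσ : ∀ w ∈ O, σ w ∈ O := by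
        intro w hw
        rw [hO] at hw ⊢
        obtain ⟨n, rfl⟩ := hw
        exact ⟨n + 1, by rw [Function.iterate_succ_apply']⟩
      have hOin : ∀ w ∈ O, ∀ y, R y w → y ∈ O := by
        intro w hw y hyw
        by_contra hy
        have hallO : ∀ w' ∈ O, R y w' := by
          intro w' hw'
          rw [hO] at hw hw'
          obtain ⟨m, rfl⟩ := hw
          obtain ⟨l, rfl⟩ := hw'
          obtain ⟨k, hk⟩ := hback l m
          rw [← hk] at hyw
          clear hk
          induction k with
          | zero => exact hyw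
          | succ k ih =>
            apply ih
            rw [Function.iterate_succ_apply'] at hyw
            refine hτ _ y hyw ?_
            rintro rfl
            apply hy
            rw [hO]
            exact ⟨k + l, by rw [Function.iterate_add_apply]⟩
        obtain ⟨z0, hz0, hmax⟩ := Finset.exists_max_image O
          (fun s => (O.filter (fun w => R w s)).card) ⟨i, by rw [hO]; exact ⟨0, rfl⟩⟩
        have h1 := hmax (σ z0) (hOσ z0 hz0)
        have h2 : (O.filter (fun w => R w z0)) ⊂ (O.filter (fun w => R w (σ z0))) := by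
          rw [Finset.ssubset_iff_of_subset]
          · exact ⟨z0, by simp [hz0, hσ1 z0], by simp [h.irr z0]⟩
          · intro w hw
            rw [Finset.mem_filter] at hw ⊢
            refine ⟨hw.1, ?_⟩
            have hne : w ≠ σ z0 := by
              rintro rfl
              exact h.asym _ _ hw.2 (hσ1 z0)
            rcases h.out y w (σ z0) (hallO w hw.1) (hallO _ (hOσ z0 hz0)) hne with h3 | h3
            · exact h3
            · exact (h.notri x _ z hxy hxz hyz nxy nxz nyz y w z0 (σ z0) (hallO w hw.1)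
                (hallO z0 hz0) (hallO _ (hOσ z0 hz0)) hw.2 (hσ1 z0) h3).elim
        exact absurd (Finset.card_lt_card h2) (by omega)
      intro j
      have := h.strong _ O le_rfl ⟨i, by rw [hO]; exact ⟨0, rfl⟩⟩ hOin j
      rwa [hO] at this
    -- a maximum independent set
    obtain ⟨I, hI, hImax⟩ := Finset.exists_max_image
      (Finset.univ.filter (fun S : Finset V => ∀ a ∈ S, ∀ b ∈ S, ¬ Ad R a b)) Finset.card
      ⟨∅, by simp⟩
    rw [Finset.mem_filter] at hI
    have hIne : I.Nonempty := by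
      have := hImax {x} (by
        rw [Finset.mem_filter]
        refine ⟨Finset.mem_univ _, ?_⟩
        intro a ha b hb
        rw [Finset.mem_singleton] at ha hb
        subst ha; subst hb
        exact hself _)
      rw [← Finset.card_pos]
      rw [Finset.card_singleton] at this
      omega
    obtain ⟨i, hi⟩ := hIne
    obtain ⟨n, hn⟩ := horb i x0
    refine ⟨I.image (σ^[n]), ?_, ?_, ?_⟩
    · rw [Finset.mem_image]; exact ⟨i, hi, hn⟩
    · intro a ha b hb
      rw [Finset.mem_image] at ha hb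
      obtain ⟨a', ha', rfl⟩ := ha
      obtain ⟨b', hb', rfl⟩ := hb
      exact hshiftn n a' b' (hI.2 a' ha' b' hb')
    · intro T hT
      rw [Finset.card_image_of_injective _ (hinj.iterate n)]
      exact hImax T (by rw [Finset.mem_filter]; exact ⟨Finset.mem_univ _, hT⟩)
  · push Not at h3
    have hle2 : ∀ T : Finset V, (∀ a ∈ T, ∀ b ∈ T, ¬ Ad R a b) → T.card ≤ 2 := by
      intro T hT
      by_contra hcon
      obtain ⟨a, b, c, ha, hb, hc, hab, hac, hbc⟩ := Finset.two_lt_card_iff.1 (not_le.1 hcon)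
      exact hT b hb c hc (h3 a b c hab hac hbc (hT a ha b hb) (hT a ha c hc))
    by_cases hex : ∃ y, y ≠ x0 ∧ ¬ Ad R y x0
    · obtain ⟨y, hy, hny⟩ := hex
      refine ⟨{x0, y}, by simp, ?_, ?_⟩
      · intro a ha b hb
        rw [Finset.mem_insert, Finset.mem_singleton] at ha hb
        rcases ha with rfl | rfl <;> rcases hb with rfl | rfl
        · exact hself _
        · exact fun e => hny e.symm
        · exact hny
        · exact hself _
      · intro T hT
        rw [Finset.card_pair (Ne.symm hy)]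
        exact hle2 T hT
    · push Not at hex
      have hall : ∀ y, y = x0 := by
        intro y
        by_contra hy
        obtain ⟨z, -, hz, hnz⟩ := h.red y x0 (hex y hy)
        exact hnz (hex z hz)
      refine ⟨{x0}, by simp, ?_, ?_⟩
      · intro a ha b hb
        rw [hall a, hall b]
        exact hself _
      · intro T hT
        rw [Finset.card_singleton]
        exact Finset.card_le_one.2 (fun a _ b _ => (hall a).trans (hall b).symm)


/-- the same for a vertex set `M` of an arbitrary graph with a 1-perfect orientation -/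
theorem exists_max_mem {V : Type} [DecidableEq V] (R : V → V → Prop) (irr : ∀ a, ¬ R a a)
    (asym : ∀ a b, R a b → ¬ R b a) (out : ∀ v a b, R v a → R v b → a ≠ b → Ad R a b)
    (M : Finset V)
    (red : ∀ u ∈ M, ∀ v ∈ M, Ad R u v → ∃ y ∈ M, Ad R y u ∧ y ≠ v ∧ ¬ Ad R y v)
    (x : V) (hx : x ∈ M) :
    ∃ S : Finset V, S ⊆ M ∧ x ∈ S ∧ (∀ a ∈ S, ∀ b ∈ S, ¬ Ad R a b) ∧
      ∀ T : Finset V, T ⊆ M → (∀ a ∈ T, ∀ b ∈ T, ¬ Ad R a b) → T.card ≤ S.card := by
  classical
  let C : V → Prop := fun y => Relation.ReflTransGen (fun a b => Ad R a b ∧ b ∈ M) x y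
  have hCM : ∀ y, C y → y ∈ M := by
    intro y hy
    rcases Relation.ReflTransGen.cases_tail hy with h1 | ⟨c, -, h1⟩
    · rw [h1]; exact hx
    · exact h1.2
  have hCad : ∀ y, C y → ∀ z ∈ M, Ad R y z → C z := fun y hy z hz hyz =>
    Relation.ReflTransGen.tail hy ⟨hyz, hz⟩
  let V' : Type := {y // y ∈ M ∧ C y}
  have : Fintype V' := Fintype.subtype (M.filter C) (by intro y; simp)
  let R' : V' → V' → Prop := fun a b => R a.1 b.1
  have hAd : ∀ a b : V', Ad R' a b ↔ Ad R a.1 b.1 := fun a b => Iff.rfl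
  let x' : V' := ⟨x, hx, Relation.ReflTransGen.refl⟩
  have hyp : Hyp R' := by
    refine ⟨fun a => irr _, fun a b => asym _ _, fun v a b hva hvb hab => ?_, fun u v huv => ?_, ?_⟩
    · exact out v.1 a.1 b.1 hva hvb (fun e => hab (Subtype.ext e))
    · obtain ⟨y, hyM, hyu, hyv, hny⟩ := red u.1 u.2.1 v.1 v.2.1 huv
      exact ⟨⟨y, hyM, hCad u.1 u.2.2 y hyM hyu.symm⟩, hyu, fun e => hyv (congrArg Subtype.val e), hny⟩
    · intro X hXne hX
      have h1 : x' ∈ X := by
        obtain ⟨⟨y0, hy0M, hy0C⟩, hy0⟩ := hXne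
        have : ∀ z (hz : C z), ⟨z, hCM z hz, hz⟩ ∈ X → x' ∈ X := by
          intro z hz
          induction hz with
          | refl => intro h; exact h
          | tail hab hbc ih =>
            rename_i b c
            intro hc
            apply ih
            exact hX _ hc ⟨b, hCM b hab, hab⟩ ((hAd _ _).2 hbc.1.symm)
        exact this y0 hy0C hy0
      have h2 : ∀ z (hz : C z), (⟨z, hCM z hz, hz⟩ : V') ∈ X := by
        intro z hz
        induction hz with
        | refl => exact h1
        | tail hab hbc ih =>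
          exact hX _ ih _ ((hAd _ _).2 hbc.1)
      ext z
      simp only [Set.mem_univ, iff_true]
      exact h2 z.1 z.2.2
  obtain ⟨S', hxS', hS', hmax'⟩ := hyp.main x'
  -- a maximum independent set of `M`
  obtain ⟨I, hI, hImax⟩ := Finset.exists_max_image
    (M.powerset.filter (fun S : Finset V => ∀ a ∈ S, ∀ b ∈ S, ¬ Ad R a b)) Finset.card
    ⟨∅, by simp⟩
  rw [Finset.mem_filter, Finset.mem_powerset] at hI
  let S1 : Finset V := S'.map ⟨Subtype.val, Subtype.val_injective⟩
  have hS1 : ∀ a, a ∈ S1 ↔ ∃ h : a ∈ M ∧ C a, (⟨a, h⟩ : V') ∈ S' := by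
    intro a
    simp only [S1, Finset.mem_map, Function.Embedding.coeFn_mk]
    constructor
    · rintro ⟨⟨b, hb⟩, hbS, rfl⟩
      exact ⟨hb, hbS⟩
    · rintro ⟨h1, h2⟩
      exact ⟨_, h2, rfl⟩
  have hdisj : Disjoint S1 (I.filter (fun a => ¬ C a)) := by
    rw [Finset.disjoint_left]
    intro a ha ha2
    rw [hS1] at ha
    obtain ⟨h1, -⟩ := ha
    exact (Finset.mem_filter.1 ha2).2 h1.2
  have hcross : ∀ a b, C a → b ∈ M → ¬ C b → ¬ Ad R a b := by
    intro a b ha hb hnb hab
    exact hnb (hCad a ha b hb hab)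
  refine ⟨S1 ∪ I.filter (fun a => ¬ C a), ?_, ?_, ?_, ?_⟩
  · intro a ha
    rw [Finset.mem_union] at ha
    rcases ha with ha | ha
    · rw [hS1] at ha
      exact ha.1.1
    · exact hI.1 (Finset.mem_filter.1 ha).1
  · rw [Finset.mem_union]
    left
    rw [hS1]
    exact ⟨x'.2, hxS'⟩
  · intro a ha b hb
    rw [Finset.mem_union] at ha hb
    rcases ha with ha | ha <;> rcases hb with hb | hb
    · rw [hS1] at ha hb
      obtain ⟨h1, h2⟩ := ha
      obtain ⟨h3, h4⟩ := hb
      exact hS' _ h2 _ h4
    · rw [hS1] at ha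
      rw [Finset.mem_filter] at hb
      exact hcross a b ha.1.2 (hI.1 hb.1) hb.2
    · rw [hS1] at hb
      rw [Finset.mem_filter] at ha
      exact fun e => hcross b a hb.1.2 (hI.1 ha.1) ha.2 e.symm
    · exact hI.2 a (Finset.mem_filter.1 ha).1 b (Finset.mem_filter.1 hb).1
  · intro T hTM hT
    have h1 : T.card ≤ I.card := hImax T (by
      rw [Finset.mem_filter, Finset.mem_powerset]; exact ⟨hTM, hT⟩)
    have h2 : (I.filter C).card + (I.filter (fun a => ¬ C a)).card = I.card :=
      Finset.card_filter_add_card_filter_not C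
    have h3 : (I.filter C).card ≤ S'.card := by
      have := hmax' (Finset.univ.filter (fun a : V' => a.1 ∈ I)) (by
        intro a ha b hb
        rw [Finset.mem_filter] at ha hb
        exact hI.2 a.1 ha.2 b.1 hb.2)
      refine le_trans ?_ this
      rw [← Finset.card_map ⟨Subtype.val, Subtype.val_injective⟩]
      apply Finset.card_le_card
      intro a ha
      rw [Finset.mem_filter] at ha
      rw [Finset.mem_map]
      exact ⟨⟨a, hI.1 ha.1, ha.2⟩, by simp [ha.1], rfl⟩
    rw [Finset.card_union_of_disjoint hdisj]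
    have h4 : S1.card = S'.card := Finset.card_map _
    omega

end Pool.Agent.Helper15.PO
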