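import Pool.Agent.Helper15.PO
import Pool.Agent.Helper58.Equiv

set_option autoImplicit false

/-! The algorithm: delete dominated vertices, otherwise take any vertex. -/

namespace Pool.Agent.Helper15.PO

open Pool.Agent.Helper58

/-- adjacency read off from a list of ordered pairs -/
def adjE (E : List (ℕ × ℕ)) (i j : ℕ) : Bool := E.any (fun e => decide (e = (i, j)))

/-- `v` is dominated in `L`: some neighbour `u` of `v` in `L` has `N[u] ⊆ N[v]` inside `L` -/
def dominated (E : List (ℕ × ℕ)) (L : List ℕ) (v : ℕ) : Bool :=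
  L.any (fun u => adjE E u v && L.all (fun y =>
    !(decide (y = u) || adjE E y u) || (decide (y = v) || adjE E y v)))

/-- one step of the algorithm; the state is (remaining vertices, chosen vertices) -/
def stepA (E : List (ℕ × ℕ)) (s : List ℕ × List ℕ) : List ℕ × List ℕ :=
  lcase (s.1.filter (fun v => dominated E s.1 v))
    (lcase s.1 s (fun x _ => (s.1.filter (fun y => !(decide (y = x) || adjE E x y)), x :: s.2)))
    (fun v _ => (s.1.filter (fun y => !decide (y = v)), s.2))

/-- the whole computation on the vertex set `{0, …, n-1}` -/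
def runA (E : List (ℕ × ℕ)) (n : ℕ) : List ℕ × List ℕ :=
  (List.range n).foldl (fun s _ => stepA E s) (List.range n, [])

/-- all pairs -/
def pairs (k : ℕ) : List (ℕ × ℕ) := (List.range k).flatMap (fun i => (List.range k).map (fun j => (i, j)))

/-- the number of vertices of a graph whose adjacency matrix is written in `w` -/
def numV (w : List Bool) : ℕ :=
  lcase ((List.range (w.length + 1)).filter (fun k => decide ((pairs k).length = w.length))) 0
    (fun k _ => k)

/-- the list of edges (ordered pairs) of the graph whose adjacency matrix is written in `w` -/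
def edgesOf (w : List Bool) : List (ℕ × ℕ) :=
  ((pairs (numV w)).zipIdx.filter (fun p => w.zipIdx.any (fun q => decide (q.2 = p.2) && q.1))).map
    (fun p => p.1)

/-- the algorithm on words -/
def algW (w : List Bool) : List Bool :=
  (List.range (numV w)).map (fun i => (runA (edgesOf w) (numV w)).2.any (fun c => decide (c = i)))

/-! ### polynomial time -/

theorem ptf_adjE {γ : Type} [Enc γ] {E : γ → List (ℕ × ℕ)} {i j : γ → ℕ} (hE : PTf E) (hi : PTf i)
    (hj : PTf j) : PTf (fun x => adjE (E x) (i x) (j x)) := by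
  unfold adjE
  fun_prop

attribute [local fun_prop] ptf_adjE

theorem ptf_dominated {γ : Type} [Enc γ] {E : γ → List (ℕ × ℕ)} {L : γ → List ℕ} {v : γ → ℕ}
    (hE : PTf E) (hL : PTf L) (hv : PTf v) : PTf (fun x => dominated (E x) (L x) (v x)) := by
  unfold dominated
  fun_prop

attribute [local fun_prop] ptf_dominated

theorem ptf_stepA {γ : Type} [Enc γ] {E : γ → List (ℕ × ℕ)} {s : γ → List ℕ × List ℕ}
    (hE : PTf E) (hs : PTf s) : PTf (fun x => stepA (E x) (s x)) := by
  unfold stepA
  fun_prop


/-! ### basic properties of the steps -/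

theorem stepA_cases (E : List (ℕ × ℕ)) (s : List ℕ × List ℕ) :
    (s.1 = [] ∧ stepA E s = s) ∨
    (∃ v ∈ s.1, dominated E s.1 v = true ∧ stepA E s = (s.1.filter (fun y => !decide (y = v)), s.2)) ∨
    (∃ x ∈ s.1, (∀ v ∈ s.1, dominated E s.1 v = false) ∧
      stepA E s = (s.1.filter (fun y => !(decide (y = x) || adjE E x y)), x :: s.2)) := by
  unfold stepA
  rcases h : s.1.filter (fun v => dominated E s.1 v) with _ | ⟨v, t⟩
  · rw [List.filter_eq_nil_iff] at h
    rcases h2 : s.1 with _ | ⟨x, t⟩
    · left; exact ⟨rfl, rfl⟩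
    · right; right
      refine ⟨x, by simp, ?_, rfl⟩
      intro v hv
      rw [← h2] at hv
      rw [← h2]
      have := h v hv
      simpa using this
  · right; left
    have hv : v ∈ s.1.filter (fun v => dominated E s.1 v) := by rw [h]; simp
    rw [List.mem_filter] at hv
    exact ⟨v, hv.1, hv.2, rfl⟩

theorem filter_length_lt {α : Type} (l : List α) (p : α → Bool) (x : α) (hx : x ∈ l) (hp : p x = false) :
    (l.filter p).length < l.length := by
  induction l with
  | nil => simp at hx
  | cons a l ih =>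
    rw [List.filter_cons]
    rcases List.mem_cons.1 hx with h | h
    · subst h
      rw [hp]
      have := List.length_filter_le p l
      simp only [Bool.false_eq_true, if_false, List.length_cons]
      omega
    · have := ih h
      split_ifs <;> simp only [List.length_cons] <;> omega

theorem stepA_length (E : List (ℕ × ℕ)) (s : List ℕ × List ℕ) :
    (stepA E s).1.length ≤ s.1.length - 1 := by
  rcases stepA_cases E s with ⟨h1, h2⟩ | ⟨v, hv, -, h2⟩ | ⟨x, hx, -, h2⟩
  · rw [h2, h1]; simp
  · rw [h2]
    have := filter_length_lt s.1 (fun y => !decide (y = v)) v hv (by simp)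
    simp only
    omega
  · rw [h2]
    have := filter_length_lt s.1 (fun y => !(decide (y = x) || adjE E x y)) x hx (by simp)
    simp only
    omega

/-- size invariant -/
def Inv1 (n : ℕ) (s : List ℕ × List ℕ) : Prop :=
  s.1.Sublist (List.range n) ∧ (∀ c ∈ s.2, c < n) ∧ s.1.length + s.2.length ≤ n

theorem inv1_step (E : List (ℕ × ℕ)) (n : ℕ) (s : List ℕ × List ℕ) (h : Inv1 n s) : Inv1 n (stepA E s) := by
  rcases stepA_cases E s with ⟨-, h2⟩ | ⟨v, hv, -, h2⟩ | ⟨x, hx, -, h2⟩
  · rw [h2]; exact h
  · rw [h2]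
    refine ⟨List.filter_sublist.trans h.1, h.2.1, ?_⟩
    have h3 := List.length_filter_le (fun y => !decide (y = v)) s.1
    have := h.2.2
    simp only
    omega
  · rw [h2]
    refine ⟨List.filter_sublist.trans h.1, ?_, ?_⟩
    · intro c hc
      rcases List.mem_cons.1 hc with rfl | hc
      · exact List.mem_range.1 (h.1.subset hx)
      · exact h.2.1 c hc
    · have := filter_length_lt s.1 (fun y => !(decide (y = x) || adjE E x y)) x hx (by simp)
      have := h.2.2
      simp only [List.length_cons]
      omega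

theorem foldl_inv {α β : Type} (P : β → Prop) (f : β → β) (hf : ∀ b, P b → P (f b)) (l : List α) :
    ∀ b, P b → P (l.foldl (fun s _ => f s) b) := by
  induction l with
  | nil => intro b hb; exact hb
  | cons a l ih => intro b hb; exact ih _ (hf b hb)

theorem inv1_init (n : ℕ) : Inv1 n (List.range n, []) := by
  refine ⟨List.Sublist.refl _, by simp, by simp⟩

theorem sz_sublist {l m : List ℕ} (h : l.Sublist m) : sz l ≤ sz m := by
  induction h with
  | slnil => exact le_rfl
  | cons a _ ih => rw [sz_lcons]; omega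
  | cons_cons a _ ih => rw [sz_lcons, sz_lcons]; omega

theorem sz_bounded (l : List ℕ) (n : ℕ) (h : ∀ c ∈ l, c < n) : sz l ≤ l.length * (2 * n + 2) + 1 := by
  induction l with
  | nil => simp [sz_lnil]
  | cons a l ih =>
    rw [sz_lcons, List.length_cons, sz_nat]
    have h1 := h a (by simp)
    have h2 := ih (fun c hc => h c (by simp [hc]))
    have h3 : (l.length + 1) * (2 * n + 2) = l.length * (2 * n + 2) + (2 * n + 2) := by ring
    omega

theorem inv1_sz (n : ℕ) (s : List ℕ × List ℕ) (h : Inv1 n s) :
    sz s ≤ sz (List.range n) + (sz n * (sz n + 1) + 1) + 1 := by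
  rw [sz_prod]
  have h1 := sz_sublist h.1
  have h2 := sz_bounded s.2 n h.2.1
  have h3 : s.2.length ≤ n := by have := h.2.2; omega
  have h4 : s.2.length * (2 * n + 2) ≤ sz n * (sz n + 1) := by
    rw [sz_nat]
    exact Nat.mul_le_mul (by omega) (by omega)
  omega

theorem ptf_runA {γ : Type} [Enc γ] {E : γ → List (ℕ × ℕ)} {n : γ → ℕ} (hE : PTf E) (hn : PTf n) :
    PTf (fun x => runA (E x) (n x)) := by
  unfold runA
  have hr : PTf (fun x => List.range (n x)) := by fun_prop
  refine PTf.foldl (l := fun x => List.range (n x)) (init := fun x => (List.range (n x), ([] : List ℕ)))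
    (step := fun x s _ => stepA (E x) s)
    (B := fun x => sz (List.range (n x)) + (sz (n x) * (sz (n x) + 1) + 1) + 1)
    hr (by fun_prop) ?_ ?_ ?_
  · have h1 : PTf (fun p : γ × ((List ℕ × List ℕ) × ℕ) => E p.1) := by fun_prop
    have h2 : PTf (fun p : γ × ((List ℕ × List ℕ) × ℕ) => p.2.1) := by fun_prop
    exact ptf_stepA h1 h2
  · exact ((hr.sz_le.add ((hn.sz_le.mul (hn.sz_le.add (PB.const 1))).add (PB.const 1))).add (PB.const 1))
  · intro x i
    exact inv1_sz (n x) _ (foldl_inv (Inv1 (n x)) (stepA (E x)) (inv1_step (E x) (n x)) _ _ (inv1_init (n x)))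

attribute [local fun_prop] ptf_runA

theorem ptf_pairs : PTf pairs := by
  unfold pairs
  fun_prop

attribute [local fun_prop] ptf_pairs

theorem ptf_numV : PTf numV := by
  unfold numV
  fun_prop

attribute [local fun_prop] ptf_numV

theorem ptf_edgesOf : PTf edgesOf := by
  unfold edgesOf
  fun_prop

attribute [local fun_prop] ptf_edgesOf

theorem ptf_algW : PTf algW := by
  unfold algW
  fun_prop


/-! ### correctness -/

section correct

variable {R : ℕ → ℕ → Prop} {E : List (ℕ × ℕ)}

theorem dominated_iff (hE : ∀ i j, adjE E i j = true ↔ Ad R i j) (L : List ℕ) (v : ℕ) :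
    dominated E L v = true ↔ ∃ u ∈ L, Ad R u v ∧ ∀ y ∈ L, (y = u ∨ Ad R y u) → (y = v ∨ Ad R y v) := by
  unfold dominated
  rw [List.any_eq_true]
  constructor
  · rintro ⟨u, hu, h⟩
    rw [Bool.and_eq_true, hE, List.all_eq_true] at h
    refine ⟨u, hu, h.1, ?_⟩
    intro y hy hyu
    have := h.2 y hy
    rw [Bool.or_eq_true, Bool.or_eq_true, Bool.not_eq_true', Bool.or_eq_false_iff, decide_eq_true_eq,
      decide_eq_false_iff_not, hE] at this
    rcases this with h1 | h1
    · rcases hyu with h2 | h2
      · exact absurd h2 h1.1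
      · rw [← hE] at h2
        rw [h2] at h1
        exact absurd h1.2 (by simp)
    · exact h1
  · rintro ⟨u, hu, huv, h⟩
    refine ⟨u, hu, ?_⟩
    rw [Bool.and_eq_true, hE, List.all_eq_true]
    refine ⟨huv, ?_⟩
    intro y hy
    rw [Bool.or_eq_true, Bool.or_eq_true, Bool.not_eq_true', Bool.or_eq_false_iff, decide_eq_true_eq,
      decide_eq_false_iff_not, hE]
    by_cases hyu : y = u ∨ Ad R y u
    · right; exact h y hy hyu
    · left
      push Not at hyu
      refine ⟨hyu.1, ?_⟩
      by_contra hcon
      rw [Bool.not_eq_false, hE] at hcon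
      exact hyu.2 hcon

/-- correctness invariant -/
def Inv2 (R : ℕ → ℕ → Prop) (n : ℕ) (s : List ℕ × List ℕ) : Prop :=
  (∀ a ∈ s.2, ∀ b ∈ s.2, ¬ Ad R a b) ∧ s.2.Nodup ∧ (∀ c ∈ s.2, ∀ a ∈ s.1, c ≠ a ∧ ¬ Ad R c a) ∧
  (∀ T : Finset ℕ, (∀ t ∈ T, t < n) → (∀ a ∈ T, ∀ b ∈ T, ¬ Ad R a b) →
    ∃ T' : Finset ℕ, (∀ t ∈ T', t ∈ s.1) ∧ (∀ a ∈ T', ∀ b ∈ T', ¬ Ad R a b) ∧
      T.card ≤ T'.card + s.2.length)

theorem inv2_step (hE : ∀ i j, adjE E i j = true ↔ Ad R i j) (irr : ∀ a, ¬ R a a)
    (asym : ∀ a b, R a b → ¬ R b a) (out : ∀ v a b, R v a → R v b → a ≠ b → Ad R a b)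
    (n : ℕ) (s : List ℕ × List ℕ) (h : Inv2 R n s) : Inv2 R n (stepA E s) := by
  classical
  have hself : ∀ a, ¬ Ad R a a := fun a ha => irr a (by rcases ha with h | h <;> exact h)
  obtain ⟨i1, i2, i3, i4⟩ := h
  rcases stepA_cases E s with ⟨-, h2⟩ | ⟨v, hv, hdom, h2⟩ | ⟨x, hx, hdom, h2⟩
  · rw [h2]; exact ⟨i1, i2, i3, i4⟩
  · rw [h2]
    refine ⟨i1, i2, ?_, ?_⟩
    · intro c hc a ha
      exact i3 c hc a (List.mem_of_mem_filter ha)
    · intro T hT hTi
      obtain ⟨T', h3, h4, h5⟩ := i4 T hT hTi
      by_cases hvT : v ∈ T'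
      · rw [dominated_iff hE] at hdom
        obtain ⟨u, hu, huv, hN⟩ := hdom
        have huT : u ∉ T' := fun huT => h4 u huT v hvT huv
        have hune : u ≠ v := by
          rintro rfl
          exact hself _ huv
        refine ⟨insert u (T'.erase v), ?_, ?_, ?_⟩
        · intro t ht
          rw [Finset.mem_insert, Finset.mem_erase] at ht
          rw [List.mem_filter]
          rcases ht with rfl | ht
          · exact ⟨hu, by simpa using hune⟩
          · exact ⟨h3 t ht.2, by simpa using ht.1⟩
        · have key : ∀ t ∈ T', t ≠ v → ¬ Ad R t u := by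
            intro t ht htv htu
            rcases hN t (h3 t ht) (Or.inr htu) with h6 | h6
            · exact htv h6
            · exact h4 t ht v hvT h6
          intro a ha b hb
          rw [Finset.mem_insert, Finset.mem_erase] at ha hb
          rcases ha with rfl | ha <;> rcases hb with rfl | hb
          · exact hself _
          · exact fun e => key b hb.2 hb.1 e.symm
          · exact key a ha.2 ha.1
          · exact h4 a ha.2 b hb.2
        · rw [Finset.card_insert_of_notMem (by
            rw [Finset.mem_erase]; exact fun h6 => huT h6.2), Finset.card_erase_of_mem hvT]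
          have : 0 < T'.card := Finset.card_pos.2 ⟨v, hvT⟩
          simp only
          omega
      · refine ⟨T', ?_, h4, h5⟩
        intro t ht
        rw [List.mem_filter]
        refine ⟨h3 t ht, ?_⟩
        have : t ≠ v := by
          rintro rfl
          exact hvT ht
        simpa using this
  · rw [h2]
    have hfil : ∀ a, a ∈ s.1.filter (fun y => !(decide (y = x) || adjE E x y)) ↔
        a ∈ s.1 ∧ a ≠ x ∧ ¬ Ad R x a := by
      intro a
      rw [List.mem_filter, ← hE]
      simp
    refine ⟨?_, ?_, ?_, ?_⟩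
    · intro a ha b hb
      rcases List.mem_cons.1 ha with ha' | ha' <;> rcases List.mem_cons.1 hb with hb' | hb'
      · rw [ha', hb']; exact hself _
      · rw [ha']; exact fun e => (i3 b hb' x hx).2 e.symm
      · rw [hb']; exact (i3 a ha' x hx).2
      · exact i1 a ha' b hb'
    · rw [List.nodup_cons]
      exact ⟨fun h => (i3 x h x hx).1 rfl, i2⟩
    · intro c hc a ha
      simp only at hc ha
      rw [hfil] at ha
      rcases List.mem_cons.1 hc with hc' | hc'
      · rw [hc']; exact ⟨ha.2.1.symm, ha.2.2⟩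
      · exact i3 c hc' a ha.1
    · intro T hT hTi
      obtain ⟨T', h3, h4, h5⟩ := i4 T hT hTi
      have hred : ∀ u ∈ s.1.toFinset, ∀ v ∈ s.1.toFinset, Ad R u v →
          ∃ y ∈ s.1.toFinset, Ad R y u ∧ y ≠ v ∧ ¬ Ad R y v := by
        intro u hu v hv huv
        rw [List.mem_toFinset] at hu hv
        have := hdom v hv
        rw [← Bool.not_eq_true, dominated_iff hE] at this
        push Not at this
        obtain ⟨y, hy, hyu, hyv, hny⟩ := this u hu huv
        refine ⟨y, List.mem_toFinset.2 hy, ?_, hyv, hny⟩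
        rcases hyu with rfl | hyu
        · exact absurd huv hny
        · exact hyu
      obtain ⟨S, hSM, hxS, hSi, hSmax⟩ := exists_max_mem R irr asym out s.1.toFinset hred x
        (List.mem_toFinset.2 hx)
      have h6 := hSmax T' (by
        intro t ht
        exact List.mem_toFinset.2 (h3 t ht)) h4
      refine ⟨S.erase x, ?_, ?_, ?_⟩
      · intro t ht
        rw [Finset.mem_erase] at ht
        simp only
        rw [hfil]
        exact ⟨List.mem_toFinset.1 (hSM ht.2), ht.1, hSi x hxS t ht.2⟩
      · intro a ha b hb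
        exact hSi a (Finset.mem_of_mem_erase ha) b (Finset.mem_of_mem_erase hb)
      · rw [Finset.card_erase_of_mem hxS]
        have : 0 < S.card := Finset.card_pos.2 ⟨x, hxS⟩
        simp only [List.length_cons]
        omega

theorem runA_length (E : List (ℕ × ℕ)) (l : List ℕ) : ∀ s : List ℕ × List ℕ,
    (l.foldl (fun s _ => stepA E s) s).1.length ≤ s.1.length - l.length := by
  induction l with
  | nil => intro s; simp
  | cons a l ih =>
    intro s
    rw [List.foldl_cons]
    have h1 := ih (stepA E s)
    have h2 := stepA_length E s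
    rw [List.length_cons]
    omega

theorem runA_correct (hE : ∀ i j, adjE E i j = true ↔ Ad R i j) (irr : ∀ a, ¬ R a a)
    (asym : ∀ a b, R a b → ¬ R b a) (out : ∀ v a b, R v a → R v b → a ≠ b → Ad R a b) (n : ℕ) :
    (∀ c ∈ (runA E n).2, c < n) ∧ (runA E n).2.Nodup ∧
      (∀ a ∈ (runA E n).2, ∀ b ∈ (runA E n).2, ¬ Ad R a b) ∧
      (∀ T : Finset ℕ, (∀ t ∈ T, t < n) → (∀ a ∈ T, ∀ b ∈ T, ¬ Ad R a b) →
        T.card ≤ (runA E n).2.length) := by
  have h1 : Inv1 n (runA E n) :=
    foldl_inv (Inv1 n) (stepA E) (inv1_step E n) _ _ (inv1_init n)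
  have h2 : Inv2 R n (runA E n) := by
    refine foldl_inv (Inv2 R n) (stepA E) (inv2_step hE irr asym out n) _ _ ?_
    refine ⟨by simp, by simp, by simp, ?_⟩
    intro T hT hTi
    exact ⟨T, fun t ht => List.mem_range.2 (hT t ht), hTi, by simp⟩
  have h3 : (runA E n).1 = [] := by
    have := runA_length E (List.range n) (List.range n, [])
    rw [← List.length_eq_zero_iff]
    unfold runA
    simp only [List.length_range] at this
    omega
  refine ⟨h1.2.1, h2.2.1, h2.1, ?_⟩
  intro T hT hTi
  obtain ⟨T', h4, -, h5⟩ := h2.2.2.2 T hT hTi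
  rw [h3] at h4
  have : T' = ∅ := by
    rw [Finset.eq_empty_iff_forall_notMem]
    intro t ht
    simpa using h4 t ht
  rw [this] at h5
  simpa using h5

end correct

end Pool.Agent.Helper15.PO
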