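import Mathlib

set_option autoImplicit false

/-! Definitions for the maximum independent set problem on 1-perfectly orientable graphs. -/

namespace Pool.Agent.Helper15.PO

/-- `D` is a 1-perfect orientation of `G`: every edge gets exactly one direction (`D u v` means
`u → v`), and any two distinct out-neighbours of a vertex are adjacent in `G`. -/
def IsOnePerfectOrientation {V : Type} (G : SimpleGraph V) (D : V → V → Prop) : Prop :=
  (∀ u v, G.Adj u v ↔ (D u v ∨ D v u)) ∧ (∀ u v, D u v → ¬ D v u) ∧
    (∀ v a b, D v a → D v b → a ≠ b → G.Adj a b)

/-- `G` is 1-perfectly orientable. -/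
def OnePerfectlyOrientable {V : Type} (G : SimpleGraph V) : Prop :=
  ∃ D : V → V → Prop, IsOnePerfectOrientation G D

/-- A finite graph on the vertex set `{0, …, n-1}`. -/
structure FinGraph where
  /-- the number of vertices -/
  n : ℕ
  /-- the graph -/
  graph : SimpleGraph (Fin n)

open Classical in
/-- The adjacency matrix of a graph, written row by row as a word of `n * n` bits. -/
noncomputable def matrixWord (X : FinGraph) : List Bool :=
  (List.finRange X.n).flatMap fun i => (List.finRange X.n).map fun j => decide (X.graph.Adj i j)

/-- The characteristic vector of a set of vertices, as a word of `n` bits. -/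
def setWord {n : ℕ} (S : Finset (Fin n)) : List Bool :=
  (List.finRange n).map fun i => decide (i ∈ S)

end Pool.Agent.Helper15.PO
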