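import Pool.Agent.Helper15.PODefs
import Pool.Agent.Helper15.POAlg

set_option autoImplicit false

namespace Pool.Agent.Helper15.PO

open Pool.Agent.Helper58 Function

open Classical in
/-- the bit of a pair of numbers -/
noncomputable def bitOf (X : FinGraph) (p : ℕ × ℕ) : Bool :=
  if h : p.1 < X.1 ∧ p.2 < X.1 then decide (X.2.Adj ⟨p.1, h.1⟩ ⟨p.2, h.2⟩) else false

theorem mem_pairs (k : ℕ) (p : ℕ × ℕ) : p ∈ pairs k ↔ p.1 < k ∧ p.2 < k := by
  unfold pairs
  rw [List.mem_flatMap]
  constructor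
  · rintro ⟨i, hi, h⟩
    rw [List.mem_map] at h
    obtain ⟨j, hj, rfl⟩ := h
    exact ⟨List.mem_range.1 hi, List.mem_range.1 hj⟩
  · rintro ⟨h1, h2⟩
    exact ⟨p.1, List.mem_range.2 h1, List.mem_map.2 ⟨p.2, List.mem_range.2 h2, rfl⟩⟩

theorem length_pairs (k : ℕ) : (pairs k).length = k * k := by
  unfold pairs
  simp [List.length_flatMap]

theorem matrixWord_eq (X : FinGraph) : matrixWord X = (pairs X.1).map (bitOf X) := by
  classical
  obtain ⟨n, G⟩ := X
  unfold matrixWord pairs
  simp only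
  rw [List.map_flatMap]
  have h1 : List.range n = (List.finRange n).map Fin.val := by simp
  rw [h1, List.flatMap_map]
  apply List.flatMap_congr
  intro i _
  rw [List.map_map, List.map_map]
  apply List.map_congr_left
  intro j _
  simp only [comp, bitOf]
  rw [dif_pos ⟨i.2, j.2⟩]

theorem numV_map (n : ℕ) (f : ℕ × ℕ → Bool) : numV ((pairs n).map f) = n := by
  unfold numV
  have h1 : ∀ k, (decide ((pairs k).length = ((pairs n).map f).length)) = decide (k = n) := by
    intro k
    rw [List.length_map, length_pairs, length_pairs]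
    congr 1
    exact propext ⟨fun h => Nat.mul_self_inj.1 h, fun h => by rw [h]⟩
  have h2 : (List.range (((pairs n).map f).length + 1)).filter
      (fun k => decide ((pairs k).length = ((pairs n).map f).length)) = [n] := by
    simp_rw [h1]
    rw [List.length_map, length_pairs]
    have h3 : n < n * n + 1 := by nlinarith [Nat.zero_le n]
    generalize n * n + 1 = m at h3
    induction m with
    | zero => omega
    | succ m ih =>
      rw [List.range_succ, List.filter_append]
      by_cases hm : n = m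
      · subst hm
        have : (List.range n).filter (fun k => decide (k = n)) = [] := by
          rw [List.filter_eq_nil_iff]
          intro a ha
          have := List.mem_range.1 ha
          simp only [decide_eq_true_eq]
          omega
        rw [this]
        simp
      · rw [ih (by omega)]
        simp [Ne.symm hm]
  rw [h2]
  rfl

theorem mem_edgesOf (n : ℕ) (f : ℕ × ℕ → Bool) (p : ℕ × ℕ) :
    p ∈ edgesOf ((pairs n).map f) ↔ p ∈ pairs n ∧ f p = true := by
  unfold edgesOf
  rw [numV_map, List.mem_map]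
  constructor
  · rintro ⟨⟨q, t⟩, h, rfl⟩
    rw [List.mem_filter, List.any_eq_true] at h
    obtain ⟨h1, ⟨b, t'⟩, h2, h3⟩ := h
    simp only [Bool.and_eq_true, decide_eq_true_eq] at h3
    obtain ⟨rfl, rfl⟩ := h3
    have h4 := List.mem_zipIdx_iff_getElem?.1 h1
    have h5 := List.mem_zipIdx_iff_getElem?.1 h2
    simp only at h4 h5 ⊢
    rw [List.getElem?_map, h4] at h5
    simp only [Option.map_some, Option.some.injEq] at h5
    exact ⟨List.mem_of_getElem? h4, h5⟩
  · rintro ⟨h1, h2⟩
    obtain ⟨t, ht, rfl⟩ := List.mem_iff_getElem.1 h1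
    refine ⟨((pairs n)[t], t), ?_, rfl⟩
    rw [List.mem_filter, List.any_eq_true]
    refine ⟨?_, (true, t), ?_, by simp⟩
    · rw [List.mem_zipIdx_iff_getElem?]
      simp [ht]
    · rw [List.mem_zipIdx_iff_getElem?]
      rw [List.getElem?_map]
      simp [ht, h2]

theorem adjE_edgesOf (X : FinGraph) (i j : ℕ) :
    adjE (edgesOf (matrixWord X)) i j = true ↔ ∃ (hi : i < X.1) (hj : j < X.1), X.2.Adj ⟨i, hi⟩ ⟨j, hj⟩ := by
  unfold adjE
  rw [List.any_eq_true, matrixWord_eq]
  constructor
  · rintro ⟨e, he, h⟩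
    rw [decide_eq_true_eq] at h
    subst h
    rw [mem_edgesOf, mem_pairs] at he
    obtain ⟨⟨h1, h2⟩, h3⟩ := he
    refine ⟨h1, h2, ?_⟩
    simp only [bitOf] at h3
    rw [dif_pos ⟨h1, h2⟩] at h3
    simpa using h3
  · rintro ⟨h1, h2, h3⟩
    refine ⟨(i, j), ?_, by simp⟩
    rw [mem_edgesOf, mem_pairs]
    refine ⟨⟨h1, h2⟩, ?_⟩
    simp only [bitOf]
    rw [dif_pos ⟨h1, h2⟩]
    simpa using h3

theorem algW_correct (n : ℕ) (G : SimpleGraph (Fin n)) (h : OnePerfectlyOrientable G) :
    ∃ S : Finset (Fin n), algW (matrixWord ⟨n, G⟩) = setWord S ∧ G.IsMaximumIndepSet S := by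
  classical
  obtain ⟨D, hD1, hD2, hD3⟩ := h
  let R : ℕ → ℕ → Prop := fun i j => ∃ (hi : i < n) (hj : j < n), D ⟨i, hi⟩ ⟨j, hj⟩
  have hAd : ∀ i j, Ad R i j ↔ ∃ (hi : i < n) (hj : j < n), G.Adj ⟨i, hi⟩ ⟨j, hj⟩ := by
    intro i j
    constructor
    · rintro (⟨hi, hj, h1⟩ | ⟨hj, hi, h1⟩)
      · exact ⟨hi, hj, (hD1 _ _).2 (Or.inl h1)⟩
      · exact ⟨hi, hj, (hD1 _ _).2 (Or.inr h1)⟩
    · rintro ⟨hi, hj, h1⟩
      rcases (hD1 _ _).1 h1 with h2 | h2
      · exact Or.inl ⟨hi, hj, h2⟩
      · exact Or.inr ⟨hj, hi, h2⟩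
  have hE : ∀ i j, adjE (edgesOf (matrixWord ⟨n, G⟩)) i j = true ↔ Ad R i j := by
    intro i j
    rw [adjE_edgesOf, hAd]
  have irr : ∀ a, ¬ R a a := by
    rintro a ⟨h1, h2, h3⟩
    exact hD2 _ _ h3 h3
  have asym : ∀ a b, R a b → ¬ R b a := by
    rintro a b ⟨h1, h2, h3⟩ ⟨h4, h5, h6⟩
    exact hD2 _ _ h3 h6
  have out : ∀ v a b, R v a → R v b → a ≠ b → Ad R a b := by
    rintro v a b ⟨h1, h2, h3⟩ ⟨h4, h5, h6⟩ hab
    rw [hAd]
    exact ⟨h2, h5, hD3 _ _ _ h3 h6 (fun e => hab (congrArg Fin.val e))⟩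
  obtain ⟨c1, c2, c3, c4⟩ := runA_correct hE irr asym out n
  have hnum : numV (matrixWord ⟨n, G⟩) = n := by
    rw [matrixWord_eq, numV_map]
  set L := (runA (edgesOf (matrixWord ⟨n, G⟩)) n).2 with hL
  let S : Finset (Fin n) := Finset.univ.filter (fun i => i.val ∈ L)
  have hScard : S.card = L.length := by
    rw [← List.toFinset_card_of_nodup c2, ← Finset.card_map ⟨Fin.val, Fin.val_injective⟩]
    congr 1
    ext a
    rw [Finset.mem_map, List.mem_toFinset]
    constructor
    · rintro ⟨i, hi, rfl⟩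
      exact (Finset.mem_filter.1 hi).2
    · intro ha
      exact ⟨⟨a, c1 a ha⟩, by simp [S, ha], rfl⟩
  refine ⟨S, ?_, ?_, ?_⟩
  · unfold algW setWord
    rw [hnum]
    have h1 : List.range n = (List.finRange n).map Fin.val := by simp
    rw [h1, List.map_map]
    apply List.map_congr_left
    intro i _
    simp only [comp]
    rw [← hL]
    rw [Bool.eq_iff_iff, List.any_eq_true, decide_eq_true_eq]
    simp only [S, Finset.mem_filter, Finset.mem_univ, true_and, decide_eq_true_eq]
    constructor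
    · rintro ⟨c, hc, rfl⟩; exact hc
    · intro hc; exact ⟨_, hc, rfl⟩
  · intro a ha b hb hab
    have ha' : a ∈ S := ha
    have hb' : b ∈ S := hb
    simp only [S, Finset.mem_filter, Finset.mem_univ, true_and] at ha' hb'
    intro hadj
    exact c3 a.val ha' b.val hb' ((hAd _ _).2 ⟨a.2, b.2, hadj⟩)
  · intro T hT
    rw [hScard]
    have := c4 (T.map ⟨Fin.val, Fin.val_injective⟩) (by
      intro t ht
      rw [Finset.mem_map] at ht
      obtain ⟨i, -, rfl⟩ := ht
      exact i.2) (by
      intro a ha b hb hab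
      rw [Finset.mem_map] at ha hb
      obtain ⟨i, hi, rfl⟩ := ha
      obtain ⟨j, hj, rfl⟩ := hb
      rw [hAd] at hab
      obtain ⟨h1, h2, h3⟩ := hab
      exact hT hi hj (fun e => by
        subst e
        exact G.loopless.irrefl _ h3) h3)
    rwa [Finset.card_map] at this

theorem matrixWord_injective : Injective matrixWord := by
  classical
  rintro ⟨n, G⟩ ⟨m, H⟩ h
  rw [matrixWord_eq, matrixWord_eq] at h
  have hnm : n = m := by
    have := congrArg numV h
    rwa [numV_map, numV_map] at this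
  subst hnm
  congr 1
  ext i j
  rw [List.map_inj_left] at h
  have := h (i.val, j.val) ((mem_pairs _ _).2 ⟨i.2, j.2⟩)
  simp only [bitOf] at this
  rw [dif_pos ⟨i.2, j.2⟩, dif_pos ⟨i.2, j.2⟩] at this
  simpa using this

/-- the main theorem -/
theorem main_theorem :
    ∃ alg : FinGraph → List Bool,
      Nonempty (Turing.TM2ComputableInPolyTime matrixWord (fun w : List Bool => w) alg) ∧
      ∀ (n : ℕ) (G : SimpleGraph (Fin n)), OnePerfectlyOrientable G →
        ∃ S : Finset (Fin n), alg ⟨n, G⟩ = setWord S ∧ G.IsMaximumIndepSet S := by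
  refine ⟨fun X => algW (matrixWord X), ?_, algW_correct⟩
  let φ : Bool → Bool × Bool := fun b => (true, b)
  have hφ : Injective φ := fun a b h => congrArg Prod.snd h
  have hinj : Injective (fun X => (matrixWord X).map φ) :=
    (List.map_injective_iff.2 hφ).comp matrixWord_injective
  refine polyTime_of_ptf matrixWord φ hinj (fun w : List Bool => w) ?_
  have h1 : PTf (fun x : Coded (fun X => (matrixWord X).map φ) hinj => (matrixWord x.val).map φ) :=
    PTf.of_enc_eq (fun _ => rfl)
  have h2 : PTf (fun x : Coded (fun X => (matrixWord X).map φ) hinj =>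
      ((matrixWord x.val).map φ).map Prod.snd) :=
    PTf.map h1 (by fun_prop)
  have h3 : PTf (fun x : Coded (fun X => (matrixWord X).map φ) hinj => matrixWord x.val) := by
    refine h2.congr (fun x => ?_)
    rw [List.map_map]
    simp [φ, comp_def]
  exact PTf.comp ptf_algW h3

end Pool.Agent.Helper15.PO
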