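import Pool.Agent.Helper15.PODefs
import Pool.Agent.Helper15.POFinal

set_option autoImplicit false

namespace Pool.Agent.Helper15.POPolynomialTime

open Pool.Agent.Helper15.PO

/-- There is a polynomial time algorithm which, given (the adjacency matrix of) a 1-perfectly
orientable graph, outputs (the characteristic vector of) a maximum independent set. -/
theorem result :
    ∃ alg : FinGraph → List Bool,
      Nonempty (Turing.TM2ComputableInPolyTime matrixWord (fun w : List Bool => w) alg) ∧
      ∀ (n : ℕ) (G : SimpleGraph (Fin n)), OnePerfectlyOrientable G →
        ∃ S : Finset (Fin n), alg ⟨n, G⟩ = setWord S ∧ G.IsMaximumIndepSet S :=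
  main_theorem

end Pool.Agent.Helper15.POPolynomialTime
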